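import Pool.Agent.MMS15.ErrDefs
import Pool.Agent.MMS14.Base

/-!
# MMS15/Base: the objects of the theory with finer tables

`Pr`, `Ex`, `ss`, `Srt`, `sd`, `lane`, `rowv`, `RowP` are those of `MMS14/Base`.
-/

set_option autoImplicit false

namespace Pool.Agent.MMS15

open Pool.Agent.MMS14

/-- boundary number `k` of the cells -/
def Yk (k : ℕ) : ℕ := Ys.getD k 0

/-- `S_k` -/
noncomputable def Sc (k : ℕ) : ℝ := (((Yk k : ℝ) ^ 2 + 10 ^ 8) / (20000 * (Yk k : ℝ))) ^ 2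

/-- `S` lies in the cell number `k ≤ 126` -/
def InC (k : ℕ) (S : ℝ) : Prop := k ≤ 126 ∧ Sc k ≤ S ∧ (k < 126 → S ≤ Sc (k + 1))

/-- `2 ^ 16 Pr ≥ v` for all sorted lists `h :: l` with `l.length ≤ n`, sign `pos` of `h`, `ss (h :: l) / h ^ 2` in the cell
`k` and threshold at most `(i - 400) / 100` standard deviations, for all `p ∈ [P0, P1] / 2 ^ 14` with `1 / 5 ≤ p ≤ 1 / 2` -/
def LB (P0 P1 n v : ℕ) (pos : Bool) (k i : ℕ) : Prop :=
  ∀ p : ℝ, (P0 : ℝ) / 16384 ≤ p → p ≤ (P1 : ℝ) / 16384 → 1 / 5 ≤ p → p ≤ 1 / 2 →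
    ∀ (h : ℝ) (l : List ℝ), Srt (h :: l) → l.length ≤ n → (if pos then 0 < h else h < 0) →
      InC k (ss (h :: l) / h ^ 2) → ∀ t : ℝ, t ≤ ((i : ℝ) - 400) / 100 * sd p (h :: l) →
        (v : ℝ) / 65536 ≤ Pr p (h :: l) t

/-- the table is right for all lists with at most `n + 1` elements -/
def GoodN (P0 P1 : ℕ) (rows : List ℕ) (n : ℕ) : Prop :=
  ∀ k, k ≤ 126 → ∀ i, LB P0 P1 n (lane (rowv rows i) k) true k i ∧ LB P0 P1 n (lane (rowv rows i) (127 + k)) false k i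

/-- the table is right -/
def Good (P0 P1 : ℕ) (rows : List ℕ) : Prop := ∀ n, GoodN P0 P1 rows n

/-- lower bounds for lists with `ss / h² ≥ S_126` (values of `gns` minus `E`) -/
def BaseOk (P0 E : ℕ) : Prop :=
  ∀ p : ℝ, (P0 : ℝ) / 16384 ≤ p → 1 / 5 ≤ p → p ≤ 1 / 2 →
    ∀ (h : ℝ) (l : List ℝ), Srt (h :: l) → h ≠ 0 → Sc 126 ≤ ss (h :: l) / h ^ 2 →
      ∀ (i : ℕ) (t : ℝ), t ≤ ((i : ℝ) - 400) / 100 * sd p (h :: l) →
        ((gns.getD i 0 : ℝ) - (E : ℝ)) / 65536 ≤ Pr p (h :: l) t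

end Pool.Agent.MMS15
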