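import Pool.Agent.MMS15.Base
import Pool.Agent.MMS14.Char
import Pool.Agent.MMS14.CharA

/-!
# MMS15/CharB: the characteristic function against the Gaussian one

`V = p (1 - p) ss l`, `h ≥ |a|` for all `a ∈ l`, `u = s h`.

`chf_norm`: product of `one_norm` with `cos_kap`: `‖chf‖ ≤ exp (- κ s² V / 2)`.
`chf_sub`: telescoping: for lists, by induction on `l` one shows
`‖chf l - exp (-s² V_l / 2)‖ ≤ ∑_(a ∈ l) ‖f1 (s a) - g_a‖ * exp (- κ s² (V_l - p(1-p) a²) / 2)`: with `l = a :: l'`,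
`f_a F' - g_a G' = (f_a - g_a) F' + g_a (F' - G')`, `‖F'‖ ≤ exp(- κ s² V'/2)`, `|g_a| ≤ exp (- κ s² p(1-p)a²/2)` (`κ ≤ 1` because
`κ ≤ 1 - u²/12 + u⁴/360 - u⁶/20160 ≤ 1`: the polynomial `- x/12 + x²/360 - x³/20160 ≤ 0` for `x ≥ 0`).
Then `p(1-p) a² ≤ V_l / 10` (from `10 h² ≤ ss l`), so the exponent is at least `0.45 κ s² V_l` in absolute value, and
`∑ ‖f1 - g‖ ≤ ∑ p(1-p) s² a² w = s² V w` by `one_gauss`, `|s a| ≤ u`.
-/

set_option autoImplicit false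

namespace Pool.Agent.MMS15

open Pool.Agent.MMS14

theorem chf_cons (p s a : ℝ) (l : List ℝ) : chf p s (a :: l) = f1 p (s * a) * chf p s l := by
  unfold chf f1
  rw [List.map_cons, List.prod_cons]
  have e1 : s * ((1 - p) * a) = (1 - p) * (s * a) := by ring
  have e2 : s * (p * a) = p * (s * a) := by ring
  rw [e1, e2]

theorem chf_norm {p s h κ : ℝ} (h0 : 0 ≤ p) (h1 : p ≤ 1) (hs : 0 ≤ s) {l : List ℝ} (hl : ∀ a ∈ l, |a| ≤ h)
    (hκ : κ ≤ 1 - (s * h) ^ 2 / 12 + (s * h) ^ 4 / 360 - (s * h) ^ 6 / 20160) :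
    ‖chf p s l‖ ≤ Real.exp (-(κ * (s ^ 2 * (p * (1 - p) * ss l)) / 2)) := by
  have hq : 0 ≤ p * (1 - p) := mul_nonneg h0 (by linarith)
  induction l with
  | nil =>
    have e : chf p s [] = 1 := by
      unfold chf
      rw [List.map_nil, List.prod_nil]
    rw [e, ss_nil]
    simp
  | cons a l ih =>
    have ih' := ih fun b hb => hl b (List.mem_cons_of_mem a hb)
    rw [chf_cons, norm_mul, ss_cons]
    have hv : |s * a| ≤ s * h := by
      rw [abs_mul, abs_of_nonneg hs]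
      exact mul_le_mul_of_nonneg_left (hl a List.mem_cons_self) hs
    have h2 := cos_kap hv hκ
    have h3 : ‖f1 p (s * a)‖ ≤ Real.exp (-(κ * (s ^ 2 * (p * (1 - p) * a ^ 2)) / 2)) := by
      refine (one_norm h0 h1 (s * a)).trans (Real.exp_le_exp.2 ?_)
      have h4 := mul_le_mul_of_nonneg_left h2 hq
      have e : p * (1 - p) * (κ * (s * a) ^ 2 / 2) = κ * (s ^ 2 * (p * (1 - p) * a ^ 2)) / 2 := by
        ring
      linarith
    refine (mul_le_mul h3 ih' (norm_nonneg _) (Real.exp_pos _).le).trans (le_of_eq ?_)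
    rw [← Real.exp_add]
    congr 1
    ring

private theorem chf_sub_aux {p s h κ M : ℝ} (h0 : 0 ≤ p) (h1 : p ≤ 1 / 2) (hs : 0 ≤ s)
    (hκ0 : 0 ≤ κ) (hκ : κ ≤ 1 - (s * h) ^ 2 / 12 + (s * h) ^ 4 / 360 - (s * h) ^ 6 / 20160)
    (l : List ℝ) (hl : ∀ a ∈ l, |a| ≤ h) (hM : ∀ a ∈ l, p * (1 - p) * a ^ 2 ≤ M) :
    ‖chf p s l - (Real.exp (-(s ^ 2 * (p * (1 - p) * ss l) / 2)) : ℂ)‖ ≤
      s ^ 2 * (p * (1 - p) * ss l) * ((1 - 2 * p) * (s * h) / 6 + (s * h) ^ 2 / 24) *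
        Real.exp (-(κ * (s ^ 2 * (p * (1 - p) * ss l - M)) / 2)) := by
  have hq : 0 ≤ p * (1 - p) := mul_nonneg h0 (by linarith)
  have hκ1 : κ ≤ 1 := by
    have hx : 0 ≤ (s * h) ^ 2 := sq_nonneg _
    nlinarith [mul_nonneg hx (sq_nonneg ((s * h) ^ 2 - 28))]
  induction l with
  | nil =>
    have e : chf p s [] = 1 := by
      unfold chf
      rw [List.map_nil, List.prod_nil]
    rw [e, ss_nil]
    simp
  | cons a l ih =>
    have hl' : ∀ b ∈ l, |b| ≤ h := fun b hb => hl b (List.mem_cons_of_mem a hb)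
    have ih' := ih hl' fun b hb => hM b (List.mem_cons_of_mem a hb)
    have hMa := hM a List.mem_cons_self
    have ha := hl a List.mem_cons_self
    have hh : 0 ≤ h := (abs_nonneg a).trans ha
    have hsh : 0 ≤ s * h := mul_nonneg hs hh
    have hv : |s * a| ≤ s * h := by
      rw [abs_mul, abs_of_nonneg hs]
      exact mul_le_mul_of_nonneg_left ha hs
    have hv2 : (s * a) ^ 2 ≤ (s * h) ^ 2 := by
      rw [← sq_abs (s * a)]
      exact pow_le_pow_left₀ (abs_nonneg _) hv 2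
    have hn := chf_norm h0 (by linarith : p ≤ 1) hs hl' hκ
    have hg := one_gauss h0 h1 (s * a)
    rw [chf_cons, ss_cons]
    set w : ℝ := (1 - 2 * p) * (s * h) / 6 + (s * h) ^ 2 / 24 with hw
    have hw0 : 0 ≤ w := by
      have : 0 ≤ 1 - 2 * p := by linarith
      positivity
    set V : ℝ := p * (1 - p) * ss l with hV
    have hV0 : 0 ≤ V := mul_nonneg hq (ss_nonneg l)
    set Q : ℝ := p * (1 - p) * a ^ 2 with hQ
    have hQ0 : 0 ≤ Q := mul_nonneg hq (sq_nonneg a)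
    have eQV : p * (1 - p) * (a ^ 2 + ss l) = Q + V := by rw [hQ, hV]; ring
    rw [eQV]
    have eg : p * (1 - p) * (s * a) ^ 2 = s ^ 2 * Q := by rw [hQ]; ring
    rw [eg] at hg
    have hsQ : 0 ≤ s ^ 2 * Q := by positivity
    -- the difference of one factor
    have hg' : ‖f1 p (s * a) - (Real.exp (-(s ^ 2 * Q / 2)) : ℂ)‖ ≤ s ^ 2 * Q * w := by
      refine hg.trans (mul_le_mul_of_nonneg_left ?_ hsQ)
      rw [hw]
      have h2 : 0 ≤ 1 - 2 * p := by linarith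
      have h3 := mul_le_mul_of_nonneg_left hv h2
      linarith
    have esum : (Real.exp (-(s ^ 2 * (Q + V) / 2)) : ℂ) =
        (Real.exp (-(s ^ 2 * Q / 2)) : ℂ) * (Real.exp (-(s ^ 2 * V / 2)) : ℂ) := by
      rw [← Complex.ofReal_mul, ← Real.exp_add]
      congr 2
      ring
    rw [esum]
    have key : f1 p (s * a) * chf p s l -
        (Real.exp (-(s ^ 2 * Q / 2)) : ℂ) * (Real.exp (-(s ^ 2 * V / 2)) : ℂ) =
        (f1 p (s * a) - (Real.exp (-(s ^ 2 * Q / 2)) : ℂ)) * chf p s l +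
        (Real.exp (-(s ^ 2 * Q / 2)) : ℂ) * (chf p s l - (Real.exp (-(s ^ 2 * V / 2)) : ℂ)) := by
      ring
    rw [key]
    refine (norm_add_le _ _).trans ?_
    rw [norm_mul, norm_mul]
    set E : ℝ := Real.exp (-(κ * (s ^ 2 * (Q + V - M)) / 2)) with hE
    have t1 : ‖f1 p (s * a) - (Real.exp (-(s ^ 2 * Q / 2)) : ℂ)‖ * ‖chf p s l‖ ≤
        (s ^ 2 * Q * w) * E := by
      refine mul_le_mul hg' (hn.trans (Real.exp_le_exp.2 ?_)) (norm_nonneg _) (by positivity)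
      have h2 : 0 ≤ κ * (s ^ 2 * (M - Q)) :=
        mul_nonneg hκ0 (mul_nonneg (sq_nonneg s) (by linarith))
      nlinarith
    have t2 : ‖(Real.exp (-(s ^ 2 * Q / 2)) : ℂ)‖ *
        ‖chf p s l - (Real.exp (-(s ^ 2 * V / 2)) : ℂ)‖ ≤ (s ^ 2 * V * w) * E := by
      have h2 : ‖(Real.exp (-(s ^ 2 * Q / 2)) : ℂ)‖ ≤ Real.exp (-(κ * (s ^ 2 * Q) / 2)) := by
        rw [Complex.norm_real, Real.norm_of_nonneg (Real.exp_pos _).le]
        refine Real.exp_le_exp.2 ?_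
        nlinarith [mul_le_mul_of_nonneg_right hκ1 hsQ]
      refine (mul_le_mul h2 ih' (norm_nonneg _) (Real.exp_pos _).le).trans (le_of_eq ?_)
      have h3 : E = Real.exp (-(κ * (s ^ 2 * Q) / 2)) *
          Real.exp (-(κ * (s ^ 2 * (V - M)) / 2)) := by
        rw [hE, ← Real.exp_add]
        congr 1
        ring
      rw [h3]
      ring
    refine (add_le_add t1 t2).trans (le_of_eq ?_)
    ring

theorem chf_sub {p s h κ : ℝ} (h0 : 0 ≤ p) (h1 : p ≤ 1 / 2) (hs : 0 ≤ s) {l : List ℝ} (hl : ∀ a ∈ l, |a| ≤ h)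
    (hS : 15 * h ^ 2 ≤ ss l) (hκ0 : 0 ≤ κ) (hκ : κ ≤ 1 - (s * h) ^ 2 / 12 + (s * h) ^ 4 / 360 - (s * h) ^ 6 / 20160) :
    ‖chf p s l - (Real.exp (-(s ^ 2 * (p * (1 - p) * ss l) / 2)) : ℂ)‖ ≤
      s ^ 2 * (p * (1 - p) * ss l) * ((1 - 2 * p) * (s * h) / 6 + (s * h) ^ 2 / 24) *
        Real.exp (-(7 / 15 * κ * (s ^ 2 * (p * (1 - p) * ss l)))) := by
  have hq : 0 ≤ p * (1 - p) := mul_nonneg h0 (by linarith)
  have hM : ∀ a ∈ l, p * (1 - p) * a ^ 2 ≤ p * (1 - p) * ss l / 15 := by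
    intro a ha
    have h2 : a ^ 2 ≤ h ^ 2 := by
      rw [← sq_abs a]
      exact pow_le_pow_left₀ (abs_nonneg a) (hl a ha) 2
    have h3 : a ^ 2 ≤ ss l / 15 := by linarith
    have h4 := mul_le_mul_of_nonneg_left h3 hq
    linarith
  refine (chf_sub_aux h0 h1 hs hκ0 hκ l hl hM).trans (le_of_eq ?_)
  congr 2
  ring

end Pool.Agent.MMS15
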