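import Pool.Agent.MMS15.Base
import Pool.Agent.MMS15.EvS

/-!
# MMS15/GnsS: soundness of the list `gns`

`damp`: `|dA_m - A_m exp (- (mπ/10)²/2)| ≤ 2^-29`: first a rational enclosure `|g - g₀| ≤ 10^-14` of `g = exp (- π²/400)` (Taylor of
the exponential of `-0.0493..`, `Real.exp_bound`, bounds for `π²`), then `exp (- m² π²/400) = g^(m²)` (relative error `≤ 625 * 10^-13`),
and the 25 pairs of integers by `norm_num` (the entries are the nearest integers up to `1`).
`gns_sound`: for `v = gns_i > 0` the check `gnOk i v` (kernel, `gns_all : gnsOk gns 0 = true`, 0.4 s) says at `j = 2 (1200 - i)`: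
`10000 (rhs + v 2^14 o + 20000 o) + c30 o (10000 + (i - 400)²) ≤ 10000 lhs`, so by `ev_sound`
`tp dmP dmN (j/100) ≥ v / 2^16 + 20000 / 2^30 + c (1 + τ²) - 2^-38`, `τ = (i - 400)/100`; `j / 100 = 24 - i/100 = 20 - τ`, period 20: value at
`- τ`; replace the 36 coefficients by the exact ones (error at most `36 * 2^-29 ≤ 7e-8`, the slack is `20000 / 2^30 = 1.8e-5`).
-/

set_option autoImplicit false

namespace Pool.Agent.MMS15

open Pool.Agent.MMS14

theorem gns_all : gnsOk gns 0 = true := by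
  decide +kernel

private theorem gn_exp :
    |Real.exp (-(Real.pi ^ 2 / 200)) - 951849807369 / 1000000000000| ≤ 1 / 1000000000000 := by
  have h1 := Real.pi_gt_d20
  have h2 := Real.pi_lt_d20
  have hx1 : (-(4934802200545 / 100000000000000) : ℝ) ≤ -(Real.pi ^ 2 / 200) := by
    norm_num at h1 h2 ⊢
    nlinarith
  have hx2 : -(Real.pi ^ 2 / 200) ≤ (-(4934802200544 / 100000000000000) : ℝ) := by
    norm_num at h1 h2 ⊢
    nlinarith
  have e1 := Real.exp_bound (x := -(4934802200545 / 100000000000000)) (by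
    rw [abs_neg, abs_of_pos (by norm_num)]; norm_num) (n := 7) (by norm_num)
  have e2 := Real.exp_bound (x := -(4934802200544 / 100000000000000)) (by
    rw [abs_neg, abs_of_pos (by norm_num)]; norm_num) (n := 7) (by norm_num)
  have m1 := Real.exp_le_exp.2 hx1
  have m2 := Real.exp_le_exp.2 hx2
  rw [abs_neg, abs_of_pos (show (0 : ℝ) < 4934802200545 / 100000000000000 by norm_num), abs_le] at e1
  rw [abs_neg, abs_of_pos (show (0 : ℝ) < 4934802200544 / 100000000000000 by norm_num), abs_le] at e2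
  simp only [Finset.sum_range_succ, Finset.sum_range_zero, Nat.factorial] at e1 e2
  norm_num at e1 e2
  rw [abs_le]
  constructor
  · linarith [e1.1]
  · linarith [e2.2]

private theorem gn_pow {x y e : ℝ} (hx0 : 0 ≤ x) (hx1 : x ≤ 1) (hy0 : 0 ≤ y) (hy1 : y ≤ 1)
    (h : |x - y| ≤ e) : ∀ k : ℕ, |x ^ k - y ^ k| ≤ k * e := by
  intro k
  induction k with
  | zero => simp
  | succ k ih =>
    have e0 : x ^ (k + 1) - y ^ (k + 1) = x ^ k * (x - y) + (x ^ k - y ^ k) * y := by ring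
    rw [e0]
    have h1 : |x ^ k * (x - y)| ≤ e := by
      rw [abs_mul, abs_of_nonneg (pow_nonneg hx0 k)]
      exact (mul_le_mul (pow_le_one₀ hx0 hx1) h (abs_nonneg _) zero_le_one).trans (by rw [one_mul])
    have h2 : |(x ^ k - y ^ k) * y| ≤ k * e := by
      rw [abs_mul, abs_of_nonneg hy0]
      exact (mul_le_mul_of_nonneg_left hy1 (abs_nonneg _)).trans (by rw [mul_one]; exact ih)
    push_cast
    linarith [abs_add_le (x ^ k * (x - y)) ((x ^ k - y ^ k) * y)]

private theorem gn_term {a b c d k : ℕ} (hk : k ≤ 625) (hc : c ≤ 1000000000) (hd : d ≤ 1000000000)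
    (h1 : a * 1000000000000 ^ k + d * 951849807369 ^ k ≤
      b * 1000000000000 ^ k + c * 951849807369 ^ k + 3 * 1000000000000 ^ k)
    (h2 : b * 1000000000000 ^ k + c * 951849807369 ^ k ≤
      a * 1000000000000 ^ k + d * 951849807369 ^ k + 3 * 1000000000000 ^ k) :
    |((a : ℝ) - (b : ℝ)) / 1073741824 - ((c : ℝ) - (d : ℝ)) / 1073741824 *
      Real.exp (-(Real.pi ^ 2 / 200)) ^ k| ≤ 1 / 2 ^ 28 := by
  obtain ⟨g, hg⟩ : ∃ g, g = Real.exp (-(Real.pi ^ 2 / 200)) := ⟨_, rfl⟩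
  obtain ⟨G, hG⟩ : ∃ G : ℝ, G = 951849807369 / 1000000000000 := ⟨_, rfl⟩
  have hg0 : 0 ≤ g := by rw [hg]; exact (Real.exp_pos _).le
  have hg1 : g ≤ 1 := by
    rw [hg, Real.exp_le_one_iff]
    have := sq_nonneg Real.pi
    linarith
  have he : |g - G| ≤ 1 / 1000000000000 := by rw [hg, hG]; exact gn_exp
  have hp := gn_pow hg0 hg1 (by rw [hG]; norm_num) (by rw [hG]; norm_num) he k
  rw [← hg]
  have hD : (0 : ℝ) < 1000000000000 ^ k := by positivity
  have hGk : (951849807369 : ℝ) ^ k = G ^ k * 1000000000000 ^ k := by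
    rw [← mul_pow, hG]
    norm_num
  have r1 : (a : ℝ) * 1000000000000 ^ k + d * 951849807369 ^ k ≤
      b * 1000000000000 ^ k + c * 951849807369 ^ k + 3 * 1000000000000 ^ k := by exact_mod_cast h1
  have r2 : (b : ℝ) * 1000000000000 ^ k + c * 951849807369 ^ k ≤
      a * 1000000000000 ^ k + d * 951849807369 ^ k + 3 * 1000000000000 ^ k := by exact_mod_cast h2
  rw [hGk] at r1 r2
  have s1 : (a : ℝ) + d * G ^ k ≤ b + c * G ^ k + 3 := by
    apply le_of_mul_le_mul_right _ hD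
    linarith
  have s2 : (b : ℝ) + c * G ^ k ≤ a + d * G ^ k + 3 := by
    apply le_of_mul_le_mul_right _ hD
    linarith
  have hk' : (k : ℝ) ≤ 625 := by exact_mod_cast hk
  have hc' : (c : ℝ) ≤ 1000000000 := by exact_mod_cast hc
  have hd' : (d : ℝ) ≤ 1000000000 := by exact_mod_cast hd
  have hc0 : (0 : ℝ) ≤ c := Nat.cast_nonneg c
  have hd0 : (0 : ℝ) ≤ d := Nat.cast_nonneg d
  have hcd : |(c : ℝ) - d| ≤ 1000000000 := by
    rw [abs_le]
    constructor <;> linarith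
  have t1 : |((c : ℝ) - d) * (g ^ k - G ^ k)| ≤ 1000000000 * (625 * (1 / 1000000000000)) := by
    rw [abs_mul]
    refine mul_le_mul hcd (hp.trans ?_) (abs_nonneg _) (by norm_num)
    exact mul_le_mul_of_nonneg_right hk' (by norm_num)
  have t2 := abs_le.1 t1
  have e0 : ((a : ℝ) - (b : ℝ)) / 1073741824 - ((c : ℝ) - (d : ℝ)) / 1073741824 * g ^ k =
      (((a : ℝ) - b) - (c - d) * G ^ k - (c - d) * (g ^ k - G ^ k)) / 1073741824 := by ring
  rw [e0, abs_div, abs_of_pos (show (0 : ℝ) < 1073741824 by norm_num), div_le_iff₀ (by norm_num),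
    abs_le]
  norm_num at t2 ⊢
  constructor <;> linarith [t2.1, t2.2]

/-- the integer check for the damped coefficients -/
private theorem gn_chk : ∀ m, m < 25 →
    ((m + 1) ^ 2 ≤ 625 ∧ (coP.getD m (0, 0)).1 ≤ 1000000000 ∧ (coN.getD m (0, 0)).1 ≤ 1000000000 ∧
      (coP.getD m (0, 0)).2 ≤ 1000000000 ∧ (coN.getD m (0, 0)).2 ≤ 1000000000) ∧
    ((dmP.getD m (0, 0)).1 * 1000000000000 ^ ((m + 1) ^ 2) +
      (coN.getD m (0, 0)).1 * 951849807369 ^ ((m + 1) ^ 2) ≤
      (dmN.getD m (0, 0)).1 * 1000000000000 ^ ((m + 1) ^ 2) +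
        (coP.getD m (0, 0)).1 * 951849807369 ^ ((m + 1) ^ 2) + 3 * 1000000000000 ^ ((m + 1) ^ 2) ∧
    (dmN.getD m (0, 0)).1 * 1000000000000 ^ ((m + 1) ^ 2) +
      (coP.getD m (0, 0)).1 * 951849807369 ^ ((m + 1) ^ 2) ≤
      (dmP.getD m (0, 0)).1 * 1000000000000 ^ ((m + 1) ^ 2) +
        (coN.getD m (0, 0)).1 * 951849807369 ^ ((m + 1) ^ 2) + 3 * 1000000000000 ^ ((m + 1) ^ 2)) ∧
    ((dmP.getD m (0, 0)).2 * 1000000000000 ^ ((m + 1) ^ 2) +
      (coN.getD m (0, 0)).2 * 951849807369 ^ ((m + 1) ^ 2) ≤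
      (dmN.getD m (0, 0)).2 * 1000000000000 ^ ((m + 1) ^ 2) +
        (coP.getD m (0, 0)).2 * 951849807369 ^ ((m + 1) ^ 2) + 3 * 1000000000000 ^ ((m + 1) ^ 2) ∧
    (dmN.getD m (0, 0)).2 * 1000000000000 ^ ((m + 1) ^ 2) +
      (coP.getD m (0, 0)).2 * 951849807369 ^ ((m + 1) ^ 2) ≤
      (dmP.getD m (0, 0)).2 * 1000000000000 ^ ((m + 1) ^ 2) +
        (coN.getD m (0, 0)).2 * 951849807369 ^ ((m + 1) ^ 2) + 3 * 1000000000000 ^ ((m + 1) ^ 2)) := by
  decide +kernel

theorem damp (m : ℕ) (hm : m < 25) :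
    |cA dmP dmN m - cA coP coN m * Real.exp (-((((m : ℝ) + 1) * (Real.pi / 10)) ^ 2 / 2))| ≤ 1 / 2 ^ 28 ∧
    |cB dmP dmN m - cB coP coN m * Real.exp (-((((m : ℝ) + 1) * (Real.pi / 10)) ^ 2 / 2))| ≤ 1 / 2 ^ 28 := by
  obtain ⟨⟨hk, c1, c2, c3, c4⟩, ⟨h1, h2⟩, h3, h4⟩ := gn_chk m hm
  have e : Real.exp (-((((m : ℝ) + 1) * (Real.pi / 10)) ^ 2 / 2)) =
      Real.exp (-(Real.pi ^ 2 / 200)) ^ ((m + 1) ^ 2) := by
    rw [← Real.exp_nat_mul]
    congr 1
    push_cast
    ring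
  rw [e]
  exact ⟨gn_term hk c1 c2 h1 h2, gn_term hk c3 c4 h3 h4⟩

private theorem gn_list : ∀ (l : List ℕ) (i0 : ℕ), gnsOk l i0 = true → ∀ i, i < l.length →
    gnOk (i0 + i) (l.getD i 0) = true := by
  intro l
  induction l with
  | nil => intro i0 _ i hi; simp at hi
  | cons v l ih =>
    intro i0 h i hi
    have h' : et (gnOk i0 v) (gnsOk l (Nat.succ i0)) = true := h
    rw [et_true] at h'
    cases i with
    | zero => simpa using h'.1
    | succ i =>
      have := ih (Nat.succ i0) h'.2 i (by simpa using hi)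
      rw [List.getD_cons_succ]
      rw [show i0 + (i + 1) = Nat.succ i0 + i by omega]
      exact this

private theorem gn_real {i v : ℕ} (hi : i < 701) (hv : v ≠ 0) (h : gnOk i v = true) :
    (v : ℝ) / 65536 + 20000 / 1073741824 + (c30 : ℝ) / 1073741824 * (1 + (((i : ℝ) - 400) / 100) ^ 2) ≤
      ((lhs dmP dmN (2400 - i) : ℝ) - (rhs dmP dmN (2400 - i) : ℝ)) /
        (1073741824 * 72057594037927936) := by
  have h0 : Nat.beq v 0 = false := by
    cases v with
    | zero => exact absurd rfl hv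
    | succ v => rfl
  have h1 := (ou_true.1 (h : ou (Nat.beq v 0) _ = true)).resolve_left (by rw [h0]; simp)
  have h2 : 10000 * ((rhs dmP dmN (2400 - i) + (v * 16384) * o56) + 20000 * o56) +
      (c30 * o56) * (10000 + ((i - 400) * (i - 400) + (400 - i) * (400 - i))) ≤
      10000 * lhs dmP dmN (2400 - i) := Nat.le_of_ble_eq_true h1
  have h3 : (((i - 400) * (i - 400) + (400 - i) * (400 - i) : ℕ) : ℝ) = ((i : ℝ) - 400) ^ 2 := by
    rcases le_total i 400 with h | h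
    · rw [Nat.sub_eq_zero_of_le h]
      push_cast [Nat.cast_sub h]
      ring
    · rw [Nat.sub_eq_zero_of_le h]
      push_cast [Nat.cast_sub h]
      ring
  have h4 : 10000 * (((rhs dmP dmN (2400 - i) : ℝ) + ((v : ℝ) * 16384) * (o56 : ℝ)) +
      20000 * (o56 : ℝ)) + ((c30 : ℝ) * (o56 : ℝ)) * (10000 + ((i : ℝ) - 400) ^ 2) ≤
      10000 * (lhs dmP dmN (2400 - i) : ℝ) := by
    rw [← h3]
    exact_mod_cast h2
  have h5 : (o56 : ℝ) = 72057594037927936 := by
    unfold o56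
    norm_num
  rw [h5] at h4
  rw [le_div_iff₀ (by norm_num)]
  generalize (lhs dmP dmN (2400 - i) : ℝ) = L at h4 ⊢
  generalize (rhs dmP dmN (2400 - i) : ℝ) = R at h4 ⊢
  generalize (c30 : ℝ) = c at h4 ⊢
  generalize (v : ℝ) = V at h4 ⊢
  generalize (i : ℝ) = I at h4 ⊢
  linear_combination (1 / 10000) * h4

theorem gns_sound (i : ℕ) (hi : gns.getD i 0 ≠ 0) :
    ((gns.getD i 0 : ℕ) : ℝ) / 65536 ≤ (A0 : ℝ) / 1073741824 + (∑ m ∈ Finset.range 25,
      Real.exp (-((((m : ℝ) + 1) * (Real.pi / 10)) ^ 2 / 2)) *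
        (cA coP coN m * Real.cos (((m : ℝ) + 1) * (Real.pi / 10) * (((i : ℝ) - 400) / 100)) -
          cB coP coN m * Real.sin (((m : ℝ) + 1) * (Real.pi / 10) * (((i : ℝ) - 400) / 100)))) -
      (c30 : ℝ) / 1073741824 * (1 + (((i : ℝ) - 400) / 100) ^ 2) := by
  have hlen : gns.length = 701 := by decide +kernel
  have hi' : i < 701 := by
    by_contra hcon
    apply hi
    rw [List.getD_eq_default]
    rw [hlen]
    omega
  have h1 := gn_list gns 0 gns_all i (by rw [hlen]; exact hi')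
  rw [Nat.zero_add] at h1
  have h2 := gn_real hi' hi h1
  have h3 := ev_sound (P := dmP) (N := dmN) (by decide +kernel) (by decide +kernel) su_dm (2400 - i)
  obtain ⟨τ, hτ⟩ : ∃ τ : ℝ, τ = ((i : ℝ) - 400) / 100 := ⟨_, rfl⟩
  have e1 : ((2400 - i : ℕ) : ℝ) / 100 = -τ + 20 := by
    rw [hτ]
    push_cast [Nat.cast_sub (show i ≤ 2400 by omega)]
    ring
  rw [e1, tp_period] at h3
  rw [← hτ] at h2 ⊢
  have e2 : tp dmP dmN (-τ) = (A0 : ℝ) / 1073741824 + ∑ m ∈ Finset.range 25,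
      (cA dmP dmN m * Real.cos (((m : ℝ) + 1) * (Real.pi / 10) * τ) -
        cB dmP dmN m * Real.sin (((m : ℝ) + 1) * (Real.pi / 10) * τ)) := by
    unfold tp
    congr 1
    apply Finset.sum_congr rfl
    intro m _
    rw [mul_neg, Real.cos_neg, Real.sin_neg]
    ring
  rw [e2] at h3
  have e3 : ∑ m ∈ Finset.range 25,
      (cA dmP dmN m * Real.cos (((m : ℝ) + 1) * (Real.pi / 10) * τ) -
        cB dmP dmN m * Real.sin (((m : ℝ) + 1) * (Real.pi / 10) * τ)) ≤
      ∑ m ∈ Finset.range 25, (Real.exp (-((((m : ℝ) + 1) * (Real.pi / 10)) ^ 2 / 2)) *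
        (cA coP coN m * Real.cos (((m : ℝ) + 1) * (Real.pi / 10) * τ) -
          cB coP coN m * Real.sin (((m : ℝ) + 1) * (Real.pi / 10) * τ)) + 1 / 2 ^ 27) := by
    apply Finset.sum_le_sum
    intro m hm
    obtain ⟨d1, d2⟩ := damp m (Finset.mem_range.1 hm)
    generalize Real.exp (-((((m : ℝ) + 1) * (Real.pi / 10)) ^ 2 / 2)) = E at d1 d2 ⊢
    have k1 := Real.abs_cos_le_one (((m : ℝ) + 1) * (Real.pi / 10) * τ)
    have k2 := Real.abs_sin_le_one (((m : ℝ) + 1) * (Real.pi / 10) * τ)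
    generalize Real.cos (((m : ℝ) + 1) * (Real.pi / 10) * τ) = C at k1 ⊢
    generalize Real.sin (((m : ℝ) + 1) * (Real.pi / 10) * τ) = S at k2 ⊢
    have l1 : (cA dmP dmN m - cA coP coN m * E) * C ≤ 1 / 2 ^ 28 := by
      refine (le_abs_self _).trans ?_
      rw [abs_mul]
      exact (mul_le_mul d1 k1 (abs_nonneg _) (by positivity)).trans (by rw [mul_one])
    have l2 : -((cB dmP dmN m - cB coP coN m * E) * S) ≤ 1 / 2 ^ 28 := by
      refine (neg_le_abs _).trans ?_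
      rw [abs_mul]
      exact (mul_le_mul d2 k2 (abs_nonneg _) (by positivity)).trans (by rw [mul_one])
    generalize cA dmP dmN m = x1 at l1 ⊢
    generalize cA coP coN m = x2 at l1 ⊢
    generalize cB dmP dmN m = x3 at l2 ⊢
    generalize cB coP coN m = x4 at l2 ⊢
    have e5 : (1 : ℝ) / 2 ^ 27 = 1 / 2 ^ 28 + 1 / 2 ^ 28 := by norm_num
    rw [e5]
    linarith
  rw [Finset.sum_add_distrib, Finset.sum_const, Finset.card_range] at e3
  have h4 := (abs_le.1 h3).2
  norm_num at e3 h4 h2 ⊢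
  linarith

end Pool.Agent.MMS15
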