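import Pool.Agent.MMS15.Base
import Pool.Agent.MMS15.ErrS
import Pool.Agent.MMS15.Minor
import Pool.Agent.MMS15.GnsS

/-!
# MMS15/BaseF: the base lane

Let `σ = sd p (h :: l) > 0`, `τ = (i - 400) / 100`, `L = h :: l`, `hh = |h|`, `10 hh² ≤ Sc 126 hh² ≤ ss L` (`Sc_126`).  If `gns_i = 0` (in particular
for `i ≥ 701`) the left side is `≤ 0 ≤ Pr`.  Otherwise `Pr p L t ≥ Pr p L (τ σ) = Ex 1_{τσ ≤ x}` (`Pr_eq_Ex`), and by `minorant` at
`(x - τσ)/σ`: `1 ≥ tp coP coN ((x - τσ)/σ) - c ((x - τσ)/σ)²`.  `Ex ((x - τσ)/σ)² = 1 + τ²` (`Ex_sq`, `Ex_id`).  For each harmonic `m + 1`: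
`s = (m+1) π/10 / σ`, `trig_ge` with `τσ` in the place of `τ`, `g = exp (- ((m+1)π/10)²/2)`, `D = dU P0 (m+1) / 2^40` (`dU_sound`), `c = Cm_m / 2^30`
(`cA² + cB² ≤ (Cm_m / 2^30)²`: integers, `decide`).  Sum with `Ex_add`; the main terms are the right side of `gns_sound`, the errors sum to at most
`E / 65536` by `err_sum`.
-/

set_option autoImplicit false

namespace Pool.Agent.MMS15

open Pool.Agent.MMS14

private def cmbF : Bool := (List.range 25).all fun m =>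
  Nat.ble (((coP.getD m (0, 0)).1 + (coN.getD m (0, 0)).1) ^ 2 + ((coP.getD m (0, 0)).2 + (coN.getD m (0, 0)).2) ^ 2)
    ((Cm.getD m 0) ^ 2)

private theorem cmbF_true : cmbF = true := by decide +kernel

private theorem cmF_le {m : ℕ} (hm : m < 25) :
    cA coP coN m ^ 2 + cB coP coN m ^ 2 ≤ ((Cm.getD m 0 : ℕ) / 1073741824 : ℝ) ^ 2 := by
  have h1 := cmbF_true
  unfold cmbF at h1
  rw [List.all_eq_true] at h1
  have h2 := Nat.le_of_ble_eq_true (h1 m (List.mem_range.mpr hm))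
  have h3 : (((((coP.getD m (0, 0)).1 + (coN.getD m (0, 0)).1) ^ 2 + ((coP.getD m (0, 0)).2 + (coN.getD m (0, 0)).2) ^ 2 : ℕ)) : ℝ) ≤
      (((Cm.getD m 0) ^ 2 : ℕ) : ℝ) := Nat.cast_le.mpr h2
  push_cast at h3
  unfold cA cB
  rw [div_pow, div_pow, div_pow, ← add_div]
  refine div_le_div_of_nonneg_right ?_ (by positivity)
  have p1 : (0 : ℝ) ≤ ((coP.getD m (0, 0)).1 : ℝ) := Nat.cast_nonneg _
  have p2 : (0 : ℝ) ≤ ((coN.getD m (0, 0)).1 : ℝ) := Nat.cast_nonneg _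
  have p3 : (0 : ℝ) ≤ ((coP.getD m (0, 0)).2 : ℝ) := Nat.cast_nonneg _
  have p4 : (0 : ℝ) ≤ ((coN.getD m (0, 0)).2 : ℝ) := Nat.cast_nonneg _
  nlinarith [mul_nonneg p1 p2, mul_nonneg p3 p4]

private theorem Ex_sumF (p : ℝ) (l : List ℝ) (F : ℕ → ℝ → ℝ) (n : ℕ) :
    Ex p l (fun x => ∑ m ∈ Finset.range n, F m x) = ∑ m ∈ Finset.range n, Ex p l (F m) := by
  induction n with
  | zero => simpa using Ex_const p 0 l
  | succ n ih =>
    simp only [Finset.sum_range_succ]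
    rw [Ex_add p l (fun x => ∑ m ∈ Finset.range n, F m x) (fun x => F n x), ih]

private theorem Ex_quadF {p : ℝ} {l : List ℝ} {σ τ : ℝ} (hσ : 0 < σ) (h : σ ^ 2 = p * (1 - p) * ss l) :
    Ex p l (fun x => ((x - τ * σ) / σ) ^ 2) = 1 + τ ^ 2 := by
  have h1 : (fun x : ℝ => ((x - τ * σ) / σ) ^ 2) = fun x => (1 / σ ^ 2) * x ^ 2 + ((-2 * τ / σ) * x + τ ^ 2) := by
    funext x
    field_simp
    ring
  rw [h1, Ex_add p l (fun x => (1 / σ ^ 2) * x ^ 2) (fun x => (-2 * τ / σ) * x + τ ^ 2),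
    Ex_add p l (fun x => (-2 * τ / σ) * x) (fun _ => τ ^ 2), Ex_smul p (1 / σ ^ 2) l (fun x => x ^ 2),
    Ex_smul p (-2 * τ / σ) l (fun x => x), Ex_id, Ex_const, Ex_sq, ← h]
  field_simp
  ring

/-- one harmonic -/
private theorem harmF {P0 : ℕ} (hP : P0 ≤ 8192) {p : ℝ} (hp : (P0 : ℝ) / 16384 ≤ p) (h15 : 1 / 5 ≤ p) (h12 : p ≤ 1 / 2)
    {h : ℝ} {l : List ℝ} (hl : ∀ a ∈ l, |a| ≤ h) (hh : 0 < h) (hS : 15 * h ^ 2 ≤ ss l) (hσ : 0 < sd p l) (τ : ℝ) {m : ℕ}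
    (hm : m < 25) :
    Real.exp (-((((m : ℝ) + 1) * (Real.pi / 10)) ^ 2 / 2)) *
        (cA coP coN m * Real.cos (((m : ℝ) + 1) * (Real.pi / 10) * τ) -
          cB coP coN m * Real.sin (((m : ℝ) + 1) * (Real.pi / 10) * τ)) -
      (Cm.getD m 0 : ℝ) / 1073741824 * ((dU P0 (m + 1) : ℝ) / 1099511627776) ≤
    Ex p l (fun x => cA coP coN m * Real.cos (((m : ℝ) + 1) * (Real.pi / 10) * ((x - τ * sd p l) / sd p l)) +
      cB coP coN m * Real.sin (((m : ℝ) + 1) * (Real.pi / 10) * ((x - τ * sd p l) / sd p l))) := by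
  have h1 := dU_sound (m := m + 1) hP hp h15 h12 hl hh hS
  rw [Nat.cast_add, Nat.cast_one] at h1
  have h2 := trig_ge p (((m : ℝ) + 1) * (Real.pi / 10) / sd p l) (τ * sd p l) (cA coP coN m) (cB coP coN m)
    ((Cm.getD m 0 : ℕ) / 1073741824 : ℝ) (Real.exp (-((((m : ℝ) + 1) * (Real.pi / 10)) ^ 2 / 2))) _ l h1 (cmF_le hm)
    (by positivity)
  have e1 : ((m : ℝ) + 1) * (Real.pi / 10) / sd p l * (τ * sd p l) = ((m : ℝ) + 1) * (Real.pi / 10) * τ := by
    field_simp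
  have e2 : (fun x : ℝ => cA coP coN m * Real.cos (((m : ℝ) + 1) * (Real.pi / 10) / sd p l * (x - τ * sd p l)) +
      cB coP coN m * Real.sin (((m : ℝ) + 1) * (Real.pi / 10) / sd p l * (x - τ * sd p l))) =
      fun x => cA coP coN m * Real.cos (((m : ℝ) + 1) * (Real.pi / 10) * ((x - τ * sd p l) / sd p l)) +
      cB coP coN m * Real.sin (((m : ℝ) + 1) * (Real.pi / 10) * ((x - τ * sd p l) / sd p l)) := by
    funext x
    have : ((m : ℝ) + 1) * (Real.pi / 10) / sd p l * (x - τ * sd p l) =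
        ((m : ℝ) + 1) * (Real.pi / 10) * ((x - τ * sd p l) / sd p l) := by ring
    rw [this]
  rw [e1, e2] at h2
  exact h2

theorem base_ok {P0 E : ℕ} (hP : P0 ≤ 8192) (h : eOk P0 E = true) : BaseOk P0 E := by
  intro p hp h15 h12 hd l hsrt hne hSc i t ht
  have hp0 : 0 ≤ p := by linarith
  have hp1 : p ≤ 1 := by linarith
  have hE : (0 : ℝ) ≤ E := Nat.cast_nonneg _
  by_cases hg : gns.getD i 0 = 0
  · have h0 := Pr_nonneg hp0 hp1 (hd :: l) t
    rw [hg, Nat.cast_zero]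
    have h1 : ((0 : ℝ) - (E : ℝ)) / 65536 ≤ 0 := by
      apply div_nonpos_of_nonpos_of_nonneg <;> linarith
    linarith
  have hh : 0 < |hd| := abs_pos.mpr hne
  have hS : 15 * |hd| ^ 2 ≤ ss (hd :: l) := by
    have h1 := Sc_126.1.trans hSc
    rw [le_div_iff₀ (by positivity)] at h1
    rwa [sq_abs]
  have hss : 0 < ss (hd :: l) := lt_of_lt_of_le (by positivity) hS
  have hl : ∀ a ∈ hd :: l, |a| ≤ |hd| := by
    intro a ha
    rcases List.mem_cons.mp ha with ha | ha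
    · rw [ha]
    · exact Srt_head hsrt a ha
  obtain ⟨L, hL⟩ : ∃ L : List ℝ, L = hd :: l := ⟨_, rfl⟩
  rw [← hL] at hS hss hl ht ⊢
  have hV : 0 < p * (1 - p) * ss L := mul_pos (mul_pos (by linarith) (by linarith)) hss
  have hσ : 0 < sd p L := Real.sqrt_pos.mpr hV
  have hσ2 : sd p L ^ 2 = p * (1 - p) * ss L := Real.sq_sqrt hV.le
  obtain ⟨τ, hτ⟩ : ∃ τ : ℝ, τ = ((i : ℝ) - 400) / 100 := ⟨_, rfl⟩
  rw [← hτ] at ht
  have h1 : Pr p L (τ * sd p L) ≤ Pr p L t := Pr_anti hp0 hp1 L ht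
  rw [Pr_eq_Ex] at h1
  have h2 : Ex p L (fun x => tp coP coN ((x - τ * sd p L) / sd p L) -
      (c30 : ℝ) / 1073741824 * ((x - τ * sd p L) / sd p L) ^ 2) ≤
      Ex p L (fun x => if τ * sd p L ≤ x then 1 else 0) := by
    refine Ex_mono hp0 hp1 L fun x => ?_
    have h3 := minorant ((x - τ * sd p L) / sd p L)
    have h4 : (0 ≤ (x - τ * sd p L) / sd p L) ↔ τ * sd p L ≤ x := by
      rw [le_div_iff₀ hσ, zero_mul, sub_nonneg]
    simp only [h4] at h3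
    exact h3
  have h5 : Ex p L (fun x => tp coP coN ((x - τ * sd p L) / sd p L) -
      (c30 : ℝ) / 1073741824 * ((x - τ * sd p L) / sd p L) ^ 2) =
      (A0 : ℝ) / 1073741824 + (∑ m ∈ Finset.range 25,
        Ex p L (fun x => cA coP coN m * Real.cos (((m : ℝ) + 1) * (Real.pi / 10) * ((x - τ * sd p L) / sd p L)) +
          cB coP coN m * Real.sin (((m : ℝ) + 1) * (Real.pi / 10) * ((x - τ * sd p L) / sd p L)))) -
        (c30 : ℝ) / 1073741824 * (1 + τ ^ 2) := by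
    have h6 : (fun x : ℝ => tp coP coN ((x - τ * sd p L) / sd p L) -
        (c30 : ℝ) / 1073741824 * ((x - τ * sd p L) / sd p L) ^ 2) =
        fun x => (tp coP coN ((x - τ * sd p L) / sd p L)) +
          (-((c30 : ℝ) / 1073741824)) * ((x - τ * sd p L) / sd p L) ^ 2 := by
      funext x
      ring
    rw [h6, Ex_add p L (fun x => tp coP coN ((x - τ * sd p L) / sd p L))
      (fun x => (-((c30 : ℝ) / 1073741824)) * ((x - τ * sd p L) / sd p L) ^ 2),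
      Ex_smul p (-((c30 : ℝ) / 1073741824)) L (fun x => ((x - τ * sd p L) / sd p L) ^ 2), Ex_quadF hσ hσ2]
    unfold tp
    rw [Ex_add p L (fun _ => (A0 : ℝ) / 1073741824) (fun x => ∑ m ∈ Finset.range 25,
      (cA coP coN m * Real.cos (((m : ℝ) + 1) * (Real.pi / 10) * ((x - τ * sd p L) / sd p L)) +
        cB coP coN m * Real.sin (((m : ℝ) + 1) * (Real.pi / 10) * ((x - τ * sd p L) / sd p L)))), Ex_const,
      Ex_sumF p L (fun m x => cA coP coN m * Real.cos (((m : ℝ) + 1) * (Real.pi / 10) * ((x - τ * sd p L) / sd p L)) +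
        cB coP coN m * Real.sin (((m : ℝ) + 1) * (Real.pi / 10) * ((x - τ * sd p L) / sd p L))) 25]
    ring
  have h7 := Finset.sum_le_sum fun m (hm : m ∈ Finset.range 25) =>
    harmF hP hp h15 h12 hl hh hS hσ τ (Finset.mem_range.mp hm)
  rw [Finset.sum_sub_distrib] at h7
  have h8 := err_sum h
  have h9 := gns_sound i hg
  rw [← hτ] at h9
  rw [sub_div]
  linarith

end Pool.Agent.MMS15
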