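import Pool.Agent.MMS15.Base

/-!
# MMS15/BoxD: the meaning of the boxes of the certificate trees (definitions only)

A box is a list of atoms (last one first) together with an interval `[sa, sb] / 1000` for the sum of the squares of the whole list.
A list `l` (sorted by decreasing absolute value) is written `pre.reverse ++ r`: `pre` (last one first) is matched with the atoms.
-/

set_option autoImplicit false

namespace Pool.Agent.MMS15

open Pool.Agent.MMS14

/-- the number `x` fits the atom -/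
def Fit : At → ℝ → Prop
  | .p lo hi, x => (lo : ℝ) / 1000 ≤ x ∧ x ≤ (hi : ℝ) / 1000
  | .m lo hi, x => (lo : ℝ) / 1000 ≤ -x ∧ -x ≤ (hi : ℝ) / 1000

/-- atoms and numbers (last one first) -/
def Mt (ats : List At) (pre : List ℝ) : Prop := List.Forall₂ Fit ats pre

/-- `pre.reverse ++ r` is sorted by decreasing absolute value -/
def Pre (pre r : List ℝ) : Prop :=
  pre.Pairwise (fun a b => |a| ≤ |b|) ∧ Srt r ∧ ∀ a ∈ pre, ∀ b ∈ r, |b| ≤ |a|

/-- the list `l` belongs to one of the exceptional boxes -/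
def Exc (xs : List XC) (l : List ℝ) : Prop :=
  ∃ x ∈ xs, ∃ pre r : List ℝ, l = pre.reverse ++ r ∧ Mt x.ats pre ∧ 1000000 * ss r ≤ (x.V : ℝ)

/-- the conclusion for a list: the probability is large, or the list is exceptional -/
def Ccl (p : ℝ) (tgt eps : ℕ) (xs : List XC) (pre r : List ℝ) : Prop :=
  (tgt : ℝ) / 65536 ≤ Pr p (pre ++ r) ((eps : ℝ) / 16384000) ∨ Exc xs (pre.reverse ++ r)

/-- `vm` are lower bounds for all lists: row `i` (threshold `(i - 400) / 100` standard deviations) -/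
def LowOk (P0 P1 : ℕ) (vm : List ℕ) : Prop :=
  ∀ p : ℝ, (P0 : ℝ) / 16384 ≤ p → p ≤ (P1 : ℝ) / 16384 → 1 / 5 ≤ p → ∀ l : List ℝ, 0 < ss l →
    ∀ i : ℕ, ∀ t : ℝ, t ≤ ((i : ℝ) - 400) / 100 * sd p l → ((vm.getD i 0 : ℕ) : ℝ) / 65536 ≤ Pr p l t

end Pool.Agent.MMS15
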