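import Pool.Agent.H36.MMSMain

/-!
# MMS15/ChgA: the charging lemma (double counting of disjoint pairs)

`N = R.card`.  Bad sets: `U ⊆ R`, `|U| = a`, `sg x U < α`; good sets: `g ⊆ R`, `|g| = b`, `β ≤ sg x g` with weight `w (sg x g)`; auxiliary sets `h ⊆ R`, `|h| = a`,
`δ ≤ sg x h`.  Sum `h2` over all bad `U`:
`∑_(U bad) pr (R \ U) a (δ ≤ sg x ·) = ∑_U #{h ⊆ R \ U} / C(N - a, a) = ∑_(h aux) #{U bad, U ⊆ R \ h} / C(N - a, a) ≤ #aux` (`|R \ U| = N - a`; at most `C(N - a, a)` sets `U ⊆ R \ h`), and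
`∑_(U bad) avg (R \ U) b (..) = ∑_(g good) w(g) #{U bad ⊆ R \ g} / C(N - a, b) = ∑_g w(g) pr (R \ g) a (bad) C(N - b, a) / C(N - a, b) ≤ #good C(N - b, a) / C(N - a, b)` by `h1`.
Compare `MMS14/StarA` (`star_count`), whose proof is the case `e = 0`, `κ = 1`.
`ratio_le`: `C(M + a, a) / C(M + b, b) ≤ (b / (M + b)) ^ (b - a)` for `a ≤ b`, `1 ≤ b`: induction on `b - a` (from `a + 1` to `a`:
`C(M + a, a) = C(M + a + 1, a + 1) (a + 1) / (M + a + 1)` (`choose_eq` or `Nat.succ_mul_choose_eq`) and `(a + 1) / (M + a + 1) ≤ b / (M + b)`).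
-/

open Finset Pool.Agent.H36.MMS

set_option autoImplicit false

namespace Pool.Agent.MMS15

variable {α : Type*} [DecidableEq α]

theorem charge {R : Finset α} {a b : ℕ} (x : α → ℝ) {A B δ e κ : ℝ} (he : 0 ≤ e) (hκ : 0 ≤ κ) (hab : a + b ≤ R.card)
    (haa : a + a ≤ R.card) (w : ℝ → ℝ)
    (h1 : ∀ g, g ⊆ R → g.card = b → B ≤ sg x g → pr (R \ g) a (fun U => sg x U < A) * w (sg x g) ≤ 1)
    (h2 : ∀ U, U ⊆ R → U.card = a → sg x U < A →
      1 ≤ e * pr (R \ U) a (fun h => δ ≤ sg x h) + κ * avg (R \ U) b (fun g => if B ≤ sg x g then w (sg x g) else 0)) :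
    ((((R.powersetCard a).filter (fun U => sg x U < A)).card : ℕ) : ℝ) ≤
      e * (((R.powersetCard a).filter (fun h => δ ≤ sg x h)).card : ℝ) +
      κ * (((R.card - b).choose a : ℝ) / ((R.card - a).choose b : ℝ)) *
        (((R.powersetCard b).filter (fun g => B ≤ sg x g)).card : ℝ) := by
  classical
  obtain ⟨U0, hU0⟩ : ∃ U0, U0 = (R.powersetCard a).filter (fun U => sg x U < A) := ⟨_, rfl⟩
  obtain ⟨H0, hH0⟩ : ∃ H0, H0 = (R.powersetCard a).filter (fun h => δ ≤ sg x h) := ⟨_, rfl⟩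
  obtain ⟨G0, hG0⟩ : ∃ G0, G0 = (R.powersetCard b).filter (fun g => B ≤ sg x g) := ⟨_, rfl⟩
  rw [← hU0, ← hH0, ← hG0]
  obtain ⟨D, hD⟩ : ∃ D : ℝ, D = ((R.card - a).choose a : ℝ) := ⟨_, rfl⟩
  obtain ⟨E, hE⟩ : ∃ E : ℝ, E = ((R.card - a).choose b : ℝ) := ⟨_, rfl⟩
  obtain ⟨F, hF⟩ : ∃ F : ℝ, F = ((R.card - b).choose a : ℝ) := ⟨_, rfl⟩
  rw [← hE, ← hF]
  have hDpos : 0 < D := by
    rw [hD]
    exact_mod_cast Nat.choose_pos (by omega)
  have hEpos : 0 < E := by
    rw [hE]
    exact_mod_cast Nat.choose_pos (by omega)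
  have hFpos : 0 < F := by
    rw [hF]
    exact_mod_cast Nat.choose_pos (by omega)
  have claimU : ∀ U ∈ U0, (1 : ℝ) ≤ e * ((∑ h ∈ H0, (if Disjoint U h then (1 : ℝ) else 0)) / D) +
      κ * ((∑ g ∈ G0, (if Disjoint U g then w (sg x g) else 0)) / E) := by
    intro U hU
    rw [hU0, mem_filter, mem_powersetCard] at hU
    have hc : (R \ U).card = R.card - a := by
      rw [card_sdiff_of_subset hU.1.1, hU.1.2]
    have e1 : ∑ g ∈ G0, (if Disjoint U g then w (sg x g) else 0) =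
        ∑ g ∈ (R \ U).powersetCard b, (if B ≤ sg x g then w (sg x g) else 0) := by
      rw [← Finset.sum_filter, ← Finset.sum_filter]
      refine Finset.sum_congr ?_ fun _ _ => rfl
      ext T
      rw [hG0, mem_filter, mem_filter, mem_filter, mem_powersetCard, mem_powersetCard,
        subset_sdiff, disjoint_comm]
      tauto
    have e2 : ∑ h ∈ H0, (if Disjoint U h then (1 : ℝ) else 0) =
        ((((R \ U).powersetCard a).filter (fun h => δ ≤ sg x h)).card : ℝ) := by
      rw [← Finset.sum_filter, Finset.sum_const, nsmul_eq_mul, mul_one]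
      congr 2
      ext T
      rw [hH0, mem_filter, mem_filter, mem_filter, mem_powersetCard, mem_powersetCard,
        subset_sdiff, disjoint_comm]
      tauto
    have e3 := h2 U hU.1.1 hU.1.2 hU.2
    rw [pr_eq, hc, ← hD, ← e2] at e3
    unfold avg at e3
    rw [hc, ← hE, ← e1] at e3
    exact e3
  have claimH : ∀ h ∈ H0, ∑ U ∈ U0, (if Disjoint U h then (1 : ℝ) else 0) ≤ D := by
    intro T hT
    rw [hH0, mem_filter, mem_powersetCard] at hT
    have hc : (R \ T).card = R.card - a := by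
      rw [card_sdiff_of_subset hT.1.1, hT.1.2]
    rw [← Finset.sum_filter, Finset.sum_const, nsmul_eq_mul, mul_one, hD, ← hc,
      ← card_powersetCard]
    norm_cast
    refine Finset.card_le_card fun U hU => ?_
    rw [mem_filter, hU0, mem_filter, mem_powersetCard] at hU
    rw [mem_powersetCard, subset_sdiff]
    exact ⟨⟨hU.1.1.1, hU.2⟩, hU.1.1.2⟩
  have claimG : ∀ g ∈ G0, ∑ U ∈ U0, (if Disjoint U g then w (sg x g) else 0) ≤ F := by
    intro T hT
    rw [hG0, mem_filter, mem_powersetCard] at hT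
    have hc : (R \ T).card = R.card - b := by
      rw [card_sdiff_of_subset hT.1.1, hT.1.2]
    have e1 : ∑ U ∈ U0, (if Disjoint U T then w (sg x T) else 0) =
        ((((R \ T).powersetCard a).filter (fun U => sg x U < A)).card : ℝ) * w (sg x T) := by
      rw [← Finset.sum_filter, Finset.sum_const, nsmul_eq_mul]
      congr 2
      congr 1
      ext U
      rw [hU0, mem_filter, mem_filter, mem_filter, mem_powersetCard, mem_powersetCard,
        subset_sdiff]
      tauto
    have e2 : ((((R \ T).powersetCard a).filter (fun U => sg x U < A)).card : ℝ) =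
        pr (R \ T) a (fun U => sg x U < A) * F := by
      rw [pr_eq, hc, ← hF, div_mul_cancel₀]
      exact hFpos.ne'
    have e3 := h1 T hT.1.1 hT.1.2 hT.2
    rw [e1, e2]
    calc pr (R \ T) a (fun U => sg x U < A) * F * w (sg x T)
        = (pr (R \ T) a (fun U => sg x U < A) * w (sg x T)) * F := by ring
      _ ≤ 1 * F := mul_le_mul_of_nonneg_right e3 hFpos.le
      _ = F := one_mul F
  have h3 : (U0.card : ℝ) ≤ ∑ U ∈ U0, (e * ((∑ h ∈ H0, (if Disjoint U h then (1 : ℝ) else 0)) / D) +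
      κ * ((∑ g ∈ G0, (if Disjoint U g then w (sg x g) else 0)) / E)) := by
    have h := Finset.sum_le_sum claimU
    rwa [Finset.sum_const, nsmul_eq_mul, mul_one] at h
  refine h3.trans ?_
  rw [Finset.sum_add_distrib, ← Finset.mul_sum, ← Finset.mul_sum, ← Finset.sum_div,
    ← Finset.sum_div, Finset.sum_comm, Finset.sum_comm (s := U0) (t := G0)]
  have h4 : ∑ h ∈ H0, ∑ U ∈ U0, (if Disjoint U h then (1 : ℝ) else 0) ≤ H0.card * D := by
    rw [← nsmul_eq_mul, ← Finset.sum_const]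
    exact Finset.sum_le_sum claimH
  have h5 : ∑ g ∈ G0, ∑ U ∈ U0, (if Disjoint U g then w (sg x g) else 0) ≤ G0.card * F := by
    rw [← nsmul_eq_mul, ← Finset.sum_const]
    exact Finset.sum_le_sum claimG
  have h6 : (∑ h ∈ H0, ∑ U ∈ U0, (if Disjoint U h then (1 : ℝ) else 0)) / D ≤ H0.card := by
    rw [div_le_iff₀ hDpos]
    exact h4
  have h7 : (∑ g ∈ G0, ∑ U ∈ U0, (if Disjoint U g then w (sg x g) else 0)) / E ≤
      F / E * G0.card := by
    rw [div_mul_eq_mul_div, mul_comm F]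
    exact div_le_div_of_nonneg_right h5 hEpos.le
  have h8 := mul_le_mul_of_nonneg_left h6 he
  have h9 := mul_le_mul_of_nonneg_left h7 hκ
  rw [mul_assoc]
  exact add_le_add h8 h9

theorem ratio_le {M a b : ℕ} (hab : a ≤ b) (hb : 1 ≤ b) :
    ((M + a).choose a : ℝ) / ((M + b).choose b : ℝ) ≤ ((b : ℝ) / ((M : ℝ) + b)) ^ (b - a) := by
  obtain ⟨d, hd⟩ := Nat.exists_eq_add_of_le hab
  have key : ∀ d a : ℕ, a + d ≤ b → ((M + a).choose a : ℝ) ≤
      ((M + (a + d)).choose (a + d) : ℝ) * ((b : ℝ) / ((M : ℝ) + b)) ^ d := by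
    intro d
    induction d with
    | zero => intro a _; simp
    | succ d ih =>
      intro a h
      have h1 := ih (a + 1) (by omega)
      have h2 : (a + 1) + d = a + (d + 1) := by omega
      rw [h2] at h1
      have h3 := Nat.add_one_mul_choose_eq (M + a) a
      have h4 : ((M : ℝ) + a + 1) * ((M + a).choose a : ℝ) =
          ((M + (a + 1)).choose (a + 1) : ℝ) * ((a : ℝ) + 1) := by
        have : M + (a + 1) = M + a + 1 := by omega
        rw [this]
        exact_mod_cast h3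
      have hb0 : (1 : ℝ) ≤ b := by exact_mod_cast hb
      have hM0 : (0 : ℝ) ≤ M := Nat.cast_nonneg M
      have ha0 : (0 : ℝ) ≤ a := Nat.cast_nonneg a
      have hab1 : (a : ℝ) + 1 ≤ b := by
        have : a + 1 ≤ b := by omega
        exact_mod_cast this
      have hc0 : (0 : ℝ) ≤ ((M + (a + 1)).choose (a + 1) : ℝ) := Nat.cast_nonneg _
      have h5 : ((a : ℝ) + 1) / ((M : ℝ) + a + 1) ≤ (b : ℝ) / ((M : ℝ) + b) := by
        rw [div_le_div_iff₀ (by positivity) (by positivity)]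
        nlinarith
      have h6 : ((M + a).choose a : ℝ) =
          ((M + (a + 1)).choose (a + 1) : ℝ) * (((a : ℝ) + 1) / ((M : ℝ) + a + 1)) := by
        rw [mul_div_assoc', eq_div_iff (by positivity), ← h4]
        ring
      rw [h6]
      calc ((M + (a + 1)).choose (a + 1) : ℝ) * (((a : ℝ) + 1) / ((M : ℝ) + a + 1))
          ≤ ((M + (a + 1)).choose (a + 1) : ℝ) * ((b : ℝ) / ((M : ℝ) + b)) :=
            mul_le_mul_of_nonneg_left h5 hc0
        _ ≤ (((M + (a + (d + 1))).choose (a + (d + 1)) : ℝ) * ((b : ℝ) / ((M : ℝ) + b)) ^ d) *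
            ((b : ℝ) / ((M : ℝ) + b)) := mul_le_mul_of_nonneg_right h1 (by positivity)
        _ = _ := by rw [pow_succ]; ring
  have hpos : (0 : ℝ) < ((M + b).choose b : ℝ) := by
    exact_mod_cast Nat.choose_pos (by omega)
  rw [div_le_iff₀ hpos]
  have h := key d a (by omega)
  rw [← hd] at h
  have hd2 : b - a = d := by omega
  rw [hd2, mul_comm]
  exact h

end Pool.Agent.MMS15
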