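import Pool.Agent.H36.MMSMain

/-!
# MMS15/ChgB: Cantelli for the bad sets, the variance, and the conditional Jensen inequality

`chg_cantelli`: `W` a finite set, `k ≤ |W|`, `φ` with (if `φ > 0`) `φ ≤ k mean - A` (so `sg x U < A` implies `sg (zc x W) U < - φ`), variance
`Vh |W| k * dev x W ≤ v`: `pr ≤ V / (V + λ²)` (`cantelli` in `H36/MMSTail`, as in `MMS14/StarB`), `V / (V + λ²) (1 + φ²/v) ≤ 1` for `0 < φ ≤ λ`, `V ≤ v`; `pr ≤ 1` if `φ ≤ 0`.
`chg_jensen`: copy the proof of `MMS14/StarC` (`star_jensen`, the case `A = 1 - P`, `Q = P`, `β = 0`), `avg_cs` is there.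
`chg_var`: `Vh M k = k (M - k) / (M (M - 1))`, `r = k/M ≤ Q ≤ 1/2`: `r (1 - r) ≤ Q (1 - Q)`, `M / (M - 1) ≤ 1.0001`, `dev x W ≤ ps x 2 R ≤ V` (`dev_le_center` with centre `0`; `W ⊆ R`).
-/

open Finset Pool.Agent.H36.MMS

set_option autoImplicit false

namespace Pool.Agent.MMS15

variable {α : Type*} [DecidableEq α]

private lemma dev_le_ps {R W : Finset α} (x : α → ℝ) (hW : W ⊆ R) : dev x W ≤ ps x 2 R := by
  refine (dev_le_center x W 0).trans ?_
  unfold ps
  have h : ∀ i ∈ W, (x i - 0) ^ 2 = x i ^ 2 := by intro i _; ring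
  rw [Finset.sum_congr rfl h]
  exact Finset.sum_le_sum_of_subset_of_nonneg hW (fun i _ _ => by positivity)

private lemma chg_pr_le_one {U : Finset α} {k : ℕ} (hk : k ≤ U.card) (Q : Finset α → Prop)
    [DecidablePred Q] : pr U k Q ≤ 1 := by
  unfold pr
  have h := avg_mono (U := U) (k := k) (f := fun S => if Q S then (1:ℝ) else 0) (g := fun _ => (1:ℝ))
    (by intro S _ _; split_ifs <;> norm_num)
  rwa [avg_const hk] at h

private lemma avg_cs {U : Finset α} {k : ℕ} (f g : Finset α → ℝ) :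
    (avg U k (fun S => f S * g S)) ^ 2 ≤ avg U k (fun S => f S ^ 2) * avg U k (fun S => g S ^ 2) := by
  unfold avg
  rw [div_pow, div_mul_div_comm, ← pow_two]
  exact div_le_div_of_nonneg_right (Finset.sum_mul_sq_le_sq_mul_sq _ _ _) (by positivity)

theorem chg_cantelli {W : Finset α} {k : ℕ} (x : α → ℝ) (hk : k ≤ W.card) (hW : 2 ≤ W.card) {v φ A : ℝ} (hv : 0 < v)
    (hV : Vh W.card k * dev x W ≤ v) (hV0 : 0 ≤ Vh W.card k) (hφ : 0 < φ → φ ≤ (k : ℝ) * mean x W - A) :
    pr W k (fun U => sg x U < A) * (1 + (max 0 φ) ^ 2 / v) ≤ 1 := by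
  have hpr1 : pr W k (fun U => sg x U < A) ≤ 1 := chg_pr_le_one hk _
  rcases le_or_gt φ 0 with hneg | hpos
  · rw [max_eq_left hneg]
    simpa using hpr1
  · rw [max_eq_right hpos.le]
    obtain ⟨lam, hlam⟩ : ∃ lam : ℝ, lam = (k : ℝ) * mean x W - A := ⟨_, rfl⟩
    have hlamφ : φ ≤ lam := by rw [hlam]; exact hφ hpos
    have hlampos : 0 < lam := lt_of_lt_of_le hpos hlamφ
    obtain ⟨V, hVdef⟩ : ∃ V : ℝ, V = Vh W.card k * dev x W := ⟨_, rfl⟩
    rw [← hVdef] at hV
    have hV00 : 0 ≤ V := by rw [hVdef]; exact mul_nonneg hV0 (dev_nonneg x W)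
    have hav1 : avg W k (fun S => sg (zc x W) S ^ 1) = 0 := avg_W1 x hk (by omega)
    have hav2 : avg W k (fun S => sg (zc x W) S ^ 2) = V := by rw [hVdef]; exact avg_W2 x hk hW
    have hc := cantelli hk (fun S => sg (zc x W) S) hav1 hav2 hV00 hlampos
    have hpr : pr W k (fun U => sg x U < A) ≤ V / (V + lam ^ 2) := by
      refine le_trans (pr_mono ?_) hc
      intro S _ hSc hS
      rw [sg_zc, hSc, hlam]
      linarith
    have h5 : V / (V + lam ^ 2) ≤ v / (v + φ ^ 2) := by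
      rw [div_le_div_iff₀ (by positivity) (by positivity)]
      have h51 : V * φ ^ 2 ≤ v * lam ^ 2 := by
        have h52 : φ ^ 2 ≤ lam ^ 2 := pow_le_pow_left₀ hpos.le hlamφ 2
        exact mul_le_mul hV h52 (by positivity) hv.le
      calc V * (v + φ ^ 2) = V * v + V * φ ^ 2 := by ring
        _ ≤ V * v + v * lam ^ 2 := by linarith
        _ = v * (V + lam ^ 2) := by ring
    have h6 : v / (v + φ ^ 2) * (1 + φ ^ 2 / v) = 1 := by
      have : v + φ ^ 2 ≠ 0 := by positivity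
      field_simp
    calc pr W k (fun U => sg x U < A) * (1 + φ ^ 2 / v)
        ≤ v / (v + φ ^ 2) * (1 + φ ^ 2 / v) :=
          mul_le_mul_of_nonneg_right (hpr.trans h5) (by positivity)
      _ = 1 := h6

theorem chg_jensen {W : Finset α} {k : ℕ} (x : α → ℝ) (hk : k ≤ W.card) (hW : 2 ≤ W.card) {A Q v β π : ℝ} (hQ : 0 ≤ Q)
    (hv : 0 < v) (hV : Vh W.card k * dev x W ≤ v) (hπ : π = pr W k (fun T => β ≤ sg x T)) (hπ0 : 0 < π) :
    π * (1 + (max 0 (A - Q * (k * mean x W + √(v * ((1 - π) / π))))) ^ 2 / v) ≤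
      avg W k (fun T => if β ≤ sg x T then 1 + (max 0 (A - Q * sg x T)) ^ 2 / v else 0) := by
  set μ : ℝ := k * mean x W with hμ
  set c : ℝ := √(v * ((1 - π) / π)) with hc
  set B : Finset α → ℝ := fun T => if β ≤ sg x T then (1 : ℝ) else 0 with hA
  set G : Finset α → ℝ := fun T => sg (zc x W) T with hG
  have hGe : ∀ T : Finset α, T.card = k → G T = sg x T - μ := by
    intro T hT
    rw [hG, hμ]
    simp only [sg_zc, hT]
  have hπA : avg W k B = π := by rw [hπ]; rfl
  have hG1 : avg W k G = 0 := by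
    have := avg_W1 x hk (by omega : 0 < W.card)
    simpa using this
  have hG2 : avg W k (fun T => G T ^ 2) ≤ v := by
    have := avg_W2 x hk hW
    rw [hG]
    linarith
  have hπ1 : π ≤ 1 := by
    rw [← hπA, ← avg_const hk (1 : ℝ)]
    refine avg_mono fun S _ _ => ?_
    simp only [hA]
    split_ifs <;> norm_num
  have hA2 : avg W k (fun T => (B T - π) ^ 2) = π * (1 - π) := by
    have e : avg W k (fun T => (B T - π) ^ 2) = avg W k (fun T => (1 - 2 * π) * B T + π ^ 2) := by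
      refine avg_congr fun T _ _ => ?_
      simp only [hA]
      split_ifs <;> ring
    rw [e, avg_add, avg_mul, avg_const hk, hπA]
    ring
  have hAG : avg W k (fun T => B T * G T) ≤ √(v * (π * (1 - π))) := by
    have e : avg W k (fun T => B T * G T) = avg W k (fun T => (B T - π) * G T) := by
      have e1 : avg W k (fun T => (B T - π) * G T) =
          avg W k (fun T => B T * G T - π * G T) := by
        refine avg_congr fun T _ _ => ?_
        ring
      rw [e1, avg_sub, avg_mul, hG1]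
      ring
    rw [e]
    have h1 := avg_cs (U := W) (k := k) (fun T => B T - π) G
    rw [hA2] at h1
    have h2 : 0 ≤ π * (1 - π) := mul_nonneg hπ0.le (by linarith)
    have h3 : (avg W k (fun T => (B T - π) * G T)) ^ 2 ≤ v * (π * (1 - π)) := by
      refine h1.trans ?_
      rw [mul_comm v]
      exact mul_le_mul_of_nonneg_left hG2 h2
    exact Real.le_sqrt_of_sq_le h3
  have hπc : √(v * (π * (1 - π))) = π * c := by
    have e : v * (π * (1 - π)) = π ^ 2 * (v * ((1 - π) / π)) := by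
      field_simp
    rw [e, Real.sqrt_mul (by positivity), Real.sqrt_sq hπ0.le]
  set ψ : ℝ := A - Q * (μ + c) with hψ
  set t : ℝ := max 0 ψ with ht
  have ht0 : 0 ≤ t := le_max_left _ _
  have htψ : t * ψ = t ^ 2 := by
    rcases le_total 0 ψ with h | h
    · rw [ht, max_eq_right h]; ring
    · rw [ht, max_eq_left h]; ring
  have hlin : π * ψ ≤ avg W k (fun T => (A - Q * μ) * B T - Q * (B T * G T)) := by
    rw [avg_sub, avg_mul, avg_mul, hπA]
    have h1 : Q * avg W k (fun T => B T * G T) ≤ Q * (π * c) := by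
      rw [← hπc]
      exact mul_le_mul_of_nonneg_left hAG hQ
    rw [hψ]
    nlinarith [h1]
  have hmain : avg W k (fun T => (1 - t ^ 2 / v) * B T + (2 * t / v) *
      ((A - Q * μ) * B T - Q * (B T * G T))) ≤
      avg W k (fun T => if β ≤ sg x T then 1 + (max 0 (A - Q * sg x T)) ^ 2 / v else 0) := by
    refine avg_mono fun T _ hT => ?_
    rw [hGe T hT]
    simp only [hA]
    split_ifs with h
    · have h1 : 2 * t * (A - Q * sg x T) - t ^ 2 ≤ (max 0 (A - Q * sg x T)) ^ 2 := by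
        have h2 : A - Q * sg x T ≤ max 0 (A - Q * sg x T) := le_max_right _ _
        nlinarith [sq_nonneg (t - max 0 (A - Q * sg x T)), mul_le_mul_of_nonneg_left h2 ht0]
      have h3 := div_le_div_of_nonneg_right h1 hv.le
      refine le_trans (le_of_eq ?_) (add_le_add_right h3 1)
      field_simp
      ring
    · simp
  refine le_trans ?_ hmain
  rw [avg_add, avg_mul, avg_mul, hπA]
  have h4 : (2 * t / v) * (π * ψ) ≤ (2 * t / v) *
      avg W k (fun T => (A - Q * μ) * B T - Q * (B T * G T)) :=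
    mul_le_mul_of_nonneg_left hlin (by positivity)
  refine le_trans (le_of_eq ?_) (add_le_add_right h4 ((1 - t ^ 2 / v) * π))
  have h5 : (2 * t / v) * (π * ψ) = 2 * π * (t * ψ) / v := by ring
  rw [h5, htψ]
  ring

theorem chg_var {R W : Finset α} {k : ℕ} (x : α → ℝ) {V Q : ℝ} (hM : 20000 ≤ W.card) (hkW : k ≤ W.card)
    (hr : (k : ℝ) / W.card ≤ Q) (hQ : Q ≤ 1 / 2) (hV : ps x 2 R ≤ V) (hW : W ⊆ R) :
    Vh W.card k * dev x W ≤ 1.0001 * Q * (1 - Q) * V ∧ 0 ≤ Vh W.card k := by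
  have hMR : (20000 : ℝ) ≤ W.card := by exact_mod_cast hM
  have hkR : (k : ℝ) ≤ W.card := by exact_mod_cast hkW
  have hk0 : (0 : ℝ) ≤ k := Nat.cast_nonneg k
  obtain ⟨M, hMd⟩ : ∃ M : ℝ, M = W.card := ⟨_, rfl⟩
  rw [← hMd] at hMR hkR hr ⊢
  have hM0 : 0 < M := by linarith
  have hM1 : 0 < M - 1 := by linarith
  have hMk : 0 ≤ M - k := by linarith
  have hVh0 : 0 ≤ Vh M k := by
    unfold Vh
    positivity
  have hdev0 := dev_nonneg x W
  have hdev : dev x W ≤ V := (dev_le_ps x hW).trans hV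
  have hV0 : 0 ≤ V := hdev0.trans hdev
  refine ⟨?_, hVh0⟩
  refine (mul_le_mul_of_nonneg_left hdev hVh0).trans (mul_le_mul_of_nonneg_right ?_ hV0)
  obtain ⟨r, hrd⟩ : ∃ r : ℝ, r = (k : ℝ) / M := ⟨_, rfl⟩
  rw [← hrd] at hr
  have hr0 : 0 ≤ r := by rw [hrd]; positivity
  have hkr : (k : ℝ) = r * M := by rw [hrd, div_mul_cancel₀ _ hM0.ne']
  have h1 : Vh M k = r * (1 - r) * (M / (M - 1)) := by
    unfold Vh
    rw [hkr]
    field_simp
  have h2 : r * (1 - r) ≤ Q * (1 - Q) := by nlinarith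
  have h3 : M / (M - 1) ≤ 1.0001 := by
    rw [div_le_iff₀ hM1]
    linarith
  have h4 : 0 ≤ Q * (1 - Q) := mul_nonneg (hr0.trans hr) (by linarith)
  rw [h1]
  calc r * (1 - r) * (M / (M - 1)) ≤ Q * (1 - Q) * 1.0001 :=
        mul_le_mul h2 h3 (by positivity) h4
    _ = 1.0001 * Q * (1 - Q) := by ring

theorem pr_le_one {U : Finset α} {k : ℕ} (hk : k ≤ U.card) (Q : Finset α → Prop) [DecidablePred Q] : pr U k Q ≤ 1 :=
  chg_pr_le_one hk Q

end Pool.Agent.MMS15
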