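import Pool.Agent.MMS15.ChgB

/-!
# MMS15/ChgP: charging with a hat table, the condition `h1` of `charge`

`W = R \ g`, `|W| = M + a` (`|R| = M + a + k`, `|g| = k`), `sg x W = sg x R - sg x g`, `g0 = sg x g ≥ 0`: `chg_cantelli` (for `a` in the place of `k`, `A = A0`) with `φ = A - Q g0`;
`a mean x W - A0 = r (sg x R - g0) - A0` with `r = a / (M + a) ≤ k / (M + a) ≤ Q`; `r sg x R ≥ - Q max 0 (- sg x R)`, `r g0 ≤ Q g0`, so `φ ≤ a mean - A0` by `hA2`; `chg_var` (`W ⊆ R`).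
-/

open Finset Pool.Agent.H36.MMS

set_option autoImplicit false

namespace Pool.Agent.MMS15

variable {α : Type*} [DecidableEq α]

theorem chg_h1 {R : Finset α} {M a k : ℕ} (x : α → ℝ) (hR : R.card = M + a + k) (ha : 1 ≤ a) (hak : a ≤ k) (hM : 20000 ≤ M + a)
    {Q V v : ℝ} (hQ0 : 0 < Q) (hQ : Q ≤ 1 / 2) (hr1 : (k : ℝ) / ((M : ℝ) + a) ≤ Q) (hV0 : 0 < V) (hV : ps x 2 R ≤ V)
    (hv : v = 1.0001 * Q * (1 - Q) * V) {A A0 : ℝ} (hA2 : A ≤ -A0 - Q * max 0 (-(sg x R)))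
    {g : Finset α} (hg : g ⊆ R) (hgc : g.card = k) (hg0 : 0 ≤ sg x g) :
    pr (R \ g) a (fun U => sg x U < A0) * (1 + (max 0 (A - Q * sg x g)) ^ 2 / v) ≤ 1 := by
  classical
  have hWc : (R \ g).card = M + a := by
    rw [card_sdiff_of_subset hg, hR, hgc]
    omega
  have hWR : R \ g ⊆ R := sdiff_subset
  have hsW : sg x (R \ g) = sg x R - sg x g := by
    have h := Finset.sum_sdiff (f := x) hg
    unfold sg
    linarith
  generalize hW : R \ g = W at hWc hWR hsW ⊢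
  have har : (1 : ℝ) ≤ (a : ℝ) := by exact_mod_cast ha
  have hakr : (a : ℝ) ≤ (k : ℝ) := by exact_mod_cast hak
  have hM0 : (0 : ℝ) ≤ (M : ℝ) := Nat.cast_nonneg M
  have hNa : (0 : ℝ) < (M : ℝ) + a := by linarith
  have hcast : ((W.card : ℕ) : ℝ) = (M : ℝ) + a := by rw [hWc]; push_cast; ring
  have haN : (a : ℝ) / ((M : ℝ) + a) ≤ Q := (div_le_div_of_nonneg_right hakr hNa.le).trans hr1
  have haN0 : 0 ≤ (a : ℝ) / ((M : ℝ) + a) := by positivity
  obtain ⟨hv1, hv2⟩ := chg_var (R := R) (W := W) (k := a) x (V := V) (Q := Q) (by rw [hWc]; exact hM) (by rw [hWc]; omega)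
    (by rw [hcast]; exact haN) hQ hV hWR
  have hvpos : 0 < v := by
    rw [hv]
    have h1 : 0 < 1 - Q := by linarith
    positivity
  refine chg_cantelli (W := W) (k := a) x (by rw [hWc]; omega) (by rw [hWc]; omega) hvpos (by rw [hv]; exact hv1) hv2
    (φ := A - Q * sg x g) (A := A0) (fun _ => ?_)
  have hmean : mean x W = (sg x R - sg x g) / ((M : ℝ) + a) := by unfold mean; rw [hcast, hsW]
  have he : (a : ℝ) * mean x W = (a : ℝ) / ((M : ℝ) + a) * sg x R - (a : ℝ) / ((M : ℝ) + a) * sg x g := by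
    rw [hmean]
    ring
  rw [he]
  set r : ℝ := (a : ℝ) / ((M : ℝ) + a) with hr
  have h1 : r * sg x g ≤ Q * sg x g := mul_le_mul_of_nonneg_right haN hg0
  have h2 : -(Q * max 0 (-(sg x R))) ≤ r * sg x R := by
    rcases le_total 0 (sg x R) with h | h
    · rw [max_eq_left (by linarith)]
      have := mul_nonneg haN0 h
      linarith
    · rw [max_eq_right (by linarith)]
      have h3 : r * (-(sg x R)) ≤ Q * (-(sg x R)) := mul_le_mul_of_nonneg_right haN (by linarith)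
      linarith
  linarith

end Pool.Agent.MMS15
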