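import Pool.Agent.MMS15.BoxD
import Pool.Agent.MMS14.StarLow
import Pool.Agent.MMS14.HajD

/-!
# MMS15/HatL: from tables to sampling without replacement

`z = zc x W`, `D = dev x W`, `σ = √(r (1 - r) D) = sd r (W.toList.map z)` (`ss_toList`), `r = k / |W|`, `sg z W = 0`, `sg x S = sg z S + k mean` for `|S| = k` (`sg_zc`).
`D = 0`: `x` is constant on `W`, `sg x S = k mean` for all `k`-subsets, the average is `1` (the hypothesis gives `θ ≤ k mean`), and the left side is `≤ 1` (`hvs`).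
`D > 0`: `hajek` with `ε = 0.008` (resp. `0.004`) and `s = θ - k mean`: threshold `s + ε √D ≤ (1 - m)/50 σ` because `σ ≥ 0.4 √D` (`r (1 - r) ≥ 0.16` for `1/5 ≤ r ≤ 1/2`); the loss
`√M / (2 (M - 1) ε²) ≤ 8 / 65536` for `M = |W| ≥ 10^20`.  Compare `MMS14/StarD` (`hπge` in the proof of `star_low`).
-/

open Finset Pool.Agent.H36.MMS

set_option autoImplicit false

namespace Pool.Agent.MMS15

open Pool.Agent.MMS14

variable {α : Type*} [DecidableEq α]

private theorem core {W : Finset α} {k : ℕ} (x : α → ℝ) (hM : 10 ^ 20 ≤ W.card) (hk : k ≤ W.card)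
    (hr5 : 1 / 5 ≤ (k : ℝ) / W.card) (hr2 : (k : ℝ) / W.card ≤ 1 / 2) {v : ℕ} (hv : v ≤ 65536) {θ c ε : ℝ}
    (hε : 0.004 ≤ ε)
    (hθ : θ ≤ (k : ℝ) * mean x W + (c - 2.5 * ε) * √((k : ℝ) / W.card * (1 - (k : ℝ) / W.card) * dev x W))
    (hPr : 0 < ss (W.toList.map (zc x W)) → ∀ t : ℝ, t ≤ c * sd ((k : ℝ) / W.card) (W.toList.map (zc x W)) →
      (v : ℝ) / 65536 ≤ Pr ((k : ℝ) / W.card) (W.toList.map (zc x W)) t) :
    ((v : ℝ) - 8) / 65536 ≤ pr W k (fun T => θ ≤ sg x T) := by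
  have hM' : 100000000000000000000 ≤ W.card := by norm_num at hM; exact hM
  have hN : (100000000000000000000 : ℝ) ≤ W.card := by exact_mod_cast hM'
  have hW2 : 2 ≤ W.card := by omega
  have hvr : (v : ℝ) ≤ 65536 := by exact_mod_cast hv
  have hsgS : ∀ S, S ⊆ W → S.card = k → sg (zc x W) S = sg x S - k * mean x W := by
    intro S _ hS
    rw [sg_zc, hS]
  have hε0 : 0 < ε := by linarith
  generalize hPd : (k : ℝ) / W.card = P at *
  rcases (dev_nonneg x W).eq_or_lt with h0 | hDpos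
  · rw [← h0, mul_zero, Real.sqrt_zero, mul_zero, add_zero] at hθ
    have hz : ∀ i ∈ W, zc x W i = 0 := by
      have h1 : ∑ i ∈ W, zc x W i ^ 2 = 0 := h0.symm
      intro i hi
      have h2 := (Finset.sum_eq_zero_iff_of_nonneg (fun i _ => sq_nonneg _)).1 h1 i hi
      exact pow_eq_zero_iff (two_ne_zero) |>.1 h2
    have h1 : (1 : ℝ) = avg W k (fun _ => (1 : ℝ)) := (avg_const hk 1).symm
    have h4 : ((v : ℝ) - 8) / 65536 ≤ 1 := by
      rw [div_le_one (by norm_num)]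
      linarith
    refine h4.trans (h1.le.trans ?_)
    unfold pr
    apply avg_mono
    intro S hS hSc
    have h2 : sg (zc x W) S = 0 := Finset.sum_eq_zero (fun i hi => hz i (hS hi))
    have h3 := hsgS S hS hSc
    rw [h2] at h3
    rw [if_pos (by linarith)]
  · have hz0 : sg (zc x W) W = 0 := by
      rw [sg_zc, card_mul_mean x W (by omega), sub_self]
    have hss : ss (W.toList.map (zc x W)) = dev x W := ss_toList W (zc x W)
    have hPP : 0.16 ≤ P * (1 - P) := by nlinarith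
    set σ : ℝ := √(P * (1 - P) * dev x W) with hσd
    have hsd : sd P (W.toList.map (zc x W)) = σ := by
      unfold sd
      rw [hss]
    have hσD : 0.4 * √(dev x W) ≤ σ := by
      have h1 : 0.4 * √(dev x W) = √(0.16 * dev x W) := by
        rw [Real.sqrt_mul (by norm_num), show (0.16 : ℝ) = 0.4 ^ 2 by norm_num, Real.sqrt_sq (by norm_num)]
      rw [h1, hσd]
      exact Real.sqrt_le_sqrt (mul_le_mul_of_nonneg_right hPP hDpos.le)
    have hcomp : pr W k (fun S => θ - (k : ℝ) * mean x W ≤ sg (zc x W) S) ≤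
        pr W k (fun T => θ ≤ sg x T) := by
      apply pr_mono
      intro S hS hSc h
      rw [hsgS S hS hSc] at h
      linarith
    have hhaj := hajek hk hW2 (zc x W) hz0 (s := θ - (k : ℝ) * mean x W) (ε := ε) hε0
    rw [hPd] at hhaj
    have hloss : √(W.card : ℝ) / (2 * ((W.card : ℝ) - 1) * ε ^ 2) ≤ 8 / 65536 := by
      have h1 : √(W.card : ℝ) * 10000000000 ≤ W.card := by
        have h2 : (10000000000 : ℝ) ≤ √(W.card : ℝ) := by
          rw [show (10000000000 : ℝ) = √(10000000000 ^ 2) from (Real.sqrt_sq (by norm_num)).symm]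
          apply Real.sqrt_le_sqrt
          linarith
        have h3 : √(W.card : ℝ) * √(W.card : ℝ) = W.card := Real.mul_self_sqrt (by positivity)
        nlinarith
      have h5 : (0.000016 : ℝ) ≤ ε ^ 2 := by nlinarith
      have h6 : 2 * ((W.card : ℝ) - 1) * 0.000016 ≤ 2 * ((W.card : ℝ) - 1) * ε ^ 2 :=
        mul_le_mul_of_nonneg_left h5 (by linarith)
      rw [div_le_iff₀ (by nlinarith)]
      nlinarith
    have h2 := hPr (by rw [hss]; exact hDpos) (θ - (k : ℝ) * mean x W + ε * √(ps (zc x W) 2 W)) (by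
      have h2 : ps (zc x W) 2 W = dev x W := rfl
      rw [h2, hsd]
      have h3 : ε * √(dev x W) ≤ 2.5 * ε * σ := by nlinarith
      have h4 : (c - 2.5 * ε) * σ = c * σ - 2.5 * ε * σ := by ring
      rw [h4] at hθ
      linarith)
    rw [sub_div]
    linarith

private theorem getD_le {vs : List ℕ} (h : ∀ v ∈ vs, v ≤ 65536) (i : ℕ) : vs.getD i 0 ≤ 65536 := by
  rcases lt_or_ge i vs.length with hi | hi
  · rw [List.getD_eq_getElem _ _ hi]
    exact h _ (List.getElem_mem hi)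
  · rw [List.getD_eq_default _ _ hi]
    exact Nat.zero_le _

private theorem half {P1 : ℕ} (hP : P1 ≤ 8192) {r : ℝ} (hr : r ≤ (P1 : ℝ) / 16384) : r ≤ 1 / 2 := by
  have h1 : (P1 : ℝ) ≤ 8192 := by exact_mod_cast hP
  linarith

/-- hat tables (rows `(1 - m) / 50`) -/
theorem pr_low50 {P0 P1 : ℕ} {vs : List ℕ} (hlow : StarLowOk P0 P1 vs) (hvs : ∀ v ∈ vs, v ≤ 65536) (hP : P1 ≤ 8192) {W : Finset α} {k : ℕ}
    (x : α → ℝ) (hM : 10 ^ 20 ≤ W.card) (hk : k ≤ W.card) (hr0 : (P0 : ℝ) / 16384 ≤ (k : ℝ) / W.card)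
    (hr1 : (k : ℝ) / W.card ≤ (P1 : ℝ) / 16384) (hr5 : 1 / 5 ≤ (k : ℝ) / W.card) {m : ℕ} (hm : m < vs.length) {θ : ℝ}
    (hθ : θ ≤ (k : ℝ) * mean x W - (m : ℝ) / 50 * √((k : ℝ) / W.card * (1 - (k : ℝ) / W.card) * dev x W)) :
    (((vs.getD m 0 : ℕ) : ℝ) - 8) / 65536 ≤ pr W k (fun T => θ ≤ sg x T) := by
  refine core x hM hk hr5 (half hP hr1) (getD_le hvs m) (c := (1 - (m : ℝ)) / 50) (ε := 0.008) (by norm_num) ?_ ?_
  · have h1 : (1 - (m : ℝ)) / 50 - 2.5 * 0.008 = -((m : ℝ) / 50) := by ring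
    rw [h1]
    linarith
  · intro hs t ht
    exact hlow _ hr0 hr1 hr5 _ hs m hm t ht

/-- fine tables (rows `(i - 400) / 100`) -/
theorem pr_low100 {P0 P1 : ℕ} {vm : List ℕ} (hlow : LowOk P0 P1 vm) (hvm : ∀ v ∈ vm, v ≤ 65536) (hP : P1 ≤ 8192) {W : Finset α} {k : ℕ}
    (x : α → ℝ) (hM : 10 ^ 20 ≤ W.card) (hk : k ≤ W.card) (hr0 : (P0 : ℝ) / 16384 ≤ (k : ℝ) / W.card)
    (hr1 : (k : ℝ) / W.card ≤ (P1 : ℝ) / 16384) (hr5 : 1 / 5 ≤ (k : ℝ) / W.card) {i : ℕ} {θ : ℝ}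
    (hθ : θ ≤ (k : ℝ) * mean x W + ((i : ℝ) - 401) / 100 * √((k : ℝ) / W.card * (1 - (k : ℝ) / W.card) * dev x W)) :
    (((vm.getD i 0 : ℕ) : ℝ) - 8) / 65536 ≤ pr W k (fun T => θ ≤ sg x T) := by
  refine core x hM hk hr5 (half hP hr1) (getD_le hvm i) (c := ((i : ℝ) - 400) / 100) (ε := 0.004) (by norm_num) ?_ ?_
  · have h1 : ((i : ℝ) - 400) / 100 - 2.5 * 0.004 = ((i : ℝ) - 401) / 100 := by ring
    rw [h1]
    exact hθ
  · intro hs t ht
    exact hlow _ hr0 hr1 hr5 _ hs i t ht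

end Pool.Agent.MMS15
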