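import Pool.Agent.MMS15.PwDefs
import Pool.Agent.MMS15.LoopS

/-!
# MMS15/PwS: meaning of the numeric checks `pwL` (pure real analysis)

`hv vs j = vs.getD (min j 200) 0 - 8` (truncated), `hw ws j = ws.getD (min j 200) 0` (`hd0_dr`, `mn_eq`).
Induction on `ms`, generalizing `m`.  `nil`: `π ≥ hv vs m / 2^16` (hypothesis `hπ` for `j = m`), and `πD ≥ vD / 2^16` (`hD` for `j = m` if `f = true` and `mb + 1 ≤ m`, otherwise
`vD = 0`), the square is `≥ 0`, so `pwE` gives `κ π + πD ≥ 1`.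
`m2 :: ms`: if `m2 / 50 * s ≤ μ` the induction hypothesis.  Otherwise `μ < m2 / 50 * s`; with `π₀ = hv vs m / 2^16 ≤ π` (positive by `wOk`), `w = hw ws m / 2^20`:
`√((1 - π)/π) ≤ √((1 - π₀)/π₀) ≤ w`, so `g := c/2^20 - Q (m2/50 + w)` (`Q = Q1/2^14`; the truncated `g` of `pwT` is at most `2^20 g` or `0`; compare `num_c` in `MMS14/StarD`)
satisfies `s * g ≤ max 0 (A - Q (μ + s √((1-π)/π)))` (`g > 0` only if `c > 0`, then `c/2^20 * s ≤ max 0 A` gives `c / 2^20 * s ≤ A`).  Hence
`κ π (1 + (..)²/s²) + πD ≥ κ π₀ (1 + g²) + vD/2^16 ≥ 1`.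
-/

set_option autoImplicit false

namespace Pool.Agent.MMS15

open Pool.Agent.MMS14

private theorem allb_sound' {n : ℕ} {f : ℕ → Bool} (h : allb n f = true) : ∀ m, m < n → f m = true := by
  induction n with
  | zero =>
    intro m hm
    exact absurd hm (Nat.not_lt_zero m)
  | succ n ih =>
    have h1 : et (f n) (allb n f) = true := h
    rw [et_true] at h1
    intro m hm
    rcases Nat.lt_succ_iff_lt_or_eq.1 hm with h2 | h2
    · exact ih h1.2 m h2
    · rw [h2]
      exact h1.1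

private theorem hv_eq (vs : List ℕ) (m : ℕ) : hv vs m = vs.getD (min m 200) 0 - 8 := by
  unfold hv
  rw [hd0_dr, mn_eq]
  rfl

private theorem hw_eq (ws : List ℕ) (m : ℕ) : hw ws m = ws.getD (min m 200) 0 := by
  unfold hw
  rw [hd0_dr, mn_eq]

private theorem w_all {vs ws : List ℕ} (hw' : wOk vs ws = true) (m : ℕ) :
    0 < hv vs m ∧ 1099511627776 * (65536 - hv vs m) ≤ hw ws m * hw ws m * hv vs m := by
  have h1 := allb_sound' hw' (min m 200) (by omega)
  rw [et_true] at h1
  have e1 : hv vs (min m 200) = hv vs m := by rw [hv_eq, hv_eq, min_assoc, min_self]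
  have e2 : hw ws (min m 200) = hw ws m := by rw [hw_eq, hw_eq, min_assoc, min_self]
  rw [e1, e2] at h1
  refine ⟨?_, Nat.le_of_ble_eq_true h1.2⟩
  have h2 := h1.1
  exact Nat.le_of_ble_eq_true h2

private theorem hv_le {vs : List ℕ} {m : ℕ} {π : ℝ} (h : (((vs.getD (min m 200) 0 : ℕ) : ℝ) - 8) / 65536 ≤ π) (h0 : 0 ≤ π) :
    ((hv vs m : ℕ) : ℝ) / 65536 ≤ π := by
  rw [hv_eq]
  rcases le_total 8 (vs.getD (min m 200) 0) with h1 | h1
  · rw [Nat.cast_sub h1]
    exact_mod_cast h
  · rw [Nat.sub_eq_zero_of_le h1, Nat.cast_zero, zero_div]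
    exact h0

theorem pw_sound {Q1 c kap mb : ℕ} {vs ws : List ℕ} (hwk : wOk vs ws = true) {f : Bool} (ms : List ℕ) {m : ℕ}
    (h : pwL Q1 vs ws f c kap mb ms m = true) {s A μ π πD : ℝ} (hs : 0 < s) (hA : (c : ℝ) / 1048576 * s ≤ max 0 A)
    (hμ : (m : ℝ) / 50 * s ≤ μ)
    (hπ : ∀ j : ℕ, (j : ℝ) / 50 * s ≤ μ → (((vs.getD (min j 200) 0 : ℕ) : ℝ) - 8) / 65536 ≤ π) (hπ1 : π ≤ 1)
    (hD0 : 0 ≤ πD) (hD : f = true → ∀ j : ℕ, mb + 1 ≤ j → (j : ℝ) / 50 * s ≤ μ →
      (((vs.getD (min (j - (mb + 1)) 200) 0 : ℕ) : ℝ) - 8) / 65536 ≤ πD) :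
    1 ≤ πD + (kap : ℝ) / 65536 *
      (π * (1 + (max 0 (A - (Q1 : ℝ) / 16384 * (μ + s * √((1 - π) / π)))) ^ 2 / s ^ 2)) := by
  -- general facts
  have hkap : (0 : ℝ) ≤ (kap : ℝ) / 65536 := by positivity
  have hvD : ∀ m : ℕ, (m : ℝ) / 50 * s ≤ μ → ((vD vs f mb m : ℕ) : ℝ) / 65536 ≤ πD := by
    intro m hm
    unfold vD
    cases f with
    | false => simpa using hD0
    | true =>
      cases hb : Nat.ble (Nat.succ mb) m with
      | false => simpa using hD0
      | true =>
        have h1 : mb + 1 ≤ m := Nat.le_of_ble_eq_true hb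
        exact hv_le (hD rfl m h1 hm) hD0
  induction ms generalizing m with
  | nil =>
    have h1 : 4722366482869645213696 ≤ kap * hv vs m * 1099511627776 + vD vs f mb m * 72057594037927936 :=
      Nat.le_of_ble_eq_true h
    have h1r : (4722366482869645213696 : ℝ) ≤ kap * (hv vs m : ℕ) * 1099511627776 + (vD vs f mb m : ℕ) * 72057594037927936 := by
      exact_mod_cast h1
    obtain ⟨hv0, -⟩ := w_all hwk m
    have hv0r : (0 : ℝ) < ((hv vs m : ℕ) : ℝ) := by exact_mod_cast hv0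
    have hm := hπ m hμ
    have hπ0 : 0 ≤ π := by
      refine le_trans ?_ hm
      have h8 : 8 ≤ vs.getD (min m 200) 0 := by rw [hv_eq] at hv0; omega
      have h8r : (8 : ℝ) ≤ ((vs.getD (min m 200) 0 : ℕ) : ℝ) := by exact_mod_cast h8
      apply div_nonneg _ (by norm_num)
      linarith
    have h2 := hv_le hm hπ0
    have h3 := hvD m hμ
    have h4 : π ≤ π * (1 + (max 0 (A - (Q1 : ℝ) / 16384 * (μ + s * √((1 - π) / π)))) ^ 2 / s ^ 2) := by
      have h5 : 0 ≤ (max 0 (A - (Q1 : ℝ) / 16384 * (μ + s * √((1 - π) / π)))) ^ 2 / s ^ 2 := by positivity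
      nlinarith
    have h6 := mul_le_mul_of_nonneg_left (h2.trans h4) hkap
    linarith
  | cons m2 ms ih =>
    have h0 : et (pwT Q1 vs ws f c kap mb m m2) (pwL Q1 vs ws f c kap mb ms m2) = true := h
    rw [et_true] at h0
    rcases le_or_gt ((m2 : ℝ) / 50 * s) μ with hm2 | hm2
    · exact ih h0.2 hm2
    · have h1 : 4722366482869645213696 ≤ kap * hv vs m * (1099511627776 +
          (c - (Q1 * (1048576 * m2 + 50 * hw ws m) / 819200 + 1)) * (c - (Q1 * (1048576 * m2 + 50 * hw ws m) / 819200 + 1))) +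
          vD vs f mb m * 72057594037927936 := Nat.le_of_ble_eq_true h0.1
      obtain ⟨g, hg⟩ : ∃ g : ℕ, g = c - (Q1 * (1048576 * m2 + 50 * hw ws m) / 819200 + 1) := ⟨_, rfl⟩
      rw [← hg] at h1
      have h1r : (4722366482869645213696 : ℝ) ≤ kap * (hv vs m : ℕ) * (1099511627776 + g * g) +
          (vD vs f mb m : ℕ) * 72057594037927936 := by exact_mod_cast h1
      obtain ⟨hv0, hw0⟩ := w_all hwk m
      have hv0r : (0 : ℝ) < ((hv vs m : ℕ) : ℝ) := by exact_mod_cast hv0
      have hm := hπ m hμ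
      have h8 : 8 ≤ vs.getD (min m 200) 0 := by rw [hv_eq] at hv0; omega
      have hπ0' : 0 ≤ π := by
        refine le_trans ?_ hm
        have h8r : (8 : ℝ) ≤ ((vs.getD (min m 200) 0 : ℕ) : ℝ) := by exact_mod_cast h8
        apply div_nonneg _ (by norm_num)
        linarith
      have h2 := hv_le hm hπ0'
      have hπ0 : 0 < π := lt_of_lt_of_le (by positivity) h2
      have h3 := hvD m hμ
      -- the square root
      have hv1 : ((hv vs m : ℕ) : ℝ) ≤ 65536 := by
        have := h2.trans hπ1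
        rw [div_le_one (by norm_num)] at this
        exact this
      have hv1n : hv vs m ≤ 65536 := by exact_mod_cast hv1
      have hw0r : (1099511627776 : ℝ) * (65536 - (hv vs m : ℕ)) ≤ (hw ws m : ℕ) * (hw ws m : ℕ) * (hv vs m : ℕ) := by
        have h5 := (Nat.cast_le (α := ℝ)).2 hw0
        push_cast [Nat.cast_sub hv1n] at h5
        exact h5
      have hsq : √((1 - π) / π) ≤ ((hw ws m : ℕ) : ℝ) / 1048576 := by
        apply Real.sqrt_le_iff.2
        refine ⟨by positivity, ?_⟩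
        rw [div_le_iff₀ hπ0]
        have h5 : (65536 - ((hv vs m : ℕ) : ℝ)) ≤ (((hw ws m : ℕ) : ℝ) / 1048576) ^ 2 * (hv vs m : ℕ) := by
          have e : (((hw ws m : ℕ) : ℝ) / 1048576) ^ 2 * (hv vs m : ℕ) =
            ((hw ws m : ℕ) * (hw ws m : ℕ) * (hv vs m : ℕ)) / 1099511627776 := by ring
          rw [e, le_div_iff₀ (by norm_num)]
          linarith
        have h6 : (((hw ws m : ℕ) : ℝ) / 1048576) ^ 2 * (((hv vs m : ℕ) : ℝ) / 65536) ≤
            (((hw ws m : ℕ) : ℝ) / 1048576) ^ 2 * π := mul_le_mul_of_nonneg_left h2 (by positivity)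
        have h7 : (((hw ws m : ℕ) : ℝ) / 1048576) ^ 2 * (((hv vs m : ℕ) : ℝ) / 65536) =
          ((((hw ws m : ℕ) : ℝ) / 1048576) ^ 2 * (hv vs m : ℕ)) / 65536 := by ring
        have h8 : 1 - ((hv vs m : ℕ) : ℝ) / 65536 ≤ ((((hw ws m : ℕ) : ℝ) / 1048576) ^ 2 * (hv vs m : ℕ)) / 65536 := by
          have e : 1 - ((hv vs m : ℕ) : ℝ) / 65536 = (65536 - ((hv vs m : ℕ) : ℝ)) / 65536 := by ring
          rw [e]
          exact div_le_div_of_nonneg_right h5 (by norm_num)
        linarith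
      -- the constant
      have hgs : (g : ℝ) / 1048576 * s ≤ max 0 (A - (Q1 : ℝ) / 16384 * (μ + s * √((1 - π) / π))) := by
        rcases Nat.eq_zero_or_pos g with hg0 | hg0
        · rw [hg0, Nat.cast_zero, zero_div, zero_mul]
          exact le_max_left _ _
        · refine le_trans ?_ (le_max_right _ _)
          have hle : Q1 * (1048576 * m2 + 50 * hw ws m) / 819200 + 1 ≤ c := by omega
          have hfl : Q1 * (1048576 * m2 + 50 * hw ws m) ≤ (Q1 * (1048576 * m2 + 50 * hw ws m) / 819200 + 1) * 819200 := by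
            have := Nat.lt_div_mul_add (a := Q1 * (1048576 * m2 + 50 * hw ws m)) (b := 819200) (by norm_num)
            rw [Nat.add_mul, Nat.one_mul]
            exact this.le
          have hgc : (Q1 * (1048576 * m2 + 50 * hw ws m)) + g * 819200 ≤ c * 819200 := by
            have h9 : (Q1 * (1048576 * m2 + 50 * hw ws m) / 819200 + 1) + g = c := by omega
            rw [← h9, Nat.add_mul]
            omega
          have hgcr : (Q1 : ℝ) * (1048576 * m2 + 50 * (hw ws m : ℕ)) + g * 819200 ≤ c * 819200 := by exact_mod_cast hgc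
          have hc0 : 0 < c := by omega
          have hc0r : (0 : ℝ) < (c : ℝ) := by exact_mod_cast hc0
          have hAc : (c : ℝ) / 1048576 * s ≤ A := by
            rcases le_total A 0 with hA0 | hA0
            · rw [max_eq_left hA0] at hA
              have : 0 < (c : ℝ) / 1048576 * s := by positivity
              linarith
            · rwa [max_eq_right hA0] at hA
          have h9 : (g : ℝ) / 1048576 ≤ (c : ℝ) / 1048576 - (Q1 : ℝ) / 16384 * ((m2 : ℝ) / 50 + ((hw ws m : ℕ) : ℝ) / 1048576) := by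
            have e : (c : ℝ) / 1048576 - (Q1 : ℝ) / 16384 * ((m2 : ℝ) / 50 + ((hw ws m : ℕ) : ℝ) / 1048576) =
              (c * 819200 - (Q1 : ℝ) * (1048576 * m2 + 50 * (hw ws m : ℕ))) / (819200 * 1048576) := by ring
            rw [e, le_div_iff₀ (by norm_num)]
            have e2 : (g : ℝ) / 1048576 * (819200 * 1048576) = g * 819200 := by ring
            rw [e2]
            linarith
          have h10 := mul_le_mul_of_nonneg_right h9 hs.le
          have h11 : s * √((1 - π) / π) ≤ s * (((hw ws m : ℕ) : ℝ) / 1048576) := mul_le_mul_of_nonneg_left hsq hs.le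
          have h12 : μ + s * √((1 - π) / π) ≤ (m2 : ℝ) / 50 * s + s * (((hw ws m : ℕ) : ℝ) / 1048576) := by linarith
          have h13 := mul_le_mul_of_nonneg_left h12 (by positivity : (0 : ℝ) ≤ (Q1 : ℝ) / 16384)
          have e3 : ((c : ℝ) / 1048576 - (Q1 : ℝ) / 16384 * ((m2 : ℝ) / 50 + ((hw ws m : ℕ) : ℝ) / 1048576)) * s =
            (c : ℝ) / 1048576 * s - (Q1 : ℝ) / 16384 * ((m2 : ℝ) / 50 * s + s * (((hw ws m : ℕ) : ℝ) / 1048576)) := by ring
          rw [e3] at h10
          linarith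
      have hsqr : ((g : ℝ) / 1048576) ^ 2 ≤ (max 0 (A - (Q1 : ℝ) / 16384 * (μ + s * √((1 - π) / π)))) ^ 2 / s ^ 2 := by
        rw [le_div_iff₀ (by positivity), ← mul_pow]
        exact pow_le_pow_left₀ (mul_nonneg (by positivity) hs.le) hgs 2
      have h14 : ((hv vs m : ℕ) : ℝ) / 65536 * (1 + ((g : ℝ) / 1048576) ^ 2) ≤
          π * (1 + (max 0 (A - (Q1 : ℝ) / 16384 * (μ + s * √((1 - π) / π)))) ^ 2 / s ^ 2) := by
        apply mul_le_mul h2 (by linarith) (by positivity) hπ0.le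
      have h15 := mul_le_mul_of_nonneg_left h14 hkap
      have e4 : (kap : ℝ) / 65536 * (((hv vs m : ℕ) : ℝ) / 65536 * (1 + ((g : ℝ) / 1048576) ^ 2)) =
        (kap * (hv vs m : ℕ) * (1099511627776 + g * g)) / 4722366482869645213696 := by ring
      rw [e4] at h15
      have h16 : (1 : ℝ) ≤ (kap * (hv vs m : ℕ) * (1099511627776 + g * g)) / 4722366482869645213696 + ((vD vs f mb m : ℕ) : ℝ) / 65536 := by
        have e5 : (kap * (hv vs m : ℕ) * (1099511627776 + g * g)) / 4722366482869645213696 + ((vD vs f mb m : ℕ) : ℝ) / 65536 =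
          (kap * (hv vs m : ℕ) * (1099511627776 + g * g) + (vD vs f mb m : ℕ) * 72057594037927936) / 4722366482869645213696 := by ring
        rw [e5, le_div_iff₀ (by norm_num), one_mul]
        exact h1r
      linarith

end Pool.Agent.MMS15
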