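import Pool.Agent.MMS15.ChgB
import Pool.Agent.MMS15.HatL
import Pool.Agent.MMS15.PwS

/-!
# MMS15/ChgQ: charging with a hat table, the condition `h2` of `charge`

`Q = Q1 / 2^14`, `v = s²`.  `W = R \ U`, `|W| = M + k`, `sg x W = sg x R - sg x U > sg x R - A0 ≥ 0`; `μ = k mean x W = (k / (M + k)) sg x W ≥ (Q0 / 2^14) (sg x R - A0) ≥ (m0/50) s`
(`k / (M + k) ≥ a / (M + k) ≥ Q0 / 2^14`); `π = pr W k (0 ≤ sg x ·)`, `chg_jensen` with `β = 0` (`π > 0`: `hπ` below for `j = m0` and `wOk`), `√(v (1 - π)/π) = s √((1 - π)/π)`;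
`pw_sound` with `πD = pr W a (δ ≤ sg x ·)`.
`hπ`: `pr_low50` with `θ = 0` and `m = min j 200` (`σ = √(r (1-r) D) ≤ s`, `r = k / (M + k) ≤ k / (M + a) ≤ Q`, `D = dev x W ≤ ps x 2 R ≤ V`, see `chg_var`, `dev_le_center`).
`hD` (`f = true`): `pr_low50` for `a` in the place of `k`, `θ = δ`, index `min (j - (mb + 1)) 200`, `j ≥ mb + 1`, `j / 50 s ≤ μ`: put `j' = min j (200 + mb + 1)` (same index), `j' ≤ mb + 201`, so
`j' (k - a) ≤ k` by `hmb` and `a mean x W = (a / k) μ ≥ (j'/50) s a / k ≥ (j'/50) s - s/50`; `δ ≤ (mb/50) s`; hence `δ ≤ a mean - ((j' - mb - 1)/50) s`, and `σ ≤ s`.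
-/

open Finset Pool.Agent.H36.MMS

set_option autoImplicit false

namespace Pool.Agent.MMS15

open Pool.Agent.MMS14

variable {α : Type*} [DecidableEq α]

/-- the standard deviation of the sample is at most `s` -/
private theorem sig_le {R W : Finset α} (x : α → ℝ) {r Q V s : ℝ} (hr0 : 0 ≤ r) (hrQ : r ≤ Q) (hQ : Q ≤ 1 / 2) (hs0 : 0 < s)
    (hs : s ^ 2 = 1.0001 * Q * (1 - Q) * V) (hV : ps x 2 R ≤ V) (hW : W ⊆ R) :
    √(r * (1 - r) * dev x W) ≤ s := by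
  have h1 : dev x W ≤ V := by
    refine ((dev_mono x hW).trans (dev_le_center x R 0)).trans ?_
    simpa [ps] using hV
  have h0 : 0 ≤ dev x W := dev_nonneg x W
  have h2 : r * (1 - r) ≤ Q * (1 - Q) := by nlinarith
  have h3 : 0 ≤ Q * (1 - Q) := by nlinarith
  apply Real.sqrt_le_iff.2
  refine ⟨hs0.le, ?_⟩
  calc r * (1 - r) * dev x W ≤ Q * (1 - Q) * dev x W := mul_le_mul_of_nonneg_right h2 h0
    _ ≤ Q * (1 - Q) * V := mul_le_mul_of_nonneg_left h1 h3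
    _ ≤ s ^ 2 := by
      rw [hs]
      have h4 : 0 ≤ Q * (1 - Q) * V := mul_nonneg h3 (h0.trans h1)
      nlinarith

theorem chg_h2 {Q0 Q1 : ℕ} {vs ws : List ℕ} (hlow : StarLowOk Q0 Q1 vs) (hvl : vs.length = 201)
    (hvs : ∀ v ∈ vs, v ≤ 65536) (hws : wOk vs ws = true) (hQ5 : 3277 ≤ Q0) (hQ1 : Q1 ≤ 8192)
    {R : Finset α} {M a k : ℕ} (x : α → ℝ) (hR : R.card = M + a + k) (ha : 1 ≤ a) (hak : a ≤ k) (hk : 10 ^ 20 ≤ k)
    (hr0 : (Q0 : ℝ) / 16384 ≤ (a : ℝ) / ((M : ℝ) + k)) (hr1 : (k : ℝ) / ((M : ℝ) + a) ≤ (Q1 : ℝ) / 16384)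
    {V s : ℝ} (hV0 : 0 < V) (hV : ps x 2 R ≤ V) (hs0 : 0 < s) (hs : s ^ 2 = 1.0001 * ((Q1 : ℝ) / 16384) * (1 - (Q1 : ℝ) / 16384) * V)
    {f : Bool} {c kap mb m0 : ℕ} {ms : List ℕ} (hpw : pwL Q1 vs ws f c kap mb ms m0 = true)
    (hmb : (mb + 201) * (k - a) ≤ k) {A A0 δ : ℝ} (hA : (c : ℝ) / 1048576 * s ≤ max 0 A) (hA0 : A0 ≤ sg x R)
    (hm0 : (m0 : ℝ) / 50 * s ≤ (Q0 : ℝ) / 16384 * (sg x R - A0)) (hδ : f = true → δ ≤ (mb : ℝ) / 50 * s)
    {U : Finset α} (hU : U ⊆ R) (hUc : U.card = a) (hUb : sg x U < A0) :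
    1 ≤ (if f then 1 else 0) * pr (R \ U) a (fun h => δ ≤ sg x h) +
      (kap : ℝ) / 65536 * avg (R \ U) k (fun g => if 0 ≤ sg x g then
        1 + (max 0 (A - (Q1 : ℝ) / 16384 * sg x g)) ^ 2 / s ^ 2 else 0) := by
  classical
  set Q : ℝ := (Q1 : ℝ) / 16384 with hQdef
  have hWc : (R \ U).card = M + k := by
    rw [card_sdiff_of_subset hU, hR, hUc]
    omega
  have hWR : R \ U ⊆ R := sdiff_subset
  have hsW : sg x (R \ U) = sg x R - sg x U := by
    have h := Finset.sum_sdiff (f := x) hU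
    unfold sg
    linarith
  generalize hW : R \ U = W at hWc hWR hsW ⊢
  have hk1 : 1 ≤ k := le_trans (by norm_num) hk
  have hkr : (1 : ℝ) ≤ (k : ℝ) := by exact_mod_cast hk1
  have har : (1 : ℝ) ≤ (a : ℝ) := by exact_mod_cast ha
  have hakr : (a : ℝ) ≤ (k : ℝ) := by exact_mod_cast hak
  have hM0 : (0 : ℝ) ≤ (M : ℝ) := Nat.cast_nonneg M
  have hN : (0 : ℝ) < (M : ℝ) + k := by linarith
  have hNa : (0 : ℝ) < (M : ℝ) + a := by linarith
  have hcast : ((W.card : ℕ) : ℝ) = (M : ℝ) + k := by rw [hWc]; push_cast; ring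
  have hQ12 : Q ≤ 1 / 2 := by
    have h : (Q1 : ℝ) ≤ 8192 := by exact_mod_cast hQ1
    rw [hQdef]
    linarith
  have hkN : (k : ℝ) / ((M : ℝ) + k) ≤ Q :=
    (div_le_div_of_nonneg_left (by linarith) hNa (by linarith)).trans hr1
  have haN : (a : ℝ) / ((M : ℝ) + k) ≤ Q :=
    (div_le_div_of_nonneg_right hakr hN.le).trans hkN
  have hkN0 : (Q0 : ℝ) / 16384 ≤ (k : ℝ) / ((M : ℝ) + k) :=
    hr0.trans (div_le_div_of_nonneg_right hakr hN.le)
  have hQ05 : (1 : ℝ) / 5 ≤ (Q0 : ℝ) / 16384 := by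
    have h : (3277 : ℝ) ≤ (Q0 : ℝ) := by exact_mod_cast hQ5
    linarith
  have hcard : 10 ^ 20 ≤ W.card := by rw [hWc]; omega
  have hcard2 : 20000 ≤ W.card := le_trans (by norm_num) hcard
  obtain ⟨hv1, -⟩ := chg_var (R := R) (W := W) (k := k) x (V := V) (Q := Q) hcard2 (by rw [hWc]; omega)
    (by rw [hcast]; exact hkN) hQ12 hV hWR
  have hmean : mean x W = sg x W / ((M : ℝ) + k) := by unfold mean; rw [hcast]
  set μ : ℝ := (k : ℝ) * mean x W with hμdef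
  have hμe : μ = (k : ℝ) / ((M : ℝ) + k) * sg x W := by
    rw [hμdef, hmean]
    ring
  have hsWpos : sg x R - A0 ≤ sg x W := by rw [hsW]; linarith
  have hA0' : 0 ≤ sg x R - A0 := by linarith
  have hμ : (m0 : ℝ) / 50 * s ≤ μ := by
    refine hm0.trans ?_
    rw [hμe]
    exact mul_le_mul hkN0 hsWpos hA0' (by positivity)
  have hμ0 : 0 ≤ μ := by
    rw [hμe]
    exact mul_nonneg (by positivity) (hA0'.trans hsWpos)
  -- the probability
  set π : ℝ := pr W k (fun T => 0 ≤ sg x T) with hπdef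
  have hπ0 : 0 ≤ π := pr_nonneg _ _ _
  have hπ1 : π ≤ 1 := pr_le_one (by rw [hWc]; omega) _
  have hπ : ∀ j : ℕ, (j : ℝ) / 50 * s ≤ μ → (((vs.getD (min j 200) 0 : ℕ) : ℝ) - 8) / 65536 ≤ π := by
    intro j hj
    refine pr_low50 hlow hvs hQ1 x hcard (by rw [hWc]; omega) (by rw [hcast]; exact hkN0) (by rw [hcast]; exact hkN)
      (by rw [hcast]; exact hQ05.trans hkN0) (m := min j 200) (by rw [hvl]; omega) ?_
    rw [hcast]
    have h1 := sig_le x (r := (k : ℝ) / ((M : ℝ) + k)) (by positivity) hkN hQ12 hs0 hs hV hWR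
    have h2 : ((min j 200 : ℕ) : ℝ) ≤ (j : ℝ) := by exact_mod_cast min_le_left _ _
    have h3 : ((min j 200 : ℕ) : ℝ) / 50 * √((k : ℝ) / ((M : ℝ) + k) * (1 - (k : ℝ) / ((M : ℝ) + k)) * dev x W) ≤
        (j : ℝ) / 50 * s := by
      apply mul_le_mul _ h1 (Real.sqrt_nonneg _) (by positivity)
      linarith
    linarith
  -- the auxiliary family
  set πD : ℝ := (if f then 1 else 0) * pr W a (fun h => δ ≤ sg x h) with hπDdef
  have hπD0 : 0 ≤ πD := by
    rw [hπDdef]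
    refine mul_nonneg ?_ (pr_nonneg _ _ _)
    split_ifs <;> norm_num
  have hD : f = true → ∀ j : ℕ, mb + 1 ≤ j → (j : ℝ) / 50 * s ≤ μ →
      (((vs.getD (min (j - (mb + 1)) 200) 0 : ℕ) : ℝ) - 8) / 65536 ≤ πD := by
    intro hf j hmbj hj
    rw [hπDdef, if_pos hf, one_mul]
    set m : ℕ := min (j - (mb + 1)) 200 with hmdef
    refine pr_low50 hlow hvs hQ1 x hcard (by rw [hWc]; omega) (by rw [hcast]; exact hr0) (by rw [hcast]; exact haN)
      (by rw [hcast]; exact hQ05.trans hr0) (m := m) (by rw [hvl]; omega) ?_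
    rw [hcast]
    have h1 := sig_le x (r := (a : ℝ) / ((M : ℝ) + k)) (by positivity) haN hQ12 hs0 hs hV hWR
    have hδ' := hδ hf
    have hmj : m + (mb + 1) ≤ j := by omega
    have hmj' : m + (mb + 1) ≤ mb + 201 := by omega
    have h4 : (m + (mb + 1)) * (k - a) ≤ k := (Nat.mul_le_mul_right _ hmj').trans hmb
    have h5 : ((m : ℝ) + (mb + 1)) * ((k : ℝ) - a) ≤ k := by
      have h := (Nat.cast_le (α := ℝ)).2 h4
      rw [Nat.cast_mul, Nat.cast_sub hak] at h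
      push_cast at h
      linarith
    have h6 : ((m : ℝ) + (mb + 1)) / 50 * s ≤ μ := by
      refine le_trans ?_ hj
      have h : ((m : ℝ) + (mb + 1)) ≤ (j : ℝ) := by exact_mod_cast hmj
      apply mul_le_mul_of_nonneg_right _ hs0.le
      linarith
    have h7 : (a : ℝ) * mean x W = (a : ℝ) / k * μ := by
      rw [hμdef]
      field_simp
    have h8 : ((m : ℝ) + mb) / 50 * s ≤ (a : ℝ) * mean x W := by
      rw [h7]
      have h9 : (a : ℝ) / k * (((m : ℝ) + (mb + 1)) / 50 * s) ≤ (a : ℝ) / k * μ :=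
        mul_le_mul_of_nonneg_left h6 (by positivity)
      refine le_trans ?_ h9
      have h10 : ((m : ℝ) + mb) * k ≤ a * ((m : ℝ) + (mb + 1)) := by
        have e : ((m : ℝ) + (mb + 1)) * ((k : ℝ) - a) = ((m : ℝ) + mb) * k + k - a * ((m : ℝ) + (mb + 1)) := by ring
        rw [e] at h5
        linarith
      have h11 : ((m : ℝ) + mb) ≤ a / k * ((m : ℝ) + (mb + 1)) := by
        rw [div_mul_eq_mul_div, le_div_iff₀ (by linarith)]
        exact h10
      calc ((m : ℝ) + mb) / 50 * s ≤ (a / k * ((m : ℝ) + (mb + 1))) / 50 * s := by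
            apply mul_le_mul_of_nonneg_right _ hs0.le
            linarith
        _ = (a : ℝ) / k * (((m : ℝ) + (mb + 1)) / 50 * s) := by ring
    have h12 : (m : ℝ) / 50 * √((a : ℝ) / ((M : ℝ) + k) * (1 - (a : ℝ) / ((M : ℝ) + k)) * dev x W) ≤
        (m : ℝ) / 50 * s := mul_le_mul_of_nonneg_left h1 (by positivity)
    have h13 : ((m : ℝ) + mb) / 50 * s = (m : ℝ) / 50 * s + (mb : ℝ) / 50 * s := by ring
    linarith
  have hpw' := pw_sound hws ms hpw hs0 hA hμ hπ hπ1 hπD0 hD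
  refine hpw'.trans ?_
  have hkap : (0 : ℝ) ≤ (kap : ℝ) / 65536 := by positivity
  rcases hπ0.eq_or_lt with h0 | hpos
  · rw [← h0, zero_mul, mul_zero, add_zero]
    refine le_add_of_nonneg_right (mul_nonneg hkap ?_)
    have h1 : avg W k (fun _ => (0 : ℝ)) ≤ avg W k (fun g => if 0 ≤ sg x g then
        1 + (max 0 (A - Q * sg x g)) ^ 2 / s ^ 2 else 0) := by
      refine avg_mono fun g _ _ => ?_
      split_ifs
      · positivity
      · exact le_rfl
    rwa [avg_const (by rw [hWc]; omega)] at h1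
  · have hj := chg_jensen (W := W) (k := k) x (by rw [hWc]; omega) (le_trans (by norm_num) hcard2) (A := A) (Q := Q) (v := s ^ 2) (β := 0)
      (π := π) (by rw [hQdef]; positivity) (by positivity) (by rw [hs]; exact hv1) hπdef hpos
    have hsq : √(s ^ 2 * ((1 - π) / π)) = s * √((1 - π) / π) := by
      rw [Real.sqrt_mul (sq_nonneg s), Real.sqrt_sq hs0.le]
    rw [hsq] at hj
    have h1 := mul_le_mul_of_nonneg_left hj hkap
    linarith

end Pool.Agent.MMS15
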