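import Pool.Agent.MMS15.ChgA
import Pool.Agent.MMS15.ChgP
import Pool.Agent.MMS15.ChgQ

/-!
# MMS15/ChgH: charging with a hat table

`R` with `N = |R| = M + a + k` elements (`1 ≤ a ≤ k`).  `Q = Q1 / 2^14` (`> 0` by `hr1`), `v = s² = 1.0001 Q (1 - Q) V > 0`.  Bad: `U ⊆ R`, `|U| = a`, `sg x U < A0`.
`charge` with `b = k`, `B = 0`, `A = A0`, `κ = kap / 2^16`, `e = 1` if `f = true` and `0` otherwise, `w g = 1 + (max 0 (A - Q g))² / s²`; `h1` is `chg_h1`, `h2` is `chg_h2`.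
`ratio_le` with `b = k`: `C(N - k, a) / C(N - a, k) = C(M + a, a) / C(M + k, k) ≤ (k / (M + k))^(k - a)`.
-/

open Finset Pool.Agent.H36.MMS

set_option autoImplicit false

namespace Pool.Agent.MMS15

open Pool.Agent.MMS14

variable {α : Type*} [DecidableEq α]

theorem charge_hat {Q0 Q1 : ℕ} {vs ws : List ℕ} (hlow : StarLowOk Q0 Q1 vs) (hvl : vs.length = 201)
    (hvs : ∀ v ∈ vs, v ≤ 65536) (hws : wOk vs ws = true) (hQ5 : 3277 ≤ Q0) (hQ1 : Q1 ≤ 8192)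
    {R : Finset α} {M a k : ℕ} (x : α → ℝ) (hR : R.card = M + a + k) (ha : 1 ≤ a) (hak : a ≤ k) (hk : 10 ^ 20 ≤ k)
    (hr0 : (Q0 : ℝ) / 16384 ≤ (a : ℝ) / ((M : ℝ) + k)) (hr1 : (k : ℝ) / ((M : ℝ) + a) ≤ (Q1 : ℝ) / 16384)
    {V s : ℝ} (hV0 : 0 < V) (hV : ps x 2 R ≤ V) (hs : s = √(1.0001 * ((Q1 : ℝ) / 16384) * (1 - (Q1 : ℝ) / 16384) * V))
    {f : Bool} {c kap mb m0 : ℕ} {ms : List ℕ} (hpw : pwL Q1 vs ws f c kap mb ms m0 = true)
    (hmb : (mb + 201) * (k - a) ≤ k) {A A0 δ : ℝ} (hA : (c : ℝ) / 1048576 * s ≤ max 0 A)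
    (hA2 : A ≤ -A0 - (Q1 : ℝ) / 16384 * max 0 (-(sg x R))) (hA0 : A0 ≤ sg x R)
    (hm0 : (m0 : ℝ) / 50 * s ≤ (Q0 : ℝ) / 16384 * (sg x R - A0)) (hδ : f = true → δ ≤ (mb : ℝ) / 50 * s) :
    ((((R.powersetCard a).filter (fun U => sg x U < A0)).card : ℕ) : ℝ) ≤
      (if f then 1 else 0) * (((R.powersetCard a).filter (fun h => δ ≤ sg x h)).card : ℝ) +
      (kap : ℝ) / 65536 * ((k : ℝ) / ((M : ℝ) + k)) ^ (k - a) *
        (((R.powersetCard k).filter (fun g => 0 ≤ sg x g)).card : ℝ) := by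
  classical
  have hk1 : 1 ≤ k := le_trans (by norm_num) hk
  have hkr : (1 : ℝ) ≤ (k : ℝ) := by exact_mod_cast hk1
  have hM0 : (0 : ℝ) ≤ (M : ℝ) := Nat.cast_nonneg M
  have har : (1 : ℝ) ≤ (a : ℝ) := by exact_mod_cast ha
  have hQ0pos : (0 : ℝ) < (Q1 : ℝ) / 16384 := lt_of_lt_of_le (by positivity) hr1
  have hQ12 : (Q1 : ℝ) / 16384 ≤ 1 / 2 := by
    have h : (Q1 : ℝ) ≤ 8192 := by exact_mod_cast hQ1
    linarith
  set v : ℝ := 1.0001 * ((Q1 : ℝ) / 16384) * (1 - (Q1 : ℝ) / 16384) * V with hv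
  have hvpos : 0 < v := by
    rw [hv]
    have h1 : 0 < 1 - (Q1 : ℝ) / 16384 := by linarith
    positivity
  have hs0 : 0 < s := by rw [hs]; exact Real.sqrt_pos.2 hvpos
  have hs2 : s ^ 2 = v := by rw [hs]; exact Real.sq_sqrt hvpos.le
  -- `M + a` is large
  have hMa : 20000 ≤ M + a := by
    have h1 : (k : ℝ) ≤ 1 / 2 * ((M : ℝ) + a) := by
      have h2 := hr1.trans hQ12
      rwa [div_le_iff₀ (by linarith)] at h2
    have h3 : ((10 ^ 20 : ℕ) : ℝ) ≤ (k : ℝ) := by exact_mod_cast hk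
    have h4 : ((20000 : ℕ) : ℝ) ≤ ((M + a : ℕ) : ℝ) := by
      push_cast at h3 ⊢
      linarith
    exact_mod_cast h4
  have hch := charge (R := R) (a := a) (b := k) x (A := A0) (B := 0) (δ := δ) (e := if f then 1 else 0) (κ := (kap : ℝ) / 65536)
    (by split_ifs <;> norm_num) (by positivity) (by omega) (by omega)
    (fun g => 1 + (max 0 (A - (Q1 : ℝ) / 16384 * g)) ^ 2 / s ^ 2)
    (fun g hg hgc hg0 => by
      have h := chg_h1 x hR ha hak hMa hQ0pos hQ12 hr1 hV0 hV hv hA2 hg hgc hg0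
      rw [hs2]
      exact h)
    (fun U hU hUc hUb =>
      chg_h2 hlow hvl hvs hws hQ5 hQ1 x hR ha hak hk hr0 hr1 hV0 hV hs0 (by rw [hs2, hv]) hpw hmb hA hA0 hm0 hδ hU hUc hUb)
  refine hch.trans ?_
  have hrat := ratio_le (M := M) (a := a) (b := k) hak hk1
  have e1 : R.card - k = M + a := by omega
  have e2 : R.card - a = M + k := by omega
  rw [e1, e2]
  have h1 : (kap : ℝ) / 65536 * (((M + a).choose a : ℝ) / ((M + k).choose k : ℝ)) ≤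
      (kap : ℝ) / 65536 * ((k : ℝ) / ((M : ℝ) + k)) ^ (k - a) :=
    mul_le_mul_of_nonneg_left hrat (by positivity)
  have h2 := mul_le_mul_of_nonneg_right h1 (Nat.cast_nonneg (α := ℝ) ((R.powersetCard k).filter (fun g => 0 ≤ sg x g)).card)
  linarith

end Pool.Agent.MMS15
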