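import Pool.Agent.MMS15.BoxD

/-!
# MMS15/NarS: operations on boxes

`pre` (last one first) is increasing in absolute value; `Fit` gives `lo/1000 ≤ |x| ≤ hi/1000`.  All recursors unfold by `rfl`.
`nar_sound`: generalize: for all `l` with `(l : ℝ)/1000 ≤ |x|` for all `x ∈ pre`: `Mt (nar ats l) pre`; for `x :: pre'` matched with `a :: ats'`:
`mx a.lo l ≤ 1000 |x| ≤ 1000 |y|` for `y ∈ pre'`, so the induction hypothesis applies to `nar ats' (mx a.lo l)`; `adj` changes the lower end to `mx a.lo l` and the upper end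
to `mn a.hi y.hi`, `y` the first atom of the narrowed tail, which fits the first number of `pre'` (`≥ |x|`).
`cut_sound`: `|pre_i| ≤ m/1000` or `≥ m/1000`; if `i` is out of range nothing changes.
-/

set_option autoImplicit false

namespace Pool.Agent.MMS15

open Pool.Agent.MMS14

private theorem mn_le_cast {a b : ℕ} {y : ℝ} (ha : y ≤ (a : ℝ) / 1000) (hb : y ≤ (b : ℝ) / 1000) :
    y ≤ ((mn a b : ℕ) : ℝ) / 1000 := by
  unfold mn
  rcases Nat.ble a b with _ | _
  · exact hb
  · exact ha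

private theorem mx_le_cast {a b : ℕ} {y : ℝ} (ha : (a : ℝ) / 1000 ≤ y) (hb : (b : ℝ) / 1000 ≤ y) :
    ((mx a b : ℕ) : ℝ) / 1000 ≤ y := by
  unfold mx
  rcases Nat.ble a b with _ | _
  · exact ha
  · exact hb

private theorem fit_abs {a : At} {x : ℝ} (h : Fit a x) :
    ((a.lo : ℕ) : ℝ) / 1000 ≤ |x| ∧ |x| ≤ ((a.hi : ℕ) : ℝ) / 1000 := by
  rcases a with ⟨lo, hi⟩ | ⟨lo, hi⟩
  · obtain ⟨h1, h2⟩ := h
    have h0 : (0 : ℝ) ≤ (lo : ℝ) / 1000 := by positivity
    have h3 : |x| = x := abs_of_nonneg (h0.trans h1)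
    rw [h3]
    exact ⟨h1, h2⟩
  · obtain ⟨h1, h2⟩ := h
    have h0 : (0 : ℝ) ≤ (lo : ℝ) / 1000 := by positivity
    have h4 : (0 : ℝ) ≤ -x := h0.trans h1
    have h3 : |x| = -x := abs_of_nonpos (by linarith)
    rw [h3]
    exact ⟨h1, h2⟩

private theorem fit_p {lo hi lo' hi' : ℕ} {x : ℝ} (h : Fit (At.p lo hi) x)
    (h1 : (lo' : ℝ) / 1000 ≤ |x|) (h2 : |x| ≤ (hi' : ℝ) / 1000) : Fit (At.p lo' hi') x := by
  have h0 : (0 : ℝ) ≤ (lo : ℝ) / 1000 := by positivity
  have h3 : |x| = x := abs_of_nonneg (h0.trans h.1)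
  rw [h3] at h1 h2
  exact ⟨h1, h2⟩

private theorem fit_m {lo hi lo' hi' : ℕ} {x : ℝ} (h : Fit (At.m lo hi) x)
    (h1 : (lo' : ℝ) / 1000 ≤ |x|) (h2 : |x| ≤ (hi' : ℝ) / 1000) : Fit (At.m lo' hi') x := by
  have h0 : (0 : ℝ) ≤ (lo : ℝ) / 1000 := by positivity
  have h4 : (0 : ℝ) ≤ -x := h0.trans h.1
  have h3 : |x| = -x := abs_of_nonpos (by linarith)
  rw [h3] at h1 h2
  exact ⟨h1, h2⟩

private theorem nar_gen : ∀ (ats : List At) (pre : List ℝ) (l : ℕ), Mt ats pre →
    pre.Pairwise (fun a b => |a| ≤ |b|) → (∀ x ∈ pre, (l : ℝ) / 1000 ≤ |x|) →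
    Mt (nar ats l) pre := by
  intro ats
  induction ats with
  | nil =>
    intro pre l hm _ _
    exact hm
  | cons a t ih =>
    intro pre l hm hp hl
    obtain ⟨x, pre', hx, hm', rfl⟩ : ∃ x pre', Fit a x ∧ Mt t pre' ∧ pre = x :: pre' := by
      cases hm with
      | cons h1 h2 => exact ⟨_, _, h1, h2, rfl⟩
    have hlx := hl x List.mem_cons_self
    have hax := fit_abs hx
    have hmx : ((mx a.lo l : ℕ) : ℝ) / 1000 ≤ |x| := mx_le_cast hax.1 hlx
    rw [List.pairwise_cons] at hp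
    have ht := ih pre' (mx a.lo l) hm' hp.2 fun y hy => hmx.trans (hp.1 y hy)
    show Mt (adj a l (nar t (mx a.lo l))) (x :: pre')
    generalize nar t (mx a.lo l) = u at ht
    cases u with
    | nil =>
      have hpre : pre' = [] := by
        cases ht
        rfl
      subst hpre
      rcases a with ⟨lo, hi⟩ | ⟨lo, hi⟩
      · exact List.Forall₂.cons (fit_p hx hmx hax.2) List.Forall₂.nil
      · exact List.Forall₂.cons (fit_m hx hmx hax.2) List.Forall₂.nil
    | cons y ys =>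
      have hub : |x| ≤ ((y.hi : ℕ) : ℝ) / 1000 := by
        cases ht with
        | cons h1 h2 => exact (hp.1 _ List.mem_cons_self).trans (fit_abs h1).2
      rcases a with ⟨lo, hi⟩ | ⟨lo, hi⟩
      · exact List.Forall₂.cons (fit_p hx hmx (mn_le_cast hax.2 hub)) ht
      · exact List.Forall₂.cons (fit_m hx hmx (mn_le_cast hax.2 hub)) ht

theorem nar_sound {ats : List At} {pre : List ℝ} (hm : Mt ats pre) (hp : pre.Pairwise (fun a b => |a| ≤ |b|)) :
    Mt (nar ats 0) pre :=
  nar_gen ats pre 0 hm hp fun x _ => by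
    rw [Nat.cast_zero, zero_div]
    exact abs_nonneg x

theorem nar_ne {ats : List At} (h : ats ≠ []) : nar ats 0 ≠ [] := by
  cases ats with
  | nil => exact absurd rfl h
  | cons a t =>
    show adj a 0 (nar t (mx a.lo 0)) ≠ []
    generalize nar t (mx a.lo 0) = u
    cases u with
    | nil =>
      rcases a with ⟨lo, hi⟩ | ⟨lo, hi⟩
      · exact List.cons_ne_nil _ _
      · exact List.cons_ne_nil _ _
    | cons y ys =>
      rcases a with ⟨lo, hi⟩ | ⟨lo, hi⟩
      · exact List.cons_ne_nil _ _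
      · exact List.cons_ne_nil _ _

theorem cut_ne {ats : List At} (h : ats ≠ []) (m i : ℕ) : cutH m ats i ≠ [] ∧ cutL m ats i ≠ [] := by
  cases ats with
  | nil => exact absurd rfl h
  | cons a t =>
    cases i with
    | zero =>
      rcases a with ⟨lo, hi⟩ | ⟨lo, hi⟩
      · exact ⟨List.cons_ne_nil _ _, List.cons_ne_nil _ _⟩
      · exact ⟨List.cons_ne_nil _ _, List.cons_ne_nil _ _⟩
    | succ n => exact ⟨List.cons_ne_nil _ _, List.cons_ne_nil _ _⟩

theorem cut_sound {ats : List At} {pre : List ℝ} (hm : Mt ats pre) (m i : ℕ) :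
    Mt (cutH m ats i) pre ∨ Mt (cutL m ats i) pre := by
  induction ats generalizing pre i with
  | nil => exact Or.inl hm
  | cons a t ih =>
    obtain ⟨x, pre', hx, hm', rfl⟩ : ∃ x pre', Fit a x ∧ Mt t pre' ∧ pre = x :: pre' := by
      cases hm with
      | cons h1 h2 => exact ⟨_, _, h1, h2, rfl⟩
    cases i with
    | zero =>
      have hax := fit_abs hx
      rcases le_total |x| ((m : ℝ) / 1000) with h1 | h1
      · left
        rcases a with ⟨lo, hi⟩ | ⟨lo, hi⟩
        · exact List.Forall₂.cons (fit_p hx hax.1 h1) hm'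
        · exact List.Forall₂.cons (fit_m hx hax.1 h1) hm'
      · right
        rcases a with ⟨lo, hi⟩ | ⟨lo, hi⟩
        · exact List.Forall₂.cons (fit_p hx h1 hax.2) hm'
        · exact List.Forall₂.cons (fit_m hx h1 hax.2) hm'
    | succ n =>
      rcases ih hm' n with h1 | h1
      · exact Or.inl (List.Forall₂.cons hx h1)
      · exact Or.inr (List.Forall₂.cons hx h1)

end Pool.Agent.MMS15
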