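import Pool.Agent.MMS15.BoxD
import Pool.Agent.MMS15.Cover
import Pool.Agent.MMS15.ErrS

/-!
# MMS15/NarX: empty boxes, exceptional boxes, the next atom

`pre` (last one first) is increasing in absolute value; `Fit` gives `lo/1000 ≤ |x| ≤ hi/1000`.  All recursors unfold by `rfl`.
`nfB_false`: a nonempty box is not declared empty: `suLo ats ≤ 10^6 ss pre ≤ 10^6 S ≤ 1000 sb`; `ordB ats l`: all later numbers are `≤`: generalize with
`(l : ℝ)/1000 ≤ |x|` for all `x ∈ pre`; `vB`: a positive atom `lo ≤ 1000 b` (`b > 0`): `kp lo² ≤ 10^6 kp b² < 10^8 S ≤ 10^5 sb`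
(`kp / 100 b² < S`; an atom `p lo hi` may be matched by `b = 0` or `lo = 0`: then `kp * 0 < 10^5 sb` because `S > 0`).
`inB_sound`: inclusion of boxes.
`R1_le`: `10^6 ss r ≤ 1000 sb - suLo ats`.
`xcB_sound`: `inB` and `1000 sb ≤ V + suLo ats`, so `10^6 ss r = 10^6 S - 10^6 ss pre ≤ V`; the entry number `i` of `xs` is a member.
`loN_sound`: if `ss (h :: l) / h² ≤ Sc j`, `1 ≤ j ≤ 126`, then `Su_j / 10^6 ≥ Sc j` (`Su_sound`), so `(1000 h)² ≥ 10^12 V / Su_j ≥ 10^6 R0 / Su_j ≥ (loN)²`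
(`R0 sa ats ≤ 10^6 V`, `sqL_sound`, floor); for `j ≥ 127` the bound is `0`.  `hd0 (dr (j - 1) Su) = Su.getD (j - 1) 0` (`hd0_dr`).
-/

set_option autoImplicit false

namespace Pool.Agent.MMS15

open Pool.Agent.MMS14

private theorem nx_fit {x : At} {c : ℝ} (h : Fit x c) :
    ((x.lo : ℕ) : ℝ) / 1000 ≤ |c| ∧ |c| ≤ ((x.hi : ℕ) : ℝ) / 1000 := by
  cases x with
  | p lo hi =>
    obtain ⟨h1, h2⟩ := h
    have h0 : 0 ≤ c := le_trans (by positivity) h1
    rw [abs_of_nonneg h0]
    exact ⟨h1, h2⟩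
  | m lo hi =>
    obtain ⟨h1, h2⟩ := h
    have h0 : 0 ≤ -c := le_trans (by positivity) h1
    have h3 : c ≤ 0 := by linarith
    rw [abs_of_nonpos h3]
    exact ⟨h1, h2⟩

private theorem nx_suLo_cons (x : At) (ats : List At) : suLo (x :: ats) = suLo ats + x.lo * x.lo := rfl

private theorem nx_sq {n : ℕ} {y : ℝ} (h : (n : ℝ) / 1000 ≤ |y|) : (n : ℝ) * n ≤ 1000000 * y ^ 2 := by
  have h0 : (0 : ℝ) ≤ (n : ℝ) / 1000 := by positivity
  have h1 : ((n : ℝ) / 1000) ^ 2 ≤ |y| ^ 2 := pow_le_pow_left₀ h0 h 2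
  rw [sq_abs] at h1
  have h2 : ((n : ℝ) * n) = 1000000 * ((n : ℝ) / 1000) ^ 2 := by ring
  rw [h2]
  linarith

private theorem nx_suLo {ats : List At} {pre : List ℝ} (hm : Mt ats pre) :
    ((suLo ats : ℕ) : ℝ) ≤ 1000000 * ss pre := by
  unfold Mt at hm
  induction hm with
  | nil =>
    have h : suLo [] = 0 := rfl
    rw [h, ss_nil]
    norm_num
  | @cons x c ats pre hx _ ih =>
    rw [nx_suLo_cons, ss_cons]
    have h1 := nx_sq (nx_fit hx).1
    push_cast
    linarith

private theorem nx_ordB_cons (x : At) (ats : List At) (l : ℕ) :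
    ordB (x :: ats) l = ou (Nat.blt x.hi (mx l x.lo)) (ordB ats x.lo) := rfl

private theorem nx_ou_false {a b : Bool} (ha : a = false) (hb : b = false) : ou a b = false := by
  rw [ha, hb]
  rfl

private theorem nx_blt_false {a b : ℕ} (h : b ≤ a) : Nat.blt a b = false := by
  rw [Bool.eq_false_iff]
  intro h1
  have h2 : Nat.ble (a + 1) b = true := h1
  have h3 := Nat.le_of_ble_eq_true h2
  omega

private theorem nx_ordB {ats : List At} {pre : List ℝ} (hm : Mt ats pre)
    (hp : pre.Pairwise (fun a b => |a| ≤ |b|)) (l : ℕ) (hl : ∀ x ∈ pre, (l : ℝ) / 1000 ≤ |x|) :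
    ordB ats l = false := by
  unfold Mt at hm
  induction hm generalizing l with
  | nil => rfl
  | @cons x c ats pre hx _ ih =>
    rw [nx_ordB_cons]
    obtain ⟨h1, h2⟩ := nx_fit hx
    rw [List.pairwise_cons] at hp
    apply nx_ou_false
    · apply nx_blt_false
      rw [mx_eq]
      apply max_le
      · have h3 := (hl c List.mem_cons_self).trans h2
        rw [div_le_div_iff_of_pos_right (by norm_num)] at h3
        exact_mod_cast h3
      · have h3 := h1.trans h2
        rw [div_le_div_iff_of_pos_right (by norm_num)] at h3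
        exact_mod_cast h3
    · exact ih hp.2 x.lo fun y hy => h1.trans (hp.1 y hy)

private theorem nx_vB_p (kp sb lo hi : ℕ) (ats : List At) : vB kp sb (At.p lo hi :: ats) =
    ou (Nat.ble (100000 * sb) (kp * (lo * lo))) (vB kp sb ats) := rfl

private theorem nx_vB_m (kp sb lo hi : ℕ) (ats : List At) : vB kp sb (At.m lo hi :: ats) =
    ou false (vB kp sb ats) := rfl

private theorem nx_vB {kp sb : ℕ} {S : ℝ} (hS : 0 < S) (hS1 : 1000 * S ≤ (sb : ℝ)) {ats : List At} {pre : List ℝ}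
    (hm : Mt ats pre) (hkp : ∀ b ∈ pre, 0 < b → (kp : ℝ) / 100 * b ^ 2 < S) : vB kp sb ats = false := by
  unfold Mt at hm
  induction hm with
  | nil => rfl
  | @cons x c ats pre hx _ ih =>
    have ih' := ih fun b hb => hkp b (List.mem_cons_of_mem _ hb)
    cases x with
    | m lo hi =>
      rw [nx_vB_m]
      exact nx_ou_false rfl ih'
    | p lo hi =>
      rw [nx_vB_p]
      apply nx_ou_false _ ih'
      rw [Bool.eq_false_iff]
      intro h1
      have h2 := Nat.le_of_ble_eq_true h1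
      have h3 : (100000 * (sb : ℝ)) ≤ (kp : ℝ) * ((lo : ℝ) * lo) := by exact_mod_cast h2
      have hk0 : (0 : ℝ) ≤ (kp : ℝ) := Nat.cast_nonneg _
      obtain ⟨h4, _⟩ := hx
      rcases le_or_gt c 0 with hc | hc
      · have h5 : (lo : ℝ) ≤ 0 := by
          have h6 : (lo : ℝ) / 1000 ≤ 0 := h4.trans hc
          linarith
        have h6 : (lo : ℝ) = 0 := le_antisymm h5 (Nat.cast_nonneg _)
        rw [h6] at h3
        nlinarith
      · have h5 := hkp c List.mem_cons_self hc
        have h6 : (lo : ℝ) * lo ≤ 1000000 * c ^ 2 := by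
          apply nx_sq
          rw [abs_of_pos hc]
          exact h4
        have h7 : (kp : ℝ) * ((lo : ℝ) * lo) ≤ (kp : ℝ) * (1000000 * c ^ 2) :=
          mul_le_mul_of_nonneg_left h6 hk0
        nlinarith

theorem nfB_false {kp sb : ℕ} {ats : List At} {pre r : List ℝ} (hm : Mt ats pre) (hp : Pre pre r)
    (hS : 0 < ss pre + ss r) (hkp : ∀ b ∈ pre, 0 < b → (kp : ℝ) / 100 * b ^ 2 < ss pre + ss r)
    (hS1 : 1000 * (ss pre + ss r) ≤ (sb : ℝ)) : nfB kp sb ats = false := by
  unfold nfB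
  apply nx_ou_false
  · apply nx_blt_false
    have h1 := nx_suLo hm
    have h2 := ss_nonneg r
    have h3 : ((suLo ats : ℕ) : ℝ) ≤ ((1000 * sb : ℕ) : ℝ) := by
      push_cast
      nlinarith
    exact_mod_cast h3
  · apply nx_ou_false
    · exact nx_ordB hm hp.1 0 fun x _ => by simp
    · exact nx_vB hS hS1 hm hkp

private theorem nx_inB_nil_nil : inB [] [] = true := rfl
private theorem nx_inB_nil_cons (y : At) (d : List At) : inB [] (y :: d) = false := rfl
private theorem nx_inB_cons_nil (x : At) (ats : List At) : inB (x :: ats) [] = false := rfl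
private theorem nx_inB_pp (lo hi lo' hi' : ℕ) (ats d : List At) : inB (At.p lo hi :: ats) (At.p lo' hi' :: d) =
    et (et (Nat.ble lo' lo) (Nat.ble hi hi')) (inB ats d) := rfl
private theorem nx_inB_pm (lo hi lo' hi' : ℕ) (ats d : List At) : inB (At.p lo hi :: ats) (At.m lo' hi' :: d) =
    et false (inB ats d) := rfl
private theorem nx_inB_mp (lo hi lo' hi' : ℕ) (ats d : List At) : inB (At.m lo hi :: ats) (At.p lo' hi' :: d) =
    et false (inB ats d) := rfl
private theorem nx_inB_mm (lo hi lo' hi' : ℕ) (ats d : List At) : inB (At.m lo hi :: ats) (At.m lo' hi' :: d) =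
    et (et (Nat.ble lo' lo) (Nat.ble hi hi')) (inB ats d) := rfl

private theorem nx_mono {lo hi lo' hi' : ℕ} (h1 : Nat.ble lo' lo = true) (h2 : Nat.ble hi hi' = true) {y : ℝ}
    (h : (lo : ℝ) / 1000 ≤ y ∧ y ≤ (hi : ℝ) / 1000) : (lo' : ℝ) / 1000 ≤ y ∧ y ≤ (hi' : ℝ) / 1000 := by
  have h3 : (lo' : ℝ) ≤ (lo : ℝ) := by exact_mod_cast Nat.le_of_ble_eq_true h1
  have h4 : (hi : ℝ) ≤ (hi' : ℝ) := by exact_mod_cast Nat.le_of_ble_eq_true h2
  constructor
  · refine le_trans ?_ h.1
    exact div_le_div_of_nonneg_right h3 (by norm_num)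
  · refine h.2.trans ?_
    exact div_le_div_of_nonneg_right h4 (by norm_num)

private theorem nx_inB {ats : List At} {pre : List ℝ} (hm : Mt ats pre) (c : List At) (h : inB ats c = true) :
    Mt c pre := by
  unfold Mt at hm ⊢
  induction hm generalizing c with
  | nil =>
    cases c with
    | nil => exact List.Forall₂.nil
    | cons y d =>
      rw [nx_inB_nil_cons] at h
      exact absurd h (by decide)
  | @cons x v ats pre hx _ ih =>
    cases c with
    | nil =>
      rw [nx_inB_cons_nil] at h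
      exact absurd h (by decide)
    | cons y d =>
      cases x with
      | p lo hi =>
        cases y with
        | p lo' hi' =>
          rw [nx_inB_pp, et_true, et_true] at h
          exact List.Forall₂.cons (nx_mono h.1.1 h.1.2 hx) (ih d h.2)
        | m lo' hi' =>
          rw [nx_inB_pm, et_true] at h
          exact absurd h.1 (by decide)
      | m lo hi =>
        cases y with
        | p lo' hi' =>
          rw [nx_inB_mp, et_true] at h
          exact absurd h.1 (by decide)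
        | m lo' hi' =>
          rw [nx_inB_mm, et_true, et_true] at h
          exact List.Forall₂.cons (nx_mono h.1.1 h.1.2 hx) (ih d h.2)

private theorem nx_xcB_cons (x : XC) (xs : List XC) (sb : ℕ) (ats : List At) (i : ℕ) :
    xcB (x :: xs) sb ats i = cond (Nat.beq i 0)
      (et (inB ats x.ats) (Nat.ble (Nat.mul 1000 sb) (Nat.add x.V (suLo ats)))) (xcB xs sb ats (Nat.pred i)) := rfl

private theorem nx_xcB {xs : List XC} {sb : ℕ} {ats : List At} (i : ℕ) (h : xcB xs sb ats i = true) :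
    ∃ x ∈ xs, inB ats x.ats = true ∧ 1000 * sb ≤ x.V + suLo ats := by
  induction xs generalizing i with
  | nil =>
    have h1 : xcB [] sb ats i = false := rfl
    rw [h1] at h
    exact absurd h (by decide)
  | cons x xs ih =>
    rw [nx_xcB_cons] at h
    cases hi : Nat.beq i 0 with
    | true =>
      rw [hi, cond_true, et_true] at h
      exact ⟨x, List.mem_cons_self, h.1, Nat.le_of_ble_eq_true h.2⟩
    | false =>
      rw [hi, cond_false] at h
      obtain ⟨y, hy, h1⟩ := ih _ h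
      exact ⟨y, List.mem_cons_of_mem _ hy, h1⟩

theorem xcB_sound {xs : List XC} {sb i : ℕ} {ats : List At} {pre r : List ℝ} (hm : Mt ats pre)
    (hS1 : 1000 * (ss pre + ss r) ≤ (sb : ℝ)) (h : xcB xs sb ats i = true) : Exc xs (pre.reverse ++ r) := by
  obtain ⟨x, hx, h1, h2⟩ := nx_xcB i h
  refine ⟨x, hx, pre, r, rfl, nx_inB hm _ h1, ?_⟩
  have h3 := nx_suLo hm
  have h4 : (1000 * (sb : ℝ)) ≤ (x.V : ℝ) + ((suLo ats : ℕ) : ℝ) := by exact_mod_cast h2
  linarith

theorem loN_sound {sa j : ℕ} {ats : List At} {h : ℝ} {l : List ℝ} (hh : h ≠ 0) (hj : 1 ≤ j)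
    (hR : ((R0 sa ats : ℕ) : ℝ) ≤ 1000000 * ss (h :: l)) (hS : j ≤ 126 → ss (h :: l) / h ^ 2 ≤ Sc j) :
    ((loN sa j ats : ℕ) : ℝ) / 1000 ≤ |h| := by
  unfold loN
  cases hb : Nat.blt j 127 with
  | false =>
    rw [cond_false]
    simp
  | true =>
    rw [cond_true]
    have hj' : j ≤ 126 := by
      have h1 : Nat.ble (j + 1) 127 = true := hb
      have h2 := Nat.le_of_ble_eq_true h1
      omega
    have hs := Su_sound hj hj'
    have hd : hd0 (dr (Nat.pred j) Su) = Su.getD (j - 1) 0 := hd0_dr _ _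
    rw [hd]
    obtain ⟨s, hs'⟩ : ∃ s, s = Su.getD (j - 1) 0 := ⟨_, rfl⟩
    rw [← hs'] at hs ⊢
    have hSc : 1 ≤ Sc j := by
      have h1 := Sc_mono (Nat.zero_le j) hj'
      rw [Sc_zero] at h1
      exact h1
    have hs0 : (0 : ℝ) < (s : ℝ) := by linarith
    have h1 := sqL_sound (Nat.div (Nat.mul (R0 sa ats) 1000000) s)
    obtain ⟨w, hw⟩ : ∃ w, w = sqL (Nat.div (Nat.mul (R0 sa ats) 1000000) s) := ⟨_, rfl⟩
    rw [← hw] at h1 ⊢
    have h2 : ((w : ℝ)) ^ 2 ≤ (((R0 sa ats * 1000000) / s : ℕ) : ℝ) := by exact_mod_cast h1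
    have h3 : (((R0 sa ats * 1000000) / s : ℕ) : ℝ) ≤ ((R0 sa ats * 1000000 : ℕ) : ℝ) / (s : ℝ) := Nat.cast_div_le
    have h4 : ((R0 sa ats * 1000000 : ℕ) : ℝ) / (s : ℝ) ≤ 1000000 * h ^ 2 := by
      rw [div_le_iff₀ hs0]
      push_cast
      have hh2 : 0 < h ^ 2 := by positivity
      have h5 := hS hj'
      rw [div_le_iff₀ hh2] at h5
      have h6 : 1000000 * Sc j * h ^ 2 ≤ (s : ℝ) * h ^ 2 := mul_le_mul_of_nonneg_right hs hh2.le
      nlinarith
    have h5 : (w : ℝ) ^ 2 ≤ (1000 * |h|) ^ 2 := by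
      rw [mul_pow, sq_abs]
      linarith
    have h6 : (w : ℝ) ≤ 1000 * |h| := by
      have h7 := abs_le_of_sq_le_sq' h5 (by positivity)
      exact h7.2
    linarith

theorem lastHi_sound {ats : List At} (hne : ats ≠ []) {pre r : List ℝ} (hm : Mt ats pre) (hp : Pre pre r) :
    ∀ b ∈ r, |b| ≤ ((lastHi ats : ℕ) : ℝ) / 1000 := by
  intro b hb
  cases hm with
  | nil => exact absurd rfl hne
  | @cons x c ats pre hx _ =>
    have h1 : lastHi (x :: ats) = x.hi := rfl
    rw [h1]
    exact (hp.2.2 c List.mem_cons_self b hb).trans (nx_fit hx).2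

end Pool.Agent.MMS15
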