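import Pool.Agent.MMS15.EvB
import Pool.Agent.MMS15.NarS
import Pool.Agent.MMS15.NarX

/-!
# MMS15/ChkS: soundness of the certificate checker

Induction on the certificate `c`, generalizing `sa sb ats pre r` (the equations of `chk` hold by `rfl`, one for each constructor; `et_true`, `ou_true`).
* `e`: if all entries of `r` are `0` (this includes `r = []` and `r = 0 :: l`, by sortedness) `evB_zero`; otherwise `r = h :: l`, `h ≠ 0`, `j0_sound`, `cover_from` gives
  a cell `k ≥ j0 sa ats`, `evB_sound` with `jp = jm = 0`.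
* `n`: `nfB_false` contradicts `nfB kp sb ats = true`.
* `x i`: `xcB_sound`.
* `S m c d`: `1000 S ≤ m` or `≥ m`.
* `A i m c d`: `cut_sound`, `cut_ne`.
* `N c`: `nar_sound`, `nar_ne`.
* `X jp jm c d`: if all entries of `r` are `0`: `R0 sa ats ≤ 10^6 ss r = 0` (`R0_le`), so `tgt ≤ emB ..`, `emB_sound` with `a = b = 2^40 + eps`.
  Otherwise `r = h :: l`, `h ≠ 0`, cell `k ≥ j0 sa ats`.  `h > 0`, `jp ≤ k`: then `jp ≤ 126`, so `evB` was checked: `evB_sound`.  `h > 0`, `k < jp`: then not `jp ≤ j0`, so `c` was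
  checked for `At.p (loN sa jp ats) (lastHi ats) :: ats`; `h` fits: `loN_sound` (for `jp ≤ 126`: `k + 1 ≤ jp`, `InC k S'` gives `S' ≤ Sc (k + 1) ≤ Sc jp`, `Sc_mono`),
  `lastHi_sound`; new `pre = h :: pre`, new rest `l`: `Pre (h :: pre) l`; `ss (h :: pre) + ss l = ss pre + ss (h :: l)`,
  `Pr p (h :: pre ++ l) = Pr p (pre ++ h :: l)` (`Pr_perm`, `List.perm_middle`), `(h :: pre).reverse ++ l = pre.reverse ++ h :: l`.  `h < 0`: the same with `jm`, `d`.
-/

set_option autoImplicit false

namespace Pool.Agent.MMS15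

open Pool.Agent.MMS14

private theorem ck_exists_u {q : Par} (hq : q.P0 ≤ q.P1) {p : ℝ} (hp0 : (q.P0 : ℝ) / 16384 ≤ p)
    (hp1 : p ≤ (q.P1 : ℝ) / 16384) :
    ∃ u : ℝ, 16384 * p = (1 - u) * q.P0 + u * q.P1 ∧ 0 ≤ u ∧ u ≤ 1 := by
  rw [div_le_iff₀ (by norm_num)] at hp0
  rw [le_div_iff₀ (by norm_num)] at hp1
  rcases hq.eq_or_lt with h | h
  · refine ⟨0, ?_, le_rfl, zero_le_one⟩
    rw [← h] at hp1
    linarith
  · have hlt : (q.P0 : ℝ) < q.P1 := by exact_mod_cast h
    have hd : (0 : ℝ) < (q.P1 : ℝ) - q.P0 := by linarith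
    refine ⟨(16384 * p - q.P0) / ((q.P1 : ℝ) - q.P0), ?_, ?_, ?_⟩
    · have h3 : (16384 * p - q.P0) / ((q.P1 : ℝ) - q.P0) * ((q.P1 : ℝ) - q.P0) =
          16384 * p - q.P0 := div_mul_cancel₀ _ hd.ne'
      linear_combination -h3
    · exact div_nonneg (by linarith) hd.le
    · rw [div_le_one hd]
      linarith

private theorem ck_par {q : Par} (hpar : parOk q = true) : q.P0 ≤ q.P1 ∧ q.P1 ≤ 8192 := by
  unfold parOk at hpar
  rw [et_true, et_true, et_true] at hpar
  obtain ⟨_, h2, h3, _⟩ := hpar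
  exact ⟨Nat.le_of_ble_eq_true h2, Nat.le_of_ble_eq_true h3⟩

private theorem ck_ss_zero {r : List ℝ} (hr : ∀ a ∈ r, a = 0) : ss r = 0 := by
  induction r with
  | nil => exact ss_nil
  | cons a l ih =>
    rw [ss_cons, hr a List.mem_cons_self, ih fun b hb => hr b (List.mem_cons_of_mem _ hb)]
    norm_num

private theorem ck_rest {r : List ℝ} (h : Srt r) :
    (∀ a ∈ r, a = 0) ∨ ∃ (x : ℝ) (l : List ℝ), r = x :: l ∧ x ≠ 0 := by
  cases r with
  | nil => exact Or.inl fun a ha => absurd ha (List.not_mem_nil)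
  | cons x l =>
    by_cases hx : x = 0
    · left
      intro a ha
      rcases List.mem_cons.1 ha with rfl | ha
      · exact hx
      · have h1 := Srt_head h a ha
        rw [hx, abs_zero] at h1
        exact abs_eq_zero.1 (le_antisymm h1 (abs_nonneg a))
    · exact Or.inr ⟨x, l, rfl, hx⟩

private theorem ck_e (q : Par) (tab : List (List ℕ)) (tgt eps kp : ℕ) (xs : List XC) (sa sb : ℕ) (ats : List At) :
    chk q tab tgt eps kp xs .e sa sb ats = evB q tab tgt eps ats sa sb 0 0 := rfl

private theorem ck_n (q : Par) (tab : List (List ℕ)) (tgt eps kp : ℕ) (xs : List XC) (sa sb : ℕ) (ats : List At) :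
    chk q tab tgt eps kp xs .n sa sb ats = nfB kp sb ats := rfl

private theorem ck_x (q : Par) (tab : List (List ℕ)) (tgt eps kp : ℕ) (xs : List XC) (i sa sb : ℕ) (ats : List At) :
    chk q tab tgt eps kp xs (.x i) sa sb ats = xcB xs sb ats i := rfl

private theorem ck_S (q : Par) (tab : List (List ℕ)) (tgt eps kp : ℕ) (xs : List XC) (m : ℕ) (c d : Ct) (sa sb : ℕ) (ats : List At) :
    chk q tab tgt eps kp xs (.S m c d) sa sb ats =
      et (chk q tab tgt eps kp xs c sa m ats) (chk q tab tgt eps kp xs d m sb ats) := rfl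

private theorem ck_A (q : Par) (tab : List (List ℕ)) (tgt eps kp : ℕ) (xs : List XC) (i m : ℕ) (c d : Ct) (sa sb : ℕ) (ats : List At) :
    chk q tab tgt eps kp xs (.A i m c d) sa sb ats =
      et (chk q tab tgt eps kp xs c sa sb (cutH m ats i)) (chk q tab tgt eps kp xs d sa sb (cutL m ats i)) := rfl

private theorem ck_N (q : Par) (tab : List (List ℕ)) (tgt eps kp : ℕ) (xs : List XC) (c : Ct) (sa sb : ℕ) (ats : List At) :
    chk q tab tgt eps kp xs (.N c) sa sb ats = chk q tab tgt eps kp xs c sa sb (nar ats 0) := rfl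

private theorem ck_X (q : Par) (tab : List (List ℕ)) (tgt eps kp : ℕ) (xs : List XC) (jp jm : ℕ) (c d : Ct) (sa sb : ℕ) (ats : List At) :
    chk q tab tgt eps kp xs (.X jp jm c d) sa sb ats =
      et (ou (et (Nat.ble 127 jp) (Nat.ble 127 jm)) (evB q tab tgt eps ats sa sb jp jm))
      (et (ou (Nat.blt 0 (R0 sa ats)) (Nat.ble tgt (emB q ats (Nat.add 1099511627776 eps) (Nat.add 1099511627776 eps))))
      (et (ou (Nat.ble jp (j0 sa ats)) (chk q tab tgt eps kp xs c sa sb (At.p (loN sa jp ats) (lastHi ats) :: ats)))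
        (ou (Nat.ble jm (j0 sa ats)) (chk q tab tgt eps kp xs d sa sb (At.m (loN sa jm ats) (lastHi ats) :: ats))))) := rfl

private theorem ck_pre {pre l : List ℝ} {h : ℝ} (hpre : Pre pre (h :: l)) : Pre (h :: pre) l := by
  obtain ⟨h1, h2, h3⟩ := hpre
  refine ⟨?_, Srt_tail h2, ?_⟩
  · rw [List.pairwise_cons]
    exact ⟨fun b hb => h3 b hb h List.mem_cons_self, h1⟩
  · intro a ha b hb
    rcases List.mem_cons.1 ha with rfl | ha
    · exact Srt_head h2 b hb
    · exact h3 a ha b (List.mem_cons_of_mem _ hb)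

private theorem ck_ss (pre l : List ℝ) (h : ℝ) : ss (h :: pre) + ss l = ss pre + ss (h :: l) := by
  rw [ss_cons, ss_cons]
  ring

private theorem ck_ccl {p : ℝ} {tgt eps : ℕ} {xs : List XC} {pre l : List ℝ} {h : ℝ}
    (H : Ccl p tgt eps xs (h :: pre) l) : Ccl p tgt eps xs pre (h :: l) := by
  have hperm : ((h :: pre) ++ l).Perm (pre ++ h :: l) := by
    rw [List.cons_append]
    exact (List.perm_middle).symm
  have hrev : (h :: pre).reverse ++ l = pre.reverse ++ (h :: l) := by
    rw [List.reverse_cons, List.append_assoc, List.singleton_append]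
  rcases H with H | H
  · left
    rw [← Pr_perm hperm]
    exact H
  · right
    rw [← hrev]
    exact H

private theorem ck_kp {kp : ℕ} {pre l : List ℝ} {h S : ℝ}
    (hkp : ∀ b ∈ pre ++ h :: l, 0 < b → (kp : ℝ) / 100 * b ^ 2 < S) :
    ∀ b ∈ (h :: pre) ++ l, 0 < b → (kp : ℝ) / 100 * b ^ 2 < S := by
  intro b hb
  apply hkp
  have hperm : ((h :: pre) ++ l).Perm (pre ++ h :: l) := by
    rw [List.cons_append]
    exact (List.perm_middle).symm
  exact hperm.subset hb

private theorem ck_lo {j k sa : ℕ} {ats : List At} {h : ℝ} {l : List ℝ} (hh : h ≠ 0)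
    (hR : ((R0 sa ats : ℕ) : ℝ) ≤ 1000000 * ss (h :: l)) (hk : InC k (ss (h :: l) / h ^ 2)) (hkj : k < j) :
    ((loN sa j ats : ℕ) : ℝ) / 1000 ≤ |h| := by
  refine loN_sound hh (by omega) hR fun hj => ?_
  exact (hk.2.2 (by omega)).trans (Sc_mono (by omega) hj)

theorem chk_sound {q : Par} {rows : List ℕ} {tab : List (List ℕ)} (hpar : parOk q = true) (hlen : rows.length = 701)
    (hrow : ∀ r, RowP (rowv rows r)) (hG : Good q.P0 q.P1 rows) (hlook : lookOk tab rows 0 = true)
    {p : ℝ} (hp0 : (q.P0 : ℝ) / 16384 ≤ p) (hp1 : p ≤ (q.P1 : ℝ) / 16384) (hp5 : 1 / 5 ≤ p)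
    {tgt eps kp : ℕ} (htgt : tgt ≤ 65536) {xs : List XC} (c : Ct) {sa sb : ℕ} {ats : List At} (hne : ats ≠ [])
    (hc : chk q tab tgt eps kp xs c sa sb ats = true) {pre r : List ℝ} (hm : Mt ats pre) (hpre : Pre pre r)
    (hS : 0 < ss pre + ss r) (hkp : ∀ b ∈ pre ++ r, 0 < b → (kp : ℝ) / 100 * b ^ 2 < ss pre + ss r)
    (hS0 : (sa : ℝ) ≤ 1000 * (ss pre + ss r)) (hS1 : 1000 * (ss pre + ss r) ≤ (sb : ℝ)) :
    Ccl p tgt eps xs pre r := by
  induction c generalizing sa sb ats pre r with
  | e =>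
    rw [ck_e] at hc
    left
    rcases ck_rest hpre.2.1 with hr | ⟨h, l, rfl, hh⟩
    · exact evB_zero hpar hlen hrow hG hlook hp0 hp1 hp5 htgt hc hm hr hS0
    · obtain ⟨j1, j2⟩ := j0_sound hne hm hpre hh hS0
      obtain ⟨k, hk, hk'⟩ := cover_from j1 j2
      refine evB_sound hpar hlen hrow hG hlook hp0 hp1 hp5 htgt hne hc hm hpre hh hS0 hS1 hk' hk ?_
      rcases lt_or_gt_of_ne hh with h1 | h1
      · exact Or.inr ⟨h1, Nat.zero_le _⟩
      · exact Or.inl ⟨h1, Nat.zero_le _⟩
  | n =>
    rw [ck_n] at hc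
    have h1 := nfB_false hm hpre hS (fun b hb => hkp b (List.mem_append_left _ hb)) hS1
    rw [h1] at hc
    exact absurd hc (by decide)
  | x i =>
    rw [ck_x] at hc
    exact Or.inr (xcB_sound hm hS1 hc)
  | S m c d ihc ihd =>
    rw [ck_S, et_true] at hc
    rcases le_total (1000 * (ss pre + ss r)) (m : ℝ) with h1 | h1
    · exact ihc hne hc.1 hm hpre hS hkp hS0 h1
    · exact ihd hne hc.2 hm hpre hS hkp h1 hS1
  | A i m c d ihc ihd =>
    rw [ck_A, et_true] at hc
    rcases cut_sound hm m i with h1 | h1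
    · exact ihc (cut_ne hne m i).1 hc.1 h1 hpre hS hkp hS0 hS1
    · exact ihd (cut_ne hne m i).2 hc.2 h1 hpre hS hkp hS0 hS1
  | N c ihc =>
    rw [ck_N] at hc
    exact ihc (nar_ne hne) hc (nar_sound hm hpre.1) hpre hS hkp hS0 hS1
  | X jp jm c d ihc ihd =>
    rw [ck_X, et_true, et_true, et_true, ou_true, ou_true, ou_true, ou_true] at hc
    obtain ⟨c1, c2, c3, c4⟩ := hc
    have hR := R0_le hm hS0
    rcases ck_rest hpre.2.1 with hr | ⟨h, l, rfl, hh⟩
    · left
      have hR0 : R0 sa ats = 0 := by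
        rw [ck_ss_zero hr, mul_zero] at hR
        exact_mod_cast le_antisymm hR (Nat.cast_nonneg _)
      have hb : Nat.ble tgt (emB q ats (Nat.add 1099511627776 eps) (Nat.add 1099511627776 eps)) = true := by
        rcases c2 with c2 | c2
        · rw [hR0] at c2
          exact absurd c2 (by decide)
        · exact c2
      have hb' := Nat.le_of_ble_eq_true hb
      obtain ⟨hq, hq'⟩ := ck_par hpar
      obtain ⟨u, hu, hu0, hu1⟩ := ck_exists_u hq hp0 hp1
      have h1 := emB_sound hq hq' hu hu0 hu1 hr hm (Nat.add 1099511627776 eps) (Nat.add 1099511627776 eps)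
      have h2 : ((1 - u) * ((Nat.add 1099511627776 eps : ℕ) : ℝ) + u * ((Nat.add 1099511627776 eps : ℕ) : ℝ) -
          1099511627776) / 16384000 = (eps : ℝ) / 16384000 := by
        have h3 : ((Nat.add 1099511627776 eps : ℕ) : ℝ) = 1099511627776 + (eps : ℝ) := by
          change ((1099511627776 + eps : ℕ) : ℝ) = _
          push_cast
          ring
        rw [h3]
        ring
      rw [h2] at h1
      refine le_trans ?_ h1
      have h4 : (tgt : ℝ) ≤ ((emB q ats (Nat.add 1099511627776 eps) (Nat.add 1099511627776 eps) : ℕ) : ℝ) := by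
        exact_mod_cast hb'
      exact div_le_div_of_nonneg_right h4 (by norm_num)
    · obtain ⟨j1, j2⟩ := j0_sound hne hm hpre hh hS0
      obtain ⟨k, hk, hk'⟩ := cover_from j1 j2
      have hk126 : k ≤ 126 := hk'.1
      have hhi := lastHi_sound hne hm hpre h List.mem_cons_self
      rcases lt_or_gt_of_ne hh with hneg | hpos
      · rcases Nat.lt_or_ge k jm with hkj | hkj
        · -- one more negative atom
          have c4' : chk q tab tgt eps kp xs d sa sb (At.m (loN sa jm ats) (lastHi ats) :: ats) = true := by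
            rcases c4 with c4 | c4
            · exact absurd (Nat.le_of_ble_eq_true c4) (by omega)
            · exact c4
          apply ck_ccl
          have hlo := ck_lo hh hR hk' hkj
          rw [abs_of_neg hneg] at hlo hhi
          refine ihd (List.cons_ne_nil _ _) c4' (List.Forall₂.cons ⟨hlo, hhi⟩ hm) (ck_pre hpre) ?_ ?_ ?_ ?_
          · rw [ck_ss]; exact hS
          · rw [ck_ss]; exact ck_kp hkp
          · rw [ck_ss]; exact hS0
          · rw [ck_ss]; exact hS1
        · left
          have c1' : evB q tab tgt eps ats sa sb jp jm = true := by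
            rcases c1 with c1 | c1
            · rw [et_true] at c1
              exact absurd (Nat.le_of_ble_eq_true c1.2) (by omega)
            · exact c1
          exact evB_sound hpar hlen hrow hG hlook hp0 hp1 hp5 htgt hne c1' hm hpre hh hS0 hS1 hk' hk
            (Or.inr ⟨hneg, hkj⟩)
      · rcases Nat.lt_or_ge k jp with hkj | hkj
        · -- one more positive atom
          have c3' : chk q tab tgt eps kp xs c sa sb (At.p (loN sa jp ats) (lastHi ats) :: ats) = true := by
            rcases c3 with c3 | c3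
            · exact absurd (Nat.le_of_ble_eq_true c3) (by omega)
            · exact c3
          apply ck_ccl
          have hlo := ck_lo hh hR hk' hkj
          rw [abs_of_pos hpos] at hlo hhi
          refine ihc (List.cons_ne_nil _ _) c3' (List.Forall₂.cons ⟨hlo, hhi⟩ hm) (ck_pre hpre) ?_ ?_ ?_ ?_
          · rw [ck_ss]; exact hS
          · rw [ck_ss]; exact ck_kp hkp
          · rw [ck_ss]; exact hS0
          · rw [ck_ss]; exact hS1
        · left
          have c1' : evB q tab tgt eps ats sa sb jp jm = true := by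
            rcases c1 with c1 | c1
            · rw [et_true] at c1
              exact absurd (Nat.le_of_ble_eq_true c1.1) (by omega)
            · exact c1
          exact evB_sound hpar hlen hrow hG hlook hp0 hp1 hp5 htgt hne c1' hm hpre hh hS0 hS1 hk' hk
            (Or.inl ⟨hpos, hkj⟩)

end Pool.Agent.MMS15
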