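import Pool.Agent.H36.MMSMain

/-!
# MMS15/Cnt: numbers of `k`-subsets with large or small sum

`cnt x R k θ`: number of `k`-subsets `S` of `R` with `θ ≤ sg x S`; `bad x R k θ`: with `sg x S < θ`.
`cnt_insert`: the `(k+1)`-subsets of `insert a R` without `a` are those of `R`; those with `a` correspond to the `k`-subsets of `R` (`powersetCard_succ_insert`,
`filter_union`, `card_union_of_disjoint`, `filter_image`, `sg x (insert a S) = x a + sg x S`).
`cnt_add_bad`: `card_filter_add_card_filter_not`, `card_powersetCard`.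
`pr_cnt`: `pr` is the quotient (`pr_eq`).
-/

open Finset Pool.Agent.H36.MMS

set_option autoImplicit false

namespace Pool.Agent.MMS15

variable {α : Type*} [DecidableEq α]

/-- number of `k`-subsets with sum at least `θ` -/
noncomputable def cnt (x : α → ℝ) (R : Finset α) (k : ℕ) (θ : ℝ) : ℕ :=
  ((R.powersetCard k).filter (fun S => θ ≤ sg x S)).card

/-- number of `k`-subsets with sum less than `θ` -/
noncomputable def bad (x : α → ℝ) (R : Finset α) (k : ℕ) (θ : ℝ) : ℕ :=
  ((R.powersetCard k).filter (fun S => sg x S < θ)).card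

theorem cnt_insert (x : α → ℝ) {R : Finset α} {a : α} (ha : a ∉ R) (k : ℕ) (θ : ℝ) :
    cnt x (insert a R) (k + 1) θ = cnt x R (k + 1) θ + cnt x R k (θ - x a) := by
  unfold cnt
  rw [powersetCard_succ_insert ha, filter_union, card_union_of_disjoint]
  · congr 1
    rw [filter_image, card_image_of_injOn]
    · congr 1
      refine filter_congr fun S hS => ?_
      have h1 : a ∉ S := fun h => ha ((mem_powersetCard.1 hS).1 h)
      have h2 : sg x (insert a S) = x a + sg x S := by
        unfold sg
        rw [sum_insert h1]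
      rw [h2, sub_le_iff_le_add']
    · intro S hS S' hS' h
      rw [mem_coe, mem_filter] at hS hS'
      have h1 : a ∉ S := fun h => ha ((mem_powersetCard.1 hS.1).1 h)
      have h2 : a ∉ S' := fun h => ha ((mem_powersetCard.1 hS'.1).1 h)
      rw [← erase_insert h1, ← erase_insert h2, h]
  · rw [disjoint_left]
    intro S hS hS'
    rw [mem_filter] at hS hS'
    obtain ⟨S', hS'', rfl⟩ := mem_image.1 hS'.1
    exact ha ((mem_powersetCard.1 hS.1).1 (mem_insert_self a S'))

theorem cnt_add_bad (x : α → ℝ) (R : Finset α) (k : ℕ) (θ : ℝ) : cnt x R k θ + bad x R k θ = R.card.choose k := by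
  unfold cnt bad
  rw [← card_powersetCard, ← card_filter_add_card_filter_not (s := R.powersetCard k)
    (fun S => θ ≤ sg x S)]
  congr 2
  refine filter_congr fun S _ => ?_
  exact not_le.symm

theorem cnt_mono (x : α → ℝ) (R : Finset α) (k : ℕ) {θ θ' : ℝ} (h : θ ≤ θ') : cnt x R k θ' ≤ cnt x R k θ := by
  unfold cnt
  refine card_le_card fun S hS => ?_
  rw [mem_filter] at hS ⊢
  exact ⟨hS.1, h.trans hS.2⟩

theorem pr_cnt (x : α → ℝ) {R : Finset α} {k : ℕ} (hk : k ≤ R.card) (θ : ℝ) :
    (cnt x R k θ : ℝ) = pr R k (fun S => θ ≤ sg x S) * (R.card.choose k : ℝ) := by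
  unfold cnt
  rw [pr_eq]
  have : (R.card.choose k : ℝ) ≠ 0 := by
    exact_mod_cast (Nat.choose_pos hk).ne'
  field_simp

end Pool.Agent.MMS15
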