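import Pool.Agent.MMS14.Defs

/-!
# MMS15/Defs: the certificate checkers with finer tables, and certificate trees

The same conventions as in `MMS14/Defs` (whose auxiliary functions are used), with other constants:
rows are indexed by `i < 701` (threshold `τ = (i - 400) / 100` in standard deviations), lanes as before (32 bits, lane `k ≤ 126` head positive,
lane `127 + k` head negative), cells `[S_k, S_(k+1)]` (`k < 126`) and `[S_126, ∞)` with `S_126 ≥ 15`.
-/

set_option autoImplicit false

namespace Pool.Agent.MMS15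

open Pool.Agent.MMS14 (hd0 tl dr hdL mx mn et ou idx ones msk geOk entOk rowOk loop slope exc Par fc rho sqL sqU comb allb)

/-- start value (row 0) at the boundary `Y`, additive constant `+ c / 2 ^ 20` (times `1 / √(S - 1)`) -/
def startP (Y c : ℕ) : ℕ := Nat.add (Nat.div (Nat.add
  (Nat.mul 1048576 (Nat.sub (Nat.mul 4496 (Nat.sub (Nat.mul Y Y) 100000000)) (Nat.mul 400 (Nat.add (Nat.mul Y Y) 100000000))))
  (Nat.mul c (Nat.mul 20000 Y))) (Nat.sub (Nat.mul Y Y) 100000000)) 702

/-- start value (row 0) at the boundary `Y`, additive constant `- c / 2 ^ 20` (times `1 / √(S - 1)`) -/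
def startM (Y c : ℕ) : ℕ := Nat.add (Nat.div (Nat.sub
  (Nat.mul 1048576 (Nat.sub (Nat.mul 4496 (Nat.sub (Nat.mul Y Y) 100000000)) (Nat.mul 400 (Nat.add (Nat.mul Y Y) 100000000))))
  (Nat.mul c (Nat.mul 20000 Y))) (Nat.sub (Nat.mul Y Y) 100000000)) 702

/-- the constants are right: `c1m, ..` are bounds of `100 * 2 ^ 20 * √(q / p)` and `100 * 2 ^ 20 * √(p / q)` -/
def parOk (q : Par) : Bool :=
  et (Nat.blt 0 q.P0) (et (Nat.ble q.P0 q.P1) (et (Nat.ble q.P1 8192) (et
  (Nat.ble (Nat.mul (Nat.mul q.c1m q.c1m) q.P1) (Nat.mul 10995116277760000 (Nat.sub 16384 q.P1))) (et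
  (Nat.ble (Nat.mul 10995116277760000 (Nat.sub 16384 q.P0)) (Nat.mul (Nat.mul q.c1p q.c1p) q.P0)) (et
  (Nat.ble (Nat.mul (Nat.mul q.c2m q.c2m) (Nat.sub 16384 q.P0)) (Nat.mul 10995116277760000 q.P0))
  (Nat.ble (Nat.mul 10995116277760000 q.P1) (Nat.mul (Nat.mul q.c2p q.c2p) (Nat.sub 16384 q.P1))))))))

/-- the loop for a positive head, cell `[Y, Z]` number `i`, smallest lane `j` of the rest -/
noncomputable def cellP (q : Par) (rows apr : List ℕ) (i j Y Z : ℕ) : Bool :=
  loop q.P0 (Nat.sub 16384 q.P0) (msk j) (Nat.mul (msk j) 2147483648) (Nat.mul 32 i) (slope Y) (slope Z) rows apr rows rows 0 0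
    (startM Y q.c1m) (startM Z q.c1m) (Nat.add (startP Y q.c2p) (exc Y Z q.c2p)) (Nat.add (startP Z q.c2p) (exc Y Z q.c2p))

/-- the loop for a negative head -/
noncomputable def cellM (q : Par) (rows apr : List ℕ) (i j Y Z : ℕ) : Bool :=
  loop q.P1 (Nat.sub 16384 q.P1) (msk j) (Nat.mul (msk j) 2147483648) (Nat.add 4064 (Nat.mul 32 i)) (slope Y) (slope Z)
    rows apr rows rows 0 0
    (Nat.add (startP Y q.c1p) (exc Y Z q.c1p)) (Nat.add (startP Z q.c1p) (exc Y Z q.c1p)) (startM Y q.c2m) (startM Z q.c2m)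

/-- `S_j ≤ S - 1` at the boundary `Y` (or `j = 0`), `W = Y_j` -/
def jOk (j Y W : ℕ) : Bool :=
  ou (Nat.beq j 0) (Nat.ble (Nat.mul (Nat.add (Nat.mul W W) 100000000) Y) (Nat.mul (Nat.sub (Nat.mul Y Y) 100000000) W))

/-- the list of the boundaries `Y_0, ..., Y_126` (`S_k` about `15 ^ (k / 126)`) -/
def Ys : List ℕ := [10000, 11582, 12313, 12908, 13435, 13920, 14376, 14811, 15229, 15635, 16031, 16419, 16801, 17177, 17549, 17917, 18282, 18646, 19007, 19367, 19726, 20084, 20442, 20800, 21158, 21516, 21875, 22235, 22596, 22957, 23320, 23684, 24050, 24418, 24787, 25157, 25530, 25905, 26282, 26661, 27043, 27427, 27813, 28202, 28593, 28988, 29385, 29785, 30188, 30593, 31002, 31415, 31830, 32249, 32670, 33096, 33525, 33957, 34393, 34833, 35276, 35724, 36175, 36630, 37089, 37552, 38019, 38491, 38966, 39446, 39930, 40419, 40912, 41410, 41913, 42420, 42932, 43448, 43970, 44497, 45028, 45565, 46107, 46654, 47206, 47764, 48327, 48895, 49469, 50049, 50634, 51226, 51823, 52426, 53034, 53649, 54271, 54898, 55531, 56171,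 56818, 57471, 58130, 58796, 59469, 60149, 60835, 61529, 62230, 62937, 63652, 64375, 65104, 65842, 66586, 67339, 68099, 68867, 69643, 70427, 71219, 72019, 72828, 73644, 74470, 75304, 76147]

/-- `⌈10 ^ 6 S_k⌉`, `k = 1, .., 126` -/
def Su : List ℕ := [1021726, 1043922, 1066587, 1089753, 1113438, 1137640, 1162380, 1187601, 1213403, 1239762, 1266695, 1294251, 1322355, 1351096, 1380425, 1410378, 1441090, 1472367, 1504355, 1537037, 1570396, 1604515, 1639385, 1674999, 1711349, 1748534, 1786555, 1825413, 1864996, 1905527, 1946899, 1989229, 2032527, 2076679, 2121689, 2167809, 2214927, 2263052, 2312194, 2362495, 2413835, 2466226, 2519815, 2574478, 2630512, 2687649, 2746046, 2805722, 2866541, 2928822, 2992588, 3057548, 3124034, 3191746, 3261187, 3332058, 3404376, 3478332, 3553950, 3631081, 3710100, 3790681, 3873025, 3957159, 4043111, 4130907, 4220767, 4312339, 4406035, 4501693, 4599542, 4699416, 4801550, 4905981, 5012535, 5121456, 5232566, 5346334, 5462584, 5581133, 5702465, 5826399, 5952976, 6082235, 6214458,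 6349452, 6487260, 6628171, 6772237, 6919257, 7069785, 7223368, 7380310, 7540402, 7704224, 7871842, 8042772, 8217338, 8395877, 8578457, 8764859, 8955141, 9149656, 9348474, 9551666, 9758999, 9971149, 10187888, 10408977, 10635114, 10866385, 11102226, 11343690, 11589878, 11841866, 12099076, 12361931, 12630524, 12904947, 13185294, 13471661, 13764508, 14063207, 14368961, 14681140, 15000226]

/-- smallest lanes of the rest, cells `1 .. 125`, in five blocks of 25 -/
def J1 : List ℕ := [0, 0, 0, 0, 0, 0, 0, 0, 0, 0, 0, 0, 0, 0, 0, 0, 0, 0, 0, 0, 0, 0, 0, 0, 0]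
def J2 : List ℕ := [0, 0, 0, 0, 0, 0, 0, 1, 3, 5, 7, 9, 10, 12, 14, 16, 17, 19, 21, 22, 24, 25, 27, 29, 30]
def J3 : List ℕ := [32, 33, 35, 36, 37, 39, 40, 42, 43, 45, 46, 47, 49, 50, 51, 53, 54, 55, 57, 58, 59, 60, 62, 63, 64]
def J4 : List ℕ := [65, 67, 68, 69, 70, 72, 73, 74, 75, 76, 78, 79, 80, 81, 82, 83, 85, 86, 87, 88, 89, 90, 91, 93, 94]
def J5 : List ℕ := [95, 96, 97, 98, 99, 100, 102, 103, 104, 105, 106, 107, 108, 109, 110, 111, 113, 114, 115, 116, 117, 118, 119, 120, 121]

/-- a priori values (Cantelli, fourth moment): entry `i < 400` is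
`max ⌊65536 n² / (n² + 10000)⌋ ⌊65536 (4 n⁴ - 13 * 10000²) / (4 n⁴)⌋`, `n = 400 - i`; `0` from `i = 400` on -/
def aprs : List ℕ := [64704, 64695, 64687, 64678, 64669, 64661, 64652, 64643, 64633, 64624, 64615, 64605, 64596, 64586, 64576, 64566, 64556, 64546, 64535, 64525, 64514, 64503, 64492, 64481, 64470, 64458, 64447, 64435, 64423, 64411, 64399, 64387, 64374, 64361, 64349, 64335, 64322, 64309, 64295, 64281, 64267, 64253, 64239, 64224, 64209, 64194, 64179, 64164, 64148, 64132, 64116, 64100, 64083, 64066, 64049, 64032, 64014, 63997, 63979, 63960, 63942, 63923, 63904, 63884, 63864, 63844, 63824, 63803, 63782, 63761, 63739, 63718, 63695, 63673, 63650, 63626, 63603, 63579, 63554, 63529, 63504, 63479, 63453, 63426, 63399, 63372, 63344, 63316, 63288, 63259, 63229, 63199, 63169, 63138, 63106, 63074, 63042, 63009, 62975, 62941, 62906, 62871, 62835, 62798, 62761, 62723, 62685, 62646, 62606, 62565, 62524, 62482, 62440, 62396, 62352, 62307, 62261, 62215, 62168, 62119, 62070, 62020, 61969, 61918, 61865, 61811,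 61757, 61701, 61644, 61587, 61528, 61468, 61407, 61344, 61281, 61217, 61151, 61084, 61015, 60946, 60875, 60802, 60728, 60653, 60576, 60498, 60418, 60337, 60254, 60169, 60083, 59995, 59905, 59813, 59720, 59624, 59526, 59427, 59325, 59222, 59116, 59008, 58897, 58784, 58669, 58552, 58432, 58309, 58183, 58055, 57924, 57791, 57654, 57514, 57371, 57225, 57075, 56923, 56766, 56607, 56443, 56276, 56105, 55930, 55751, 55567, 55380, 55188, 54991, 54790, 54584, 54373, 54156, 53935, 53708, 53475, 53237, 52993, 52743, 52533, 52428, 52323, 52216, 52108, 51999, 51889, 51778, 51665, 51551, 51436, 51319, 51202, 51082, 50962, 50840, 50717, 50592, 50466, 50338, 50209, 50079, 49947, 49813, 49678, 49542, 49404, 49264, 49122, 48979, 48835, 48688, 48540, 48390, 48239, 48085, 47930, 47773, 47614, 47454, 47291, 47127, 46960, 46792, 46621, 46449, 46274, 46098, 45919, 45738, 45556, 45371, 45183, 44994, 44802, 44608, 44412, 44213, 44012, 43809, 43603, 43395, 43184, 42971, 42755, 42537, 42316, 42093, 41867, 41638, 41407, 41173,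 40936, 40696, 40454, 40209, 39960, 39710, 39456, 39199, 38939, 38676, 38411, 38142, 37870, 37596, 37318, 37037, 36753, 36465, 36175, 35881, 35584, 35284, 34981, 34675, 34365, 34052, 33736, 33416, 33094, 32768, 32438, 32106, 31770, 31431, 31088, 30743, 30394, 30042, 29686, 29328, 28966, 28601, 28233, 27862, 27488, 27111, 26732, 26349, 25963, 25575, 25183, 24789, 24393, 23994, 23592, 23189, 22783, 22374, 21964, 21552, 21137, 20721, 20304, 19885, 19464, 19043, 18620, 18197, 17772, 17347, 16922, 16496, 16071, 15645, 15220, 14795, 14371, 13949, 13527, 13107, 12688, 12272, 11857, 11445, 11036, 10629, 10226, 9827, 9431, 9039, 8652, 8269, 7891, 7519, 7152, 6790, 6435, 6087, 5745, 5411, 5084, 4764, 4452, 4149, 3855, 3569, 3292, 3025, 2768, 2520, 2283, 2056, 1840, 1635, 1442, 1259, 1089, 930, 783, 648, 526, 416, 319, 235, 163, 104, 58, 26, 6, 0, 0, 0, 0, 0, 0, 0, 0, 0, 0, 0, 0, 0, 0, 0, 0, 0, 0, 0, 0, 0, 0, 0, 0, 0, 0, 0, 0, 0, 0, 0, 0, 0, 0, 0, 0, 0, 0, 0, 0, 0, 0, 0, 0, 0, 0, 0, 0, 0, 0, 0, 0, 0, 0, 0, 0, 0,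 0, 0, 0, 0, 0, 0, 0, 0, 0, 0, 0, 0, 0, 0, 0, 0, 0, 0, 0, 0, 0, 0, 0, 0, 0, 0, 0, 0, 0, 0, 0, 0, 0, 0, 0, 0, 0, 0, 0, 0, 0, 0, 0, 0, 0, 0, 0, 0, 0, 0, 0, 0, 0, 0, 0, 0, 0, 0, 0, 0, 0, 0, 0, 0, 0, 0, 0, 0, 0, 0, 0, 0, 0, 0, 0, 0, 0, 0, 0, 0, 0, 0, 0, 0, 0, 0, 0, 0, 0, 0, 0, 0, 0, 0, 0, 0, 0, 0, 0, 0, 0, 0, 0, 0, 0, 0, 0, 0, 0, 0, 0, 0, 0, 0, 0, 0, 0, 0, 0, 0, 0, 0, 0, 0, 0, 0, 0, 0, 0, 0, 0, 0, 0, 0, 0, 0, 0, 0, 0, 0, 0, 0, 0, 0, 0, 0, 0, 0, 0, 0, 0, 0, 0, 0, 0, 0, 0, 0, 0, 0, 0, 0, 0, 0, 0, 0, 0, 0, 0, 0, 0, 0, 0, 0, 0, 0, 0, 0, 0, 0, 0, 0, 0, 0, 0, 0, 0, 0, 0, 0, 0, 0, 0, 0, 0, 0, 0, 0, 0, 0, 0, 0, 0, 0, 0, 0, 0, 0, 0, 0, 0, 0, 0, 0, 0, 0, 0, 0, 0, 0, 0, 0, 0, 0, 0, 0, 0, 0, 0, 0, 0, 0, 0, 0, 0, 0, 0, 0, 0, 0, 0, 0, 0, 0]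

/-- cells `i, i + 1, ..`; `ly` = boundaries from `Y_i` on; `js` = smallest lanes of the rest -/
noncomputable def cells (q : Par) (rows apr : List ℕ) (js : List ℕ) : List ℕ → ℕ → Bool :=
  List.rec (motive := fun _ => List ℕ → ℕ → Bool) (fun _ _ => true)
    (fun j _ ih ly i => et (jOk j (hd0 ly) (hd0 (dr j Ys))) (et (cellP q rows apr i j (hd0 ly) (hd0 (tl ly)))
      (et (cellM q rows apr i j (hd0 ly) (hd0 (tl ly))) (ih (tl ly) (Nat.succ i))))) js

/-! ### cell `0` and lane `126` -/

/-- value of cell 0, positive head, row `i`; `ρ ≥ 2 ^ 20 √S_1`, `d ≥ 10000 * 2 ^ 40 (S_1 - 1)` -/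
def v0P (q : Par) (ρ d i : ℕ) : ℕ := cond (Nat.blt i 400)
  (Nat.div (Nat.add (Nat.mul q.P0 (fc d (Nat.add (Nat.mul (Nat.sub 400 i) 1048576) q.c1m)))
    (Nat.mul (Nat.sub 16384 q.P0) (fc d (Nat.sub (Nat.mul (Nat.sub 400 i) 1048576) q.c2p)))) 16384)
  (Nat.div (Nat.mul q.P0 (fc d (Nat.sub q.c1m (Nat.mul (Nat.sub i 400) ρ)))) 16384)

/-- value of cell 0, negative head -/
def v0M (q : Par) (ρ d i : ℕ) : ℕ := cond (Nat.blt i 400)
  (Nat.div (Nat.add (Nat.mul q.P1 (fc d (Nat.sub (Nat.mul (Nat.sub 400 i) 1048576) q.c1p)))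
    (Nat.mul (Nat.sub 16384 q.P1) (fc d (Nat.add (Nat.mul (Nat.sub 400 i) 1048576) q.c2m)))) 16384)
  (Nat.div (Nat.mul (Nat.sub 16384 q.P1) (fc d (Nat.sub q.c2m (Nat.mul (Nat.sub i 400) ρ)))) 16384)

/-- `d = ⌈10000 * 2 ^ 40 (S_1 - 1)⌉` -/
def dd (Y : ℕ) : ℕ := Nat.succ (Nat.div (Nat.mul 10995116277760000
  (Nat.mul (Nat.sub (Nat.mul Y Y) 100000000) (Nat.sub (Nat.mul Y Y) 100000000))) (Nat.mul (Nat.mul 20000 Y) (Nat.mul 20000 Y)))

/-- checks of one row: `rowOk`, lane 0 and lane 126 of both halves (`ap` a priori value, `g` global base value) -/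
def endOk (q : Par) (ρ d E r ap g i : ℕ) : Bool :=
  et (rowOk r) (et
  (ou (Nat.ble (Nat.land r 4294967295) ap) (Nat.ble (Nat.land r 4294967295) (v0P q ρ d i))) (et
  (ou (Nat.ble (Nat.land (Nat.shiftRight r 4064) 4294967295) ap)
    (Nat.ble (Nat.land (Nat.shiftRight r 4064) 4294967295) (v0M q ρ d i))) (et
  (ou (Nat.ble (Nat.land (Nat.shiftRight r 4032) 4294967295) ap)
    (Nat.ble (Nat.add (Nat.land (Nat.shiftRight r 4032) 4294967295) E) g))
  (ou (Nat.ble (Nat.land (Nat.shiftRight r 8096) 4294967295) ap)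
    (Nat.ble (Nat.add (Nat.land (Nat.shiftRight r 8096) 4294967295) E) g)))))

/-- the checks `endOk` of all rows -/
noncomputable def ends (q : Par) (ρ d E : ℕ) (lm : List ℕ) : List ℕ → List ℕ → ℕ → Bool :=
  List.rec (motive := fun _ => List ℕ → List ℕ → ℕ → Bool) (fun _ _ _ => true)
    (fun r _ ih lp lg i => et (endOk q ρ d E r (hd0 lp) (hd0 lg) i) (ih (tl lp) (tl lg) (Nat.succ i))) lm

/-! ### certificate trees -/

/-- lookup in a two-level list (27 rows per block) -/
noncomputable def look (tab : List (List ℕ)) (i : ℕ) : ℕ := hd0 (dr (Nat.mod i 27) (hdL (dr (Nat.div i 27) tab)))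

/-- `look` agrees with the list of rows (`n` rows from number `i` on) -/
noncomputable def lookOk (tab : List (List ℕ)) (lm : List ℕ) : ℕ → Bool :=
  List.rec (motive := fun _ => ℕ → Bool) (fun _ => true)
    (fun r _ ih i => et (Nat.beq (look tab i) r) (ih (Nat.succ i))) lm

/-- the number with `254` lanes equal to `1` -/
def ons : ℕ := 0x10000000100000001000000010000000100000001000000010000000100000001000000010000000100000001000000010000000100000001000000010000000100000001000000010000000100000001000000010000000100000001000000010000000100000001000000010000000100000001000000010000000100000001000000010000000100000001000000010000000100000001000000010000000100000001000000010000000100000001000000010000000100000001000000010000000100000001000000010000000100000001000000010000000100000001000000010000000100000001000000010000000100000001000000010000000100000001000000010000000100000001000000010000000100000001000000010000000100000001000000010000000100000001000000010000000100000001000000010000000100000001000000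0100000001000000010000000100000001000000010000000100000001000000010000000100000001000000010000000100000001000000010000000100000001000000010000000100000001000000010000000100000001000000010000000100000001000000010000000100000001000000010000000100000001000000010000000100000001000000010000000100000001000000010000000100000001000000010000000100000001000000010000000100000001000000010000000100000001000000010000000100000001000000010000000100000001000000010000000100000001000000010000000100000001000000010000000100000001000000010000000100000001000000010000000100000001000000010000000100000001000000010000000100000001000000010000000100000001000000010000000100000001000000010000000100000001000000010000000100000001000000010000000100000001000000010000000100000001000000010000000100000001000000010000000100000001000000010000000100000001000000010000000100000001000000010000000100000001000000010000000100000001000000010000000100000001000000010000000100000001000000010000000100000001000000010000000100000001000000010000000100000001000000010000000100000001000000010000000100000001000000010000000100000001000000010000000100000001000000010000000100000001000000010000000100000001000000010000000100000001000000010000000100000001000000010000000100000001000000010000000100000001000000010000000100000001000000010000000100000001000000010000000100000001000000010000000100000001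

/-- row for a threshold `T` (offset `2 ^ 40`, units `1 / (1000 * 2 ^ 14)`); `qL`, `qU`: bounds of the standard deviation of the rest
(same units).  For a threshold below `- 4` standard deviations the fourth moment bound. -/
noncomputable def lkT (tab : List (List ℕ)) (qL qU T : ℕ) : ℕ := cond (Nat.ble T 1099511627776)
  ((fun d => cond (Nat.ble d 400) (look tab (Nat.sub 400 d))
      (Nat.mul ons (Nat.sub 65535 (Nat.div 21299200000000 (Nat.mul (Nat.mul d d) (Nat.mul d d))))))
    (Nat.div (Nat.mul 100 (Nat.sub 1099511627776 T)) qU))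
  (cond (Nat.beq qL 0) 0
    ((fun i => cond (Nat.ble i 700) (look tab i) 0) (Nat.add 401 (Nat.div (Nat.mul 100 (Nat.sub T 1099511627776)) qL))))

/-- an atom of the prefix: `p lo hi` positive, `m lo hi` negative, absolute value in `[lo, hi] / 1000` -/
inductive At where
  | p : ℕ → ℕ → At
  | m : ℕ → ℕ → At

/-- lower and upper end -/
noncomputable def At.lo (x : At) : ℕ := At.rec (motive := fun _ => ℕ) (fun a _ => a) (fun a _ => a) x
noncomputable def At.hi (x : At) : ℕ := At.rec (motive := fun _ => ℕ) (fun _ b => b) (fun _ b => b) x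

/-- row of a prefix (last atom first), thresholds `a` (at `p = P0`) and `b` (at `p = P1`) -/
noncomputable def rowB (q : Par) (tab : List (List ℕ)) (qL qU : ℕ) (ats : List At) : ℕ → ℕ → ℕ :=
  List.rec (motive := fun _ => ℕ → ℕ → ℕ) (fun a b => lkT tab qL qU (mx a b))
    (fun x _ ih a b => At.rec (motive := fun _ => ℕ)
      (fun lo hi => comb q.P0
        (ih (Nat.sub a (Nat.mul (Nat.sub 16384 q.P0) lo)) (Nat.sub b (Nat.mul (Nat.sub 16384 q.P1) lo)))
        (ih (Nat.add a (Nat.mul q.P0 hi)) (Nat.add b (Nat.mul q.P1 hi))))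
      (fun lo hi => comb q.P1
        (ih (Nat.add a (Nat.mul (Nat.sub 16384 q.P0) hi)) (Nat.add b (Nat.mul (Nat.sub 16384 q.P1) hi)))
        (ih (Nat.sub a (Nat.mul q.P0 lo)) (Nat.sub b (Nat.mul q.P1 lo)))) x) ats

/-- value of a prefix without rest -/
noncomputable def emB (q : Par) (ats : List At) : ℕ → ℕ → ℕ :=
  List.rec (motive := fun _ => ℕ → ℕ → ℕ) (fun a b => cond (Nat.ble (mx a b) 1099511627776) 65536 0)
    (fun x _ ih a b => At.rec (motive := fun _ => ℕ)
      (fun lo hi => Nat.shiftRight (Nat.add (Nat.mul q.P0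
        (ih (Nat.sub a (Nat.mul (Nat.sub 16384 q.P0) lo)) (Nat.sub b (Nat.mul (Nat.sub 16384 q.P1) lo))))
        (Nat.mul (Nat.sub 16384 q.P0) (ih (Nat.add a (Nat.mul q.P0 hi)) (Nat.add b (Nat.mul q.P1 hi))))) 14)
      (fun lo hi => Nat.shiftRight (Nat.add (Nat.mul q.P1
        (ih (Nat.add a (Nat.mul (Nat.sub 16384 q.P0) hi)) (Nat.add b (Nat.mul (Nat.sub 16384 q.P1) hi))))
        (Nat.mul (Nat.sub 16384 q.P1) (ih (Nat.sub a (Nat.mul q.P0 lo)) (Nat.sub b (Nat.mul q.P1 lo))))) 14) x) ats

/-- sums of the squares of the upper and lower ends -/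
noncomputable def suHi (ats : List At) : ℕ := List.rec (motive := fun _ => ℕ) 0 (fun x _ ih => Nat.add ih (Nat.mul x.hi x.hi)) ats
noncomputable def suLo (ats : List At) : ℕ := List.rec (motive := fun _ => ℕ) 0 (fun x _ ih => Nat.add ih (Nat.mul x.lo x.lo)) ats

/-- upper end of the last atom -/
noncomputable def lastHi (ats : List At) : ℕ := List.rec (motive := fun _ => ℕ) 0 (fun x _ _ => x.hi) ats

/-- number of `j ≥ 1` with `S_j ≤ R / L2` (`su` = list of `⌈10 ^ 6 S_j⌉`, `j ≥ 1`) -/
noncomputable def jmax (R L2 : ℕ) (su : List ℕ) : ℕ :=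
  List.rec (motive := fun _ => ℕ) 0 (fun a _ ih => cond (Nat.ble (Nat.mul a L2) R) (Nat.succ ih) 0) su

/-- bounds `R0 ≤ 10 ^ 6 (sum of squares of the rest) ≤ R1` for `S ∈ [sa, sb] / 1000` -/
noncomputable def R0 (sa : ℕ) (ats : List At) : ℕ := Nat.sub (Nat.mul 1000 sa) (suHi ats)
noncomputable def R1 (sb : ℕ) (ats : List At) : ℕ := Nat.sub (Nat.mul 1000 sb) (suLo ats)

/-- smallest lane of the rest -/
noncomputable def j0 (sa : ℕ) (ats : List At) : ℕ := jmax (Nat.mul (R0 sa ats) 1000000) (Nat.mul (lastHi ats) (lastHi ats)) Su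

/-- lanes `k ≥ a` of the first half and `k ≥ b` of the second half -/
def msk2 (a b : ℕ) : ℕ := Nat.add (Nat.shiftLeft (Nat.shiftRight ones (Nat.mul 32 a)) (Nat.mul 32 a))
  (Nat.mul (Nat.shiftLeft (Nat.shiftRight ones (Nat.mul 32 b)) (Nat.mul 32 b)) (Nat.pow 2 4064))

/-- evaluation of a box: the lanes `k ≥ max jp j0` (next atom positive) and `k ≥ max jm j0` (next atom negative) are at least `tgt` -/
noncomputable def evB (q : Par) (tab : List (List ℕ)) (tgt eps : ℕ) (ats : List At) (sa sb jp jm : ℕ) : Bool :=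
  (fun j => (fun O => geOk (rowB q tab (sqL (Nat.mul (Nat.mul q.P0 (Nat.sub 16384 q.P0)) (R0 sa ats)))
      (sqU (Nat.succ (Nat.mul (Nat.mul q.P1 (Nat.sub 16384 q.P1)) (R1 sb ats)))) ats
      (Nat.add 1099511627776 eps) (Nat.add 1099511627776 eps)) tgt O (Nat.mul O 2147483648))
    (msk2 (mx jp j) (mx jm j))) (j0 sa ats)

/-- the intervals are not compatible with the order (`l` = lower bound from the later atoms) -/
noncomputable def ordB (ats : List At) : ℕ → Bool :=
  List.rec (motive := fun _ => ℕ → Bool) (fun _ => false)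
    (fun x _ ih l => ou (Nat.blt x.hi (mx l x.lo)) (ih x.lo)) ats

/-- some positive atom is too large: `kp lo² ≥ 10^5 sb` (`kp / 100 * b² < S` for all positive atoms `b`) -/
noncomputable def vB (kp sb : ℕ) (ats : List At) : Bool :=
  List.rec (motive := fun _ => Bool) false (fun x _ ih => ou (At.rec (motive := fun _ => Bool)
    (fun lo _ => Nat.ble (Nat.mul 100000 sb) (Nat.mul kp (Nat.mul lo lo))) (fun _ _ => false) x) ih) ats

/-- the box is empty -/
noncomputable def nfB (kp sb : ℕ) (ats : List At) : Bool :=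
  ou (Nat.blt (Nat.mul 1000 sb) (suLo ats)) (ou (ordB ats 0) (vB kp sb ats))

/-- upper end of atom number `i` (counted from the last one) replaced by `v` -/
noncomputable def cutH (v : ℕ) (ats : List At) : ℕ → List At :=
  List.rec (motive := fun _ => ℕ → List At) (fun _ => List.nil)
    (fun x t ih i => cond (Nat.beq i 0)
      (At.rec (motive := fun _ => List At) (fun lo _ => List.cons (At.p lo v) t) (fun lo _ => List.cons (At.m lo v) t) x)
      (List.cons x (ih (Nat.pred i)))) ats

/-- lower end of atom number `i` replaced by `v` -/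
noncomputable def cutL (v : ℕ) (ats : List At) : ℕ → List At :=
  List.rec (motive := fun _ => ℕ → List At) (fun _ => List.nil)
    (fun x t ih i => cond (Nat.beq i 0)
      (At.rec (motive := fun _ => List At) (fun _ hi => List.cons (At.p v hi) t) (fun _ hi => List.cons (At.m v hi) t) x)
      (List.cons x (ih (Nat.pred i)))) ats

/-- add an atom in front of a narrowed list: its upper end is at most the upper end of the first atom of the list (no condition for the
empty list) -/
noncomputable def adj (x : At) (l : ℕ) (t : List At) : List At :=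
  List.rec (motive := fun _ => List At)
    (At.rec (motive := fun _ => List At) (fun lo hi => List.cons (At.p (mx lo l) hi) List.nil)
      (fun lo hi => List.cons (At.m (mx lo l) hi) List.nil) x)
    (fun y _ _ => At.rec (motive := fun _ => List At) (fun lo hi => List.cons (At.p (mx lo l) (mn hi y.hi)) t)
      (fun lo hi => List.cons (At.m (mx lo l) (mn hi y.hi)) t) x) t

/-- narrow the intervals by the order (`l` = lower bound from the later atoms) -/
noncomputable def nar (ats : List At) : ℕ → List At :=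
  List.rec (motive := fun _ => ℕ → List At) (fun _ => List.nil) (fun x _ ih l => adj x l (ih (mx x.lo l))) ats

/-- an exceptional box: same signs, intervals inside, `10 ^ 6` times the sum of squares of the rest at most `V` -/
structure XC where
  (ats : List At) (V : ℕ)

/-- inclusion of boxes -/
noncomputable def inB (ats : List At) : List At → Bool :=
  List.rec (motive := fun _ => List At → Bool)
    (fun c => List.rec (motive := fun _ => Bool) true (fun _ _ _ => false) c)
    (fun x _ ih c => List.rec (motive := fun _ => Bool) false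
      (fun y d _ => et (At.rec (motive := fun _ => Bool)
        (fun lo hi => At.rec (motive := fun _ => Bool) (fun lo' hi' => et (Nat.ble lo' lo) (Nat.ble hi hi')) (fun _ _ => false) y)
        (fun lo hi => At.rec (motive := fun _ => Bool) (fun _ _ => false) (fun lo' hi' => et (Nat.ble lo' lo) (Nat.ble hi hi')) y) x)
        (ih d)) c) ats

/-- the box is contained in the exceptional box number `i` -/
noncomputable def xcB (xs : List XC) (sb : ℕ) (ats : List At) : ℕ → Bool :=
  List.rec (motive := fun _ => ℕ → Bool) (fun _ => false)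
    (fun x _ ih i => cond (Nat.beq i 0) (et (inB ats x.ats) (Nat.ble (Nat.mul 1000 sb) (Nat.add x.V (suLo ats)))) (ih (Nat.pred i))) xs

/-- certificates: `e` evaluate; `n` empty box; `x i` exceptional box; `S m` split `S`; `A i m` split atom `i`; `N` narrow;
`X jp jm c d` evaluate the lanes from `jp`, `jm` on, one more atom for the others (`c` positive, `d` negative) -/
inductive Ct where
  | e : Ct
  | n : Ct
  | x : ℕ → Ct
  | S : ℕ → Ct → Ct → Ct
  | A : ℕ → ℕ → Ct → Ct → Ct
  | N : Ct → Ct
  | X : ℕ → ℕ → Ct → Ct → Ct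

/-- lower bound of the next atom if its cell is below `j` -/
noncomputable def loN (sa j : ℕ) (ats : List At) : ℕ := cond (Nat.blt j 127)
  (sqL (Nat.div (Nat.mul (R0 sa ats) 1000000) (hd0 (dr (Nat.pred j) Su)))) 0

/-- the check of a certificate for the box `ats` (last atom first), `S ∈ [sa, sb] / 1000` -/
noncomputable def chk (q : Par) (tab : List (List ℕ)) (tgt eps kp : ℕ) (xs : List XC) (c : Ct) : ℕ → ℕ → List At → Bool :=
  Ct.rec (motive := fun _ => ℕ → ℕ → List At → Bool)
    (fun sa sb ats => evB q tab tgt eps ats sa sb 0 0)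
    (fun _ sb ats => nfB kp sb ats)
    (fun i _ sb ats => xcB xs sb ats i)
    (fun m _ _ c d sa sb ats => et (c sa m ats) (d m sb ats))
    (fun i m _ _ c d sa sb ats => et (c sa sb (cutH m ats i)) (d sa sb (cutL m ats i)))
    (fun _ c sa sb ats => c sa sb (nar ats 0))
    (fun jp jm _ _ c d sa sb ats =>
      et (ou (et (Nat.ble 127 jp) (Nat.ble 127 jm)) (evB q tab tgt eps ats sa sb jp jm))
      (et (ou (Nat.blt 0 (R0 sa ats)) (Nat.ble tgt (emB q ats (Nat.add 1099511627776 eps) (Nat.add 1099511627776 eps))))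
      (et (ou (Nat.ble jp (j0 sa ats)) (c sa sb (List.cons (At.p (loN sa jp ats) (lastHi ats)) ats)))
        (ou (Nat.ble jm (j0 sa ats)) (d sa sb (List.cons (At.m (loN sa jm ats) (lastHi ats)) ats))))))
    c

/-! ### smallest values of the rows -/

/-- all lanes of the rows are at least the given values -/
noncomputable def minA (rows : List ℕ) : List ℕ → Bool :=
  List.rec (motive := fun _ => List ℕ → Bool) (fun _ => true)
    (fun r _ ih l => et (geOk r (hd0 l) (msk 0) (Nat.mul (msk 0) 2147483648)) (ih (tl l))) rows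

/-- `g ≤ v_(402 + m) + v_(401 - m)` for `m ≤ 401` -/
noncomputable def pairOk (g : ℕ) (v : List ℕ) : Bool :=
  allb 402 (fun m => Nat.ble g (Nat.add (hd0 (dr (Nat.add 402 m) v)) (hd0 (dr (Nat.sub 401 m) v))))

end Pool.Agent.MMS15
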