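import Pool.Agent.MMS15.Base
import Pool.Agent.MMS15.SlotB
import Pool.Agent.MMS15.Apri
import Pool.Agent.MMS14.Lanes

/-!
# MMS15/StepAux: common part of StepP and StepM
-/

set_option autoImplicit false

namespace Pool.Agent.MMS15

open Pool.Agent.MMS14

theorem parOk_spec {q : Par} (h : parOk q = true) : 0 < q.P0 ∧ q.P0 ≤ q.P1 ∧ q.P1 ≤ 8192 ∧
    q.c1m * q.c1m * q.P1 ≤ 10995116277760000 * (16384 - q.P1) ∧
    10995116277760000 * (16384 - q.P0) ≤ q.c1p * q.c1p * q.P0 ∧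
    q.c2m * q.c2m * (16384 - q.P0) ≤ 10995116277760000 * q.P0 ∧
    10995116277760000 * q.P1 ≤ q.c2p * q.c2p * (16384 - q.P1) := by
  unfold parOk at h
  simp only [et_true, Nat.ble_eq, Nat.blt_eq] at h
  exact h

theorem rt_low {c x : ℝ} (h : c ^ 2 ≤ 10995116277760000 * x) : c ≤ 1048576 * (100 * √x) := by
  have h1 : c ≤ √(10995116277760000 * x) := Real.le_sqrt_of_sq_le h
  have h2 : √(10995116277760000 * x) = 1048576 * (100 * √x) := by
    rw [Real.sqrt_mul (by norm_num), show (10995116277760000 : ℝ) = 104857600 ^ 2 by norm_num,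
      Real.sqrt_sq (by norm_num)]
    ring
  rw [h2] at h1
  exact h1

theorem rt_up {c x : ℝ} (hc : 0 ≤ c) (h : 10995116277760000 * x ≤ c ^ 2) : 1048576 * (100 * √x) ≤ c := by
  have h2 : √(10995116277760000 * x) = 1048576 * (100 * √x) := by
    rw [Real.sqrt_mul (by norm_num), show (10995116277760000 : ℝ) = 104857600 ^ 2 by norm_num,
      Real.sqrt_sq (by norm_num)]
    ring
  rw [← h2]
  exact Real.sqrt_le_iff.2 ⟨hc, h⟩

/-- the standard deviation if `ss l = S h²` -/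
theorem sd_eq {p S h : ℝ} (hp0 : 0 ≤ p) (hp1 : p ≤ 1) (hS : 0 ≤ S) {l : List ℝ} (hl : ss l = S * h ^ 2) :
    sd p l = √(p * (1 - p)) * √S * |h| := by
  have h1 : 0 ≤ p * (1 - p) := mul_nonneg hp0 (by linarith)
  rw [sd, hl, Real.sqrt_mul h1, Real.sqrt_mul hS, Real.sqrt_sq_eq_abs]
  ring

theorem sq_fac1 {p : ℝ} (hp0 : 0 < p) (hp1 : p < 1) : √(p * (1 - p)) * √((1 - p) / p) = 1 - p := by
  have h1 : 0 < 1 - p := by linarith
  rw [← Real.sqrt_mul (mul_pos hp0 h1).le, show p * (1 - p) * ((1 - p) / p) = (1 - p) ^ 2 by field_simp,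
    Real.sqrt_sq h1.le]

theorem sq_fac2 {p : ℝ} (hp0 : 0 < p) (hp1 : p < 1) : √(p * (1 - p)) * √(p / (1 - p)) = p := by
  have h1 : 0 < 1 - p := by linarith
  rw [← Real.sqrt_mul (mul_pos hp0 h1).le, show p * (1 - p) * (p / (1 - p)) = p ^ 2 by field_simp,
    Real.sqrt_sq hp0.le]

/-- the values of the table for the rest of the list -/
theorem tail_low {P0 P1 : ℕ} {rows : List ℕ} {n : ℕ} (hG : GoodN P0 P1 rows n) {i j : ℕ} (hi : 1 ≤ i)
    (hi' : i < 126) (hj : j ≤ 126) (hjo : jOk j (Yk i) (Yk j) = true) {p : ℝ} (hpa : (P0 : ℝ) / 16384 ≤ p)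
    (hpb : p ≤ (P1 : ℝ) / 16384) (hp5 : 1 / 5 ≤ p) (hp2 : p ≤ 1 / 2) {h : ℝ} {l : List ℝ}
    (hs : Srt (h :: l)) (hlen : l.length ≤ n + 1) (hh : h ≠ 0) (hS : Sc i ≤ ss (h :: l) / h ^ 2) :
    ∃ k, j ≤ k ∧ k ≤ 126 ∧ ∃ o, (o = 0 ∨ o = 127) ∧ ∀ (J : ℕ) (t : ℝ), t ≤ ((J : ℝ) - 400) / 100 * sd p l →
      (lane (rowv rows J) (o + k) : ℝ) / 65536 ≤ Pr p l t := by
  have hh2 : 0 < h ^ 2 := by positivity
  have hS1 : 1 < Sc i := lt_of_lt_of_le Sc_one (Sc_mono hi (by omega))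
  have e1 : ss (h :: l) / h ^ 2 = 1 + ss l / h ^ 2 := by
    rw [ss_cons]
    field_simp
  rw [e1] at hS
  have e2 : 0 < ss l / h ^ 2 := by linarith
  have e3 : 0 < ss l := by
    by_contra hcon
    have : ss l / h ^ 2 ≤ 0 := div_nonpos_of_nonpos_of_nonneg (by linarith) hh2.le
    linarith
  cases l with
  | nil => rw [ss_nil] at e3; exact absurd e3 (lt_irrefl 0)
  | cons h' l' =>
    have hs' : Srt (h' :: l') := Srt_tail hs
    have hle : |h'| ≤ |h| := Srt_head hs h' (by simp)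
    have hh' : h' ≠ 0 := by
      rintro rfl
      have h5 : ∀ b ∈ l', b = 0 := by
        intro b hb
        have := Srt_head hs' b hb
        rw [abs_zero] at this
        exact abs_eq_zero.1 (le_antisymm this (abs_nonneg _))
      have h6 : ss l' = 0 := by
        have h7 : ∀ m : List ℝ, (∀ b ∈ m, b = 0) → ss m = 0 := by
          intro m
          induction m with
          | nil => intro _; exact ss_nil
          | cons b m ih =>
            intro hm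
            rw [ss_cons, hm b (by simp), ih (fun b' hb' => hm b' (by simp [hb']))]
            norm_num
        exact h7 l' h5
      rw [ss_cons, h6] at e3
      norm_num at e3
    have hh'2 : 0 < h' ^ 2 := by positivity
    have hsq : h' ^ 2 ≤ h ^ 2 := sq_le_sq.2 hle
    have e4 : ss (h' :: l') / h ^ 2 ≤ ss (h' :: l') / h' ^ 2 :=
      div_le_div_of_nonneg_left e3.le hh'2 hsq
    have e5 : Sc j ≤ ss (h' :: l') / h' ^ 2 := by
      rcases jOk_sound hi (by omega) hj hjo with h7 | h7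
      · rw [h7, Sc_zero, le_div_iff₀ hh'2, ss_cons]
        have := ss_nonneg l'
        linarith
      · linarith
    obtain ⟨k, hk1, hk2⟩ := cover_from hj e5
    have hk126 : k ≤ 126 := hk2.1
    refine ⟨k, hk1, hk126, ?_⟩
    have hlen' : l'.length ≤ n := by
      rw [List.length_cons] at hlen
      omega
    rcases lt_or_gt_of_ne hh' with h8 | h8
    · refine ⟨127, Or.inr rfl, ?_⟩
      intro J t ht
      exact (hG k hk126 J).2 p hpa hpb hp5 hp2 h' l' hs' hlen' h8 hk2 t ht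
    · refine ⟨0, Or.inl rfl, ?_⟩
      intro J t ht
      rw [Nat.zero_add]
      exact (hG k hk126 J).1 p hpa hpb hp5 hp2 h' l' hs' hlen' h8 hk2 t ht

/-- behind the end of the table -/
theorem lane_out {rows : List ℕ} {r : ℕ} (hr : rows.length ≤ r) (k : ℕ) : lane (rowv rows r) k = 0 := by
  have h1 : rowv rows r = 0 := List.getD_eq_default _ _ hr
  rw [h1]
  exact lane_zero k

/-- the combination of the two branches -/
theorem comb_low {P Q v A B : ℕ} (hPQ : P + Q = 16384) (h : v * 16384 ≤ P * A + Q * B) {x y z : ℝ}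
    (hA : (A : ℝ) / 65536 ≤ x) (hB : (B : ℝ) / 65536 ≤ y)
    (hz : (P : ℝ) / 16384 * x + (1 - (P : ℝ) / 16384) * y ≤ z) : (v : ℝ) / 65536 ≤ z := by
  refine le_trans ?_ hz
  have hQ : (Q : ℝ) = 16384 - P := by
    have : ((P + Q : ℕ) : ℝ) = 16384 := by rw [hPQ]; norm_num
    push_cast at this
    linarith
  have hP0 : (0 : ℝ) ≤ P := Nat.cast_nonneg _
  have hQ0 : (0 : ℝ) ≤ 16384 - P := by rw [← hQ]; exact Nat.cast_nonneg _
  have h1 : ((v * 16384 : ℕ) : ℝ) ≤ ((P * A + Q * B : ℕ) : ℝ) := Nat.cast_le.2 h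
  push_cast at h1
  rw [hQ] at h1
  have h2 : (P : ℝ) / 16384 * ((A : ℝ) / 65536) ≤ (P : ℝ) / 16384 * x :=
    mul_le_mul_of_nonneg_left hA (by positivity)
  have h3 : (1 - (P : ℝ) / 16384) * ((B : ℝ) / 65536) ≤ (1 - (P : ℝ) / 16384) * y :=
    mul_le_mul_of_nonneg_left hB (by linarith)
  have h4 : (v : ℝ) / 65536 ≤
      (P : ℝ) / 16384 * ((A : ℝ) / 65536) + (1 - (P : ℝ) / 16384) * ((B : ℝ) / 65536) := by
    have h5 : (P : ℝ) / 16384 * ((A : ℝ) / 65536) + (1 - (P : ℝ) / 16384) * ((B : ℝ) / 65536) =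
        (P * A + (16384 - P) * B) / 16384 / 65536 := by ring
    rw [h5, div_le_div_iff_of_pos_right (by norm_num), le_div_iff₀ (by norm_num)]
    exact h1
  linarith

theorem thr_low {w h a b x y K c t : ℝ} (hw : 0 ≤ w) (hh : 0 ≤ h) (hwK : w * K = 100 * c)
    (hab : a * x - K ≤ b * y) (ht : t ≤ a / 100 * (w * x * h)) : t - c * h ≤ b / 100 * (w * y * h) := by
  have h1 : w * h / 100 * (a * x - K) ≤ w * h / 100 * (b * y) :=
    mul_le_mul_of_nonneg_left hab (by positivity)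
  have h2 : w * h / 100 * (a * x - K) = a / 100 * (w * x * h) - (w * K) * h / 100 := by ring
  have h3 : w * h / 100 * (b * y) = b / 100 * (w * y * h) := by ring
  rw [h2, h3, hwK] at h1
  linarith

theorem thr_up {w h a b x y K c t : ℝ} (hw : 0 ≤ w) (hh : 0 ≤ h) (hwK : w * K = 100 * c)
    (hab : a * x + K ≤ b * y) (ht : t ≤ a / 100 * (w * x * h)) : t + c * h ≤ b / 100 * (w * y * h) := by
  have h1 : w * h / 100 * (a * x + K) ≤ w * h / 100 * (b * y) :=
    mul_le_mul_of_nonneg_left hab (by positivity)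
  have h2 : w * h / 100 * (a * x + K) = a / 100 * (w * x * h) + (w * K) * h / 100 := by ring
  have h3 : w * h / 100 * (b * y) = b / 100 * (w * y * h) := by ring
  rw [h2, h3, hwK] at h1
  linarith

/-- the square roots of the table parameters -/
theorem par_c1m {q : Par} (h : parOk q = true) {p : ℝ} (hp0 : 0 < p) (hpb : p ≤ (q.P1 : ℝ) / 16384) :
    (q.c1m : ℝ) ≤ 1048576 * (100 * √((1 - p) / p)) := by
  obtain ⟨q1, q2, q3, q4, q5, q6, q7⟩ := parOk_spec h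
  have hP1 : (0 : ℝ) < q.P1 := Nat.cast_pos.2 (by omega)
  have e1 : ((q.c1m * q.c1m * q.P1 : ℕ) : ℝ) ≤ ((10995116277760000 * (16384 - q.P1) : ℕ) : ℝ) :=
    Nat.cast_le.2 q4
  rw [Nat.cast_mul, Nat.cast_mul, Nat.cast_mul, Nat.cast_sub (by omega)] at e1
  push_cast at e1
  apply rt_low
  have e2 : (16384 - (q.P1 : ℝ)) / q.P1 ≤ (1 - p) / p := by
    rw [div_le_div_iff₀ hP1 hp0]
    have : p * 16384 ≤ q.P1 := by rwa [le_div_iff₀ (by norm_num)] at hpb
    nlinarith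
  have e3 : (q.c1m : ℝ) ^ 2 ≤ 10995116277760000 * ((16384 - (q.P1 : ℝ)) / q.P1) := by
    rw [← mul_div_assoc, le_div_iff₀ hP1, sq]
    exact e1
  linarith

theorem par_c1p {q : Par} (h : parOk q = true) {p : ℝ} (hp0 : 0 < p) (hpa : (q.P0 : ℝ) / 16384 ≤ p) :
    1048576 * (100 * √((1 - p) / p)) ≤ (q.c1p : ℝ) := by
  obtain ⟨q1, q2, q3, q4, q5, q6, q7⟩ := parOk_spec h
  have hP0 : (0 : ℝ) < q.P0 := Nat.cast_pos.2 (by omega)
  have e1 : ((10995116277760000 * (16384 - q.P0) : ℕ) : ℝ) ≤ ((q.c1p * q.c1p * q.P0 : ℕ) : ℝ) :=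
    Nat.cast_le.2 q5
  rw [Nat.cast_mul, Nat.cast_mul, Nat.cast_mul, Nat.cast_sub (by omega)] at e1
  push_cast at e1
  apply rt_up (Nat.cast_nonneg _)
  have e2 : (1 - p) / p ≤ (16384 - (q.P0 : ℝ)) / q.P0 := by
    rw [div_le_div_iff₀ hp0 hP0]
    have : (q.P0 : ℝ) ≤ p * 16384 := by rwa [div_le_iff₀ (by norm_num)] at hpa
    nlinarith
  have e3 : 10995116277760000 * ((16384 - (q.P0 : ℝ)) / q.P0) ≤ (q.c1p : ℝ) ^ 2 := by
    rw [← mul_div_assoc, div_le_iff₀ hP0, sq]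
    exact e1
  linarith

theorem par_c2m {q : Par} (h : parOk q = true) {p : ℝ} (hp1 : p < 1) (hpa : (q.P0 : ℝ) / 16384 ≤ p) :
    (q.c2m : ℝ) ≤ 1048576 * (100 * √(p / (1 - p))) := by
  obtain ⟨q1, q2, q3, q4, q5, q6, q7⟩ := parOk_spec h
  have hP0 : (0 : ℝ) < 16384 - q.P0 := by
    have : (q.P0 : ℝ) ≤ 8192 := by exact_mod_cast q2.trans q3
    linarith
  have e1 : ((q.c2m * q.c2m * (16384 - q.P0) : ℕ) : ℝ) ≤ ((10995116277760000 * q.P0 : ℕ) : ℝ) :=
    Nat.cast_le.2 q6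
  rw [Nat.cast_mul, Nat.cast_mul, Nat.cast_mul, Nat.cast_sub (by omega)] at e1
  push_cast at e1
  apply rt_low
  have hp1' : 0 < 1 - p := by linarith
  have e2 : (q.P0 : ℝ) / (16384 - q.P0) ≤ p / (1 - p) := by
    rw [div_le_div_iff₀ hP0 hp1']
    have : (q.P0 : ℝ) ≤ p * 16384 := by rwa [div_le_iff₀ (by norm_num)] at hpa
    nlinarith
  have e3 : (q.c2m : ℝ) ^ 2 ≤ 10995116277760000 * ((q.P0 : ℝ) / (16384 - q.P0)) := by
    rw [← mul_div_assoc, le_div_iff₀ hP0, sq]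
    exact e1
  linarith

theorem par_c2p {q : Par} (h : parOk q = true) {p : ℝ} (hp1 : p < 1) (hpb : p ≤ (q.P1 : ℝ) / 16384) :
    1048576 * (100 * √(p / (1 - p))) ≤ (q.c2p : ℝ) := by
  obtain ⟨q1, q2, q3, q4, q5, q6, q7⟩ := parOk_spec h
  have hP1 : (0 : ℝ) < 16384 - q.P1 := by
    have : (q.P1 : ℝ) ≤ 8192 := by exact_mod_cast q3
    linarith
  have e1 : ((10995116277760000 * q.P1 : ℕ) : ℝ) ≤ ((q.c2p * q.c2p * (16384 - q.P1) : ℕ) : ℝ) :=
    Nat.cast_le.2 q7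
  rw [Nat.cast_mul, Nat.cast_mul, Nat.cast_mul, Nat.cast_sub (by omega)] at e1
  push_cast at e1
  apply rt_up (Nat.cast_nonneg _)
  have hp1' : 0 < 1 - p := by linarith
  have e2 : p / (1 - p) ≤ (q.P1 : ℝ) / (16384 - q.P1) := by
    rw [div_le_div_iff₀ hp1' hP1]
    have : p * 16384 ≤ q.P1 := by rwa [le_div_iff₀ (by norm_num)] at hpb
    nlinarith
  have e3 : 10995116277760000 * ((q.P1 : ℝ) / (16384 - q.P1)) ≤ (q.c2p : ℝ) ^ 2 := by
    rw [← mul_div_assoc, div_le_iff₀ hP1, sq]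
    exact e1
  linarith

end Pool.Agent.MMS15
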