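import Pool.Agent.MMS15.TrigDefs
import Pool.Agent.MMS14.ErrDefs

/-!
# MMS15/ErrDefs: checker for the characteristic function error of the trigonometric minorant (`S ≥ 15`)

As in `MMS14/ErrDefs` (whose functions are used), `x ≥ u² = t² / (15 z₀)`,
`D_m = min (t² w exp (- (7 / 15) κ t²)) (exp (- κ t² / 2) + exp (- t² / 2))`; the check is `∑ C_m D_m ≤ E / 2 ^ 16`.
-/

set_option autoImplicit false

namespace Pool.Agent.MMS15

open Pool.Agent.MMS14 (mn o40 expU t2L t2U z28 a14 kapL wU)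

/-- upper bound of `u²` -/
def xU (P0 m : ℕ) : ℕ := Nat.succ (Nat.div (Nat.mul (t2U m) 268435456) (Nat.mul 15 (z28 P0)))

/-- upper bound of `D_m` -/
def dU (P0 m : ℕ) : ℕ := (fun x => (fun k => mn
    (Nat.succ (Nat.div (Nat.mul (Nat.succ (Nat.div (Nat.mul (t2U m) (wU P0 x)) o40))
      (expU (Nat.div (Nat.mul (Nat.mul k (t2L m)) 7) (Nat.mul 15 o40)))) o40))
    (Nat.add (expU (Nat.div (Nat.mul k (t2L m)) (Nat.mul 2 o40))) (expU (Nat.div (t2L m) 2)))) (kapL x)) (xU P0 m)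

/-- `∑ C_m D_m`, units `2 ^ -70` -/
noncomputable def errS (P0 : ℕ) (l : List ℕ) : ℕ → ℕ :=
  List.rec (motive := fun _ => ℕ → ℕ) (fun _ => 0) (fun c _ ih m => Nat.add (Nat.mul c (dU P0 m)) (ih (Nat.succ m))) l

/-- the check -/
noncomputable def eOk (P0 E : ℕ) : Bool := Nat.ble (errS P0 Cm 1) (Nat.mul E 18014398509481984)

end Pool.Agent.MMS15
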