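import Pool.Agent.MMS15.Base
import Pool.Agent.MMS14.Lanes

/-!
# MMS15/LaneB: packed arithmetic, two additions to `MMS14/Lanes`

Lane `k` of `X` is `X / 2 ^ (32 k) % 2 ^ 32` (`lane_eq`), 254 lanes.  The auxiliary lemmas of `MMS14/Lanes` are private; copy what you need
(`pk`, `lane_pk`, `lane_lin`, `cut_lane`, `lane_ones`, `full_lane`, the proofs of `geOk_msk`, ..).
`ons_lane`: `ons = Nat.mul ones (Nat.add 1 (Nat.pow 2 4064))` by `decide +kernel`, then `full_lane` of `MMS14/Lanes` (`c` in all 254 lanes).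
`geOk_msk2`: as `geOk_msk`: `msk2 a b` has the lanes `1` for `a ≤ k ≤ 126` in the first half and `b ≤ k ≤ 126` in the second half
(`Nat.mul (cut ones b) (2 ^ 4064)` shifts by 127 lanes; `cut ones a < 2 ^ 4064`).
-/

set_option autoImplicit false

namespace Pool.Agent.MMS15

open Pool.Agent.MMS14

/-- the number with the lanes `f 0, .., f (n - 1)` -/
private def pk (f : ℕ → ℕ) (n : ℕ) : ℕ := ∑ k ∈ Finset.range n, f k * 2 ^ (32 * k)

private theorem pk_succ (f : ℕ → ℕ) (n : ℕ) : pk f (n + 1) = pk f n + f n * 2 ^ (32 * n) :=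
  Finset.sum_range_succ _ _

private theorem pow_step (n : ℕ) : 2 ^ (32 * (n + 1)) = 2 ^ (32 * n) * 2 ^ 32 := by
  rw [← pow_add]
  rfl

private theorem pk_lt {f : ℕ → ℕ} {n : ℕ} (h : ∀ k, k < n → f k < 2 ^ 32) : pk f n < 2 ^ (32 * n) := by
  induction n with
  | zero => simp [pk]
  | succ n ih =>
    rw [pk_succ, pow_step]
    have h1 := ih (fun k hk => h k (Nat.lt_succ_of_lt hk))
    have h2 : (f n + 1) * 2 ^ (32 * n) ≤ 2 ^ 32 * 2 ^ (32 * n) :=
      Nat.mul_le_mul_right _ (h n (Nat.lt_succ_self n))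
    rw [add_mul, one_mul] at h2
    rw [mul_comm (2 ^ (32 * n)) (2 ^ 32)]
    omega

private theorem lane_pk {f : ℕ → ℕ} {n : ℕ} (h : ∀ k, k < n → f k < 2 ^ 32) {k : ℕ} (hk : k < n) :
    lane (pk f n) k = f k := by
  induction n with
  | zero => omega
  | succ n ih =>
    have hn : ∀ k, k < n → f k < 2 ^ 32 := fun k hk => h k (Nat.lt_succ_of_lt hk)
    rw [lane_eq, pk_succ]
    rcases Nat.lt_succ_iff_lt_or_eq.1 hk with h1 | rfl
    · obtain ⟨d, rfl⟩ := Nat.exists_eq_add_of_lt h1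
      have e : f (k + d + 1) * 2 ^ (32 * (k + d + 1)) =
          (f (k + d + 1) * 2 ^ (32 * d) * 2 ^ 32) * 2 ^ (32 * k) := by
        rw [show 32 * (k + d + 1) = 32 * d + 32 + 32 * k by ring, pow_add, pow_add]
        ring
      rw [e, Nat.add_mul_div_right _ _ (Nat.two_pow_pos _), Nat.add_mul_mod_self_right,
        ← lane_eq]
      exact ih hn h1
    · rw [Nat.add_mul_div_right _ _ (Nat.two_pow_pos _), Nat.div_eq_of_lt (pk_lt hn), zero_add,
        Nat.mod_eq_of_lt (h k hk)]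

private theorem pk_lane (X n : ℕ) : pk (lane X) n = X % 2 ^ (32 * n) := by
  induction n with
  | zero => simp [pk, Nat.mod_one]
  | succ n ih => rw [pk_succ, ih, pow_step, Nat.mod_mul, lane_eq, mul_comm (_ % 2 ^ 32)]

private theorem pk_self {X n : ℕ} (h : X < 2 ^ (32 * n)) : pk (lane X) n = X := by
  rw [pk_lane, Nat.mod_eq_of_lt h]

private theorem pk_lin (f g : ℕ → ℕ) (P Q n : ℕ) :
    P * pk f n + Q * pk g n = pk (fun k => P * f k + Q * g k) n := by
  unfold pk
  rw [Finset.mul_sum, Finset.mul_sum, ← Finset.sum_add_distrib]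
  exact Finset.sum_congr rfl (fun k _ => by ring)

private theorem e8128 : (2 : ℕ) ^ 8128 = 2 ^ (32 * 254) := by
  congr 1

private theorem e4064 : (2 : ℕ) ^ 4064 = 2 ^ (32 * 127) := by
  congr 1

private theorem npow (a b : ℕ) : Nat.pow a b = a ^ b := rfl

private theorem nmul (a b : ℕ) : Nat.mul a b = a * b := rfl

private theorem nadd (a b : ℕ) : Nat.add a b = a + b := rfl

private theorem nsub (a b : ℕ) : Nat.sub a b = a - b := rfl

private theorem ndiv (a b : ℕ) : Nat.div a b = a / b := rfl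

private theorem lane_lin {A B P Q : ℕ} (hA : A < 2 ^ 8128) (hB : B < 2 ^ 8128)
    (h : ∀ k, k < 254 → P * lane A k + Q * lane B k < 2 ^ 32) :
    P * A + Q * B < 2 ^ 8128 ∧
      ∀ k, k < 254 → lane (P * A + Q * B) k = P * lane A k + Q * lane B k := by
  rw [e8128] at hA hB ⊢
  have e : P * A + Q * B = pk (fun k => P * lane A k + Q * lane B k) 254 := by
    rw [← pk_lin, pk_self hA, pk_self hB]
  rw [e]
  exact ⟨pk_lt h, fun k hk => lane_pk h hk⟩

private theorem lane_land (A B k : ℕ) : lane (Nat.land A B) k = Nat.land (lane A k) (lane B k) := by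
  unfold lane
  show ((A &&& B) >>> (32 * k)) &&& 4294967295 =
    ((A >>> (32 * k)) &&& 4294967295) &&& ((B >>> (32 * k)) &&& 4294967295)
  apply Nat.eq_of_testBit_eq
  intro i
  simp only [Nat.testBit_and, Nat.testBit_shiftRight]
  cases A.testBit (32 * k + i) <;> cases B.testBit (32 * k + i) <;>
    cases Nat.testBit 4294967295 i <;> rfl

private theorem lane_dbl {m : ℕ} (hm : m < 2 ^ 4064) (k : ℕ) :
    lane (Nat.mul m (Nat.add 1 (Nat.pow 2 4064))) k =
      if k < 127 then lane m k else lane m (k - 127) := by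
  have e : Nat.mul m (Nat.add 1 (Nat.pow 2 4064)) = m + m * 2 ^ (32 * 127) := by
    rw [nmul, nadd, npow, e4064, mul_add, mul_one]
  rw [e4064] at hm
  rw [e, lane_eq]
  split_ifs with h
  · obtain ⟨d, hd⟩ := Nat.exists_eq_add_of_lt h
    have e : m * 2 ^ (32 * 127) = (m * 2 ^ (32 * d) * 2 ^ 32) * 2 ^ (32 * k) := by
      rw [show 32 * 127 = 32 * d + 32 + 32 * k by omega, pow_add, pow_add]
      ring
    rw [e, Nat.add_mul_div_right _ _ (Nat.two_pow_pos _), Nat.add_mul_mod_self_right, ← lane_eq]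
  · obtain ⟨d, rfl⟩ := Nat.exists_eq_add_of_le (not_lt.1 h)
    rw [show 32 * (127 + d) = 32 * 127 + 32 * d by ring, pow_add, ← Nat.div_div_eq_div_mul,
      Nat.add_mul_div_right _ _ (Nat.two_pow_pos _), Nat.div_eq_of_lt hm, zero_add, ← lane_eq,
      Nat.add_sub_cancel_left]

private theorem dbl_lt {m : ℕ} (hm : m < 2 ^ 4064) : Nat.mul m (Nat.add 1 (Nat.pow 2 4064)) < 2 ^ 8128 := by
  have e : (2 : ℕ) ^ 8128 = 2 ^ 4064 * 2 ^ 4064 := by rw [← pow_add]
  rw [nmul, nadd, npow, e]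
  generalize (2 : ℕ) ^ 4064 = x at hm
  have h1 : m + 1 ≤ x := hm
  nlinarith

private theorem ones_eq : ones = pk (fun _ => 1) 127 := by
  unfold ones pk
  rw [ndiv, nsub, npow, e4064, pow_mul]
  have h := Nat.geomSum_eq (m := 2 ^ 32) (by norm_num) 127
  rw [show (4294967295 : ℕ) = 2 ^ 32 - 1 by norm_num, ← h]
  refine Finset.sum_congr rfl (fun k _ => ?_)
  rw [one_mul, pow_mul]

private theorem ones_lt : ones < 2 ^ 4064 := by
  rw [ones_eq, e4064]
  exact pk_lt (fun _ _ => by norm_num)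

private theorem lane_ones {k : ℕ} (hk : k < 127) : lane ones k = 1 := by
  rw [ones_eq]
  exact lane_pk (fun _ _ => by norm_num) hk

private theorem full_lane (c : ℕ) (hc : c < 2 ^ 32) :
    Nat.mul (Nat.mul ones (Nat.add 1 (Nat.pow 2 4064))) c < 2 ^ 8128 ∧
      ∀ k, k < 254 → lane (Nat.mul (Nat.mul ones (Nat.add 1 (Nat.pow 2 4064))) c) k = c := by
  have h0 : ∀ k, k < 254 → lane (Nat.mul ones (Nat.add 1 (Nat.pow 2 4064))) k = 1 := by
    intro k hk
    rw [lane_dbl ones_lt]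
    split_ifs with h
    · exact lane_ones h
    · exact lane_ones (by omega)
  have h1 := dbl_lt ones_lt
  have h2 := lane_lin (A := Nat.mul ones (Nat.add 1 (Nat.pow 2 4064))) (B := 0) (P := c) (Q := 0)
    h1 (Nat.two_pow_pos _) (fun k hk => by rw [h0 k hk]; omega)
  rw [zero_mul, add_zero] at h2
  have e : Nat.mul (Nat.mul ones (Nat.add 1 (Nat.pow 2 4064))) c =
      c * Nat.mul ones (Nat.add 1 (Nat.pow 2 4064)) := Nat.mul_comm _ _
  rw [e]
  refine ⟨h2.1, fun k hk => ?_⟩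
  rw [h2.2 k hk, h0 k hk]
  omega

private theorem cut_lane (X j k : ℕ) :
    lane (Nat.shiftLeft (Nat.shiftRight X (Nat.mul 32 j)) (Nat.mul 32 j)) k =
      if j ≤ k then lane X k else 0 := by
  have e : Nat.shiftLeft (Nat.shiftRight X (Nat.mul 32 j)) (Nat.mul 32 j) =
      X / 2 ^ (32 * j) * 2 ^ (32 * j) := by
    show (X >>> (32 * j)) <<< (32 * j) = _
    rw [Nat.shiftLeft_eq, Nat.shiftRight_eq_div_pow]
  rw [e, lane_eq]
  split_ifs with h
  · obtain ⟨d, rfl⟩ := Nat.exists_eq_add_of_le h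
    rw [lane_eq, show 32 * (j + d) = 32 * j + 32 * d by ring, pow_add, ← Nat.div_div_eq_div_mul,
      ← Nat.div_div_eq_div_mul, Nat.mul_div_cancel _ (Nat.two_pow_pos _)]
  · obtain ⟨d, hd⟩ := Nat.exists_eq_add_of_lt (not_le.1 h)
    have e : X / 2 ^ (32 * j) * 2 ^ (32 * j) =
        (X / 2 ^ (32 * j) * 2 ^ (32 * d) * 2 ^ 32) * 2 ^ (32 * k) := by
      conv_lhs => rw [show 32 * j = 32 * d + 32 + 32 * k by omega, pow_add, pow_add]
      conv_rhs => rw [show 32 * j = 32 * d + 32 + 32 * k by omega, pow_add, pow_add]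
      ring
    rw [e, Nat.mul_div_cancel _ (Nat.two_pow_pos _), Nat.mul_mod_left]

private theorem cut_le (X j : ℕ) :
    Nat.shiftLeft (Nat.shiftRight X (Nat.mul 32 j)) (Nat.mul 32 j) ≤ X := by
  have e : Nat.shiftLeft (Nat.shiftRight X (Nat.mul 32 j)) (Nat.mul 32 j) =
      X / 2 ^ (32 * j) * 2 ^ (32 * j) := by
    show (X >>> (32 * j)) <<< (32 * j) = _
    rw [Nat.shiftLeft_eq, Nat.shiftRight_eq_div_pow]
  rw [e]
  exact Nat.div_mul_le_self _ _

private theorem lane_add {m m' : ℕ} (hm : m < 2 ^ 4064) (k : ℕ) :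
    lane (Nat.add m (Nat.mul m' (Nat.pow 2 4064))) k =
      if k < 127 then lane m k else lane m' (k - 127) := by
  have e : Nat.add m (Nat.mul m' (Nat.pow 2 4064)) = m + m' * 2 ^ (32 * 127) := by
    rw [nmul, nadd, npow, e4064]
  rw [e4064] at hm
  rw [e, lane_eq]
  split_ifs with h
  · obtain ⟨d, hd⟩ := Nat.exists_eq_add_of_lt h
    have e : m' * 2 ^ (32 * 127) = (m' * 2 ^ (32 * d) * 2 ^ 32) * 2 ^ (32 * k) := by
      rw [show 32 * 127 = 32 * d + 32 + 32 * k by omega, pow_add, pow_add]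
      ring
    rw [e, Nat.add_mul_div_right _ _ (Nat.two_pow_pos _), Nat.add_mul_mod_self_right, ← lane_eq]
  · obtain ⟨d, rfl⟩ := Nat.exists_eq_add_of_le (not_lt.1 h)
    rw [show 32 * (127 + d) = 32 * 127 + 32 * d by ring, pow_add, ← Nat.div_div_eq_div_mul,
      Nat.add_mul_div_right _ _ (Nat.two_pow_pos _), Nat.div_eq_of_lt hm, zero_add, ← lane_eq,
      Nat.add_sub_cancel_left]

private theorem add_lt' {m m' : ℕ} (hm : m < 2 ^ 4064) (hm' : m' < 2 ^ 4064) :
    Nat.add m (Nat.mul m' (Nat.pow 2 4064)) < 2 ^ 8128 := by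
  have e : (2 : ℕ) ^ 8128 = 2 ^ 4064 * 2 ^ 4064 := by rw [← pow_add]
  rw [nmul, nadd, npow, e]
  generalize (2 : ℕ) ^ 4064 = x at hm hm'
  have h1 : m' + 1 ≤ x := hm'
  nlinarith

private theorem msk2_lt (a b : ℕ) : msk2 a b < 2 ^ 8128 := by
  unfold msk2
  exact add_lt' (lt_of_le_of_lt (cut_le _ _) ones_lt) (lt_of_le_of_lt (cut_le _ _) ones_lt)

private theorem lane_msk2 {a b k : ℕ} (hk : k < 254) :
    lane (msk2 a b) k = if k < 127 then (if a ≤ k then 1 else 0) else if b ≤ k - 127 then 1 else 0 := by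
  unfold msk2
  rw [lane_add (lt_of_le_of_lt (cut_le _ _) ones_lt)]
  split_ifs with h1 h2 h2
  · rw [cut_lane, if_pos h2, lane_ones h1]
  · rw [cut_lane, if_neg h2]
  · rw [cut_lane, if_pos h2, lane_ones (by omega)]
  · rw [cut_lane, if_neg h2]

private theorem lane_msk2_le (a b : ℕ) {k : ℕ} (hk : k < 254) : lane (msk2 a b) k ≤ 1 := by
  rw [lane_msk2 hk]
  split_ifs <;> norm_num

private theorem ons_eq : ons = Nat.mul ones (Nat.add 1 (Nat.pow 2 4064)) := by
  decide +kernel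

theorem ons_lane {c : ℕ} (hc : c < 131072) :
    RowP (Nat.mul ons c) ∧ ∀ k, k < 254 → lane (Nat.mul ons c) k = c := by
  have h := full_lane c (by omega)
  rw [ons_eq]
  refine ⟨⟨h.1, fun k hk => ?_⟩, h.2⟩
  rw [h.2 k hk]
  exact hc

theorem geOk_msk2 {X c a b : ℕ} (hc : c ≤ 2147483648) (hX : X < 2 ^ 8128)
    (hl : ∀ k, k < 254 → lane X k < 2147483648)
    (h : geOk X c (msk2 a b) (Nat.mul (msk2 a b) 2147483648) = true) :
    ∀ k, k ≤ 126 → (a ≤ k → c ≤ lane X k) ∧ (b ≤ k → c ≤ lane X (127 + k)) := by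
  have h1 : Nat.land (X + (2147483648 - c) * msk2 a b) (msk2 a b * 2147483648) =
      msk2 a b * 2147483648 := Nat.eq_of_beq_eq_true h
  have h2 := lane_lin (A := X) (B := msk2 a b) (P := 1) (Q := 2147483648 - c) hX (msk2_lt a b)
    (fun k hk => by
      have := hl k hk
      have h3 := lane_msk2_le a b hk
      have h4 : (2147483648 - c) * lane (msk2 a b) k ≤ (2147483648 - c) * 1 :=
        Nat.mul_le_mul_left _ h3
      omega)
  have h3 := lane_lin (A := msk2 a b) (B := 0) (P := 2147483648) (Q := 0) (msk2_lt a b)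
    (Nat.two_pow_pos _) (fun k hk => by
      have h3 := lane_msk2_le a b hk
      omega)
  rw [zero_mul, add_zero, mul_comm] at h3
  rw [one_mul] at h2
  have key : ∀ k, k < 254 → lane (msk2 a b) k = 1 → c ≤ lane X k := by
    intro k hk h4
    have h5 : lane (Nat.land (X + (2147483648 - c) * msk2 a b) (msk2 a b * 2147483648)) k =
      lane (msk2 a b * 2147483648) k := by rw [h1]
    rw [lane_land, h2.2 k hk, h3.2 k hk, h4, one_mul, mul_one, zero_mul, add_zero, mul_one] at h5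
    have h6 : Nat.land (lane X k + (2147483648 - c)) 2147483648 ≤ lane X k + (2147483648 - c) :=
      Nat.and_le_left
    rw [h5] at h6
    omega
  intro k hk
  constructor
  · intro ha
    apply key k (by omega)
    rw [lane_msk2 (by omega), if_pos (by omega), if_pos ha]
  · intro hb
    apply key (127 + k) (by omega)
    rw [lane_msk2 (by omega), if_neg (by omega), if_pos (by omega)]

end Pool.Agent.MMS15
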