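import Pool.Agent.MMS15.BoxD
import Pool.Agent.MMS15.LaneB
import Pool.Agent.MMS15.Dp

/-!
# MMS15/LeafB: soundness of the lookup `lkT`

Thresholds: `T` stands for `(T - 2^40) / 16384000`.

`leaf_low` (rest `r = h :: l`, `h ≠ 0`, in the cell `k`, lane `κ = k` if `h > 0`, `κ = 127 + k` if `h < 0`), `σ = sd p r > 0`,
`qL ≤ 16384000 σ ≤ qU`.
* `T ≤ 2^40`, `d = ⌊100 (2^40 - T) / qU⌋ ≤ 400`: row `400 - d` (`look` = `rowv rows` by `lookOk_sound`, `701` rows), `Good` with `i = 400 - d`: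
  `(T - 2^40)/16384000 ≤ - d/100 σ` because `d qU ≤ 100 (2^40 - T)`, `16384000 σ ≤ qU`.
* `d > 400`: the value is `65535 - ⌊21299200000000 / d⁴⌋` (`ons_lane`; `21299200000000 = 13/4 * 65536 * 100⁴`), `fourth_pr` with `x = d/100 σ`:
  `Pr p r (-x) ≥ 1 - 13/4 * 100⁴ / d⁴`, `65535 - ⌊y⌋ ≤ 65536 - y`.
* `T > 2^40`, `qL = 0`: row `0` (all lanes `0`, `lane_zero`, `Pr_nonneg`); otherwise `i = 401 + ⌊100 (T - 2^40)/qL⌋`, `i ≤ 700` (else row `0`):
  `(T - 2^40) / 16384000 ≤ (i - 400)/100 σ` because `i - 400 ≥ 100 (T - 2^40)/qL`, `qL ≤ 16384000 σ`.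
`leaf_zero` (all entries of `r` are `0`, `qL = 0`, lane `κ ∈ {0, 126}`): `T > 2^40`: row `0`.  `T ≤ 2^40`: `Pr p r t = 1` (`Pr_zero`), and the lanes
`0` and `126` of every row are `≤ 65536`: use `Good` (and `Pr_le_one`) for the lists `[1]` (`S = 1`, cell `0`, `Sc_zero`, `Sc_one`) and
`1 :: List.replicate 15 1` (`S = 16 ≥ Sc 126`, `Sc_126`) with the threshold `(i - 400)/100 σ`; the far value is `≤ 65535`.
(Compare `MMS14/RootB`: `rb_slotG`, `eval_zero`.)
-/

set_option autoImplicit false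

namespace Pool.Agent.MMS15

open Pool.Agent.MMS14

private theorem lf_rowP_zero : RowP 0 := by
  refine ⟨by positivity, fun k _ => ?_⟩
  rw [lane_zero]
  norm_num

private theorem lf_gen {tab : List (List ℕ)} {qL qU T N A B C M D E : ℕ} (P : ℕ → Prop) (h0 : P 0)
    (h1 : T ≤ N → ∀ d, d = M * (N - T) / qU → d ≤ A → P (look tab (A - d)))
    (h2 : T ≤ N → ∀ d, d = M * (N - T) / qU → A < d →
      P (Nat.mul ons (B - C / (d * d * (d * d)))))
    (h3 : N < T → 0 < qL → ∀ i, i = D + M * (T - N) / qL → i ≤ E → P (look tab i)) :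
    P (cond (Nat.ble T N)
      ((fun d => cond (Nat.ble d A) (look tab (Nat.sub A d))
        (Nat.mul ons (Nat.sub B (Nat.div C (Nat.mul (Nat.mul d d) (Nat.mul d d))))))
          (Nat.div (Nat.mul M (Nat.sub N T)) qU))
      (cond (Nat.beq qL 0) 0
        ((fun i => cond (Nat.ble i E) (look tab i) 0)
          (Nat.add D (Nat.div (Nat.mul M (Nat.sub T N)) qL))))) := by
  cases hc : Nat.ble T N with
  | true =>
    have hT := Nat.le_of_ble_eq_true hc
    simp only [cond_true]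
    cases hd : Nat.ble (Nat.div (Nat.mul M (Nat.sub N T)) qU) A with
    | true => exact h1 hT _ rfl (Nat.le_of_ble_eq_true hd)
    | false =>
      refine h2 hT _ rfl ?_
      by_contra hcon
      have : Nat.ble (Nat.div (Nat.mul M (Nat.sub N T)) qU) A = true :=
        Nat.ble_eq_true_of_le (not_lt.1 hcon)
      rw [this] at hd
      exact absurd hd (by simp)
  | false =>
    have hT : N < T := by
      by_contra hcon
      have : Nat.ble T N = true := Nat.ble_eq_true_of_le (not_lt.1 hcon)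
      rw [this] at hc
      exact absurd hc (by simp)
    simp only [cond_false]
    cases hq : Nat.beq qL 0 with
    | true => exact h0
    | false =>
      simp only [cond_false]
      have hq0 : 0 < qL := by
        rcases Nat.eq_zero_or_pos qL with h | h
        · rw [h] at hq
          exact absurd hq (by decide)
        · exact h
      cases he : Nat.ble (Nat.add D (Nat.div (Nat.mul M (Nat.sub T N)) qL)) E with
      | true => exact h3 hT hq0 _ rfl (Nat.le_of_ble_eq_true he)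
      | false => exact h0

private theorem lf_lkT {tab : List (List ℕ)} {qL qU T : ℕ} (P : ℕ → Prop) (h0 : P 0)
    (h1 : T ≤ 1099511627776 → ∀ d, d = 100 * (1099511627776 - T) / qU → d ≤ 400 →
      P (look tab (400 - d)))
    (h2 : T ≤ 1099511627776 → ∀ d, d = 100 * (1099511627776 - T) / qU → 400 < d →
      P (Nat.mul ons (65535 - 21299200000000 / (d * d * (d * d)))))
    (h3 : 1099511627776 < T → 0 < qL → ∀ i, i = 401 + 100 * (T - 1099511627776) / qL → i ≤ 700 →
      P (look tab i)) : P (lkT tab qL qU T) := by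
  unfold lkT
  exact lf_gen P h0 h1 h2 h3

private theorem lf_sub_lt (x : ℕ) : 65535 - x < 131072 :=
  lt_of_le_of_lt (Nat.sub_le _ _) (by norm_num)

private theorem lf_div_le {d N T qU : ℕ} {σ : ℝ} (hd : d = 100 * (N - T) / qU) (hT : T ≤ N)
    (hσ : 0 ≤ σ) (hU : 16384000 * σ ≤ (qU : ℝ)) :
    (d : ℝ) * σ ≤ 100 * ((N : ℝ) - T) / 16384000 := by
  have hNT : (0 : ℝ) ≤ (N : ℝ) - T := by
    rw [sub_nonneg]
    exact_mod_cast hT
  rcases Nat.eq_zero_or_pos qU with hq | hq
  · have h5 : d = 0 := by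
      rw [hd, hq]; exact Nat.div_zero _
    rw [h5]
    simp only [Nat.cast_zero, zero_mul]
    positivity
  · have h5 : (d : ℝ) ≤ (((100 * (N - T) : ℕ)) : ℝ) / (qU : ℝ) := by
      rw [hd]
      exact Nat.cast_div_le
    have hq' : (0 : ℝ) < (qU : ℝ) := by exact_mod_cast hq
    have h6 : σ ≤ (qU : ℝ) / 16384000 := by
      rw [le_div_iff₀ (by norm_num)]
      linarith
    have h7 : (((100 * (N - T) : ℕ)) : ℝ) = 100 * ((N : ℝ) - T) := by
      rw [Nat.cast_mul, Nat.cast_sub hT]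
      norm_num
    rw [h7] at h5
    calc (d : ℝ) * σ
        ≤ (100 * ((N : ℝ) - T)) / (qU : ℝ) * ((qU : ℝ) / 16384000) :=
          mul_le_mul h5 h6 hσ (by positivity)
      _ = 100 * ((N : ℝ) - T) / 16384000 := by
          field_simp

private theorem lf_div_ge {i N T qL : ℕ} {σ : ℝ} (hi : i = 401 + 100 * (T - N) / qL) (hT : N ≤ T)
    (hq : 0 < qL) (hL : (qL : ℝ) ≤ 16384000 * σ) :
    100 * ((T : ℝ) - N) / 16384000 ≤ ((i : ℝ) - 400) * σ := by
  have hNT : (0 : ℝ) ≤ (T : ℝ) - N := by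
    rw [sub_nonneg]
    exact_mod_cast hT
  have hq' : (0 : ℝ) < (qL : ℝ) := by exact_mod_cast hq
  obtain ⟨w, hw⟩ : ∃ w : ℕ, w = 100 * (T - N) / qL := ⟨_, rfl⟩
  have h5 : 100 * ((T : ℝ) - N) / (qL : ℝ) ≤ (w : ℝ) + 1 := by
    rw [div_le_iff₀ hq']
    have h6 : 100 * (T - N) ≤ (w + 1) * qL := by
      have h7 : 100 * (T - N) < qL * (100 * (T - N) / qL + 1) := Nat.lt_mul_div_succ _ hq
      rw [hw]
      calc 100 * (T - N) ≤ qL * (100 * (T - N) / qL + 1) := h7.le
        _ = (100 * (T - N) / qL + 1) * qL := mul_comm _ _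
    have h8 : ((100 * (T - N) : ℕ) : ℝ) ≤ (((w + 1) * qL : ℕ) : ℝ) := by exact_mod_cast h6
    rw [Nat.cast_mul, Nat.cast_sub hT] at h8
    push_cast at h8
    linarith
  have h9 : (i : ℝ) - 400 = (w : ℝ) + 1 := by
    rw [hi, ← hw]
    push_cast
    ring
  rw [h9]
  have h11 : (qL : ℝ) / 16384000 ≤ σ := by
    rw [div_le_iff₀ (by norm_num)]
    linarith
  calc 100 * ((T : ℝ) - N) / 16384000 =
        100 * ((T : ℝ) - N) / (qL : ℝ) * ((qL : ℝ) / 16384000) := by
          field_simp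
    _ ≤ ((w : ℝ) + 1) * σ := by
        apply mul_le_mul h5 h11 (by positivity) (by positivity)

/-- the value of the fourth moment bound -/
private theorem lf_four {d : ℕ} (hd : 400 < d) :
    (((65535 - 21299200000000 / (d * d * (d * d)) : ℕ)) : ℝ) / 65536 ≤
        1 - 13 / 4 * 100 ^ 4 / (d : ℝ) ^ 4 ∨
      65535 - 21299200000000 / (d * d * (d * d)) = 0 := by
  by_cases hcase : 21299200000000 / (d * d * (d * d)) ≤ 65535
  · left
    have hd0 : 0 < d * d * (d * d) := by positivity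
    obtain ⟨w, hw⟩ : ∃ w : ℕ, w = 21299200000000 / (d * d * (d * d)) := ⟨_, rfl⟩
    rw [← hw] at hcase ⊢
    have h1 : 21299200000000 < d * d * (d * d) * (w + 1) := by
      rw [hw]
      exact Nat.lt_mul_div_succ _ hd0
    have h2 : (21299200000000 : ℝ) ≤ (d : ℝ) ^ 4 * ((w : ℝ) + 1) := by
      have h3 : ((21299200000000 : ℕ) : ℝ) ≤ ((d * d * (d * d) * (w + 1) : ℕ) : ℝ) := by
        exact_mod_cast h1.le
      push_cast at h3
      nlinarith
    have hd1 : (0 : ℝ) < (d : ℝ) ^ 4 := by positivity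
    have h4 : 21299200000000 / (d : ℝ) ^ 4 ≤ (w : ℝ) + 1 := by
      rw [div_le_iff₀ hd1]
      linarith
    have h5 : 13 / 4 * 100 ^ 4 / (d : ℝ) ^ 4 = 21299200000000 / (d : ℝ) ^ 4 / 65536 := by
      ring
    rw [h5, Nat.cast_sub hcase, div_le_iff₀ (by norm_num)]
    push_cast
    linarith
  · right
    omega

theorem leaf_low {q : Par} {rows : List ℕ} {tab : List (List ℕ)} (hlen : rows.length = 701)
    (hrow : ∀ r, RowP (rowv rows r)) (hG : Good q.P0 q.P1 rows) (hlook : lookOk tab rows 0 = true)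
    {p : ℝ} (hp0 : (q.P0 : ℝ) / 16384 ≤ p) (hp1 : p ≤ (q.P1 : ℝ) / 16384) (hp5 : 1 / 5 ≤ p) (hp2 : p ≤ 1 / 2)
    {h : ℝ} {l : List ℝ} (hs : Srt (h :: l)) {k κ : ℕ} (hk : InC k (ss (h :: l) / h ^ 2))
    (hκ : (0 < h ∧ κ = k) ∨ (h < 0 ∧ κ = 127 + k)) {qL qU : ℕ} (hL : (qL : ℝ) ≤ 16384000 * sd p (h :: l))
    (hU : 16384000 * sd p (h :: l) ≤ (qU : ℝ)) (T : ℕ) :
    RowP (lkT tab qL qU T) ∧
      ((lane (lkT tab qL qU T) κ : ℕ) : ℝ) / 65536 ≤ Pr p (h :: l) (((T : ℝ) - 1099511627776) / 16384000) := by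
  have hp00 : 0 ≤ p := by linarith
  have hp11 : p ≤ 1 := by linarith
  have hk126 : k ≤ 126 := hk.1
  have hκ254 : κ < 254 := by rcases hκ with ⟨_, e⟩ | ⟨_, e⟩ <;> omega
  have hh : h ≠ 0 := by
    rcases hκ with ⟨e, _⟩ | ⟨e, _⟩
    · exact e.ne'
    · exact e.ne
  have hN : ((1099511627776 : ℕ) : ℝ) = 1099511627776 := by norm_num
  have hss : 0 < ss (h :: l) := by
    rw [ss_cons]
    have := ss_nonneg l
    positivity
  have hvar : 0 < p * (1 - p) * ss (h :: l) := by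
    have h1 : 0 < p * (1 - p) := mul_pos (by linarith) (by linarith)
    positivity
  have hσ : 0 < sd p (h :: l) := Real.sqrt_pos.2 hvar
  -- the lane
  have hlane : ∀ i : ℕ, ∀ τ : ℝ, τ ≤ ((i : ℝ) - 400) / 100 * sd p (h :: l) →
      ((lane (rowv rows i) κ : ℕ) : ℝ) / 65536 ≤ Pr p (h :: l) τ := by
    intro i τ hτ
    rcases hκ with ⟨hpos, e⟩ | ⟨hneg, e⟩
    · rw [e]
      exact (hG l.length k hk126 i).1 p hp0 hp1 hp5 hp2 h l hs le_rfl (by simpa using hpos) hk τ hτ
    · rw [e]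
      exact (hG l.length k hk126 i).2 p hp0 hp1 hp5 hp2 h l hs le_rfl (by simpa using hneg) hk τ hτ
  refine lf_lkT (fun r => RowP r ∧
    ((lane r κ : ℕ) : ℝ) / 65536 ≤ Pr p (h :: l) (((T : ℝ) - 1099511627776) / 16384000))
    ?_ ?_ ?_ ?_
  · refine ⟨lf_rowP_zero, ?_⟩
    rw [lane_zero]
    simpa using Pr_nonneg hp00 hp11 (h :: l) _
  · intro hT d hd hd4
    rw [lookOk_sound hlook _ (by omega)]
    refine ⟨hrow _, hlane _ _ ?_⟩
    have h1 := lf_div_le hd hT hσ.le hU
    rw [hN] at h1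
    rw [Nat.cast_sub hd4]
    push_cast
    have h2 : (400 - (d : ℝ) - 400) / 100 * sd p (h :: l) = -((d : ℝ) * sd p (h :: l)) / 100 := by
      ring
    rw [h2]
    linarith
  · intro hT d hd hd4
    have h1 := lf_div_le hd hT hσ.le hU
    rw [hN] at h1
    obtain ⟨hA, hB⟩ := ons_lane (c := 65535 - 21299200000000 / (d * d * (d * d))) (lf_sub_lt _)
    refine ⟨hA, ?_⟩
    rw [hB κ hκ254]
    rcases lf_four hd4 with h2 | h2
    · have hd0 : (0 : ℝ) < (d : ℝ) := by
        have : 0 < d := by omega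
        exact_mod_cast this
      have hx : 0 < (d : ℝ) / 100 * sd p (h :: l) := by positivity
      have h3 := fourth_pr hp5 hp2 (h :: l) hx
      have h4 : (p * (1 - p) * ss (h :: l)) ^ 2 = sd p (h :: l) ^ 4 := by
        have h5 : sd p (h :: l) ^ 2 = p * (1 - p) * ss (h :: l) := Real.sq_sqrt hvar.le
        rw [← h5]
        ring
      have h6 : 13 / 4 * (p * (1 - p) * ss (h :: l)) ^ 2 / ((d : ℝ) / 100 * sd p (h :: l)) ^ 4 =
          13 / 4 * 100 ^ 4 / (d : ℝ) ^ 4 := by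
        rw [h4]
        field_simp
      rw [h6] at h3
      refine (h2.trans h3).trans (Pr_anti hp00 hp11 (h :: l) ?_)
      linarith
    · rw [h2]
      simpa using Pr_nonneg hp00 hp11 (h :: l) _
  · intro hT hq i hi hi7
    rw [lookOk_sound hlook _ (by omega)]
    refine ⟨hrow _, hlane _ _ ?_⟩
    have h1 := lf_div_ge hi hT.le hq hL
    rw [hN] at h1
    have h2 : ((i : ℝ) - 400) / 100 * sd p (h :: l) = ((i : ℝ) - 400) * sd p (h :: l) / 100 := by
      ring
    rw [h2]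
    linarith

private theorem lf_ss_rep (n : ℕ) : ss (List.replicate n (1 : ℝ)) = n := by
  induction n with
  | zero => simp [ss_nil]
  | succ n ih =>
    rw [List.replicate_succ, ss_cons, ih]
    push_cast
    ring

theorem leaf_zero {q : Par} {rows : List ℕ} {tab : List (List ℕ)} (hlen : rows.length = 701)
    (hrow : ∀ r, RowP (rowv rows r)) (hG : Good q.P0 q.P1 rows) (hlook : lookOk tab rows 0 = true)
    {p : ℝ} (hp0 : (q.P0 : ℝ) / 16384 ≤ p) (hp1 : p ≤ (q.P1 : ℝ) / 16384) (hp5 : 1 / 5 ≤ p) (hp2 : p ≤ 1 / 2)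
    {r : List ℝ} (hr : ∀ a ∈ r, a = 0) {κ : ℕ} (hκ : κ = 0 ∨ κ = 126) (qU T : ℕ) :
    RowP (lkT tab 0 qU T) ∧
      ((lane (lkT tab 0 qU T) κ : ℕ) : ℝ) / 65536 ≤ Pr p r (((T : ℝ) - 1099511627776) / 16384000) := by
  have hp00 : 0 ≤ p := by linarith
  have hp11 : p ≤ 1 := by linarith
  have hlane : ∀ i : ℕ, lane (rowv rows i) κ ≤ 65536 := by
    intro i
    rcases hκ with rfl | rfl
    · have hcell : InC 0 (ss [(1 : ℝ)] / 1 ^ 2) := by
        have e : ss [(1 : ℝ)] / 1 ^ 2 = 1 := by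
          rw [ss_cons, ss_nil]; norm_num
        rw [e]
        refine ⟨by norm_num, Sc_zero.le, fun _ => Sc_one.le⟩
      have h2 := (hG 0 0 (by norm_num) i).1 p hp0 hp1 hp5 hp2 1 [] (by simp [Srt]) le_rfl
        (by simp) hcell (((i : ℝ) - 400) / 100 * sd p [1]) le_rfl
      have h3 := h2.trans (Pr_le_one hp00 hp11 [(1 : ℝ)] _)
      rw [div_le_one (by norm_num)] at h3
      exact_mod_cast h3
    · have hcell : InC 126 (ss ((1 : ℝ) :: List.replicate 15 1) / 1 ^ 2) := by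
        have e : ss ((1 : ℝ) :: List.replicate 15 1) / 1 ^ 2 = 16 := by
          rw [ss_cons, lf_ss_rep]; norm_num
        rw [e]
        refine ⟨le_rfl, ?_, fun h => absurd h (lt_irrefl _)⟩
        have := Sc_126.2
        linarith
      have hsrt : Srt ((1 : ℝ) :: List.replicate 15 1) := by
        unfold Srt
        rw [← List.replicate_succ]
        exact List.pairwise_replicate.2 (Or.inr le_rfl)
      have h2 := (hG 15 126 le_rfl i).1 p hp0 hp1 hp5 hp2 1 (List.replicate 15 1) hsrt (by simp)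
        (by simp) hcell (((i : ℝ) - 400) / 100 * sd p ((1 : ℝ) :: List.replicate 15 1)) le_rfl
      have h3 := h2.trans (Pr_le_one hp00 hp11 ((1 : ℝ) :: List.replicate 15 1) _)
      rw [div_le_one (by norm_num)] at h3
      exact_mod_cast h3
  have hκ254 : κ < 254 := by rcases hκ with e | e <;> omega
  have hone : T ≤ 1099511627776 → Pr p r (((T : ℝ) - 1099511627776) / 16384000) = 1 := by
    intro hT
    have hT' : (T : ℝ) ≤ 1099511627776 := by exact_mod_cast hT
    rw [Pr_zero hr, if_pos]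
    apply div_nonpos_of_nonpos_of_nonneg
    · linarith
    · norm_num
  refine lf_lkT (fun x => RowP x ∧
    ((lane x κ : ℕ) : ℝ) / 65536 ≤ Pr p r (((T : ℝ) - 1099511627776) / 16384000))
    ?_ ?_ ?_ ?_
  · refine ⟨lf_rowP_zero, ?_⟩
    rw [lane_zero]
    simpa using Pr_nonneg hp00 hp11 r _
  · intro hT d _ hd4
    rw [lookOk_sound hlook _ (by omega)]
    refine ⟨hrow _, ?_⟩
    rw [hone hT, div_le_one (by norm_num)]
    exact_mod_cast hlane _
  · intro hT d _ _
    obtain ⟨hA, hB⟩ := ons_lane (c := 65535 - 21299200000000 / (d * d * (d * d))) (lf_sub_lt _)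
    refine ⟨hA, ?_⟩
    rw [hB κ hκ254, hone hT, div_le_one (by norm_num)]
    have : 65535 - 21299200000000 / (d * d * (d * d)) ≤ 65536 :=
      (Nat.sub_le _ _).trans (by norm_num)
    exact_mod_cast this
  · intro _ hq
    exact absurd hq (lt_irrefl _)

end Pool.Agent.MMS15
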