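import Pool.Agent.MMS15.BoxD
import Pool.Agent.MMS15.Dp
import Pool.Agent.MMS14.RootA

/-!
# MMS15/RowB: soundness of `rowB`, `emB`

`p ∈ [P0, P1] / 2^14` is written `16384 p = (1 - u) P0 + u P1`.  A pair `(a, b)` stands for the threshold `((1 - u) a + u b - 2^40) / 16384000`.
`rowB_sound`: induction over `Mt ats pre` (`List.Forall₂`), generalizing `a`, `b`.  Empty list: `lkT .. (mx a b)`, `(1 - u) a + u b ≤ max a b`, `Pr_anti`.
`Nat.sub` is at least the real difference; for a positive atom `x ∈ [lo, hi]/1000`: `Pr_low_pos` with `P = P0/2^14`, and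
`t - (1 - p) x ≤` value of `(a - (2^14 - P0) lo, b - (2^14 - P1) lo)`, `t + p x ≤` value of `(a + P0 hi, b + P1 hi)` (`Pr_anti`);
a negative atom: `Pr_low_neg` with `P = P1/2^14`; `comb_lane`, `comb_row` (floor).  (Compare `MMS14/RootA`: `extP_val`, `extM_val`, and
`MMS14/RootB`: `rb_node`, `rb_row`, `rb_max`.)  `emB_sound`: the same with `Pr p r t = if t ≤ 0 then 1 else 0` (`Pr_zero`) at the leaf.
The recursors unfold by `rfl` (state the equations for `ats = At.p lo hi :: ats'` and `At.m lo hi :: ats'` with `rfl` proofs).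
-/

set_option autoImplicit false

namespace Pool.Agent.MMS15

open Pool.Agent.MMS14

private theorem rw_max {u : ℝ} (h0 : 0 ≤ u) (h1 : u ≤ 1) (a b : ℕ) :
    ((1 - u) * (a : ℝ) + u * (b : ℝ) - 1099511627776) / 16384000 ≤
      (((mx a b : ℕ) : ℝ) - 1099511627776) / 16384000 := by
  rw [mx_eq]
  have ha : (a : ℝ) ≤ ((max a b : ℕ) : ℝ) := by exact_mod_cast le_max_left a b
  have hb : (b : ℝ) ≤ ((max a b : ℕ) : ℝ) := by exact_mod_cast le_max_right a b
  have : (1 - u) * (a : ℝ) + u * (b : ℝ) ≤ ((max a b : ℕ) : ℝ) := by nlinarith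
  gcongr

private theorem rw_node {P A B : ℕ} (hP : P ≤ 16384) {x y : ℝ} (hA : (A : ℝ) / 65536 ≤ x)
    (hB : (B : ℝ) / 65536 ≤ y) :
    (((P * A + (16384 - P) * B) / 16384 : ℕ) : ℝ) / 65536 ≤
      (P : ℝ) / 16384 * x + (1 - (P : ℝ) / 16384) * y := by
  have h1 : (((P * A + (16384 - P) * B) / 16384 : ℕ) : ℝ) ≤
      ((P * A + (16384 - P) * B : ℕ) : ℝ) / ((16384 : ℕ) : ℝ) := Nat.cast_div_le
  have h2 : ((P * A + (16384 - P) * B : ℕ) : ℝ) = (P : ℝ) * A + (16384 - (P : ℝ)) * B := by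
    rw [Nat.cast_add, Nat.cast_mul, Nat.cast_mul, Nat.cast_sub hP]
    norm_num
  rw [h2] at h1
  have hP0 : (0 : ℝ) ≤ (P : ℝ) := Nat.cast_nonneg _
  have hP1 : (P : ℝ) ≤ 16384 := by exact_mod_cast hP
  have h3 : (P : ℝ) / 16384 * ((A : ℝ) / 65536) ≤ (P : ℝ) / 16384 * x := by gcongr
  have h4 : (1 - (P : ℝ) / 16384) * ((B : ℝ) / 65536) ≤ (1 - (P : ℝ) / 16384) * y := by
    apply mul_le_mul_of_nonneg_left hB
    rw [sub_nonneg, div_le_one (by norm_num)]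
    exact hP1
  calc (((P * A + (16384 - P) * B) / 16384 : ℕ) : ℝ) / 65536
      ≤ (((P : ℝ) * A + (16384 - (P : ℝ)) * B) / ((16384 : ℕ) : ℝ)) / 65536 := by gcongr
    _ = (P : ℝ) / 16384 * ((A : ℝ) / 65536) + (1 - (P : ℝ) / 16384) * ((B : ℝ) / 65536) := by
        push_cast
        ring
    _ ≤ _ := add_le_add h3 h4

/-- one more positive number in front -/
private theorem rw_pos {q : Par} {p u : ℝ} (hq : q.P0 ≤ q.P1) (hq' : q.P1 ≤ 8192)
    (hp : 16384 * p = (1 - u) * q.P0 + u * q.P1) (h0 : 0 ≤ u) (h1 : u ≤ 1) {lo hi : ℕ} {c : ℝ}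
    (hc : (lo : ℝ) / 1000 ≤ c) (hc' : c ≤ (hi : ℝ) / 1000) (a b : ℕ) (l : List ℝ) :
    (q.P0 : ℝ) / 16384 * Pr p l (((1 - u) *
          ((Nat.sub a (Nat.mul (Nat.sub 16384 q.P0) lo) : ℕ) : ℝ) + u *
          ((Nat.sub b (Nat.mul (Nat.sub 16384 q.P1) lo) : ℕ) : ℝ) - 1099511627776) / 16384000) +
        (1 - (q.P0 : ℝ) / 16384) * Pr p l (((1 - u) *
          ((Nat.add a (Nat.mul q.P0 hi) : ℕ) : ℝ) + u *
          ((Nat.add b (Nat.mul q.P1 hi) : ℕ) : ℝ) - 1099511627776) / 16384000) ≤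
      Pr p (c :: l) (((1 - u) * (a : ℝ) + u * (b : ℝ) - 1099511627776) / 16384000) :=
  extP_val hq hq' hp h0 h1 hc hc' (.lf a b) trivial l

/-- one more negative number in front -/
private theorem rw_neg {q : Par} {p u : ℝ} (hq : q.P0 ≤ q.P1) (hq' : q.P1 ≤ 8192)
    (hp : 16384 * p = (1 - u) * q.P0 + u * q.P1) (h0 : 0 ≤ u) (h1 : u ≤ 1) {lo hi : ℕ} {c : ℝ}
    (hc : (lo : ℝ) / 1000 ≤ -c) (hc' : -c ≤ (hi : ℝ) / 1000) (a b : ℕ) (l : List ℝ) :
    (q.P1 : ℝ) / 16384 * Pr p l (((1 - u) *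
          ((Nat.add a (Nat.mul (Nat.sub 16384 q.P0) hi) : ℕ) : ℝ) + u *
          ((Nat.add b (Nat.mul (Nat.sub 16384 q.P1) hi) : ℕ) : ℝ) - 1099511627776) / 16384000) +
        (1 - (q.P1 : ℝ) / 16384) * Pr p l (((1 - u) *
          ((Nat.sub a (Nat.mul q.P0 lo) : ℕ) : ℝ) + u *
          ((Nat.sub b (Nat.mul q.P1 lo) : ℕ) : ℝ) - 1099511627776) / 16384000) ≤
      Pr p (c :: l) (((1 - u) * (a : ℝ) + u * (b : ℝ) - 1099511627776) / 16384000) :=
  extM_val hq hq' hp h0 h1 hc hc' (.lf a b) trivial l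

private theorem rowB_nil (q : Par) (tab : List (List ℕ)) (qL qU a b : ℕ) :
    rowB q tab qL qU [] a b = lkT tab qL qU (mx a b) := rfl

private theorem rowB_p (q : Par) (tab : List (List ℕ)) (qL qU lo hi : ℕ) (ats : List At) (a b : ℕ) :
    rowB q tab qL qU (At.p lo hi :: ats) a b = comb q.P0
        (rowB q tab qL qU ats (Nat.sub a (Nat.mul (Nat.sub 16384 q.P0) lo))
          (Nat.sub b (Nat.mul (Nat.sub 16384 q.P1) lo)))
        (rowB q tab qL qU ats (Nat.add a (Nat.mul q.P0 hi)) (Nat.add b (Nat.mul q.P1 hi))) := rfl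

private theorem rowB_m (q : Par) (tab : List (List ℕ)) (qL qU lo hi : ℕ) (ats : List At) (a b : ℕ) :
    rowB q tab qL qU (At.m lo hi :: ats) a b = comb q.P1
        (rowB q tab qL qU ats (Nat.add a (Nat.mul (Nat.sub 16384 q.P0) hi))
          (Nat.add b (Nat.mul (Nat.sub 16384 q.P1) hi)))
        (rowB q tab qL qU ats (Nat.sub a (Nat.mul q.P0 lo)) (Nat.sub b (Nat.mul q.P1 lo))) := rfl

private theorem emB_nil (q : Par) (a b : ℕ) :
    emB q [] a b = cond (Nat.ble (mx a b) 1099511627776) 65536 0 := rfl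

private theorem emB_p (q : Par) (lo hi : ℕ) (ats : List At) (a b : ℕ) :
    emB q (At.p lo hi :: ats) a b = (q.P0 *
        (emB q ats (Nat.sub a (Nat.mul (Nat.sub 16384 q.P0) lo))
          (Nat.sub b (Nat.mul (Nat.sub 16384 q.P1) lo))) +
        (16384 - q.P0) *
        (emB q ats (Nat.add a (Nat.mul q.P0 hi)) (Nat.add b (Nat.mul q.P1 hi)))) >>> 14 := rfl

private theorem emB_m (q : Par) (lo hi : ℕ) (ats : List At) (a b : ℕ) :
    emB q (At.m lo hi :: ats) a b = (q.P1 *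
        (emB q ats (Nat.add a (Nat.mul (Nat.sub 16384 q.P0) hi))
          (Nat.add b (Nat.mul (Nat.sub 16384 q.P1) hi))) +
        (16384 - q.P1) *
        (emB q ats (Nat.sub a (Nat.mul q.P0 lo)) (Nat.sub b (Nat.mul q.P1 lo)))) >>> 14 := rfl

private theorem rw_p01 {q : Par} {p u : ℝ} (hq : q.P0 ≤ q.P1) (hq' : q.P1 ≤ 8192)
    (hp : 16384 * p = (1 - u) * q.P0 + u * q.P1) (h0 : 0 ≤ u) (h1 : u ≤ 1) : 0 ≤ p ∧ p ≤ 1 := by
  have e1 : (q.P0 : ℝ) ≤ q.P1 := by exact_mod_cast hq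
  have e2 : (q.P1 : ℝ) ≤ 8192 := by exact_mod_cast hq'
  have e3 : (0 : ℝ) ≤ q.P0 := Nat.cast_nonneg _
  have e4 : (q.P0 : ℝ) ≤ 16384 * p := by
    rw [hp]
    nlinarith [mul_nonneg h0 (sub_nonneg.2 e1)]
  have e5 : 16384 * p ≤ q.P1 := by
    rw [hp]
    nlinarith [mul_nonneg (sub_nonneg.2 h1) (sub_nonneg.2 e1)]
  constructor <;> linarith

theorem rowB_sound {q : Par} {tab : List (List ℕ)} (hq : q.P0 ≤ q.P1) (hq' : q.P1 ≤ 8192) {p u : ℝ}
    (hp : 16384 * p = (1 - u) * q.P0 + u * q.P1) (h0 : 0 ≤ u) (h1 : u ≤ 1) {qL qU κ : ℕ} (hκ : κ < 254) {r : List ℝ}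
    (hlf : ∀ T : ℕ, RowP (lkT tab qL qU T) ∧
      ((lane (lkT tab qL qU T) κ : ℕ) : ℝ) / 65536 ≤ Pr p r (((T : ℝ) - 1099511627776) / 16384000))
    {ats : List At} {pre : List ℝ} (hm : Mt ats pre) (a b : ℕ) :
    RowP (rowB q tab qL qU ats a b) ∧ ((lane (rowB q tab qL qU ats a b) κ : ℕ) : ℝ) / 65536 ≤
      Pr p (pre ++ r) (((1 - u) * (a : ℝ) + u * (b : ℝ) - 1099511627776) / 16384000) := by
  obtain ⟨b5, b6⟩ := rw_p01 hq hq' hp h0 h1
  have hP0 : q.P0 ≤ 16384 := by omega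
  have hP1 : q.P1 ≤ 16384 := by omega
  unfold Mt at hm
  induction hm generalizing a b with
  | nil =>
    rw [rowB_nil]
    obtain ⟨g1, g2⟩ := hlf (mx a b)
    exact ⟨g1, g2.trans (Pr_anti b5 b6 _ (rw_max h0 h1 a b))⟩
  | @cons x c ats pre hx _ ih =>
    cases x with
    | p lo hi =>
      obtain ⟨hc, hc'⟩ := hx
      rw [rowB_p]
      obtain ⟨A1, A2⟩ := ih (Nat.sub a (Nat.mul (Nat.sub 16384 q.P0) lo))
        (Nat.sub b (Nat.mul (Nat.sub 16384 q.P1) lo))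
      obtain ⟨B1, B2⟩ := ih (Nat.add a (Nat.mul q.P0 hi)) (Nat.add b (Nat.mul q.P1 hi))
      refine ⟨comb_row hP0 A1 B1, ?_⟩
      rw [comb_lane hP0 A1 B1 hκ]
      refine (rw_node hP0 A2 B2).trans ?_
      exact rw_pos hq hq' hp h0 h1 hc hc' a b (pre ++ r)
    | m lo hi =>
      obtain ⟨hc, hc'⟩ := hx
      rw [rowB_m]
      obtain ⟨A1, A2⟩ := ih (Nat.add a (Nat.mul (Nat.sub 16384 q.P0) hi))
        (Nat.add b (Nat.mul (Nat.sub 16384 q.P1) hi))
      obtain ⟨B1, B2⟩ := ih (Nat.sub a (Nat.mul q.P0 lo)) (Nat.sub b (Nat.mul q.P1 lo))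
      refine ⟨comb_row hP1 A1 B1, ?_⟩
      rw [comb_lane hP1 A1 B1 hκ]
      refine (rw_node hP1 A2 B2).trans ?_
      exact rw_neg hq hq' hp h0 h1 hc hc' a b (pre ++ r)

theorem emB_sound {q : Par} (hq : q.P0 ≤ q.P1) (hq' : q.P1 ≤ 8192) {p u : ℝ}
    (hp : 16384 * p = (1 - u) * q.P0 + u * q.P1) (h0 : 0 ≤ u) (h1 : u ≤ 1) {r : List ℝ} (hr : ∀ a ∈ r, a = 0)
    {ats : List At} {pre : List ℝ} (hm : Mt ats pre) (a b : ℕ) :
    ((emB q ats a b : ℕ) : ℝ) / 65536 ≤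
      Pr p (pre ++ r) (((1 - u) * (a : ℝ) + u * (b : ℝ) - 1099511627776) / 16384000) := by
  have hP0 : q.P0 ≤ 16384 := by omega
  have hP1 : q.P1 ≤ 16384 := by omega
  unfold Mt at hm
  induction hm generalizing a b with
  | nil =>
    rw [emB_nil, List.nil_append, Pr_zero hr]
    by_cases h : mx a b ≤ 1099511627776
    · rw [Nat.ble_eq_true_of_le h]
      have ht : ((1 - u) * (a : ℝ) + u * (b : ℝ) - 1099511627776) / 16384000 ≤ 0 := by
        refine (rw_max h0 h1 a b).trans ?_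
        refine div_nonpos_of_nonpos_of_nonneg ?_ (by norm_num)
        have h' : ((mx a b : ℕ) : ℝ) ≤ 1099511627776 := by exact_mod_cast h
        linarith
      rw [if_pos ht]
      norm_num
    · have h2 : Nat.ble (mx a b) 1099511627776 = false := by
        rw [Bool.eq_false_iff]
        intro h3
        exact h (Nat.le_of_ble_eq_true h3)
      rw [h2]
      simp only [cond_false]
      split_ifs <;> norm_num
  | @cons x c ats pre hx _ ih =>
    cases x with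
    | p lo hi =>
      obtain ⟨hc, hc'⟩ := hx
      rw [emB_p, Nat.shiftRight_eq_div_pow]
      have A2 := ih (Nat.sub a (Nat.mul (Nat.sub 16384 q.P0) lo))
        (Nat.sub b (Nat.mul (Nat.sub 16384 q.P1) lo))
      have B2 := ih (Nat.add a (Nat.mul q.P0 hi)) (Nat.add b (Nat.mul q.P1 hi))
      exact (rw_node hP0 A2 B2).trans (rw_pos hq hq' hp h0 h1 hc hc' a b (pre ++ r))
    | m lo hi =>
      obtain ⟨hc, hc'⟩ := hx
      rw [emB_m, Nat.shiftRight_eq_div_pow]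
      have A2 := ih (Nat.add a (Nat.mul (Nat.sub 16384 q.P0) hi))
        (Nat.add b (Nat.mul (Nat.sub 16384 q.P1) hi))
      have B2 := ih (Nat.sub a (Nat.mul q.P0 lo)) (Nat.sub b (Nat.mul q.P1 lo))
      exact (rw_node hP1 A2 B2).trans (rw_neg hq hq' hp h0 h1 hc hc' a b (pre ++ r))

end Pool.Agent.MMS15
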