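import Pool.Agent.MMS15.EvJ
import Pool.Agent.MMS15.LeafB
import Pool.Agent.MMS15.RowB
import Pool.Agent.MMS15.ErrS

/-!
# MMS15/EvB: soundness of the evaluation of a box

`r = h :: l` is the rest, `h ≠ 0`, `V = ss r`, `S = ss pre + V`.
`sd_bounds` (as `rb_sd` of `MMS14/RootB`): `qL = sqL (P0 (2^14 - P0) R0) ≤ 16384000 sd p r ≤ sqU (P1 (2^14 - P1) R1 + 1) = qU`: `sqL_sound`, `sqU_sound` (`MMS14/ErrS`),
`R0 ≤ 10^6 V ≤ R1` (`R1 = 1000 sb - suLo ats`), `p (1 - p)` increasing on `[0, 1/2]`.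
`evB_sound`: unfold `evB`; `rowB_sound` + `leaf_low` for the lane `κ = k` or `127 + k`; `geOk_msk2` with `max jp j0 ≤ k` resp. `max jm j0 ≤ k`; the threshold
`(2^40 + eps, 2^40 + eps)` is `eps / 16384000`; `16384 p = (1 - u) P0 + u P1` (`exists_u` in `MMS14/RootD`: `u = 0` if `P0 = P1`, else `u = (16384 p - P0)/(P1 - P0)`).
`evB_zero`: all entries of `r` are `0`: `R0 sa ats = 0` (`10^6 V = 0`), `qL = sqL 0 = 0` (`sqL_sound`: `(sqL n)² ≤ n`),
`jmax 0 (last * last) Su` is `0` if `last > 0` and `126` if `last = 0`, so lane `κ = 0` resp. `126` of the first half is checked; `leaf_zero`.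
-/

set_option autoImplicit false

namespace Pool.Agent.MMS15

open Pool.Agent.MMS14

private theorem eb_exists_u {q : Par} (hq : q.P0 ≤ q.P1) {p : ℝ} (hp0 : (q.P0 : ℝ) / 16384 ≤ p)
    (hp1 : p ≤ (q.P1 : ℝ) / 16384) :
    ∃ u : ℝ, 16384 * p = (1 - u) * q.P0 + u * q.P1 ∧ 0 ≤ u ∧ u ≤ 1 := by
  rw [div_le_iff₀ (by norm_num)] at hp0
  rw [le_div_iff₀ (by norm_num)] at hp1
  rcases hq.eq_or_lt with h | h
  · refine ⟨0, ?_, le_rfl, zero_le_one⟩
    rw [← h] at hp1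
    linarith
  · have hlt : (q.P0 : ℝ) < q.P1 := by exact_mod_cast h
    have hd : (0 : ℝ) < (q.P1 : ℝ) - q.P0 := by linarith
    refine ⟨(16384 * p - q.P0) / ((q.P1 : ℝ) - q.P0), ?_, ?_, ?_⟩
    · have h3 : (16384 * p - q.P0) / ((q.P1 : ℝ) - q.P0) * ((q.P1 : ℝ) - q.P0) =
          16384 * p - q.P0 := div_mul_cancel₀ _ hd.ne'
      linear_combination -h3
    · exact div_nonneg (by linarith) hd.le
    · rw [div_le_one hd]
      linarith

private theorem eb_par {q : Par} (hpar : parOk q = true) : q.P0 ≤ q.P1 ∧ q.P1 ≤ 8192 := by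
  unfold parOk at hpar
  rw [et_true, et_true, et_true] at hpar
  obtain ⟨_, h2, h3, _⟩ := hpar
  exact ⟨Nat.le_of_ble_eq_true h2, Nat.le_of_ble_eq_true h3⟩

private theorem eb_half {q : Par} (hq' : q.P1 ≤ 8192) {p : ℝ} (hp1 : p ≤ (q.P1 : ℝ) / 16384) : p ≤ 1 / 2 := by
  have h1 : (q.P1 : ℝ) ≤ 8192 := by exact_mod_cast hq'
  linarith

private theorem eb_suLo_p (lo hi : ℕ) (ats : List At) : suLo (At.p lo hi :: ats) = suLo ats + lo * lo := rfl
private theorem eb_suLo_m (lo hi : ℕ) (ats : List At) : suLo (At.m lo hi :: ats) = suLo ats + lo * lo := rfl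

private theorem eb_suLo {ats : List At} {pre : List ℝ} (hm : Mt ats pre) :
    ((suLo ats : ℕ) : ℝ) ≤ 1000000 * ss pre := by
  unfold Mt at hm
  induction hm with
  | nil =>
    have h : suLo [] = 0 := rfl
    rw [h, ss_nil]
    norm_num
  | @cons x c ats pre hx _ ih =>
    have key : ∀ (lo : ℕ) (y : ℝ), (lo : ℝ) / 1000 ≤ y → ((lo : ℝ) * lo) ≤ 1000000 * y ^ 2 := by
      intro lo y hy
      have h0 : (0 : ℝ) ≤ (lo : ℝ) / 1000 := by positivity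
      have h1 : ((lo : ℝ) / 1000) ^ 2 ≤ y ^ 2 := pow_le_pow_left₀ h0 hy 2
      have h2 : ((lo : ℝ) * lo) = 1000000 * ((lo : ℝ) / 1000) ^ 2 := by ring
      rw [h2]
      linarith
    cases x with
    | p lo hi =>
      obtain ⟨hc, _⟩ := hx
      rw [eb_suLo_p, ss_cons]
      have h1 := key lo c hc
      push_cast
      linarith
    | m lo hi =>
      obtain ⟨hc, _⟩ := hx
      rw [eb_suLo_m, ss_cons]
      have h1 := key lo (-c) hc
      have h2 : (-c) ^ 2 = c ^ 2 := by ring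
      rw [h2] at h1
      push_cast
      linarith

private theorem eb_R1 {sb : ℕ} {ats : List At} {pre r : List ℝ} (hm : Mt ats pre)
    (hS1 : 1000 * (ss pre + ss r) ≤ (sb : ℝ)) : 1000000 * ss r ≤ ((R1 sb ats : ℕ) : ℝ) := by
  have h1 := eb_suLo hm
  have h2 : R1 sb ats = 1000 * sb - suLo ats := rfl
  have h3 : (0 : ℝ) ≤ ss r := ss_nonneg r
  have h4 : ((suLo ats : ℕ) : ℝ) ≤ ((1000 * sb : ℕ) : ℝ) := by
    push_cast
    nlinarith
  have h5 : suLo ats ≤ 1000 * sb := by exact_mod_cast h4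
  rw [h2, Nat.cast_sub h5]
  push_cast
  linarith

private theorem eb_sd {q : Par} {p : ℝ} (ha : (q.P0 : ℝ) / 16384 ≤ p) (hb : p ≤ (q.P1 : ℝ) / 16384)
    (hq' : q.P1 ≤ 8192) (hq : q.P0 ≤ q.P1) {l : List ℝ} {R0 R1 : ℕ}
    (hR0 : (R0 : ℝ) ≤ 1000000 * ss l) (hR1 : 1000000 * ss l ≤ (R1 : ℝ)) :
    ((sqL (Nat.mul (Nat.mul q.P0 (Nat.sub 16384 q.P0)) R0) : ℕ) : ℝ) ≤ 16384000 * sd p l ∧
      16384000 * sd p l ≤ ((sqU (Nat.succ (Nat.mul (Nat.mul q.P1 (Nat.sub 16384 q.P1)) R1)) : ℕ) : ℝ) := by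
  have e1 : (q.P0 : ℝ) ≤ q.P1 := by exact_mod_cast hq
  have e2 : (q.P1 : ℝ) ≤ 8192 := by exact_mod_cast hq'
  have e0 : (0 : ℝ) ≤ (q.P0 : ℝ) := Nat.cast_nonneg _
  rw [div_le_iff₀ (by norm_num)] at ha
  rw [le_div_iff₀ (by norm_num)] at hb
  have hV := ss_nonneg l
  have hp0 : 0 ≤ p := by linarith
  have hp1 : p ≤ 1 / 2 := by linarith
  have hsd : (16384000 * sd p l) ^ 2 = 268435456 * (p * (1 - p)) * (1000000 * ss l) := by
    unfold sd
    rw [mul_pow, Real.sq_sqrt (mul_nonneg (mul_nonneg hp0 (by linarith)) hV)]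
    ring
  have hsd0 : 0 ≤ 16384000 * sd p l := by unfold sd; positivity
  constructor
  · apply abs_le_of_sq_le_sq' _ hsd0 |>.2
    rw [hsd]
    have h1 := sqL_sound (Nat.mul (Nat.mul q.P0 (Nat.sub 16384 q.P0)) R0)
    have h2 : ((sqL (Nat.mul (Nat.mul q.P0 (Nat.sub 16384 q.P0)) R0) : ℕ) : ℝ) ^ 2 ≤
        (((q.P0 * (16384 - q.P0)) * R0 : ℕ) : ℝ) := by exact_mod_cast h1
    refine h2.trans ?_
    rw [Nat.cast_mul, Nat.cast_mul, Nat.cast_sub (by omega)]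
    push_cast
    have h3 : (q.P0 : ℝ) * (16384 - q.P0) ≤ 268435456 * (p * (1 - p)) := by nlinarith
    have h4 : (0 : ℝ) ≤ (q.P0 : ℝ) * (16384 - q.P0) := mul_nonneg e0 (by linarith)
    exact mul_le_mul h3 hR0 (Nat.cast_nonneg _) (h4.trans h3)
  · apply abs_le_of_sq_le_sq' _ (Nat.cast_nonneg _) |>.2
    rw [hsd]
    have h1 := sqU_sound (Nat.succ (Nat.mul (Nat.mul q.P1 (Nat.sub 16384 q.P1)) R1))
    have h2 : ((((q.P1 * (16384 - q.P1)) * R1 + 1 : ℕ)) : ℝ) ≤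
        ((sqU (Nat.succ (Nat.mul (Nat.mul q.P1 (Nat.sub 16384 q.P1)) R1)) : ℕ) : ℝ) ^ 2 := by
      exact_mod_cast h1
    refine le_trans ?_ h2
    rw [Nat.cast_add, Nat.cast_mul, Nat.cast_mul, Nat.cast_sub (by omega)]
    push_cast
    have h3 : 268435456 * (p * (1 - p)) ≤ (q.P1 : ℝ) * (16384 - q.P1) := by nlinarith
    have h4 : (0 : ℝ) ≤ 268435456 * (p * (1 - p)) := by
      have : 0 ≤ p * (1 - p) := mul_nonneg hp0 (by linarith)
      positivity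
    have h5 : 268435456 * (p * (1 - p)) * (1000000 * ss l) ≤ (q.P1 : ℝ) * (16384 - q.P1) * R1 :=
      mul_le_mul h3 hR1 (by positivity) (h4.trans h3)
    linarith

private theorem eb_evB (q : Par) (tab : List (List ℕ)) (tgt eps : ℕ) (ats : List At) (sa sb jp jm : ℕ) :
    evB q tab tgt eps ats sa sb jp jm =
      geOk (rowB q tab (sqL (Nat.mul (Nat.mul q.P0 (Nat.sub 16384 q.P0)) (R0 sa ats)))
        (sqU (Nat.succ (Nat.mul (Nat.mul q.P1 (Nat.sub 16384 q.P1)) (R1 sb ats)))) ats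
        (Nat.add 1099511627776 eps) (Nat.add 1099511627776 eps)) tgt
        (msk2 (mx jp (j0 sa ats)) (mx jm (j0 sa ats)))
        (Nat.mul (msk2 (mx jp (j0 sa ats)) (mx jm (j0 sa ats))) 2147483648) := rfl

private theorem eb_val (u : ℝ) (eps : ℕ) :
    ((1 - u) * ((Nat.add 1099511627776 eps : ℕ) : ℝ) + u * ((Nat.add 1099511627776 eps : ℕ) : ℝ) -
      1099511627776) / 16384000 = (eps : ℝ) / 16384000 := by
  have h3 : ((Nat.add 1099511627776 eps : ℕ) : ℝ) = 1099511627776 + (eps : ℝ) := by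
    change ((1099511627776 + eps : ℕ) : ℝ) = _
    push_cast
    ring
  rw [h3]
  ring

private theorem eb_jmax_cons (R L2 a : ℕ) (su : List ℕ) :
    jmax R L2 (a :: su) = cond (Nat.ble (Nat.mul a L2) R) (Nat.succ (jmax R L2 su)) 0 := rfl

private theorem eb_jmax (R L2 : ℕ) (su : List ℕ) : jmax R L2 su ≤ su.length := by
  induction su with
  | nil => exact Nat.zero_le _
  | cons a su ih =>
    rw [eb_jmax_cons, List.length_cons]
    cases Nat.ble (Nat.mul a L2) R with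
    | true => exact Nat.succ_le_succ ih
    | false => exact Nat.zero_le _

private theorem eb_ss_zero {r : List ℝ} (hr : ∀ a ∈ r, a = 0) : ss r = 0 := by
  induction r with
  | nil => exact ss_nil
  | cons a l ih =>
    rw [ss_cons, hr a List.mem_cons_self, ih fun b hb => hr b (List.mem_cons_of_mem _ hb)]
    norm_num

theorem evB_sound {q : Par} {rows : List ℕ} {tab : List (List ℕ)} (hpar : parOk q = true) (hlen : rows.length = 701)
    (hrow : ∀ r, RowP (rowv rows r)) (hG : Good q.P0 q.P1 rows) (hlook : lookOk tab rows 0 = true)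
    {p : ℝ} (hp0 : (q.P0 : ℝ) / 16384 ≤ p) (hp1 : p ≤ (q.P1 : ℝ) / 16384) (hp5 : 1 / 5 ≤ p)
    {tgt eps sa sb jp jm : ℕ} (htgt : tgt ≤ 65536) {ats : List At} (hne : ats ≠ [])
    (he : evB q tab tgt eps ats sa sb jp jm = true) {pre : List ℝ} (hm : Mt ats pre) {h : ℝ} {l : List ℝ}
    (hpre : Pre pre (h :: l)) (hh : h ≠ 0) (hS0 : (sa : ℝ) ≤ 1000 * (ss pre + ss (h :: l)))
    (hS1 : 1000 * (ss pre + ss (h :: l)) ≤ (sb : ℝ)) {k : ℕ} (hk : InC k (ss (h :: l) / h ^ 2)) (hjk : j0 sa ats ≤ k)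
    (hj : (0 < h ∧ jp ≤ k) ∨ (h < 0 ∧ jm ≤ k)) :
    (tgt : ℝ) / 65536 ≤ Pr p (pre ++ h :: l) ((eps : ℝ) / 16384000) := by
  obtain ⟨hq, hq'⟩ := eb_par hpar
  have hhalf := eb_half hq' hp1
  obtain ⟨u, hu, hu0, hu1⟩ := eb_exists_u hq hp0 hp1
  have hk126 : k ≤ 126 := hk.1
  have hR0 := R0_le hm hS0
  have hR1 := eb_R1 hm hS1
  obtain ⟨hqL, hqU⟩ := eb_sd hp0 hp1 hq' hq hR0 hR1
  rw [eb_evB] at he
  obtain ⟨κ, hκ, hκ2, hj'⟩ : ∃ κ, κ < 254 ∧ ((0 < h ∧ κ = k) ∨ (h < 0 ∧ κ = 127 + k)) ∧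
      ((κ = k ∧ jp ≤ k) ∨ (κ = 127 + k ∧ jm ≤ k)) := by
    rcases hj with ⟨h1, h2⟩ | ⟨h1, h2⟩
    · exact ⟨k, by omega, Or.inl ⟨h1, rfl⟩, Or.inl ⟨rfl, h2⟩⟩
    · exact ⟨127 + k, by omega, Or.inr ⟨h1, rfl⟩, Or.inr ⟨rfl, h2⟩⟩
  obtain ⟨hA, hB⟩ := rowB_sound (tab := tab) hq hq' hu hu0 hu1 hκ
    (fun T => leaf_low hlen hrow hG hlook hp0 hp1 hp5 hhalf hpre.2.1 hk hκ2 hqL hqU T) hm
    (Nat.add 1099511627776 eps) (Nat.add 1099511627776 eps)
  rw [eb_val] at hB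
  have hge := geOk_msk2 (by omega) hA.1 (fun k hk => lt_trans (hA.2 k hk) (by norm_num)) he k hk126
  have hle : tgt ≤ lane (rowB q tab (sqL (Nat.mul (Nat.mul q.P0 (Nat.sub 16384 q.P0)) (R0 sa ats)))
        (sqU (Nat.succ (Nat.mul (Nat.mul q.P1 (Nat.sub 16384 q.P1)) (R1 sb ats)))) ats
        (Nat.add 1099511627776 eps) (Nat.add 1099511627776 eps)) κ := by
    rcases hj' with ⟨e, h2⟩ | ⟨e, h2⟩
    · rw [e]
      refine hge.1 ?_
      rw [mx_eq]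
      exact max_le h2 hjk
    · rw [e]
      refine hge.2 ?_
      rw [mx_eq]
      exact max_le h2 hjk
  refine le_trans ?_ hB
  have h5 : (tgt : ℝ) ≤ ((lane (rowB q tab (sqL (Nat.mul (Nat.mul q.P0 (Nat.sub 16384 q.P0)) (R0 sa ats)))
        (sqU (Nat.succ (Nat.mul (Nat.mul q.P1 (Nat.sub 16384 q.P1)) (R1 sb ats)))) ats
        (Nat.add 1099511627776 eps) (Nat.add 1099511627776 eps)) κ : ℕ) : ℝ) := by
    exact_mod_cast hle
  exact div_le_div_of_nonneg_right h5 (by norm_num)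

theorem evB_zero {q : Par} {rows : List ℕ} {tab : List (List ℕ)} (hpar : parOk q = true) (hlen : rows.length = 701)
    (hrow : ∀ r, RowP (rowv rows r)) (hG : Good q.P0 q.P1 rows) (hlook : lookOk tab rows 0 = true)
    {p : ℝ} (hp0 : (q.P0 : ℝ) / 16384 ≤ p) (hp1 : p ≤ (q.P1 : ℝ) / 16384) (hp5 : 1 / 5 ≤ p)
    {tgt eps sa sb : ℕ} (htgt : tgt ≤ 65536) {ats : List At}
    (he : evB q tab tgt eps ats sa sb 0 0 = true) {pre r : List ℝ} (hm : Mt ats pre) (hr : ∀ a ∈ r, a = 0)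
    (hS0 : (sa : ℝ) ≤ 1000 * (ss pre + ss r)) :
    (tgt : ℝ) / 65536 ≤ Pr p (pre ++ r) ((eps : ℝ) / 16384000) := by
  obtain ⟨hq, hq'⟩ := eb_par hpar
  have hhalf := eb_half hq' hp1
  obtain ⟨u, hu, hu0, hu1⟩ := eb_exists_u hq hp0 hp1
  have hR := R0_le hm hS0
  have hR0 : R0 sa ats = 0 := by
    rw [eb_ss_zero hr, mul_zero] at hR
    exact_mod_cast le_antisymm hR (Nat.cast_nonneg _)
  have hqL : sqL (Nat.mul (Nat.mul q.P0 (Nat.sub 16384 q.P0)) (R0 sa ats)) = 0 := by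
    have h2 := sqL_sound (Nat.mul (Nat.mul q.P0 (Nat.sub 16384 q.P0)) (R0 sa ats))
    have h3 : Nat.mul (Nat.mul q.P0 (Nat.sub 16384 q.P0)) (R0 sa ats) = 0 := by
      rw [hR0]
      exact Nat.mul_zero _
    rw [h3] at h2 ⊢
    have h4 : sqL 0 ^ 2 = 0 := Nat.le_zero.1 h2
    exact pow_eq_zero_iff (by norm_num) |>.1 h4
  have hj : j0 sa ats ≤ 126 := by
    have h1 := eb_jmax (Nat.mul (R0 sa ats) 1000000) (Nat.mul (lastHi ats) (lastHi ats)) Su
    rw [Su_length] at h1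
    exact h1
  rw [eb_evB, hqL] at he
  obtain ⟨hA, hB⟩ := rowB_sound (tab := tab) (κ := 126) hq hq' hu hu0 hu1 (by norm_num)
    (fun T => leaf_zero hlen hrow hG hlook hp0 hp1 hp5 hhalf hr (Or.inr rfl)
      (sqU (Nat.succ (Nat.mul (Nat.mul q.P1 (Nat.sub 16384 q.P1)) (R1 sb ats)))) T) hm
    (Nat.add 1099511627776 eps) (Nat.add 1099511627776 eps)
  rw [eb_val] at hB
  have hge := (geOk_msk2 (by omega) hA.1 (fun k hk => lt_trans (hA.2 k hk) (by norm_num)) he 126 le_rfl).1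
    (by rw [mx_eq]; exact max_le (Nat.zero_le _) hj)
  refine le_trans ?_ hB
  have h5 : (tgt : ℝ) ≤ ((lane (rowB q tab 0
        (sqU (Nat.succ (Nat.mul (Nat.mul q.P1 (Nat.sub 16384 q.P1)) (R1 sb ats)))) ats
        (Nat.add 1099511627776 eps) (Nat.add 1099511627776 eps)) 126 : ℕ) : ℝ) := by
    exact_mod_cast hge
  exact div_le_div_of_nonneg_right h5 (by norm_num)

end Pool.Agent.MMS15
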