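import Pool.Agent.MMS15.BoxD
import Pool.Agent.MMS15.Cover

/-!
# MMS15/EvJ: the smallest cell of the rest of a box

`r = h :: l` is the rest, `h ≠ 0`, `V = ss r`, `S = ss pre + V`.
`j0_sound`: `R0 sa ats = 1000 sa - suHi ats ≤ 10^6 V` (truncated: `V ≥ 0`) because `10^6 S ≥ 1000 sa` and `10^6 ss pre ≤ suHi ats` (`Fit`: `|x| ≤ hi/1000`);
`j = jmax (R0 * 10^6) (last * last) Su` is the number of first entries `a` of `Su` with `a last² ≤ 10^6 R0`; for `j ≥ 1`:
`10^6 Sc j ≤ Su_j` (`Su_sound`), so `Sc j ≤ R0 / last² ≤ V / h²` because `|h| ≤ last / 1000` (`Pre`, the head of `pre` is the last atom; `ats ≠ []`).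
`j = 0`: `Sc 0 = 1 ≤ V / h²`.  If `last = 0` then `h = 0`, impossible.  (Compare `MMS14/RootB`: `rb_jmax`, `rb_cell`.)
-/

set_option autoImplicit false

namespace Pool.Agent.MMS15

open Pool.Agent.MMS14

private theorem ej_jmax_cons (R L2 a : ℕ) (su : List ℕ) :
    Pool.Agent.MMS15.jmax R L2 (a :: su) = cond (Nat.ble (Nat.mul a L2) R) (Nat.succ (Pool.Agent.MMS15.jmax R L2 su)) 0 := rfl

private theorem ej_jmax (R L2 : ℕ) : ∀ su : List ℕ, Pool.Agent.MMS15.jmax R L2 su ≤ su.length ∧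
    ∀ i, i < Pool.Agent.MMS15.jmax R L2 su → su.getD i 0 * L2 ≤ R
  | [] => ⟨le_rfl, fun i hi => absurd hi (Nat.not_lt_zero i)⟩
  | a :: su => by
    obtain ⟨h1, h2⟩ := ej_jmax R L2 su
    rw [ej_jmax_cons]
    cases hc : Nat.ble (Nat.mul a L2) R with
    | false => exact ⟨Nat.zero_le _, fun i hi => absurd hi (Nat.not_lt_zero i)⟩
    | true =>
      have hle : a * L2 ≤ R := Nat.le_of_ble_eq_true hc
      refine ⟨Nat.succ_le_succ h1, ?_⟩
      intro i hi
      cases i with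
      | zero => simpa using hle
      | succ i =>
        have := h2 i (Nat.lt_of_succ_lt_succ hi)
        simpa using this

private theorem ss_cons' (h : ℝ) (l : List ℝ) : ss (h :: l) = h ^ 2 + ss l := by
  simp [ss]

private theorem ss_nonneg' (l : List ℝ) : 0 ≤ ss l := by
  unfold ss
  refine List.sum_nonneg ?_
  intro x hx
  obtain ⟨a, _, rfl⟩ := List.mem_map.1 hx
  positivity

private theorem ej_fit {a : At} {x : ℝ} (h : Fit a x) : |x| ≤ (a.hi : ℝ) / 1000 := by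
  cases a with
  | p lo hi =>
    obtain ⟨h1, h2⟩ := h
    have h3 : (0 : ℝ) ≤ (lo : ℝ) / 1000 := by positivity
    rw [abs_of_nonneg (h3.trans h1)]
    exact h2
  | m lo hi =>
    obtain ⟨h1, h2⟩ := h
    have h3 : (0 : ℝ) ≤ (lo : ℝ) / 1000 := by positivity
    rw [← abs_neg, abs_of_nonneg (h3.trans h1)]
    exact h2

private theorem ej_sq {x : ℝ} {c : ℕ} (h : |x| ≤ (c : ℝ) / 1000) :
    x ^ 2 * 1000000 ≤ (c : ℝ) * c := by
  have h7 : |x| ^ 2 ≤ ((c : ℝ) / 1000) ^ 2 := by gcongr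
  rw [sq_abs] at h7
  have h8 : ((c : ℝ) / 1000) ^ 2 * 1000000 = (c : ℝ) * c := by ring
  linarith

private theorem ej_suHi {ats : List At} {pre : List ℝ} (hm : Mt ats pre) :
    1000000 * ss pre ≤ ((suHi ats : ℕ) : ℝ) := by
  unfold Mt at hm
  induction hm with
  | nil => simp [ss, suHi]
  | @cons a x ats pre h _ ih =>
    have h1 : suHi (a :: ats) = suHi ats + a.hi * a.hi := rfl
    rw [h1, ss_cons']
    push_cast
    have := ej_sq (ej_fit h)
    linarith

private theorem R0_le_aux {sa : ℕ} {ats : List At} {pre r : List ℝ} (hm : Mt ats pre) (hS0 : (sa : ℝ) ≤ 1000 * (ss pre + ss r)) :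
    ((R0 sa ats : ℕ) : ℝ) ≤ 1000000 * ss r := by
  have h1 := ej_suHi hm
  have h2 : R0 sa ats = 1000 * sa - suHi ats := rfl
  rcases le_total (1000 * sa) (suHi ats) with h | h
  · rw [h2, Nat.sub_eq_zero_of_le h, Nat.cast_zero]
    have := ss_nonneg' r
    positivity
  · rw [h2, Nat.cast_sub h]
    push_cast
    linarith

theorem j0_sound {sa : ℕ} {ats : List At} (hne : ats ≠ []) {pre : List ℝ} (hm : Mt ats pre) {h : ℝ} {l : List ℝ}
    (hpre : Pre pre (h :: l)) (hh : h ≠ 0) (hS0 : (sa : ℝ) ≤ 1000 * (ss pre + ss (h :: l))) :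
    j0 sa ats ≤ 126 ∧ Sc (j0 sa ats) ≤ ss (h :: l) / h ^ 2 := by
  have hR0 := R0_le_aux hm hS0
  have hlast : |h| ≤ ((lastHi ats : ℕ) : ℝ) / 1000 := by
    unfold Mt at hm
    cases hm with
    | nil => exact absurd rfl hne
    | @cons a x ats pre h1 h2 =>
      have h3 : lastHi (a :: ats) = a.hi := rfl
      rw [h3]
      exact (hpre.2.2 x (by simp) h (by simp)).trans (ej_fit h1)
  have hj0 : j0 sa ats = Pool.Agent.MMS15.jmax (R0 sa ats * 1000000) (lastHi ats * lastHi ats) Su := rfl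
  rw [hj0]
  obtain ⟨h1, h2⟩ := ej_jmax (R0 sa ats * 1000000) (lastHi ats * lastHi ats) Su
  rw [Su_length] at h1
  refine ⟨h1, ?_⟩
  generalize lastHi ats = last at *
  generalize R0 sa ats = R at *
  set j := Pool.Agent.MMS15.jmax (R * 1000000) (last * last) Su with hj
  have hh2 : 0 < h ^ 2 := by positivity
  rw [le_div_iff₀ hh2]
  have hV : h ^ 2 ≤ ss (h :: l) := by
    rw [ss_cons']
    linarith [ss_nonneg' l]
  rcases Nat.eq_zero_or_pos j with h0 | h0
  · rw [h0, Sc_zero, one_mul]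
    exact hV
  · have h3 := h2 (j - 1) (by omega)
    have h4 := Su_sound (k := j) h0 h1
    have h5 : ((Su.getD (j - 1) 0 : ℕ) : ℝ) * ((last : ℝ) * last) ≤ (R : ℝ) * 1000000 := by
      exact_mod_cast h3
    have h6 : h ^ 2 * 1000000 ≤ (last : ℝ) * last := ej_sq hlast
    have hl0 : (0 : ℝ) ≤ (last : ℝ) * last := by positivity
    have hSc : 0 ≤ Sc j := by unfold Sc; positivity
    have h9 : 1000000 * Sc j * ((last : ℝ) * last) ≤ 1000000 * ss (h :: l) * 1000000 := by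
      calc 1000000 * Sc j * ((last : ℝ) * last)
          ≤ ((Su.getD (j - 1) 0 : ℕ) : ℝ) * ((last : ℝ) * last) := by gcongr
        _ ≤ (R : ℝ) * 1000000 := h5
        _ ≤ _ := by gcongr
    have h10 : 1000000 * Sc j * (h ^ 2 * 1000000) ≤ 1000000 * Sc j * ((last : ℝ) * last) := by
      gcongr
    nlinarith

theorem R0_le {sa : ℕ} {ats : List At} {pre r : List ℝ} (hm : Mt ats pre) (hS0 : (sa : ℝ) ≤ 1000 * (ss pre + ss r)) :
    ((R0 sa ats : ℕ) : ℝ) ≤ 1000000 * ss r := R0_le_aux hm hS0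

end Pool.Agent.MMS15
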