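import Mathlib

/-!
# MMS15/LowV: the extremal vector (lower bound)

`x i = 3` for `i < n - 3` and `x i = -(n - 3)` for the last three indices: the sum is `3 (n - 3) - 3 (n - 3) = 0`.  A `k`-set with `j ≥ 1` of the last three indices has sum
`3 (k - j) - j (n - 3) = 3 k - j n ≤ 3 k - n < 0`; so the `k`-sets with nonnegative sum are the `k`-subsets of the first `n - 3` indices, `C(n-3, k)` of them.
-/

set_option autoImplicit false

namespace Pool.Agent.MMS15

theorem low_vec_card {n : ℕ} (hn : 3 ≤ n) :
    ((Finset.univ : Finset (Fin n)).filter (fun i => i.val < n - 3)).card = n - 3 := by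
  have h : ((Finset.univ : Finset (Fin n)).filter (fun i => i.val < n - 3)).card
      = (Finset.range (n - 3)).card := by
    refine Finset.card_bij (fun i _ => i.val) ?_ ?_ ?_
    · intro a ha
      simp only [Finset.mem_filter, Finset.mem_univ, true_and] at ha
      simpa using ha
    · intro a _ b _ hab
      exact Fin.ext hab
    · intro b hb
      have hb' : b < n - 3 := by simpa using hb
      exact ⟨⟨b, by omega⟩, by simpa using hb', rfl⟩
  rw [h, Finset.card_range]

theorem low_vec {n k : ℕ} (hk : 1 ≤ k) (hn : 3 * k < n) (h : (n - 3).choose k < (n - 1).choose (k - 1)) :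
    ∃ x : Fin n → ℝ, 0 ≤ ∑ i, x i ∧
      (((Finset.univ : Finset (Fin n)).powersetCard k).filter (fun s => 0 ≤ ∑ i ∈ s, x i)).card < (n - 1).choose (k - 1) := by
  classical
  have hn3 : 3 ≤ n := by omega
  set A : Finset (Fin n) := (Finset.univ : Finset (Fin n)).filter (fun i => i.val < n - 3) with hA
  have hAc : A.card = n - 3 := low_vec_card hn3
  have hBc : ((Finset.univ : Finset (Fin n)).filter (fun i => ¬ i.val < n - 3)).card = 3 := by
    have h1 := Finset.card_filter_add_card_filter_not (s := (Finset.univ : Finset (Fin n)))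
      (fun i => i.val < n - 3)
    rw [← hA, hAc, Finset.card_univ, Fintype.card_fin] at h1
    omega
  let x : Fin n → ℝ := fun i => if i.val < n - 3 then 3 else -((n : ℝ) - 3)
  have hsum : ∀ s : Finset (Fin n), ∑ i ∈ s, x i
      = 3 * ((s.filter (fun i => i.val < n - 3)).card : ℝ)
        - ((n : ℝ) - 3) * ((s.filter (fun i => ¬ i.val < n - 3)).card : ℝ) := by
    intro s
    have h1 : ∑ i ∈ s, x i = ∑ i ∈ s.filter (fun i => i.val < n - 3), x i
        + ∑ i ∈ s.filter (fun i => ¬ i.val < n - 3), x i :=
      (Finset.sum_filter_add_sum_filter_not s _ _).symm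
    have h2 : ∑ i ∈ s.filter (fun i => i.val < n - 3), x i
        = ∑ i ∈ s.filter (fun i => i.val < n - 3), (3 : ℝ) := by
      refine Finset.sum_congr rfl ?_
      intro i hi
      have := (Finset.mem_filter.1 hi).2
      simp [x, this]
    have h3 : ∑ i ∈ s.filter (fun i => ¬ i.val < n - 3), x i
        = ∑ i ∈ s.filter (fun i => ¬ i.val < n - 3), (-((n : ℝ) - 3)) := by
      refine Finset.sum_congr rfl ?_
      intro i hi
      have := (Finset.mem_filter.1 hi).2
      simp only [x]
      rw [if_neg this]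
    rw [h1, h2, h3, Finset.sum_const, Finset.sum_const, nsmul_eq_mul, nsmul_eq_mul]
    ring
  have hn3R : ((n - 3 : ℕ) : ℝ) = (n : ℝ) - 3 := by
    rw [Nat.cast_sub hn3]; norm_num
  refine ⟨x, ?_, ?_⟩
  · rw [hsum, ← hA, hAc, hBc, hn3R]
    have : 3 * ((n : ℝ) - 3) - ((n : ℝ) - 3) * ((3 : ℕ) : ℝ) = 0 := by push_cast; ring
    rw [this]
  · refine lt_of_le_of_lt ?_ h
    have hsub : ((Finset.univ : Finset (Fin n)).powersetCard k).filter (fun s => 0 ≤ ∑ i ∈ s, x i)
        ⊆ A.powersetCard k := by
      intro s hs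
      obtain ⟨hs1, hs2⟩ := Finset.mem_filter.1 hs
      have hcard : s.card = k := (Finset.mem_powersetCard.1 hs1).2
      rw [Finset.mem_powersetCard]
      refine ⟨?_, hcard⟩
      intro i hi
      rw [hA, Finset.mem_filter]
      refine ⟨Finset.mem_univ _, ?_⟩
      by_contra hcon
      have hj : 1 ≤ (s.filter (fun i => ¬ i.val < n - 3)).card := by
        rw [Nat.one_le_iff_ne_zero, ← Nat.pos_iff_ne_zero]
        exact Finset.card_pos.2 ⟨i, Finset.mem_filter.2 ⟨hi, hcon⟩⟩
      have hadd := Finset.card_filter_add_card_filter_not (s := s) (fun i => i.val < n - 3)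
      rw [hcard] at hadd
      rw [hsum] at hs2
      have hj' : (1 : ℝ) ≤ ((s.filter (fun i => ¬ i.val < n - 3)).card : ℝ) := by exact_mod_cast hj
      have hadd' : ((s.filter (fun i => i.val < n - 3)).card : ℝ)
          + ((s.filter (fun i => ¬ i.val < n - 3)).card : ℝ) = (k : ℝ) := by exact_mod_cast hadd
      have hnk : 3 * (k : ℝ) < (n : ℝ) := by exact_mod_cast hn
      have hn0 : (0 : ℝ) ≤ (n : ℝ) := Nat.cast_nonneg n
      nlinarith
    calc (((Finset.univ : Finset (Fin n)).powersetCard k).filter (fun s => 0 ≤ ∑ i ∈ s, x i)).card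
        ≤ (A.powersetCard k).card := Finset.card_le_card hsub
      _ = (n - 3).choose k := by rw [Finset.card_powersetCard, hAc]

end Pool.Agent.MMS15
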