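import Pool.Agent.MMS15.Win
import Pool.Agent.MMS15.LowV
import Pool.Agent.MMS14.Fin4

/-!
# MMS15/Main15: the exact threshold

Let `B = {N | k ≤ N ∧ C(N-1,k-1) ≤ C(N-3,k)}`, `N = sInf B`; `4 k ∈ B` (`nk_four`), so `N ∈ B` (`Nat.sInf_mem`).  Every `n ≥ N` is in the first set: `n ≥ 4 k` by `mms_four` (`MMS14/Fin4`),
`n < 4 k` by `window15` (`nk_mono`).  If `m` is in the first set and `m < N`, then the inequality holds for `n = N - 1`, but `n ∉ B` (`Nat.notMem_of_lt_sInf`), `n ≥ k`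
(`nk_ge`: `N ≥ k + 3`), so `C(n-3,k) < C(n-1,k-1)` and `3 k < n` (`nk_bounds`: `3 k + 2 ≤ N`): `low_vec` contradicts it.  (`Nat.sInf_le`, `le_csInf` / `Nat.sInf_mem`.)
-/

set_option autoImplicit false

namespace Pool.Agent.MMS15

theorem main15 (hS : StarP (1 / 4) 0.31768) (hN : NonP (1 / 4) 0.31768) {k : ℕ} (hk : 10 ^ 26 ≤ k) :
    sInf {m : ℕ | ∀ n : ℕ, m ≤ n → ∀ x : Fin n → ℝ, 0 ≤ ∑ i, x i → (n - 1).choose (k - 1) ≤
      (((Finset.univ : Finset (Fin n)).powersetCard k).filter (fun s => 0 ≤ ∑ i ∈ s, x i)).card} =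
    sInf {N : ℕ | k ≤ N ∧ (N - 1).choose (k - 1) ≤ (N - 3).choose k} := by
  have hk3 : 3 ≤ k := le_trans (by norm_num) hk
  have hk1 : 1 ≤ k := le_trans (by norm_num) hk
  have hk20 : 10 ^ 20 ≤ k := le_trans (by norm_num) hk
  obtain ⟨B, hB⟩ : ∃ B : Set ℕ, B = {N : ℕ | k ≤ N ∧ (N - 1).choose (k - 1) ≤ (N - 3).choose k} :=
    ⟨_, rfl⟩
  obtain ⟨A, hA⟩ : ∃ A : Set ℕ, A = {m : ℕ | ∀ n : ℕ, m ≤ n → ∀ x : Fin n → ℝ, 0 ≤ ∑ i, x i →
      (n - 1).choose (k - 1) ≤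
      (((Finset.univ : Finset (Fin n)).powersetCard k).filter (fun s => 0 ≤ ∑ i ∈ s, x i)).card} :=
    ⟨_, rfl⟩
  rw [← hA, ← hB]
  have hne : B.Nonempty := ⟨4 * k, by
    rw [hB]
    exact ⟨by omega, nk_four hk3⟩⟩
  have hmem : sInf B ∈ B := Nat.sInf_mem hne
  have hmem' : k ≤ sInf B ∧ (sInf B - 1).choose (k - 1) ≤ (sInf B - 3).choose k := by
    have h := hmem
    rw [hB] at h
    rw [hB]
    exact h
  have hle4 : sInf B ∈ A := by
    rw [hA]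
    intro n hn x hx
    have hkn : k ≤ n := hmem'.1.trans hn
    have hNk : (n - 1).choose (k - 1) ≤ (n - 3).choose k := nk_mono hk1 hmem'.1 hn hmem'.2
    rcases Nat.lt_or_ge n (4 * k) with h4 | h4
    · exact window15 hS hN hk hkn h4 hNk x hx
    · exact Pool.Agent.MMS14.mms_four k n hk h4 x hx
  refine le_antisymm (Nat.sInf_le hle4) ?_
  refine le_csInf ⟨_, hle4⟩ ?_
  intro m hm
  by_contra hlt
  push Not at hlt
  have h1 := nk_bounds hk20 hmem'.1 hmem'.2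
  have h2 : k ≤ sInf B - 1 := by omega
  have h3 : sInf B - 1 ∉ B := Nat.notMem_of_lt_sInf (by omega)
  have h4 : (sInf B - 1 - 3).choose k < (sInf B - 1 - 1).choose (k - 1) := by
    by_contra h5
    push Not at h5
    apply h3
    rw [hB]
    rw [hB] at h2 h5
    exact ⟨h2, h5⟩
  obtain ⟨x, hx0, hx1⟩ := low_vec (n := sInf B - 1) (k := k) hk1 (by omega) h4
  rw [hA] at hm
  exact absurd (hm (sInf B - 1) (by omega) x hx0) (not_le.2 hx1)

end Pool.Agent.MMS15
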