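import Pool.Agent.MMS15.TabG
import Pool.Agent.MMS15.TC2
import Pool.Agent.MMS15.TH2

/-!
# MMS15/TabP2: k / n in [4253, 4440] / 2 ^ 14 (glue, complete)
-/

set_option autoImplicit false
set_option maxRecDepth 100000

namespace Pool.Agent.MMS15

open Pool.Agent.MMS14

theorem rowP2 : ∀ r, RowP (rowv TP2.rows r) := rowP_all TP2.len_ok TP2.ends_ok

theorem goodP2 : Good TP2.par.P0 TP2.par.P1 TP2.rows :=
  good_of_checks TP2.par_ok TP2.len_ok TP2.cells1 TP2.cells2 TP2.cells3 TP2.cells4 TP2.cells5 TP2.ends_ok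
    (base_ok (by decide) TP2.err_ok)

theorem vmP2 : ∀ v ∈ TP2.vm, v ≤ 65536 := all_le' (by decide +kernel)

theorem lowP2 : LowOk TP2.par.P0 TP2.par.P1 TP2.vm :=
  low_of (q := TP2.par) (rows := TP2.rows) (vm := TP2.vm) TP2.par_ok TP2.len_ok rowP2 goodP2 TP2.min_ok (by decide +kernel) vmP2

theorem nonP2 : NonP ((((4253 : ℕ) : ℝ) + 0.1) / 16384) ((((4440 : ℕ) : ℝ) - 0.1) / 16384) :=
  nonstar_cell (q := TP2.par) (rows := TP2.rows) (tab := TP2.tab) (vm := TP2.vm) (xs := TC2.xs) (tgt := 17768) TP2.par_ok TP2.len_ok rowP2 goodP2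
    TP2.look_ok lowP2 vmP2 (by decide +kernel) (v00 := 64704) (v0 := 12345) (g := 16935) (by decide +kernel) (by decide +kernel) TP2.pair_ok (by decide +kernel)
    (by decide) (by decide) (xs_t4) rfl TC2.cP_ok TC2.cM_ok (top_of' rfl TP2.top_ok)

theorem lowH2 : StarLowOk TH2.par.P0 TH2.par.P1 TH2.vs :=
  starLow_of (q := TH2.par) (rows := TH2.rows) (tab := TH2.tab) (vs := TH2.vs) TH2.par_ok TH2.len_ok
    (Pool.Agent.MMS14.rowP_all TH2.len_ok TH2.ends_ok)
    (Pool.Agent.MMS14.good_of_checks TH2.par_ok TH2.len_ok TH2.cells1 TH2.cells2 TH2.cells3 TH2.cells4 TH2.cells5 TH2.ends_ok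
      (Pool.Agent.MMS14.base_ok (by decide) TH2.err_ok)) TH2.look_ok TH2.min_ok (by decide +kernel) (all_le' (by decide +kernel))

theorem starP2 : StarP (((4253 : ℕ) : ℝ) / 16384) (((4440 : ℕ) : ℝ) / 16384) :=
  star_cell (q := TP2.par) (rows := TP2.rows) (tab := TP2.tab) TP2.par_ok TP2.len_ok rowP2 goodP2 TP2.look_ok
    (Q0 := 5742) (Q1 := 6093) (vs := TH2.vs) (ws := TH2.ws) lowH2 TH2.vs_len (all_le' (by decide +kernel)) TH2.w_ok (by decide) (by decide) (by decide) TH2.a1_ok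
    (b1_of TH2.b1_ok) ⟨TH2.b1s.getLast (by decide), List.getLast_mem _, by decide +kernel, by decide +kernel, by decide +kernel⟩ (b2_of TH2.b2_ok)
    (ys := TC2.ys1) rfl (tgt := 17768) (sa := 1699) (A := 4253) (B := 4440) (by decide) TC2.cS1_ok (by decide) (by decide) (by decide) (by decide) (by decide) (by decide) (by decide)

end Pool.Agent.MMS15
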