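import Pool.Agent.MMS15.TP3

/-!
# MMS15/TC3: certificate trees for p in [4438, 4620] / 2 ^ 14

Everything is checked by kernel evaluation.
-/

set_option autoImplicit false
set_option maxRecDepth 100000

namespace Pool.Agent.MMS15.TC3

open Pool.Agent.MMS15.TP3 (par tab)

/-- exceptional boxes (last atom first) -/
def xs : List XC := [⟨[.m 880 1000, .m 880 1000, .p 880 1000, .p 1000 1000], 100000⟩, ⟨[.m 880 1000, .p 880 1000, .m 880 1000, .p 1000 1000], 100000⟩, ⟨[.p 880 1000, .m 880 1000, .m 880 1000, .p 1000 1000], 100000⟩, ⟨[.p 880 1000, .p 880 1000, .m 880 1000, .m 1000 1000], 100000⟩, ⟨[.p 880 1000, .m 880 1000, .p 880 1000, .m 1000 1000], 100000⟩, ⟨[.m 880 1000, .p 880 1000, .p 880 1000, .m 1000 1000], 100000⟩]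
def cP1 : Ct := (.S 3877 (.X 53 53 (.X 24 35 .n (.A 0 946 (.X 0 5 .n (.A 0 896 (.A 2 964 .e .e) (.N .e))) (.N (.X 0 6 .n (.A 0 890 .e (.A 0 945 (.A 0 917 .e (.A 2 973 (.N .e) .e)) (.A 0 972 (.A 1 973 .e (.N (.x 0))) (.N (.x 0))))))))) (.X 33 34 (.A 1 964 (.N (.X 0 3 .n .e)) (.X 0 7 .n (.A 0 886 .e (.A 0 943 (.A 1 956 (.S 3785 (.A 0 914 (.A 1 934 (.A 2 982 .e (.S 3739 (.A 0 900 .e (.A 1 923 .e .e)) .e)) .e) (.N (.A 2 982 .e (.S 3739 (.A 1 935 (.N (.A 2 991 .e (.x 1))) (.x 1)) (.A 1 935 (.N (.A 0 924 .e (.N (.S 3762 (.x 1) .e)))) (.A 0 928 .e (.x 1))))))) (.A 0 914 .e (.N (.A 1 935 (.N .e) (.A 2 982 .e (.S 3831 (.A 0 928 .e (.A 1 945 .e .e)) .e)))))) (.A 0 914 .e (.A 1 978 (.A 2 982 (.A 2 973 (.N .e) .e) .e) (.N .e)))) (.N (.A 0 971 (.A 1 971 (.A 2 982 .e (.S 3785 (.x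 1) (.S 3831 (.x 1) (.A 0 957 (.A 1 957 (.A 2 991 .e (.S 3854 (.x 1) .e)) (.A 2 991 .e (.x 1))) (.N (.x 1)))))) (.N (.A 0 957 .e (.x 1)))) (.N (.x 1)))))))) (.A 0 951 (.A 0 926 (.S 3785 (.A 1 964 .e (.S 3739 (.A 0 914 .e (.A 1 982 (.X 1 0 (.N .e) .n) .e)) .e)) .e) (.A 1 964 (.X 2 0 .e .n) (.S 3785 (.A 1 982 (.X 1 0 .e .n) (.A 0 938 (.S 3739 (.X 1 0 (.A 0 915 .e (.x 2)) .n) (.S 3762 (.A 1 991 (.X 1 0 (.x 2) .n) (.X 1 0 (.x 2) .n)) (.X 1 0 (.N (.x 2)) .n))) (.X 1 0 (.A 0 914 .e (.A 0 932 .e (.x 2))) .n))) (.A 0 938 .e (.S 3831 (.A 1 982 (.A 1 973 .e (.X 1 0 (.N (.x 2)) .n)) (.A 0 944 (.A 1 991 .e (.X 1 0 (.x 2) .n)) (.A 1 991 (.X 1 0 (.x 2) .n) (.X 1 0 (.x 2) .n)))) .e))))) (.N (.X 2 0 (.A 0 907 .e (.A 1 975 (.N (.A 0 941 .e (.A 2 975 .e (.A 2 987 .e (.S 3785 (.x 2) (.S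 3831 (.x 2) (.A 0 958 (.A 1 963 (.S 3854 (.x 2) .e) (.x 2)) (.N (.x 2))))))))) (.N (.A 0 953 .e (.x 2))))) .n))))) (.S 4070 (.X 77 53 (.A 0 870 (.A 0 805 (.A 0 773 (.X 71 62 .e .n) .e) (.A 0 837 (.S 3973 .e .e) .e)) (.A 0 935 .e (.A 0 967 .e (.S 3973 (.X 29 34 .n (.A 0 975 (.X 0 2 .n .e) (.N (.X 0 2 .n (.A 0 958 .e (.A 0 979 (.A 0 968 (.A 2 987 (.N .e) .e) (.A 1 987 .e (.N (.x 0)))) (.N (.x 0)))))))) (.A 0 983 .e (.S 4021 (.X 31 33 .n (.N (.S 3997 (.A 1 992 (.N (.X 0 1 .n (.N (.x 0)))) (.X 0 1 .n (.x 0))) (.X 0 1 .n (.N (.x 0)))))) (.X 32 33 .n (.N (.X 0 1 .n (.N (.x 0))))))))))) (.A 0 979 (.S 3973 (.A 0 969 .e (.S 3925 (.A 0 974 .e (.X 33 33 (.X 0 1 .n (.x 1)) (.X 1 0 (.x 2) .n))) .e)) .e) (.S 3973 (.X 33 33 (.A 0 980 (.S 3925 (.S 3901 (.A 1 989 (.A 0 970 (.X 0 1 .n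 (.N (.x 1))) (.X 0 1 .n (.x 1))) (.A 0 970 (.X 0 1 .n (.x 1)) (.X 0 1 .n (.x 1)))) (.A 1 989 (.X 0 1 .n (.N (.x 1))) (.A 0 970 (.X 0 1 .n (.N (.x 1))) (.X 0 1 .n (.x 1))))) (.X 0 1 .n (.N .e))) (.N (.X 0 2 .n (.A 0 958 .e (.A 0 979 (.A 0 968 .e (.A 1 990 (.A 2 990 .e (.x 1)) (.N (.x 1)))) (.x 1)))))) (.S 3925 (.X 1 0 (.A 0 963 (.A 1 980 (.A 0 944 .e (.A 2 989 .e (.A 1 970 .e .e))) (.N .e)) (.N (.A 1 981 (.N (.A 2 989 .e (.x 2))) (.N (.x 2))))) .n) (.X 1 0 (.A 1 980 (.N .e) (.N (.A 0 975 .e (.A 2 990 (.N .e) (.x 2))))) .n))) (.A 0 989 .e (.S 4021 (.S 3997 (.X 33 33 (.X 0 1 .n (.x 1)) (.X 1 0 (.x 2) .n)) (.X 33 33 (.N (.X 0 1 .n (.x 1))) (.N (.X 1 0 (.x 2) .n)))) (.X 33 33 (.N (.X 0 1 .n (.N (.x 1)))) (.N (.X 1 0 (.N (.x 2)) .n)))))))) (.X 77 53 (.A 0 882 (.A 0 823 (.A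 0 794 (.S 4171 .e .e) (.X 66 58 .e .n)) (.A 0 852 (.X 66 54 .e .n) (.X 66 50 .e .n))) (.A 0 941 .e .e)) .e)))
def cP2 : Ct := (.S 4273 (.S 3693 (.S 3518 (.X 53 52 (.A 0 933 (.A 0 900 (.X 29 33 .n (.N .e)) (.X 24 33 .n (.X 0 2 .n .e))) (.A 0 966 (.S 3434 .e (.A 0 949 (.S 3476 (.S 3455 .e (.S 3465 .e (.A 0 941 .e .e))) (.X 26 33 .n (.A 0 914 (.A 0 897 .e .e) .e))) (.X 22 33 .n (.A 0 912 (.X 0 1 .n .e) .e)))) (.S 3434 (.X 34 13 .e .n) (.A 0 983 (.A 0 974 (.X 20 33 .n (.A 0 914 (.A 0 884 .e .e) .e)) .e) (.A 0 991 .e .e))))) (.A 0 938 (.A 0 907 (.S 3434 .e (.X 33 33 (.N .e) (.N .e))) .e) (.X 33 33 (.A 0 907 (.A 0 861 (.S 3434 (.A 1 969 .e .e) (.A 0 838 .e (.A 1 969 (.X 0 1 .n (.N .e)) .e))) (.A 1 969 (.X 0 2 .n (.A 0 829 .e .e)) .e)) (.A 0 953 .e (.N .e))) (.A 0 907 (.A 0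 861 .e .e) (.A 0 953 (.X 1 0 (.A 0 904 .e .n) .n) (.N .e)))))) (.X 53 53 (.X 36 52 .e (.A 0 852 (.A 0 778 .e .e) (.A 0 926 (.X 0 8 .n (.A 0 835 (.A 2 948 .e .e) .e)) (.N (.A 1 963 (.N (.X 0 3 .n (.A 0 875 .e .e))) (.X 0 2 .n (.A 0 953 (.A 0 828 .e (.A 0 890 .e (.A 0 921 .e (.x 0)))) .n))))))) (.A 0 948 (.A 0 922 (.S 3605 (.A 0 909 .e (.X 33 33 .e (.S 3561 .e (.X 1 0 (.N (.x 2)) .n)))) .e) (.X 33 33 (.X 0 3 .n .e) (.X 1 0 .e .n))) (.X 33 33 (.A 0 932 (.A 0 898 (.S 3605 (.A 1 974 (.X 0 1 .n .e) (.A 0 881 (.S 3561 .e (.A 1 987 .e .e)) .e)) (.A 1 974 .e (.A 0 881 .e (.S 3649 (.A 1 987 .e .e) .e)))) (.S 3605 (.X 0 3 .n (.A 0 856 .e (.A 0 894 .e (.A 2 974 .e (.x 1))))) (.A 1 974 (.X 0 1 .n .e) (.S 3649 (.A 0 915 (.A 1 987 (.X 0 1 .n (.A 0 898 .e (.x 1))) .e) .e) (.A 0 915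 (.A 1 987 (.X 0 1 .n (.N .e)) (.S 3671 (.X 0 1 .n (.x 1)) (.X 0 1 .n (.N (.x 1))))) (.X 0 1 .n (.A 0 902 .e (.x 1)))))))) (.A 0 966 (.X 0 2 .n (.A 0 963 (.A 0 855 .e (.A 0 909 .e (.x 1))) .n)) (.N .e))) (.A 0 932 (.A 0 898 (.A 1 974 (.S 3605 .e .e) (.S 3605 .e (.A 0 881 .e .e))) (.A 0 915 (.S 3605 .e (.A 1 974 (.X 1 0 .e .n) .e)) (.A 1 974 (.X 1 0 .e .n) .e))) (.A 0 966 (.X 1 0 (.A 0 963 (.A 0 859 .e (.A 0 911 .e (.x 2))) .n) .n) (.N (.X 1 0 (.A 0 910 .e .n) .n)))))))) cP1) (.S 4710 (.S 4486 (.X 78 55 (.A 0 891 (.A 0 836 (.X 69 60 .e .n) (.A 0 863 (.X 71 56 .e .n) (.X 66 52 .e .n))) (.A 0 945 .e .e)) .n) (.X 72 58 (.A 0 930 (.A 0 895 (.X 70 56 .e .n) (.X 66 51 .e .n)) .e) .n)) (.S 4945 .e (.S 5192 .e .e))))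
def cP : Ct := (.S 5451 (.S 3351 (.S 2628 (.S 2271 (.S 2163 .e (.X 66 7 (.A 0 765 (.A 0 647 (.A 0 588 .e .e) .e) .e) .n)) (.S 2384 (.X 65 66 (.A 0 780 (.A 0 670 (.A 0 615 (.X 39 52 .n .e) (.A 0 642 .e .e)) .e) .e) (.A 0 777 (.A 0 665 (.A 0 609 .e .e) .e) .e)) (.S 2503 (.X 61 15 (.A 0 805 (.A 0 707 (.A 0 658 (.X 36 52 .n (.A 0 607 .e .e)) (.X 26 52 .n .e)) .e) .e) .n) (.X 59 18 (.A 0 825 (.A 0 737 (.X 26 52 .n (.A 0 648 .e .e)) .e) .e) .n)))) (.S 2896 (.S 2759 (.X 57 22 (.A 0 845 (.A 0 768 (.A 0 729 (.S 2693 .e .e) .e) .e) (.A 0 922 .e .e)) .n) (.S 2827 (.X 53 26 (.A 0 875 .e .e) .n) (.X 51 28 (.A 0 890 .e .e) .n))) (.S 3040 (.S 2968 (.X 51 29 (.A 0 897 .e (.A 0 948 .e .e)) .n) (.X 52 31 (.A 0 901 (.A 0 851 .e .e) (.A 0 950 .e .e)) .n)) (.S 3192 (.X 65 33 (.A 0 855 (.A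 0 782 (.A 0 746 .e .e) (.A 0 818 .e .e)) (.A 0 927 (.A 0 891 .e .e) (.X 33 1 .e .n))) .n) (.X 53 47 (.A 0 918 (.A 0 877 .e .e) (.A 0 959 (.S 3271 .e .e) (.X 34 8 .e .n))) (.A 0 946 .e (.A 0 973 (.A 0 959 .e .e) .e))))))) cP2) (.S 8874 (.S 6955 (.S 6009 (.S 5723 .e (.X 77 72 (.X 66 61 .e .n) .n)) (.S 6309 (.X 77 74 (.X 66 64 (.N .e) .n) .n) (.S 6624 (.S 6466 (.X 79 77 .e .n) (.X 84 79 (.A 0 973 (.X 75 72 (.N .e) .n) (.S 6545 .e (.A 0 986 .e (.X 76 70 .e .n)))) .n)) (.X 86 80 (.X 77 71 (.A 1 970 (.N (.X 66 64 (.N .e) .n)) (.A 0 970 (.X 66 63 (.N (.S 6789 .e .e)) .n) (.S 6789 (.X 66 59 (.A 0 968 (.A 1 985 .e (.N .e)) .e) .n) (.A 1 985 (.N (.X 66 64 .e .n)) (.X 66 61 (.A 0 978 .e (.N (.S 6872 .e .e))) .n))))) .n) .n)))) (.S 7667 (.S 7302 (.X 86 83 (.S 7128 (.A 0 984 (.X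 77 76 (.N .e) .n) (.X 77 74 (.X 66 63 (.N (.A 1 989 (.N .e) (.N .e))) .n) .n)) (.X 77 76 (.N (.X 66 65 (.N .e) .n)) .n)) .n) (.X 86 85 .e .n)) (.S 8050 .e (.S 8452 .e .e)))) (.S 11323 (.S 9782 (.S 9317 .e .e) (.S 10271 .e (.S 10784 .e .e))) (.S 13107 (.S 11889 .e (.S 12483 .e .e)) (.S 13762 .e (.S 14450 .e .e))))))
theorem cP_ok : chk par tab 18488 1280 206 xs cP 2060 15020 [.p 1000 1000] = true := by decide +kernel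
def cM1 : Ct := (.S 3708 (.X 52 52 (.X 33 33 (.X 0 20 .n (.A 0 794 (.A 0 691 (.A 1 934 .e (.N .e)) (.A 1 934 .e (.N .e))) (.A 0 897 (.A 1 934 (.A 0 845 .e (.A 1 901 (.A 2 955 .e (.S 3620 (.A 0 871 (.A 2 977 .e (.S 3576 (.A 0 858 .e (.A 1 884 .e .e)) .e)) (.N (.A 2 977 (.S 3576 (.A 0 884 (.A 1 886 .e .e) (.N .e)) .e) (.S 3576 (.A 0 884 .e (.N (.x 5))) (.A 1 886 (.N .e) (.A 0 884 .e (.x 5))))))) .e)) .e)) (.N .e)) (.N (.A 1 948 (.N (.A 2 955 (.A 0 922 (.A 2 932 (.N .e) (.A 1 922 .e .e)) (.N .e)) (.S 3620 (.x 5) (.A 0 922 (.A 1 922 (.A 2 977 (.S 3664 (.A 0 909 (.A 1 909 .e .e) (.N (.x 5))) .e) (.S 3664 (.A 0 909 (.A 2 988 (.A 1 909 (.S 3642 (.x 5) .e) (.x 5)) (.x 5)) (.N (.x 5))) (.A 1 909 (.N .e) (.S 3686 (.A 0 909 (.A 2 988 .e (.x 5)) (.x 5)) (.A 2 988 .e (.A 0 909 .e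 (.x 5))))))) (.A 2 977 .e (.x 5))) (.N (.x 5)))))) (.N (.A 0 948 (.A 0 922 .e (.x 5)) (.x 5)))))))) (.A 0 934 (.A 1 955 (.X 2 0 (.A 1 901 (.N .e) .e) .n) (.A 0 901 (.A 1 977 (.S 3620 (.A 0 884 .e (.X 1 0 .e .n)) .e) (.A 0 884 (.S 3620 .e .e) (.S 3620 .e .e))) (.A 1 977 (.X 1 0 (.A 0 882 .e (.A 1 917 (.N .e) .e)) .n) (.A 0 917 (.S 3620 .e (.A 1 988 (.S 3664 .e (.X 1 0 (.N (.x 4)) .n)) .e)) (.S 3620 .e (.X 1 0 (.A 0 894 .e (.A 0 914 .e (.x 4))) .n)))))) (.N (.X 1 0 (.A 0 982 (.A 0 851 .e (.A 0 916 .e (.S 3620 (.x 4) (.A 2 967 (.N (.A 0 941 .e (.N (.x 4)))) (.x 4))))) .n) .n)))) (.X 33 19 (.A 0 934 (.X 1 0 .e .n) (.N (.X 1 0 (.A 0 982 (.A 0 851 .e (.A 0 916 .e (.S 3620 (.x 3) (.A 2 967 (.N (.A 0 941 .e (.N (.x 3)))) (.x 3))))) .n) .n))) .n)) (.X 52 52 (.X 33 33 (.A 0 958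 (.A 1 970 (.S 3800 (.X 0 1 .n (.A 0 934 (.A 1 937 .e .e) (.N .e))) .e) (.S 3800 (.A 0 937 (.A 1 985 (.S 3754 (.A 0 926 .e (.S 3731 (.X 0 1 .n (.x 5)) (.X 0 1 .n (.N (.x 5))))) .e) (.S 3754 (.A 0 926 (.S 3731 (.X 0 1 .n (.x 5)) (.X 0 1 .n (.N (.x 5)))) (.S 3731 (.X 0 1 .n (.x 5)) (.X 0 1 .n (.x 5)))) (.X 0 1 .n (.N (.S 3777 (.x 5) .e))))) (.X 0 2 .n (.A 0 914 .e (.A 0 936 .e (.S 3754 (.x 5) (.A 2 985 (.A 0 947 (.A 1 947 .e (.x 5)) (.N (.x 5))) (.x 5))))))) (.A 0 937 .e (.S 3846 (.A 1 985 (.X 0 1 .n (.N .e)) (.A 0 947 (.S 3823 (.X 0 1 .n (.N (.x 5))) .e) (.S 3823 (.X 0 1 .n (.x 5)) (.X 0 1 .n (.x 5))))) (.X 0 1 .n (.N .e)))))) (.N (.X 0 5 .n (.A 0 898 .e (.A 0 949 .e (.S 3800 (.x 5) (.A 0 974 (.A 1 979 (.A 2 979 (.A 0 961 .e (.N .e)) (.A 0 961 (.A 2 989 .e (.x 5)) (.N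 (.x 5)))) (.N (.x 5))) (.N (.x 5))))))))) (.A 0 958 (.S 3800 (.A 1 970 (.X 1 0 (.A 1 937 (.N .e) .e) .n) (.A 0 937 (.A 1 985 (.S 3754 (.A 0 926 .e (.X 1 0 .e .n)) .e) (.A 0 926 (.S 3754 (.A 1 992 (.X 1 0 (.N (.x 4)) .n) .e) .e) (.S 3754 (.X 1 0 (.A 0 919 .e (.x 4)) .n) (.S 3777 (.X 1 0 (.x 4) .n) .e)))) (.X 1 0 (.A 0 918 .e (.A 0 938 (.A 2 985 .e (.A 1 947 (.A 2 992 .e (.x 4)) (.x 4))) (.N (.x 4)))) .n))) (.A 0 937 .e (.A 1 970 .e (.A 1 985 (.X 1 0 (.N .e) .n) (.X 1 0 (.S 3846 (.A 0 943 (.A 1 947 .e .e) (.N (.x 4))) .e) .n))))) (.N (.X 1 0 (.A 0 916 .e (.S 3800 (.A 0 958 (.A 2 979 (.N .e) (.x 4)) (.x 4)) (.A 0 958 (.A 2 979 (.N .e) (.A 1 979 (.A 0 937 .e (.A 1 968 (.A 2 989 .e (.A 0 947 .e (.A 2 994 .e (.x 4)))) .e)) .e)) (.S 3846 (.x 4) (.A 2 979 (.N (.A 0 968 .e (.N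 (.x 4)))) (.x 4)))))) .n)))) (.X 34 24 (.A 0 953 (.X 1 0 .e .n) (.N (.X 1 0 (.A 0 916 .e (.S 3800 (.A 0 958 (.A 1 976 .e (.N (.x 3))) (.N (.x 3))) (.A 0 958 (.A 1 976 .e (.N .e)) (.N (.S 3846 (.x 3) (.A 1 979 (.N (.A 2 979 (.A 2 968 (.N .e) .e) (.x 3))) (.N (.x 3)))))))) .n))) .n)))
def cM2 : Ct := (.S 3893 (.S 1971 (.S 1403 (.S 1157 (.S 1050 .e (.S 1102 .e .e)) (.S 1274 (.S 1214 .e .e) (.S 1337 .e .e))) (.S 1623 (.S 1473 .e (.S 1546 .e .e)) (.S 1789 (.S 1704 .e (.X 1 0 (.A 0 889 .e .n) .n)) (.S 1878 (.X 1 0 (.A 0 938 .e .n) .n) (.X 1 0 (.A 0 979 .e .n) .n))))) (.S 2769 (.S 2280 (.S 2069 (.S 2020 (.X 1 0 (.A 0 991 .e .n) .n) (.S 2044 (.X 1 0 (.A 0 997 .n .n) .n) .e)) (.S 2172 .e .e)) (.S 2513 (.S 2394 .e .e) (.S 2638 .e .e))) (.S 3204 (.S 2907 .e (.S 3052 .e (.X 52 52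 (.A 0 909 (.A 0 864 .e (.A 0 886 .e .e)) (.A 0 954 (.A 0 931 .e .e) .e)) (.A 0 909 (.X 33 18 (.X 1 0 .e .n) .n) .e)))) (.S 3532 (.S 3364 (.X 52 52 (.A 0 924 (.A 0 886 (.A 0 867 .e (.X 32 27 (.X 0 1 .n .e) .n)) (.A 0 905 (.S 3284 .e (.A 0 895 .e (.S 3324 .e (.X 33 28 (.X 0 1 .n .e) .n)))) (.A 0 914 .e .e))) (.A 0 962 (.A 0 943 (.A 0 933 .e (.X 18 33 .n (.A 0 873 .e .e))) (.X 15 33 .n (.A 0 877 .e .e))) (.X 8 33 .n (.A 0 884 .e .e)))) (.A 0 924 (.X 33 21 (.X 1 0 .e .n) .n) .e)) (.X 52 52 (.X 33 33 (.A 0 909 (.A 1 939 (.X 0 1 .n (.A 0 855 (.A 1 864 .e .e) (.N .e))) (.A 0 864 (.A 1 969 (.S 3448 (.A 0 841 (.A 1 954 .e .e) (.A 1 954 (.X 0 1 .n .e) .e)) (.X 0 1 .n (.N .e))) (.S 3448 .e (.A 0 841 .e (.A 1 984 (.S 3490 .e .e) .e)))) (.A 1 969 (.S 3448 (.A 0 886 (.A 1 954 (.S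 3406 .e (.A 0 875 .e .e)) .e) .e) (.X 0 1 .n (.A 0 863 .e (.A 0 886 (.A 1 886 .e .e) (.N (.x 5)))))) (.S 3448 .e (.A 0 886 .e .e))))) (.N (.X 0 4 .n (.A 0 938 (.A 0 757 .e (.A 0 847 .e (.A 0 892 .e (.x 5)))) .n)))) (.A 0 909 (.A 1 939 (.X 2 0 (.A 1 864 (.N .e) .e) .n) (.A 0 864 (.A 1 969 (.A 0 841 .e .e) .e) (.A 1 969 (.A 0 886 (.X 1 0 .e .n) (.X 1 0 .e .n)) .e))) (.N (.A 1 954 (.N (.X 1 0 (.A 0 938 .e .n) .n)) (.X 1 0 (.A 0 892 .e .n) .n))))) (.A 0 939 (.X 33 24 (.X 1 0 .e .n) .n) (.S 3448 .e (.A 0 969 (.X 33 22 (.X 1 0 (.A 0 954 .e .n) .n) .n) .e))))) cM1)))) (.S 7698 (.S 5474 (.S 4505 (.S 4087 (.X 52 52 (.A 0 986 (.S 3990 (.S 3941 (.A 0 979 (.X 33 33 (.N (.X 0 1 .n (.N (.x 5)))) (.N (.X 1 0 (.N (.x 4)) .n))) (.X 33 33 (.S 3917 (.X 0 1 .n (.x 5)) (.X 0 1 .n (.N (.x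 5)))) (.S 3917 (.X 1 0 (.x 4) .n) (.X 1 0 (.N (.x 4)) .n)))) (.X 33 33 (.N .e) (.N .e))) .e) (.X 33 33 (.S 3990 (.S 3941 (.A 0 982 (.S 3917 (.A 0 973 (.X 0 1 .n (.x 5)) (.X 0 1 .n (.x 5))) (.A 0 973 .e (.X 0 1 .n (.x 5)))) (.X 0 1 .n (.A 0 967 .e (.x 5)))) (.A 0 982 (.X 0 1 .n (.N .e)) (.X 0 1 .n (.A 0 979 .e (.x 5))))) (.X 0 1 .n (.N (.S 4038 (.S 4014 (.A 1 992 (.N .e) (.N (.x 5))) .e) .e)))) (.S 3990 (.S 3941 (.A 0 982 (.A 0 973 (.S 3917 (.X 1 0 (.x 4) .n) .e) (.X 1 0 (.A 0 967 .e (.x 4)) .n)) (.X 1 0 (.A 0 967 .e (.x 4)) .n)) (.X 1 0 (.A 1 982 (.N .e) (.A 0 979 .e (.x 4))) .n)) (.X 2 0 (.N (.S 4038 (.A 0 986 .e (.N (.S 4014 (.x 4) .e))) .e)) .n)))) (.S 3990 (.X 34 29 (.A 0 977 (.X 1 0 (.N .e) .n) (.N (.X 1 0 (.A 0 967 .e (.S 3941 (.x 3) (.A 0 983 (.A 2 988 (.N .e)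 .e) (.N (.x 3))))) .n))) .n) (.X 34 32 (.N (.A 0 989 .e (.N (.S 4038 (.S 4014 (.X 1 0 (.x 3) .n) (.X 1 0 (.N (.x 3)) .n)) .e)))) .n))) (.S 4291 (.X 53 53 .e .e) .e)) (.S 4966 (.S 4730 .e .e) (.S 5214 .e .e))) (.S 6335 (.S 5747 .e (.S 6034 .e .e)) (.S 6983 (.S 6651 .e .e) (.S 7332 .e .e)))) (.S 10828 (.S 8910 (.S 8082 .e (.S 8486 .e .e)) (.S 9822 (.S 9355 .e .e) (.S 10313 .e .e))) (.S 12533 (.S 11369 .e (.S 11937 .e .e)) (.S 13816 (.S 13159 .e .e) (.S 14506 .e .e))))))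
def cM : Ct := cM2
theorem cM_ok : chk par tab 18488 1280 206 xs cM 1000 15020 [.m 1000 1000] = true := by decide +kernel

/-- exceptional boxes for the star regime, p in [4438, 4620] / 2 ^ 14 -/
def ys1 : List XC := [⟨[.m 200 250, .p 1000 1000], 503781⟩, ⟨[.m 250 300, .p 1000 1000], 505391⟩, ⟨[.m 300 350, .p 1000 1000], 497073⟩, ⟨[.m 350 400, .p 1000 1000], 487146⟩, ⟨[.m 400 450, .p 1000 1000], 478828⟩, ⟨[.m 450 500, .p 1000 1000], 474535⟩, ⟨[.m 500 550, .p 1000 1000], 479365⟩, ⟨[.m 550 600, .p 1000 1000], 499220⟩, ⟨[.m 600 650, .p 1000 1000], 523368⟩, ⟨[.m 650 700, .p 1000 1000], 548053⟩, ⟨[.m 700 750, .p 1000 1000], 573541⟩, ⟨[.m 750 800, .p 1000 1000], 599299⟩, ⟨[.m 800 850, .p 1000 1000], 625594⟩, ⟨[.m 850 900, .p 1000 1000], 652694⟩, ⟨[.m 900 950, .p 1000 1000],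 695891⟩, ⟨[.m 950 1000, .p 1000 1000], 749017⟩, ⟨[.m 1000 1050, .p 1000 1000], 804289⟩]
def cS1_ : Ct := (.S 1788 (.S 1686 (.S 1637 (.X 0 33 .n (.A 0 799 (.A 0 650 (.A 0 600 (.A 0 550 (.x 6) (.x 7)) (.x 8)) (.A 0 700 (.x 9) (.A 0 750 (.x 10) (.x 11)))) .n)) (.X 0 15 .n (.A 0 829 (.A 0 750 (.A 0 700 (.x 9) (.x 10)) (.A 0 800 (.x 11) (.x 12))) .n))) (.S 1736 (.X 0 9 .n (.A 0 858 (.A 0 800 (.x 11) (.A 0 850 (.x 12) (.x 13))) .n)) (.X 0 5 .n (.A 0 888 (.A 0 850 (.x 12) (.x 13)) .n)))) (.S 1896 (.S 1841 (.X 0 5 .n (.A 0 918 (.A 0 900 (.A 0 850 (.x 12) (.x 13)) (.x 14)) .n)) (.X 0 3 .n (.A 0 947 (.A 0 900 (.x 13) (.x 14)) .n))) (.S 1952 (.X 33 2 (.A 0 976 .e .n) (.A 0 976 (.A 0 950 (.x 14) (.x 15)) .n)) (.S 2010 (.X 33 2 .e (.x 15)) (.X 0 1 .n (.x 15))))))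
theorem cS1_ok : chk par tab 18488 1280 0 ys1 cS1_ 1590 2060 [.p 1000 1000] = true := by decide +kernel

end Pool.Agent.MMS15.TC3
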