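import Pool.Agent.MMS15.TabG
import Pool.Agent.MMS15.TC3
import Pool.Agent.MMS15.TH3

/-!
# MMS15/TabP3: k / n in [4438, 4620] / 2 ^ 14 (glue, complete)
-/

set_option autoImplicit false
set_option maxRecDepth 100000

namespace Pool.Agent.MMS15

open Pool.Agent.MMS14

theorem rowP3 : ∀ r, RowP (rowv TP3.rows r) := rowP_all TP3.len_ok TP3.ends_ok

theorem goodP3 : Good TP3.par.P0 TP3.par.P1 TP3.rows :=
  good_of_checks TP3.par_ok TP3.len_ok TP3.cells1 TP3.cells2 TP3.cells3 TP3.cells4 TP3.cells5 TP3.ends_ok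
    (base_ok (by decide) TP3.err_ok)

theorem vmP3 : ∀ v ∈ TP3.vm, v ≤ 65536 := all_le' (by decide +kernel)

theorem lowP3 : LowOk TP3.par.P0 TP3.par.P1 TP3.vm :=
  low_of (q := TP3.par) (rows := TP3.rows) (vm := TP3.vm) TP3.par_ok TP3.len_ok rowP3 goodP3 TP3.min_ok (by decide +kernel) vmP3

theorem nonP3 : NonP ((((4438 : ℕ) : ℝ) + 0.1) / 16384) ((((4620 : ℕ) : ℝ) - 0.1) / 16384) :=
  nonstar_cell (q := TP3.par) (rows := TP3.rows) (tab := TP3.tab) (vm := TP3.vm) (xs := TC3.xs) (tgt := 18488) TP3.par_ok TP3.len_ok rowP3 goodP3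
    TP3.look_ok lowP3 vmP3 (by decide +kernel) (v00 := 64704) (v0 := 12686) (g := 17670) (by decide +kernel) (by decide +kernel) TP3.pair_ok (by decide +kernel)
    (by decide) (by decide) (xs_t4) rfl TC3.cP_ok TC3.cM_ok (top_of' rfl TP3.top_ok)

theorem lowH3 : StarLowOk TH3.par.P0 TH3.par.P1 TH3.vs :=
  starLow_of (q := TH3.par) (rows := TH3.rows) (tab := TH3.tab) (vs := TH3.vs) TH3.par_ok TH3.len_ok
    (Pool.Agent.MMS14.rowP_all TH3.len_ok TH3.ends_ok)
    (Pool.Agent.MMS14.good_of_checks TH3.par_ok TH3.len_ok TH3.cells1 TH3.cells2 TH3.cells3 TH3.cells4 TH3.cells5 TH3.ends_ok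
      (Pool.Agent.MMS14.base_ok (by decide) TH3.err_ok)) TH3.look_ok TH3.min_ok (by decide +kernel) (all_le' (by decide +kernel))

theorem starP3 : StarP (((4438 : ℕ) : ℝ) / 16384) (((4620 : ℕ) : ℝ) / 16384) :=
  star_cell (q := TP3.par) (rows := TP3.rows) (tab := TP3.tab) TP3.par_ok TP3.len_ok rowP3 goodP3 TP3.look_ok
    (Q0 := 6084) (Q1 := 6437) (vs := TH3.vs) (ws := TH3.ws) lowH3 TH3.vs_len (all_le' (by decide +kernel)) TH3.w_ok (by decide) (by decide) (by decide) TH3.a1_ok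
    (b1_of TH3.b1_ok) ⟨TH3.b1s.getLast (by decide), List.getLast_mem _, by decide +kernel, by decide +kernel, by decide +kernel⟩ (b2_of TH3.b2_ok)
    (ys := TC3.ys1) rfl (tgt := 18488) (sa := 1590) (A := 4438) (B := 4620) (by decide) TC3.cS1_ok (by decide) (by decide) (by decide) (by decide) (by decide) (by decide) (by decide)

end Pool.Agent.MMS15
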