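import Pool.Agent.MMS15.TP4

/-!
# MMS15/TC4: certificate trees for p in [4618, 4790] / 2 ^ 14

Everything is checked by kernel evaluation.
-/

set_option autoImplicit false
set_option maxRecDepth 100000

namespace Pool.Agent.MMS15.TC4

open Pool.Agent.MMS15.TP4 (par tab)

/-- exceptional boxes (last atom first) -/
def xs : List XC := [⟨[.m 880 1000, .m 880 1000, .p 880 1000, .p 1000 1000], 100000⟩, ⟨[.m 880 1000, .p 880 1000, .m 880 1000, .p 1000 1000], 100000⟩, ⟨[.p 880 1000, .m 880 1000, .m 880 1000, .p 1000 1000], 100000⟩, ⟨[.p 880 1000, .p 880 1000, .m 880 1000, .m 1000 1000], 100000⟩, ⟨[.p 880 1000, .m 880 1000, .p 880 1000, .m 1000 1000], 100000⟩, ⟨[.m 880 1000, .p 880 1000, .p 880 1000, .m 1000 1000], 100000⟩]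
def cP1 : Ct := (.X 72 66 (.A 0 865 (.A 0 798 (.A 0 764 .e (.X 52 52 (.N .e) (.N .e))) (.A 0 831 (.A 0 814 (.X 52 52 .e .e) (.X 51 45 .e .n)) .e)) (.X 73 66 (.A 0 781 (.A 0 671 (.A 1 932 (.A 0 616 .e .e) (.A 0 616 .e .e)) .e) (.A 0 890 .e (.N .e))) (.A 0 803 (.A 0 704 (.A 1 932 .e .e) (.A 1 932 .e .e)) (.A 0 901 (.A 1 932 (.X 1 7 .n (.N .e)) (.A 0 852 .e (.X 0 4 .n .e))) (.N (.A 1 950 (.N (.A 0 925 (.X 0 6 .n .e) (.N (.X 0 4 .n (.A 0 879 .e .e))))) (.X 0 8 .n (.A 0 990 (.A 0 825 .e (.A 0 907 .e (.N (.A 0 948 (.A 1 953 .e (.N (.x 0))) (.N .n))))) .n)))))))) (.A 0 890 .e (.X 34 34 (.A 0 927 (.A 1 945 (.A 0 890 .e (.X 0 5 .n .e)) (.A 0 890 (.S 3605 (.A 1 972 (.X 0 1 .n (.N .e)) (.S 3561 (.A 0 872 (.A 1 986 .e .e) .e) (.A 0 872 .e (.A 1 986 (.X 0 1 .n (.N .e)) .e)))) .e)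 (.S 3605 (.A 1 972 (.A 0 908 (.X 0 2 .n .e) (.X 0 2 .n (.A 0 876 .e .e))) (.A 0 908 (.S 3561 .e (.A 1 986 (.S 3583 .e (.X 0 1 .n .e)) .e)) .e)) (.A 1 972 (.X 0 2 .n .e) (.A 0 908 (.S 3649 (.A 1 986 (.S 3627 (.X 0 1 .n (.x 1)) (.X 0 1 .n (.N (.x 1)))) (.A 0 899 (.S 3627 .e (.X 0 1 .n (.N (.x 1)))) (.S 3627 .e (.X 0 1 .n (.x 1))))) (.X 0 1 .n (.N .e))) (.S 3649 (.X 0 2 .n (.A 0 886 .e (.x 1))) (.A 1 986 (.X 0 1 .n .e) (.A 0 917 (.S 3671 (.X 0 1 .n (.x 1)) (.X 0 1 .n (.x 1))) (.X 0 1 .n (.A 0 903 .e (.x 1))))))))))) (.N (.A 0 963 (.A 1 963 (.S 3605 (.X 0 2 .n (.A 0 942 (.A 0 869 .e (.A 0 905 (.A 0 887 .e (.x 1)) (.x 1))) .n)) (.X 0 3 .n (.A 0 900 (.A 2 945 (.N .e) .e) .e))) (.X 0 3 .n (.A 0 952 (.A 0 848 .e (.A 0 900 .e (.x 1))) .n))) (.N (.X 0 1 .n (.A 0 916 .e .n))))))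 (.A 0 927 (.A 0 890 (.A 1 945 .e (.A 1 972 (.X 3 0 (.N .e) .n) (.S 3605 (.A 0 872 .e .e) (.A 0 872 .e .e)))) (.A 1 945 (.X 4 0 .e .n) (.S 3605 (.A 0 908 (.A 1 972 (.X 2 0 .e .n) .e) (.A 1 972 (.X 1 0 .e .n) .e)) (.A 1 972 (.X 2 0 .e .n) (.A 0 908 (.S 3649 .e (.A 1 986 .e .e)) (.X 1 0 (.A 0 890 .e (.A 2 986 .e (.S 3649 (.x 2) (.A 0 908 (.A 1 917 (.S 3671 (.x 2) .e) (.x 2)) (.x 2))))) .n)))))) (.N (.A 1 963 (.N (.X 2 0 (.A 0 880 .e .e) .n)) (.X 1 0 (.A 0 952 (.A 0 832 .e (.A 0 892 .e (.A 1 963 (.A 0 922 .e (.x 2)) (.x 2)))) .n) .n)))))))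
def cP2 : Ct := (.S 4070 (.X 79 77 (.A 0 862 (.X 99 77 (.A 0 683 (.A 0 593 (.A 1 793 .e .e) (.A 1 793 (.A 0 638 .e .e) .e)) (.A 0 772 (.A 1 793 (.A 0 727 .e (.N (.X 47 52 .n (.N .e)))) (.A 0 727 .e .e)) (.N (.A 0 817 .e (.N .e))))) (.A 0 750 (.A 0 694 (.A 1 793 .e .e) (.A 1 793 (.X 53 51 (.N .e) .n) (.A 1 827 .e .e))) (.N (.A 1 806 (.N (.X 52 41 .e .n)) (.A 0 806 .e .e))))) (.A 0 931 (.A 0 896 .e (.A 0 913 .e .e)) (.A 0 965 .e (.S 3973 (.A 0 982 (.S 3925 (.X 31 34 .n (.X 0 1 .n (.N .e))) .e) (.X 29 34 .n (.A 0 975 (.S 3925 (.X 0 2 .n .e) .e) (.X 0 2 .n (.A 0 958 .e (.A 0 979 (.A 0 968 .e (.A 2 991 (.N (.S 3925 (.x 0) .e)) .e)) (.N (.x 0)))))))) (.A 0 982 .e (.A 0 991 (.X 32 33 .n (.N .e)) (.X 31 33 .n (.S 4021 (.S 3997 (.X 0 1 .n (.x 0)) (.X 0 1 .n (.N (.x 0)))) (.X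 0 1 .n (.N (.x 0))))))))))) (.A 0 870 (.A 0 805 (.A 0 773 .e .e) .e) (.A 0 935 .e (.A 0 967 .e (.S 3973 (.X 33 33 (.A 0 980 (.S 3925 (.A 1 983 (.X 0 1 .n (.N .e)) (.A 0 970 (.S 3901 (.X 0 1 .n (.x 1)) (.X 0 1 .n (.N (.x 1)))) (.S 3901 (.X 0 1 .n (.x 1)) (.X 0 1 .n (.x 1))))) (.X 0 1 .n (.N .e))) (.N (.X 0 2 .n (.A 0 958 .e (.A 0 979 (.A 0 968 .e (.A 1 990 (.A 2 990 .e (.x 1)) (.N (.x 1)))) (.x 1)))))) (.A 0 980 (.S 3925 (.A 0 970 (.A 1 983 .e (.S 3901 (.X 1 0 (.x 2) .n) (.X 1 0 (.N (.x 2)) .n))) (.N (.A 1 985 (.S 3901 (.X 1 0 (.x 2) .n) (.X 1 0 (.N (.x 2)) .n)) (.S 3901 (.X 1 0 (.x 2) .n) (.X 1 0 (.x 2) .n))))) (.X 2 0 (.N .e) .n)) (.N (.X 1 0 (.A 0 963 (.A 0 944 .e (.A 2 990 (.N .e) .e)) (.A 2 990 (.N (.A 0 976 .e (.x 2))) (.A 1 990 (.N (.A 0 976 .e (.x 2))) (.x 2))))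 .n)))) (.A 0 983 .e (.S 4021 (.A 0 991 (.X 33 33 (.N .e) (.N .e)) (.X 33 33 (.S 3997 (.X 0 1 .n (.x 1)) (.X 0 1 .n (.N (.x 1)))) (.S 3997 (.X 1 0 (.x 2) .n) (.X 1 0 (.N (.x 2)) .n)))) (.X 33 33 (.N (.X 0 1 .n (.N (.x 1)))) (.N (.X 1 0 (.N (.x 2)) .n)))))))))) (.X 78 77 (.A 0 878 (.X 93 77 (.A 0 718 (.A 0 638 (.A 1 817 .e .e) (.A 1 817 .e .e)) (.A 0 798 (.A 1 817 (.X 47 53 .n (.N .e)) .e) (.N (.A 1 838 (.N .e) (.A 0 838 .e .e))))) (.A 0 770 (.A 0 716 (.A 1 817 .e .e) (.A 0 743 (.A 1 817 .e .e) (.X 53 49 .e .n))) (.N (.A 1 824 (.N (.A 1 797 (.N .e) .e)) (.A 0 824 .e .e))))) (.A 0 939 (.A 0 908 (.S 4171 (.A 0 893 (.S 4120 .e .e) .e) (.A 0 893 .e .e)) .e) .e)) (.A 0 882 (.A 0 823 .e .e) (.A 0 941 .e .e))))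
def cP3 : Ct := (.S 3693 (.S 3518 (.X 66 66 (.A 0 877 (.A 0 815 (.A 0 784 (.X 52 48 (.X 33 27 .e .n) .n) (.A 0 799 (.X 52 45 (.A 0 773 .e .e) .n) .e)) (.A 0 846 .e (.X 33 34 .n (.N .e)))) (.A 0 938 (.A 0 907 (.X 28 33 .n (.X 0 2 .n .e)) (.S 3434 (.A 0 922 (.S 3392 .e (.S 3413 .e (.A 0 914 .e .e))) (.S 3392 .e (.S 3413 .e (.A 0 930 .e .e)))) (.X 26 33 .n (.A 0 906 (.X 0 1 .n .e) (.X 0 1 .n (.A 0 936 .e .n)))))) (.A 0 969 (.S 3434 (.X 18 33 .n (.A 0 901 (.X 0 2 .n .e) .e)) (.X 21 33 .n (.A 0 913 (.X 0 3 .n .e) (.X 0 1 .n (.A 0 897 .e .n))))) (.A 0 984 (.S 3434 .e (.X 19 33 .n (.A 0 916 (.X 0 1 .n .e) .e))) (.S 3434 .e (.S 3476 .e (.X 18 33 .n (.X 0 1 .n (.A 0 908 .e .n))))))))) (.A 0 877 (.A 0 815 .e (.A 0 846 .e (.S 3434 .e .e))) (.X 34 34 (.A 0 903 (.A 1 938 (.A 1 907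 (.A 0 854 .e (.X 0 3 .n .e)) (.A 0 854 (.X 0 2 .n (.N .e)) (.X 0 3 .n .e))) (.A 0 854 (.S 3434 (.A 1 969 (.A 0 830 .e .e) .e) (.A 1 969 .e (.A 0 830 .e (.S 3476 .e .e)))) (.A 1 969 (.S 3434 .e (.A 0 878 (.X 0 2 .n .e) (.A 1 953 (.X 0 1 .n .e) .e))) (.S 3434 .e (.A 0 878 (.S 3476 .e .e) .e))))) (.N (.A 0 951 (.A 1 951 (.S 3434 (.A 0 927 (.A 1 927 (.A 1 915 (.N .e) .e) .e) (.N .e)) (.A 0 927 (.X 0 1 .n .e) (.N .e))) .e) (.N .e)))) (.A 0 903 (.A 1 938 (.A 0 854 (.X 3 0 (.N .e) .n) (.X 4 0 .e .n)) (.A 0 854 (.A 1 969 .e .e) (.A 0 878 .e .e))) (.N (.A 1 951 (.N (.X 1 0 (.A 0 942 (.A 0 835 .e .e) .n) .n)) (.A 0 951 (.A 0 927 .e (.A 1 975 .e .e)) (.A 1 975 (.N .e) .e)))))))) cP1) (.S 3877 (.X 80 77 (.A 0 847 (.A 0 770 (.A 0 732 (.A 0 713 .e .e) (.A 0 751 .e (.X 66 58 .e .n)))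 (.A 0 808 (.X 72 53 (.A 0 733 .e .e) .n) (.A 0 827 (.S 3785 .e .e) (.X 51 47 .e .n)))) (.A 0 923 (.A 0 885 .e .e) (.X 24 35 .n (.A 0 946 (.X 0 7 .n (.A 0 887 .e (.A 0 916 .e (.N .e)))) (.N (.X 0 7 .n (.A 0 886 .e (.A 0 943 (.A 0 914 .e (.A 2 973 (.N .e) .e)) (.A 0 971 (.A 1 973 (.A 2 973 .e .e) (.N (.x 0))) (.N (.x 0))))))))))) (.A 0 858 (.A 0 787 .e .e) (.A 0 929 .e (.X 33 34 (.A 1 964 (.N (.X 0 3 .n (.A 0 924 .e (.N (.A 0 944 .e (.N .e)))))) (.X 0 8 .n (.A 0 881 (.A 0 822 .e .e) (.A 0 940 (.A 1 956 (.A 0 910 (.S 3785 (.A 1 934 (.A 2 982 .e (.S 3739 (.A 0 895 .e (.A 1 923 .e .e)) .e)) .e) .e) (.S 3785 (.S 3739 (.A 1 934 (.N (.A 2 982 .e (.S 3716 (.x 1) (.A 0 922 (.A 1 923 .e (.x 1)) (.N (.x 1)))))) (.A 2 982 (.A 0 925 (.A 1 945 .e (.x 1)) (.x 1)) (.x 1))) (.A 1 934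 (.N (.A 2 982 .e (.A 0 922 .e (.N (.S 3762 (.x 1) .e))))) (.A 2 982 (.A 0 925 .e .e) (.A 0 925 .e (.x 1))))) (.A 1 934 (.N .e) (.A 2 982 .e (.A 0 925 .e (.S 3831 (.A 1 945 .e (.S 3808 (.x 1) .e)) .e)))))) .e) (.N (.A 0 970 (.A 1 970 (.A 2 982 .e (.S 3785 (.x 1) (.S 3831 (.x 1) (.A 0 955 (.A 1 955 .e (.S 3854 (.x 1) .e)) (.N (.x 1)))))) (.N (.A 0 955 .e (.x 1)))) (.N (.x 1)))))))) (.A 0 951 (.A 0 926 (.S 3785 (.A 1 964 .e (.A 0 914 (.X 2 1 (.N .e) .n) (.S 3739 (.X 1 0 (.A 2 982 .e (.S 3716 (.x 2) .e)) .n) .e))) .e) (.A 1 964 (.X 3 0 .e .n) (.S 3785 (.X 1 0 (.A 0 914 .e (.A 2 982 .e (.S 3739 (.x 2) (.A 0 932 (.A 1 938 (.A 0 923 .e (.S 3762 (.x 2) .e)) .e) (.N (.x 2)))))) .n) (.A 0 938 (.X 2 1 (.N .e) .n) (.S 3831 (.A 1 982 (.A 1 973 .e (.X 1 0 (.N (.x 2)) .n)) (.A 1 991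 (.A 0 944 .e (.X 1 0 (.x 2) .n)) (.S 3808 (.X 1 0 (.x 2) .n) (.X 1 0 (.N (.x 2)) .n)))) .e))))) (.N (.X 2 0 (.A 0 907 (.A 0 860 .e (.A 2 975 (.N .e) .e)) (.A 1 975 (.N (.A 0 941 .e (.A 2 975 (.A 2 963 (.N .e) .e) (.A 2 987 .e (.S 3785 (.x 2) (.A 0 958 (.A 1 963 (.A 0 949 .e (.x 2)) (.x 2)) (.N (.x 2)))))))) (.N (.A 0 953 (.A 0 930 .e (.A 2 987 (.N .e) (.x 2))) (.x 2))))) .n))))))) cP2))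
def cP4 : Ct := (.S 3351 (.S 2628 (.S 2271 (.S 2163 (.X 66 2 (.A 0 753 (.A 0 629 (.A 0 567 .e .e) .e) .e) .n) (.X 66 66 (.A 0 765 (.A 0 647 (.A 0 588 (.A 0 559 .e .e) .e) .e) .e) (.A 0 765 (.A 0 647 (.A 0 588 (.A 0 559 (.A 0 544 .e .e) .e) .e) .e) (.A 0 882 .e .e)))) (.S 2384 (.X 64 11 (.A 0 783 (.A 0 674 (.A 0 620 (.A 0 593 (.S 2327 .e .e) (.S 2327 .e (.S 2355 .e .e))) (.A 0 647 .e .e)) (.A 0 728 .e .e)) .e) .n) (.S 2503 (.X 63 15 (.A 0 798 (.A 0 697 (.A 0 647 (.X 38 52 .n (.A 0 604 (.X 23 33 .n .e) (.N .e))) (.X 28 53 .n (.A 0 616 .e .e))) .e) .e) .n) (.X 61 18 (.A 0 818 (.A 0 727 (.A 0 681 (.X 37 52 .n (.A 0 632 .e .e)) (.X 28 52 .n (.A 0 645 .e .e))) .e) (.A 0 909 .e .e)) .n)))) (.S 2896 (.S 2759 (.X 57 22 (.A 0 845 (.A 0 768 (.A 0 729 (.X 33 52 .n (.A 0 663 .e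 .e)) (.A 0 748 .e .e)) (.A 0 806 .e .e)) (.A 0 922 .e (.A 0 961 .e .e))) .n) (.X 56 26 (.A 0 863 (.A 0 794 (.A 0 760 (.A 0 743 .e .e) (.X 33 27 .e .n)) (.X 29 14 .e .n)) (.A 0 931 (.A 0 897 .e .e) (.A 0 965 .e (.S 2827 .e .e)))) .n)) (.S 3040 (.X 85 59 (.A 0 776 (.A 0 664 (.A 0 608 (.A 0 580 (.S 2968 .e .e) (.S 2968 .e .e)) .e) (.A 0 720 .e (.X 35 37 .n (.N .e)))) (.A 0 888 (.A 0 832 (.A 0 804 (.X 33 30 (.N .e) .n) (.S 2968 .e .e)) .e) (.A 0 944 .e (.A 0 972 .e .e)))) (.A 0 865 (.A 0 797 .e .e) (.A 0 932 .e .e))) (.S 3192 (.X 54 57 (.A 0 899 (.A 0 849 (.A 0 824 .e .e) .e) (.A 0 949 .e .e)) (.A 0 887 (.A 0 830 (.A 0 802 .e .e) .e) (.A 0 943 (.A 0 915 .e .e) (.A 0 971 .e .e)))) (.X 66 66 (.A 0 864 (.A 0 796 (.A 0 762 (.X 52 47 (.A 0 743 .e (.N .e)) .n) (.A 0 779 (.S 3271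 .e (.X 50 46 .e .n)) .e)) (.A 0 830 .e .e)) (.A 0 932 (.A 0 898 .e .e) (.A 0 966 .e .e))) (.A 0 864 (.A 0 796 .e (.A 0 830 .e (.A 0 847 .e (.S 3271 .e .e)))) (.A 0 932 (.A 0 898 (.X 25 28 .n (.N .e)) (.A 0 915 .e .e)) (.A 0 966 (.X 13 33 .n (.A 0 876 .e .e)) (.X 8 33 .n (.A 0 882 .e .e)))))))))) (.S 4273 cP3 (.S 4710 (.S 4486 (.X 77 55 (.A 0 895 (.A 0 842 (.X 70 59 (.A 0 798 (.A 0 776 .e .e) (.N .e)) .n) (.X 72 52 (.A 0 810 .e .e) .n)) (.A 0 947 (.X 77 45 (.A 0 810 .e (.A 0 878 .e .e)) .n) (.A 0 973 .e .e))) .n) (.X 77 58 (.A 0 908 (.A 0 862 (.X 69 60 (.A 0 825 .e (.N .e)) .n) (.X 71 54 (.A 0 834 .e .e) .n)) (.A 0 954 (.A 0 931 .e (.S 4598 .e .e)) (.A 0 977 .e .e))) .n)) (.S 4945 (.X 76 60 (.A 0 925 (.A 0 888 (.X 68 60 (.A 0 855 .e (.N .e)) .n) (.X 70 56 .e .n)) (.A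 0 962 (.X 71 51 (.A 0 870 .e .e) .n) (.X 72 46 (.A 0 879 .e (.A 0 939 .e .e)) .n))) .n) (.S 5192 (.X 77 71 (.A 0 934 (.A 0 901 (.X 67 62 .e .n) (.S 5068 (.A 0 917 .e .e) (.A 0 917 .e .e))) (.X 73 50 (.A 0 891 (.A 0 837 (.A 0 810 .e .e) .e) .e) .n)) .e) (.X 83 70 (.A 0 919 (.A 0 879 (.S 5321 .e .e) (.X 73 64 (.A 0 876 (.A 0 855 .e .e) .e) .n)) (.A 0 959 (.A 0 939 (.X 67 61 .e .n) (.S 5321 (.S 5256 .e .e) (.A 0 949 .e .e))) (.X 77 54 (.A 0 890 (.A 0 835 .e (.A 0 862 .e .e)) .e) .n))) .e))))))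
def cP5 : Ct := (.S 6009 (.S 5723 (.X 86 70 (.A 0 918 (.A 0 877 (.X 77 72 (.N (.A 0 857 .e (.N .e))) .n) (.A 0 897 (.S 5587 (.S 5519 .e .e) (.A 0 887 .e .e)) (.S 5587 (.A 0 907 .e (.A 0 912 (.S 5519 .e .e) .e)) (.S 5655 (.A 0 907 .e .e) .e)))) (.A 0 959 (.A 0 938 (.S 5587 (.X 66 65 (.N .e) .n) (.S 5655 (.X 77 66 (.A 0 889 (.A 0 865 .e .e) .e) .n) (.X 77 67 (.A 0 893 (.A 0 871 .e .e) .e) .n))) (.S 5587 (.X 77 62 (.A 0 890 (.A 0 855 .e .e) .e) .n) (.X 77 64 (.A 0 898 (.X 66 58 (.X 52 43 .e .n) .n) .e) .n))) (.A 0 979 (.S 5587 (.A 0 969 (.X 77 61 (.A 0 894 (.A 0 856 .e .e) .e) .n) .e) (.X 77 61 (.A 0 905 (.X 66 57 (.X 52 41 .e .n) .n) .e) .n)) (.S 5587 (.A 0 989 (.S 5519 (.A 0 984 (.S 5485 .e .e) .e) .e) .e) (.S 5655 (.A 0 989 (.A 0 984 .e (.X 77 60 (.A 0 909 (.A 0 869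 .e .e) .e) .n)) (.A 0 994 (.S 5621 .e .e) .e)) (.X 77 60 (.A 0 917 (.X 66 56 (.X 53 39 .e .n) .n) .e) .n)))))) .e) (.X 86 72 (.A 0 931 (.A 0 896 (.A 0 879 (.X 77 75 (.N .e) .n) (.X 77 73 .e .n)) (.S 5866 (.A 0 913 (.S 5794 (.A 0 904 .e (.S 5758 .e .e)) .e) (.X 77 69 (.A 0 894 (.A 0 876 .e .e) .e) .n)) (.A 0 913 (.A 0 904 .e .e) (.S 5937 .e (.X 77 71 .e .n))))) (.X 77 61 (.A 0 921 (.A 1 965 (.A 0 882 (.X 66 63 (.N (.X 52 49 (.N .e) .n)) .n) (.X 66 57 (.X 52 42 .e .n) .n)) (.A 0 882 (.X 66 61 (.N (.X 52 47 .e .n)) .n) (.X 66 56 (.X 52 40 .e .n) .n))) (.A 0 960 (.A 1 965 (.S 5866 .e (.A 0 940 .e (.N .e))) .e) (.N .e))) .n)) .n)) (.S 6309 (.X 86 74 (.A 0 944 (.X 77 71 (.A 0 915 (.A 1 916 .e .e) (.N (.S 6159 .e .e))) .n) (.A 0 972 (.S 6159 (.A 0 958 (.S 6084 .e (.S 6121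 .e (.A 0 951 .e .e))) (.S 6084 (.X 77 67 (.A 0 926 (.A 0 903 .e .e) .e) .n) .e)) (.X 77 69 (.A 0 934 (.A 0 915 .e .e) (.A 0 953 .e (.N .e))) .n)) (.X 77 64 (.A 0 937 (.X 66 59 (.X 52 43 .e .n) .n) (.A 0 968 (.S 6159 .e (.A 0 952 .e .e)) .e)) .n))) .n) (.S 6624 (.X 86 77 (.A 0 957 (.X 77 72 (.N .e) .n) (.A 0 978 (.X 77 70 (.S 6466 (.A 0 945 .e (.A 0 961 .e (.N .e))) .e) .n) (.S 6466 (.A 0 989 (.X 77 69 (.A 0 949 .e (.A 0 969 .e .e)) .n) (.S 6387 .e (.S 6426 (.S 6406 .e .e) .e))) (.X 77 69 (.A 0 961 .e (.A 0 980 .e (.N .e))) .n)))) .n) (.S 6789 .e .e))))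
def cP : Ct := (.S 5451 cP4 (.S 8874 (.S 6955 cP5 (.S 7667 (.S 7302 .e .e) (.S 8050 (.S 7858 .e .e) (.S 8452 (.S 8251 .e .e) .e)))) (.S 11323 (.S 9782 (.S 9317 (.S 9095 (.X 122 96 (.A 0 878 (.A 0 817 .e .e) (.A 0 939 .e .e)) .n) .e) (.S 9549 .e (.X 104 99 (.A 0 978 .e .e) .n))) (.S 10271 (.X 105 101 (.A 0 979 .e (.S 10026 (.X 98 95 .e .n) (.X 99 96 (.A 0 988 .e (.N .e)) .n))) .n) (.S 10784 (.X 126 103 (.A 0 893 (.A 0 839 (.A 0 812 .e .e) (.A 0 866 .e .e)) (.A 0 946 (.A 0 919 .e .e) (.A 0 973 .e (.X 99 98 (.N .e) .n)))) .n) .e))) (.S 13107 (.S 11889 (.S 11606 (.X 126 108 (.A 0 914 (.A 0 871 .e .e) (.A 0 957 .e .e)) .n) .e) (.S 12483 (.S 12186 .e (.X 126 112 (.A 0 931 (.A 0 897 .e .e) (.A 0 965 .e .e)) .n)) (.S 12795 (.X 126 113 (.A 0 937 (.A 0 905 .e .e) (.A 0 968 .e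 .e)) .n) .e))) (.S 13762 (.S 13434 .e (.X 126 117 (.A 0 955 .e (.A 0 977 .e .e)) .n)) (.S 14450 (.X 126 123 (.A 0 961 (.A 0 941 .e .e) .e) .e) (.X 126 120 (.A 0 973 (.S 14735 (.A 0 959 .e .e) .e) .e) .n)))))))
theorem cP_ok : chk par tab 19168 1280 206 xs cP 2060 15020 [.p 1000 1000] = true := by decide +kernel
def cM1 : Ct := (.S 3708 (.X 52 52 (.X 33 33 (.X 0 33 .n (.A 0 755 (.A 0 633 (.A 1 934 .e (.N .e)) (.A 1 934 .e (.N .e))) (.A 0 877 (.A 1 934 (.A 0 816 (.A 2 955 .e .e) (.A 2 955 (.A 0 846 .e .e) (.A 0 846 .e (.A 1 901 (.S 3620 (.A 1 884 (.A 2 977 .e (.S 3576 (.A 0 861 .e (.A 2 988 .e .e)) .e)) .e) .e) .e)))) (.N .e)) (.N (.A 1 938 (.N (.A 2 955 (.A 0 907 (.A 1 907 .e .e) (.N .e)) (.S 3620 (.A 1 907 (.N (.A 2 977 (.A 1 892 (.N .e) (.A 0 892 .e .e)) (.S 3576 (.A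 1 892 (.N (.A 2 988 (.A 1 884 (.N .e) .e) .e)) (.A 0 892 .e (.x 5))) (.A 1 892 (.N (.A 2 988 .e (.S 3598 .e .e))) (.A 0 892 (.A 2 988 .e .e) (.x 5)))))) (.A 0 907 (.A 2 977 .e (.A 0 892 .e (.x 5))) (.x 5))) (.A 1 907 (.N (.A 2 977 .e (.S 3664 (.A 0 892 .e (.N (.A 2 988 (.S 3642 (.x 5) .e) (.x 5)))) .e))) (.A 0 907 (.A 2 977 .e (.A 1 922 (.A 0 892 .e (.A 2 988 .e (.A 1 914 (.S 3664 (.x 5) .e) .e))) .e)) (.A 2 977 (.A 0 922 (.A 1 922 .e .e) (.N (.x 5))) (.S 3664 (.x 5) (.A 1 922 (.N (.S 3686 (.x 5) (.A 2 988 .e (.x 5)))) (.x 5))))))))) (.N (.A 0 938 (.A 0 907 .e (.A 2 969 (.N .e) (.x 5))) (.x 5)))))))) (.X 3 0 (.A 0 853 .e (.A 0 926 (.A 1 934 (.A 2 955 (.A 1 901 (.N .e) .e) (.S 3620 (.A 0 889 (.A 1 901 (.A 2 977 .e (.S 3576 (.A 1 884 (.N (.A 2 988 (.A 0 868 .e (.S 3554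 (.A 1 876 (.N .e) .e) .e)) (.A 0 868 (.A 1 876 .e .e) .e))) (.A 0 871 .e (.A 2 988 .e .e))) (.A 0 871 .e (.N (.A 1 886 (.N .e) (.A 2 988 .e (.A 0 880 .e (.x 4)))))))) .e) (.N (.S 3576 (.x 4) (.A 2 977 (.A 1 911 (.N .e) (.x 4)) (.x 4))))) (.A 0 889 (.A 1 901 .e .e) (.N (.A 2 977 (.A 1 911 (.N .e) .e) (.S 3664 (.A 1 911 (.N (.A 2 988 (.A 1 900 (.N .e) .e) (.A 1 900 (.N (.S 3642 (.x 4) .e)) (.x 4)))) (.x 4)) (.A 1 911 (.N .e) (.A 0 907 .e (.S 3686 (.x 4) (.A 2 988 (.A 1 922 (.N .e) (.x 4)) (.x 4))))))))))) (.N .e)) (.N (.S 3620 (.x 4) (.A 0 963 (.A 2 963 (.N (.A 2 944 (.N .e) (.A 1 944 (.N .e) (.x 4)))) (.x 4)) (.N .n)))))) .n)) (.X 33 19 (.A 0 934 (.X 1 0 .e .n) (.N (.X 1 0 (.A 0 982 (.A 0 851 .e (.A 0 916 .e (.S 3620 (.x 3) (.A 2 967 (.N (.A 0 941 .e (.N (.x 3)))) (.x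 3))))) .n) .n))) .n)) (.X 52 52 (.X 33 33 (.S 3800 (.X 0 6 .n (.A 0 894 (.A 0 841 .e .e) (.A 0 947 (.A 1 958 (.A 2 970 (.A 0 920 .e (.N (.A 1 939 (.N .e) (.A 0 933 .e .e)))) (.A 0 920 (.A 1 937 (.S 3754 (.A 2 985 .e (.A 0 907 .e (.A 1 926 .e .e))) .e) .e) (.N (.S 3754 (.A 1 939 (.N (.A 2 985 (.A 0 929 (.A 1 929 .e .e) (.N (.x 5))) (.x 5))) (.x 5)) (.A 1 939 (.N (.A 2 985 .e (.S 3777 (.A 1 929 (.N .e) (.x 5)) .e))) (.A 0 933 .e (.A 1 948 (.A 2 985 (.S 3777 (.x 5) .e) (.x 5)) (.x 5)))))))) (.N (.A 0 920 .e (.A 2 979 (.N .e) (.x 5))))) (.N (.A 2 973 (.N .e) (.x 5)))))) (.A 0 958 (.A 1 970 .e (.A 0 937 .e (.A 1 985 (.X 0 1 .n (.N .e)) (.X 0 1 .n (.S 3846 (.A 0 943 (.A 1 947 .e .e) (.N (.x 5))) .e))))) (.N (.X 0 2 .n (.A 0 937 (.A 0 906 .e .e) (.A 0 968 (.A 0 952 (.A 2 979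 (.N (.S 3846 .e .e)) .e) (.A 2 979 (.N (.A 2 968 (.N .e) (.A 0 960 .e (.N .e)))) (.A 1 979 (.S 3846 (.x 5) (.A 2 989 (.A 0 960 .e (.N (.x 5))) (.x 5))) (.x 5)))) (.N (.x 5)))))))) (.A 0 958 (.A 1 970 (.X 2 0 (.S 3800 (.A 1 937 (.N .e) .e) .e) .n) (.A 0 937 (.S 3800 (.A 1 985 (.S 3754 (.A 0 926 .e (.X 1 0 .e .n)) .e) (.A 0 926 (.S 3754 (.A 1 992 (.X 1 0 (.N (.x 4)) .n) (.X 1 0 (.x 4) .n)) .e) (.S 3754 (.S 3731 (.X 1 0 (.x 4) .n) (.X 1 0 (.x 4) .n)) (.S 3777 (.X 1 0 (.x 4) .n) .e)))) .e) (.S 3800 (.X 1 0 (.A 0 918 .e (.S 3754 (.x 4) (.A 0 938 (.A 2 985 .e (.A 1 947 (.S 3777 (.x 4) .e) (.x 4))) (.N (.x 4))))) .n) (.A 1 985 (.X 1 0 (.N .e) .n) (.X 1 0 (.S 3846 (.A 0 943 (.A 1 947 .e .e) (.N (.x 4))) .e) .n))))) (.N (.X 1 0 (.A 0 916 .e (.S 3800 (.A 0 958 (.A 2 979 (.N .e)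 (.x 4)) (.x 4)) (.A 0 958 (.A 2 979 (.N .e) (.A 1 979 (.A 0 937 .e (.A 2 989 .e (.A 1 968 (.A 0 947 .e (.A 2 994 .e (.x 4))) (.x 4)))) .e)) (.S 3846 (.x 4) (.A 2 979 (.N (.A 0 968 .e (.N (.x 4)))) (.x 4)))))) .n)))) (.X 34 24 (.A 0 953 (.X 1 0 .e .n) (.N (.X 1 0 (.A 0 916 .e (.S 3800 (.A 0 958 (.A 1 976 .e (.N (.x 3))) (.N (.x 3))) (.A 0 958 (.A 1 976 .e (.N .e)) (.N (.S 3846 (.x 3) (.A 2 979 (.N (.A 1 968 (.N .e) (.N .e))) (.x 3))))))) .n))) .n)))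
def cM2 : Ct := (.S 2769 (.S 2280 (.S 2069 (.S 2020 (.X 1 0 (.A 0 991 .e .n) .n) (.S 2044 (.X 1 0 (.A 0 997 .n .n) .n) .e)) (.S 2172 .e .e)) (.S 2513 (.S 2394 .e .e) (.S 2638 .e .e))) (.S 3204 (.S 2907 .e (.S 3052 (.X 45 30 (.A 0 925 .e (.A 0 962 .e .e)) .n) (.X 52 52 (.A 0 909 (.A 0 864 .e (.A 0 886 .e .e)) (.X 2 33 .n (.A 0 859 (.A 0 789 .e .e) (.A 0 929 .e (.N .e))))) (.A 0 909 (.X 33 18 (.X 1 0 .e .n) .n) .e)))) (.S 3532 (.S 3364 (.X 52 52 (.X 33 33 (.A 0 884 (.A 1 924 (.X 0 1 .n (.A 0 815 (.A 1 826 .e .e) (.N .e))) (.A 0 826 (.A 1 962 (.S 3284 (.A 1 943 (.A 0 797 .e .e) .e) (.X 0 1 .n (.N .e))) (.S 3284 .e .e)) (.A 1 962 (.S 3284 .e (.A 0 855 (.A 1 943 (.X 0 1 .n .e) .e) (.A 1 943 (.A 0 869 (.X 0 1 .n .e) .e) .e))) .e))) (.N (.A 1 942 (.N (.A 0 913 (.X 0 3 .n (.A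 0 896 (.A 0 784 .e .e) .n)) (.N .e))) .e))) (.A 0 884 (.A 1 924 (.A 0 826 (.X 2 0 (.N .e) .n) (.X 1 0 .e .n)) (.A 0 826 (.A 1 962 (.A 0 797 .e .e) .e) (.A 1 962 (.A 0 855 .e (.X 1 0 (.A 0 883 .e .n) .n)) .e))) (.N (.A 1 942 (.N (.X 1 0 (.A 0 896 .e .n) .n)) (.A 0 942 .e .e))))) (.A 0 924 (.X 33 21 (.X 1 0 .e .n) .n) .e)) (.X 52 52 (.X 33 33 (.A 0 909 (.A 1 939 (.X 0 1 .n (.A 0 855 (.A 1 864 .e .e) (.N .e))) (.A 1 969 (.A 0 864 (.S 3448 (.X 0 1 .n (.A 0 839 (.A 1 841 .e .e) (.N .e))) (.X 0 1 .n (.N .e))) (.S 3448 (.A 0 886 (.A 1 954 (.X 0 1 .n (.A 0 847 .e .e)) .e) (.X 0 1 .n (.A 0 884 .e .n))) (.X 0 1 .n (.A 0 863 .e (.A 0 886 (.A 1 886 .e .e) (.N (.x 5))))))) (.A 0 864 (.S 3448 (.A 0 841 .e .e) (.A 0 841 .e (.A 1 984 (.S 3490 .e .e) .e))) (.S 3448 .e (.A 0 886 (.A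 1 984 (.S 3490 .e (.A 0 875 (.X 0 1 .n .e) .e)) .e) .e))))) (.N (.X 0 8 .n (.A 0 938 (.A 0 745 .e (.A 0 841 .e (.A 0 889 .e (.x 5)))) .n)))) (.A 0 909 (.A 1 939 (.X 2 0 (.A 1 864 (.N .e) .e) .n) (.A 0 864 (.A 1 969 (.A 0 841 .e (.X 2 0 .e .n)) (.A 0 841 .e .e)) (.A 1 969 (.A 0 886 (.X 1 0 .e .n) (.X 1 0 .e .n)) (.A 0 886 .e .e)))) (.N (.A 1 954 (.N (.X 1 0 (.A 0 938 .e .n) .n)) (.X 1 0 (.A 0 892 .e .n) .n))))) (.A 0 939 (.X 33 24 (.X 1 0 .e .n) .n) (.A 0 969 (.X 33 19 (.X 1 0 .e .n) .n) .e)))) cM1)))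
def cM : Ct := (.S 3893 (.S 1971 (.S 1403 (.S 1157 (.S 1050 .e (.S 1102 .e .e)) (.S 1274 (.S 1214 .e .e) (.S 1337 .e .e))) (.S 1623 (.S 1473 .e (.S 1546 .e .e)) (.S 1789 (.S 1704 .e (.X 1 0 (.A 0 889 .e .n) .n)) (.S 1878 (.X 1 0 (.A 0 938 .e .n) .n) (.X 1 0 (.A 0 979 .e .n) .n))))) cM2) (.S 7698 (.S 5474 (.S 4505 (.S 4087 (.X 52 53 (.A 0 986 (.S 3990 (.S 3941 (.A 0 979 (.X 33 33 (.N (.X 0 1 .n (.N (.x 5)))) (.N (.X 1 0 (.N (.x 4)) .n))) (.X 33 33 (.S 3917 (.X 0 1 .n (.x 5)) (.X 0 1 .n (.N (.x 5)))) (.S 3917 (.X 1 0 (.x 4) .n) (.X 1 0 (.N (.x 4)) .n)))) (.X 33 33 (.N .e) (.N .e))) .e) (.X 33 33 (.S 3990 (.S 3941 (.A 0 982 (.S 3917 (.A 0 973 (.X 0 1 .n (.x 5)) (.X 0 1 .n (.x 5))) (.A 0 973 .e (.X 0 1 .n (.x 5)))) (.X 0 1 .n (.A 0 967 .e (.x 5)))) (.A 0 982 (.X 0 1 .n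 (.N .e)) (.S 3965 (.A 0 991 (.X 0 1 .n (.x 5)) (.N (.X 0 1 .n (.x 5)))) (.S 3977 (.X 0 1 .n (.x 5)) (.X 0 1 .n (.x 5)))))) (.X 0 1 .n (.N (.S 4038 (.S 4014 (.A 1 992 (.N .e) (.N (.x 5))) .e) .e)))) (.S 3990 (.S 3941 (.A 0 982 (.A 0 973 (.S 3917 (.X 1 0 (.x 4) .n) .e) (.X 1 0 (.A 0 967 .e (.x 4)) .n)) (.X 1 0 (.A 0 967 .e (.x 4)) .n)) (.X 1 0 (.A 1 982 (.N .e) (.A 0 979 .e (.x 4))) .n)) (.X 2 0 (.N (.S 4038 (.A 0 986 .e (.N (.S 4014 (.x 4) .e))) .e)) .n)))) (.S 3990 (.A 0 981 (.X 34 32 (.N (.X 1 0 (.N .e) .n)) .n) (.X 33 29 (.A 0 982 (.X 1 0 .e .n) (.N (.X 1 0 (.A 0 967 .e (.S 3941 (.x 3) (.A 0 983 (.A 2 991 (.N .e) .e) (.N (.x 3))))) .n))) .n)) (.X 34 32 (.N (.A 0 989 .e (.N (.S 4038 (.S 4014 (.X 1 0 (.x 3) .n) (.X 1 0 (.N (.x 3)) .n)) .e)))) .n))) (.S 4291 (.X 53 53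 .e .e) .e)) (.S 4966 (.S 4730 .e .e) (.S 5214 .e .e))) (.S 6335 (.S 5747 (.X 70 69 .e .n) (.S 6034 .e .e)) (.S 6983 (.S 6651 .e .e) (.S 7332 .e .e)))) (.S 10828 (.S 8910 (.S 8082 .e (.S 8486 .e .e)) (.S 9822 (.S 9355 .e .e) (.S 10313 .e .e))) (.S 12533 (.S 11369 .e (.S 11937 .e .e)) (.S 13816 (.S 13159 .e .e) (.S 14506 (.X 124 118 .e .n) .e))))))
theorem cM_ok : chk par tab 19168 1280 206 xs cM 1000 15020 [.m 1000 1000] = true := by decide +kernel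

/-- exceptional boxes for the star regime, p in [4618, 4790] / 2 ^ 14 -/
def ys1 : List XC := [⟨[.m 200 250, .p 1000 1000], 438045⟩, ⟨[.m 250 300, .p 1000 1000], 425434⟩, ⟨[.m 300 350, .p 1000 1000], 413898⟩, ⟨[.m 350 400, .p 1000 1000], 401555⟩, ⟨[.m 400 450, .p 1000 1000], 389749⟩, ⟨[.m 450 500, .p 1000 1000], 380358⟩, ⟨[.m 500 550, .p 1000 1000], 377407⟩, ⟨[.m 550 600, .p 1000 1000], 389213⟩, ⟨[.m 600 650, .p 1000 1000], 409336⟩, ⟨[.m 650 700, .p 1000 1000], 429727⟩, ⟨[.m 700 750, .p 1000 1000], 450924⟩, ⟨[.m 750 800, .p 1000 1000], 486341⟩, ⟨[.m 800 850, .p 1000 1000], 524173⟩, ⟨[.m 850 900, .p 1000 1000], 565760⟩, ⟨[.m 900 950, .p 1000 1000], 610301⟩, ⟨[.m 950 1000, .p 1000 1000], 676305⟩, ⟨[.m 1000 1050, .p 1000 1000], 749553⟩]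
def cS1_ : Ct := (.S 1739 (.S 1593 (.S 1547 (.X 0 33 .n (.A 0 740 (.A 0 600 (.A 0 550 (.A 0 500 (.x 5) (.x 6)) (.x 7)) (.A 0 650 (.x 8) (.A 0 700 (.x 9) (.x 10)))) .n)) (.X 0 33 .n (.A 0 771 (.A 0 650 (.A 0 600 (.A 0 550 (.x 6) (.x 7)) (.x 8)) (.A 0 700 (.x 9) (.A 0 750 (.x 10) (.x 11)))) .n))) (.S 1640 (.X 0 33 .n (.A 0 801 (.A 0 650 (.A 0 600 (.A 0 550 (.x 6) (.x 7)) (.x 8)) (.A 0 750 (.A 0 700 (.x 9) (.x 10)) (.A 0 800 (.x 11) (.x 12)))) .n)) (.S 1689 (.X 0 13 .n (.A 0 831 (.A 0 750 (.A 0 700 (.x 9) (.x 10)) (.A 0 800 (.x 11) (.x 12))) .n)) (.X 0 11 .n (.A 0 860 (.A 0 800 (.A 0 750 (.x 10) (.x 11)) (.A 0 850 (.x 12) (.x 13))) .n))))) (.S 1899 (.S 1791 (.X 0 6 .n (.A 0 890 (.A 0 850 (.x 12) (.x 13)) .n)) (.S 1844 (.X 0 8 .n (.A 0 919 (.A 0 850 (.x 12) (.A 0 900 (.x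 13) (.x 14))) .n)) (.X 33 17 (.A 0 949 .e .n) (.A 0 949 (.A 0 850 .e (.A 0 900 (.x 13) (.x 14))) .n)))) (.S 1955 (.X 33 4 (.A 0 978 .e .n) (.A 0 978 (.A 0 950 (.x 14) (.x 15)) .n)) (.S 2013 (.X 33 2 .e (.x 15)) (.X 33 1 .e (.x 15))))))
theorem cS1_ok : chk par tab 19168 1280 0 ys1 cS1_ 1502 2060 [.p 1000 1000] = true := by decide +kernel

end Pool.Agent.MMS15.TC4
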