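import Pool.Agent.MMS15.TabG
import Pool.Agent.MMS15.TC4
import Pool.Agent.MMS15.TH4

/-!
# MMS15/TabP4: k / n in [4618, 4790] / 2 ^ 14 (glue, complete)
-/

set_option autoImplicit false
set_option maxRecDepth 100000

namespace Pool.Agent.MMS15

open Pool.Agent.MMS14

theorem rowP4 : ∀ r, RowP (rowv TP4.rows r) := rowP_all TP4.len_ok TP4.ends_ok

theorem goodP4 : Good TP4.par.P0 TP4.par.P1 TP4.rows :=
  good_of_checks TP4.par_ok TP4.len_ok TP4.cells1 TP4.cells2 TP4.cells3 TP4.cells4 TP4.cells5 TP4.ends_ok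
    (base_ok (by decide) TP4.err_ok)

theorem vmP4 : ∀ v ∈ TP4.vm, v ≤ 65536 := all_le' (by decide +kernel)

theorem lowP4 : LowOk TP4.par.P0 TP4.par.P1 TP4.vm :=
  low_of (q := TP4.par) (rows := TP4.rows) (vm := TP4.vm) TP4.par_ok TP4.len_ok rowP4 goodP4 TP4.min_ok (by decide +kernel) vmP4

theorem nonP4 : NonP ((((4618 : ℕ) : ℝ) + 0.1) / 16384) ((((4790 : ℕ) : ℝ) - 0.1) / 16384) :=
  nonstar_cell (q := TP4.par) (rows := TP4.rows) (tab := TP4.tab) (vm := TP4.vm) (xs := TC4.xs) (tgt := 19168) TP4.par_ok TP4.len_ok rowP4 goodP4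
    TP4.look_ok lowP4 vmP4 (by decide +kernel) (v00 := 64704) (v0 := 13009) (g := 18385) (by decide +kernel) (by decide +kernel) TP4.pair_ok (by decide +kernel)
    (by decide) (by decide) (xs_t4) rfl TC4.cP_ok TC4.cM_ok (top_of' rfl TP4.top_ok)

theorem lowH4 : StarLowOk TH4.par.P0 TH4.par.P1 TH4.vs :=
  starLow_of (q := TH4.par) (rows := TH4.rows) (tab := TH4.tab) (vs := TH4.vs) TH4.par_ok TH4.len_ok
    (Pool.Agent.MMS14.rowP_all TH4.len_ok TH4.ends_ok)
    (Pool.Agent.MMS14.good_of_checks TH4.par_ok TH4.len_ok TH4.cells1 TH4.cells2 TH4.cells3 TH4.cells4 TH4.cells5 TH4.ends_ok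
      (Pool.Agent.MMS14.base_ok (by decide) TH4.err_ok)) TH4.look_ok TH4.min_ok (by decide +kernel) (all_le' (by decide +kernel))

theorem starP4 : StarP (((4618 : ℕ) : ℝ) / 16384) (((4790 : ℕ) : ℝ) / 16384) :=
  star_cell (q := TP4.par) (rows := TP4.rows) (tab := TP4.tab) TP4.par_ok TP4.len_ok rowP4 goodP4 TP4.look_ok
    (Q0 := 6428) (Q1 := 6771) (vs := TH4.vs) (ws := TH4.ws) lowH4 TH4.vs_len (all_le' (by decide +kernel)) TH4.w_ok (by decide) (by decide) (by decide) TH4.a1_ok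
    (b1_of TH4.b1_ok) ⟨TH4.b1s.getLast (by decide), List.getLast_mem _, by decide +kernel, by decide +kernel, by decide +kernel⟩ (b2_of TH4.b2_ok)
    (ys := TC4.ys1) rfl (tgt := 19168) (sa := 1502) (A := 4618) (B := 4790) (by decide) TC4.cS1_ok (by decide) (by decide) (by decide) (by decide) (by decide) (by decide) (by decide)

end Pool.Agent.MMS15
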