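import Pool.Agent.MMS15.TP1

/-!
# MMS15/TC1: certificate trees for p in [4090, 4255] / 2 ^ 14

Everything is checked by kernel evaluation.
-/

set_option autoImplicit false
set_option maxRecDepth 100000

namespace Pool.Agent.MMS15.TC1

open Pool.Agent.MMS15.TP1 (par tab)

/-- exceptional boxes (last atom first) -/
def xs : List XC := []
def cP : Ct := (.S 5451 (.S 3351 (.S 2628 (.S 2271 (.S 2163 .e .e) (.S 2384 (.S 2327 .e .e) (.S 2503 .e .e))) (.S 2896 (.S 2759 .e .e) (.S 3040 .e (.S 3192 .e .e)))) (.S 4273 (.S 3693 (.S 3518 (.S 3434 .e (.S 3476 .e (.X 52 42 (.A 0 949 .e .e) .n))) (.X 52 42 (.A 0 953 (.S 3605 (.X 33 26 .e .n) (.X 33 29 (.N .e) .n)) (.A 0 976 (.X 33 23 .e .n) (.S 3605 .e (.X 33 22 .e .n)))) .n)) (.S 3877 (.X 53 46 (.X 34 24 (.A 0 951 (.A 1 964 (.S 3785 (.A 0 926 .e (.A 1 946 (.N .e) .e)) .e) (.S 3785 .e (.A 0 926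 .e .e))) (.N (.A 1 975 (.N .e) (.S 3785 .e (.A 0 975 .e (.S 3831 .e (.A 1 987 (.N .e) .e))))))) .n) .n) (.S 4070 (.X 53 49 (.S 3973 (.A 0 979 (.S 3925 (.X 33 32 (.N .e) .n) (.X 34 33 (.N .e) .n)) (.X 34 29 (.A 0 975 (.X 2 0 (.S 3925 .e .e) .n) (.A 0 987 (.S 3925 (.X 2 0 .e .n) (.X 2 0 .e .n)) (.N (.X 2 0 .e .n)))) .n)) (.A 0 979 .e (.S 4021 (.X 34 31 (.X 2 0 .e .n) .n) (.X 34 32 (.N (.X 2 0 (.N .e) .n)) .n)))) .n) (.X 53 52 (.X 34 33 (.N .e) .n) .n)))) (.S 4710 (.S 4486 .e .e) (.S 4945 .e (.S 5192 .e .e))))) (.S 8874 (.S 6955 (.S 6009 (.S 5723 .e .e) (.S 6309 .e (.S 6624 .e .e))) (.S 7667 (.S 7302 .e .e) (.S 8050 .e (.S 8452 .e .e)))) (.S 11323 (.S 9782 (.S 9317 .e .e) (.S 10271 .e (.S 10784 .e .e))) (.S 13107 (.S 11889 .e (.S 12483 .e .e)) (.S 13762 .e (.S 14450 .e .e))))))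
theorem cP_ok : chk par tab 17028 1280 206 xs cP 2060 15020 [.p 1000 1000] = true := by decide +kernel
def cM : Ct := (.S 3893 (.S 1971 (.S 1403 (.S 1157 (.S 1050 .e (.S 1102 .e .e)) (.S 1274 (.S 1214 .e .e) (.S 1337 .e .e))) (.S 1623 (.S 1473 .e (.S 1546 .e .e)) (.S 1789 (.S 1704 .e (.X 1 0 (.A 0 889 .e .n) .n)) (.S 1878 (.X 1 0 (.A 0 938 .e .n) .n) (.X 1 0 (.A 0 979 .e .n) .n))))) (.S 2769 (.S 2280 (.S 2069 (.S 2020 (.X 1 0 (.A 0 991 .e .n) .n) (.S 2044 (.X 1 0 (.A 0 997 .n .n) .n) .e)) (.S 2172 .e .e)) (.S 2513 (.S 2394 .e .e) (.S 2638 .e .e))) (.S 3204 (.S 2907 .e (.S 3052 .e .e)) (.S 3532 (.S 3364 (.X 36 52 .n .e) (.X 40 52 .n .e)) (.S 3708 (.X 43 52 .n .e) (.X 46 52 .n .e)))))) (.S 7698 (.S 5474 (.S 4505 (.S 4087 (.X 49 52 .n .e) (.S 4291 .e .e)) (.S 4966 (.S 4730 .e .e) (.S 5214 .e .e))) (.S 6335 (.S 5747 .e (.S 6034 .e .e))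 (.S 6983 (.S 6651 .e .e) (.S 7332 .e .e)))) (.S 10828 (.S 8910 (.S 8082 .e (.S 8486 .e .e)) (.S 9822 (.S 9355 .e .e) (.S 10313 .e .e))) (.S 12533 (.S 11369 .e (.S 11937 .e .e)) (.S 13816 (.S 13159 .e .e) (.S 14506 .e .e))))))
theorem cM_ok : chk par tab 17028 1280 206 xs cM 1000 15020 [.m 1000 1000] = true := by decide +kernel

/-- exceptional boxes for the star regime, p in [4092, 4255] / 2 ^ 14 -/
def ys1 : List XC := [⟨[.m 200 250, .p 1000 1000], 765921⟩, ⟨[.m 250 300, .p 1000 1000], 740967⟩, ⟨[.m 300 350, .p 1000 1000], 735065⟩, ⟨[.m 350 400, .p 1000 1000], 731308⟩, ⟨[.m 400 450, .p 1000 1000], 732113⟩, ⟨[.m 450 500, .p 1000 1000], 740967⟩, ⟨[.m 500 550, .p 1000 1000], 762164⟩, ⟨[.m 550 600, .p 1000 1000], 794630⟩, ⟨[.m 600 650, .p 1000 1000], 828169⟩, ⟨[.m 650 700, .p 1000 1000], 862243⟩, ⟨[.m 700 750, .p 1000 1000], 897124⟩,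 ⟨[.m 750 800, .p 1000 1000], 932542⟩, ⟨[.m 800 850, .p 1000 1000], 969031⟩, ⟨[.m 850 900, .p 1000 1000], 1005790⟩, ⟨[.m 900 950, .p 1000 1000], 1043354⟩, ⟨[.m 950 1000, .p 1000 1000], 1081722⟩, ⟨[.m 1000 1050, .p 1000 1000], 1099431⟩]
def cS1_ : Ct := (.S 1953 (.S 1897 (.X 0 2 .n (.A 0 948 (.A 0 900 (.x 13) (.x 14)) .n)) (.X 0 2 .n (.A 0 977 (.A 0 950 (.x 14) (.x 15)) .n))) (.S 2011 (.X 0 1 .n (.x 15)) (.X 0 1 .n (.x 15))))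
theorem cS1_ok : chk par tab 17028 1280 0 ys1 cS1_ 1842 2060 [.p 1000 1000] = true := by decide +kernel

end Pool.Agent.MMS15.TC1
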