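import Pool.Agent.MMS15.TP5
import Pool.Agent.MMS15.TC1

/-!
# MMS15/TC5: certificate trees for p in [4788, 4930] / 2 ^ 14

Everything is checked by kernel evaluation.
-/

set_option autoImplicit false
set_option maxRecDepth 100000

namespace Pool.Agent.MMS15.TC5

open Pool.Agent.MMS15.TP5 (par tab)

/-- exceptional boxes (last atom first) -/
def xs : List XC := [⟨[.m 880 1000, .m 880 1000, .p 880 1000, .p 1000 1000], 100000⟩, ⟨[.m 880 1000, .p 880 1000, .m 880 1000, .p 1000 1000], 100000⟩, ⟨[.p 880 1000, .m 880 1000, .m 880 1000, .p 1000 1000], 100000⟩, ⟨[.p 880 1000, .p 880 1000, .m 880 1000, .m 1000 1000], 100000⟩, ⟨[.p 880 1000, .m 880 1000, .p 880 1000, .m 1000 1000], 100000⟩, ⟨[.m 880 1000, .p 880 1000, .p 880 1000, .m 1000 1000], 100000⟩]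
def cP1 : Ct := (.S 2628 (.S 2271 (.S 2163 (.X 66 62 (.A 0 753 (.A 0 629 (.A 0 567 .e .e) (.A 0 691 .e .e)) .e) (.A 0 764 (.A 0 646 (.A 0 587 .e (.A 0 616 .e .e)) (.A 0 705 .e .e)) (.A 0 882 .e .e))) (.X 66 66 (.A 0 765 (.A 0 647 (.A 0 588 (.A 0 559 (.S 2217 .e (.A 0 544 .e .e)) .e) .e) (.A 0 706 .e .e)) .e) (.A 0 765 (.A 0 647 (.A 0 588 (.A 0 559 (.S 2217 .e .e) .e) .e) .e) (.A 0 882 .e .e)))) (.S 2384 (.X 66 11 (.A 0 777 (.A 0 665 (.A 0 609 (.A 0 581 (.S 2327 .e .e) .e) (.A 0 637 .e .e)) .e) .e) .n) (.S 2503 (.X 66 15 (.A 0 789 (.A 0 683 (.A 0 630 (.A 0 604 .e (.A 0 617 .e (.S 2443 .e .e))) (.X 31 53 .n (.A 0 612 .e .e))) (.A 0 736 (.A 0 709 .e .e) .e)) (.A 0 894 .e .e)) .n) (.X 58 18 (.A 0 828 (.A 0 742 (.X 33 53 (.N .e) (.A 0 647 (.A 1 699 .e .e) .e)) (.A 0 785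 .e .e)) (.A 0 914 (.A 0 871 .e .e) .e)) .n)))) (.S 2896 (.S 2759 (.X 55 22 (.A 0 853 (.A 0 779 (.X 33 52 (.N .e) (.A 0 678 .e .e)) (.X 33 9 .e .n)) (.A 0 926 .e (.A 0 963 (.S 2693 .e (.A 0 944 .e (.A 0 953 .e .e))) (.S 2693 .e (.A 0 981 (.S 2726 .e (.A 0 972 .e .e)) .e))))) .n) (.X 55 26 (.A 0 867 (.A 0 800 (.X 34 52 .e (.A 0 702 .e .e)) (.A 0 833 .e .e)) (.A 0 933 .e (.A 0 966 .e (.S 2827 (.X 33 0 (.A 0 946 (.A 0 778 .e (.A 0 862 .e .e)) .n) .n) .e)))) .n)) (.S 3040 (.X 55 34 (.A 0 881 (.A 0 821 (.X 34 52 (.N .e) (.A 0 726 .e .e)) (.X 33 17 .e .n)) .e) .e) (.S 3192 (.X 54 56 (.A 0 899 (.A 0 849 (.X 36 28 .e .n) .e) (.A 0 949 .e .e)) (.A 0 891 (.A 0 836 (.S 3116 .e (.A 0 809 .e .e)) .e) (.A 0 945 (.A 0 918 .e .e) (.X 1 33 .n (.A 0 857 .e .e))))) (.X 77 55 (.A 0 823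 (.A 0 735 (.A 0 691 (.X 66 59 .e .n) (.X 53 52 (.N .e) .n)) (.A 0 779 (.X 53 44 (.A 0 745 .e (.N .e)) .n) (.X 52 37 .e .n))) (.A 0 911 (.A 0 867 (.A 0 845 (.S 3271 (.A 0 834 .e .e) .e) (.S 3271 .e (.A 0 856 .e .e))) (.S 3271 .e (.A 0 889 .e .e))) (.A 0 955 (.A 0 933 .e .e) .e))) (.A 0 909 (.A 0 864 (.A 0 841 .e (.S 3271 .e (.A 0 852 .e .e))) (.S 3271 .e (.A 0 886 (.X 34 29 .e .n) .e))) (.X 33 34 (.A 0 882 (.A 0 823 (.A 1 954 (.X 0 4 .n .e) (.S 3271 .e .e)) (.A 1 954 (.S 3271 .e (.A 0 852 (.A 1 931 .e .e) .e)) .e)) (.A 0 941 .e (.N .e))) (.A 0 878 (.A 0 817 (.A 1 954 .e .e) (.A 1 954 .e .e)) (.A 0 939 (.A 1 954 .e .e) (.N .e))))))))))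
def cP2 : Ct := (.X 77 77 (.A 0 846 (.A 0 769 (.A 0 731 (.A 0 712 (.S 3605 .e .e) (.S 3605 .e (.X 65 66 (.N .e) .e))) (.A 0 750 (.S 3605 .e .e) .e)) (.X 76 52 (.A 0 719 (.A 0 656 .e (.A 1 807 .e .e)) (.A 0 782 (.A 1 807 .e (.X 33 31 (.N .e) .n)) (.N (.A 0 814 (.A 1 814 (.X 33 27 .e .n) .e) (.N .e))))) (.A 1 807 (.N .e) .e))) (.X 77 66 (.A 0 769 (.A 0 653 (.A 0 595 (.A 1 923 .e .e) (.A 1 923 (.A 1 884 .e .e) .e)) (.A 1 923 (.A 1 884 (.A 0 711 .e .e) .e) .e)) (.A 1 923 (.N (.A 0 846 .e .e)) .e)) (.A 0 803 (.A 0 704 (.A 1 923 .e .e) (.A 1 923 (.X 33 21 (.N .e) .n) (.A 0 753 .e .e))) (.A 0 901 (.A 1 923 (.X 2 6 .n (.N .e)) (.A 0 852 (.A 1 961 .e .e) (.X 0 6 .n (.A 0 844 .e .e)))) (.N (.A 1 950 (.N (.A 0 925 (.X 0 5 .n .e) (.N (.X 0 4 .n (.A 0 879 .e .e))))) (.A 0 950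 (.X 0 5 .n (.A 0 846 .e (.A 0 898 .e (.A 0 924 .e (.N (.x 0)))))) (.X 0 5 .n (.A 0 943 (.A 0 812 .e (.A 0 877 .e (.A 0 910 .e (.x 0)))) .n))))))))) (.A 0 846 (.A 0 769 (.A 0 731 .e .e) (.A 0 807 (.X 52 48 (.N .e) .n) .e)) (.A 0 923 (.A 0 884 .e (.A 0 903 .e (.S 3605 (.X 33 34 (.N (.X 0 2 .n .e)) (.X 1 0 .e .n)) (.X 33 34 .n (.N .e))))) (.X 33 34 (.A 0 932 (.A 1 961 (.A 0 898 (.X 0 2 .n (.N .e)) (.S 3605 (.X 0 4 .n (.A 0 874 (.A 0 845 .e .e) .e)) (.X 0 2 .n .e))) (.A 0 898 (.S 3605 (.A 1 980 (.X 0 1 .n .e) (.A 0 881 (.S 3561 .e (.X 0 1 .n (.N .e))) (.S 3561 .e (.A 1 990 (.A 0 889 (.S 3583 .e .e) (.S 3583 .e (.X 0 1 .n (.x 1)))) .e)))) (.A 1 980 .e (.X 0 1 .n (.N (.S 3649 (.A 2 990 .e (.S 3627 (.x 1) .e)) .e))))) (.S 3605 (.A 1 980 (.X 0 2 .n (.A 0 872 .e (.A 0 902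 (.A 1 915 .e (.A 0 887 .e (.x 1))) (.N (.x 1))))) (.A 0 915 .e .e)) (.X 0 2 .n (.A 0 885 (.A 0 862 .e (.A 2 980 (.A 1 915 .e .e) .e)) (.S 3649 (.A 0 908 (.A 2 980 (.A 1 915 .e (.A 0 896 .e (.x 1))) (.x 1)) (.N (.x 1))) (.A 0 908 (.A 2 980 (.A 1 915 .e (.A 0 896 .e .e)) (.A 1 915 (.A 0 896 .e (.A 2 990 .e (.S 3671 (.x 1) .e))) (.A 0 896 .e (.x 1)))) (.N (.A 2 980 .e (.x 1)))))))))) (.N (.X 0 12 .n (.A 0 978 (.A 0 805 .e (.A 0 891 .e (.A 0 934 (.A 1 966 (.A 2 966 .e (.x 1)) (.N (.x 1))) (.N (.x 1))))) .n)))) (.A 0 927 (.A 0 890 (.A 1 961 (.X 3 0 (.N .e) .n) (.S 3605 (.A 0 872 .e .e) (.X 2 1 (.N .e) .n))) (.A 1 961 (.X 3 0 .e .n) (.A 0 908 (.S 3605 (.S 3561 .e (.A 1 980 (.X 1 0 .e .n) .e)) (.A 1 980 (.X 1 0 (.N .e) .n) (.A 0 899 (.S 3649 .e .e) (.S 3649 .e (.A 1 990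 .e .e))))) (.S 3605 (.A 1 980 (.X 1 0 (.A 0 926 .e .n) .n) .e) (.X 2 0 (.A 0 886 .e (.A 0 906 .e (.A 2 980 .e (.x 2)))) .n))))) (.N (.A 1 963 (.N (.X 2 0 (.A 0 880 .e (.A 0 921 .e .e)) .n)) (.A 0 963 (.X 1 0 (.A 0 952 (.A 0 856 .e (.A 0 904 .e (.x 2))) .n) .n) (.X 1 0 (.A 0 916 .e .n) .n)))))))))
def cP3 : Ct := (.X 77 77 (.A 0 858 (.A 0 787 (.A 0 752 (.A 0 734 (.S 3785 (.X 66 66 (.N .e) (.N .e)) .e) (.X 66 66 (.X 47 52 .n .e) (.X 52 47 .e .n))) (.A 0 769 (.S 3785 (.S 3739 .e (.A 0 760 (.S 3762 .e (.A 0 756 .e .e)) .e)) (.A 0 760 (.X 66 66 .e (.A 0 745 .e .e)) (.X 66 60 .e .n))) (.X 66 56 .e .n))) (.A 0 822 (.A 0 804 (.X 66 53 .e .n) (.S 3785 (.X 52 50 (.N .e) .n) .e)) (.X 52 52 (.A 0 829 (.X 33 28 .e .n) (.N .e)) .e))) (.A 0 929 (.A 0 893 (.X 51 40 .e .n) .e) (.X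 24 35 .n (.A 0 946 (.A 0 919 (.A 1 964 .e (.X 0 4 .n .e)) (.A 1 964 (.X 0 2 .n .e) (.X 0 4 .n (.A 0 900 .e (.A 0 923 .e (.N .e)))))) (.N (.X 0 9 .n (.A 0 877 (.A 0 816 .e .e) (.A 0 938 (.A 0 907 .e (.A 2 973 (.N (.S 3785 (.A 0 922 .e .e) .e)) .e)) (.A 0 969 (.A 1 973 (.A 2 973 (.A 0 953 .e (.N .e)) (.A 0 953 .e (.N (.S 3785 (.x 0) (.A 1 963 (.N .e) (.x 0)))))) (.N (.A 0 953 .e (.x 0)))) (.N (.x 0))))))))))) (.A 0 858 (.A 0 787 (.X 66 56 (.X 53 39 .e .n) .n) (.A 0 822 (.S 3785 .e .e) .e)) (.A 0 929 .e (.X 33 34 (.A 0 956 (.A 1 964 (.S 3785 (.A 0 934 .e (.N (.X 0 2 .n .e))) .e) (.S 3785 (.A 0 934 (.S 3739 (.A 1 982 (.X 0 1 .n (.N .e)) (.A 0 923 (.A 1 991 (.X 0 1 .n (.N (.x 1))) (.S 3716 (.X 0 1 .n (.x 1)) (.X 0 1 .n (.N (.x 1))))) (.X 0 1 .n (.A 0 915 .e (.x 1)))))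 (.A 1 982 .e (.A 0 923 .e (.X 0 1 .n (.S 3762 (.x 1) .e))))) (.X 0 2 .n (.A 0 909 .e (.A 0 932 (.S 3739 (.A 2 982 (.A 1 945 .e (.x 1)) (.x 1)) (.A 2 982 (.A 0 920 .e .e) (.A 0 920 .e (.A 1 945 (.S 3762 (.x 1) .e) (.x 1))))) (.A 2 982 .e (.x 1)))))) (.A 0 934 .e (.A 1 982 (.X 0 1 .n (.N .e)) (.S 3831 (.S 3808 (.A 0 945 (.X 0 1 .n (.x 1)) (.X 0 1 .n (.x 1))) (.A 0 945 .e (.X 0 1 .n (.x 1)))) (.X 0 1 .n (.N .e))))))) (.N (.X 0 8 .n (.A 0 881 .e (.A 0 940 (.A 0 910 .e (.A 1 978 (.A 2 978 (.A 2 967 (.N .e) .e) .e) (.N .e))) (.A 0 970 (.A 0 955 (.A 1 978 (.A 2 978 .e (.A 1 967 (.S 3785 (.x 1) (.S 3831 (.x 1) (.A 2 989 .e (.S 3854 (.x 1) .e)))) .e)) (.N (.x 1))) (.A 2 978 (.N .e) (.x 1))) (.N (.x 1)))))))) (.A 0 951 (.A 0 926 (.S 3785 (.A 1 964 .e (.S 3739 (.A 0 914 .e (.A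 1 982 (.S 3716 (.X 1 0 (.N (.x 2)) .n) .e) (.S 3716 (.X 1 0 (.x 2) .n) (.X 1 0 (.N (.x 2)) .n)))) (.A 1 982 .e .e))) .e) (.A 1 964 (.S 3785 (.X 2 0 .e .n) .e) (.S 3785 (.X 2 0 (.A 0 910 .e (.A 2 982 .e (.S 3739 (.x 2) (.A 0 930 (.A 1 938 (.S 3762 (.A 0 920 .e (.x 2)) .e) .e) (.N (.x 2)))))) .n) (.A 0 938 (.A 1 982 .e .e) (.S 3831 (.X 2 0 (.A 2 982 .e (.A 0 934 .e (.A 2 991 .e (.x 2)))) .n) .e))))) (.N (.X 2 0 (.A 0 907 (.A 0 860 .e (.A 2 975 (.N .e) .e)) (.A 2 975 (.N (.A 0 941 (.S 3785 .e (.A 0 924 .e .e)) (.A 2 963 (.N .e) (.A 1 963 (.N .e) .e)))) (.A 0 953 (.A 1 975 (.A 0 930 .e (.A 2 987 .e (.A 1 963 (.A 0 941 .e (.A 2 993 .e (.A 1 957 (.A 0 947 .e (.x 2)) (.x 2)))) .e))) (.A 0 930 .e (.A 2 987 (.N .e) (.x 2)))) (.N (.A 1 976 (.N (.A 2 987 .e (.x 2))) (.N (.x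 2))))))) .n)))))))
def cP4 : Ct := (.X 79 77 (.A 0 862 (.X 86 86 (.A 0 720 (.A 0 649 (.A 1 793 .e .e) (.A 1 793 (.A 0 684 .e .e) (.A 1 827 .e .e))) (.A 0 791 (.A 1 793 (.A 0 755 (.A 0 737 .e (.N (.X 50 52 .n (.N .e)))) (.N (.X 44 53 .n .e))) (.A 1 827 .e .e)) (.N (.A 0 826 .e (.N (.A 1 844 (.N .e) (.A 0 844 .e .e))))))) (.A 0 720 (.A 0 649 (.A 1 793 .e (.A 1 827 .e .e)) (.A 1 793 .e (.A 1 827 .e .e))) (.A 0 791 (.A 1 793 (.X 53 44 .e .n) (.X 53 40 .e .n)) (.N (.X 33 29 (.N .e) .n))))) (.A 0 931 (.A 0 896 (.X 52 44 (.A 0 859 .e .e) .n) .e) (.A 0 965 .e (.S 3973 (.A 0 982 (.X 31 33 .n (.N (.S 3925 (.X 0 1 .n (.S 3901 (.x 0) .e)) .e))) (.X 29 34 .n (.A 0 975 (.A 0 962 .e (.S 3925 (.X 0 1 .n (.A 0 963 .e (.N (.A 1 969 (.N .e) (.x 0))))) .e)) (.X 0 2 .n (.A 0 958 .e (.A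 0 979 (.A 0 968 .e (.A 2 991 (.N (.S 3925 (.x 0) .e)) (.A 1 987 (.A 0 973 .e (.x 0)) (.x 0)))) (.N (.x 0)))))))) (.A 0 982 .e (.S 4021 (.X 31 33 .n (.N (.S 3997 (.A 1 992 (.N (.X 0 1 .n (.N (.x 0)))) (.X 0 1 .n (.x 0))) (.X 0 1 .n (.N (.x 0)))))) (.X 32 33 .n (.N (.X 0 1 .n (.N (.x 0))))))))))) (.A 0 870 (.A 0 805 (.A 0 773 (.A 0 757 (.X 66 64 (.N .e) .n) .e) .e) (.A 0 837 .e .e)) (.A 0 935 .e (.A 0 967 .e (.S 3973 (.X 33 33 (.A 0 980 (.S 3925 (.A 1 983 (.A 0 970 .e (.N (.X 0 1 .n .e))) (.A 0 970 (.S 3901 (.X 0 1 .n (.x 1)) (.X 0 1 .n (.N (.x 1)))) (.S 3901 (.X 0 1 .n (.x 1)) (.X 0 1 .n (.x 1))))) (.X 0 1 .n (.N .e))) (.N (.X 0 2 .n (.A 0 958 .e (.A 0 979 (.A 0 968 .e (.A 1 990 (.A 2 990 .e (.x 1)) (.N (.x 1)))) (.x 1)))))) (.S 3925 (.X 1 0 (.A 0 963 (.A 1 980 (.A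 0 944 .e (.A 2 983 .e (.A 1 970 .e .e))) (.N (.A 0 944 .e (.A 1 990 (.A 2 990 .e (.x 2)) (.N (.x 2)))))) (.N (.A 1 981 (.N (.A 2 983 (.S 3901 (.A 0 972 .e (.N (.x 2))) .e) (.A 2 991 .e (.x 2)))) (.N (.x 2))))) .n) (.A 0 980 (.X 2 0 (.N .e) .n) (.N (.S 3949 (.S 3937 (.A 1 990 (.N (.X 1 0 (.x 2) .n)) (.X 1 0 (.A 0 999 (.x 2) .n) .n)) (.A 1 990 (.N (.X 1 0 (.x 2) .n)) (.X 1 0 (.x 2) .n))) (.A 1 990 (.N (.X 1 0 (.N (.x 2)) .n)) (.S 3961 (.X 1 0 (.x 2) .n) (.X 1 0 (.x 2) .n)))))))) (.A 0 983 .e (.S 4021 (.S 3997 (.S 3985 (.X 33 33 (.N (.X 0 1 .n (.x 1))) (.N (.X 1 0 (.x 2) .n))) (.X 33 33 (.N (.X 0 1 .n (.x 1))) (.N (.X 1 0 (.x 2) .n)))) (.X 33 33 (.N (.X 0 1 .n (.x 1))) (.N (.X 1 0 (.x 2) .n)))) (.X 33 33 (.N (.X 0 1 .n (.N (.x 1)))) (.N (.X 1 0 (.N (.x 2)) .n))))))))))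
def cP5 : Ct := (.S 3693 (.S 3518 (.X 77 66 (.A 0 835 (.A 0 752 (.A 0 711 (.X 66 60 .e .n) .e) (.X 66 52 (.A 0 733 (.A 0 682 .e (.A 1 793 .e .e)) (.A 0 784 (.X 33 24 .e .n) (.N .e))) (.X 34 14 .e .n))) (.A 0 917 (.A 0 876 (.X 38 34 (.N .e) (.N .e)) (.S 3434 (.X 27 35 .n (.X 0 6 .n .e)) (.X 29 35 .n (.X 0 6 .n .e)))) (.A 0 958 (.A 0 937 (.S 3434 .e (.A 0 927 (.X 28 34 .n (.X 0 2 .n .e)) (.X 26 33 .n (.X 0 2 .n .e)))) (.S 3434 (.S 3392 .e (.A 0 947 .e .e)) (.X 23 33 .n (.X 0 3 .n (.A 0 947 (.A 0 848 .e (.A 0 897 (.A 1 910 .e .e) (.N (.x 0)))) .n))))) (.A 0 979 (.S 3434 (.S 3392 .e (.A 0 968 .e .e)) (.X 20 33 .n (.A 0 915 (.X 0 2 .n (.A 0 848 .e .e)) .e))) (.S 3434 .e (.A 0 989 (.S 3476 .e (.X 19 33 .n (.X 0 2 .n (.A 0 908 .e .n)))) (.S 3476 (.S 3455 .e (.A 0 994 .e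 .e)) (.X 18 33 .n (.X 0 1 .n (.A 0 903 .e .n)))))))))) (.A 0 877 (.A 0 815 (.A 0 784 .e .e) (.X 35 35 (.N .e) (.N .e))) (.X 34 34 (.A 0 903 (.A 1 938 (.A 1 907 (.A 0 854 .e (.X 0 6 .n .e)) (.A 0 854 (.X 0 2 .n (.N .e)) (.S 3434 (.X 0 4 .n .e) (.X 0 2 .n .e)))) (.A 0 854 (.S 3434 (.A 1 969 (.X 0 2 .n (.N .e)) .e) (.A 1 969 .e (.A 0 830 .e (.S 3476 .e .e)))) (.A 1 969 (.S 3434 (.A 0 878 .e .e) (.A 0 878 (.X 0 2 .n .e) (.X 0 2 .n (.A 0 854 (.A 2 953 .e .e) .e)))) (.S 3434 .e (.A 0 878 .e .e))))) (.N (.A 0 951 (.A 1 951 (.S 3434 (.A 0 927 (.A 1 927 (.A 1 915 (.N .e) .e) .e) (.N .e)) (.X 0 3 .n (.A 0 942 (.A 0 853 .e .e) .n))) (.S 3434 .e (.A 0 927 .e .e))) (.N .e)))) (.A 0 903 (.A 1 938 (.A 0 854 (.X 6 0 (.N .e) .n) (.X 4 0 (.A 0 839 .e .e) .n)) (.A 0 854 (.A 1 969 (.A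 0 830 .e .e) .e) (.A 0 878 .e (.A 1 969 (.X 1 0 .e .n) .e)))) (.N (.A 1 951 (.N (.X 1 0 (.A 0 942 (.A 0 835 .e .e) .n) .n)) (.A 0 951 (.A 0 927 (.A 1 975 .e .e) (.A 1 975 .e .e)) (.A 1 975 (.N .e) .e)))))))) cP2) (.S 3877 cP3 (.S 4070 cP4 (.X 78 77 (.A 0 878 (.A 0 817 (.A 0 787 (.X 68 63 (.A 0 770 .e (.N .e)) .n) (.S 4171 (.X 66 59 .e .n) (.X 66 61 .e .n))) (.A 0 847 (.X 66 55 .e .n) (.A 0 862 (.X 66 53 .e .n) (.X 52 52 (.N .e) (.N .e))))) (.A 0 939 (.A 0 908 (.S 4171 (.A 0 893 .e .e) (.A 0 893 (.X 50 52 .n (.N .e)) .e)) (.X 52 42 .e .n)) .e)) (.A 0 882 (.X 52 50 (.N .e) .n) (.A 0 941 .e .e))))))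
def cP6 : Ct := (.S 4945 (.X 86 69 (.X 126 126 (.A 0 712 (.A 0 568 (.A 1 882 (.A 0 496 (.A 1 823 .e .e) (.A 1 823 .e .e)) (.A 0 496 .e .e)) (.A 1 882 (.A 0 640 (.A 1 823 .e .e) (.A 1 823 .e .e)) (.A 0 640 (.A 1 941 .e .e) (.A 1 941 .e .e)))) (.A 0 856 (.A 1 882 (.A 0 784 (.A 1 823 (.A 0 748 .e .e) (.A 0 748 .e .e)) (.N (.A 1 833 (.N (.A 1 808 (.N .e) .e)) (.A 0 820 .e .e)))) (.A 0 784 (.A 1 941 (.A 0 748 .e .e) (.A 0 748 .e .e)) (.A 1 941 .e .e))) (.N (.A 0 928 (.A 1 928 (.A 1 892 (.N .e) .e) .e) (.N (.A 0 964 .e (.N .e))))))) (.A 0 712 (.A 0 568 (.A 1 882 (.A 0 496 .e .e) (.A 1 941 .e .e)) (.A 1 882 (.A 0 640 (.A 1 823 .e .e) (.A 1 823 .e .e)) (.A 0 640 .e .e))) (.A 0 856 (.A 1 882 (.A 0 784 (.A 1 823 .e .e) (.N (.A 0 820 .e (.N .e)))) (.A 0 784 (.A 1 941 .e .e)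 (.A 1 941 (.A 0 820 .e .e) .e))) (.N (.A 0 928 (.A 1 928 .e .e) (.N (.A 1 964 (.N .e) .e))))))) (.A 0 958 .e .e)) (.S 5192 (.X 86 77 (.X 126 126 (.A 0 721 (.A 0 582 (.A 1 894 (.A 0 512 .e .e) (.A 0 512 .e .e)) (.A 1 894 (.A 0 651 (.A 1 841 .e .e) (.A 1 841 .e .e)) (.A 0 651 .e .e))) (.A 0 860 (.A 1 894 (.A 0 790 (.A 1 841 .e (.X 66 64 (.N .e) .n)) (.N (.A 1 842 (.N (.A 0 816 (.X 66 62 (.X 52 48 (.N .e) .n) .n) (.N (.X 66 59 (.X 52 43 .e .n) .n)))) (.A 1 868 (.A 0 825 (.A 1 855 (.S 5068 .e (.A 0 807 .e .e)) .e) (.X 66 55 (.X 52 39 .e .n) .n)) .e)))) (.A 0 790 (.A 0 755 .e (.A 1 947 .e .e)) (.A 1 947 .e (.A 0 825 .e .e)))) (.N (.A 1 930 (.N (.A 1 895 (.N .e) (.A 0 895 .e .e))) (.A 0 930 .e (.A 1 965 (.N .e) .e)))))) (.A 0 721 (.A 0 582 (.A 1 894 (.A 0 512 .e .e) (.A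 0 512 .e .e)) (.A 1 894 (.A 0 651 .e (.A 0 686 .e .e)) (.A 0 651 .e .e))) (.A 0 860 (.A 1 894 (.A 0 790 .e (.N .e)) (.A 0 790 (.A 1 947 .e .e) (.A 1 947 .e (.A 0 825 .e .e)))) (.N (.A 1 930 (.N .e) (.A 0 930 .e (.A 0 965 .e (.N .e)))))))) (.A 0 934 .e (.A 0 967 .e .e))) (.X 86 80 (.A 0 906 (.X 92 77 (.A 0 794 (.A 0 738 (.A 1 859 .e .e) .e) (.A 0 850 (.X 66 60 (.N (.X 53 45 .e .n)) .n) (.N (.A 0 878 (.X 66 56 (.X 52 40 .e .n) .n) (.N .e))))) (.A 0 854 .e (.N .e))) (.A 0 953 (.X 67 59 (.A 0 917 .e (.N .e)) .n) (.X 69 54 (.A 0 925 .e .e) .n))) (.X 54 58 .n (.N .e)))))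
def cP7 : Ct := (.S 5451 (.S 3351 cP1 (.S 4273 cP5 (.S 4710 (.S 4486 (.X 78 70 (.A 0 891 (.A 0 836 (.A 0 809 (.S 4379 .e .e) (.S 4379 (.X 66 60 .e .n) (.X 68 62 .e .n))) (.X 72 52 (.A 0 808 (.A 0 767 .e .e) .e) .n)) (.A 0 945 (.A 0 918 (.A 0 904 (.S 4379 (.S 4326 .e .e) (.X 66 53 .e .n)) .e) (.X 52 45 .e .n)) (.A 0 972 .e (.A 0 986 .e .e)))) (.A 0 926 .e .e)) (.X 93 93 (.A 0 843 (.A 0 765 (.A 0 726 (.A 0 706 (.S 4598 .e .e) .e) .e) (.A 0 804 .e (.X 68 63 .e .n))) (.A 0 921 (.X 76 63 (.A 0 819 (.A 0 768 (.A 1 882 .e .e) (.A 1 882 (.A 0 793 .e .e) .e)) (.A 1 882 (.N .e) .e)) (.A 0 873 (.A 1 882 .e .e) (.N .e))) (.A 0 960 (.X 73 47 (.A 0 845 (.A 0 787 .e .e) (.A 0 902 .e .e)) .n) (.S 4598 (.X 77 42 (.A 0 844 (.A 0 766 .e .e) (.A 0 922 .e .e)) .n) (.X 76 44 (.A 0 856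 (.A 0 784 .e .e) (.A 0 928 .e .e)) .n))))) (.A 0 843 (.A 0 765 (.A 0 726 .e .e) .e) (.A 0 921 .e .e)))) cP6))) (.S 8874 (.S 6955 (.S 6009 (.S 5723 (.X 86 85 (.A 0 918 (.X 86 77 (.A 0 835 (.A 0 794 .e .e) (.A 1 877 (.N (.X 66 61 (.N (.X 52 47 .e .n)) .n)) (.A 0 876 (.X 66 60 (.X 52 46 .e .n) .n) (.A 0 897 (.X 65 58 (.X 52 42 .e .n) .n) (.N .e))))) (.X 55 66 .n .e)) (.A 0 959 (.X 72 62 (.A 0 912 .e .e) .n) (.X 67 57 (.A 0 952 .e .e) .n))) (.A 0 923 (.A 0 884 .e .e) .e)) (.X 86 84 (.A 0 931 (.X 86 77 (.A 0 855 (.A 0 817 .e .e) (.A 0 893 (.X 66 62 (.N (.X 52 48 .e .n)) .n) (.N (.S 5866 (.A 1 912 (.N (.A 0 902 .e (.N .e))) (.A 0 912 .e .e)) (.A 0 912 (.A 1 912 (.A 1 902 (.N .e) .e) .e) (.N .e)))))) (.A 1 896 (.N .e) (.A 0 894 .e .e))) (.A 0 965 (.X 73 65 (.A 0 926 .e (.A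 0 945 (.A 1 948 .e .e) (.N .e))) .n) (.X 70 61 (.A 0 954 .e (.A 0 977 (.A 1 982 .e .e) (.N .e))) .n))) (.A 0 940 .e .e))) (.S 6309 (.X 86 74 (.A 0 944 (.A 0 916 (.X 77 77 (.N .e) (.N .e)) (.A 0 930 (.S 6159 (.X 76 72 .e .n) .e) .e)) (.A 0 972 (.X 71 67 (.A 0 956 .e (.N (.X 57 55 (.N .e) .n))) .n) (.S 6159 (.X 69 64 (.A 0 976 .e (.N (.A 1 988 (.N .e) (.A 0 988 .e .e)))) .n) (.A 0 986 (.X 70 67 .e .n) (.S 6234 .e (.X 69 67 .e .n)))))) .n) (.S 6624 (.X 80 77 (.X 70 67 (.N .e) .n) .n) .e))) (.S 7667 (.S 7302 (.S 7128 .e .e) (.X 86 85 .e .n)) (.S 8050 .e (.S 8452 .e .e)))) (.S 11323 (.S 9782 (.S 9317 .e .e) (.S 10271 .e (.S 10784 .e .e))) (.S 13107 (.S 11889 .e (.S 12483 (.S 12186 .e .e) .e)) (.S 13762 .e (.S 14450 .e .e))))))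
def cP : Ct := cP7
theorem cP_ok : chk par tab 19728 1280 206 xs cP 2060 15020 [.p 1000 1000] = true := by decide +kernel
def cM1 : Ct := (.X 52 52 (.X 33 33 (.X 0 33 .n (.A 0 755 (.A 0 633 (.A 1 934 .e (.N .e)) (.A 1 934 .e (.N .e))) (.A 0 877 (.A 1 934 (.A 0 816 (.A 2 955 .e .e) (.A 2 955 (.A 0 846 .e (.A 1 901 .e .e)) (.A 0 846 .e (.A 1 901 (.S 3620 (.A 2 977 .e (.A 1 884 (.S 3576 (.A 0 861 .e (.A 2 988 .e (.S 3554 (.A 0 869 .e (.N .e)) .e))) .e) .e)) .e) .e)))) (.N .e)) (.N (.A 1 938 (.N (.A 2 955 (.A 0 907 (.A 1 907 .e (.A 2 932 (.N .e) .e)) (.N .e)) (.S 3620 (.A 1 907 (.N (.A 2 977 (.A 1 892 (.N .e) (.A 0 892 .e .e)) (.S 3576 (.A 0 892 (.A 1 892 (.A 2 988 (.A 1 884 (.N .e) (.A 0 884 .e (.x 5))) .e) .e) (.N (.x 5))) (.A 1 892 (.N (.A 2 988 .e (.S 3598 (.A 1 884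 (.N .e) (.A 0 884 (.A 2 994 .e .e) (.x 5))) .e))) (.A 0 892 (.A 2 988 .e (.A 1 899 (.A 0 884 .e (.x 5)) .e)) (.x 5)))))) (.A 0 907 (.A 2 977 .e (.A 0 892 .e (.x 5))) (.x 5))) (.A 0 907 (.A 1 907 (.A 2 977 .e (.S 3664 (.A 0 892 .e (.N (.A 2 988 (.S 3642 (.x 5) .e) (.x 5)))) .e)) (.A 2 977 .e (.A 1 922 (.A 0 892 .e (.A 2 988 .e (.A 1 914 (.S 3664 (.x 5) .e) .e))) .e))) (.N (.A 2 977 (.A 0 922 (.A 1 922 .e .e) (.N (.x 5))) (.S 3664 (.x 5) (.A 1 922 (.N (.S 3686 (.x 5) (.A 2 988 .e (.x 5)))) (.x 5))))))))) (.N (.A 0 938 (.A 0 907 .e (.A 2 969 (.N (.A 0 922 .e (.x 5))) (.x 5))) (.x 5)))))))) (.X 3 0 (.A 0 853 .e (.A 0 926 (.A 1 934 (.A 2 955 (.A 1 901 (.N .e) .e) (.S 3620 (.A 0 889 (.A 1 901 (.A 2 977 .e (.S 3576 (.A 0 871 (.A 1 884 (.A 2 988 .e (.S 3554 (.A 0 862 .e (.A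 1 876 .e .e)) .e)) .e) (.N (.A 1 886 (.N (.A 2 988 (.S 3554 (.A 0 878 .e (.N .e)) .e) (.S 3554 .e (.A 0 878 (.A 1 878 .e .e) (.N .e))))) (.A 2 988 .e .e)))) (.A 0 871 .e (.N (.A 1 886 (.N .e) (.A 2 988 .e (.A 0 880 .e (.x 4)))))))) .e) (.N (.A 2 977 (.A 1 911 (.N .e) (.x 4)) (.x 4)))) (.A 0 889 (.A 1 901 .e .e) (.N (.A 2 977 (.A 1 911 (.N .e) .e) (.S 3664 (.A 1 911 (.N (.A 2 988 (.A 1 900 (.N .e) .e) (.A 1 900 (.N (.A 2 994 .e (.x 4))) (.x 4)))) (.x 4)) (.A 1 911 (.N .e) (.A 0 907 .e (.S 3686 (.x 4) (.A 2 988 (.A 1 922 (.N .e) (.x 4)) (.x 4))))))))))) (.N .e)) (.N (.S 3620 (.x 4) (.A 2 963 (.N (.A 2 944 (.N .e) (.A 1 944 (.N .e) (.x 4)))) (.x 4)))))) .n)) (.X 33 19 (.A 0 934 (.X 1 0 .e .n) (.N (.X 1 0 (.A 0 982 (.A 0 851 .e (.A 0 916 .e (.S 3620 (.x 3) (.A 2 967 (.N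 (.A 0 941 .e (.N (.x 3)))) (.x 3))))) .n) .n))) .n))
def cM2 : Ct := (.S 3532 (.S 3364 (.X 52 52 (.X 33 33 (.A 0 884 (.A 1 924 (.A 0 826 (.X 0 1 .n (.N .e)) (.X 0 1 .n (.A 0 815 (.A 0 780 .e .e) .e))) (.A 0 826 (.A 1 962 (.S 3284 (.A 1 943 (.X 0 1 .n (.N .e)) .e) (.X 0 1 .n (.N .e))) (.S 3284 .e .e)) (.A 1 962 (.S 3284 .e (.A 0 855 (.A 1 943 (.X 0 1 .n .e) .e) (.A 1 943 (.X 0 1 .n (.A 0 883 (.A 0 828 .e .e) .n)) .e))) .e))) (.N (.A 0 942 (.A 1 942 (.A 1 913 (.N (.S 3284 .e (.X 0 1 .n (.A 0 896 .e .n)))) (.X 0 1 .n (.A 0 866 .e .n))) .e) (.N .e)))) (.A 0 884 (.A 1 924 (.A 0 826 (.X 2 0 (.N .e) .n) (.X 1 0 .e .n)) (.A 0 826 (.A 1 962 (.A 0 797 .e .e) .e) (.A 1 962 (.A 0 855 .e (.X 1 0 (.A 0 883 .e .n) .n)) .e))) (.N (.A 1 942 (.N (.X 1 0 (.A 0 896 .e .n) .n)) (.X 1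 0 (.A 0 834 .e .n) .n))))) (.A 0 924 (.X 33 21 (.X 1 0 .e .n) .n) .e)) (.X 52 52 (.X 33 33 (.A 0 909 (.A 1 939 (.A 0 864 (.X 0 1 .n (.N .e)) (.X 0 1 .n (.A 0 855 (.S 3448 .e .e) .e))) (.A 0 864 (.A 1 969 (.S 3448 (.X 0 1 .n (.A 0 839 (.A 1 841 .e .e) (.N .e))) (.X 0 1 .n (.N .e))) (.S 3448 (.A 0 841 .e .e) (.A 0 841 .e (.A 1 984 (.S 3490 (.A 0 852 .e .e) .e) .e)))) (.A 1 969 (.S 3448 (.A 0 886 (.A 1 954 (.X 0 1 .n (.A 0 847 .e .e)) .e) (.X 0 1 .n (.A 0 884 .e .n))) (.X 0 1 .n (.A 0 863 .e (.A 0 886 (.A 1 886 .e .e) (.N (.x 5)))))) (.S 3448 .e (.A 0 886 (.A 1 984 (.S 3490 .e (.A 0 875 (.X 0 1 .n .e) (.A 1 976 (.S 3511 .e (.X 0 1 .n .e)) .e))) .e) (.A 1 984 (.S 3490 .e (.A 0 897 .e .e)) .e)))))) (.N (.A 1 954 (.N (.X 0 6 .n (.A 0 938 (.A 0 814 .e (.A 0 876 .e (.A 0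 907 .e (.x 5)))) .n))) (.X 0 2 .n (.A 0 892 (.A 0 741 .e .e) .n))))) (.A 0 909 (.A 1 939 (.X 2 0 (.A 0 850 .e (.N .e)) .n) (.A 0 864 (.A 1 969 (.A 0 841 (.S 3448 .e .e) (.X 1 0 .e .n)) (.A 0 841 .e .e)) (.A 1 969 (.A 0 886 (.X 1 0 .e .n) (.X 1 0 .e .n)) (.A 0 886 .e .e)))) (.N (.A 1 954 (.N (.X 1 0 (.A 0 938 .e .n) .n)) (.X 1 0 (.A 0 892 .e .n) .n))))) (.A 0 939 (.X 33 24 (.X 1 0 .e .n) .n) (.A 0 969 (.X 33 19 (.X 1 0 .e .n) .n) .e)))) (.S 3708 cM1 (.X 52 52 (.X 33 33 (.A 0 958 (.A 1 970 (.S 3800 (.A 0 937 (.X 0 1 .n (.N .e)) (.X 0 1 .n (.A 0 934 (.S 3754 .e .e) .e))) .e) (.S 3800 (.A 0 937 (.A 1 985 (.S 3754 (.A 0 926 .e (.S 3731 (.X 0 1 .n (.x 5)) (.X 0 1 .n (.N (.x 5))))) .e) (.S 3754 (.A 0 926 (.S 3731 (.X 0 1 .n (.x 5)) (.X 0 1 .n (.N (.x 5)))) (.S 3731 (.X 0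 1 .n (.x 5)) (.X 0 1 .n (.x 5)))) (.X 0 1 .n (.N (.S 3777 (.x 5) .e))))) (.X 0 1 .n (.A 0 918 .e (.A 0 938 (.A 2 985 .e (.A 0 928 .e (.x 5))) (.N (.x 5)))))) (.A 0 937 .e (.S 3846 (.A 1 985 (.X 0 1 .n (.N .e)) (.A 0 947 (.A 1 992 .e (.X 0 1 .n (.N (.x 5)))) (.S 3823 (.X 0 1 .n (.x 5)) (.X 0 1 .n (.x 5))))) (.X 0 1 .n (.N .e)))))) (.N (.X 0 5 .n (.A 0 898 .e (.A 0 949 (.A 0 923 .e (.A 2 979 (.N (.A 0 936 .e (.S 3800 (.x 5) (.S 3846 .e .e)))) .e)) (.S 3800 (.x 5) (.A 0 974 (.A 2 979 (.N (.A 0 961 (.A 2 968 (.N .e) (.A 1 968 .e (.S 3846 (.x 5) .e))) (.N .e))) (.A 1 979 (.A 0 961 (.A 1 968 (.A 2 989 .e (.x 5)) (.x 5)) (.N (.x 5))) (.x 5))) (.N (.x 5))))))))) (.A 0 958 (.A 1 970 (.X 2 0 (.S 3800 (.A 1 937 (.N .e) .e) .e) .n) (.A 0 937 (.S 3800 (.A 1 985 (.S 3754 (.A 0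 926 .e (.S 3731 (.X 1 0 (.x 4) .n) (.X 1 0 (.N (.x 4)) .n))) .e) (.S 3754 (.X 1 0 (.A 0 919 (.A 1 926 .e .e) (.N (.x 4))) .n) (.X 1 0 (.N (.S 3777 (.x 4) .e)) .n))) .e) (.S 3800 (.X 1 0 (.A 0 918 .e (.A 0 938 (.A 2 985 .e (.A 1 947 (.A 0 928 .e (.x 4)) (.x 4))) (.N (.x 4)))) .n) (.A 1 985 (.X 1 0 (.N .e) .n) (.X 1 0 (.S 3846 (.A 0 943 (.A 1 947 .e .e) (.N (.x 4))) .e) .n))))) (.N (.X 1 0 (.A 0 916 .e (.S 3800 (.A 0 958 (.A 2 979 (.N .e) (.x 4)) (.x 4)) (.A 0 958 (.A 2 979 (.N .e) (.A 1 979 (.A 0 937 .e (.A 2 989 .e (.A 1 968 (.A 0 947 .e (.A 2 994 .e (.x 4))) (.x 4)))) .e)) (.S 3846 (.x 4) (.A 0 979 (.A 2 979 (.N (.A 2 968 (.N .e) (.A 1 968 (.N .e) .e))) (.x 4)) (.N (.x 4))))))) .n)))) (.X 33 24 (.A 0 958 (.X 1 0 .e .n) (.N (.X 1 0 (.A 0 916 .e (.S 3800 (.A 0 958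 (.A 2 979 (.N .e) (.x 3)) (.x 3)) (.A 0 958 (.A 1 979 .e (.N .e)) (.S 3846 (.x 3) (.A 1 979 (.N (.A 2 979 (.A 1 968 (.N .e) (.N .e)) (.x 3))) (.N (.x 3))))))) .n))) .n))))
def cM3 : Ct := (.S 3893 (.S 1971 (.S 1403 (.S 1157 (.S 1050 .e (.S 1102 .e .e)) (.S 1274 (.S 1214 .e .e) (.S 1337 .e .e))) (.S 1623 (.S 1473 .e (.S 1546 .e .e)) (.S 1789 (.S 1704 .e (.X 1 0 (.A 0 889 .e .n) .n)) (.S 1878 (.X 1 0 (.A 0 938 .e .n) .n) (.X 1 0 (.A 0 979 .e .n) .n))))) (.S 2769 (.S 2280 (.S 2069 (.S 2020 (.X 1 0 (.A 0 991 .e .n) .n) (.S 2044 (.X 1 0 (.A 0 997 .n .n) .n) .e)) (.S 2172 .e .e)) (.S 2513 (.S 2394 .e .e) (.S 2638 .e .e))) (.S 3204 (.S 2907 .e (.S 3052 (.X 46 30 (.A 0 921 (.A 0 881 .e (.A 0 901 .e .e)) (.A 0 960 .e .e)) .n) (.X 52 52 (.A 0 909 (.A 0 864 (.A 0 841 .e .e)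 (.A 0 886 .e (.X 18 33 .n (.A 0 842 (.A 0 809 .e .e) .e)))) (.A 0 954 (.A 0 931 (.A 0 920 (.X 16 33 .n (.A 0 845 .e .e)) (.X 14 33 .n (.A 0 847 .e .e))) (.X 10 33 .n (.A 0 851 .e .e))) (.X 2 33 .n (.A 0 859 .e .e)))) (.A 0 909 (.X 33 18 (.X 1 0 .e .n) .n) .e)))) cM2))) (.S 7698 (.S 5474 (.S 4505 (.S 4087 (.X 52 52 (.A 0 986 (.S 3990 (.S 3941 (.S 3917 (.X 33 33 (.A 1 979 (.N (.X 0 1 .n (.N (.x 5)))) (.X 0 1 .n (.x 5))) (.S 3905 (.X 1 0 (.x 4) .n) (.X 1 0 (.x 4) .n))) (.X 33 33 (.N (.X 0 1 .n (.x 5))) (.N (.X 1 0 (.x 4) .n)))) (.X 33 33 (.N .e) (.N .e))) .e) (.X 33 33 (.S 3990 (.A 0 982 (.X 0 1 .n (.S 3941 (.A 0 967 (.A 1 973 .e .e) (.N (.x 5))) .e)) (.S 3941 (.X 0 1 .n (.A 0 967 .e (.x 5))) (.A 0 991 (.S 3965 (.X 0 1 .n (.x 5)) (.X 0 1 .n (.x 5))) (.N (.S 3965 (.X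 0 1 .n (.x 5)) (.X 0 1 .n (.x 5))))))) (.X 0 1 .n (.N (.S 4038 (.S 4014 (.A 1 992 (.N .e) (.N (.x 5))) .e) .e)))) (.S 3990 (.S 3941 (.A 0 982 (.S 3917 (.A 0 973 (.X 1 0 (.x 4) .n) (.X 1 0 (.x 4) .n)) (.A 0 973 .e (.X 1 0 (.x 4) .n))) (.X 1 0 (.A 0 967 .e (.x 4)) .n)) (.X 1 0 (.A 1 982 (.N .e) (.A 0 979 .e (.x 4))) .n)) (.X 2 0 (.N (.S 4038 (.A 0 986 .e (.N (.S 4014 (.x 4) .e))) .e)) .n)))) (.S 3990 (.X 33 29 (.A 0 982 (.X 1 0 .e .n) (.N (.X 1 0 (.A 0 967 .e (.S 3941 (.x 3) (.A 0 983 (.A 2 991 (.N .e) .e) (.N (.x 3))))) .n))) .n) (.X 34 32 (.N (.A 0 989 .e (.N (.S 4038 (.S 4014 (.X 1 0 (.x 3) .n) (.X 1 0 (.N (.x 3)) .n)) .e)))) .n))) (.S 4291 (.X 53 53 .e .e) (.X 75 55 (.A 0 905 (.A 0 857 .e (.A 0 881 .e .e)) .e) .n))) (.S 4966 (.S 4730 (.X 77 77 (.A 0 909 (.X 54 66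 .n (.X 37 52 .n .e)) .e) (.A 0 909 (.A 0 863 (.A 0 840 (.S 4617 (.X 66 66 (.N .e) (.N .e)) .e) (.S 4617 (.A 0 851 (.X 65 62 .e .n) .e) (.S 4673 .e (.A 0 851 .e .e)))) (.A 0 886 (.S 4617 .e .e) .e)) (.A 0 954 .e .e))) (.S 4848 (.S 4789 (.X 73 61 (.A 0 940 .e .e) .n) .e) (.S 4907 .e .e))) (.S 5214 .e (.X 68 67 .e .e)))) (.S 6335 (.S 5747 .e (.S 6034 .e .e)) (.S 6983 (.S 6651 .e .e) (.S 7332 .e (.S 7515 (.S 7423 .e .e) .e))))) (.S 10828 (.S 8910 (.S 8082 .e (.S 8486 .e .e)) (.S 9822 (.S 9355 .e .e) (.S 10313 .e .e))) (.S 12533 (.S 11369 .e (.S 11937 .e .e)) (.S 13816 (.S 13159 .e .e) (.S 14506 .e .e))))))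
def cM : Ct := cM3
theorem cM_ok : chk par tab 19728 1280 206 xs cM 1000 15020 [.m 1000 1000] = true := by decide +kernel

/-- exceptional boxes for the star regime, p in [4788, 4930] / 2 ^ 14 -/
def ys1 : List XC := [⟨[.m 200 250, .p 1000 1000], 362918⟩, ⟨[.m 250 300, .p 1000 1000], 372845⟩, ⟨[.m 300 350, .p 1000 1000], 360503⟩, ⟨[.m 350 400, .p 1000 1000], 347087⟩, ⟨[.m 400 450, .p 1000 1000], 332867⟩, ⟨[.m 450 500, .p 1000 1000], 319988⟩, ⟨[.m 500 550, .p 1000 1000], 311134⟩, ⟨[.m 550 600, .p 1000 1000], 313549⟩, ⟨[.m 600 650, .p 1000 1000], 330452⟩, ⟨[.m 650 700, .p 1000 1000], 361845⟩, ⟨[.m 700 750, .p 1000 1000], 394042⟩, ⟨[.m 750 800, .p 1000 1000], 441801⟩, ⟨[.m 800 850, .p 1000 1000], 482048⟩, ⟨[.m 850 900, .p 1000 1000], 544296⟩, ⟨[.m 900 950, .p 1000 1000],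 585347⟩, ⟨[.m 950 1000, .p 1000 1000], 612178⟩, ⟨[.m 1000 1050, .p 1000 1000], 639278⟩]
def cS1_ : Ct := (.S 1722 (.S 1577 (.S 1488 (.X 0 35 .n (.A 0 699 (.A 0 600 (.A 0 550 (.A 0 500 (.x 5) (.x 6)) (.x 7)) (.A 0 650 (.x 8) (.x 9))) .n)) (.S 1532 (.X 0 33 .n (.A 0 730 (.A 0 600 (.A 0 550 (.A 0 500 (.x 5) (.x 6)) (.x 7)) (.A 0 650 (.x 8) (.A 0 700 (.x 9) (.x 10)))) .n)) (.X 0 33 .n (.A 0 760 (.A 0 650 (.A 0 600 (.A 0 550 (.S 1572 (.x 6) (.A 0 530 .e (.x 6))) (.x 7)) (.x 8)) (.A 0 700 (.x 9) (.A 0 750 (.x 10) (.x 11)))) .n)))) (.S 1624 (.X 0 37 .n (.A 0 790 (.A 0 650 (.A 0 600 (.A 0 550 (.S 1600 (.A 0 530 .e (.S 1592 (.x 6) .e)) (.A 0 530 .e .e)) (.S 1616 (.x 7) (.A 0 575 .e (.x 7)))) (.x 8)) (.A 0 700 (.x 9) (.A 0 750 (.x 10) (.x 11)))) .n)) (.S 1672 (.S 1648 (.X 0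 13 .n (.A 0 805 (.A 0 750 (.A 0 700 (.x 9) (.x 10)) (.A 0 800 (.x 11) (.x 12))) .n)) (.X 0 11 .n (.A 0 820 (.A 0 750 (.x 10) (.A 0 800 (.x 11) (.x 12))) .n))) (.X 0 13 .n (.A 0 850 (.A 0 800 (.A 0 750 (.x 10) (.x 11)) (.x 12)) .n))))) (.S 1880 (.S 1773 (.X 0 7 .n (.A 0 880 (.A 0 850 (.A 0 800 (.x 11) (.x 12)) (.x 13)) .n)) (.S 1826 (.X 0 18 .n (.A 0 909 (.A 0 800 .e (.A 0 850 (.x 12) (.A 0 900 (.x 13) (.x 14)))) .n)) (.X 33 26 (.A 0 939 .e .n) (.A 0 939 (.A 0 800 .e (.A 0 850 (.x 12) (.A 0 900 (.x 13) (.x 14)))) .n)))) (.S 1994 (.S 1936 (.X 34 33 (.A 0 968 .e .n) (.A 0 968 (.A 0 800 (.A 0 750 .e (.x 11)) (.A 0 900 (.A 0 850 (.x 12) (.x 13)) (.A 0 950 (.x 14) (.x 15)))) .n)) (.X 34 33 (.A 0 997 .e .n) (.A 0 997 (.A 0 850 (.A 0 750 .e .e) (.A 0 900 (.x 13) (.A 0 950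 (.x 14) (.x 15)))) .n))) (.S 2053 (.X 33 1 .e (.x 15)) (.X 33 2 .e .n)))))
theorem cS1_ok : chk par tab 19728 1280 0 ys1 cS1_ 1445 2060 [.p 1000 1000] = true := by decide +kernel

end Pool.Agent.MMS15.TC5
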