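import Pool.Agent.MMS15.TabG
import Pool.Agent.MMS15.TC5
import Pool.Agent.MMS15.TH5

/-!
# MMS15/TabP5: k / n in [4788, 4930] / 2 ^ 14 (glue, complete)
-/

set_option autoImplicit false
set_option maxRecDepth 100000

namespace Pool.Agent.MMS15

open Pool.Agent.MMS14

theorem rowP5 : ∀ r, RowP (rowv TP5.rows r) := rowP_all TP5.len_ok TP5.ends_ok

theorem goodP5 : Good TP5.par.P0 TP5.par.P1 TP5.rows :=
  good_of_checks TP5.par_ok TP5.len_ok TP5.cells1 TP5.cells2 TP5.cells3 TP5.cells4 TP5.cells5 TP5.ends_ok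
    (base_ok (by decide) TP5.err_ok)

theorem vmP5 : ∀ v ∈ TP5.vm, v ≤ 65536 := all_le' (by decide +kernel)

theorem lowP5 : LowOk TP5.par.P0 TP5.par.P1 TP5.vm :=
  low_of (q := TP5.par) (rows := TP5.rows) (vm := TP5.vm) TP5.par_ok TP5.len_ok rowP5 goodP5 TP5.min_ok (by decide +kernel) vmP5

theorem nonP5 : NonP ((((4788 : ℕ) : ℝ) + 0.1) / 16384) ((((4930 : ℕ) : ℝ) - 0.1) / 16384) :=
  nonstar_cell (q := TP5.par) (rows := TP5.rows) (tab := TP5.tab) (vm := TP5.vm) (xs := TC5.xs) (tgt := 19728) TP5.par_ok TP5.len_ok rowP5 goodP5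
    TP5.look_ok lowP5 vmP5 (by decide +kernel) (v00 := 64704) (v0 := 13324) (g := 19060) (by decide +kernel) (by decide +kernel) TP5.pair_ok (by decide +kernel)
    (by decide) (by decide) (xs_t4) rfl TC5.cP_ok TC5.cM_ok (top_of' rfl TP5.top_ok)

theorem lowH5 : StarLowOk TH5.par.P0 TH5.par.P1 TH5.vs :=
  starLow_of (q := TH5.par) (rows := TH5.rows) (tab := TH5.tab) (vs := TH5.vs) TH5.par_ok TH5.len_ok
    (Pool.Agent.MMS14.rowP_all TH5.len_ok TH5.ends_ok)
    (Pool.Agent.MMS14.good_of_checks TH5.par_ok TH5.len_ok TH5.cells1 TH5.cells2 TH5.cells3 TH5.cells4 TH5.cells5 TH5.ends_ok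
      (Pool.Agent.MMS14.base_ok (by decide) TH5.err_ok)) TH5.look_ok TH5.min_ok (by decide +kernel) (all_le' (by decide +kernel))

theorem starP5 : StarP (((4788 : ℕ) : ℝ) / 16384) (((4930 : ℕ) : ℝ) / 16384) :=
  star_cell (q := TP5.par) (rows := TP5.rows) (tab := TP5.tab) TP5.par_ok TP5.len_ok rowP5 goodP5 TP5.look_ok
    (Q0 := 6762) (Q1 := 7054) (vs := TH5.vs) (ws := TH5.ws) lowH5 TH5.vs_len (all_le' (by decide +kernel)) TH5.w_ok (by decide) (by decide) (by decide) TH5.a1_ok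
    (b1_of TH5.b1_ok) ⟨TH5.b1s.getLast (by decide), List.getLast_mem _, by decide +kernel, by decide +kernel, by decide +kernel⟩ (b2_of TH5.b2_ok)
    (ys := TC5.ys1) rfl (tgt := 19728) (sa := 1445) (A := 4788) (B := 4930) (by decide) TC5.cS1_ok (by decide) (by decide) (by decide) (by decide) (by decide) (by decide) (by decide)

end Pool.Agent.MMS15
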