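import Pool.Agent.MMS15.TP6
import Pool.Agent.MMS15.TC2

/-!
# MMS15/TC6: certificate trees for p in [4928, 5050] / 2 ^ 14

Everything is checked by kernel evaluation.
-/

set_option autoImplicit false
set_option maxRecDepth 100000

namespace Pool.Agent.MMS15.TC6

open Pool.Agent.MMS15.TP6 (par tab)

/-- exceptional boxes (last atom first) -/
def xs : List XC := [⟨[.m 880 1000, .m 880 1000, .p 880 1000, .p 1000 1000], 100000⟩, ⟨[.m 880 1000, .p 880 1000, .m 880 1000, .p 1000 1000], 100000⟩, ⟨[.p 880 1000, .m 880 1000, .m 880 1000, .p 1000 1000], 100000⟩, ⟨[.p 880 1000, .p 880 1000, .m 880 1000, .m 1000 1000], 100000⟩, ⟨[.p 880 1000, .m 880 1000, .p 880 1000, .m 1000 1000], 100000⟩, ⟨[.m 880 1000, .p 880 1000, .p 880 1000, .m 1000 1000], 100000⟩]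
def cP1 : Ct := (.S 2896 (.S 2759 (.X 63 22 (.A 0 824 (.A 0 736 (.A 0 692 .e (.A 0 714 (.S 2693 .e .e) (.X 32 52 .n (.A 0 666 .e .e)))) (.A 0 780 (.X 24 52 .n (.A 0 678 .e .e)) .e)) (.A 0 912 (.A 0 868 .e .e) (.A 0 956 (.S 2693 (.A 0 934 (.S 2660 (.A 0 923 .e (.S 2644 .e .e)) .e) (.X 33 0 (.A 0 906 (.A 0 749 .e (.A 0 827 .e (.A 0 866 .e .e))) .n) .n)) (.A 0 934 .e (.S 2726 (.X 33 0 (.A 0 924 (.A 0 771 .e (.A 0 847 .e (.A 0 885 .e .e))) .n) .n) .e))) (.A 0 978 (.X 33 0 (.A 0 920 (.A 0 747 .e (.A 0 833 (.A 0 790 .e (.S 2693 .e .e)) (.A 0 876 (.S 2693 .e (.A 0 854 .e .e)) .e))) .n) .n) (.S 2693 (.A 0 989 (.S 2660 .e (.S 2676 .e (.A 0 983 .e .e))) .e) (.X 33 0 (.A 0 896 (.A 0 739 .e (.A 0 817 (.A 0 778 .e .e) (.A 0 856 .e .e))) .n) .n)))))) .n) (.X 54 55 (.A 0 871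 (.A 0 806 (.X 24 52 .n (.A 0 704 .e .e)) (.A 0 838 .e .e)) (.A 0 935 .e (.A 0 967 .e (.S 2827 (.A 0 983 (.S 2793 (.X 33 0 (.A 0 927 (.A 0 775 .e (.A 0 851 .e (.A 0 889 .e .e))) .n) .n) .e) (.X 33 0 (.A 0 928 (.A 0 769 .e (.A 0 848 .e (.A 0 888 (.A 0 868 .e .e) .e))) .n) .n)) (.A 0 983 .e (.S 2861 .e .e)))))) (.A 0 867 (.A 0 800 (.A 0 767 .e .e) .e) (.A 0 933 .e (.A 0 966 .e (.S 2827 .e (.A 0 983 .e .e))))))) (.S 3040 (.X 54 55 (.A 0 885 (.A 0 827 (.A 0 798 .e (.A 0 812 .e .e)) .e) (.X 1 0 (.N .e) .n)) (.A 0 881 (.A 0 821 (.X 27 36 .n .e) (.X 17 35 .n (.A 0 803 .e .e))) (.A 0 940 .e (.X 0 33 .n (.A 0 831 .e .e))))) (.S 3192 (.X 79 54 (.A 0 805 (.A 0 708 (.A 0 659 (.X 77 60 .e .n) (.A 0 683 .e .e)) (.A 0 756 .e (.X 36 35 (.N .e) .n))) (.A 0 902 (.A 0 853 (.A 0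 829 .e .e) .e) (.A 0 951 .e .e))) (.A 0 899 (.X 49 36 (.A 0 777 (.X 1 7 .n (.N .e)) (.A 1 849 (.N (.A 0 813 (.S 3116 .e .e) (.N .e))) (.A 0 838 (.S 3116 .e (.A 0 807 .e .e)) (.A 0 868 .e (.N .e))))) (.A 0 826 (.A 0 789 (.A 1 849 .e .e) (.A 1 849 .e .e)) (.N (.A 0 862 (.A 1 862 .e .e) (.N .e))))) (.A 0 949 (.X 10 33 .n (.A 0 848 .e .e)) (.X 1 33 .n (.A 0 857 .e .e))))) (.X 77 55 (.A 0 823 (.A 0 735 (.A 0 691 (.A 0 669 .e .e) (.A 0 713 .e (.S 3271 .e .e))) (.A 0 779 (.A 0 757 (.S 3271 .e (.X 53 50 (.N .e) .n)) (.X 53 44 .e .n)) (.X 52 37 .e .n))) (.A 0 911 (.A 0 867 (.A 0 845 (.S 3271 .e .e) (.S 3271 .e (.X 32 34 .n (.N .e)))) (.S 3271 (.A 0 889 .e .e) (.A 0 889 (.X 29 35 .n (.A 0 862 .e .e)) (.X 25 34 .n (.A 0 872 .e (.A 0 891 .e (.N .e))))))) (.A 0 955 (.S 3271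 .e (.A 0 933 .e .e)) .e))) (.X 52 35 (.A 0 812 (.A 1 909 (.A 0 718 (.A 0 671 .e .e) (.X 3 4 .n (.N .e))) (.A 0 718 (.X 34 12 .e .n) (.A 0 765 (.A 1 954 .e .e) (.A 1 954 (.S 3271 .e .e) (.S 3271 .e .e))))) (.A 0 906 (.A 1 909 (.A 1 864 (.N (.A 0 838 (.A 1 841 .e .e) (.N (.S 3271 .e .e)))) (.A 0 859 (.A 1 886 (.X 0 5 .n .e) (.X 0 6 .n .e)) (.S 3271 (.A 1 886 (.N .e) .e) (.X 0 5 .n .e)))) (.A 0 859 (.A 1 954 (.S 3271 .e (.A 1 931 (.A 0 835 .e .e) (.A 0 835 .e .e))) .e) (.A 1 954 (.S 3271 .e (.A 0 882 .e .e)) .e))) (.N .e))) (.A 0 874 (.A 1 909 (.A 0 811 (.X 10 3 (.N .e) .n) (.A 1 864 (.N (.A 0 837 .e (.N .e))) (.A 0 842 (.S 3271 .e .e) (.S 3271 .e (.X 3 0 .e .n))))) (.A 0 811 (.A 1 954 .e .e) (.A 1 954 (.A 0 842 .e .e) .e))) (.N (.A 1 937 (.N (.A 1 905 (.N (.S 3271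 .e (.A 1 889 (.N .e) .e))) .e)) (.A 0 937 (.A 1 968 .e .e) .e)))))))))
def cP2 : Ct := (.X 77 77 (.A 0 835 (.A 0 752 (.A 0 711 (.A 0 690 (.X 66 63 (.N .e) .n) (.S 3434 (.A 0 700 (.X 64 62 .e .n) .e) (.X 66 62 (.X 52 48 .e .n) .n))) (.A 0 731 (.S 3434 (.A 0 721 .e .e) (.A 0 721 (.X 66 60 (.X 52 45 (.X 33 24 .e .n) .n) .n) (.X 66 59 (.A 0 704 .e (.A 0 717 .e .e)) .n))) (.S 3434 .e (.A 0 741 .e .e)))) (.X 77 66 (.A 0 698 (.A 0 630 .e (.A 1 793 .e .e)) (.A 0 766 (.A 0 732 (.A 1 793 .e .e) (.A 1 793 (.S 3434 .e .e) .e)) (.N (.A 1 800 (.N .e) .e)))) (.A 0 733 (.A 1 793 .e (.X 36 34 (.N .e) .n)) .e))) (.X 105 86 (.A 0 688 (.A 0 532 (.A 1 917 (.A 0 454 .e .e) (.A 0 454 .e .e)) (.A 1 917 (.A 0 610 .e (.A 0 649 (.A 1 876 .e .e) .e)) (.A 0 610 (.A 0 571 .e .e) .e))) (.A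 0 844 (.A 1 917 (.A 0 766 .e .e) .e) (.N (.A 1 922 (.N .e) .e)))) (.A 0 730 (.A 0 595 (.A 1 917 (.A 0 528 .e .e) .e) (.A 1 917 (.A 0 662 (.A 1 876 (.A 0 628 .e .e) .e) (.A 1 876 (.A 0 696 .e .e) (.A 0 696 .e .e))) (.A 0 662 .e .e))) (.A 0 865 (.A 1 917 (.A 0 797 .e (.A 1 876 .e (.X 0 5 .n (.N .e)))) (.A 0 797 .e (.X 0 7 .n (.A 0 792 .e (.A 2 958 .e .e))))) (.N (.A 1 932 (.N (.A 0 898 (.A 1 898 (.X 0 5 .n .e) (.X 0 5 .n .e)) (.N (.X 0 3 .n (.A 0 845 .e .e))))) (.A 0 932 (.A 1 966 (.X 0 4 .n (.A 0 820 .e (.A 0 876 .e (.N .e)))) (.X 0 4 .n (.A 0 915 (.A 0 790 .e (.A 0 852 .e .e)) .n))) (.A 1 966 (.N (.X 0 1 .n (.A 0 884 .e .n))) .e)))))))) (.A 0 835 (.A 0 752 (.A 0 711 .e .e) .e) (.X 52 35 (.A 0 832 (.A 1 917 (.A 0 748 (.X 33 24 (.N .e) .n) .e) (.A 0 748 (.X 33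 16 .e .n) (.A 1 958 .e (.A 0 790 .e (.S 3434 (.A 0 811 .e (.A 1 979 .e .e)) .e))))) (.A 0 916 (.A 1 917 (.A 1 876 (.N (.A 0 854 .e (.N .e))) (.A 0 874 (.X 0 3 .n (.N .e)) (.X 0 7 .n (.A 0 837 .e .e)))) (.A 1 958 (.A 0 874 (.X 0 4 .n (.A 0 828 .e (.A 0 851 .e (.N .e)))) (.X 0 5 .n (.A 0 823 .e (.A 0 869 .e (.A 0 892 .e (.N (.x 1))))))) (.A 0 874 (.S 3434 (.A 1 979 .e .e) (.A 1 979 (.X 0 1 .n (.N (.A 1 854 (.N .e) .e))) (.A 0 853 (.S 3476 .e .e) .e))) (.S 3434 .e (.A 1 979 (.A 0 895 (.X 0 1 .n (.A 0 853 .e .e)) .e) .e))))) (.N (.A 0 958 (.A 1 958 (.S 3434 .e (.A 0 937 (.X 0 2 .n (.A 0 917 (.A 0 849 .e .e) .n)) (.N .e))) .e) (.N .e))))) (.A 0 898 (.A 1 917 (.A 0 847 .e (.N (.A 1 882 (.N .e) (.A 0 872 (.X 4 0 .e .n) (.S 3434 (.X 2 0 .e .n) (.X 1 0 (.N .e) .n))))))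 (.A 0 847 (.A 1 958 (.X 4 0 (.N .e) .n) (.A 0 822 .e (.S 3434 .e .e))) (.A 1 958 (.A 0 872 (.S 3434 (.A 1 937 .e .e) (.X 3 0 .e .n)) (.S 3434 (.A 1 937 .e .e) (.A 1 937 (.X 2 0 .e .n) (.X 1 0 (.A 0 865 (.S 3476 .e .e) .e) .n)))) (.A 0 872 .e (.S 3434 .e (.A 1 979 (.A 0 885 .e .e) .e)))))) (.N (.A 1 949 (.N (.A 1 923 (.N (.S 3434 .e (.A 1 910 (.N (.X 1 0 .e .n)) (.A 0 910 (.X 2 0 .e .n) (.X 1 0 .e .n))))) (.A 0 923 (.S 3434 .e (.A 1 936 (.A 0 910 (.X 1 0 .e .n) .e) (.A 0 910 .e .e))) (.S 3434 .e (.A 1 936 (.N .e) .e))))) (.A 0 949 (.A 0 923 (.A 1 974 (.S 3434 .e (.A 1 961 (.A 0 910 .e .e) .e)) .e) (.A 1 974 (.S 3434 .e (.A 0 936 .e .e)) .e)) (.A 1 974 (.N .e) .e))))))))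
def cP3 : Ct := (.X 33 34 (.A 0 932 (.A 1 961 (.A 0 898 (.X 0 2 .n (.N .e)) (.S 3605 (.X 0 4 .n (.A 0 874 (.A 0 845 .e .e) .e)) (.X 0 2 .n (.A 0 907 .e (.N .e))))) (.A 0 898 (.S 3605 (.A 1 980 (.X 0 1 .n (.A 0 877 .e (.N .e))) (.S 3561 (.A 0 881 (.S 3539 .e (.A 0 872 .e (.A 1 990 (.A 0 876 .e .e) .e))) .e) (.A 0 881 (.X 0 1 .n (.N .e)) (.A 1 990 (.S 3583 (.A 0 889 (.X 0 1 .n .e) (.A 1 985 (.X 0 1 .n .e) .e)) (.X 0 1 .n (.N (.x 1)))) (.A 0 889 (.S 3583 .e (.X 0 1 .n (.x 1))) (.S 3583 .e (.X 0 1 .n (.A 0 884 .e (.x 1))))))))) (.A 1 980 .e (.X 0 1 .n (.N (.S 3649 (.A 2 990 .e (.S 3627 (.x 1) .e)) .e))))) (.S 3605 (.A 1 980 (.X 0 3 .n (.A 0 867 .e (.A 0 899 (.A 2 970 .e (.A 0 883 .e (.x 1))) (.N (.x 1))))) (.X 0 1 .n (.A 0 916 (.A 0 856 .e (.A 0 886 .e (.x 1))) .n)))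 (.X 0 3 .n (.A 0 881 (.A 0 855 .e (.S 3649 (.A 2 980 (.A 1 915 .e .e) .e) .e)) (.A 0 906 (.A 2 980 (.A 1 915 .e (.A 0 893 .e .e)) (.A 1 915 (.A 0 893 (.S 3649 (.A 2 990 (.S 3627 (.x 1) .e) (.x 1)) .e) (.A 2 990 .e (.S 3649 (.x 1) (.S 3671 (.x 1) .e)))) (.A 0 893 .e (.x 1)))) (.N (.A 2 980 .e (.x 1))))))))) (.N (.A 0 966 (.X 0 11 .n (.A 0 822 .e (.A 0 894 .e (.A 2 966 (.A 0 930 .e (.x 1)) (.x 1))))) (.N (.X 0 1 .n (.A 0 910 .e .n)))))) (.A 0 927 (.A 0 890 (.A 1 961 (.X 3 0 (.N .e) .n) (.S 3605 (.A 0 872 (.A 1 980 .e .e) (.A 1 980 (.X 1 0 (.S 3561 .e .e) .n) .e)) (.X 3 1 (.N .e) .n))) (.A 1 961 (.A 0 908 (.S 3605 (.A 1 942 (.X 2 0 .e .n) (.S 3561 (.X 1 0 .e .n) (.X 2 0 .e .n))) .e) (.A 1 942 (.S 3605 (.A 0 917 (.X 1 0 .e .n) (.X 1 0 .e .n)) (.X 2 0 .e .n)) (.S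 3605 (.S 3561 (.X 1 0 (.A 0 922 .e .n) .n) (.X 1 0 .e .n)) (.X 2 0 (.S 3649 .e .e) .n)))) (.S 3605 (.A 0 908 (.A 1 980 (.S 3561 (.X 1 0 .e .n) (.X 1 0 .e .n)) (.S 3561 .e (.A 0 899 .e .e))) (.X 1 0 (.A 0 926 (.A 0 864 .e (.A 0 895 .e (.x 2))) .n) .n)) (.A 0 908 (.A 1 980 (.S 3649 (.X 1 0 (.N .e) .n) .e) (.S 3649 (.A 0 899 (.A 1 990 (.X 1 0 (.N (.x 2)) .n) .e) (.X 1 0 (.A 0 891 .e (.x 2)) .n)) (.A 0 899 .e (.A 1 990 .e (.X 1 0 (.x 2) .n))))) (.X 1 0 (.A 0 890 (.S 3649 (.A 2 980 (.A 0 872 .e .e) .e) (.A 2 980 .e (.A 0 872 .e .e))) (.A 2 980 .e (.A 2 990 .e (.x 2)))) .n))))) (.N (.A 1 963 (.N (.S 3605 (.A 1 945 (.N (.A 1 936 (.N (.X 1 0 .e .n)) (.X 1 0 (.A 0 933 .e .n) .n))) (.X 1 0 (.A 0 924 (.A 0 864 .e .e) .n) .n)) (.X 2 0 (.A 0 905 (.A 0 876 (.S 3649 (.A 2 945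 (.N .e) (.A 1 945 .e .e)) .e) (.A 1 945 (.S 3649 (.A 2 945 .e .e) .e) (.N .e))) (.A 0 934 (.A 1 945 .e (.N (.x 2))) (.N (.x 2)))) .n))) (.A 0 963 (.A 0 945 (.X 1 0 (.A 0 863 .e (.A 0 904 (.A 2 981 .e .e) (.x 2))) .n) (.X 1 0 (.A 0 935 (.A 0 847 .e (.A 0 891 .e (.x 2))) .n) .n)) (.X 1 0 (.A 0 916 .e .n) .n))))))
def cP4 : Ct := (.X 77 77 (.X 127 127 (.A 0 500 (.A 0 250 (.A 1 846 (.A 0 125 .e .e) (.A 0 125 .e .e)) (.A 1 846 (.A 0 375 (.A 0 312 .e (.A 1 769 .e .e)) (.A 1 769 (.A 0 437 .e .e) (.A 0 437 .e .e))) (.A 0 375 (.A 1 923 .e .e) (.A 1 923 .e .e)))) (.A 0 750 (.A 1 846 (.A 0 625 (.A 0 562 (.A 1 769 .e .e) (.A 1 769 (.A 0 593 .e .e) (.A 1 807 .e .e))) (.A 1 769 (.A 0 687 (.A 1 731 .e .e) (.X 52 53 (.X 35 16 .e .n) .e)) (.A 0 687 (.A 0 656 .e .e) (.A 1 807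 .e .e)))) (.A 0 625 (.A 1 923 (.A 0 562 .e .e) (.A 0 562 .e .e)) (.A 1 923 (.A 0 687 (.A 1 884 .e .e) .e) (.A 0 687 .e .e)))) (.N (.A 1 875 (.N (.A 1 812 (.N (.A 0 781 (.A 1 781 .e .e) (.N .e))) (.A 0 812 (.A 1 843 .e .e) .e))) (.A 0 875 (.A 1 937 (.A 0 812 .e .e) .e) .e))))) (.A 0 500 (.A 0 250 (.A 1 846 (.A 0 125 .e .e) (.A 0 125 .e .e)) (.A 1 846 (.A 0 375 (.A 0 312 .e (.A 1 769 .e .e)) (.A 1 769 (.A 0 437 .e .e) .e)) (.A 0 375 (.A 1 923 .e .e) (.A 1 923 .e (.A 0 437 .e .e))))) (.A 0 750 (.A 1 846 (.A 0 625 (.A 1 769 (.A 0 562 .e (.A 0 593 .e .e)) (.A 0 562 .e (.A 1 807 .e .e))) (.A 1 769 (.A 0 687 (.A 1 731 .e .e) (.A 1 731 (.N (.X 52 46 (.N .e) .n)) (.X 52 41 .e .n))) (.A 0 687 .e .e))) (.A 0 625 (.A 1 923 (.A 0 562 .e .e) .e) (.A 0 687 (.A 1 923 .e .e)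 (.A 1 923 (.X 34 31 (.N .e) .n) (.A 1 961 .e .e))))) (.N (.A 0 875 (.A 1 875 (.A 0 812 (.A 1 812 (.X 34 27 (.N .e) .n) (.X 34 23 .e .n)) (.N .e)) (.A 0 812 (.A 1 937 (.A 0 781 .e .e) .e) (.A 1 937 .e (.X 0 5 .n (.N (.S 3605 .e .e)))))) (.N (.X 0 36 .n (.A 0 744 (.A 0 616 (.A 2 937 (.N .e) (.A 1 937 .e (.A 0 552 .e .e))) (.A 2 937 (.N .e) (.A 1 937 .e .e))) (.A 0 872 (.A 0 808 (.A 2 937 (.N .e) (.A 1 937 .e .e)) (.A 2 937 (.N (.A 1 906 .e (.N .e))) (.A 1 937 (.A 1 906 .e .e) .e))) (.A 0 936 (.A 1 937 (.A 2 937 (.A 0 904 (.S 3605 .e .e) (.N .e)) (.A 0 904 (.A 2 968 .e .e) (.N .e))) (.N (.A 0 904 .e (.A 2 968 (.N .e) (.x 0))))) (.N (.x 0)))))))))))) (.A 0 846 (.A 0 769 (.X 66 54 (.A 0 725 (.X 53 45 .e .n) (.N .e)) .n) (.A 0 807 (.X 52 48 (.N .e) .n) .e)) (.A 0 923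 (.A 0 884 (.A 0 865 .e .e) (.A 0 903 .e (.S 3605 (.X 34 34 (.X 0 2 .n .e) (.X 1 0 .e .n)) (.X 33 34 .n (.N .e))))) cP3)))
def cP5 : Ct := (.X 33 34 (.A 0 956 (.A 1 964 (.S 3785 (.A 0 934 .e (.N (.X 0 2 .n (.A 0 929 .e .e)))) .e) (.S 3785 (.A 0 934 (.S 3739 (.A 1 982 (.X 0 1 .n (.N .e)) (.A 0 923 (.S 3716 (.X 0 1 .n (.x 1)) (.X 0 1 .n (.N (.x 1)))) (.S 3716 (.X 0 1 .n (.x 1)) (.X 0 1 .n (.x 1))))) (.A 1 982 .e (.A 0 923 .e (.X 0 1 .n (.S 3762 (.x 1) .e))))) (.X 0 2 .n (.A 0 909 .e (.A 0 932 (.S 3739 (.A 2 982 (.A 0 920 (.A 1 945 .e (.x 1)) (.x 1)) (.x 1)) (.A 2 982 (.A 0 920 .e .e) (.A 0 920 .e (.A 1 945 (.S 3762 (.x 1) .e) (.x 1))))) (.A 2 982 (.A 0 944 .e (.N (.x 1))) (.x 1)))))) (.A 0 934 .e (.S 3831 (.A 1 982 (.X 0 1 .n (.N .e)) (.A 0 945 (.S 3808 (.X 0 1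 .n (.x 1)) .e) (.X 0 1 .n (.A 0 939 (.S 3808 (.x 1) .e) (.x 1))))) (.X 0 1 .n (.N .e)))))) (.N (.X 0 8 .n (.A 0 881 (.A 0 822 .e .e) (.A 0 940 (.A 0 910 .e (.A 1 978 (.A 2 978 (.A 2 967 (.N .e) .e) .e) (.N .e))) (.A 0 970 (.A 0 955 (.A 1 978 (.A 2 978 .e (.A 1 967 (.S 3785 (.x 1) (.S 3831 (.x 1) (.A 2 989 .e (.S 3854 (.x 1) .e)))) .e)) (.N (.x 1))) (.A 2 978 (.N (.S 3785 (.x 1) (.A 0 962 .e (.N .e)))) (.x 1))) (.N (.x 1)))))))) (.A 0 951 (.A 0 926 (.S 3785 (.A 1 964 .e (.S 3739 (.X 2 0 (.A 2 982 .e (.A 0 910 .e (.N (.S 3716 (.x 2) .e)))) .n) (.A 1 982 .e .e))) .e) (.A 1 964 (.X 3 0 (.S 3785 (.A 0 924 .e .e) .e) .n) (.S 3785 (.X 1 0 (.A 0 914 (.S 3739 (.A 2 982 (.A 0 896 .e .e) .e) (.A 2 982 .e (.A 0 896 .e (.A 1 938 .e .e)))) (.A 2 982 (.A 0 932 (.S 3739 .e .e)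 (.N .e)) (.S 3739 (.x 2) (.A 0 932 (.A 1 938 (.S 3762 (.A 2 991 .e (.x 2)) .e) .e) (.N (.x 2)))))) .n) (.A 0 938 (.A 1 982 .e .e) (.S 3831 (.A 1 982 (.A 1 973 .e (.X 1 0 (.N (.x 2)) .n)) (.A 1 991 (.A 0 944 .e (.X 1 0 (.x 2) .n)) (.A 0 944 (.X 1 0 (.x 2) .n) (.X 1 0 (.x 2) .n)))) (.A 1 982 .e .e)))))) (.N (.X 2 0 (.A 0 907 (.A 0 860 .e (.A 2 975 (.N (.S 3785 (.A 0 883 .e (.S 3739 .e .e)) .e)) .e)) (.A 2 975 (.N (.A 0 941 (.S 3785 (.S 3739 .e (.A 0 924 .e .e)) (.A 0 924 .e (.S 3831 (.A 2 963 (.N .e) .e) .e))) (.A 2 963 (.N .e) (.A 0 958 (.A 1 963 .e (.S 3785 (.x 2) (.S 3831 (.x 2) .e))) (.N .e))))) (.A 1 975 (.N (.A 0 941 (.A 0 924 .e (.A 2 987 (.S 3785 (.x 2) (.S 3831 .e .e)) (.A 1 963 (.A 0 932 .e (.A 2 993 .e .e)) .e))) (.A 2 987 (.A 0 958 (.S 3785 (.x 2) (.A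 1 963 (.S 3831 (.x 2) .e) .e)) (.N (.x 2))) (.S 3785 (.x 2) (.S 3831 (.x 2) (.A 0 958 (.A 1 963 (.S 3854 (.x 2) .e) (.x 2)) (.N (.x 2)))))))) (.A 0 953 (.A 0 930 .e (.A 2 987 (.N .e) (.x 2))) (.x 2))))) .n))))
def cP6 : Ct := (.X 77 77 (.X 126 126 (.A 0 676 (.A 0 514 (.A 1 870 (.A 0 433 (.A 1 805 .e .e) (.A 1 805 .e .e)) (.A 0 433 (.A 1 935 .e .e) (.A 1 935 .e .e))) (.A 1 870 (.A 0 595 (.A 1 805 (.A 0 554 .e .e) (.A 0 554 .e .e)) (.A 1 805 (.A 0 635 .e .e) (.X 60 66 .n (.N .e)))) (.A 0 595 (.A 1 935 .e .e) (.A 1 935 .e (.A 0 635 .e .e))))) (.A 0 838 (.A 1 870 (.A 1 805 (.N (.A 0 740 (.A 0 708 .e (.A 1 773 .e .e)) (.A 0 772 (.A 1 773 (.A 1 757 (.N (.X 51 53 .n (.N .e))) (.X 48 53 .n .e)) .e) (.N .e)))) (.A 0 757 (.A 0 716 .e .e) (.X 33 33 (.N .e) (.N .e)))) (.A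 1 935 (.A 0 757 .e (.X 33 33 (.N .e) (.N .e))) (.A 0 757 .e .e))) (.N (.A 1 919 (.N (.A 1 878 (.N (.X 33 33 .e .e)) (.A 0 878 (.A 1 898 (.A 0 858 .e (.A 1 888 .e .e)) .e) (.A 1 898 (.N (.S 3973 .e (.A 1 888 (.N .e) .e))) .e)))) (.A 0 919 .e .e))))) (.A 0 676 (.A 0 514 (.A 1 870 (.A 0 433 (.A 1 805 .e .e) (.A 1 805 .e .e)) (.A 0 433 .e (.A 1 935 .e .e))) (.A 1 870 (.A 0 595 (.A 1 805 .e .e) (.A 1 805 (.A 0 635 .e .e) (.X 66 60 (.N .e) .n))) (.A 0 595 (.A 1 935 .e .e) (.A 1 935 .e .e)))) (.A 0 838 (.A 0 757 (.A 1 870 (.A 1 805 (.X 55 49 (.N .e) .n) (.A 0 716 .e .e)) (.A 1 935 .e .e)) (.N (.A 1 878 (.A 1 817 (.N (.X 53 38 .e .n)) (.X 34 32 (.N .e) .n)) (.A 1 939 (.X 34 28 (.N .e) .n) (.A 0 797 .e .e))))) (.N (.A 1 919 (.N (.X 34 15 (.A 0 837 (.A 2 878 (.N .e) .e)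 .e) .n)) (.A 0 919 .e (.A 0 959 (.X 1 2 .n (.N .e)) (.N (.S 3973 (.A 1 979 (.N (.X 0 1 .n (.N .e))) (.A 0 979 (.S 3925 (.X 0 2 .n (.A 0 958 .e (.A 0 968 (.A 2 989 .e .e) (.N (.x 0))))) (.X 0 1 .n (.N .e))) (.X 0 2 .n (.A 0 958 (.S 3925 .e .e) (.A 0 979 (.A 0 968 (.A 2 989 (.N .e) .e) (.A 2 989 (.N (.S 3925 (.x 0) .e)) (.x 0))) (.x 0)))))) (.A 0 979 .e (.N (.S 4021 (.A 1 989 (.N .e) (.S 3997 (.A 0 989 (.X 0 1 .n (.N (.x 0))) (.X 0 1 .n (.x 0))) (.X 0 1 .n (.N (.x 0))))) (.X 0 1 .n (.N (.x 0))))))))))))))) (.A 0 870 (.A 0 805 (.X 66 57 (.X 53 41 .e .n) .n) (.X 52 47 (.N (.X 33 27 .e .n)) .n)) (.A 0 935 (.A 0 902 (.X 52 43 (.X 33 19 .e .n) .n) .e) (.A 0 967 .e (.S 3973 (.X 33 33 (.A 0 980 (.S 3925 (.A 1 983 (.A 0 970 .e (.N (.X 0 1 .n (.S 3901 (.x 1) .e)))) (.A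 0 970 (.S 3901 (.X 0 1 .n (.x 1)) (.X 0 1 .n (.N (.x 1)))) (.S 3901 (.X 0 1 .n (.x 1)) (.X 0 1 .n (.x 1))))) (.X 0 1 .n (.N .e))) (.N (.X 0 2 .n (.A 0 958 .e (.A 0 979 (.A 0 968 (.A 1 990 .e (.N (.x 1))) (.A 1 990 (.A 2 990 (.S 3925 (.x 1) .e) (.x 1)) (.N (.x 1)))) (.x 1)))))) (.A 0 980 (.S 3925 (.A 1 983 (.A 0 970 .e (.N (.S 3901 (.X 1 0 (.x 2) .n) (.X 1 0 (.N (.x 2)) .n)))) (.A 0 970 (.S 3901 (.X 1 0 (.x 2) .n) (.X 1 0 (.N (.x 2)) .n)) (.S 3901 (.X 1 0 (.x 2) .n) (.X 1 0 (.x 2) .n)))) (.X 2 0 (.N .e) .n)) (.N (.X 1 0 (.A 0 963 (.A 2 990 (.N (.A 0 944 .e (.S 3925 (.A 0 953 .e (.x 2)) .e))) .e) (.A 2 990 (.N (.A 0 976 (.S 3925 (.x 2) .e) (.x 2))) (.A 0 981 (.A 1 990 (.A 0 972 (.A 2 995 (.S 3925 (.x 2) .e) (.x 2)) (.x 2)) (.x 2)) (.N (.x 2))))) .n)))) (.A 0 983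 .e (.S 4021 (.S 3997 (.S 3985 (.X 33 33 (.N (.X 0 1 .n (.x 1))) (.N (.X 1 0 (.x 2) .n))) (.X 33 33 (.N (.X 0 1 .n (.x 1))) (.N (.X 1 0 (.x 2) .n)))) (.X 33 33 (.N (.X 0 1 .n (.x 1))) (.N (.X 1 0 (.x 2) .n)))) (.X 33 33 (.N (.X 0 1 .n (.N (.x 1)))) (.N (.X 1 0 (.N (.x 2)) .n))))))))))
def cP7 : Ct := (.S 3877 (.X 77 77 (.X 126 126 (.A 0 667 (.A 0 501 (.A 1 858 (.A 0 418 (.A 1 787 .e .e) (.A 1 787 .e .e)) (.A 0 418 (.A 1 929 .e .e) (.A 1 929 .e .e))) (.A 1 858 (.A 0 584 (.A 1 787 .e .e) (.A 1 787 (.A 0 625 .e (.A 1 752 .e .e)) (.X 56 66 .n (.N .e)))) (.A 0 584 (.A 1 929 .e .e) (.A 1 929 (.A 1 893 .e .e) (.A 0 625 .e .e))))) (.A 0 833 (.A 1 858 (.A 0 750 (.A 1 787 (.X 53 53 (.N (.X 33 24 .e .n)) (.N .e)) (.A 0 708 .e .e)) (.N (.A 0 791 (.A 1 804 (.A 1 777 (.N (.A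 1 763 (.N .e) .e)) .e) .e) (.N (.X 33 27 .e .n))))) (.A 0 750 (.A 1 929 .e .e) (.A 1 929 (.A 1 893 (.A 0 791 .e .e) .e) .e))) (.N (.A 1 916 (.N (.A 1 874 (.N .e) (.A 0 874 .e .e))) (.A 0 916 .e .e))))) (.A 0 667 (.A 0 501 (.A 1 858 (.A 0 418 (.A 1 787 .e .e) (.A 1 787 .e .e)) (.A 1 929 (.A 0 418 .e .e) (.A 0 418 .e .e))) (.A 1 858 (.A 0 584 (.A 1 787 (.X 77 75 (.N .e) .n) .e) (.A 1 787 (.A 0 625 .e (.A 1 752 .e .e)) (.X 66 56 (.N .e) .n))) (.A 1 929 (.A 0 584 .e .e) (.A 0 584 .e .e)))) (.A 0 833 (.A 1 858 (.A 0 750 (.A 1 787 (.X 54 45 (.N .e) .n) (.X 52 42 (.N .e) .n)) (.N (.A 0 791 (.A 1 804 .e .e) (.N (.X 34 27 .e .n))))) (.A 0 750 (.A 1 929 .e (.A 1 964 .e .e)) (.A 1 929 (.X 33 22 .e .n) (.A 0 791 .e .e)))) (.N (.A 0 916 (.A 1 916 (.A 1 874 (.N .e) .e) (.A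 0 874 .e (.X 0 6 .n .e))) (.N (.A 0 958 (.A 1 958 (.S 3785 (.A 0 937 (.X 1 2 .n (.N .e)) (.N (.X 0 2 .n .e))) .e) (.A 0 937 (.S 3785 (.X 0 3 .n (.A 0 905 .e .e)) (.X 1 3 .n (.N .e))) (.S 3785 (.X 0 3 .n (.A 0 905 .e (.A 0 931 (.A 2 979 .e .e) (.A 2 979 .e (.x 0))))) (.A 1 979 (.S 3831 (.X 0 2 .n .e) .e) (.A 0 947 (.X 0 2 .n .e) (.S 3831 (.X 0 1 .n (.A 0 939 .e (.x 0))) (.X 0 2 .n .e))))))) (.N (.X 0 8 .n (.A 0 881 .e (.A 0 940 (.A 0 910 .e (.A 2 979 (.N (.A 1 968 .e (.N .e))) .e)) (.A 0 970 (.A 0 955 (.A 2 979 (.N .e) .e) (.A 1 979 (.A 2 979 (.S 3785 (.x 0) (.A 1 968 (.N .e) (.N (.x 0)))) (.x 0)) (.N (.x 0)))) (.N (.x 0)))))))))))))) (.A 0 858 (.A 0 787 (.X 66 56 (.X 53 39 .e .n) .n) (.X 52 45 (.N (.X 34 23 .e .n)) .n)) (.A 0 929 (.A 0 893 (.A 0 875 .e (.S 3785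 .e .e)) .e) cP5))) (.S 4070 cP6 (.X 78 77 (.A 0 878 (.A 0 817 (.A 0 787 (.X 68 66 (.X 50 53 .n (.N .e)) (.N .e)) (.S 4171 (.A 0 802 .e .e) (.A 0 802 (.X 68 63 .e .n) (.X 69 61 .e .n)))) (.A 0 847 (.X 71 55 (.A 0 781 (.A 0 748 .e .e) .e) .n) (.A 0 862 (.X 71 53 (.A 0 786 .e .e) .n) (.S 4171 (.S 4120 (.A 0 870 (.X 52 52 (.N .e) (.N .e)) (.X 52 52 (.A 0 872 .e (.N .e)) (.A 0 872 .e (.N .e)))) (.X 52 52 (.N .e) (.N .e))) (.X 67 52 .e .n))))) (.A 0 939 (.A 0 908 (.X 76 52 (.A 0 785 (.A 0 723 .e .e) (.A 0 846 .e (.X 33 33 .e (.A 0 872 .e (.N .e))))) (.X 33 25 .e .n)) (.S 4171 (.X 50 42 (.A 0 901 .e .e) .n) (.A 0 923 (.A 0 915 (.S 4222 (.X 52 52 (.A 0 894 .e .e) .e) (.X 52 52 (.A 0 899 .e .e) .e)) (.X 50 46 .e .n)) (.S 4222 .e (.S 4247 .e (.X 50 45 .e .n)))))) (.A 0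 969 (.X 77 38 (.A 0 803 .e (.A 0 886 .e .e)) .n) (.X 77 33 (.A 0 814 (.A 0 721 .e .e) .e) .n)))) (.A 0 882 (.A 0 823 .e (.X 52 50 (.N (.X 33 30 .e .n)) .n)) (.A 0 941 (.A 0 911 (.X 52 46 (.X 33 24 .e .n) .n) (.A 0 926 (.S 4171 .e .e) .e)) .e)))))
def cP8 : Ct := (.S 4486 (.X 85 69 (.X 126 126 (.A 0 694 (.A 0 541 (.A 1 862 (.A 0 465 (.A 1 793 .e .e) (.A 1 793 .e .e)) (.A 1 931 (.A 0 465 .e .e) (.A 0 465 .e .e))) (.A 1 862 (.A 0 617 (.A 1 793 (.A 0 579 .e .e) .e) (.A 1 793 (.A 1 759 (.A 0 655 .e .e) .e) .e)) (.A 0 617 (.A 1 931 .e .e) (.A 0 655 .e (.A 1 931 .e .e))))) (.A 0 847 (.A 1 862 (.A 0 770 (.A 1 793 (.A 0 732 (.A 1 759 .e .e) (.N (.A 1 762 (.N .e) .e))) (.A 0 732 (.A 1 827 (.A 0 713 .e .e) (.A 1 844 .e .e)) (.A 1 827 .e (.A 0 751 (.A 1 844 .e .e) .e))))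 (.N (.A 1 816 (.N (.X 49 55 .n (.N .e))) (.A 0 808 .e .e)))) (.A 0 770 (.A 1 931 (.A 1 896 .e .e) .e) (.A 1 931 (.A 0 808 .e .e) .e))) (.N (.A 1 923 (.N (.A 0 885 .e (.N (.X 33 33 .e .e)))) (.A 0 923 (.A 1 961 (.A 0 885 (.X 33 32 (.N .e) .n) (.A 0 904 (.A 1 942 .e .e) .e)) .e) (.A 1 961 (.N (.A 0 942 .e (.N .e))) .e)))))) (.A 0 694 (.A 0 541 (.A 1 862 (.A 1 793 (.A 0 465 .e .e) (.A 0 465 .e .e)) (.A 1 931 (.A 0 465 .e .e) .e)) (.A 1 862 (.A 0 617 (.A 1 793 .e .e) (.A 1 793 .e .e)) (.A 0 617 (.A 1 931 .e .e) (.A 1 931 (.A 0 655 .e (.A 1 896 .e .e)) .e)))) (.A 0 847 (.A 1 862 (.A 0 770 (.A 1 793 .e (.A 0 732 .e .e)) (.N (.A 1 816 (.N .e) (.A 0 808 (.A 1 839 .e .e) .e)))) (.A 1 931 (.A 0 770 (.A 1 896 .e .e) .e) (.A 0 770 .e .e))) (.N (.A 0 923 (.A 1 923 (.A 0 885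 .e (.N (.X 33 28 .e .n))) (.X 33 23 (.X 2 0 .e .n) .n)) (.N (.A 0 961 (.A 1 961 (.S 4379 .e (.A 1 942 (.N .e) .e)) .e) (.N .e)))))))) (.A 0 930 (.A 0 895 .e (.A 0 912 (.X 52 50 (.X 33 30 .e .n) .n) .e)) .e)) (.X 87 88 (.X 126 126 (.A 0 703 (.A 0 555 (.A 1 866 (.A 0 481 (.A 1 799 .e .e) (.A 1 799 .e .e)) (.A 1 933 (.A 0 481 .e .e) (.A 0 481 .e .e))) (.A 1 866 (.A 0 629 (.A 1 799 (.A 0 592 .e .e) .e) (.A 1 799 (.A 0 666 .e .e) .e)) (.A 0 629 (.A 1 933 .e .e) (.A 1 933 .e (.A 0 666 .e .e))))) (.A 0 851 (.A 1 866 (.A 0 777 (.A 1 799 (.A 0 740 .e (.N (.A 1 769 (.N (.A 0 754 (.A 1 754 .e .e) (.N .e))) (.A 0 758 .e (.A 1 784 .e .e))))) (.X 66 58 (.N (.X 52 43 .e .n)) .n)) (.N (.A 1 821 (.N (.A 1 799 (.N .e) (.A 0 799 .e .e))) (.A 0 814 .e .e)))) (.A 0 777 (.A 1 933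 (.A 1 899 .e .e) .e) (.A 1 933 (.A 0 814 (.A 0 795 .e (.A 1 899 .e .e)) .e) .e))) (.N (.A 1 925 (.N .e) (.A 0 925 (.A 0 888 .e (.S 4598 (.A 1 962 (.A 1 943 .e .e) .e) .e)) (.A 1 962 (.N (.A 1 943 (.N .e) .e)) (.A 0 962 .e .e))))))) (.A 0 703 (.A 0 555 (.A 1 866 (.A 1 799 (.A 0 481 .e .e) (.A 0 481 .e .e)) (.A 1 933 (.A 0 481 .e .e) .e)) (.A 1 866 (.A 0 629 (.A 1 799 (.A 0 592 .e .e) .e) (.A 1 799 (.A 0 666 .e .e) .e)) (.A 1 933 (.A 0 629 .e .e) (.A 0 629 .e .e)))) (.A 0 851 (.A 1 866 (.A 0 777 (.A 1 799 .e .e) (.N (.X 53 47 (.N .e) .n))) (.A 0 777 (.A 1 933 (.A 0 740 .e .e) .e) (.A 1 933 (.X 54 44 .e .n) .e))) (.N (.A 1 925 (.N (.A 1 888 (.N .e) .e)) (.A 0 925 (.A 0 888 .e (.S 4598 (.A 1 962 (.X 33 32 (.N .e) .n) .e) .e)) (.A 1 962 (.N (.A 1 943 (.N .e) (.S 4598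 .e .e))) (.A 0 962 .e .e)))))))) (.A 0 862 (.A 0 793 (.A 0 759 .e .e) .e) (.A 0 931 (.A 0 896 .e .e) .e))))
def cP9 : Ct := (.S 4273 (.S 3693 (.S 3518 cP2 cP4) cP7) (.S 4710 cP8 (.S 4945 (.X 86 88 (.A 0 882 (.A 0 823 (.A 0 793 (.A 0 778 (.S 4827 (.X 77 76 (.N .e) .n) .e) (.X 77 73 (.A 0 780 (.X 66 65 (.N .e) .n) (.N .e)) .n)) (.S 4827 (.X 77 69 (.A 0 792 (.A 0 776 (.S 4768 .e .e) .e) .e) .n) (.A 0 808 (.X 77 73 .e .n) (.X 77 71 .e .n)))) (.A 0 852 (.S 4827 (.X 77 65 (.A 0 803 .e (.A 0 827 .e (.N .e))) .n) (.X 77 67 (.A 0 810 .e .e) .n)) (.X 77 61 (.A 0 815 (.A 0 781 .e .e) (.A 0 848 .e .e)) .n))) (.A 0 941 (.A 0 911 (.X 68 57 (.A 0 864 .e .e) .n) (.X 69 53 (.A 0 870 (.A 0 835 .e .e) .e) .n)) (.A 0 970 (.S 4827 (.A 0 955 .e (.S 4768 .e .e)) (.A 0 955 (.X 68 54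 .e .n) (.X 66 52 .e .n))) (.S 4827 (.X 52 46 .e .n) (.A 0 985 .e .e))))) (.A 0 874 (.A 0 811 (.A 0 779 .e .e) .e) (.A 0 937 .e .e))) (.S 5192 (.X 93 85 (.A 0 865 (.A 0 798 (.A 0 764 (.A 0 747 .e (.X 86 81 .e .n)) (.A 0 781 .e (.X 77 76 (.N .e) .n))) (.A 0 831 (.X 77 72 (.A 0 809 (.S 5068 (.A 1 814 .e .e) .e) (.N .e)) .n) (.X 77 67 (.A 0 823 (.A 0 802 (.S 5068 .e .e) .e) .e) .n))) (.A 0 932 (.A 0 898 (.S 5068 (.X 77 63 (.A 0 836 .e .e) .n) (.X 77 65 (.A 0 843 .e .e) .n)) (.S 5068 (.X 68 58 (.A 0 888 .e .e) .n) (.X 66 60 .e .n))) (.A 0 966 (.X 69 66 (.A 0 896 (.A 0 861 .e .e) .e) (.A 0 909 .e .e)) (.S 5068 (.A 0 983 (.X 69 52 (.A 0 902 .e .e) .n) .e) (.X 68 52 (.A 0 921 .e .e) .n))))) (.A 0 898 (.A 0 847 .e .e) (.A 0 949 .e (.A 0 974 .e .e)))) (.X 93 92 (.A 0 876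 (.A 0 814 (.A 0 783 (.S 5321 (.X 86 82 (.A 0 766 .e (.N .e)) .n) (.X 86 86 (.N .e) (.N .e))) (.A 0 798 (.S 5321 .e (.X 85 81 .e .n)) .e)) (.A 0 845 (.X 76 73 (.N .e) .n) (.S 5321 (.X 77 69 .e .n) .e))) (.X 94 85 (.A 0 825 (.A 0 737 (.A 1 938 (.A 0 693 .e .e) .e) (.A 0 781 (.A 1 938 .e .e) (.A 1 938 (.A 0 803 .e .e) .e))) (.A 0 912 (.A 0 868 (.A 1 938 (.A 1 907 .e .e) .e) (.A 1 938 (.A 1 907 (.N (.S 5321 .e .e)) .e) (.X 48 52 .n (.N .e)))) (.N (.A 1 956 (.N .e) (.A 0 956 .e .e))))) (.A 0 858 (.A 0 787 .e (.A 1 938 .e .e)) (.A 1 938 (.N (.A 0 898 .e (.N .e))) (.A 0 929 (.A 1 969 .e .e) .e))))) (.A 0 880 (.A 0 820 (.A 0 790 .e .e) .e) (.A 0 940 .e .e)))))))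
def cP10 : Ct := (.S 6009 (.S 5723 (.X 93 93 (.A 0 888 (.A 0 832 (.A 0 804 (.S 5587 (.X 86 86 (.A 0 789 .e (.N .e)) .e) (.A 0 790 .e (.A 0 797 .e .e))) (.S 5587 .e (.A 0 818 .e .e))) (.A 0 860 (.S 5587 .e .e) .e)) (.A 0 944 (.A 0 916 (.S 5587 (.X 76 67 .e .n) .e) (.S 5587 (.X 67 64 (.N .e) .n) .e)) (.X 72 57 (.A 0 928 (.A 0 892 .e (.A 1 972 .e .e)) (.A 0 964 (.A 1 972 .e .e) (.N (.S 5587 .e (.A 1 982 (.N .e) .e))))) .n))) (.A 0 888 (.A 0 832 (.A 0 804 .e .e) (.A 0 860 .e .e)) (.A 0 944 .e .e))) (.X 93 92 (.A 0 899 (.A 0 849 (.A 0 824 (.S 5866 (.X 83 86 .n .e) .e) (.A 0 836 (.S 5866 .e .e) (.S 5866 .e .e))) (.A 0 874 (.S 5866 (.A 0 861 .e .e) .e) (.X 73 77 .n .e))) (.A 0 949 (.X 77 77 (.A 0 901 .e (.N .e)) .e) (.X 70 61 (.A 0 954 (.A 0 931 .e .e) (.N .e)) .n)))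 (.A 0 904 (.A 0 856 .e (.X 77 76 (.N .e) (.N .e))) (.A 0 952 (.A 0 928 .e .e) .e)))) (.S 6309 (.X 93 92 (.X 126 126 (.A 0 758 (.A 0 637 (.A 1 911 (.A 0 576 (.A 1 867 .e .e) (.A 1 867 .e .e)) (.A 0 576 .e .e)) (.A 1 911 (.A 0 697 .e (.A 1 867 .e .e)) (.A 0 697 (.A 1 955 .e .e) (.A 1 955 .e .e)))) (.A 0 879 (.A 1 911 (.A 0 818 (.A 1 867 .e (.A 0 788 .e .e)) (.A 1 867 (.N (.A 0 842 (.A 1 845 .e .e) (.N .e))) (.A 0 848 (.A 1 889 .e .e) .e))) (.A 0 818 (.A 1 955 (.A 0 788 .e .e) .e) (.A 1 955 (.A 0 848 .e .e) .e))) (.N (.A 0 939 (.A 1 939 (.A 0 909 (.S 6159 (.A 0 894 .e (.N .e)) .e) (.N .e)) (.A 0 909 .e .e)) (.N (.A 0 969 (.A 1 969 .e .e) (.N (.A 1 984 (.N .e) .e)))))))) (.A 0 758 (.A 0 637 (.A 1 911 (.A 0 576 .e .e) (.A 0 576 .e .e)) (.A 1 911 (.A 0 697 .e .e) (.A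 0 697 .e .e))) (.A 0 879 (.A 1 911 (.A 0 818 .e (.A 1 867 (.N (.A 1 845 (.N .e) .e)) .e)) (.A 0 818 .e .e)) (.N (.A 1 939 (.N (.A 1 909 (.N .e) (.A 0 909 .e .e))) (.A 0 939 (.A 1 969 .e .e) (.X 52 51 (.N .e) .n))))))) (.A 0 916 (.A 0 874 .e (.A 0 895 .e (.X 77 74 .e .n))) (.A 0 958 .e .e))) (.S 6624 (.X 92 86 (.A 0 928 (.A 0 892 .e (.A 0 910 .e (.X 77 77 (.N .e) (.N .e)))) (.A 0 964 (.X 86 77 (.A 0 897 (.A 0 863 (.A 1 946 .e .e) .e) (.A 0 930 (.S 6466 .e .e) (.N (.S 6466 .e (.S 6545 .e (.A 0 947 .e (.N .e))))))) (.A 0 939 (.S 6466 .e .e) (.N .e))) (.A 0 982 (.S 6466 .e (.X 76 77 .e .e)) (.S 6466 .e .e)))) (.A 0 957 (.A 0 935 .e (.A 0 946 .e .e)) .e)) (.X 105 86 (.A 0 883 (.A 0 825 (.A 0 796 (.S 6789 .e .e) (.S 6789 .e .e)) (.A 0 854 (.S 6789 .e .e) (.S 6789 .e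 .e))) (.A 0 941 .e (.A 0 970 (.S 6789 (.X 77 77 (.N .e) (.N .e)) (.X 77 76 (.N .e) .n)) (.A 0 985 (.S 6789 (.X 72 77 .n .e) (.X 76 74 .e .n)) (.S 6789 (.S 6706 .e .e) (.S 6872 .e .e)))))) (.A 0 970 (.S 6789 .e (.A 0 955 .e .e)) .e)))))
def cP11 : Ct := (.S 5451 (.S 3351 (.S 2628 (.S 2271 (.S 2163 (.X 66 66 (.A 0 753 (.A 0 629 (.A 0 567 (.A 0 536 .e .e) .e) (.A 0 691 .e .e)) .e) (.A 0 753 (.A 0 629 (.A 0 567 (.A 0 536 (.X 52 46 .e .n) .e) (.A 0 598 .e .e)) (.A 0 691 .e .e)) (.A 0 876 .e (.A 0 938 .e .e)))) (.X 66 77 (.A 0 765 (.A 0 647 (.A 0 588 (.A 0 559 (.S 2217 (.X 46 52 .n .e) .e) .e) .e) (.A 0 706 .e .e)) .e) (.A 0 735 (.A 0 603 (.A 0 537 (.A 0 504 (.A 0 487 .e .e) (.A 0 520 .e (.S 2217 (.S 2190 .e .e) .e))) (.A 0 570 (.S 2217 (.A 0 553 .e .e) .e) .e)) (.A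 0 669 .e .e)) (.A 0 867 .e .e)))) (.S 2384 (.X 62 11 (.A 0 789 (.A 0 684 (.A 0 631 (.X 36 39 .n (.N .e)) .e) .e) (.A 0 894 .e .e)) .n) (.S 2503 (.X 60 15 (.A 0 808 (.A 0 712 (.A 0 664 (.X 35 52 .n (.A 0 609 .e .e)) (.X 25 53 .n (.A 0 620 .e .e))) (.A 0 760 (.A 0 736 (.A 0 724 .e .e) .e) .e)) (.A 0 904 (.A 0 856 .e .e) .e)) .n) (.X 58 18 (.A 0 828 (.A 0 742 (.A 0 699 (.X 33 52 .n (.A 0 637 .e .e)) (.X 25 53 .n (.A 0 647 .e .e))) (.A 0 785 (.A 0 763 (.S 2565 .e (.X 24 52 .n .e)) .e) (.X 33 8 .e .n))) (.A 0 914 (.A 0 871 .e (.S 2565 .e (.A 0 892 .e (.S 2596 .e .e)))) (.A 0 957 (.S 2565 .e (.A 0 935 .e .e)) .e))) .n)))) cP1) cP9) (.S 8874 (.S 6955 cP10 (.S 7667 (.S 7302 (.X 105 86 (.A 0 894 (.A 0 841 (.A 0 815 (.X 99 96 (.N .e) .n) (.A 0 828 (.X 99 94 .e .n) (.S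 7128 .e .e))) (.A 0 867 (.S 7128 .e .e) .e)) (.A 0 947 (.A 0 920 .e .e) (.A 0 973 .e (.A 0 986 (.X 76 77 .n (.N .e)) (.X 77 77 .e (.S 7128 .e .e)))))) (.S 7128 .e .e)) (.X 105 86 (.A 0 906 (.A 0 859 (.X 99 94 (.N (.A 1 836 (.N (.A 0 825 .e (.N .e))) (.A 0 836 .e .e))) .n) .e) (.A 0 953 (.A 0 929 .e .e) (.A 0 976 .e .e))) .e)) (.S 8050 (.S 7858 (.S 7762 (.S 7714 (.S 7690 (.X 114 88 (.A 0 879 (.A 0 818 .e (.A 0 848 .e .e)) (.A 0 939 .e .e)) .n) .e) .e) .e) (.X 93 89 (.A 0 981 .e .e) .n)) (.S 8452 (.S 8251 (.X 103 105 (.A 0 938 .e (.X 86 83 (.N .e) .n)) (.A 0 929 .e .e)) (.X 93 92 .e .n)) (.X 99 98 (.A 0 971 .e .e) .e))))) (.S 11323 (.S 9782 (.S 9317 (.X 99 99 (.X 93 89 .e .n) .e) (.S 9549 (.X 99 99 .e .e) .e)) (.S 10271 .e (.S 10784 (.S 10527 (.X 125 103 (.A 0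 897 (.A 0 845 .e .e) (.A 0 948 .e .e)) .n) .e) .e))) (.S 13107 (.S 11889 .e (.S 12483 .e .e)) (.S 13762 (.S 13434 .e (.S 13598 .e .e)) (.S 14450 (.S 14106 .e (.X 123 119 .e .n)) (.X 123 120 .e .n)))))))
def cP : Ct := cP11
theorem cP_ok : chk par tab 20208 1280 206 xs cP 2060 15020 [.p 1000 1000] = true := by decide +kernel
def cM1 : Ct := (.S 3364 (.X 52 52 (.X 33 33 (.A 0 884 (.A 1 924 (.A 0 826 (.X 0 1 .n (.N .e)) (.A 1 886 (.X 0 1 .n .e) (.S 3284 (.A 0 855 (.A 1 905 (.X 0 1 .n .e) (.S 3244 (.X 0 1 .n .e) (.X 0 1 .n .e))) (.A 1 905 (.A 0 869 (.X 0 1 .n .e) (.S 3244 .e (.X 0 1 .n (.A 0 863 .e .n)))) (.A 0 869 (.S 3244 .e (.A 1 914 .e .e)) .e))) (.A 0 855 (.X 0 1 .n (.N .e)) (.A 1 905 (.X 0 1 .n .e) (.A 0 869 (.X 0 1 .n .e) (.S 3324 (.X 0 1 .n (.A 0 866 .e .n))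 (.X 0 1 .n .e)))))))) (.A 0 826 (.A 1 962 (.S 3284 (.A 0 797 (.A 1 943 .e .e) (.A 1 943 (.X 0 1 .n .e) .e)) (.X 0 1 .n (.N .e))) (.S 3284 .e (.A 1 981 (.A 0 797 .e .e) .e))) (.A 1 962 (.S 3284 (.A 0 855 .e .e) (.A 0 855 (.A 1 943 (.X 0 1 .n .e) (.S 3324 .e (.A 0 840 (.A 1 952 .e .e) .e))) (.A 1 943 (.A 0 869 (.S 3324 .e (.X 0 1 .n .e)) (.S 3324 .e (.X 0 1 .n (.A 0 869 .e .n)))) .e))) .e))) (.N (.A 1 942 (.N (.A 1 913 (.N (.S 3284 .e (.A 1 898 (.N (.X 0 1 .n (.A 0 896 .e .n))) (.S 3324 .e (.X 0 1 .n (.A 0 881 .e .n)))))) (.X 0 11 .n (.A 0 866 (.A 0 724 .e (.A 0 795 .e .e)) .n)))) .e))) (.A 0 884 (.A 1 924 (.A 0 826 (.X 2 0 (.N .e) .n) (.X 1 0 .e .n)) (.A 0 826 (.A 1 962 (.A 0 797 .e .e) .e) (.A 1 962 (.A 0 855 (.X 1 0 .e .n) (.X 1 0 (.A 0 883 .e .n) .n)) .e)))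 (.N (.A 1 942 (.N (.X 1 0 (.A 0 896 .e .n) .n)) (.X 1 0 (.A 0 834 .e .n) .n))))) (.A 0 924 (.X 33 21 (.X 1 0 .e .n) .n) .e)) (.X 52 52 (.X 33 33 (.A 0 909 (.A 1 939 (.A 0 864 (.X 0 1 .n (.N .e)) (.S 3448 (.A 1 909 (.X 0 1 .n .e) (.A 0 886 (.X 0 1 .n .e) (.A 1 924 (.S 3406 (.X 0 1 .n (.A 0 892 .e .n)) (.X 0 1 .n .e)) (.S 3406 (.X 0 1 .n (.A 0 876 .e .n)) (.X 0 1 .n (.A 0 900 .e .n)))))) (.X 0 1 .n .e))) (.A 0 864 (.A 1 969 (.S 3448 (.A 0 841 (.X 0 1 .n (.N .e)) (.A 1 954 (.X 0 1 .n .e) (.S 3406 .e (.X 0 1 .n .e)))) (.X 0 1 .n (.N .e))) (.S 3448 (.A 0 841 (.A 1 984 (.S 3406 .e .e) .e) .e) (.A 0 841 .e (.A 1 984 (.S 3490 (.A 0 852 .e (.A 1 976 (.X 0 1 .n (.N .e)) .e)) .e) (.S 3490 .e (.A 0 852 .e (.S 3511 .e .e))))))) (.A 1 969 (.S 3448 (.A 0 886 (.A 1 954 (.X 0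 1 .n (.A 0 847 (.A 0 828 .e .e) .e)) (.S 3406 .e (.A 0 875 (.X 0 1 .n .e) .e))) (.X 0 1 .n (.A 0 884 (.A 0 824 .e .e) .n))) (.X 0 1 .n (.A 0 863 (.A 1 886 (.A 0 840 .e (.A 2 954 .e (.S 3490 .e .e))) (.S 3490 .e (.A 0 840 .e .e))) (.A 0 886 (.A 1 886 .e .e) (.N (.x 5)))))) (.S 3448 .e (.A 0 886 (.A 1 984 (.S 3490 (.A 0 875 .e .e) (.A 0 875 (.X 0 1 .n .e) (.X 0 1 .n (.A 0 867 .e (.A 0 876 .e (.N .e)))))) .e) (.X 0 1 .n (.A 0 899 (.A 0 839 .e (.A 0 869 .e (.A 0 884 .e (.x 5)))) .n))))))) (.N (.A 1 954 (.N (.S 3448 (.A 1 931 (.N (.S 3406 .e (.X 0 1 .n (.A 0 892 .e .n)))) .e) (.A 1 931 (.N (.X 0 1 .n (.A 0 883 (.A 0 859 (.S 3490 .e .e) .e) (.x 5)))) (.A 0 931 (.X 0 1 .n (.A 0 916 (.A 0 863 (.A 0 836 .e .e) .e) .n)) (.X 0 3 .n (.A 0 894 (.A 0 830 .e .e) .n)))))) (.A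 0 954 (.S 3448 .e (.X 0 2 .n (.A 0 892 (.A 0 804 .e .e) .n))) .e)))) (.A 0 909 (.A 1 939 (.X 2 0 (.A 0 850 .e (.N .e)) .n) (.A 0 864 (.A 1 969 (.A 0 841 (.X 2 0 (.N .e) .n) (.X 1 0 .e .n)) (.A 0 841 (.S 3448 .e .e) .e)) (.A 1 969 (.A 0 886 (.X 1 0 .e .n) (.X 1 0 .e .n)) (.A 0 886 (.S 3448 .e (.A 1 984 (.A 0 875 .e .e) .e)) (.S 3448 .e (.A 1 984 (.X 1 0 (.A 0 899 .e .n) .n) .e)))))) (.N (.A 1 954 (.N (.X 1 0 (.A 0 938 .e .n) .n)) (.X 1 0 (.A 0 892 .e .n) .n))))) (.A 0 939 (.X 33 24 (.X 1 0 .e .n) .n) (.A 0 969 (.X 33 19 (.X 1 0 .e .n) .n) .e))))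
def cM2 : Ct := (.X 33 33 (.X 0 33 .n (.A 0 755 (.A 0 633 (.A 1 934 .e (.N (.A 0 572 .e .e))) (.A 1 934 .e (.N (.A 0 694 .e .e)))) (.A 0 877 (.A 1 934 (.A 0 816 (.A 2 955 .e (.A 0 785 .e .e)) (.A 2 955 (.A 0 846 .e (.A 1 901 .e (.S 3620 (.A 2 932 (.N .e) (.A 1 917 .e (.S 3576 .e .e))) .e))) (.A 0 846 (.S 3620 (.A 1 901 .e .e) .e) (.A 1 901 (.S 3620 (.A 2 977 (.S 3576 (.A 1 884 .e (.A 0 861 .e .e)) .e) (.A 0 861 (.A 1 884 .e .e) (.A 1 884 (.S 3576 (.A 2 988 .e (.S 3554 (.A 0 869 (.A 1 876 .e .e) (.N (.A 2 994 (.A 1 876 (.N .e) .e) .e))) .e)) .e) .e))) .e) (.A 2 977 (.S 3620 (.S 3576 .e (.A 1 917 .e .e)) .e) .e))))) (.N (.A 0 816 .e (.A 2 967 (.N (.A 0 846 .e (.A 2 950 (.N (.S 3620 .e .e)) .e))) .e)))) (.N (.A 1 938 (.N (.A 2 955 (.A 0 907 (.A 1 907 .e (.A 2 932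 (.N .e) (.S 3620 (.S 3576 .e (.A 1 922 (.A 0 892 .e .e) .e)) .e))) (.N .e)) (.S 3620 (.A 1 907 (.N (.A 2 977 (.A 1 892 (.N .e) (.A 0 892 .e .e)) (.S 3576 (.A 0 892 (.A 1 892 (.A 2 988 (.A 1 884 (.N .e) (.A 0 884 .e (.x 5))) (.S 3554 .e (.A 0 884 (.A 2 994 (.A 1 884 .e .e) .e) (.N (.x 5))))) (.A 2 988 .e .e)) (.N (.x 5))) (.A 0 892 (.A 1 892 (.A 2 988 .e (.S 3598 (.A 1 884 (.N .e) (.A 0 884 (.A 2 994 .e (.A 1 888 .e .e)) (.x 5))) .e)) (.A 2 988 .e (.A 1 899 (.A 0 884 .e (.x 5)) .e))) (.N (.x 5)))))) (.A 0 907 (.A 2 977 .e (.A 0 892 .e (.x 5))) (.x 5))) (.A 0 907 (.A 1 907 (.A 2 977 .e (.S 3664 (.A 0 892 .e (.N (.A 2 988 (.S 3642 (.x 5) .e) (.x 5)))) .e)) (.A 2 977 (.S 3664 (.A 0 892 .e .e) .e) (.A 1 922 (.A 0 892 .e (.A 2 988 .e (.A 1 914 (.S 3664 (.x 5) .e) .e)))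 .e))) (.N (.A 2 977 (.A 0 922 (.A 1 922 .e .e) (.N (.x 5))) (.S 3664 (.x 5) (.A 1 922 (.N (.A 2 988 (.S 3686 (.x 5) .e) (.x 5))) (.x 5))))))))) (.N (.A 0 938 (.A 0 907 (.S 3620 .e (.A 2 969 (.N (.S 3664 .e (.A 2 953 (.N .e) .e))) .e)) (.A 2 969 (.N (.A 0 922 .e (.x 5))) (.x 5))) (.x 5)))))))) (.X 3 0 (.A 0 853 .e (.A 0 926 (.A 1 934 (.A 2 955 (.A 1 901 (.N .e) .e) (.S 3620 (.A 0 889 (.A 1 901 (.A 2 977 .e (.S 3576 (.A 0 871 (.A 1 884 (.A 2 988 .e (.A 0 862 .e (.S 3554 (.A 1 876 .e .e) .e))) .e) (.N (.A 1 886 (.N (.A 2 988 (.S 3554 (.A 1 878 (.N .e) .e) .e) (.S 3554 (.A 1 878 (.N .e) .e) (.A 1 878 (.N .e) (.A 2 994 (.A 0 878 .e (.S 3565 .e .e)) (.A 0 878 .e .e)))))) (.A 2 988 .e (.A 0 880 .e (.x 4)))))) (.A 0 871 .e (.N (.A 1 886 (.N .e) (.A 2 988 .e (.A 0 880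 .e (.x 4)))))))) .e) (.N (.A 2 977 (.A 1 911 (.N .e) (.x 4)) (.x 4)))) (.A 0 889 (.A 1 901 .e .e) (.N (.A 2 977 (.A 1 911 (.N .e) .e) (.S 3664 (.A 1 911 (.N (.S 3642 (.A 2 988 (.A 1 900 (.N .e) (.x 4)) (.x 4)) (.A 2 988 .e (.A 1 900 (.N .e) (.x 4))))) (.x 4)) (.A 1 911 (.N .e) (.A 0 907 .e (.S 3686 (.x 4) (.A 2 988 (.A 1 922 (.N .e) (.x 4)) (.x 4))))))))))) (.N .e)) (.N (.S 3620 (.x 4) (.A 2 963 (.N (.A 2 944 (.N .e) (.A 1 944 (.N .e) (.x 4)))) (.x 4)))))) .n))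
def cM3 : Ct := (.X 33 33 (.A 0 958 (.S 3800 (.A 1 970 (.A 0 937 (.X 0 1 .n (.N .e)) (.S 3754 (.A 1 955 (.N (.X 0 1 .n .e)) (.X 0 1 .n (.A 0 934 .e (.x 5)))) (.X 0 1 .n .e))) (.A 1 985 (.A 0 937 (.S 3754 (.A 0 926 .e (.X 0 1 .n (.S 3731 (.x 5) .e))) .e) (.S 3754 (.X 0 1 .n (.A 0 926 .e (.x 5))) (.S 3777 (.A 0 947 (.X 0 1 .n (.x 5)) (.X 0 1 .n (.x 5))) (.A 0 947 (.X 0 1 .n (.N (.x 5))) (.X 0 1 .n (.x 5)))))) (.X 0 1 .n (.A 0 918 (.A 1 937 (.A 0 898 .e (.S 3754 (.A 1 926 .e .e) .e)) .e) (.N (.S 3754 (.x 5) (.A 1 938 (.N (.S 3777 (.A 1 928 (.N .e) (.A 0 928 .e (.x 5))) .e)) (.A 0 938 (.A 0 928 .e (.x 5)) (.x 5))))))))) (.A 1 970 .e (.A 0 937 .e (.S 3846 (.A 1 985 (.X 0 1 .n (.N .e)) (.S 3823 (.A 0 947 (.X 0 1 .n (.N (.x 5))) (.X 0 1 .n (.x 5))) (.A 0 947 .e (.X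 0 1 .n (.x 5))))) (.X 0 1 .n (.N .e)))))) (.N (.X 0 4 .n (.A 0 903 .e (.A 0 951 (.A 0 927 (.A 1 979 (.A 2 979 (.S 3800 .e .e) .e) (.N .e)) (.A 2 979 (.N (.A 0 939 (.S 3800 .e .e) (.S 3800 (.x 5) (.S 3846 (.S 3823 (.A 2 968 (.N .e) (.x 5)) .e) .e)))) (.A 1 979 (.S 3800 (.x 5) (.A 0 939 (.S 3846 .e .e) (.A 1 968 (.S 3846 (.x 5) .e) .e))) .e))) (.S 3800 (.x 5) (.A 0 975 (.A 2 979 (.N (.A 0 963 (.A 1 968 .e (.N (.S 3846 (.x 5) .e))) (.N .e))) (.A 1 979 (.A 0 963 (.A 1 968 (.A 0 957 (.S 3846 (.x 5) (.A 2 989 .e (.x 5))) (.S 3846 (.x 5) (.A 2 989 .e (.x 5)))) (.x 5)) (.N (.x 5))) (.x 5))) (.N (.x 5))))))))) (.A 0 958 (.S 3800 (.A 1 970 (.X 1 0 (.A 1 937 (.N .e) .e) .n) (.A 0 937 (.A 1 985 (.S 3754 (.A 0 926 .e (.X 1 0 .e .n)) .e) (.A 0 926 (.S 3754 (.S 3731 (.X 1 0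 (.x 4) .n) (.X 1 0 (.N (.x 4)) .n)) .e) (.S 3754 (.S 3731 (.X 1 0 (.x 4) .n) (.X 1 0 (.x 4) .n)) (.S 3777 (.X 1 0 (.x 4) .n) .e)))) (.X 1 0 (.A 0 918 .e (.A 0 938 (.A 2 985 .e (.A 1 947 (.A 0 928 .e (.x 4)) (.x 4))) (.N (.x 4)))) .n))) (.A 0 937 .e (.A 1 970 .e (.A 1 985 (.X 1 0 (.N .e) .n) (.X 1 0 (.S 3846 (.A 0 943 (.A 1 947 .e .e) (.N (.x 4))) .e) .n))))) (.N (.X 1 0 (.A 0 916 .e (.S 3800 (.A 0 958 (.A 2 979 (.N .e) (.x 4)) (.x 4)) (.A 0 958 (.A 2 979 (.N .e) (.A 1 979 (.A 0 937 .e (.A 2 989 .e (.A 1 968 (.A 0 947 .e (.A 2 994 .e (.x 4))) (.x 4)))) .e)) (.S 3846 (.x 4) (.A 0 979 (.A 2 979 (.N (.A 2 968 (.N .e) (.A 1 968 (.N .e) .e))) (.x 4)) (.N (.x 4))))))) .n))))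
def cM4 : Ct := (.S 5474 (.S 4505 (.S 4087 (.X 52 52 (.S 3990 (.X 33 33 (.A 0 982 (.S 3941 (.A 1 986 (.A 0 973 .e (.N (.S 3917 (.X 0 1 .n (.x 5)) (.X 0 1 .n (.N (.x 5)))))) (.S 3917 (.A 0 973 (.X 0 1 .n (.x 5)) (.X 0 1 .n (.x 5))) (.A 0 973 .e (.X 0 1 .n (.x 5))))) (.X 0 1 .n (.N .e))) (.N (.X 0 1 .n (.A 0 967 (.S 3941 (.A 0 950 .e (.A 0 958 .e (.x 5))) .e) (.S 3941 (.x 5) (.A 0 983 (.A 0 975 (.A 2 991 (.N .e) (.A 1 991 .e (.x 5))) (.A 1 991 (.A 2 991 .e (.x 5)) (.N (.x 5)))) (.N (.x 5)))))))) (.S 3941 (.X 1 0 (.A 0 967 (.A 1 982 (.A 0 950 .e (.A 2 986 .e (.A 0 958 .e (.A 1 973 .e .e)))) (.N .e)) (.N (.A 1 983 (.N (.A 2 986 (.S 3917 (.A 0 975 .e (.N (.x 4))) .e) (.x 4))) (.N (.x 4))))) .n) (.X 1 0 (.A 0 979 (.A 1 982 .e (.N .e)) (.N (.S 3965 (.x 4) (.A 2 989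 (.N .e) (.x 4))))) .n))) (.A 0 986 .e (.S 4038 (.S 4014 (.X 33 33 (.N (.X 0 1 .n (.x 5))) (.N (.X 1 0 (.x 4) .n))) (.X 33 33 (.N (.X 0 1 .n (.N (.x 5)))) (.N (.X 1 0 (.N (.x 4)) .n)))) .e))) (.S 3990 (.X 33 29 (.A 0 982 (.X 1 0 .e .n) (.N (.X 1 0 (.A 0 967 .e (.S 3941 (.x 3) (.A 0 983 (.A 2 991 (.N .e) .e) (.N (.x 3))))) .n))) .n) (.X 34 32 (.N (.A 0 989 .e (.N (.S 4038 (.S 4014 (.X 1 0 (.x 3) .n) (.X 1 0 (.N (.x 3)) .n)) .e)))) .n))) (.S 4291 (.S 4189 (.X 52 53 .n .e) (.S 4240 .e (.S 4265 .e (.X 76 77 (.A 0 899 (.A 0 848 .e .e) .e) (.A 0 894 (.A 0 841 (.A 0 815 .e .e) .e) .e))))) (.S 4398 (.X 76 77 (.A 0 900 (.A 0 850 (.A 0 825 .e .e) .e) .e) (.A 0 896 (.A 0 844 (.A 0 818 (.X 66 66 (.N .e) (.N .e)) .e) .e) .e)) (.S 4451 .e (.X 76 77 (.A 0 910 (.A 0 865 .e .e)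 .e) (.A 0 906 (.A 0 859 (.A 0 835 (.A 0 823 .e .e) .e) .e) .e)))))) (.S 4966 (.S 4730 (.X 77 77 (.A 0 909 (.A 0 863 .e (.A 0 886 (.S 4617 .e .e) .e)) (.A 0 954 (.A 0 931 (.S 4617 .e .e) .e) .e)) (.A 0 909 (.A 0 863 (.A 0 840 (.X 64 66 .n (.N .e)) (.S 4617 .e (.A 0 851 .e .e))) .e) (.A 0 954 .e .e))) (.X 77 77 (.A 0 922 (.A 0 883 .e .e) (.A 0 961 (.X 52 51 (.N .e) .n) .e)) (.A 0 922 (.A 0 883 .e (.X 65 56 .e .n)) (.A 0 961 (.A 0 941 .e .e) (.A 0 980 .e .e))))) (.S 5214 (.S 5090 .e (.X 67 65 .e .n)) (.S 5344 (.X 67 66 .e .n) .e)))) (.S 6335 (.S 5747 (.S 5610 .e .e) (.S 6034 .e (.X 76 75 .e .n))) (.S 6983 (.S 6651 (.X 85 77 (.A 0 963 .e .e) .n) (.X 86 86 (.A 0 971 .e (.A 0 985 .e .e)) (.A 0 971 (.X 77 74 (.N .e) .n) (.S 6817 .e .e)))) (.S 7332 (.X 86 86 (.A 0 985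 .e (.A 0 992 .e .e)) (.X 77 74 (.N (.X 65 64 (.N .e) .n)) .n)) (.X 86 86 .e .e)))))
def cM : Ct := (.S 3893 (.S 1971 (.S 1403 (.S 1157 (.S 1050 .e (.S 1102 .e .e)) (.S 1274 (.S 1214 .e .e) (.S 1337 .e .e))) (.S 1623 (.S 1473 .e (.S 1546 .e .e)) (.S 1789 (.S 1704 .e (.X 1 0 (.A 0 889 .e .n) .n)) (.S 1878 (.X 1 0 (.A 0 938 .e .n) .n) (.X 3 0 (.A 0 979 .e .n) .n))))) (.S 2769 (.S 2280 (.S 2069 (.S 2020 (.X 1 0 (.A 0 991 .e .n) .n) (.S 2044 (.X 1 0 (.A 0 997 .n .n) .n) .e)) (.S 2172 .e .e)) (.S 2513 (.S 2394 .e .e) (.S 2638 .e (.X 34 22 (.A 0 944 .e .e) .n)))) (.S 3204 (.S 2907 (.X 36 26 (.X 0 33 .n (.A 0 807 .e .e)) .n) (.S 3052 (.X 46 30 (.A 0 921 (.A 0 881 .e (.A 0 901 .e .e)) (.X 0 33 .n (.A 0 834 (.A 0 751 .e .e) .e))) .n) (.X 52 52 (.A 0 909 (.A 0 864 .e (.A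 0 886 .e (.S 3128 .e (.S 3166 .e (.A 0 897 .e (.S 3185 .e (.A 0 903 .e .e))))))) (.X 33 33 (.A 0 859 (.A 0 789 (.A 1 954 (.A 0 754 (.S 3128 .e .e) (.S 3128 .e (.A 1 931 .e .e))) .e) (.A 1 954 (.A 0 824 (.S 3128 .e (.A 1 931 (.A 0 806 .e .e) .e)) .e) .e)) .e) (.A 0 859 (.A 0 789 (.A 1 954 .e .e) (.A 1 954 (.A 0 824 .e .e) .e)) (.A 0 929 (.A 1 954 .e .e) (.N .e))))) (.A 0 909 (.X 33 18 (.X 1 0 .e .n) .n) .e)))) (.S 3532 cM1 (.S 3708 (.X 52 52 cM2 (.X 33 19 (.A 0 934 (.X 1 0 .e .n) (.N (.X 1 0 (.A 0 982 (.A 0 851 .e (.A 0 916 .e (.S 3620 (.x 3) (.A 2 967 (.N (.A 0 941 .e (.N (.x 3)))) (.x 3))))) .n) .n))) .n)) (.X 52 52 cM3 (.X 33 24 (.A 0 958 (.X 1 0 .e .n) (.N (.X 1 0 (.A 0 916 .e (.S 3800 (.A 0 958 (.A 2 979 (.N .e) (.x 3)) (.x 3)) (.A 0 958 (.A 1 979 .e (.N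 .e)) (.S 3846 (.x 3) (.A 1 979 (.N (.A 2 979 (.A 1 968 (.N .e) (.N .e)) (.x 3))) (.N (.x 3))))))) .n))) .n))))))) (.S 7698 cM4 (.S 10828 (.S 8910 (.S 8082 .e (.S 8486 (.S 8284 .e (.X 99 99 .e (.A 0 965 (.X 93 89 .e .n) .e))) (.X 99 99 (.A 0 972 .e .e) (.A 0 972 (.S 8698 (.X 93 90 .e .n) .e) (.S 8698 .e (.X 93 88 .e .n)))))) (.S 9822 (.S 9355 (.X 99 99 .e (.X 93 92 .e (.N .e))) (.S 9588 (.X 98 99 .n .e) .e)) (.S 10313 .e .e))) (.S 12533 (.S 11369 .e (.S 11937 .e .e)) (.S 13816 (.S 13159 .e .e) (.S 14506 .e .e))))))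
theorem cM_ok : chk par tab 20208 1280 206 xs cM 1000 15020 [.m 1000 1000] = true := by decide +kernel

/-- exceptional boxes for the star regime, p in [4928, 5050] / 2 ^ 14 -/
def ys1 : List XC := [⟨[.m 200 250, .p 1000 1000], 339844⟩, ⟨[.m 250 300, .p 1000 1000], 329111⟩, ⟨[.m 300 350, .p 1000 1000], 316232⟩, ⟨[.m 350 400, .p 1000 1000], 301743⟩, ⟨[.m 400 450, .p 1000 1000], 286181⟩, ⟨[.m 450 500, .p 1000 1000], 270620⟩, ⟨[.m 500 550, .p 1000 1000], 256399⟩, ⟨[.m 550 600, .p 1000 1000], 256399⟩, ⟨[.m 600 650, .p 1000 1000], 286717⟩, ⟨[.m 650 700, .p 1000 1000], 328842⟩, ⟨[.m 700 750, .p 1000 1000], 356479⟩, ⟨[.m 750 800, .p 1000 1000], 374992⟩, ⟨[.m 800 850, .p 1000 1000], 394042⟩, ⟨[.m 850 900, .p 1000 1000], 415239⟩, ⟨[.m 900 950, .p 1000 1000], 440728⟩,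 ⟨[.m 950 1000, .p 1000 1000], 468633⟩, ⟨[.m 1000 1050, .p 1000 1000], 502440⟩]
def cS1_1 : Ct := (.A 0 512 (.S 1516 (.A 0 506 (.S 1511 (.A 0 503 (.S 1508 (.A 0 501 (.S 1507 (.X 0 1 .n .e) (.X 0 1 .n .e)) (.S 1507 (.x 6) (.A 0 502 (.X 0 1 .n .e) (.x 6)))) (.A 0 501 .e (.S 1509 (.A 0 502 (.X 0 1 .n .e) (.X 0 1 .n .e)) (.A 0 502 (.X 0 1 .n .e) (.S 1510 (.X 0 1 .n .e) (.X 0 1 .n .e)))))) (.S 1509 (.x 6) (.A 0 504 (.S 1510 (.X 0 1 .n .e) (.X 0 1 .n .e)) (.S 1510 (.x 6) (.A 0 505 (.X 0 1 .n .e) (.x 6)))))) (.A 0 503 (.X 0 1 .n (.N .e)) (.S 1513 (.A 0 504 (.X 0 1 .n .e) (.A 0 505 (.S 1512 (.X 0 1 .n .e) (.X 0 1 .n .e)) (.S 1512 (.X 0 1 .n .e) (.X 0 1 .n .e)))) (.X 0 1 .n .e)))) (.S 1512 (.x 6) (.A 0 509 (.S 1514 (.A 0 507 (.S 1513 (.X 0 1 .n .e) (.X 0 1 .n .e)) (.S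 1513 (.x 6) (.A 0 508 (.X 0 1 .n (.A 0 507 .e .n)) (.x 6)))) (.A 0 507 (.X 0 1 .n .e) (.A 0 508 (.S 1515 (.X 0 1 .n .e) (.X 0 1 .n .e)) (.S 1515 (.X 0 1 .n (.A 0 507 .e .n)) (.X 0 1 .n (.A 0 508 .e .n)))))) (.S 1515 (.x 6) (.A 0 510 (.X 0 1 .n (.A 0 507 .e .n)) (.x 6)))))) (.A 0 506 (.X 0 1 .n (.N .e)) (.S 1521 (.A 0 509 (.X 0 1 .n .e) (.S 1518 (.A 0 510 (.S 1517 (.X 0 1 .n (.A 0 508 .e .n)) (.X 0 1 .n (.A 0 509 .e .n))) (.A 0 511 (.S 1517 (.X 0 1 .n (.A 0 507 .e .n)) (.X 0 1 .n (.A 0 508 .e .n))) (.S 1517 (.x 6) (.X 0 1 .n (.A 0 507 .e .n))))) (.A 0 510 (.X 0 1 .n .e) (.S 1519 (.A 0 511 (.X 0 1 .n (.A 0 509 .e .n)) (.X 0 1 .n (.A 0 508 .e .n))) (.X 0 1 .n (.A 0 511 .e .n)))))) (.X 0 1 .n .e)))) (.S 1518 (.x 6) (.A 0 518 (.S 1522 (.A 0 515 (.S 1520 (.A 0 513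 (.S 1519 (.X 0 1 .n (.A 0 507 .e .n)) (.X 0 1 .n (.A 0 508 .e .n))) (.S 1519 (.x 6) (.A 0 514 (.X 0 1 .n (.A 0 507 .e .n)) (.x 6)))) (.A 0 513 (.X 0 1 .n (.A 0 510 .e .n)) (.A 0 514 (.S 1521 (.X 0 1 .n (.A 0 508 .e .n)) (.X 0 1 .n (.A 0 509 .e .n))) (.S 1521 (.X 0 1 .n (.A 0 507 .e .n)) (.X 0 1 .n (.A 0 508 .e .n)))))) (.S 1521 (.x 6) (.A 0 516 (.X 0 1 .n (.A 0 507 .e .n)) (.x 6)))) (.A 0 515 (.X 0 1 .n (.A 0 514 .e .n)) (.S 1524 (.A 0 516 (.S 1523 (.X 0 1 .n (.A 0 508 .e .n)) (.X 0 1 .n (.A 0 509 .e .n))) (.A 0 517 (.S 1523 (.X 0 1 .n (.A 0 507 .e .n)) (.X 0 1 .n (.A 0 508 .e .n))) (.S 1523 (.x 6) (.X 0 1 .n (.A 0 507 .e .n))))) (.A 0 516 (.X 0 1 .n (.A 0 511 .e .n)) (.A 0 517 (.X 0 1 .n (.A 0 510 .e .n)) (.S 1525 (.X 0 1 .n (.A 0 508 .e .n)) (.X 0 1 .n (.A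 0 509 .e .n)))))))) (.S 1524 (.x 6) (.A 0 521 (.A 0 519 (.S 1525 (.X 0 1 .n (.A 0 507 .e .n)) (.X 0 1 .n (.A 0 508 .e .n))) (.S 1525 (.x 6) (.A 0 520 (.X 0 1 .n (.A 0 507 .e .n)) (.x 6)))) (.x 6))))))
def cS1_2 : Ct := (.A 0 539 (.S 1544 (.A 0 534 (.S 1540 (.A 0 531 (.S 1538 (.A 0 530 (.S 1537 (.X 0 1 .n (.A 0 508 .e .n)) (.X 0 1 .n (.A 0 509 .e .n))) (.S 1537 (.x 6) (.X 0 1 .n (.A 0 508 .e .n)))) (.A 0 530 (.X 0 1 .n (.A 0 511 .e .n)) (.S 1539 (.X 0 1 .n (.A 0 509 .e .n)) (.X 0 1 .n (.A 0 510 .e .n))))) (.S 1538 (.x 6) (.A 0 532 (.S 1539 (.X 0 1 .n (.A 0 507 .e .n)) (.X 0 1 .n (.A 0 508 .e .n))) (.S 1539 (.x 6) (.A 0 533 (.X 0 1 .n (.A 0 507 .e .n)) (.x 6)))))) (.A 0 531 (.X 0 1 .n (.A 0 514 .e .n)) (.S 1542 (.A 0 532 (.X 0 1 .n (.A 0 510 .e .n)) (.A 0 533 (.S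 1541 (.X 0 1 .n (.A 0 508 .e .n)) (.X 0 1 .n (.A 0 509 .e .n))) (.S 1541 (.X 0 1 .n (.A 0 507 .e .n)) (.X 0 1 .n (.A 0 508 .e .n))))) (.X 0 1 .n (.A 0 512 .e .n))))) (.S 1541 (.x 6) (.A 0 536 (.S 1542 (.A 0 535 (.X 0 1 .n (.A 0 507 .e .n)) (.x 6)) (.A 0 535 (.S 1543 (.X 0 1 .n (.A 0 508 .e .n)) (.X 0 1 .n (.A 0 509 .e .n))) (.S 1543 (.X 0 1 .n (.A 0 507 .e .n)) (.X 0 1 .n (.A 0 508 .e .n))))) (.S 1543 (.x 6) (.A 0 537 (.X 0 1 .n (.A 0 507 .e .n)) (.x 6)))))) (.A 0 534 (.X 0 1 .n (.A 0 523 .e .n)) (.S 1548 (.A 0 536 (.X 0 1 .n (.A 0 513 .e .n)) (.S 1546 (.A 0 537 (.S 1545 (.X 0 1 .n (.A 0 508 .e .n)) (.X 0 1 .n (.A 0 509 .e .n))) (.A 0 538 (.S 1545 (.X 0 1 .n (.A 0 507 .e .n)) (.X 0 1 .n (.A 0 508 .e .n))) (.S 1545 (.x 6) (.X 0 1 .n (.A 0 507 .e .n))))) (.A 0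 537 (.X 0 1 .n (.A 0 511 .e .n)) (.A 0 538 (.X 0 1 .n (.A 0 510 .e .n)) (.S 1547 (.X 0 1 .n (.A 0 508 .e .n)) (.X 0 1 .n (.A 0 509 .e .n))))))) (.X 0 1 .n (.A 0 518 .e .n))))) (.S 1546 (.x 6) (.A 0 544 (.S 1549 (.A 0 541 (.S 1547 (.A 0 540 (.X 0 1 .n (.A 0 507 .e .n)) (.x 6)) (.A 0 540 (.S 1548 (.X 0 1 .n (.A 0 508 .e .n)) (.X 0 1 .n (.A 0 509 .e .n))) (.S 1548 (.X 0 1 .n (.A 0 507 .e .n)) (.X 0 1 .n (.A 0 508 .e .n))))) (.x 6)) (.A 0 541 (.S 1551 (.A 0 540 (.X 0 1 .n (.A 0 511 .e .n)) (.S 1550 (.X 0 1 .n (.A 0 509 .e .n)) (.X 0 1 .n (.A 0 510 .e .n)))) (.X 0 1 .n (.A 0 513 .e .n))) (.S 1551 (.A 0 542 (.S 1550 (.X 0 1 .n (.A 0 508 .e .n)) (.X 0 1 .n (.A 0 509 .e .n))) (.S 1550 (.x 6) (.A 0 543 (.X 0 1 .n (.A 0 508 .e .n)) (.x 6)))) (.A 0 542 (.X 0 1 .n (.A 0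 511 .e .n)) (.A 0 543 (.S 1552 (.X 0 1 .n (.A 0 509 .e .n)) (.X 0 1 .n (.A 0 510 .e .n))) (.S 1552 (.X 0 1 .n (.A 0 508 .e .n)) (.X 0 1 .n (.A 0 509 .e .n)))))))) (.S 1552 (.x 6) (.A 0 547 (.A 0 545 (.X 0 1 .n (.A 0 508 .e .n)) (.x 6)) (.x 6))))))
def cS1_3 : Ct := (.A 0 529 (.S 1548 (.A 0 518 (.X 0 1 .n .e) (.S 1537 (.A 0 523 (.S 1531 (.A 0 520 (.S 1528 (.A 0 519 (.X 0 1 .n (.A 0 510 .e .n)) (.S 1527 (.X 0 1 .n (.A 0 508 .e .n)) (.X 0 1 .n (.A 0 509 .e .n)))) (.X 0 1 .n (.A 0 513 .e .n))) (.S 1528 (.A 0 521 (.S 1527 (.X 0 1 .n (.A 0 507 .e .n)) (.X 0 1 .n (.A 0 508 .e .n))) (.S 1527 (.x 6) (.A 0 522 (.X 0 1 .n (.A 0 507 .e .n)) (.x 6)))) (.A 0 521 (.X 0 1 .n (.A 0 511 .e .n)) (.S 1529 (.A 0 522 (.X 0 1 .n (.A 0 508 .e .n)) (.X 0 1 .n (.A 0 507 .e .n))) (.A 0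 522 (.X 0 1 .n (.A 0 510 .e .n)) (.S 1530 (.X 0 1 .n (.A 0 508 .e .n)) (.X 0 1 .n (.A 0 509 .e .n)))))))) (.X 0 1 .n (.A 0 519 .e .n))) (.S 1529 (.x 6) (.S 1533 (.A 0 526 (.S 1531 (.A 0 524 (.S 1530 (.X 0 1 .n (.A 0 507 .e .n)) (.X 0 1 .n (.A 0 508 .e .n))) (.S 1530 (.x 6) (.A 0 525 (.X 0 1 .n (.A 0 507 .e .n)) (.x 6)))) (.A 0 524 (.X 0 1 .n (.A 0 510 .e .n)) (.A 0 525 (.S 1532 (.X 0 1 .n (.A 0 508 .e .n)) (.X 0 1 .n (.A 0 509 .e .n))) (.S 1532 (.x 6) (.X 0 1 .n (.A 0 508 .e .n)))))) (.x 6)) (.A 0 526 (.S 1535 (.A 0 524 (.X 0 1 .n (.A 0 512 .e .n)) (.A 0 525 (.X 0 1 .n (.A 0 511 .e .n)) (.S 1534 (.X 0 1 .n (.A 0 509 .e .n)) (.X 0 1 .n (.A 0 510 .e .n))))) (.X 0 1 .n (.A 0 514 .e .n))) (.S 1535 (.A 0 527 (.S 1534 (.X 0 1 .n (.A 0 508 .e .n)) (.X 0 1 .n (.A 0 509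 .e .n))) (.S 1534 (.x 6) (.A 0 528 (.X 0 1 .n (.A 0 508 .e .n)) (.x 6)))) (.A 0 527 (.X 0 1 .n (.A 0 511 .e .n)) (.A 0 528 (.S 1536 (.X 0 1 .n (.A 0 509 .e .n)) (.X 0 1 .n (.A 0 510 .e .n))) (.S 1536 (.X 0 1 .n (.A 0 508 .e .n)) (.X 0 1 .n (.A 0 509 .e .n)))))))))) (.X 0 1 .n .e))) (.X 0 1 .n (.N .e))) (.S 1536 (.x 6) (.S 1553 cS1_2 (.A 0 539 (.X 0 1 .n .e) (.S 1562 (.A 0 544 (.X 0 1 .n (.A 0 522 .e .n)) (.S 1557 (.A 0 547 (.S 1555 (.A 0 545 (.S 1554 (.X 0 1 .n (.A 0 509 .e .n)) (.X 0 1 .n (.A 0 509 .e .n))) (.A 0 546 (.S 1554 (.X 0 1 .n (.A 0 507 .e .n)) (.X 0 1 .n (.A 0 508 .e .n))) (.S 1554 (.x 6) (.X 0 1 .n (.A 0 507 .e .n))))) (.A 0 545 (.X 0 1 .n (.A 0 511 .e .n)) (.A 0 546 (.X 0 1 .n (.A 0 510 .e .n)) (.S 1556 (.X 0 1 .n (.A 0 508 .e .n)) (.X 0 1 .n (.A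 0 509 .e .n)))))) (.S 1555 (.x 6) (.A 0 548 (.S 1556 (.X 0 1 .n (.A 0 507 .e .n)) (.X 0 1 .n (.A 0 508 .e .n))) (.S 1556 (.x 6) (.A 0 549 (.X 0 1 .n (.A 0 507 .e .n)) (.x 6)))))) (.A 0 547 (.X 0 1 .n (.A 0 516 .e .n)) (.S 1559 (.A 0 548 (.X 0 1 .n (.A 0 510 .e .n)) (.A 0 549 (.S 1558 (.X 0 1 .n (.A 0 508 .e .n)) (.X 0 1 .n (.A 0 509 .e .n))) (.S 1558 (.X 0 1 .n (.A 0 507 .e .n)) (.X 0 1 .n (.A 0 508 .e .n))))) (.X 0 1 .n (.A 0 513 .e .n)))))) (.X 0 1 .n (.A 0 530 .e .n)))))))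
def cS1_4 : Ct := (.S 1618 (.S 1571 (.X 0 33 .n (.A 0 756 (.A 0 650 (.A 0 600 (.A 0 550 cS1_3 (.S 1558 (.x 7) (.A 0 575 (.A 0 562 (.A 0 556 (.S 1564 (.A 0 553 (.S 1561 (.A 0 551 (.S 1559 (.X 0 1 .n (.A 0 507 .e .n)) (.S 1560 (.X 0 1 .n (.A 0 508 .e .n)) (.X 0 1 .n (.A 0 509 .e .n)))) (.S 1560 (.x 7) (.A 0 552 (.X 0 1 .n (.A 0 508 .e .n)) (.x 7)))) (.A 0 551 (.X 0 1 .n (.A 0 512 .e .n)) (.S 1562 (.A 0 552 (.X 0 1 .n (.A 0 509 .e .n)) (.X 0 1 .n (.A 0 508 .e .n))) (.A 0 552 (.X 0 1 .n (.A 0 511 .e .n)) (.S 1563 (.X 0 1 .n (.A 0 509 .e .n)) (.X 0 1 .n (.A 0 510 .e .n))))))) (.S 1562 (.x 7) (.A 0 554 (.S 1563 (.X 0 1 .n (.A 0 508 .e .n)) (.X 0 1 .n (.A 0 509 .e .n))) (.S 1563 (.x 7) (.A 0 555 (.X 0 1 .n (.A 0 508 .e .n)) (.x 7)))))) (.S 1567 (.A 0 553 (.X 0 1 .n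 (.A 0 515 .e .n)) (.A 0 554 (.X 0 1 .n (.A 0 512 .e .n)) (.S 1565 (.A 0 555 (.X 0 1 .n (.A 0 509 .e .n)) (.X 0 1 .n (.A 0 507 .e .n))) (.A 0 555 (.X 0 1 .n (.A 0 510 .e .n)) (.S 1566 (.X 0 1 .n (.A 0 508 .e .n)) (.X 0 1 .n (.A 0 509 .e .n))))))) (.X 0 1 .n (.A 0 519 .e .n)))) (.S 1565 (.x 7) (.A 0 559 (.S 1568 (.A 0 557 (.S 1566 (.X 0 1 .n (.A 0 507 .e .n)) (.S 1567 (.X 0 1 .n (.A 0 508 .e .n)) .e)) (.S 1566 (.x 7) (.A 0 558 (.S 1567 (.X 0 1 .n (.A 0 507 .e .n)) .e) (.S 1567 (.x 7) .e)))) (.A 0 557 .e .e)) (.S 1568 (.x 7) (.A 0 560 .e .e))))) (.x 7)) (.x 7)))) (.x 8)) (.A 0 700 (.x 9) (.A 0 750 (.x 10) (.x 11)))) .n)) (.X 0 39 .n (.A 0 787 (.A 0 650 (.A 0 550 (.A 0 500 .e (.A 0 525 .e (.X 0 1 .n .e))) (.A 0 600 (.A 0 575 (.S 1594 (.A 0 562 (.S 1582 (.A 0 556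 (.X 0 1 .n (.A 0 529 .e .n)) (.S 1576 (.A 0 559 .e .e) .e)) .e) (.S 1572 (.x 7) (.S 1583 (.A 0 568 .e (.S 1579 (.x 7) .e)) .e))) .e) (.S 1587 (.x 7) (.S 1602 (.A 0 587 .e .e) .e))) (.x 8))) (.A 0 700 (.x 9) (.A 0 750 (.x 10) (.x 11)))) .n))) (.S 1666 (.X 0 52 .n (.A 0 817 (.A 0 650 (.A 0 550 (.A 0 500 (.A 0 450 .e (.X 33 17 .e .n)) (.A 0 525 (.A 0 512 .e .e) .e)) (.A 0 600 (.A 0 575 .e .e) (.S 1646 (.x 8) (.A 0 625 .e (.x 8))))) (.A 0 750 (.A 0 700 (.x 9) (.x 10)) (.A 0 800 (.x 11) (.x 12)))) .n)) (.X 0 52 .n (.A 0 846 (.A 0 650 (.A 0 550 (.A 0 500 (.A 0 483 .e .e) (.A 0 525 .e .e)) (.A 0 600 (.A 0 575 .e .e) (.A 0 625 .e .e))) (.A 0 750 (.A 0 700 (.x 9) (.x 10)) (.A 0 800 (.x 11) (.x 12)))) .n))))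
def cS1_ : Ct := (.S 1715 (.S 1526 (.S 1439 (.X 0 39 .n (.A 0 663 (.A 0 550 (.A 0 500 (.A 0 450 (.x 4) (.x 5)) (.x 6)) (.A 0 600 (.x 7) (.A 0 650 (.x 8) (.x 9)))) .n)) (.S 1482 (.X 0 35 .n (.A 0 695 (.A 0 550 (.A 0 500 (.S 1476 (.x 5) (.A 0 477 .e (.x 5))) (.x 6)) (.A 0 600 (.x 7) (.A 0 650 (.x 8) (.x 9)))) .n)) (.X 0 33 .n (.A 0 726 (.A 0 600 (.A 0 550 (.A 0 500 (.S 1506 (.x 5) .e) (.S 1506 (.x 6) (.A 0 525 cS1_1 (.x 6)))) (.x 7)) (.A 0 650 (.x 8) (.A 0 700 (.x 9) (.x 10)))) .n)))) cS1_4) (.S 1872 (.S 1766 (.X 0 7 .n (.A 0 876 (.A 0 850 (.A 0 800 (.x 11) (.x 12)) (.x 13)) .n)) (.S 1818 (.X 0 20 .n (.A 0 905 (.A 0 800 (.A 0 750 (.x 10) (.x 11)) (.A 0 850 (.x 12) (.A 0 900 (.x 13) (.x 14)))) .n)) (.X 33 30 (.A 0 934 .e .n) (.A 0 934 (.A 0 800 (.A 0 750 .e (.x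 11)) (.A 0 850 (.x 12) (.A 0 900 (.x 13) (.x 14)))) .n)))) (.S 1985 (.S 1928 (.X 33 33 (.A 0 964 .e .n) (.A 0 964 (.A 0 800 (.A 0 750 .e (.x 11)) (.A 0 900 (.A 0 850 (.x 12) (.x 13)) (.A 0 950 (.x 14) (.x 15)))) .n)) (.X 66 33 (.A 0 993 (.A 0 733 (.A 0 603 (.A 0 538 (.A 0 505 .e .e) .e) .e) .e) .n) (.A 0 993 (.A 0 850 (.A 0 750 .e (.A 0 800 .e (.x 12))) (.A 0 900 (.x 13) (.A 0 950 (.x 14) (.x 15)))) .n))) (.S 2044 (.X 34 1 .e (.x 15)) (.X 34 2 .e .n)))))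
theorem cS1_ok : chk par tab 20208 1280 0 ys1 cS1_ 1398 2060 [.p 1000 1000] = true := by decide +kernel

end Pool.Agent.MMS15.TC6
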