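import Pool.Agent.MMS15.TabG
import Pool.Agent.MMS15.TC6
import Pool.Agent.MMS15.TH6

/-!
# MMS15/TabP6: k / n in [4928, 5050] / 2 ^ 14 (glue, complete)
-/

set_option autoImplicit false
set_option maxRecDepth 100000

namespace Pool.Agent.MMS15

open Pool.Agent.MMS14

theorem rowP6 : ∀ r, RowP (rowv TP6.rows r) := rowP_all TP6.len_ok TP6.ends_ok

theorem goodP6 : Good TP6.par.P0 TP6.par.P1 TP6.rows :=
  good_of_checks TP6.par_ok TP6.len_ok TP6.cells1 TP6.cells2 TP6.cells3 TP6.cells4 TP6.cells5 TP6.ends_ok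
    (base_ok (by decide) TP6.err_ok)

theorem vmP6 : ∀ v ∈ TP6.vm, v ≤ 65536 := all_le' (by decide +kernel)

theorem lowP6 : LowOk TP6.par.P0 TP6.par.P1 TP6.vm :=
  low_of (q := TP6.par) (rows := TP6.rows) (vm := TP6.vm) TP6.par_ok TP6.len_ok rowP6 goodP6 TP6.min_ok (by decide +kernel) vmP6

theorem nonP6 : NonP ((((4928 : ℕ) : ℝ) + 0.1) / 16384) ((((5050 : ℕ) : ℝ) - 0.1) / 16384) :=
  nonstar_cell (q := TP6.par) (rows := TP6.rows) (tab := TP6.tab) (vm := TP6.vm) (xs := TC6.xs) (tgt := 20208) TP6.par_ok TP6.len_ok rowP6 goodP6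
    TP6.look_ok lowP6 vmP6 (by decide +kernel) (v00 := 64704) (v0 := 13570) (g := 19616) (by decide +kernel) (by decide +kernel) TP6.pair_ok (by decide +kernel)
    (by decide) (by decide) (xs_t4) rfl TC6.cP_ok TC6.cM_ok (top_of' rfl TP6.top_ok)

theorem lowH6 : StarLowOk TH6.par.P0 TH6.par.P1 TH6.vs :=
  starLow_of (q := TH6.par) (rows := TH6.rows) (tab := TH6.tab) (vs := TH6.vs) TH6.par_ok TH6.len_ok
    (Pool.Agent.MMS14.rowP_all TH6.len_ok TH6.ends_ok)
    (Pool.Agent.MMS14.good_of_checks TH6.par_ok TH6.len_ok TH6.cells1 TH6.cells2 TH6.cells3 TH6.cells4 TH6.cells5 TH6.ends_ok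
      (Pool.Agent.MMS14.base_ok (by decide) TH6.err_ok)) TH6.look_ok TH6.min_ok (by decide +kernel) (all_le' (by decide +kernel))

theorem starP6 : StarP (((4928 : ℕ) : ℝ) / 16384) (((5050 : ℕ) : ℝ) / 16384) :=
  star_cell (q := TP6.par) (rows := TP6.rows) (tab := TP6.tab) TP6.par_ok TP6.len_ok rowP6 goodP6 TP6.look_ok
    (Q0 := 7045) (Q1 := 7303) (vs := TH6.vs) (ws := TH6.ws) lowH6 TH6.vs_len (all_le' (by decide +kernel)) TH6.w_ok (by decide) (by decide) (by decide) TH6.a1_ok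
    (b1_of TH6.b1_ok) ⟨TH6.b1s.getLast (by decide), List.getLast_mem _, by decide +kernel, by decide +kernel, by decide +kernel⟩ (b2_of TH6.b2_ok)
    (ys := TC6.ys1) rfl (tgt := 20208) (sa := 1398) (A := 4928) (B := 5050) (by decide) TC6.cS1_ok (by decide) (by decide) (by decide) (by decide) (by decide) (by decide) (by decide)

end Pool.Agent.MMS15
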