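import Pool.Agent.MMS15.TP7
import Pool.Agent.MMS15.TC3

/-!
# MMS15/TC7: certificate trees for p in [5048, 5142] / 2 ^ 14

Everything is checked by kernel evaluation.
-/

set_option autoImplicit false
set_option maxRecDepth 100000

namespace Pool.Agent.MMS15.TC7

open Pool.Agent.MMS15.TP7 (par tab)

/-- exceptional boxes (last atom first) -/
def xs : List XC := [⟨[.m 880 1000, .m 880 1000, .p 880 1000, .p 1000 1000], 100000⟩, ⟨[.m 880 1000, .p 880 1000, .m 880 1000, .p 1000 1000], 100000⟩, ⟨[.p 880 1000, .m 880 1000, .m 880 1000, .p 1000 1000], 100000⟩, ⟨[.p 880 1000, .p 880 1000, .m 880 1000, .m 1000 1000], 100000⟩, ⟨[.p 880 1000, .m 880 1000, .p 880 1000, .m 1000 1000], 100000⟩, ⟨[.m 880 1000, .p 880 1000, .p 880 1000, .m 1000 1000], 100000⟩]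
def cP1 : Ct := (.S 3192 (.X 70 53 (.A 0 836 (.A 0 754 (.A 0 713 .e .e) (.A 0 795 .e .e)) (.A 0 918 (.A 0 877 (.S 3116 .e .e) .e) (.A 0 959 .e .e))) (.A 0 904 (.X 52 35 (.A 0 768 (.A 1 856 .e .e) (.A 0 836 (.A 1 856 (.A 0 802 (.A 1 832 .e .e) (.S 3116 .e (.A 1 832 (.N .e) (.A 0 819 .e .e)))) (.A 0 802 (.S 3116 .e (.A 1 880 .e .e)) .e)) (.N (.A 1 870 (.N .e) .e)))) (.A 0 831 (.A 0 795 (.A 1 856 (.S 3116 .e .e) .e) (.A 1 856 (.A 1 832 (.S 3116 .e .e) .e) .e)) (.N (.A 1 867 (.N .e) (.A 0 867 .e .e))))) (.A 0 952 (.X 10 33 .n (.A 0 849 .e .e)) (.X 1 33 .n (.A 0 857 .e .e))))) (.X 72 53 (.A 0 841 (.A 0 761 (.A 0 721 (.A 0 701 (.X 60 57 (.N .e) .n) (.S 3271 .e (.X 65 56 .e .n))) (.A 0 741 (.X 66 50 (.A 0 685 .e (.A 0 713 .e .e)) .n) (.S 3271 .e (.X 66 49 (.A 0 700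 .e .e) .n)))) (.A 0 801 (.X 56 41 .e .n) (.S 3271 .e .e))) (.A 0 920 (.A 0 880 (.S 3271 (.A 0 860 (.S 3231 .e (.A 0 850 .e .e)) (.S 3231 .e (.X 29 34 .n (.A 0 858 .e .e)))) (.A 0 860 (.X 33 34 .n (.N .e)) (.X 30 35 .n (.A 0 859 .e (.X 0 4 .n .e))))) (.A 0 900 (.S 3271 .e (.S 3311 (.X 27 34 .n (.A 0 869 .e .e)) (.X 28 34 .n (.X 0 3 .n .e)))) (.S 3271 .e (.S 3311 (.A 0 910 .e .e) (.X 25 33 .n (.A 0 884 .e .e)))))) (.A 0 960 (.A 0 940 (.S 3271 .e (.X 20 33 .n (.A 0 883 (.A 0 854 .e .e) .e))) .e) .e))) (.X 52 35 (.A 0 812 (.A 1 918 (.A 0 718 .e (.X 2 3 .n (.N .e))) (.A 0 718 (.X 33 12 .e .n) (.A 0 765 .e (.A 1 959 (.S 3271 .e .e) (.S 3271 .e .e))))) (.A 0 906 (.A 1 918 (.A 1 877 (.N (.A 0 844 (.S 3271 (.A 0 828 .e (.A 1 857 .e .e)) .e) (.N (.S 3271 (.A 1 860 (.N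 (.S 3231 .e .e)) .e) (.A 1 860 (.N .e) (.X 0 4 .n .e)))))) (.A 0 859 (.S 3271 (.A 0 835 .e .e) (.A 0 835 .e (.X 0 4 .n .e))) (.X 0 4 .n (.A 0 801 (.A 0 748 .e .e) .e)))) (.A 0 859 (.A 1 959 (.S 3271 .e (.A 1 938 (.A 0 835 .e .e) .e)) (.S 3271 .e (.A 0 835 .e .e))) .e)) (.N .e))) (.A 0 874 (.A 1 918 (.A 0 811 (.A 1 877 .e .e) (.A 1 877 (.A 0 842 (.S 3271 (.A 1 857 .e .e) .e) (.N (.S 3271 (.A 1 859 (.N .e) .e) (.A 1 859 (.N .e) (.X 3 0 .e .n))))) (.A 0 842 (.A 1 897 .e .e) (.S 3271 .e (.A 0 858 .e .e))))) (.A 0 811 (.A 1 959 .e .e) (.A 1 959 (.A 0 842 .e .e) .e))) (.N (.A 1 937 (.N (.A 1 905 (.N (.S 3271 .e (.A 0 889 .e (.N .e)))) (.A 0 905 .e .e))) (.A 0 937 (.A 1 968 .e .e) .e)))))))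
def cP2 : Ct := (.S 2628 (.S 2271 (.S 2163 (.X 66 66 (.A 0 753 (.A 0 629 (.A 0 567 (.A 0 536 .e .e) .e) (.A 0 691 .e .e)) .e) (.A 0 753 (.A 0 629 (.A 0 567 (.A 0 536 (.X 52 46 .e .n) .e) (.A 0 598 .e .e)) (.A 0 691 .e .e)) (.A 0 876 .e (.A 0 938 .e .e)))) (.X 66 77 (.A 0 765 (.A 0 647 (.A 0 588 (.A 0 559 (.S 2217 (.A 0 544 .e .e) .e) .e) .e) .e) (.A 0 882 .e .e)) (.A 0 735 (.A 0 603 (.A 0 537 (.A 0 504 (.X 59 66 .n .e) (.A 0 520 .e (.S 2217 .e .e))) (.A 0 570 (.A 0 553 (.S 2217 .e .e) .e) .e)) (.A 0 669 .e .e)) (.A 0 867 .e .e)))) (.S 2384 (.X 62 11 (.A 0 789 (.A 0 684 (.A 0 631 (.A 0 605 .e .e) .e) (.A 0 736 .e .e)) (.A 0 894 .e .e)) .n) (.S 2503 (.X 59 15 (.A 0 812 (.A 0 718 (.A 0 671 (.X 33 52 .n (.A 0 611 .e .e)) (.X 24 53 .n (.A 0 622 .e .e))) (.A 0 765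 .e (.A 0 788 .e .e))) (.A 0 906 (.A 0 859 (.A 0 835 .e .e) .e) .e)) .n) (.X 57 18 (.A 0 832 (.A 0 748 (.X 27 53 (.N .e) (.A 0 648 (.A 0 598 .e (.A 1 706 (.A 0 623 .e .e) .e)) (.A 0 698 .e (.N .e)))) (.A 0 790 (.X 33 52 .e (.A 0 663 .e .e)) .e)) (.A 0 916 (.A 0 874 (.A 0 853 .e .e) (.A 0 895 (.S 2565 .e .e) (.S 2565 .e (.S 2596 .e .e)))) (.A 0 958 (.S 2565 .e (.A 0 937 (.X 33 0 (.A 0 889 (.A 0 735 .e (.A 0 812 .e .e)) .n) .n) .e)) .e))) .n)))) (.S 2896 (.S 2759 (.X 64 22 (.A 0 820 (.A 0 730 (.A 0 685 .e (.A 0 707 (.X 37 39 .n (.N .e)) (.X 33 52 .n (.A 0 664 .e .e)))) (.A 0 775 (.X 24 52 .n (.A 0 677 .e .e)) (.X 16 52 .n (.A 0 689 .e .e)))) (.A 0 910 (.A 0 865 .e (.A 0 887 .e .e)) (.A 0 955 (.S 2693 (.X 33 0 (.A 0 931 (.A 0 762 .e (.A 0 846 (.A 0 804 .e .e)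 .e)) .n) .n) (.X 33 0 (.A 0 787 .e (.A 0 871 .e .e)) .n)) (.S 2693 .e (.X 34 0 (.A 0 921 (.A 0 749 .e (.A 0 835 (.A 0 792 .e .e) .e)) .n) .n))))) .n) (.X 61 56 (.A 0 844 (.A 0 766 (.A 0 727 (.A 0 707 .e .e) (.A 0 746 .e .e)) (.A 0 805 (.X 25 52 .n (.A 0 703 .e (.A 0 754 .e .e))) .e)) (.A 0 922 .e (.A 0 961 (.X 1 0 .e .n) (.S 2827 (.X 34 0 (.A 0 951 (.A 0 777 .e (.A 0 864 (.A 0 820 .e .e) .e)) .n) .n) (.X 33 0 (.A 0 987 (.A 0 812 .e (.A 0 899 .e .e)) .n) .n))))) (.A 0 863 (.A 0 794 (.A 0 760 .e (.X 27 36 .n .e)) .e) (.A 0 931 .e (.X 0 33 .n (.A 0 805 .e .e)))))) (.S 3040 (.X 54 55 (.A 0 885 (.A 0 827 (.A 0 798 .e (.S 2968 (.A 0 812 .e .e) .e)) .e) (.A 0 942 .e (.X 1 0 .e .n))) (.A 0 881 (.A 0 821 (.A 0 791 (.X 32 36 .n (.N .e)) (.X 27 35 .n .e)) (.A 0 851 (.S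 2968 .e (.X 25 35 .n .e)) .e)) (.A 0 940 .e (.X 0 33 .n (.A 0 831 .e .e))))) cP1)))
def cP3 : Ct := (.X 52 35 (.A 0 832 (.A 1 917 (.A 0 748 (.A 1 876 .e .e) .e) (.A 0 748 (.X 34 16 .e .n) (.A 1 958 .e (.A 0 790 .e (.S 3434 (.A 0 811 .e (.A 1 979 (.A 1 968 .e .e) .e)) .e))))) (.A 0 916 (.A 1 917 (.A 1 876 (.N (.X 2 3 .n (.N .e))) (.A 0 874 (.S 3434 (.A 0 853 .e (.X 0 3 .n .e)) .e) (.A 1 896 (.N (.X 0 4 .n (.S 3434 .e .e))) (.X 0 5 .n (.A 0 846 (.S 3434 .e .e) .e))))) (.A 1 958 (.A 0 874 (.S 3434 (.X 0 3 .n (.A 0 833 (.A 2 937 .e .e) (.N .e))) (.X 0 2 .n (.N .e))) (.S 3434 (.X 0 3 .n (.A 0 911 (.A 0 828 .e .e) .n)) (.A 1 937 (.X 0 4 .n (.A 0 863 .e .e)) (.X 0 3 .n (.A 0 856 (.A 0 826 .e .e) (.A 0 886 .e (.N (.x 1)))))))) (.A 0 874 (.S 3434 (.A 1 979 (.A 0 853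 .e .e) .e) (.A 1 979 (.X 0 1 .n (.N (.A 1 854 (.N .e) .e))) (.A 0 853 (.S 3476 .e .e) (.S 3476 .e (.S 3497 .e (.A 1 989 (.A 0 863 .e .e) .e)))))) (.S 3434 .e (.A 0 895 (.A 1 979 (.S 3476 .e (.A 1 968 (.X 0 1 .n .e) .e)) .e) (.A 1 979 (.S 3476 .e (.A 0 905 .e .e)) .e)))))) (.N (.A 0 958 (.A 1 958 (.S 3434 .e (.A 0 937 (.X 0 2 .n (.A 0 917 (.A 0 849 .e .e) .n)) (.N .e))) .e) (.N .e))))) (.A 0 898 (.A 1 917 (.A 0 847 .e (.N (.A 1 882 (.N (.X 4 1 (.N .e) .n)) (.A 0 872 (.S 3434 (.X 3 0 .e .n) .e) (.S 3434 (.A 0 885 (.X 2 0 .e .n) (.N (.X 2 0 .e .n))) (.X 3 0 .e .n)))))) (.A 0 847 (.A 1 958 (.A 0 822 .e (.S 3434 .e .e)) (.A 0 822 .e (.S 3434 .e .e))) (.A 1 958 (.A 0 872 (.S 3434 (.A 1 937 (.A 0 859 .e .e) .e) (.X 3 0 .e .n)) (.S 3434 (.A 1 937 .e .e) (.A 1 937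 (.X 2 0 .e .n) (.A 0 885 (.X 1 0 .e .n) (.S 3476 .e (.X 1 0 .e .n)))))) (.A 0 872 (.S 3434 .e (.A 1 979 .e .e)) (.S 3434 .e (.A 1 979 (.A 0 885 .e .e) .e)))))) (.N (.A 1 949 (.N (.A 1 923 (.N (.S 3434 .e (.A 1 910 (.N (.X 2 0 .e .n)) (.A 0 910 (.X 2 0 .e .n) (.S 3476 .e (.X 1 0 .e .n)))))) (.A 0 923 (.S 3434 .e (.A 1 936 (.A 0 910 (.S 3476 .e (.A 1 929 .e .e)) (.S 3476 .e (.A 1 929 .e .e))) (.A 0 910 (.S 3476 .e (.A 1 942 .e .e)) .e))) (.S 3434 .e (.A 1 936 (.N .e) (.A 0 936 .e .e)))))) (.A 0 949 (.A 0 923 (.A 1 974 (.S 3434 .e (.A 0 910 (.A 1 961 .e .e) (.A 1 961 .e .e))) .e) (.A 1 974 (.S 3434 .e (.A 0 936 .e .e)) .e)) (.A 1 974 (.N .e) .e))))))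
def cP4 : Ct := (.X 127 127 (.A 0 500 (.A 0 250 (.A 1 846 (.A 0 125 .e .e) (.A 0 125 .e .e)) (.A 1 846 (.A 0 375 (.A 0 312 .e (.A 1 769 .e .e)) (.A 1 769 (.A 0 437 .e .e) (.A 0 437 .e .e))) (.A 0 375 (.A 1 923 .e .e) (.A 1 923 .e (.A 0 437 .e .e))))) (.A 0 750 (.A 1 846 (.A 0 625 (.A 0 562 (.A 1 769 (.A 1 731 .e .e) .e) (.A 1 769 (.A 1 731 .e .e) (.A 1 807 .e .e))) (.A 1 769 (.A 0 687 (.A 1 731 .e .e) (.A 1 731 (.N (.X 52 46 (.N (.X 33 25 .e .n)) .n)) (.X 52 41 (.X 34 16 .e .n) .n))) (.A 0 687 (.A 1 807 .e .e) (.A 1 807 (.A 0 718 .e (.A 1 788 .e .e)) .e)))) (.A 0 625 (.A 1 923 (.A 0 562 .e .e) (.A 0 562 .e .e)) (.A 1 923 (.A 0 687 (.A 1 884 .e .e) .e) .e))) (.N (.A 1 875 (.N (.A 1 812 (.N (.A 1 781 (.N .e) (.A 0 781 .e .e))) (.A 0 812 .e .e))) (.A 0 875 (.A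 1 937 (.A 0 812 .e .e) .e) .e))))) (.A 0 500 (.A 0 250 (.A 1 846 (.A 0 125 .e .e) (.A 0 125 .e .e)) (.A 1 846 (.A 0 375 (.A 0 312 .e (.A 1 769 .e .e)) (.A 1 769 (.A 0 437 .e .e) (.A 0 437 .e .e))) (.A 0 375 (.A 1 923 .e .e) (.A 1 923 .e (.A 0 437 .e .e))))) (.A 0 750 (.A 1 846 (.A 0 625 (.A 0 562 (.A 1 769 .e .e) (.A 1 769 (.X 66 63 (.N .e) .n) (.A 1 807 .e .e))) (.A 1 769 (.A 0 687 .e (.X 53 41 .e .n)) (.A 0 687 .e (.A 1 807 .e .e)))) (.A 0 625 (.A 1 923 (.A 0 562 .e .e) .e) (.A 1 923 (.A 0 687 (.A 1 884 .e .e) (.A 1 884 .e .e)) (.A 0 687 .e (.A 1 961 .e .e))))) (.N (.A 0 875 (.A 1 875 (.A 0 812 (.A 1 812 (.A 0 781 (.X 34 33 (.N .e) .n) (.N .e)) (.X 34 23 .e .n)) (.N .e)) (.A 0 812 (.A 1 937 (.X 33 18 .e .n) .e) (.A 1 937 .e (.X 0 6 .n (.N (.A 2 968 .e .e))))))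 (.N (.X 0 36 .n (.A 0 744 (.A 0 616 (.A 2 937 (.N .e) (.A 1 937 .e (.A 0 552 .e .e))) (.A 2 937 (.N .e) (.A 1 937 .e (.A 0 680 .e (.S 3605 (.A 1 968 .e (.N .e)) .e))))) (.A 0 872 (.A 0 808 (.A 2 937 (.N .e) (.A 1 937 (.A 2 968 .e (.S 3605 (.A 1 906 .e .e) .e)) (.S 3605 .e (.A 1 968 .e (.N .e))))) (.A 2 937 (.N (.A 1 906 .e (.N .e))) (.A 1 937 (.A 1 906 .e (.A 2 968 (.S 3605 (.A 0 840 .e .e) .e) .e)) (.S 3605 .e (.A 2 968 (.N (.A 0 840 .e .e)) .e))))) (.A 0 936 (.A 1 937 (.A 2 937 (.A 0 904 (.S 3605 (.A 1 906 (.A 2 906 .e (.S 3561 .e .e)) (.N .e)) .e) (.N (.S 3605 .e (.S 3649 .e .e)))) (.A 1 906 (.N (.A 2 968 (.S 3605 .e .e) .e)) (.A 2 968 (.S 3605 .e (.A 0 904 .e .e)) (.A 0 904 .e .e)))) (.N (.A 0 904 .e (.A 2 968 (.N .e) (.x 0))))) (.N (.x 0))))))))))))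
def cP5 : Ct := (.A 0 890 (.S 3605 (.A 1 960 (.X 3 0 (.N .e) .n) (.A 0 872 (.A 1 980 .e .e) (.A 1 980 (.S 3561 (.A 1 970 (.X 1 0 (.N .e) .n) .e) (.X 1 0 (.N .e) .n)) (.S 3561 .e (.A 1 990 (.A 0 881 .e .e) .e))))) (.X 4 1 (.N .e) .n)) (.A 1 960 (.S 3605 (.A 0 908 (.A 1 940 (.X 2 0 .e .n) (.A 0 899 (.X 2 0 .e .n) (.X 1 0 .e .n))) (.A 1 940 (.S 3561 (.X 1 0 .e .n) (.X 2 0 .e .n)) (.S 3561 (.A 1 950 (.A 0 917 (.S 3539 .e (.X 1 0 (.x 2) .n)) (.S 3539 .e (.A 0 922 (.X 1 0 (.A 0 915 .e .n) .n) (.A 1 945 .e .e)))) (.A 0 917 (.S 3539 .e (.X 1 0 (.A 0 914 (.A 0 892 .e (.x 2)) .n) .n)) (.A 1 955 (.A 0 922 .e .e) .e))) (.A 0 917 (.A 1 950 (.X 1 0 (.x 2) .n) (.X 1 0 (.x 2) .n)) (.A 1 950 (.X 1 0 (.x 2) .n) (.X 1 0 (.A 0 900 (.A 0 886 (.S 3583 (.A 0 879 .e .e) .e) (.x 2))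 (.x 2)) .n)))))) (.X 3 0 (.A 0 902 .e (.N .e)) .n)) (.S 3605 (.A 0 908 (.A 1 980 (.S 3561 (.A 0 899 (.A 1 970 (.A 1 965 (.S 3539 .e (.X 1 0 (.x 2) .n)) .e) .e) (.A 1 970 (.S 3539 .e (.X 1 0 .e .n)) .e)) (.A 0 899 (.A 1 970 (.X 1 0 (.N (.x 2)) .n) (.X 1 0 (.x 2) .n)) (.A 1 970 (.X 1 0 (.x 2) .n) (.S 3583 (.X 1 0 .e .n) (.X 1 0 (.x 2) .n))))) (.S 3561 .e (.A 1 990 (.A 0 899 (.S 3583 .e (.X 1 0 (.x 2) .n)) (.A 1 985 (.X 1 0 .e .n) .e)) .e))) (.A 1 980 (.S 3561 (.X 1 0 (.A 0 903 (.A 0 864 .e .e) .n) .n) (.A 1 970 (.A 0 917 (.S 3583 (.X 1 0 (.A 0 915 (.A 0 894 .e (.x 2)) .n) .n) (.X 1 0 (.x 2) .n)) (.S 3583 (.X 1 0 (.A 0 906 (.A 0 884 .e (.x 2)) .n) .n) (.X 1 0 (.A 0 918 (.A 0 896 (.A 0 885 .e (.x 2)) (.x 2)) .n) .n))) (.X 1 0 (.A 0 917 (.A 0 884 (.A 0 867 .e (.A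 1 917 .e .e)) (.x 2)) .n) .n))) (.X 1 0 (.A 0 906 (.A 0 854 .e (.A 0 880 .e (.x 2))) .n) .n))) (.A 0 908 (.A 1 980 (.S 3649 (.X 1 0 (.N .e) .n) .e) (.S 3649 (.A 0 899 (.A 1 990 (.X 1 0 (.N (.x 2)) .n) (.X 1 0 (.x 2) .n)) (.A 1 990 (.X 1 0 (.x 2) .n) (.X 1 0 (.A 0 891 (.A 0 882 .e (.x 2)) (.x 2)) .n))) (.A 1 990 .e (.A 0 899 .e (.X 1 0 (.x 2) .n))))) (.X 1 0 (.A 0 890 (.A 2 980 (.A 0 872 .e (.S 3649 (.A 1 917 .e (.S 3627 (.A 2 970 .e (.A 0 881 .e (.x 2))) .e)) .e)) (.A 0 872 .e (.A 2 990 (.S 3649 (.A 1 917 (.A 0 881 .e (.x 2)) .e) .e) .e))) (.A 2 980 (.A 0 908 (.S 3649 (.S 3627 (.x 2) (.A 2 970 .e (.x 2))) .e) .e) (.A 2 990 (.S 3649 (.x 2) (.A 0 908 (.A 1 917 .e (.x 2)) (.x 2))) (.x 2)))) .n)))))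
def cP6 : Ct := (.X 33 34 (.X 0 34 .n (.A 0 749 (.A 0 624 (.A 1 932 .e (.N (.A 0 561 .e .e))) (.A 1 932 .e (.N (.A 0 686 .e (.A 2 966 (.N .e) (.A 1 966 .e .e)))))) (.A 0 874 (.A 0 811 (.A 1 932 (.A 2 960 .e (.A 1 898 .e (.S 3605 (.A 0 780 .e .e) .e))) (.N (.S 3605 .e (.A 2 966 (.N .e) (.A 1 966 .e .e))))) (.A 1 932 (.A 2 960 (.S 3605 (.A 1 898 .e (.A 0 842 .e (.A 2 940 .e (.S 3561 (.A 0 858 .e .e) .e)))) .e) (.A 1 898 (.S 3605 (.A 0 842 .e (.A 2 980 (.A 1 881 .e (.S 3561 (.A 0 858 .e .e) .e)) (.A 1 881 (.S 3561 (.A 0 858 .e (.S 3539 (.A 2 990 (.A 1 872 (.N .e) (.A 0 866 .e .e)) (.A 1 872 (.N (.A 2 995 .e .e)) .e)) (.A 2 990 .e (.A 1 872 (.N .e) (.A 0 866 .e (.A 2 995 .e .e)))))) .e) (.A 0 858 .e (.A 2 990 (.S 3561 (.A 0 866 .e (.A 2 985 .e .e)) .e) .e)))))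 .e) (.S 3605 .e (.A 0 842 .e .e)))) (.N (.S 3605 .e (.A 1 966 (.A 2 966 (.A 0 842 .e .e) .e) (.N .e)))))) (.N (.A 0 937 (.A 1 937 (.A 2 960 (.A 0 905 (.A 1 905 (.S 3605 .e .e) (.S 3605 .e (.A 2 940 .e .e))) (.N .e)) (.S 3605 (.A 1 905 (.N (.A 2 980 (.A 1 889 (.N .e) .e) (.A 0 889 (.S 3561 (.A 1 889 (.A 2 990 .e (.S 3539 .e (.A 0 881 .e (.N (.x 1))))) (.A 2 990 .e .e)) (.A 1 889 (.S 3583 (.A 2 990 .e (.A 0 881 (.A 1 881 .e (.A 2 995 .e .e)) (.N (.x 1)))) .e) (.A 2 990 (.A 2 985 .e (.A 1 897 (.S 3583 (.A 0 881 .e (.x 1)) .e) .e)) (.A 0 881 .e (.x 1))))) (.N (.x 1))))) (.A 0 905 (.A 2 980 (.A 2 970 .e (.A 1 921 (.A 0 889 .e (.x 1)) .e)) (.A 0 889 .e (.x 1))) (.x 1))) (.A 1 905 (.N (.A 2 980 .e (.S 3649 (.A 0 889 (.A 1 889 .e (.A 2 990 .e (.A 1 897 .e .e))) (.N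 (.A 2 990 (.S 3627 (.x 1) .e) (.x 1)))) .e))) (.A 0 905 (.A 2 980 (.A 2 970 .e (.A 1 921 (.S 3649 (.A 0 889 .e (.x 1)) .e) .e)) (.A 1 921 (.A 0 889 .e (.A 2 990 (.S 3649 (.x 1) .e) (.A 1 913 (.A 0 897 .e (.x 1)) (.x 1)))) .e)) (.A 2 980 (.A 0 921 .e (.N (.x 1))) (.x 1)))))) (.N (.A 0 905 .e (.A 1 968 (.A 2 968 .e (.x 1)) (.N .n))))) (.N (.x 1))))))) (.A 0 927 cP5 (.N (.A 0 963 (.A 1 963 (.S 3605 (.A 1 945 (.N (.A 1 936 (.N (.S 3561 (.S 3539 .e (.X 1 0 (.A 0 918 .e .n) .n)) (.X 1 0 (.x 2) .n))) (.S 3561 (.A 0 936 (.A 0 931 (.S 3539 .e (.X 1 0 (.A 0 909 .e .n) .n)) .e) .e) (.A 0 936 (.X 1 0 (.A 0 933 (.x 2) .n) .n) (.S 3583 (.A 1 940 (.N (.X 1 0 (.A 0 912 (.x 2) .n) .n)) (.X 1 0 (.A 0 908 .e .n) .n)) (.X 1 0 (.A 0 924 (.x 2) .n) .n)))))) (.A 0 945 (.A 0 936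 (.S 3561 (.A 1 954 .e .e) (.A 1 954 (.S 3583 (.X 1 0 (.A 0 912 (.A 0 891 (.A 0 880 .e (.x 2)) (.x 2)) .n) .n) (.X 1 0 (.A 0 924 (.x 2) .n) .n)) (.X 1 0 (.A 0 915 (.A 0 888 (.A 0 874 .e (.S 3583 .e (.A 0 881 .e (.x 2)))) (.x 2)) .n) .n))) (.S 3561 (.A 1 954 .e .e) (.A 1 954 (.X 1 0 (.A 0 915 (.A 0 888 (.A 0 874 .e (.S 3583 .e (.A 0 881 .e (.x 2)))) (.x 2)) .n) .n) (.X 1 0 (.A 0 905 (.A 0 878 .e .e) .n) .n)))) (.X 1 0 (.A 0 905 (.A 0 855 .e (.A 0 880 .e (.x 2))) .n) .n))) (.X 2 0 (.A 0 905 (.A 0 876 (.S 3649 (.A 2 945 (.N .e) (.A 1 945 .e .e)) .e) (.A 2 945 (.N (.S 3649 (.A 0 890 .e (.A 2 936 (.N .e) (.A 1 936 .e (.S 3627 (.x 2) .e)))) .e)) (.S 3649 (.A 1 945 (.A 0 890 (.A 2 954 .e (.A 1 936 .e (.S 3627 (.A 0 883 .e (.x 2)) .e))) (.S 3627 (.x 2) (.A 2 954 .e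 (.x 2)))) (.A 0 890 (.A 2 954 (.N (.S 3627 (.A 0 883 .e (.x 2)) .e)) .e) (.x 2))) (.A 1 945 .e (.A 0 890 .e (.S 3671 (.x 2) (.A 2 954 (.N .e) (.x 2)))))))) (.A 0 934 (.A 2 945 (.N .e) (.A 1 945 (.A 0 919 (.A 1 936 .e (.A 2 954 .e (.x 2))) (.x 2)) (.x 2))) (.N (.x 2)))) .n)) (.A 0 945 (.S 3605 (.X 1 0 (.A 0 905 (.A 0 843 .e (.A 0 874 .e .e)) .n) .n) (.X 1 0 (.A 0 889 .e (.A 0 917 (.S 3649 (.x 2) (.A 2 981 (.A 0 903 (.S 3671 (.x 2) .e) (.x 2)) (.x 2))) (.x 2))) .n)) (.X 1 0 (.A 0 935 (.A 0 847 .e (.A 0 891 .e (.x 2))) .n) .n))) (.N (.X 1 0 (.A 0 916 .e .n) .n))))))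
def cP7 : Ct := (.S 3518 (.X 77 77 (.A 0 835 (.X 126 117 (.A 0 583 (.A 0 457 (.A 1 752 (.A 0 394 .e .e) (.A 0 394 .e .e)) (.A 1 752 (.A 0 520 .e .e) (.A 0 520 .e (.A 0 551 .e (.A 1 793 .e .e))))) (.A 0 709 (.A 1 752 (.A 0 646 .e (.A 1 711 (.A 0 677 (.S 3434 .e .e) (.N (.S 3434 .e (.A 1 694 (.N .e) (.A 0 693 .e .e))))) (.X 52 43 (.N (.X 33 20 .e .n)) .n))) (.A 0 646 (.A 1 793 .e (.A 0 614 .e .e)) (.A 1 793 (.A 1 772 .e .e) .e))) (.N (.A 1 772 (.N (.A 1 740 (.N (.S 3434 .e (.A 1 724 (.N .e) .e))) (.A 0 740 .e .e))) (.A 0 772 (.A 1 803 (.A 0 740 .e .e) .e) .e))))) (.A 0 600 (.A 0 482 (.A 1 752 (.A 0 423 .e .e) .e) (.A 1 752 (.A 0 541 .e .e) (.A 0 541 .e (.A 1 793 .e .e)))) (.A 0 717 (.A 1 752 (.A 0 658 .e (.X 52 42 .e .n)) (.A 0 658 .e .e)) (.N (.A 1 776 (.N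 (.A 0 746 .e (.N .e))) (.A 0 776 (.A 1 805 .e .e) .e)))))) (.X 86 86 (.A 0 730 (.A 0 595 (.A 1 917 (.A 0 528 .e .e) (.A 0 528 .e .e)) (.A 1 917 (.A 0 662 (.A 1 876 (.A 0 628 .e .e) .e) .e) .e)) (.A 0 865 (.A 1 917 (.A 0 797 .e .e) .e) (.N .e))) (.A 0 730 (.A 0 595 (.A 1 917 (.A 0 528 .e .e) .e) (.A 0 662 (.A 1 917 (.A 1 876 (.A 0 628 .e .e) .e) .e) (.A 1 917 (.A 0 696 .e (.X 33 28 .e .n)) .e))) (.A 0 865 (.A 0 797 (.A 1 917 .e (.A 1 958 .e .e)) (.A 1 917 (.A 1 876 .e (.X 0 6 .n (.N .e))) (.A 0 831 (.A 1 958 .e .e) (.A 1 958 (.X 0 2 .n (.S 3434 .e .e)) (.X 0 1 .n .e))))) (.N (.A 1 932 (.N (.A 0 898 (.A 1 898 (.S 3434 (.A 0 881 (.X 0 4 .n .e) (.N (.X 0 3 .n .e))) (.X 0 2 .n (.N .e))) (.S 3434 (.X 0 3 .n (.A 0 847 .e .e)) (.X 0 4 .n (.A 0 866 .e (.N .e))))) (.N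 (.S 3434 (.A 0 915 (.X 0 1 .n (.A 0 907 .e .n)) (.N .e)) (.A 0 915 (.X 0 2 .n .e) (.N (.X 0 1 .n (.A 0 919 .e .n)))))))) (.A 0 932 (.A 1 966 (.A 0 898 (.X 0 3 .n (.A 0 827 .e .e)) (.S 3434 .e (.X 0 1 .n (.A 0 919 (.A 0 852 .e .e) .n)))) (.A 0 898 (.X 0 1 .n (.A 0 814 .e .e)) (.S 3434 .e (.X 0 1 .n (.A 0 883 .e .n))))) (.A 1 966 (.N (.S 3434 .e (.A 1 949 (.N .e) .e))) .e)))))))) (.A 0 835 (.A 0 752 (.A 0 711 (.A 0 690 .e .e) .e) .e) cP3)) (.X 77 59 cP4 (.A 0 920 (.A 0 880 (.A 0 860 .e .e) (.S 3605 (.A 0 900 .e (.A 0 910 (.X 33 34 .n (.N .e)) (.S 3561 (.S 3539 (.X 33 33 (.X 0 2 .n (.x 1)) (.X 1 0 (.x 2) .n)) (.X 33 33 (.N (.X 0 1 .n (.x 1))) (.N (.X 1 0 (.x 2) .n)))) (.X 33 33 (.N .e) (.N .e))))) (.A 0 900 (.X 52 37 .e .n) .e))) cP6)))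
def cP8 : Ct := (.X 127 127 (.A 0 500 (.A 0 250 (.A 1 854 (.A 0 125 .e .e) (.A 0 125 .e .e)) (.A 1 854 (.A 0 375 (.A 0 312 .e (.A 0 343 .e .e)) (.A 1 781 (.A 0 437 .e .e) (.A 0 437 .e .e))) (.A 0 375 (.A 0 312 .e .e) (.A 1 927 (.A 0 437 .e .e) .e)))) (.A 0 750 (.A 1 854 (.A 0 625 (.A 1 781 (.A 0 562 .e (.A 1 745 .e .e)) (.A 0 562 .e (.A 1 817 .e .e))) (.A 0 687 (.A 1 781 (.A 1 745 .e .e) (.A 1 817 .e .e)) (.A 1 781 (.X 53 53 (.N (.X 34 24 .e .n)) (.N .e)) .e))) (.A 0 625 (.A 1 927 (.A 0 562 .e .e) (.A 0 562 .e .e)) (.A 1 927 (.A 0 687 (.A 0 656 .e .e) .e) (.A 0 687 .e .e)))) (.N (.A 1 875 (.N (.A 0 812 (.A 1 812 (.A 1 781 (.N (.X 52 41 (.X 34 16 .e .n) .n)) (.A 0 781 .e .e)) (.X 33 30 (.N .e) .n)) (.N (.A 1 843 (.N .e) (.A 0 843 (.X 25 33 .n .e) (.X 19 33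 .n .e)))))) (.A 0 875 (.A 1 937 (.A 0 812 (.A 1 906 .e .e) (.A 1 906 (.A 0 843 .e .e) .e)) .e) (.A 1 937 (.N .e) .e)))))) (.A 0 500 (.A 0 250 (.A 1 854 (.A 0 125 .e .e) (.A 0 125 .e .e)) (.A 1 854 (.A 0 375 (.A 0 312 .e (.A 0 343 .e .e)) (.A 1 781 (.A 0 437 .e .e) (.A 0 437 .e .e))) (.A 0 375 (.A 0 312 .e .e) (.A 1 927 (.A 0 437 .e .e) .e)))) (.A 0 750 (.A 1 854 (.A 0 625 (.A 1 781 (.A 0 562 .e (.A 1 745 .e .e)) (.A 0 562 .e (.A 1 817 .e .e))) (.A 1 781 (.A 0 687 .e (.X 53 46 (.N .e) .n)) (.A 0 687 (.A 1 817 .e .e) .e))) (.A 0 625 (.A 1 927 (.A 0 562 .e (.A 0 593 .e .e)) .e) (.A 1 927 .e (.A 0 687 .e (.A 1 963 .e .e))))) (.N (.A 0 875 (.A 1 875 (.A 0 812 (.A 1 812 .e (.X 35 30 (.N .e) .n)) (.N (.A 0 843 (.X 34 25 .e .n) (.N .e)))) (.A 1 937 (.A 0 812 (.X 33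 26 (.N .e) .n) (.X 33 14 .e .n)) (.A 0 812 .e .e))) (.N (.A 0 937 (.A 1 937 .e (.A 0 906 (.X 2 4 .n (.N .e)) (.S 3785 (.A 1 968 (.X 0 2 .n (.N .e)) (.X 0 3 .n (.A 0 905 .e (.A 2 984 .e .e)))) (.X 1 3 .n (.N .e))))) (.N (.X 0 10 .n (.A 0 873 (.A 0 810 .e (.S 3785 (.A 0 841 (.A 1 968 .e (.N .e)) (.A 2 968 (.N .e) .e)) .e)) (.A 0 936 (.A 0 904 (.A 2 968 (.N .e) (.S 3785 .e (.A 1 968 .e .e))) (.A 2 968 (.N (.S 3785 (.A 1 952 .e (.N .e)) .e)) (.A 1 968 (.A 1 952 .e (.S 3785 .e (.S 3831 .e .e))) .e))) (.A 0 968 (.A 1 968 (.A 2 968 (.A 0 952 (.S 3785 .e .e) (.N .e)) (.A 0 952 (.A 2 984 (.A 1 952 .e (.A 0 944 .e .e)) .e) (.N (.A 2 984 (.S 3785 (.x 0) (.A 0 960 .e (.N (.x 0)))) (.x 0))))) (.N (.A 0 952 (.S 3785 (.x 0) (.A 2 984 (.N .e) (.x 0))) (.x 0)))) (.N (.x 0))))))))))))))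
def cP9 : Ct := (.X 33 33 (.X 0 9 .n (.A 0 877 (.A 0 816 .e (.A 1 956 (.S 3785 .e .e) (.N (.S 3785 (.A 0 846 .e .e) .e)))) (.A 0 938 (.A 1 956 (.A 0 907 (.S 3785 (.A 2 975 .e (.S 3739 (.A 1 934 (.A 0 892 .e (.A 2 987 .e (.A 1 923 .e .e))) .e) .e)) .e) (.A 2 975 (.S 3785 (.A 1 934 (.N (.A 0 920 .e (.N .e))) (.A 0 922 .e .e)) .e) (.S 3785 (.S 3739 (.A 1 934 (.N (.A 2 987 (.A 0 920 .e (.N (.x 1))) (.A 0 920 (.A 1 923 (.S 3716 (.x 1) .e) (.x 1)) (.N (.x 1))))) (.x 1)) (.A 1 934 (.N (.A 2 987 .e (.A 0 920 .e (.N (.S 3762 (.x 1) .e))))) (.A 0 922 .e (.A 2 987 (.A 1 945 .e (.x 1)) (.x 1))))) (.A 1 934 (.N .e) (.S 3831 (.A 0 922 .e (.A 2 987 .e (.A 1 945 .e .e))) .e))))) (.N (.A 0 907 (.S 3785 .e (.A 1 978 .e (.N .e))) (.A 1 978 (.A 0 922 .e (.A 2 978 (.A 1 967 (.S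 3785 .e .e) (.N .e)) .e)) (.N .e))))) (.N (.A 0 969 (.A 1 969 (.A 2 975 (.A 0 953 (.A 1 953 (.S 3785 .e .e) (.N (.S 3785 (.x 1) (.S 3831 .e .e)))) (.N (.S 3785 (.x 1) (.S 3831 .e .e)))) (.S 3785 (.x 1) (.S 3831 (.A 0 953 (.A 1 953 (.A 2 987 (.S 3808 (.x 1) .e) (.x 1)) (.x 1)) (.N (.x 1))) (.A 0 953 (.A 1 953 .e (.A 2 987 .e (.S 3854 (.x 1) .e))) (.N (.A 2 987 (.S 3854 (.x 1) .e) (.x 1))))))) (.N (.A 0 953 .e (.x 1)))) (.N (.x 1))))))) (.X 3 0 (.A 0 903 (.A 1 956 (.A 0 854 .e (.S 3785 (.A 2 975 .e (.A 0 878 .e (.A 1 934 .e .e))) .e)) (.N .e)) (.A 1 956 (.N (.A 2 975 (.S 3785 (.A 0 929 (.A 1 934 .e (.S 3739 (.A 0 916 (.A 2 963 .e (.A 1 945 .e (.S 3716 (.x 2) .e))) (.A 2 963 (.A 1 945 .e (.S 3716 (.x 2) .e)) (.A 1 945 (.S 3716 (.x 2) .e) (.x 2)))) .e)) (.N (.A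 1 942 (.N .e) (.A 2 963 .e (.A 0 942 (.A 1 949 .e (.x 2)) (.x 2)))))) .e) (.S 3785 (.A 0 929 (.A 1 934 (.S 3739 (.A 2 987 (.A 0 916 .e (.N (.S 3716 (.x 2) .e))) (.A 0 916 (.A 1 923 .e (.x 2)) (.N (.x 2)))) .e) (.S 3739 (.A 2 987 (.A 0 916 (.A 1 945 (.S 3716 (.x 2) .e) (.x 2)) (.x 2)) (.x 2)) (.A 2 987 (.A 0 916 .e (.A 1 945 .e (.S 3762 (.x 2) .e))) (.A 0 916 .e (.x 2))))) (.N (.A 2 987 (.S 3739 (.x 2) (.A 1 942 (.N (.S 3762 (.x 2) .e)) (.x 2))) (.x 2)))) (.A 0 929 .e (.N (.S 3831 (.A 2 987 (.A 1 942 (.N .e) (.A 0 942 .e (.S 3808 (.x 2) .e))) (.A 0 942 (.A 1 942 .e (.S 3808 (.x 2) .e)) (.N (.x 2)))) .e)))))) (.N (.A 0 951 (.A 2 978 (.N (.S 3785 (.A 0 927 (.S 3739 (.x 2) (.A 1 967 (.A 0 915 .e (.A 2 967 .e (.x 2))) (.N (.x 2)))) (.x 2)) (.A 0 927 .e (.S 3831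 (.A 2 967 (.N .e) (.A 1 967 (.A 0 939 .e (.S 3808 (.x 2) .e)) (.A 0 939 (.S 3808 (.x 2) .e) (.x 2)))) .e)))) (.A 1 978 (.A 0 927 .e (.A 2 989 (.S 3785 (.x 2) (.S 3831 (.A 0 939 (.A 1 967 (.S 3808 (.x 2) .e) (.x 2)) (.x 2)) (.A 0 939 .e (.A 1 967 .e (.S 3854 (.x 2) .e))))) (.A 1 967 (.A 0 939 .e (.S 3785 (.x 2) (.S 3831 (.x 2) (.S 3854 (.x 2) .e)))) .e))) .e)) (.A 2 978 (.N (.A 2 967 (.N .e) (.A 1 967 (.N .e) (.A 0 964 (.A 2 972 (.N .e) (.x 2)) (.x 2))))) (.A 1 978 (.N (.A 2 989 (.S 3785 (.x 2) (.A 1 967 (.N (.A 2 983 .e (.x 2))) (.x 2))) (.x 2))) (.x 2))))))) .n))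
def cP10 : Ct := (.X 126 126 (.A 0 676 (.A 0 514 (.A 1 862 (.A 0 433 (.A 1 793 .e .e) (.A 1 793 .e .e)) (.A 1 931 (.A 0 433 .e .e) (.A 0 433 .e .e))) (.A 1 862 (.A 0 595 (.A 1 793 .e (.A 0 554 .e .e)) (.A 1 793 (.A 1 759 .e (.A 0 635 .e .e)) (.A 0 635 .e (.A 1 827 .e .e)))) (.A 0 595 (.A 1 931 .e .e) (.A 1 931 .e .e)))) (.A 0 838 (.A 1 862 (.A 0 757 (.A 1 793 (.A 0 716 (.A 1 759 .e .e) (.X 52 53 (.N (.X 33 30 .e .n)) (.N .e))) (.A 0 716 (.A 1 827 .e .e) .e)) (.N (.A 1 809 (.N (.A 1 783 (.N (.X 52 46 (.X 33 24 .e .n) .n)) (.A 0 783 .e .e))) (.A 0 797 .e (.A 1 835 (.N .e) .e))))) (.A 0 757 (.A 1 931 .e .e) (.A 1 931 (.X 33 33 (.N .e) (.N .e)) .e))) (.N (.A 1 919 (.N (.A 0 878 (.A 1 878 (.S 3973 (.X 33 33 (.A 0 844 .e (.N .e)) .e) (.X 33 33 (.N .e) (.N .e)))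 (.A 1 898 (.X 33 33 .e .e) (.X 22 33 .n .e))) (.N (.S 3973 .e (.A 1 898 (.N (.X 33 33 .e .e)) (.A 0 898 .e .e)))))) (.A 0 919 (.A 1 959 (.A 0 878 .e .e) .e) .e))))) (.A 0 676 (.A 0 514 (.A 1 862 (.A 1 793 (.A 0 433 .e .e) (.A 0 433 .e .e)) (.A 1 931 .e .e)) (.A 1 862 (.A 0 595 (.A 1 793 .e .e) (.A 1 793 (.A 0 635 .e .e) (.A 0 635 .e (.A 1 827 .e .e)))) (.A 0 595 (.A 1 931 .e .e) (.A 1 931 (.A 0 635 .e .e) .e)))) (.A 0 838 (.A 1 862 (.A 1 793 (.N (.A 0 734 .e (.N (.X 54 44 .e .n)))) (.A 0 757 (.A 0 716 (.A 1 827 .e .e) .e) (.A 1 827 (.N .e) .e))) (.A 0 757 (.A 1 931 .e .e) (.A 1 931 (.X 35 28 (.N .e) .n) (.A 1 965 (.A 0 797 .e .e) .e)))) (.N (.A 1 919 (.N (.A 1 878 (.N (.X 34 25 .e .n)) (.X 33 15 (.A 0 841 .e (.N .e)) .n))) (.A 0 919 .e (.A 0 959 (.X 1 2 .n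 (.N .e)) (.N (.S 3973 (.A 1 979 (.N (.X 0 1 .n (.N .e))) (.S 3925 (.X 0 2 .n (.A 0 958 (.A 1 979 (.A 0 937 .e .e) (.A 0 937 .e .e)) (.A 0 979 (.A 1 979 (.A 0 968 (.A 2 989 .e .e) (.N (.x 0))) (.x 0)) (.N (.x 0))))) (.A 0 979 (.X 0 1 .n (.N .e)) (.A 1 989 (.N (.S 3949 (.X 0 1 .n (.x 0)) (.X 0 1 .n (.N (.x 0))))) (.A 0 989 (.S 3949 (.X 0 1 .n (.x 0)) (.X 0 1 .n (.x 0))) (.S 3949 (.X 0 1 .n (.A 0 997 (.x 0) .n)) (.X 0 1 .n (.x 0)))))))) (.A 0 979 .e (.N (.S 4021 (.A 1 989 (.N .e) (.S 3997 (.A 0 989 (.X 0 1 .n (.N (.x 0))) (.X 0 1 .n (.x 0))) (.X 0 1 .n (.N (.x 0))))) (.X 0 1 .n (.N (.x 0)))))))))))))))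
def cP11 : Ct := (.S 4070 (.X 79 69 cP10 (.A 0 904 (.X 52 43 (.N (.A 0 862 (.A 1 862 (.X 33 29 (.N .e) .n) (.X 33 26 .e .n)) (.N (.X 33 19 .e .n)))) .n) (.A 0 952 (.X 52 36 (.A 0 877 (.X 33 20 .e .n) .e) .n) (.A 0 976 (.A 0 964 .e (.S 3973 (.A 0 970 .e (.S 3925 (.X 33 33 (.N (.X 0 1 .n (.N (.x 1)))) (.N (.X 1 0 (.N (.x 2)) .n))) .e)) .e)) (.S 3973 (.X 33 33 (.A 0 980 (.S 3925 (.S 3901 (.A 1 988 (.A 0 970 (.X 0 1 .n (.N (.x 1))) (.X 0 1 .n (.x 1))) (.A 0 970 (.X 0 1 .n (.x 1)) (.X 0 1 .n (.x 1)))) (.A 1 988 (.X 0 1 .n (.N (.x 1))) (.A 0 970 (.X 0 1 .n (.N (.x 1))) (.X 0 1 .n (.x 1))))) (.X 0 1 .n (.N .e))) (.N (.X 0 2 .n (.A 0 958 (.S 3925 (.A 0 937 .e .e) .e) (.A 0 979 (.A 0 968 (.A 1 990 (.S 3925 (.x 1) .e) (.N (.x 1))) (.A 1 990 (.A 0 973 (.A 2 990 (.S 3925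 (.x 1) .e) (.x 1)) (.A 2 990 (.S 3925 (.x 1) .e) (.x 1))) (.N (.x 1)))) (.x 1)))))) (.A 0 980 (.S 3925 (.A 0 970 (.A 1 988 (.X 1 0 (.N (.x 2)) .n) (.X 1 0 (.S 3901 (.x 2) .e) .n)) (.A 1 988 (.S 3901 (.X 1 0 (.x 2) .n) (.X 1 0 (.N (.x 2)) .n)) (.S 3901 (.X 1 0 (.x 2) .n) (.X 1 0 (.x 2) .n)))) (.X 1 0 (.N .e) .n)) (.N (.X 1 0 (.A 0 963 (.A 2 990 (.N (.A 0 944 .e (.S 3925 (.A 0 953 .e (.x 2)) .e))) .e) (.A 2 990 (.N (.A 0 976 (.S 3925 (.x 2) .e) (.x 2))) (.A 0 981 (.A 1 990 (.A 0 972 (.A 2 995 (.S 3925 (.x 2) .e) (.x 2)) (.x 2)) (.x 2)) (.N (.x 2))))) .n)))) (.A 0 988 .e (.S 4021 (.S 3997 (.X 33 33 (.A 0 992 (.X 0 1 .n (.x 1)) (.N (.X 0 1 .n (.x 1)))) (.A 0 992 (.X 1 0 (.x 2) .n) (.N (.X 1 0 (.x 2) .n)))) (.X 33 33 (.N (.X 0 1 .n (.x 1))) (.N (.X 1 0 (.x 2) .n))))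 (.X 33 33 (.N (.X 0 1 .n (.N (.x 1)))) (.N (.X 1 0 (.N (.x 2)) .n)))))))))) (.X 86 67 (.A 0 847 (.A 0 771 (.A 0 733 (.A 0 714 .e (.X 75 72 .e .n)) (.A 0 752 (.S 4171 .e .e) (.X 67 66 (.N .e) .n))) (.X 77 59 (.A 0 758 (.A 0 714 (.A 1 809 .e (.S 4171 .e .e)) (.A 1 809 .e .e)) (.A 1 809 (.N (.X 52 46 (.X 33 24 .e .n) .n)) (.A 0 802 .e (.A 1 828 (.N .e) .e)))) (.N .e))) (.A 0 923 (.X 77 53 (.A 0 787 (.A 0 719 (.A 1 885 .e .e) .e) (.A 0 855 .e (.N (.X 52 33 (.A 0 795 (.A 0 731 (.A 1 889 .e (.N .e)) (.A 1 889 .e (.N .e))) (.A 0 859 .e (.N (.A 2 891 (.N .e) (.A 1 891 (.N .e) (.A 0 891 .e .e)))))) (.A 0 871 (.A 2 889 (.N .e) (.A 1 889 .e .e)) (.N .e)))))) (.A 0 882 (.A 1 885 (.X 33 30 (.N .e) .n) (.X 33 28 .e .n)) (.N (.X 33 21 (.A 0 871 .e .e) .n)))) (.A 0 961 (.A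 0 942 (.S 4171 (.X 45 41 .e .n) (.A 0 932 (.S 4222 (.X 51 52 (.A 0 904 .e .e) (.A 0 899 .e .e)) (.X 51 52 (.X 24 33 .n .e) (.X 33 24 .e .n))) (.X 47 43 .e .n))) (.X 46 39 .e .n)) .e))) (.A 0 926 (.X 52 44 (.X 34 21 (.A 0 866 (.A 2 889 (.N .e) (.A 1 888 .e .e)) (.N (.A 2 896 (.N .e) .e))) .n) .n) (.A 0 963 (.A 0 944 (.A 0 935 (.S 4171 .e (.X 52 44 (.X 33 22 .e .n) .n)) (.S 4171 .e .e)) .e) .e))))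
def cP12 : Ct := (.S 4486 (.X 86 66 (.A 0 858 (.A 0 787 (.A 0 752 (.X 77 72 (.N (.A 1 735 (.N .e) (.A 0 735 .e .e))) .n) (.A 0 769 (.X 77 70 (.A 0 742 (.S 4379 .e .e) .e) .n) (.S 4379 .e (.S 4432 .e .e)))) (.X 77 69 (.A 0 777 (.A 0 736 (.A 1 822 (.S 4379 .e (.A 0 716 .e .e)) .e) (.A 1 822 .e .e)) (.A 0 817 (.A 1 822 (.A 0 797 .e (.N (.A 1 809 (.N .e) .e))) .e) (.N .e))) (.A 0 808 .e (.N .e)))) (.X 93 93 (.A 0 777 (.A 0 665 (.A 1 929 (.A 0 609 .e .e) .e) (.A 1 929 (.A 0 721 (.A 1 893 .e .e) .e) (.A 0 721 .e .e))) (.A 0 888 (.A 1 929 (.A 0 832 .e (.A 1 893 .e .e)) (.A 0 832 .e (.A 1 964 (.A 0 860 .e .e) .e))) (.N (.A 1 944 (.N (.S 4379 (.A 1 916 (.N (.X 33 33 .e .e)) (.A 0 916 (.X 33 33 .e .e) (.A 1 930 (.N (.A 1 923 (.N .e) (.X 26 33 .n .e))) (.A 0 930 .e .e))))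 (.A 1 916 (.N (.X 33 33 (.N .e) (.N .e))) (.A 0 916 (.X 33 33 (.N .e) (.N .e)) (.A 1 930 (.N (.X 33 33 .e .e)) (.X 33 33 (.A 0 915 .e .e) .e)))))) (.A 0 944 (.A 1 972 (.A 0 916 .e .e) .e) (.A 1 972 (.N .e) .e)))))) (.A 0 777 (.A 0 665 (.A 1 929 .e .e) (.A 1 929 (.A 0 721 (.A 1 893 .e .e) (.A 1 893 .e .e)) (.A 0 721 .e .e))) (.A 0 888 (.A 0 832 (.A 1 929 .e .e) (.A 1 929 .e (.X 33 29 (.N (.X 1 0 .e .n)) .n))) (.N (.A 0 944 (.A 1 944 (.A 0 916 (.X 33 28 (.S 4379 .e (.A 0 893 .e (.N .e))) .n) (.N (.X 33 23 (.A 0 900 .e .e) .n))) (.A 1 972 (.A 0 916 (.S 4379 .e (.X 33 29 .e .n)) .e) .e)) (.N .e))))))) (.A 0 945 (.X 52 45 (.A 1 917 (.N (.X 33 29 (.N (.S 4379 .e .e)) .n)) (.X 33 23 (.A 0 900 (.X 2 0 .e .n) (.N .e)) .n)) .n) .e)) (.X 86 66 (.A 0 870 (.A 0 805 (.A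 0 772 (.X 77 73 (.N (.A 1 757 (.N .e) .e)) .n) (.X 77 68 (.A 0 770 .e .e) .n)) (.A 0 837 (.A 0 821 .e (.X 66 64 .e .n)) (.X 66 59 (.A 0 841 .e (.N .e)) .n))) (.A 0 935 (.A 0 902 (.S 4598 (.A 0 886 .e .e) (.A 0 886 .e .e)) (.S 4598 (.A 0 918 .e (.A 0 926 .e (.S 4542 (.S 4514 (.X 52 52 (.X 33 33 .e .e) (.A 0 929 .e (.N .e))) (.X 52 52 (.N (.A 0 932 .e (.N .e))) (.N .e))) (.X 52 52 (.N .e) (.N .e))))) (.A 0 918 .e .e))) (.A 0 967 (.X 52 52 (.A 0 940 (.A 1 951 (.S 4598 (.X 33 33 (.N .e) (.N .e)) .e) (.A 0 926 (.S 4598 .e .e) (.X 33 29 .e .n))) (.N (.A 1 953 (.N (.S 4598 (.X 32 28 .e .n) (.S 4654 .e (.A 1 946 (.N .e) .e)))) (.A 0 953 (.A 1 960 .e .e) (.A 1 960 (.N .e) .e))))) (.X 33 25 (.X 2 0 .e .n) .n)) (.S 4598 (.X 51 42 (.A 0 955 .e .e) .n) (.A 0 983 (.X 52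 46 (.A 0 955 (.A 0 941 .e .e) .e) .n) (.X 52 44 (.A 0 960 (.A 0 940 .e .e) .e) .n)))))) (.A 0 959 (.A 0 938 (.S 4598 (.X 52 50 (.N (.X 33 31 .e .n)) .n) .e) .e) .e)))
def cP13 : Ct := (.S 4945 (.X 86 66 (.A 0 882 (.A 0 823 (.A 0 793 (.X 77 73 (.N .e) .n) (.S 4827 (.A 0 808 .e .e) .e)) (.A 0 852 (.X 66 65 (.N .e) .n) (.X 66 61 .e .n))) (.A 0 941 (.A 0 911 (.X 67 57 (.A 0 868 .e .e) .n) (.X 69 53 (.A 0 870 .e .e) .n)) (.A 0 970 (.A 0 955 (.X 69 52 (.A 0 875 .e .e) .n) (.S 4827 (.X 52 52 (.A 0 960 .e (.N .e)) .e) (.X 66 52 (.A 0 902 .e .e) .n))) (.A 0 985 (.S 4827 (.X 52 52 (.A 0 965 (.S 4768 .e .e) .e) (.A 0 965 .e .e)) (.S 4886 (.X 52 50 .e .n) (.A 0 977 .e (.X 65 51 (.A 0 917 .e (.A 0 951 .e .e)) .n)))) (.S 4827 (.X 52 46 (.A 0 970 (.A 0 955 (.S 4768 .e .e)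 .e) .e) .n) (.S 4886 (.A 0 992 (.X 52 49 .e .n) .e) (.X 52 49 .e .n))))))) (.A 0 973 (.A 0 960 (.S 4827 .e .e) .e) .e)) (.S 5192 (.X 99 77 (.A 0 842 (.A 0 763 (.A 0 724 (.A 0 704 (.S 5068 .e .e) (.S 5068 .e (.S 5130 .e .e))) (.A 0 743 (.A 0 733 .e .e) .e)) (.A 0 802 (.A 0 782 .e .e) .e)) (.A 0 921 (.A 0 881 (.X 66 65 (.N .e) .n) (.X 67 60 (.A 0 888 .e (.N .e)) .n)) (.X 69 66 (.A 0 908 (.A 1 960 (.A 0 862 .e (.A 0 885 .e .e)) (.A 0 862 (.A 0 839 .e .e) (.X 52 43 .e .n))) (.A 0 954 .e (.N (.A 0 977 .e (.N .e))))) (.A 0 922 (.A 1 960 (.A 0 883 .e .e) (.A 0 883 .e .e)) (.N (.A 0 961 .e (.N (.S 5068 (.A 0 980 .e (.N .e)) .e)))))))) (.A 0 934 (.A 0 901 .e .e) (.A 0 967 .e (.A 0 983 .e .e)))) (.X 99 93 (.A 0 853 (.A 0 779 (.A 0 742 (.S 5321 (.A 0 724 (.X 93 90 .e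 .n) (.S 5256 (.A 0 733 .e .e) .e)) (.X 93 89 (.N (.X 86 82 .e .n)) .n)) (.A 0 760 (.A 0 751 .e .e) .e)) (.A 0 816 (.A 0 797 .e .e) .e)) (.X 126 109 (.A 0 730 (.A 0 595 (.A 1 926 (.A 0 528 .e .e) (.A 0 528 .e .e)) (.A 1 926 (.A 0 662 .e .e) (.A 0 662 .e .e))) (.A 0 865 (.A 1 926 (.A 0 797 .e .e) (.A 0 797 .e .e)) (.N (.A 1 932 (.N (.A 0 898 .e (.N .e))) (.A 0 932 (.A 0 898 (.A 0 881 .e (.S 5321 (.A 1 966 .e .e) .e)) (.A 1 966 .e .e)) (.A 1 966 (.N .e) .e)))))) (.A 0 776 (.A 0 664 (.A 1 926 (.A 0 608 .e .e) (.A 0 608 .e .e)) (.A 1 926 (.A 0 720 .e .e) .e)) (.A 0 888 (.A 1 926 (.A 0 832 .e .e) (.A 0 832 .e (.X 52 51 (.N .e) .n))) (.N (.A 1 944 (.N (.A 0 916 .e (.N .e))) (.A 0 944 .e .e))))))) (.A 0 876 (.A 0 814 (.A 0 783 .e .e) (.A 0 845 .e .e)) (.A 0 938 (.A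 0 907 .e .e) .e)))))
def cP14 : Ct := (.S 6309 (.X 103 93 (.A 0 869 (.A 0 804 (.A 0 771 .e (.A 0 787 .e .e)) (.A 0 836 (.X 86 86 (.N .e) (.N .e)) (.A 0 852 (.S 6159 (.X 86 85 (.A 0 836 .e .e) .e) (.X 86 84 .e .n)) (.X 86 80 (.A 0 843 (.S 6159 .e .e) (.A 0 856 .e (.N .e))) .n)))) (.A 0 934 (.A 0 901 (.A 0 885 (.A 0 877 (.S 6159 .e .e) .e) (.S 6159 (.S 6084 .e .e) .e)) (.X 77 77 .e .e)) (.A 0 967 (.S 6159 .e (.X 70 77 .n .e)) (.S 6159 (.X 66 64 (.N .e) .n) .e)))) (.A 0 911 (.A 0 867 (.S 6159 .e .e) (.A 0 889 .e (.X 77 75 (.N .e) .n))) (.A 0 955 (.A 0 933 .e .e) (.A 0 977 .e .e)))) (.S 6624 (.X 105 93 (.A 0 872 (.A 0 808 (.A 0 776 .e (.A 0 792 .e .e)) (.A 0 840 .e (.X 86 86 (.N (.A 1 859 (.N .e) .e)) (.N .e)))) (.A 0 936 (.A 0 904 (.S 6466 (.A 0 888 .e .e) (.S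 6545 (.A 0 888 .e .e) (.A 0 888 (.A 0 880 .e .e) .e))) (.X 77 77 (.N (.S 6466 .e .e)) (.N .e))) (.A 0 968 (.S 6466 (.A 0 952 (.X 77 77 .e .e) .e) (.X 77 77 (.A 0 949 (.A 0 939 .e (.N .e)) (.N .e)) (.A 1 952 (.N .e) .e))) (.A 0 984 (.S 6466 .e (.S 6545 (.X 72 71 (.N .e) .n) (.X 77 77 .e .e))) .e)))) (.A 0 924 (.A 0 886 (.S 6466 .e .e) (.A 0 905 .e (.A 0 914 .e (.S 6466 .e .e)))) (.A 0 962 (.A 0 943 (.S 6466 (.X 76 74 (.N .e) .n) (.S 6545 .e .e)) .e) (.A 0 981 .e .e)))) (.X 93 93 (.A 0 936 (.A 0 904 (.A 0 888 (.X 86 86 .e .e) (.S 6789 (.A 0 896 .e .e) (.S 6872 .e .e))) (.A 0 920 .e .e)) (.A 0 968 (.S 6789 (.A 0 952 (.X 77 77 (.N .e) (.N .e)) (.X 77 77 (.A 0 957 .e (.N .e)) (.S 6706 .e .e))) (.X 77 77 (.N .e) (.N .e))) (.S 6789 (.A 0 984 (.S 6706 (.A 0 976 (.X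 77 77 .e (.A 0 960 .e .e)) .e) (.X 77 77 (.A 0 967 .e .e) (.A 0 967 .e .e))) (.A 0 992 (.S 6706 .e (.X 77 77 (.A 0 970 .e .e) (.A 0 970 .e .e))) (.X 74 71 .e .n))) (.A 0 984 (.X 77 77 (.A 1 976 (.N .e) .e) (.A 0 971 (.S 6872 .e .e) (.N (.S 6872 .e .e)))) (.X 77 77 (.A 0 978 (.A 0 967 .e (.A 1 992 .e .e)) (.A 0 989 (.X 63 66 .n .e) (.N .e))) (.A 0 978 (.X 66 66 (.N .e) (.N .e)) (.A 0 989 (.S 6872 .e .e) (.N .e)))))))) (.A 0 936 (.A 0 904 .e .e) (.A 0 968 (.S 6789 (.A 0 952 (.X 77 77 (.N .e) (.N .e)) (.S 6706 (.X 77 77 .e .e) (.X 77 77 (.N .e) (.N (.S 6747 .e .e))))) (.X 77 77 (.N .e) (.N .e))) (.A 0 984 (.S 6789 (.A 0 976 (.A 0 972 (.A 0 970 (.S 6706 .e (.S 6747 .e .e)) .e) .e) .e) (.S 6872 .e (.X 77 76 .e (.N .e)))) (.S 6789 .e (.A 0 992 (.X 77 76 (.A 0 975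 .e .e) (.A 0 980 .e .e)) (.S 6872 .e (.X 77 77 .e (.X 66 62 (.N .e) .n)))))))))))
def cP15 : Ct := (.S 5451 (.S 3351 cP2 (.S 4273 (.S 3693 cP7 (.S 3877 (.X 78 66 cP8 (.A 0 903 (.A 0 855 (.S 3785 (.A 0 831 (.X 52 49 (.N .e) .n) .e) (.X 52 48 (.N (.X 33 27 .e .n)) .n)) (.X 52 38 (.A 0 843 .e .e) .n)) (.A 0 951 (.A 0 927 (.S 3785 .e .e) (.S 3785 (.A 0 939 .e (.S 3739 (.S 3716 (.X 33 33 (.X 0 1 .n (.x 1)) (.X 1 0 (.x 2) .n)) (.X 33 33 (.N (.X 0 1 .n (.x 1))) (.N (.X 1 0 (.x 2) .n)))) (.X 33 33 (.N .e) (.N .e)))) .e)) cP9))) cP11)) (.S 4710 cP12 cP13))) (.S 8874 (.S 6955 (.S 6009 (.S 5723 (.X 99 93 (.A 0 864 (.A 0 796 (.A 0 762 (.S 5587 (.A 0 745 (.S 5519 .e .e) .e) (.A 0 745 .e .e)) (.X 86 86 (.N (.X 76 75 (.N .e) .n)) (.N .e))) (.A 0 830 (.A 0 813 (.X 86 81 (.X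 77 72 (.N .e) .n) .n) (.S 5587 .e (.X 86 80 (.X 77 71 .e .n) .n))) .e)) (.A 0 932 (.X 71 66 (.N .e) (.N .e)) (.X 77 77 (.A 0 906 (.A 0 859 .e .e) (.A 0 953 (.A 1 966 .e .e) (.N (.A 1 976 (.N .e) .e)))) (.A 0 906 (.A 0 859 .e .e) (.A 0 953 (.X 52 47 (.N .e) .n) (.N .e)))))) (.A 0 888 (.A 0 832 (.A 0 804 .e (.S 5587 .e .e)) (.A 0 860 .e .e)) (.A 0 944 (.A 0 916 .e .e) (.A 0 972 .e .e)))) (.X 99 93 (.A 0 875 (.A 0 812 (.A 0 781 (.A 0 765 .e .e) (.S 5866 (.A 0 796 .e (.X 86 84 (.N .e) .n)) .e)) (.X 99 86 (.A 0 780 (.A 0 733 .e .e) (.A 0 827 (.A 1 843 (.X 77 77 (.N (.S 5866 .e .e)) (.N .e)) (.A 0 803 .e .e)) (.N (.A 1 851 (.N (.X 77 70 .e .n)) .e)))) (.A 0 832 (.A 1 843 .e .e) (.N .e)))) (.A 0 937 (.A 0 906 (.A 0 890 .e .e) .e) (.A 0 968 (.A 0 952 .e (.X 66 64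 (.N .e) .n)) (.X 66 61 .e .n)))) (.A 0 899 (.A 0 849 (.A 0 824 .e .e) (.A 0 874 .e .e)) (.A 0 949 .e (.A 0 974 .e .e))))) cP14) (.S 7667 (.S 7302 (.X 93 86 (.A 0 949 (.A 0 923 (.X 86 83 .e .n) .e) (.A 0 974 .e (.S 7128 (.X 84 77 (.A 0 951 .e (.A 0 975 .e (.N (.A 1 987 (.N (.S 7041 .e .e)) (.A 0 987 .e .e))))) (.X 66 66 (.N (.S 7041 .e .e)) (.N .e))) (.X 84 77 (.A 0 959 .e (.A 0 979 .e (.N .e))) (.N .e))))) (.A 0 984 (.X 77 77 (.N .e) (.N .e)) (.X 77 77 (.S 7128 (.S 7041 .e (.A 0 986 .e (.N (.X 66 64 (.N .e) .n)))) (.A 0 986 .e (.N .e))) (.X 66 63 (.N .e) .n)))) (.S 7484 (.X 93 86 (.A 0 962 .e (.A 0 981 .e .e)) .e) .e)) (.S 8050 .e (.S 8452 (.X 90 99 .n (.A 0 958 .e .e)) .e)))) (.S 11323 (.S 9782 (.S 9317 .e .e) (.S 10271 .e (.S 10784 .e .e))) (.S 13107 (.S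 11889 .e (.S 12483 .e .e)) (.S 13762 .e (.S 14450 .e .e))))))
def cP : Ct := cP15
theorem cP_ok : chk par tab 20576 1280 206 xs cP 2060 15020 [.p 1000 1000] = true := by decide +kernel
def cM1 : Ct := (.A 0 909 (.A 1 939 (.A 0 864 (.X 0 1 .n (.N .e)) (.A 1 909 (.X 0 1 .n .e) (.S 3448 (.A 0 886 (.X 0 1 .n .e) (.A 1 924 (.S 3406 (.A 0 897 (.X 0 1 .n (.A 0 892 .e .n)) (.A 1 916 (.X 0 1 .n (.A 0 881 .e .n)) (.S 3385 .e (.A 0 903 (.A 1 920 .e .e) .e)))) (.X 0 1 .n .e)) (.S 3406 (.A 0 897 (.S 3385 .e (.A 1 931 (.X 0 1 .n (.A 0 876 .e .n)) .e)) .e) (.A 0 897 (.X 0 1 .n .e) (.A 1 931 (.S 3427 (.A 0 903 (.X 0 1 .n (.A 0 877 .e .n)) .e) (.X 0 1 .n (.A 0 889 .e .n))) (.S 3427 .e (.A 0 903 (.X 0 1 .n (.A 0 882 .e .n)) .e))))))) (.X 0 1 .n .e)))) (.A 0 864 (.A 1 969 (.S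 3448 (.A 0 841 (.X 0 1 .n (.N .e)) (.A 1 954 (.X 0 1 .n .e) (.S 3406 .e (.X 0 1 .n .e)))) (.X 0 1 .n (.N .e))) (.S 3448 (.A 0 841 (.A 1 984 (.S 3406 .e .e) .e) .e) (.A 0 841 .e (.A 1 984 (.S 3490 (.A 0 852 .e (.S 3469 .e (.A 1 976 .e .e))) .e) (.S 3490 .e (.A 0 852 .e (.S 3511 .e .e))))))) (.A 1 969 (.S 3448 (.A 0 886 (.A 1 954 (.S 3406 (.A 0 875 (.S 3385 .e (.X 0 1 .n .e)) .e) (.A 0 875 (.X 0 1 .n .e) (.A 1 946 (.X 0 1 .n .e) (.S 3427 .e (.X 0 1 .n .e))))) (.S 3406 .e (.A 0 875 (.S 3427 .e (.X 0 1 .n .e)) .e))) (.A 1 954 (.S 3406 .e (.A 0 897 (.S 3427 .e (.X 0 1 .n (.A 0 884 (.A 0 859 .e .e) .n))) .e)) .e)) (.X 0 1 .n (.A 0 863 (.A 1 886 (.A 0 840 .e (.A 2 954 .e (.S 3490 (.S 3469 (.A 0 851 .e .e) .e) .e))) (.S 3490 (.A 0 840 (.A 2 954 .e (.A 0 828 .e .e))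 (.A 2 954 (.A 0 851 (.A 1 897 .e (.S 3469 .e .e)) (.S 3469 .e (.A 1 897 .e .e))) (.A 0 851 .e .e))) (.A 0 840 .e (.A 2 954 .e (.A 1 897 .e (.A 0 851 .e (.S 3511 .e .e))))))) (.A 0 886 (.A 1 886 .e (.S 3490 (.A 2 954 (.A 1 897 .e .e) .e) (.A 2 954 (.A 0 874 (.A 1 897 .e (.A 2 946 .e (.S 3511 .e .e))) .e) (.S 3511 .e (.A 1 897 (.A 0 874 .e .e) .e))))) (.N (.x 5)))))) (.S 3448 .e (.A 0 886 (.A 1 984 (.S 3490 (.A 0 875 .e .e) (.A 0 875 (.X 0 1 .n .e) (.X 0 1 .n (.A 0 867 .e (.A 0 876 .e (.N .e)))))) .e) (.A 1 984 (.X 0 1 .n (.A 0 899 (.A 0 849 .e (.A 0 874 .e (.A 0 886 .e (.x 5)))) .n)) .e)))))) (.N (.A 1 954 (.N (.S 3448 (.A 1 931 (.N (.S 3406 .e (.A 1 920 (.N (.S 3427 (.S 3416 .e (.X 0 1 .n (.A 0 881 .e .n))) (.X 0 1 .n (.A 0 892 .e .n)))) (.A 0 920 (.S 3427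 .e (.A 1 925 (.X 0 1 .n (.A 0 881 .e .n)) .e)) .e)))) (.A 0 931 .e .e)) (.A 1 931 (.N (.X 0 1 .n (.A 0 883 (.A 0 859 (.S 3490 (.S 3469 (.A 2 920 (.N .e) (.A 1 920 (.A 0 847 .e (.A 0 853 .e .e)) (.A 0 847 (.A 0 841 .e .e) .e))) (.A 1 920 .e (.N (.A 0 847 .e (.A 0 853 .e (.A 2 925 (.N .e) .e)))))) .e) (.A 0 871 (.A 1 920 .e (.N (.A 0 865 (.S 3490 .e .e) .e))) .e)) (.x 5)))) (.A 0 931 (.S 3490 (.A 0 920 (.A 1 942 (.S 3469 (.A 1 936 (.X 0 1 .n (.A 0 881 .e .n)) .e) (.A 1 936 (.X 0 1 .n (.A 0 893 .e .n)) (.X 0 1 .n (.A 0 888 .e .n)))) .e) (.A 1 942 (.S 3469 .e (.A 1 936 .e .e)) .e)) (.A 1 942 (.X 0 1 .n (.A 0 916 (.A 0 882 (.A 0 865 (.A 1 920 .e (.A 0 856 .e (.S 3511 .e .e))) (.A 1 920 .e (.S 3511 .e (.A 0 873 (.A 2 936 .e .e) .e)))) (.x 5)) .n)) (.A 0 920 (.S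 3511 (.X 0 1 .n (.A 0 893 (.A 0 870 (.A 0 858 .e .e) .e) .n)) (.A 1 948 (.X 0 1 .n (.A 0 905 .e .n)) (.X 0 1 .n (.A 0 899 .e .n)))) (.X 0 1 .n (.A 0 894 (.A 0 864 (.A 0 849 .e .e) .e) .n))))) (.S 3490 .e (.A 1 942 (.N (.S 3511 .e (.A 1 936 (.N (.X 0 1 .n (.A 0 894 .e .n))) (.X 0 1 .n (.A 0 889 .e .n))))) .e)))))) (.A 0 954 (.S 3448 .e (.A 0 931 (.A 1 977 (.S 3490 .e (.A 0 920 (.X 0 1 .n (.A 0 892 (.A 0 856 .e .e) .n)) .e)) .e) .e)) .e))))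
def cM2 : Ct := (.S 3364 (.X 52 52 (.X 33 33 (.A 0 884 (.A 1 924 (.A 0 826 (.X 0 1 .n (.N .e)) (.A 1 886 (.X 0 1 .n .e) (.S 3284 (.A 0 855 (.A 1 905 (.X 0 1 .n .e) (.A 0 840 (.X 0 1 .n .e) (.S 3244 .e (.X 0 1 .n .e)))) (.A 1 905 (.A 0 869 (.X 0 1 .n .e) (.S 3244 .e (.X 0 1 .n (.A 0 863 .e .n)))) (.A 0 869 (.S 3244 .e (.A 1 914 (.S 3264 .e .e) .e)) .e))) (.A 0 855 (.X 0 1 .n (.N .e)) (.A 1 905 (.X 0 1 .n .e) (.S 3324 (.A 0 869 (.X 0 1 .n .e) (.A 1 914 (.X 0 1 .n (.A 0 866 .e .n)) .e)) (.X 0 1 .n .e))))))) (.A 0 826 (.A 1 962 (.S 3284 (.A 0 797 (.A 1 943 .e .e) (.A 1 943 (.S 3244 .e .e) .e)) (.X 0 1 .n (.N .e))) (.S 3284 (.A 0 797 .e .e) (.A 1 981 (.A 0 797 .e .e) .e))) (.A 1 962 (.S 3284 (.A 0 855 .e .e) (.A 0 855 (.A 1 943 (.X 0 1 .n .e) (.S 3324 .e (.A 0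 840 (.A 1 952 .e .e) .e))) (.A 1 943 (.S 3324 .e (.A 0 869 (.X 0 1 .n .e) (.A 1 933 (.S 3344 .e (.X 0 1 .n (.A 0 869 .e .n))) .e))) .e))) .e))) (.N (.A 1 942 (.N (.A 1 913 (.N (.S 3284 (.S 3244 .e .e) (.A 1 898 (.N (.X 0 1 .n (.A 0 896 .e .n))) (.S 3324 .e (.A 0 898 (.X 0 1 .n (.A 0 881 .e .n)) (.S 3344 .e (.A 1 905 (.N .e) .e))))))) (.A 0 913 (.S 3284 .e (.A 1 927 (.S 3324 .e (.A 0 898 (.A 0 891 .e .e) .e)) .e)) .e))) .e))) (.A 0 884 (.A 1 924 (.A 0 826 (.X 2 0 (.N .e) .n) (.X 1 0 .e .n)) (.A 0 826 (.A 1 962 (.A 0 797 .e (.X 1 0 .e .n)) (.A 0 797 .e .e)) (.A 1 962 (.A 0 855 (.X 1 0 .e .n) (.X 1 0 (.A 0 883 .e .n) .n)) .e))) (.N (.A 1 942 (.N (.X 1 0 (.A 0 896 .e .n) .n)) (.X 1 0 (.A 0 834 .e .n) .n))))) (.A 0 924 (.X 33 21 (.X 1 0 .e .n) .n) .e)) (.X 52 52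 (.X 33 33 cM1 (.A 0 909 (.A 1 939 (.A 0 864 (.X 2 0 (.N .e) .n) (.X 1 0 .e .n)) (.A 0 864 (.A 1 969 (.A 0 841 (.X 2 0 (.N .e) .n) (.X 1 0 .e .n)) (.A 0 841 (.S 3448 .e .e) .e)) (.A 1 969 (.A 0 886 (.X 1 0 .e .n) (.X 1 0 .e .n)) (.A 0 886 (.S 3448 .e (.A 1 984 (.A 0 875 .e (.X 1 0 .e .n)) .e)) (.S 3448 .e (.A 1 984 (.X 1 0 (.A 0 899 .e .n) .n) .e)))))) (.N (.A 1 954 (.N (.X 1 0 (.A 0 938 .e .n) .n)) (.X 1 0 (.A 0 892 .e .n) .n))))) (.A 0 939 (.X 33 24 (.X 1 0 .e .n) .n) (.A 0 969 (.X 33 19 (.X 1 0 .e .n) .n) .e))))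
def cM3 : Ct := (.A 1 938 (.N (.A 2 955 (.A 0 907 (.A 1 907 .e (.A 2 932 (.N .e) (.S 3620 (.S 3576 (.A 0 892 (.A 1 922 (.A 2 943 .e (.A 0 884 (.S 3554 (.A 1 914 .e .e) .e) (.x 5))) (.S 3554 .e (.A 2 943 (.A 1 930 .e (.A 0 884 .e (.x 5))) .e))) (.x 5)) (.A 1 922 (.A 0 892 .e .e) (.A 0 892 (.A 2 943 .e (.S 3598 (.A 1 930 .e (.A 0 884 .e (.x 5))) .e)) (.A 2 943 .e (.x 5))))) .e))) (.N .e)) (.S 3620 (.A 1 907 (.N (.A 2 977 (.A 1 892 (.N .e) (.A 0 892 (.A 1 899 .e (.S 3576 (.A 2 966 .e .e) .e)) .e)) (.S 3576 (.A 0 892 (.A 1 892 (.S 3554 (.A 2 988 (.A 1 884 (.N .e) (.A 0 884 .e (.x 5))) .e) (.A 2 988 (.A 1 884 (.N .e) (.A 0 884 .e (.x 5))) (.A 0 884 (.A 1 884 (.A 2 994 .e .e) .e) (.N (.x 5))))) (.A 2 988 .e .e)) (.N (.x 5))) (.A 0 892 (.A 1 892 (.A 2 988 .e (.S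 3598 (.S 3587 (.A 0 884 (.A 1 884 .e (.A 2 994 .e .e)) (.N (.x 5))) (.A 1 884 (.N .e) (.A 0 884 .e (.x 5)))) .e)) (.A 2 988 (.S 3598 .e .e) (.A 0 884 .e (.x 5)))) (.N (.x 5)))))) (.A 0 907 (.A 2 977 (.S 3576 (.A 1 922 (.A 0 892 (.A 2 966 (.S 3554 .e (.A 1 914 (.A 0 884 .e (.x 5)) .e)) .e) (.x 5)) .e) (.A 1 922 (.A 0 892 (.S 3598 (.A 2 966 (.A 1 914 .e (.A 0 884 .e (.x 5))) .e) (.A 2 966 .e (.A 0 884 .e (.x 5)))) (.x 5)) (.A 0 892 (.A 2 966 (.S 3598 .e (.A 1 930 .e (.A 0 884 .e (.x 5)))) .e) (.x 5)))) (.A 0 892 .e (.x 5))) (.x 5))) (.A 0 907 (.A 1 907 (.A 2 977 .e (.S 3664 (.A 0 892 .e (.N (.A 2 988 (.S 3642 (.x 5) .e) (.x 5)))) .e)) (.A 2 977 (.S 3664 (.A 0 892 (.A 1 922 .e (.A 2 966 .e (.S 3642 (.A 1 930 .e .e) .e))) (.A 1 922 (.A 2 966 .e (.A 0 899 .e (.x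 5))) (.A 2 966 (.S 3642 (.x 5) .e) (.x 5)))) .e) (.A 1 922 (.A 0 892 (.S 3664 (.A 2 988 (.S 3642 (.A 1 914 .e .e) .e) .e) .e) (.A 2 988 (.S 3664 (.x 5) .e) (.A 0 899 (.S 3664 (.x 5) .e) (.A 1 914 (.S 3664 (.x 5) .e) (.x 5))))) (.A 0 892 .e (.A 2 988 (.S 3664 (.x 5) (.S 3686 (.x 5) .e)) (.x 5)))))) (.N (.A 2 977 (.A 0 922 (.A 1 922 .e (.A 2 966 .e (.S 3664 (.x 5) (.S 3686 (.x 5) .e)))) (.N (.x 5))) (.S 3664 (.x 5) (.A 1 922 (.N (.S 3686 (.x 5) (.A 2 988 .e (.x 5)))) (.x 5))))))))) (.N (.A 0 938 (.A 0 907 (.S 3620 (.A 2 969 (.N (.S 3576 .e (.A 2 953 (.N (.A 0 892 (.S 3598 .e (.A 1 945 .e (.N .e))) (.x 5))) .e))) .e) (.A 2 969 (.N (.S 3664 (.A 2 953 (.N (.A 0 892 .e (.S 3642 (.x 5) .e))) (.A 1 953 (.A 0 892 (.A 2 961 (.S 3642 (.A 1 945 .e .e) .e) .e) (.x 5))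 (.A 0 892 .e (.x 5)))) (.A 2 953 (.N .e) (.A 1 953 (.A 0 892 .e (.S 3686 (.A 0 899 .e (.x 5)) .e)) (.A 0 892 .e (.x 5)))))) (.A 1 969 (.A 2 984 (.A 1 953 (.A 0 892 .e (.x 5)) .e) .e) .e))) (.A 2 969 (.N (.S 3620 (.x 5) (.A 0 922 (.A 2 953 (.N .e) (.x 5)) (.x 5)))) (.x 5))) (.x 5))))
def cM4 : Ct := (.X 33 33 (.X 0 33 .n (.A 0 755 (.A 0 633 (.A 1 934 .e (.N (.A 0 572 .e .e))) (.A 1 934 .e (.N (.A 0 694 .e (.S 3620 (.A 2 967 (.N .e) (.A 1 967 .e .e)) .e))))) (.A 0 877 (.A 1 934 (.A 0 816 (.A 2 955 .e (.A 1 901 .e (.A 0 785 .e (.S 3620 .e .e)))) (.A 2 955 (.A 0 846 .e (.A 1 901 .e (.S 3620 (.A 2 932 (.N .e) (.A 1 917 .e (.S 3576 (.A 0 861 .e (.A 2 943 .e (.S 3554 (.A 0 869 (.A 1 925 .e .e) .e) .e))) .e))) .e))) (.A 0 846 (.S 3620 (.A 1 901 .e .e) .e) (.A 1 901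 (.S 3620 (.A 2 977 (.S 3576 (.A 1 884 .e (.A 0 861 .e (.A 2 966 .e (.A 1 892 .e (.A 0 869 .e .e))))) .e) (.A 0 861 (.A 1 884 .e (.S 3576 (.A 2 988 .e .e) .e)) (.A 1 884 (.S 3576 (.A 2 988 .e (.S 3554 (.A 0 869 (.A 1 876 .e .e) (.N (.A 2 994 (.A 1 876 (.N .e) .e) .e))) .e)) .e) (.S 3576 .e (.A 2 988 .e (.A 1 892 .e .e)))))) .e) (.A 2 977 (.S 3620 (.S 3576 (.A 1 917 (.A 0 861 (.A 2 966 .e .e) (.A 2 966 (.A 1 909 .e (.S 3554 .e .e)) .e)) (.A 0 861 .e (.A 2 966 (.A 1 925 .e .e) .e))) (.A 1 917 .e (.A 0 861 .e (.A 2 966 .e .e)))) .e) .e))))) (.N (.A 0 816 (.S 3620 (.A 2 967 (.N (.A 0 785 .e .e)) .e) (.A 2 967 (.N .e) (.A 1 967 .e .e))) (.A 2 967 (.N (.A 0 846 (.S 3620 .e .e) (.A 2 950 (.N (.S 3620 (.S 3576 (.A 0 861 .e (.S 3554 .e (.A 2 942 (.N .e) (.A 0 869 .e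 .e)))) .e) .e)) .e))) .e)))) (.N cM3)))) (.X 3 0 (.A 0 853 .e (.A 0 926 (.A 1 934 (.A 2 955 (.A 1 901 (.N .e) .e) (.S 3620 (.A 0 889 (.A 1 901 (.A 2 977 .e (.S 3576 (.A 0 871 (.A 1 884 (.A 2 988 .e (.S 3554 (.A 0 862 .e (.A 1 876 .e .e)) .e)) .e) (.N (.A 1 886 (.N (.A 2 988 (.S 3554 (.A 1 878 (.N .e) .e) .e) (.S 3554 (.A 1 878 (.N (.A 2 994 .e .e)) .e) (.A 1 878 (.N .e) (.A 2 994 (.A 0 878 .e (.S 3565 .e .e)) (.A 0 878 (.S 3565 .e .e) .e)))))) (.A 2 988 .e (.A 0 880 .e (.x 4)))))) (.A 0 871 .e (.N (.A 1 886 (.N .e) (.A 2 988 .e (.A 0 880 .e (.x 4)))))))) .e) (.N (.S 3576 (.x 4) (.A 2 977 (.A 1 911 (.N .e) (.x 4)) (.x 4))))) (.A 1 901 (.N (.A 2 977 .e (.A 0 877 .e (.N (.S 3664 (.A 2 988 .e (.A 1 889 (.N .e) (.A 0 889 .e (.A 2 994 .e (.x 4))))) .e))))) (.A 0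 889 .e (.A 2 977 (.A 1 917 (.N .e) .e) (.S 3664 (.A 0 907 (.A 1 917 (.A 2 988 .e (.x 4)) (.x 4)) (.N (.x 4))) (.A 0 907 (.A 1 917 .e .e) (.N (.A 1 920 (.N (.S 3686 (.x 4) (.A 2 988 .e (.x 4)))) (.x 4)))))))))) (.N .e)) (.N (.S 3620 (.x 4) (.A 2 963 (.N (.A 0 944 .e (.N (.x 4)))) (.x 4)))))) .n))
def cM5 : Ct := (.X 33 33 (.A 0 958 (.S 3800 (.A 1 970 (.A 0 937 (.X 0 1 .n (.N .e)) (.S 3754 (.S 3731 (.A 1 955 (.N (.A 0 946 (.X 0 1 .n (.N (.x 5))) (.N (.X 0 1 .n (.x 5))))) (.A 0 947 (.X 0 1 .n (.x 5)) (.X 0 1 .n (.x 5)))) (.A 1 955 (.N (.X 0 1 .n (.N (.x 5)))) (.A 0 947 (.X 0 1 .n (.x 5)) (.X 0 1 .n (.x 5))))) (.X 0 1 .n .e))) (.A 0 937 (.A 1 985 (.S 3754 (.A 0 926 .e (.X 0 1 .n (.S 3731 (.x 5) .e))) .e) (.S 3754 (.S 3731 (.A 0 926 (.X 0 1 .n (.x 5)) (.X 0 1 .n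 (.x 5))) (.A 0 926 (.X 0 1 .n (.N (.x 5))) (.X 0 1 .n (.x 5)))) (.A 0 926 .e (.S 3777 (.X 0 1 .n (.x 5)) .e)))) (.X 0 1 .n (.A 0 918 (.A 0 898 .e (.A 2 985 (.S 3754 (.S 3731 (.A 1 947 (.A 0 908 .e (.x 5)) (.x 5)) .e) .e) .e)) (.A 0 938 (.A 2 985 (.A 0 928 (.S 3754 (.x 5) .e) (.S 3754 (.x 5) (.A 1 947 .e (.S 3777 (.x 5) .e)))) (.A 0 928 (.A 1 947 (.A 2 992 (.S 3754 (.x 5) .e) (.x 5)) (.x 5)) (.x 5))) (.N (.x 5))))))) (.A 1 970 .e (.A 0 937 .e (.S 3846 (.A 1 985 (.X 0 1 .n (.N .e)) (.S 3823 (.A 0 947 (.X 0 1 .n (.N (.x 5))) (.X 0 1 .n (.x 5))) (.A 0 947 .e (.X 0 1 .n (.x 5))))) (.X 0 1 .n (.N .e)))))) (.N (.X 0 4 .n (.A 0 903 (.A 0 854 (.S 3800 (.A 2 979 (.N .e) .e) .e) (.S 3800 (.A 0 878 .e .e) (.A 0 878 .e (.A 2 979 (.N .e) .e)))) (.A 0 951 (.A 0 927 (.A 2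 979 (.N (.S 3800 (.A 0 915 .e (.S 3754 (.x 5) (.S 3777 (.A 2 968 (.N .e) (.x 5)) .e))) .e)) .e) (.A 2 979 (.N (.A 0 939 (.S 3800 (.S 3754 (.x 5) (.A 2 968 (.N (.S 3777 (.x 5) .e)) (.x 5))) .e) (.S 3800 (.x 5) (.S 3846 (.S 3823 (.A 2 968 (.N .e) (.x 5)) .e) .e)))) (.A 1 979 (.S 3800 (.x 5) (.A 0 939 (.S 3846 (.A 2 989 (.A 1 968 .e (.x 5)) (.x 5)) .e) (.A 1 968 (.S 3846 (.x 5) .e) (.A 2 989 (.S 3846 (.x 5) .e) (.x 5))))) .e))) (.S 3800 (.x 5) (.S 3846 (.A 0 975 (.A 1 979 (.A 2 979 (.A 0 963 (.A 2 968 (.N .e) (.x 5)) (.N (.x 5))) (.x 5)) (.N (.x 5))) (.N .n)) (.A 0 975 (.A 2 979 (.N (.A 0 963 .e (.N .e))) (.A 1 979 (.A 0 963 (.A 1 968 (.A 2 989 .e (.x 5)) (.x 5)) (.N (.x 5))) (.x 5))) (.N (.x 5)))))))))) (.A 0 958 (.A 1 970 (.X 2 0 (.S 3800 (.A 1 937 (.N .e)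 .e) .e) .n) (.A 0 937 (.S 3800 (.A 1 985 (.S 3754 (.A 0 926 .e (.X 1 0 .e .n)) .e) (.A 0 926 (.S 3754 (.S 3731 (.X 1 0 (.x 4) .n) (.X 1 0 (.N (.x 4)) .n)) .e) (.S 3754 (.X 1 0 (.A 0 919 .e (.x 4)) .n) (.S 3777 (.X 1 0 (.x 4) .n) .e)))) .e) (.S 3800 (.X 1 0 (.A 0 918 .e (.A 0 938 (.A 2 985 .e (.A 1 947 (.A 0 928 .e (.x 4)) (.x 4))) (.N (.x 4)))) .n) (.A 1 985 (.X 1 0 (.N .e) .n) (.X 1 0 (.S 3846 (.A 0 943 (.A 1 947 .e .e) (.N (.x 4))) .e) .n))))) (.N (.X 1 0 (.A 0 916 .e (.S 3800 (.A 0 958 (.A 2 979 (.N .e) (.x 4)) (.x 4)) (.A 0 958 (.A 2 979 (.N .e) (.A 1 979 (.A 0 937 .e (.A 2 989 .e (.A 1 968 (.A 0 947 .e (.A 2 994 .e (.x 4))) (.x 4)))) .e)) (.S 3846 (.x 4) (.A 2 979 (.N (.A 2 968 (.N .e) (.A 1 968 (.N .e) .e))) (.x 4)))))) .n))))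
def cM6 : Ct := (.S 4505 (.S 4087 (.X 52 52 (.S 3990 (.X 33 33 (.S 3941 (.X 0 1 .n (.A 0 967 (.A 0 950 (.A 1 982 .e (.N .e)) (.A 1 982 (.A 2 986 .e (.A 0 958 .e (.A 1 973 .e (.S 3917 (.x 5) .e)))) (.N (.A 0 958 .e (.x 5))))) (.N (.A 1 983 (.N (.A 2 986 (.S 3917 (.A 1 975 (.N .e) (.N (.x 5))) .e) (.x 5))) (.N (.x 5)))))) (.A 0 982 (.X 0 1 .n (.N .e)) (.N (.A 0 991 (.A 1 991 (.S 3965 (.X 0 1 .n (.x 5)) (.X 0 1 .n (.N (.x 5)))) (.S 3965 (.X 0 1 .n (.x 5)) (.X 0 1 .n (.x 5)))) (.N (.S 3965 (.X 0 1 .n (.x 5)) (.X 0 1 .n (.x 5)))))))) (.S 3941 (.X 1 0 (.A 0 967 (.A 1 982 (.A 2 986 .e (.A 0 950 .e (.A 1 973 .e .e))) (.N .e)) (.N (.A 0 983 (.A 1 983 (.A 2 986 (.S 3917 (.A 0 975 .e (.N (.x 4))) .e) (.x 4)) (.N (.x 4))) (.N (.x 4))))) .n) (.X 1 0 (.A 0 979 (.A 1 982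 .e (.N .e)) (.N (.S 3965 (.x 4) (.A 0 989 (.A 2 989 (.N .e) (.x 4)) (.N (.x 4)))))) .n))) (.A 0 986 .e (.S 4038 (.S 4014 (.X 33 33 (.N (.X 0 1 .n (.x 5))) (.N (.X 1 0 (.x 4) .n))) (.X 33 33 (.N (.X 0 1 .n (.N (.x 5)))) (.N (.X 1 0 (.N (.x 4)) .n)))) .e))) (.S 3990 (.X 33 29 (.S 3941 (.X 1 0 (.A 0 967 .e (.N (.A 1 983 (.N .e) (.N (.x 3))))) .n) (.X 1 0 (.A 0 979 (.A 1 982 .e (.N .e)) (.N (.S 3965 (.x 3) (.A 2 989 (.N .e) (.x 3))))) .n)) .n) (.X 34 32 (.N (.A 0 989 .e (.N (.S 4038 (.S 4014 (.X 1 0 (.x 3) .n) (.X 1 0 (.N (.x 3)) .n)) .e)))) .n))) (.S 4291 (.S 4189 .e (.X 59 53 .e .n)) (.X 72 76 (.A 0 918 (.A 0 877 (.A 0 856 .e .e) (.A 0 897 .e .e)) .e) (.A 0 900 (.A 0 850 (.A 0 825 (.S 4398 .e .e) .e) (.A 0 875 .e .e)) (.A 0 950 .e .e))))) (.S 4966 (.S 4730 (.X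 77 77 (.A 0 909 (.A 0 863 .e (.A 0 886 .e .e)) (.A 0 954 (.A 0 931 (.S 4617 .e .e) .e) .e)) (.A 0 909 (.A 0 863 (.A 0 840 (.S 4617 .e .e) (.S 4617 .e (.X 62 66 .n .e))) (.A 0 886 (.S 4617 .e .e) .e)) (.A 0 954 .e .e))) (.X 77 77 (.A 0 922 (.A 0 883 .e (.A 0 902 (.S 4848 .e .e) .e)) (.A 0 961 (.X 52 51 (.N .e) .n) (.S 4848 .e (.A 0 980 .e .e)))) (.A 0 922 (.A 0 883 (.X 66 66 (.N .e) (.N .e)) (.S 4848 .e .e)) (.A 0 961 (.S 4848 .e .e) (.S 4848 .e .e))))) (.S 5214 (.X 77 77 (.A 0 935 (.A 0 902 (.X 63 66 .n (.N .e)) (.X 58 66 .n .e)) (.A 0 967 .e .e)) (.A 0 935 (.A 0 902 (.X 63 66 .n (.N .e)) (.S 5090 (.A 0 918 .e .e) .e)) (.A 0 967 .e .e))) (.X 77 77 (.A 0 948 (.A 0 922 .e (.X 60 66 .n .e)) (.A 0 974 .e .e)) (.A 0 948 (.A 0 922 .e .e) (.A 0 974 .e (.S 5344 .e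 .e)))))))
def cM7 : Ct := (.S 3893 (.S 1971 (.S 1403 (.S 1157 (.S 1050 .e (.S 1102 .e .e)) (.S 1274 (.S 1214 .e .e) (.S 1337 .e .e))) (.S 1623 (.S 1473 .e (.S 1546 .e .e)) (.S 1789 (.S 1704 .e (.X 1 0 (.A 0 889 .e .n) .n)) (.S 1878 (.X 1 0 (.A 0 938 .e .n) .n) (.X 3 0 (.A 0 979 (.A 0 943 .e .e) .n) .n))))) (.S 2769 (.S 2280 (.S 2069 (.S 2020 (.S 1995 (.X 1 0 (.A 0 985 .e .n) .n) (.X 1 0 (.A 0 991 .e .n) .n)) (.S 2044 (.X 1 0 (.A 0 997 .n .n) .n) .e)) (.S 2172 .e .e)) (.S 2513 (.S 2394 .e .e) (.S 2638 .e (.X 36 22 (.A 0 934 .e (.A 0 967 .e .e)) .n)))) (.S 3204 (.S 2907 (.X 38 26 (.X 0 33 .n (.A 0 807 (.A 0 711 .e .e) .e)) .n) (.S 3052 (.X 45 30 (.A 0 925 (.A 0 888 .e (.A 0 906 .e .e)) (.X 0 33 .n (.A 0 834 (.A 0 751 .e .e) .e))) .n) (.X 51 52 (.A 0 914 (.A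 0 871 (.A 0 849 .e .e) (.A 0 892 (.S 3128 .e (.S 3166 .e (.A 0 881 .e (.S 3185 .e (.S 3194 .e (.A 0 886 .e .e)))))) (.A 0 903 .e (.X 17 33 .n (.A 0 843 (.A 0 808 .e .e) .e))))) (.X 33 33 (.A 0 859 (.A 0 789 (.A 1 957 (.A 0 754 (.S 3128 .e .e) (.S 3128 .e (.X 0 1 .n (.N .e)))) (.A 0 754 .e .e)) (.A 1 957 (.A 0 824 (.S 3128 .e .e) .e) .e)) .e) (.A 0 859 (.A 0 789 (.A 1 957 (.A 0 754 .e .e) .e) (.A 1 957 (.A 0 824 .e .e) .e)) (.A 0 929 .e (.N .e))))) (.A 0 909 (.A 0 864 (.X 33 26 (.X 1 0 .e .n) .n) .e) .e)))) (.S 3532 cM2 (.S 3708 (.X 52 52 cM4 (.X 33 19 (.A 0 934 (.X 1 0 .e .n) (.N (.X 1 0 (.A 0 982 (.A 0 851 .e (.A 0 916 .e (.S 3620 (.x 3) (.A 2 967 (.N (.A 0 941 .e (.N (.x 3)))) (.x 3))))) .n) .n))) .n)) (.X 52 52 cM5 (.X 34 24 (.A 0 953 (.X 1 0 .e .n) (.N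 (.X 1 0 (.A 0 916 .e (.S 3800 (.A 0 958 (.A 2 976 (.N .e) .e) (.N (.x 3))) (.A 0 958 (.A 1 976 .e (.N .e)) (.N (.S 3846 (.x 3) (.A 1 979 (.N (.A 2 979 (.A 1 968 (.N .e) (.N .e)) (.x 3))) (.N (.x 3)))))))) .n))) .n))))))) (.S 7698 (.S 5474 cM6 (.S 6335 (.S 5747 (.X 76 71 (.A 0 967 .e .e) .e) (.S 6034 (.S 5890 .e (.S 5962 (.X 79 77 .e .e) (.X 79 77 .e .e))) (.X 86 77 (.A 0 945 .e (.A 0 972 .e (.A 0 986 .e .e))) (.X 64 66 .n (.N .e))))) (.S 6983 (.S 6651 (.X 86 86 (.A 0 958 .e (.A 0 979 .e .e)) (.X 77 68 (.A 0 955 (.X 66 61 .e .n) (.N .e)) .n)) (.X 86 86 (.A 0 971 (.A 0 957 .e (.A 0 964 .e (.S 6817 (.X 76 74 .e .n) (.X 77 76 (.N .e) .n)))) (.A 0 985 (.S 6817 (.S 6734 .e .e) (.S 6900 (.X 77 76 .e (.N .e)) (.X 77 76 (.A 0 977 .e (.N .e)) (.N .e)))) (.A 0 992 .e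 (.A 0 996 .e (.A 0 998 .e (.A 0 999 .e (.S 6817 .e (.X 77 77 .e (.X 66 62 (.N .e) .n))))))))) (.A 0 971 (.X 77 74 (.N (.S 6817 .e .e)) .n) (.X 77 71 (.X 66 60 (.A 0 970 .e (.N .e)) .n) .n)))) (.S 7332 (.X 86 86 (.A 0 985 (.X 77 76 (.N .e) .n) (.A 0 992 (.S 7157 (.X 77 76 (.S 7070 .e .e) (.N .e)) .e) (.A 0 996 (.S 7157 (.X 77 75 .e .n) (.X 77 76 (.N .e) .n)) (.A 0 998 (.S 7157 (.X 77 74 .e .n) (.X 77 76 .e .n)) (.A 0 999 (.S 7157 (.X 77 74 .e .n) (.X 77 76 .e .n)) (.X 77 77 (.S 7157 (.A 0 987 .e .e) .e) (.X 66 64 (.N .e) .n))))))) (.X 77 74 (.N (.X 66 64 (.N .e) .n)) .n)) (.S 7515 (.X 86 86 .e .e) .e))))) (.S 10828 (.S 8910 (.S 8082 (.S 7890 .e (.S 7986 .e (.X 97 90 .e .n))) (.S 8486 (.X 97 91 (.A 0 969 .e .e) .n) .e)) (.S 9822 (.S 9355 .e .e) (.S 10313 (.S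 10067 .e .e) .e))) (.S 12533 (.S 11369 .e (.S 11937 .e .e)) (.S 13816 (.S 13159 .e .e) (.S 14506 .e .e))))))
def cM : Ct := cM7
theorem cM_ok : chk par tab 20576 1280 206 xs cM 1000 15020 [.m 1000 1000] = true := by decide +kernel

/-- exceptional boxes for the star regime, p in [5048, 5142] / 2 ^ 14 -/
def ys1 : List XC := [⟨[.m 200 250, .p 1000 1000], 312207⟩, ⟨[.m 250 300, .p 1000 1000], 301207⟩, ⟨[.m 300 350, .p 1000 1000], 288059⟩, ⟨[.m 350 400, .p 1000 1000], 273303⟩, ⟨[.m 400 450, .p 1000 1000], 256935⟩, ⟨[.m 450 500, .p 1000 1000], 239763⟩, ⟨[.m 500 550, .p 1000 1000], 225543⟩, ⟨[.m 550 600, .p 1000 1000], 235470⟩, ⟨[.m 600 650, .p 1000 1000], 244593⟩, ⟨[.m 650 700, .p 1000 1000], 260960⟩, ⟨[.m 700 750, .p 1000 1000], 282424⟩, ⟨[.m 750 800, .p 1000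 1000], 311402⟩, ⟨[.m 800 850, .p 1000 1000], 343600⟩, ⟨[.m 850 900, .p 1000 1000], 350844⟩, ⟨[.m 900 950, .p 1000 1000], 357284⟩, ⟨[.m 950 1000, .p 1000 1000], 362918⟩, ⟨[.m 1000 1050, .p 1000 1000], 367748⟩, ⟨[.m 380 550, .m 450 600, .p 1000 1000], 60000⟩]
def cS1_1 : Ct := (.X 127 127 (.A 0 640 (.A 0 320 (.A 0 160 (.A 0 80 (.A 0 40 (.S 1388 (.A 0 20 (.S 1378 (.A 0 10 (.A 0 5 (.S 1373 .e .e) (.S 1373 (.S 1370 .e .e) .e)) (.S 1373 (.A 0 15 .e (.A 0 17 .e .e)) .e)) (.A 0 10 .e .e)) (.A 0 30 (.S 1378 (.S 1373 (.A 0 25 .e (.S 1370 .e .e)) .e) .e) (.S 1378 (.A 0 35 (.S 1373 (.S 1370 .e .e) .e) .e) .e))) (.A 0 20 (.S 1398 .e .e) .e)) (.S 1388 (.A 0 60 (.S 1378 (.A 0 50 (.S 1373 (.A 0 45 .e (.A 0 47 .e .e)) .e) (.S 1373 (.A 0 55 .e (.A 0 57 .e .e)) .e)) (.A 0 50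 .e .e)) (.A 0 70 (.S 1378 (.S 1373 (.A 0 65 .e .e) .e) .e) (.S 1378 (.A 0 75 (.S 1373 .e .e) (.S 1373 (.A 0 77 .e .e) .e)) .e))) (.A 0 60 (.A 0 50 .e .e) .e))) (.A 0 120 (.A 0 100 (.S 1388 (.A 0 90 (.S 1378 (.S 1373 (.A 0 85 .e .e) .e) .e) (.S 1378 (.A 0 95 (.S 1373 .e .e) .e) .e)) (.A 0 90 .e .e)) (.S 1388 (.A 0 110 (.S 1378 (.A 0 105 .e .e) .e) (.S 1378 (.A 0 115 .e .e) .e)) .e)) (.A 0 140 (.S 1388 (.A 0 130 (.S 1378 (.A 0 125 .e .e) .e) (.S 1378 (.S 1373 .e .e) .e)) .e) (.S 1388 (.A 0 150 (.S 1378 (.A 0 145 .e .e) .e) (.S 1378 .e .e)) .e)))) (.A 0 240 (.A 0 200 (.A 0 180 (.S 1388 (.A 0 170 .e .e) .e) (.S 1388 (.A 0 190 .e .e) .e)) (.A 0 220 .e .e)) (.A 0 280 .e .e))) (.A 0 480 .e .e)) .n) (.A 0 640 (.A 0 300 (.A 0 200 (.A 0 100 (.A 0 50 (.A 0 25 (.S 1388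 (.A 0 12 (.S 1378 (.A 0 6 (.S 1373 (.A 0 3 .e .e) .e) (.S 1373 (.S 1370 (.A 0 9 .e .e) .e) .e)) .e) (.S 1378 (.A 0 18 .e (.S 1373 (.S 1370 (.A 0 21 .e .e) .e) .e)) .e)) (.A 0 12 .e .e)) (.S 1388 (.A 0 37 (.S 1378 (.A 0 31 (.S 1373 .e .e) .e) .e) (.S 1378 (.A 0 43 (.S 1373 (.S 1370 .e .e) .e) (.S 1373 .e .e)) .e)) (.A 0 37 .e .e))) (.A 0 75 (.S 1388 (.A 0 62 (.S 1378 (.A 0 56 .e (.S 1373 .e .e)) .e) (.S 1378 (.A 0 68 .e (.S 1373 (.A 0 71 .e .e) .e)) .e)) (.A 0 62 .e .e)) (.S 1388 (.A 0 87 (.S 1378 (.A 0 81 .e (.S 1373 .e .e)) .e) (.S 1378 (.A 0 93 .e (.S 1373 (.A 0 96 .e .e) .e)) .e)) (.A 0 87 .e .e)))) (.A 0 150 (.A 0 125 (.S 1388 (.A 0 112 (.S 1378 (.A 0 106 .e .e) .e) (.S 1378 .e .e)) (.A 0 112 .e .e)) (.S 1388 (.A 0 137 .e .e) .e)) (.A 0 175 (.S 1388 .e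 .e) .e))) (.A 0 250 (.S 1388 (.A 0 225 .e .e) .e) (.S 1388 .e .e))) (.A 0 450 (.A 0 350 (.S 1378 (.x 2) .e) (.A 0 400 (.S 1395 (.x 3) (.A 0 375 .e (.x 3))) (.x 4))) (.A 0 550 (.A 0 500 (.x 5) (.x 6)) (.A 0 600 (.x 7) (.x 8))))) .n))
def cS1_2 : Ct := (.A 0 483 (.X 1 2 .n (.N (.x 17))) (.S 1484 (.A 0 491 (.S 1479 (.A 0 487 (.S 1477 (.A 0 485 (.X 0 1 .n (.N (.x 17))) (.S 1476 (.A 0 486 (.X 0 1 .n (.x 17)) (.X 0 1 .n (.x 17))) (.A 0 486 (.X 0 1 .n (.x 17)) (.X 0 1 .n (.x 17))))) (.X 0 1 .n (.N (.x 17)))) (.S 1476 (.x 5) (.A 0 489 (.S 1477 (.A 0 488 (.X 0 1 .n (.x 17)) (.x 5)) (.S 1478 (.A 0 488 (.X 0 1 .n (.x 17)) (.X 0 1 .n (.x 17))) (.A 0 488 (.X 0 1 .n (.x 17)) (.X 0 1 .n (.x 17))))) (.S 1478 (.x 5) (.A 0 490 (.X 0 1 .n (.x 17)) (.x 5)))))) (.A 0 487 (.X 0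 1 .n (.N (.x 17))) (.S 1481 (.A 0 489 (.X 0 1 .n (.x 17)) (.S 1480 (.A 0 490 (.X 0 1 .n (.x 17)) (.X 0 1 .n (.A 0 490 (.x 17) .n))) (.A 0 490 (.X 0 1 .n (.x 17)) (.X 0 1 .n (.x 17))))) (.X 0 1 .n (.x 17))))) (.S 1480 (.x 5) (.A 0 495 (.S 1482 (.A 0 493 (.S 1481 (.A 0 492 (.X 0 1 .n (.A 0 490 (.x 17) .n)) (.x 5)) (.A 0 492 (.X 0 1 .n (.A 0 491 (.x 17) .n)) (.X 0 1 .n (.A 0 490 (.x 17) .n)))) (.x 5)) (.A 0 493 (.S 1483 (.A 0 492 (.X 0 1 .n (.x 17)) (.X 0 1 .n (.A 0 491 (.x 17) .n))) (.X 0 1 .n (.x 17))) (.S 1483 (.A 0 494 (.X 0 1 .n (.A 0 490 (.x 17) .n)) (.x 5)) (.A 0 494 (.X 0 1 .n (.A 0 491 (.x 17) .n)) (.X 0 1 .n (.A 0 490 (.x 17) .n)))))) (.x 5)))) (.A 0 491 (.X 0 1 .n (.N (.x 17))) (.S 1489 (.A 0 495 (.S 1486 (.A 0 493 (.X 0 1 .n (.x 17)) (.S 1485 (.A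 0 494 (.X 0 1 .n (.A 0 492 (.x 17) .n)) (.X 0 1 .n (.A 0 491 (.x 17) .n))) (.X 0 1 .n (.A 0 493 (.x 17) .n)))) (.X 0 1 .n (.x 17))) (.S 1486 (.A 0 497 (.S 1485 (.A 0 496 (.X 0 1 .n (.A 0 490 (.x 17) .n)) (.x 5)) (.A 0 496 (.X 0 1 .n (.A 0 491 (.x 17) .n)) (.X 0 1 .n (.A 0 490 (.x 17) .n)))) (.x 5)) (.A 0 497 (.S 1487 (.A 0 496 (.X 0 1 .n (.A 0 492 (.x 17) .n)) (.X 0 1 .n (.A 0 491 (.x 17) .n))) (.X 0 1 .n (.A 0 494 (.x 17) .n))) (.S 1487 (.A 0 498 (.X 0 1 .n (.A 0 490 (.x 17) .n)) (.x 5)) (.A 0 498 (.S 1488 (.X 0 1 .n (.A 0 491 (.x 17) .n)) (.X 0 1 .n (.A 0 492 (.x 17) .n))) (.S 1488 (.A 0 499 (.X 0 1 .n (.A 0 490 (.x 17) .n)) (.x 5)) (.A 0 499 (.X 0 1 .n (.A 0 491 (.x 17) .n)) (.X 0 1 .n (.A 0 490 (.x 17) .n))))))))) (.A 0 495 (.X 0 1 .n (.x 17)) (.S 1491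 (.A 0 497 (.X 0 1 .n (.A 0 496 (.x 17) .n)) (.A 0 498 (.X 0 1 .n (.A 0 494 (.x 17) .n)) (.S 1490 (.A 0 499 (.X 0 1 .n (.A 0 492 (.x 17) .n)) (.X 0 1 .n (.A 0 491 (.x 17) .n))) (.X 0 1 .n (.A 0 493 (.x 17) .n))))) (.X 0 1 .n (.A 0 499 (.x 17) .n))))))))
def cS1_3 : Ct := (.A 0 512 (.S 1484 (.A 0 506 (.S 1479 (.A 0 503 (.S 1477 (.A 0 501 (.S 1476 (.X 0 1 .n (.A 0 476 (.x 17) .n)) (.X 0 1 .n (.A 0 477 (.x 17) .n))) (.S 1476 (.x 6) (.A 0 502 (.X 0 1 .n (.A 0 476 (.x 17) .n)) (.x 6)))) (.A 0 501 (.X 0 1 .n (.A 0 479 (.x 17) .n)) (.A 0 502 (.S 1478 (.X 0 1 .n (.A 0 477 (.x 17) .n)) (.X 0 1 .n (.A 0 478 (.x 17) .n))) (.S 1478 (.X 0 1 .n (.A 0 476 (.x 17) .n)) (.X 0 1 .n (.A 0 477 (.x 17) .n)))))) (.S 1478 (.x 6) (.A 0 504 (.X 0 1 .n (.A 0 476 (.x 17) .n)) (.x 6))))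 (.A 0 503 (.X 0 1 .n (.A 0 484 (.x 17) .n)) (.S 1481 (.A 0 504 (.S 1480 (.X 0 1 .n (.A 0 477 (.x 17) .n)) (.X 0 1 .n (.A 0 478 (.x 17) .n))) (.A 0 505 (.S 1480 (.X 0 1 .n (.A 0 476 (.x 17) .n)) (.X 0 1 .n (.A 0 477 (.x 17) .n))) (.S 1480 (.x 6) (.X 0 1 .n (.A 0 476 (.x 17) .n))))) (.A 0 504 (.X 0 1 .n (.A 0 481 (.x 17) .n)) (.S 1482 (.A 0 505 (.X 0 1 .n (.A 0 478 (.x 17) .n)) (.X 0 1 .n (.A 0 477 (.x 17) .n))) (.X 0 1 .n (.A 0 480 (.x 17) .n))))))) (.S 1481 (.x 6) (.A 0 509 (.A 0 507 (.S 1482 (.X 0 1 .n (.A 0 476 (.x 17) .n)) (.S 1483 (.X 0 1 .n (.A 0 477 (.x 17) .n)) (.X 0 1 .n (.A 0 478 (.x 17) .n)))) (.S 1482 (.x 6) (.A 0 508 (.S 1483 (.X 0 1 .n (.A 0 476 (.x 17) .n)) (.X 0 1 .n (.A 0 477 (.x 17) .n))) (.S 1483 (.x 6) (.X 0 1 .n (.A 0 476 (.x 17) .n))))))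 (.x 6)))) (.A 0 506 (.X 0 1 .n (.A 0 494 (.x 17) .n)) (.S 1489 (.A 0 509 (.S 1486 (.A 0 507 (.X 0 1 .n (.A 0 480 (.x 17) .n)) (.A 0 508 (.X 0 1 .n (.A 0 479 (.x 17) .n)) (.S 1485 (.X 0 1 .n (.A 0 477 (.x 17) .n)) (.X 0 1 .n (.A 0 478 (.x 17) .n))))) (.X 0 1 .n (.A 0 483 (.x 17) .n))) (.S 1486 (.A 0 510 (.S 1485 (.X 0 1 .n (.A 0 476 (.x 17) .n)) (.X 0 1 .n (.A 0 477 (.x 17) .n))) (.S 1485 (.x 6) (.A 0 511 (.X 0 1 .n (.A 0 476 (.x 17) .n)) (.x 6)))) (.A 0 510 (.X 0 1 .n (.A 0 480 (.x 17) .n)) (.S 1487 (.A 0 511 (.X 0 1 .n (.A 0 477 (.x 17) .n)) (.X 0 1 .n (.A 0 476 (.x 17) .n))) (.A 0 511 (.X 0 1 .n (.A 0 479 (.x 17) .n)) (.S 1488 (.X 0 1 .n (.A 0 477 (.x 17) .n)) (.X 0 1 .n (.A 0 478 (.x 17) .n)))))))) (.X 0 1 .n (.A 0 488 (.x 17) .n))))) (.S 1487 (.x 6) (.A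 0 518 (.S 1490 (.A 0 515 (.A 0 513 (.S 1488 (.X 0 1 .n (.A 0 476 (.x 17) .n)) (.S 1489 (.X 0 1 .n (.A 0 477 (.x 17) .n)) (.X 0 1 .n (.A 0 478 (.x 17) .n)))) (.S 1488 (.x 6) (.A 0 514 (.S 1489 (.X 0 1 .n (.A 0 476 (.x 17) .n)) (.X 0 1 .n (.A 0 477 (.x 17) .n))) (.S 1489 (.x 6) (.X 0 1 .n (.A 0 476 (.x 17) .n)))))) (.x 6)) (.A 0 515 (.S 1492 (.A 0 513 (.X 0 1 .n (.A 0 480 (.x 17) .n)) (.A 0 514 (.X 0 1 .n (.A 0 479 (.x 17) .n)) (.S 1491 (.X 0 1 .n (.A 0 477 (.x 17) .n)) (.X 0 1 .n (.A 0 478 (.x 17) .n))))) (.X 0 1 .n (.A 0 482 (.x 17) .n))) (.S 1492 (.A 0 516 (.S 1491 (.X 0 1 .n (.A 0 476 (.x 17) .n)) (.X 0 1 .n (.A 0 477 (.x 17) .n))) (.S 1491 (.x 6) (.A 0 517 (.X 0 1 .n (.A 0 476 (.x 17) .n)) (.x 6)))) (.A 0 516 (.X 0 1 .n (.A 0 479 (.x 17) .n)) (.A 0 517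 (.S 1493 (.X 0 1 .n (.A 0 477 (.x 17) .n)) (.X 0 1 .n (.A 0 478 (.x 17) .n))) (.S 1493 (.X 0 1 .n (.A 0 476 (.x 17) .n)) (.X 0 1 .n (.A 0 477 (.x 17) .n)))))))) (.S 1493 (.x 6) (.A 0 521 (.A 0 519 (.X 0 1 .n (.A 0 476 (.x 17) .n)) (.x 6)) (.x 6))))))
def cS1_4 : Ct := (.A 0 537 (.S 1510 (.A 0 531 (.S 1505 (.A 0 528 (.S 1503 (.A 0 526 (.S 1502 (.X 0 1 .n (.A 0 476 (.x 17) .n)) (.X 0 1 .n (.A 0 477 (.x 17) .n))) (.S 1502 (.x 6) (.A 0 527 (.X 0 1 .n (.A 0 476 (.x 17) .n)) (.x 6)))) (.A 0 526 (.X 0 1 .n (.A 0 479 (.x 17) .n)) (.A 0 527 (.S 1504 (.X 0 1 .n (.A 0 477 (.x 17) .n)) (.X 0 1 .n (.A 0 478 (.x 17) .n))) (.S 1504 (.X 0 1 .n (.A 0 476 (.x 17) .n)) (.X 0 1 .n (.A 0 477 (.x 17) .n)))))) (.S 1504 (.x 6) (.A 0 529 (.X 0 1 .n (.A 0 476 (.x 17) .n)) (.x 6))))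 (.A 0 528 (.X 0 1 .n (.A 0 485 (.x 17) .n)) (.S 1507 (.A 0 529 (.S 1506 (.X 0 1 .n (.A 0 477 (.x 17) .n)) (.X 0 1 .n (.A 0 478 (.x 17) .n))) (.A 0 530 (.S 1506 (.X 0 1 .n (.A 0 476 (.x 17) .n)) (.X 0 1 .n (.A 0 477 (.x 17) .n))) (.S 1506 (.x 6) (.X 0 1 .n (.A 0 476 (.x 17) .n))))) (.A 0 529 (.X 0 1 .n (.A 0 481 (.x 17) .n)) (.S 1508 (.A 0 530 (.X 0 1 .n (.A 0 478 (.x 17) .n)) (.X 0 1 .n (.A 0 477 (.x 17) .n))) (.X 0 1 .n (.A 0 480 (.x 17) .n))))))) (.S 1507 (.x 6) (.A 0 534 (.A 0 532 (.S 1508 (.X 0 1 .n (.A 0 476 (.x 17) .n)) (.S 1509 (.X 0 1 .n (.A 0 477 (.x 17) .n)) (.X 0 1 .n (.A 0 478 (.x 17) .n)))) (.S 1508 (.x 6) (.A 0 533 (.S 1509 (.X 0 1 .n (.A 0 476 (.x 17) .n)) (.X 0 1 .n (.A 0 477 (.x 17) .n))) (.S 1509 (.x 6) (.X 0 1 .n (.A 0 476 (.x 17) .n))))))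 (.x 6)))) (.A 0 531 (.X 0 1 .n (.A 0 494 (.x 17) .n)) (.S 1514 (.A 0 534 (.S 1512 (.A 0 532 (.X 0 1 .n (.A 0 480 (.x 17) .n)) (.A 0 533 (.X 0 1 .n (.A 0 479 (.x 17) .n)) (.S 1511 (.X 0 1 .n (.A 0 477 (.x 17) .n)) (.X 0 1 .n (.A 0 478 (.x 17) .n))))) (.X 0 1 .n (.A 0 482 (.x 17) .n))) (.S 1512 (.A 0 535 (.S 1511 (.X 0 1 .n (.A 0 476 (.x 17) .n)) (.X 0 1 .n (.A 0 477 (.x 17) .n))) (.S 1511 (.x 6) (.A 0 536 (.X 0 1 .n (.A 0 476 (.x 17) .n)) (.x 6)))) (.A 0 535 (.X 0 1 .n (.A 0 479 (.x 17) .n)) (.A 0 536 (.S 1513 (.X 0 1 .n (.A 0 477 (.x 17) .n)) (.X 0 1 .n (.A 0 478 (.x 17) .n))) (.S 1513 (.X 0 1 .n (.A 0 476 (.x 17) .n)) (.X 0 1 .n (.A 0 477 (.x 17) .n))))))) (.X 0 1 .n (.A 0 487 (.x 17) .n))))) (.S 1513 (.x 6) (.A 0 543 (.A 0 540 (.S 1516 (.A 0 538 (.S 1514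 (.X 0 1 .n (.A 0 476 (.x 17) .n)) (.S 1515 (.X 0 1 .n (.A 0 477 (.x 17) .n)) (.X 0 1 .n (.A 0 478 (.x 17) .n)))) (.S 1514 (.x 6) (.A 0 539 (.S 1515 (.X 0 1 .n (.A 0 475 (.x 17) .n)) (.X 0 1 .n (.A 0 476 (.x 17) .n))) (.x 6)))) (.A 0 538 (.X 0 1 .n (.A 0 481 (.x 17) .n)) (.S 1517 (.A 0 539 (.X 0 1 .n (.A 0 478 (.x 17) .n)) (.X 0 1 .n (.A 0 476 (.x 17) .n))) (.A 0 539 (.X 0 1 .n (.A 0 480 (.x 17) .n)) (.S 1518 (.X 0 1 .n (.A 0 477 (.x 17) .n)) (.X 0 1 .n (.A 0 478 (.x 17) .n))))))) (.S 1517 (.x 6) (.A 0 541 (.S 1518 (.X 0 1 .n (.A 0 476 (.x 17) .n)) (.X 0 1 .n (.A 0 477 (.x 17) .n))) (.S 1518 (.x 6) (.A 0 542 (.X 0 1 .n (.A 0 476 (.x 17) .n)) (.x 6)))))) (.x 6))))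
def cS1_5 : Ct := (.S 1528 (.A 0 543 (.S 1523 (.A 0 540 (.X 0 1 .n (.A 0 485 (.x 17) .n)) (.S 1521 (.A 0 541 (.X 0 1 .n (.A 0 479 (.x 17) .n)) (.A 0 542 (.S 1520 (.X 0 1 .n (.A 0 477 (.x 17) .n)) (.X 0 1 .n (.A 0 478 (.x 17) .n))) (.S 1520 (.X 0 1 .n (.A 0 476 (.x 17) .n)) (.X 0 1 .n (.A 0 477 (.x 17) .n))))) (.X 0 1 .n (.A 0 482 (.x 17) .n)))) (.X 0 1 .n (.A 0 490 (.x 17) .n))) (.S 1520 (.x 6) (.S 1524 (.A 0 546 (.S 1522 (.A 0 544 (.S 1521 (.X 0 1 .n (.A 0 476 (.x 17) .n)) (.X 0 1 .n (.A 0 477 (.x 17) .n))) (.S 1521 (.x 6) (.A 0 545 (.X 0 1 .n (.A 0 476 (.x 17) .n)) (.x 6)))) (.A 0 544 (.X 0 1 .n (.A 0 479 (.x 17) .n)) (.A 0 545 (.S 1523 (.X 0 1 .n (.A 0 477 (.x 17) .n)) (.X 0 1 .n (.A 0 478 (.x 17) .n))) (.S 1523 (.X 0 1 .n (.A 0 476 (.x 17) .n)) (.X 0 1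 .n (.A 0 477 (.x 17) .n)))))) (.S 1523 (.x 6) (.A 0 548 (.A 0 547 (.X 0 1 .n (.A 0 476 (.x 17) .n)) (.x 6)) (.x 6)))) (.A 0 546 (.X 0 1 .n (.A 0 483 (.x 17) .n)) (.A 0 548 (.S 1526 (.A 0 547 (.S 1525 (.X 0 1 .n (.A 0 477 (.x 17) .n)) (.X 0 1 .n (.A 0 478 (.x 17) .n))) (.S 1525 (.X 0 1 .n (.A 0 476 (.x 17) .n)) (.X 0 1 .n (.A 0 477 (.x 17) .n)))) (.X 0 1 .n (.A 0 480 (.x 17) .n))) (.S 1525 (.x 6) (.S 1526 (.A 0 549 (.X 0 1 .n (.A 0 476 (.x 17) .n)) (.x 6)) (.A 0 549 (.S 1527 (.X 0 1 .n (.A 0 477 (.x 17) .n)) (.X 0 1 .n (.A 0 478 (.x 17) .n))) (.S 1527 (.X 0 1 .n (.A 0 475 (.x 17) .n)) (.X 0 1 .n (.A 0 477 (.x 17) .n))))))))))) (.A 0 543 (.X 0 1 .n (.A 0 500 (.x 17) .n)) (.S 1533 (.A 0 546 (.X 0 1 .n (.A 0 489 (.x 17) .n)) (.S 1530 (.A 0 548 (.X 0 1 .n (.A 0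 482 (.x 17) .n)) (.A 0 549 (.X 0 1 .n (.A 0 480 (.x 17) .n)) (.S 1529 (.X 0 1 .n (.A 0 478 (.x 17) .n)) (.X 0 1 .n (.A 0 479 (.x 17) .n))))) (.A 0 548 (.X 0 1 .n (.A 0 485 (.x 17) .n)) (.S 1531 (.A 0 549 (.X 0 1 .n (.A 0 481 (.x 17) .n)) (.X 0 1 .n (.A 0 480 (.x 17) .n))) (.A 0 549 (.X 0 1 .n (.A 0 483 (.x 17) .n)) (.S 1532 (.X 0 1 .n (.A 0 481 (.x 17) .n)) (.X 0 1 .n (.A 0 482 (.x 17) .n)))))))) (.A 0 546 (.X 0 1 .n (.A 0 494 (.x 17) .n)) (.S 1535 (.A 0 548 (.X 0 1 .n (.A 0 487 (.x 17) .n)) (.A 0 549 (.X 0 1 .n (.A 0 485 (.x 17) .n)) (.S 1534 (.X 0 1 .n (.A 0 483 (.x 17) .n)) (.X 0 1 .n (.A 0 484 (.x 17) .n))))) (.A 0 548 (.X 0 1 .n (.A 0 490 (.x 17) .n)) (.S 1536 (.A 0 549 (.X 0 1 .n (.A 0 486 (.x 17) .n)) (.X 0 1 .n (.A 0 485 (.x 17) .n))) (.A 0 549 (.X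 0 1 .n (.A 0 488 (.x 17) .n)) (.S 1537 (.X 0 1 .n (.A 0 486 (.x 17) .n)) (.X 0 1 .n (.A 0 487 (.x 17) .n)))))))))))
def cS1_6 : Ct := (.A 0 562 (.S 1549 (.A 0 556 (.S 1543 (.A 0 553 (.S 1540 (.A 0 551 (.S 1539 (.X 0 1 .n (.A 0 487 (.x 17) .n)) (.X 0 1 .n (.A 0 488 (.x 17) .n))) (.S 1539 (.x 7) (.A 0 552 (.X 0 1 .n (.A 0 487 (.x 17) .n)) (.x 7)))) (.A 0 551 (.X 0 1 .n (.A 0 491 (.x 17) .n)) (.S 1541 (.A 0 552 (.X 0 1 .n (.A 0 488 (.x 17) .n)) (.X 0 1 .n (.A 0 487 (.x 17) .n))) (.A 0 552 (.X 0 1 .n (.A 0 490 (.x 17) .n)) (.S 1542 (.X 0 1 .n (.A 0 488 (.x 17) .n)) (.X 0 1 .n (.A 0 489 (.x 17) .n))))))) (.S 1541 (.x 7) (.A 0 554 (.S 1542 (.X 0 1 .n (.A 0 486 (.x 17) .n)) (.X 0 1 .n (.A 0 488 (.x 17) .n))) (.S 1542 (.x 7) (.A 0 555 (.X 0 1 .n (.A 0 486 (.x 17)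 .n)) (.x 7)))))) (.A 0 553 (.X 0 1 .n (.A 0 497 (.x 17) .n)) (.S 1546 (.A 0 554 (.X 0 1 .n (.A 0 491 (.x 17) .n)) (.S 1544 (.A 0 555 (.X 0 1 .n (.A 0 487 (.x 17) .n)) (.X 0 1 .n (.A 0 486 (.x 17) .n))) (.A 0 555 (.X 0 1 .n (.A 0 489 (.x 17) .n)) (.S 1545 (.X 0 1 .n (.A 0 487 (.x 17) .n)) (.X 0 1 .n (.A 0 488 (.x 17) .n)))))) (.X 0 1 .n (.A 0 494 (.x 17) .n))))) (.S 1544 (.x 7) (.A 0 559 (.S 1546 (.A 0 557 (.S 1545 (.X 0 1 .n (.A 0 486 (.x 17) .n)) (.X 0 1 .n (.A 0 487 (.x 17) .n))) (.S 1545 (.x 7) (.A 0 558 (.X 0 1 .n (.A 0 486 (.x 17) .n)) (.x 7)))) (.A 0 557 (.X 0 1 .n (.A 0 490 (.x 17) .n)) (.S 1547 (.A 0 558 (.X 0 1 .n (.A 0 487 (.x 17) .n)) (.X 0 1 .n (.A 0 486 (.x 17) .n))) (.A 0 558 (.X 0 1 .n (.A 0 489 (.x 17) .n)) (.S 1548 (.X 0 1 .n (.A 0 487 (.x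 17) .n)) (.X 0 1 .n (.A 0 488 (.x 17) .n))))))) (.S 1547 (.x 7) (.A 0 560 (.S 1548 (.X 0 1 .n (.A 0 486 (.x 17) .n)) (.X 0 1 .n (.A 0 487 (.x 17) .n))) (.x 7)))))) (.A 0 556 (.X 0 1 .n (.A 0 509 (.x 17) .n)) (.S 1555 (.A 0 559 (.X 0 1 .n (.A 0 496 (.x 17) .n)) (.S 1552 (.A 0 560 (.S 1550 (.X 0 1 .n (.A 0 488 (.x 17) .n)) (.X 0 1 .n (.A 0 490 (.x 17) .n))) (.S 1550 (.A 0 561 (.X 0 1 .n (.A 0 487 (.x 17) .n)) (.x 7)) (.A 0 561 (.S 1551 (.X 0 1 .n (.A 0 488 (.x 17) .n)) (.X 0 1 .n (.A 0 489 (.x 17) .n))) (.S 1551 (.X 0 1 .n (.A 0 487 (.x 17) .n)) (.X 0 1 .n (.A 0 488 (.x 17) .n)))))) (.X 0 1 .n (.A 0 493 (.x 17) .n)))) (.X 0 1 .n (.A 0 502 (.x 17) .n))))) (.S 1551 (.x 7) (.A 0 568 (.S 1556 (.A 0 565 (.S 1553 (.A 0 563 (.S 1552 (.X 0 1 .n (.A 0 486 (.x 17) .n))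 (.X 0 1 .n (.A 0 487 (.x 17) .n))) (.S 1552 (.x 7) (.A 0 564 (.X 0 1 .n (.A 0 486 (.x 17) .n)) (.x 7)))) (.A 0 563 (.X 0 1 .n (.A 0 491 (.x 17) .n)) (.S 1554 (.A 0 564 (.X 0 1 .n (.A 0 487 (.x 17) .n)) (.X 0 1 .n (.A 0 486 (.x 17) .n))) (.A 0 564 (.X 0 1 .n (.A 0 489 (.x 17) .n)) (.S 1555 (.X 0 1 .n (.A 0 487 (.x 17) .n)) (.X 0 1 .n (.A 0 488 (.x 17) .n))))))) (.S 1554 (.x 7) (.A 0 566 (.S 1555 (.X 0 1 .n (.A 0 486 (.x 17) .n)) (.X 0 1 .n (.A 0 487 (.x 17) .n))) (.S 1555 (.x 7) (.A 0 567 (.X 0 1 .n (.A 0 486 (.x 17) .n)) (.x 7)))))) (.A 0 565 (.X 0 1 .n (.A 0 496 (.x 17) .n)) (.S 1558 (.A 0 566 (.X 0 1 .n (.A 0 489 (.x 17) .n)) (.A 0 567 (.S 1557 (.X 0 1 .n (.A 0 487 (.x 17) .n)) (.X 0 1 .n (.A 0 488 (.x 17) .n))) (.S 1557 (.X 0 1 .n (.A 0 486 (.x 17) .n))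 (.X 0 1 .n (.A 0 487 (.x 17) .n))))) (.A 0 566 (.X 0 1 .n (.A 0 492 (.x 17) .n)) (.S 1559 (.A 0 567 (.X 0 1 .n (.A 0 489 (.x 17) .n)) (.X 0 1 .n (.A 0 488 (.x 17) .n))) (.X 0 1 .n (.A 0 491 (.x 17) .n))))))) (.S 1558 (.x 7) (.A 0 571 (.A 0 569 (.S 1559 (.X 0 1 .n (.A 0 487 (.x 17) .n)) (.S 1560 (.X 0 1 .n (.A 0 488 (.x 17) .n)) (.X 0 1 .n (.A 0 489 (.x 17) .n)))) (.S 1559 (.x 7) (.A 0 570 (.S 1560 (.X 0 1 .n (.A 0 487 (.x 17) .n)) (.X 0 1 .n (.A 0 488 (.x 17) .n))) (.S 1560 (.x 7) (.X 0 1 .n (.A 0 486 (.x 17) .n)))))) (.x 7))))))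
def cS1_7 : Ct := (.S 1538 (.X 0 33 .n (.A 0 734 (.A 0 600 (.A 0 550 (.A 0 500 (.X 0 1 .n (.x 17)) (.A 0 525 (.S 1516 (.A 0 512 (.X 0 1 .n (.x 17)) (.S 1505 (.A 0 518 (.X 0 1 .n (.A 0 493 (.x 17) .n)) (.S 1499 (.A 0 521 (.S 1496 (.A 0 519 (.S 1495 (.X 0 1 .n (.A 0 477 (.x 17) .n)) (.X 0 1 .n (.A 0 478 (.x 17) .n))) (.A 0 520 (.S 1495 (.X 0 1 .n (.A 0 476 (.x 17) .n)) (.X 0 1 .n (.A 0 477 (.x 17) .n))) (.S 1495 (.x 6) (.X 0 1 .n (.A 0 475 (.x 17) .n))))) (.A 0 519 (.X 0 1 .n (.A 0 481 (.x 17) .n)) (.S 1497 (.A 0 520 (.X 0 1 .n (.A 0 478 (.x 17) .n)) (.X 0 1 .n (.A 0 477 (.x 17) .n))) (.X 0 1 .n (.A 0 480 (.x 17) .n))))) (.S 1496 (.x 6) (.A 0 523 (.S 1497 (.A 0 522 (.X 0 1 .n (.A 0 475 (.x 17) .n)) (.x 6)) (.A 0 522 (.S 1498 (.X 0 1 .n (.A 0 476 (.x 17) .n))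 (.X 0 1 .n (.A 0 478 (.x 17) .n))) (.S 1498 (.x 6) (.X 0 1 .n (.A 0 476 (.x 17) .n))))) (.x 6)))) (.A 0 521 (.X 0 1 .n (.A 0 487 (.x 17) .n)) (.S 1502 (.A 0 523 (.S 1500 (.A 0 522 (.X 0 1 .n (.A 0 479 (.x 17) .n)) (.X 0 1 .n (.A 0 477 (.x 17) .n))) (.X 0 1 .n (.A 0 481 (.x 17) .n))) (.S 1500 (.A 0 524 (.X 0 1 .n (.A 0 476 (.x 17) .n)) (.x 6)) (.A 0 524 (.S 1501 (.X 0 1 .n (.A 0 477 (.x 17) .n)) (.X 0 1 .n (.A 0 478 (.x 17) .n))) (.S 1501 (.X 0 1 .n (.A 0 476 (.x 17) .n)) (.X 0 1 .n (.A 0 477 (.x 17) .n)))))) (.X 0 1 .n (.A 0 484 (.x 17) .n)))))) (.X 0 1 .n (.A 0 504 (.x 17) .n)))) (.X 0 1 .n (.x 17))) (.S 1501 (.x 6) (.S 1519 cS1_4 (.A 0 537 (.X 0 1 .n (.A 0 513 (.x 17) .n)) cS1_5))))) (.S 1537 (.x 7) (.A 0 575 (.A 0 562 (.A 0 556 (.A 0 553 (.A 0 551 (.X 0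 1 .n (.A 0 486 (.x 17) .n)) (.x 7)) (.x 7)) (.x 7)) (.x 7)) (.x 7)))) (.A 0 650 (.x 8) (.A 0 700 (.x 9) (.x 10)))) .n)) (.X 0 33 .n (.A 0 765 (.A 0 650 (.A 0 600 (.A 0 550 (.A 0 532 (.S 1561 (.X 0 1 .n (.x 17)) (.X 0 1 .n (.N (.x 17)))) (.S 1561 (.X 0 1 .n (.A 0 528 (.x 17) .n)) (.X 0 1 .n (.A 0 549 (.x 17) .n)))) (.A 0 575 (.S 1561 cS1_6 (.A 0 562 (.X 0 1 .n (.A 0 531 (.x 17) .n)) (.S 1572 (.A 0 568 (.X 0 1 .n (.A 0 507 (.x 17) .n)) (.S 1566 (.A 0 571 (.S 1563 (.A 0 569 (.X 0 1 .n (.A 0 491 (.x 17) .n)) (.A 0 570 (.X 0 1 .n (.A 0 490 (.x 17) .n)) (.S 1562 (.X 0 1 .n (.A 0 487 (.x 17) .n)) (.X 0 1 .n (.A 0 488 (.x 17) .n))))) (.X 0 1 .n (.A 0 494 (.x 17) .n))) (.S 1563 (.A 0 573 (.A 0 572 (.S 1562 (.X 0 1 .n (.A 0 486 (.x 17) .n)) (.X 0 1 .n (.A 0 487 (.x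 17) .n))) (.S 1562 (.x 7) (.X 0 1 .n (.A 0 486 (.x 17) .n)))) (.x 7)) (.A 0 573 (.S 1564 (.A 0 572 (.X 0 1 .n (.A 0 488 (.x 17) .n)) (.X 0 1 .n (.A 0 487 (.x 17) .n))) (.X 0 1 .n (.A 0 490 (.x 17) .n))) (.S 1564 (.A 0 574 (.X 0 1 .n (.A 0 486 (.x 17) .n)) (.x 7)) (.A 0 574 .e .e))))) (.A 0 571 .e (.S 1569 (.A 0 573 .e .e) .e)))) (.X 0 1 .n (.A 0 518 (.x 17) .n))))) (.S 1566 (.x 7) (.A 0 587 (.S 1575 (.A 0 581 (.S 1570 (.A 0 578 (.S 1568 (.A 0 576 .e .e) .e) (.S 1569 (.x 7) .e)) .e) (.S 1573 (.x 7) .e)) (.A 0 581 .e .e)) (.S 1580 (.x 7) .e))))) (.x 8)) (.A 0 700 (.x 9) (.A 0 750 (.x 10) (.x 11)))) .n)))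
def cS1_8 : Ct := (.S 1679 (.S 1494 (.S 1409 cS1_1 (.S 1451 (.X 0 37 .n (.A 0 672 (.A 0 550 (.A 0 500 (.A 0 450 (.S 1440 (.x 4) .e) (.S 1442 (.x 5) (.A 0 475 (.A 0 462 .e (.x 5)) (.x 5)))) (.x 6)) (.A 0 600 (.x 7) (.A 0 650 (.x 8) (.x 9)))) .n)) (.X 0 34 .n (.A 0 703 (.A 0 600 (.A 0 550 (.A 0 500 (.S 1456 (.x 5) (.S 1475 (.A 0 483 (.S 1465 (.A 0 474 (.S 1460 (.A 0 470 .e (.x 5)) .e) (.S 1464 (.x 5) (.A 0 478 .e (.x 5)))) (.A 0 474 .e (.S 1470 (.A 0 478 .e (.S 1468 (.x 5) (.A 0 480 .e (.x 5)))) (.A 0 478 .e (.S 1472 (.A 0 480 .e (.A 0 481 .e (.S 1471 (.x 5) (.A 0 482 .e (.x 5))))) .e))))) (.S 1473 (.x 5) (.A 0 491 (.A 0 487 (.A 0 485 (.S 1474 (.A 0 484 (.X 0 1 .n (.x 17)) (.x 5)) (.A 0 484 .e (.X 0 1 .n (.x 17)))) (.S 1474 (.x 5) (.A 0 486 (.X 0 1 .n (.x 17))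 (.x 5)))) (.x 5)) (.x 5)))) cS1_2)) (.S 1475 (.x 6) (.A 0 525 cS1_3 (.x 6)))) (.x 7)) (.A 0 650 (.x 8) (.A 0 700 (.x 9) (.x 10)))) .n)))) (.S 1584 cS1_7 (.S 1631 (.X 0 48 .n (.A 0 795 (.A 0 650 (.A 0 550 (.A 0 500 .e (.X 0 1 .n (.N .e))) (.A 0 600 (.A 0 575 (.X 0 1 .n (.A 0 574 .e .n)) (.S 1607 (.A 0 587 .e .e) .e)) (.S 1604 (.x 8) (.A 0 625 .e (.x 8))))) (.A 0 700 (.x 9) (.A 0 750 (.x 10) (.x 11)))) .n)) (.X 0 52 .n (.A 0 825 (.A 0 650 (.A 0 550 (.A 0 500 (.X 33 19 (.A 0 466 .e (.N .e)) .n) (.A 0 525 .e .e)) (.A 0 600 (.A 0 575 (.S 1655 .e .e) (.A 0 587 .e .e)) (.A 0 625 (.S 1655 .e (.A 0 612 .e .e)) (.S 1635 (.x 8) (.S 1657 (.A 0 637 .e .e) (.A 0 637 .e .e)))))) (.A 0 750 (.A 0 700 (.x 9) (.x 10)) (.A 0 800 (.x 11) (.x 12)))) .n))))) (.S 1833 (.S 1729 (.X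 52 52 (.A 0 854 (.A 0 662 (.A 0 566 (.A 0 518 (.A 0 494 (.A 0 482 .e .e) .e) .e) .e) .e) .n) (.A 0 854 (.A 0 650 (.A 0 550 (.A 0 500 (.A 0 485 (.S 1704 .e .e) .e) (.A 0 525 (.S 1704 .e .e) (.S 1704 .e .e))) (.A 0 600 (.A 0 575 .e .e) (.A 0 625 .e .e))) (.A 0 750 (.A 0 700 (.S 1683 (.x 9) (.A 0 675 .e .e)) (.x 10)) (.A 0 800 (.x 11) (.A 0 850 (.x 12) (.x 13))))) .n)) (.S 1780 (.S 1754 (.X 0 6 .n (.A 0 869 (.A 0 850 (.x 12) (.x 13)) .n)) (.X 0 5 .n (.A 0 884 (.A 0 850 (.x 12) (.x 13)) .n))) (.X 0 25 .n (.A 0 913 (.A 0 800 (.A 0 750 .e (.x 11)) (.A 0 850 (.x 12) (.A 0 900 (.x 13) (.x 14)))) .n)))) (.S 1943 (.S 1887 (.X 33 33 (.A 0 942 .e .n) (.A 0 942 (.A 0 800 (.A 0 700 .e .e) (.A 0 850 (.x 12) (.A 0 900 (.x 13) (.x 14)))) .n)) (.X 33 33 (.A 0 972 .e .n) (.A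 0 972 (.A 0 800 (.A 0 750 .e .e) (.A 0 900 (.A 0 850 (.x 12) (.x 13)) (.A 0 950 (.x 14) (.x 15)))) .n))) (.S 2001 (.S 1972 (.X 34 2 (.A 0 986 .e .n) (.A 0 986 (.x 15) .n)) (.X 34 1 .e (.x 15))) (.X 35 1 .e (.x 15))))))
def cS1_ : Ct := cS1_8
theorem cS1_ok : chk par tab 20576 1280 0 ys1 cS1_ 1368 2060 [.p 1000 1000] = true := by decide +kernel

end Pool.Agent.MMS15.TC7
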