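import Pool.Agent.MMS15.TabG
import Pool.Agent.MMS15.TC7
import Pool.Agent.MMS15.TH7

/-!
# MMS15/TabP7: k / n in [5048, 5142] / 2 ^ 14 (glue, complete)
-/

set_option autoImplicit false
set_option maxRecDepth 100000

namespace Pool.Agent.MMS15

open Pool.Agent.MMS14

theorem rowP7 : ∀ r, RowP (rowv TP7.rows r) := rowP_all TP7.len_ok TP7.ends_ok

theorem goodP7 : Good TP7.par.P0 TP7.par.P1 TP7.rows :=
  good_of_checks TP7.par_ok TP7.len_ok TP7.cells1 TP7.cells2 TP7.cells3 TP7.cells4 TP7.cells5 TP7.ends_ok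
    (base_ok (by decide) TP7.err_ok)

theorem vmP7 : ∀ v ∈ TP7.vm, v ≤ 65536 := all_le' (by decide +kernel)

theorem lowP7 : LowOk TP7.par.P0 TP7.par.P1 TP7.vm :=
  low_of (q := TP7.par) (rows := TP7.rows) (vm := TP7.vm) TP7.par_ok TP7.len_ok rowP7 goodP7 TP7.min_ok (by decide +kernel) vmP7

theorem nonP7 : NonP ((((5048 : ℕ) : ℝ) + 0.1) / 16384) ((((5142 : ℕ) : ℝ) - 0.1) / 16384) :=
  nonstar_cell (q := TP7.par) (rows := TP7.rows) (tab := TP7.tab) (vm := TP7.vm) (xs := TC7.xs) (tgt := 20576) TP7.par_ok TP7.len_ok rowP7 goodP7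
    TP7.look_ok lowP7 vmP7 (by decide +kernel) (v00 := 64704) (v0 := 13787) (g := 20093) (by decide +kernel) (by decide +kernel) TP7.pair_ok (by decide +kernel)
    (by decide) (by decide) (xs_t4) rfl TC7.cP_ok TC7.cM_ok (top_of' rfl TP7.top_ok)

theorem lowH7 : StarLowOk TH7.par.P0 TH7.par.P1 TH7.vs :=
  starLow_of (q := TH7.par) (rows := TH7.rows) (tab := TH7.tab) (vs := TH7.vs) TH7.par_ok TH7.len_ok
    (Pool.Agent.MMS14.rowP_all TH7.len_ok TH7.ends_ok)
    (Pool.Agent.MMS14.good_of_checks TH7.par_ok TH7.len_ok TH7.cells1 TH7.cells2 TH7.cells3 TH7.cells4 TH7.cells5 TH7.ends_ok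
      (Pool.Agent.MMS14.base_ok (by decide) TH7.err_ok)) TH7.look_ok TH7.min_ok (by decide +kernel) (all_le' (by decide +kernel))

theorem starP7 : StarP (((5048 : ℕ) : ℝ) / 16384) (((5142 : ℕ) : ℝ) / 16384) :=
  star_cell (q := TP7.par) (rows := TP7.rows) (tab := TP7.tab) TP7.par_ok TP7.len_ok rowP7 goodP7 TP7.look_ok
    (Q0 := 7293) (Q1 := 7496) (vs := TH7.vs) (ws := TH7.ws) lowH7 TH7.vs_len (all_le' (by decide +kernel)) TH7.w_ok (by decide) (by decide) (by decide) TH7.a1_ok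
    (b1_of TH7.b1_ok) ⟨TH7.b1s.getLast (by decide), List.getLast_mem _, by decide +kernel, by decide +kernel, by decide +kernel⟩ (b2_of TH7.b2_ok)
    (ys := TC7.ys1) rfl (tgt := 20576) (sa := 1368) (A := 5048) (B := 5142) (by decide) TC7.cS1_ok (by decide) (by decide) (by decide) (by decide) (by decide) (by decide) (by decide)

end Pool.Agent.MMS15
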