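import Pool.Agent.MMS15.TP8
import Pool.Agent.MMS15.TC4

/-!
# MMS15/TC8: certificate trees for p in [5140, 5205] / 2 ^ 14

Everything is checked by kernel evaluation.
-/

set_option autoImplicit false
set_option maxRecDepth 100000

namespace Pool.Agent.MMS15.TC8

open Pool.Agent.MMS15.TP8 (par tab)

/-- exceptional boxes (last atom first) -/
def xs : List XC := [⟨[.m 800 1000, .m 800 1000, .m 1000 1000], 150000⟩, ⟨[.m 880 1000, .m 880 1000, .p 880 1000, .p 1000 1000], 100000⟩, ⟨[.m 880 1000, .p 880 1000, .m 880 1000, .p 1000 1000], 100000⟩, ⟨[.p 880 1000, .m 880 1000, .m 880 1000, .p 1000 1000], 100000⟩, ⟨[.p 880 1000, .p 880 1000, .m 880 1000, .m 1000 1000], 100000⟩, ⟨[.p 880 1000, .m 880 1000, .p 880 1000, .m 1000 1000], 100000⟩, ⟨[.m 880 1000, .p 880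 1000, .p 880 1000, .m 1000 1000], 100000⟩]
def cP1 : Ct := (.S 3192 (.X 69 53 (.A 0 840 (.A 0 760 (.A 0 720 .e (.A 0 740 .e .e)) (.A 0 800 (.A 0 780 .e .e) (.S 3116 .e .e))) (.A 0 920 (.A 0 880 (.S 3116 .e .e) .e) (.A 0 960 .e .e))) (.A 0 904 (.X 35 35 (.A 0 831 (.A 1 856 (.A 0 795 .e (.A 1 832 (.S 3116 (.A 0 813 .e (.N .e)) .e) (.S 3116 .e .e))) (.A 0 795 (.A 1 880 .e .e) (.S 3116 .e .e))) (.N (.A 1 867 (.N .e) .e))) (.A 0 831 (.A 1 856 (.A 0 795 .e (.S 3116 .e (.A 1 832 .e .e))) (.A 0 795 .e .e)) (.N (.A 1 867 (.N (.S 3116 .e .e)) .e)))) (.A 0 952 (.X 10 33 .n (.A 0 849 .e .e)) (.X 33 33 (.A 0 857 (.A 0 786 (.A 0 750 .e .e) .e) .e) (.A 0 857 (.A 0 786 .e .e) .e))))) (.X 77 53 (.A 0 823 (.A 0 735 (.A 0 691 (.X 66 66 .e .e) (.X 66 52 (.A 0 683 .e (.A 0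 709 .e (.N .e))) .n)) (.A 0 779 (.A 0 757 (.X 66 48 (.A 0 691 .e .e) .n) (.X 66 44 (.A 0 699 (.A 0 659 .e (.S 3271 .e .e)) .e) .n)) .e)) (.A 0 911 (.A 0 867 (.A 0 845 (.S 3271 .e .e) (.S 3271 .e (.X 32 34 .n (.N .e)))) (.S 3271 (.A 0 889 (.S 3231 .e (.A 0 878 .e .e)) .e) (.A 0 889 (.X 29 34 .n (.A 0 866 (.X 0 3 .n .e) (.X 0 3 .n .e))) (.X 25 34 .n (.A 0 872 (.A 0 852 .e .e) (.A 0 891 .e (.N .e))))))) (.A 0 955 (.A 0 933 (.S 3271 .e (.X 22 33 .n (.A 0 881 (.A 0 855 .e .e) .e))) (.S 3271 .e (.A 0 944 (.X 20 33 .n (.A 0 883 (.A 0 853 .e .e) .e)) .e))) .e))) (.X 52 35 (.A 0 812 (.A 0 718 (.A 1 918 .e (.X 33 12 .e .n)) (.A 1 918 (.X 2 3 .n (.N .e)) (.A 0 765 .e (.A 1 959 (.S 3271 .e .e) (.S 3271 .e .e))))) (.A 0 906 (.A 1 918 (.A 1 877 (.N (.A 0 844 (.S 3271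 (.A 0 828 .e (.A 1 857 .e .e)) .e) (.N (.A 1 860 (.N (.S 3271 (.S 3231 .e .e) .e)) (.S 3271 .e (.X 0 4 .n .e)))))) (.A 0 859 (.S 3271 (.A 0 835 .e .e) (.A 0 835 .e (.X 0 3 .n .e))) (.X 0 5 .n (.A 0 797 (.A 0 742 .e .e) .e)))) (.A 0 859 (.A 1 959 (.S 3271 .e (.A 1 938 (.A 0 835 .e .e) .e)) .e) (.A 1 959 (.S 3271 .e (.A 0 882 .e .e)) .e))) (.N .e))) (.A 0 874 (.A 1 918 (.A 0 811 (.A 1 877 .e .e) (.A 1 877 (.A 0 842 (.S 3271 (.A 0 826 .e (.A 1 857 .e .e)) .e) (.N (.S 3271 .e (.A 1 859 (.N .e) (.A 0 858 .e .e))))) (.A 0 842 (.A 1 897 .e .e) (.S 3271 .e (.A 1 897 (.A 0 858 .e .e) .e))))) (.A 0 811 (.A 1 959 .e .e) (.A 0 842 .e .e))) (.N (.A 1 937 (.N (.A 1 905 (.N (.S 3271 .e (.A 1 889 (.N .e) .e))) .e)) (.A 0 937 (.A 1 968 .e .e) .e)))))))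
def cP2 : Ct := (.S 2628 (.S 2271 (.S 2163 (.X 66 66 (.A 0 753 (.A 0 629 (.A 0 567 (.A 0 536 (.X 46 52 .n .e) .e) .e) (.A 0 691 .e .e)) .e) (.A 0 753 (.A 0 629 (.A 0 567 (.A 0 536 (.X 52 46 .e .n) .e) (.A 0 598 .e .e)) (.A 0 691 .e .e)) (.A 0 876 .e (.A 0 938 .e .e)))) (.X 65 77 (.A 0 768 (.A 0 652 (.A 0 594 (.A 0 565 (.S 2217 (.A 0 550 .e .e) .e) .e) .e) (.A 0 710 .e .e)) (.A 0 884 .e .e)) (.A 0 735 (.A 0 603 (.A 0 537 (.A 0 504 (.X 59 66 .n .e) (.A 0 520 .e (.S 2217 .e .e))) (.A 0 570 .e .e)) (.A 0 669 .e .e)) (.A 0 867 .e .e)))) (.S 2384 (.X 60 11 (.A 0 795 (.A 0 693 (.A 0 642 .e .e) (.A 0 744 .e (.A 0 769 .e .e))) (.A 0 897 (.A 0 846 .e .e) .e)) .n) (.S 2503 (.X 59 15 (.A 0 812 (.A 0 718 (.A 0 671 (.A 0 647 (.S 2443 .e .e) (.A 0 659 .e .e)) (.A 0 694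 (.X 29 45 .n .e) .e)) (.A 0 765 .e (.A 0 788 (.S 2443 .e .e) .e))) (.A 0 906 (.A 0 859 (.A 0 835 (.S 2443 .e .e) (.S 2443 .e .e)) .e) .e)) .n) (.X 57 18 (.A 0 832 (.A 0 748 (.A 0 706 (.X 32 52 .n (.A 0 639 .e .e)) (.X 24 53 .n (.A 0 648 .e .e))) (.A 0 790 (.X 15 52 .n (.A 0 663 .e .e)) (.A 0 811 .e .e))) (.A 0 916 (.A 0 874 (.A 0 853 .e .e) (.A 0 895 .e .e)) .e)) .n)))) (.S 2896 (.S 2759 (.X 56 22 (.A 0 849 (.X 66 66 (.A 0 658 (.A 0 563 (.A 1 773 .e (.A 1 811 .e .e)) (.A 1 773 .e .e)) (.A 0 753 .e (.N .e))) (.A 0 658 (.A 0 563 (.A 1 773 .e .e) (.A 1 773 (.A 0 610 .e .e) .e)) (.A 0 753 (.A 1 773 (.A 0 705 (.A 1 735 .e .e) (.N .e)) .e) (.N .e)))) (.A 0 924 (.A 0 886 .e (.S 2693 .e (.A 0 905 .e .e))) (.A 0 962 .e .e))) .n) (.X 54 55 (.A 0 871 (.A 0 806 (.X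 24 52 .n (.A 0 704 .e (.A 0 755 (.A 1 774 .e .e) (.N .e)))) (.A 0 838 (.X 19 52 .n (.A 0 712 .e .e)) .e)) (.A 0 935 (.X 1 0 (.N .e) .n) (.X 3 0 (.A 0 921 .e .e) .n))) (.A 0 867 (.A 0 800 (.A 0 767 .e (.A 0 783 .e .e)) .e) (.A 0 933 .e (.X 0 33 .n (.A 0 805 .e .e)))))) (.S 3040 (.X 59 54 (.A 0 865 (.A 0 797 .e (.A 0 831 (.S 2968 (.A 0 814 .e (.S 2932 .e .e)) .e) .e)) (.A 0 932 .e (.X 1 0 (.N .e) .n))) (.A 0 885 (.A 0 827 (.S 2968 (.X 26 36 .n (.A 0 787 .e (.N .e))) (.A 0 798 (.X 34 36 .n (.N .e)) (.X 29 35 .n .e))) (.X 16 35 .n (.A 0 804 .e .e))) (.A 0 942 .e (.X 0 33 .n (.A 0 831 .e .e))))) cP1)))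
def cP3 : Ct := (.X 77 53 (.A 0 835 (.A 0 752 (.X 74 66 (.A 0 677 (.A 0 640 .e .e) (.N (.A 1 714 (.N .e) .e))) (.A 1 711 (.N .e) .e)) (.A 0 793 (.X 66 46 (.A 0 719 (.A 0 682 .e .e) (.A 0 756 .e (.N .e))) .n) (.A 0 814 .e .e))) (.X 77 66 (.A 0 754 (.A 0 631 (.A 1 917 (.A 0 569 .e (.A 0 600 .e (.A 1 876 .e .e))) (.A 0 569 .e .e)) (.A 1 917 (.A 0 692 (.A 1 876 .e .e) .e) .e)) (.A 0 877 (.A 1 917 (.A 0 815 .e .e) .e) (.N .e))) (.A 0 785 (.A 0 678 (.A 1 917 (.A 1 876 (.A 0 624 .e .e) .e) (.A 1 958 .e (.A 0 624 .e .e))) (.A 1 917 (.A 0 731 (.X 33 28 (.N .e) .n) .e) (.A 0 731 .e .e))) (.A 0 892 (.A 1 917 (.A 0 838 (.A 1 876 .e .e) (.N (.A 1 877 (.N .e) (.A 0 865 (.X 0 3 .n (.N .e)) (.S 3434 (.A 1 897 (.X 0 4 .n .e) (.X 0 2 .n .e)) (.A 0 878 .e (.N (.X 0 3 .n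 .e)))))))) (.A 0 838 (.X 0 4 .n (.A 2 958 .e .e)) (.A 1 958 (.A 0 865 (.S 3434 (.X 0 1 .n .e) .e) (.X 0 3 .n (.A 0 832 .e .e))) (.X 0 2 .n (.A 0 810 .e (.A 1 865 (.N .e) .e)))))) (.N (.A 1 946 (.N (.S 3434 (.A 1 919 (.N (.X 0 2 .n (.A 0 918 .e .n))) (.A 0 919 (.X 0 1 .n (.A 0 891 .e .n)) .e)) (.A 0 919 (.A 1 919 (.X 0 3 .n .e) (.X 0 2 .n .e)) (.N (.X 0 1 .n (.A 0 911 (.A 0 852 .e .e) .n)))))) (.A 0 946 (.A 1 973 (.S 3434 .e (.X 0 2 .n (.A 0 910 (.A 0 831 .e (.A 0 870 .e .e)) .n))) (.S 3434 .e (.X 0 1 .n (.A 0 881 .e .n)))) .e))))))) (.X 52 34 (.A 0 832 (.A 0 748 (.X 35 16 .e .n) (.A 1 933 .e (.A 0 790 .e (.A 1 966 .e (.S 3434 (.A 0 811 .e .e) .e))))) (.A 0 916 (.A 1 933 (.A 1 900 (.N (.A 0 866 .e (.A 1 883 (.N (.S 3434 .e .e)) (.S 3434 (.X 0 3 .n .e) (.X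 0 2 .n (.N .e)))))) (.A 0 874 (.S 3434 (.X 0 2 .n .e) .e) (.S 3434 (.A 0 895 (.X 0 1 .n .e) (.X 0 1 .n (.A 0 908 .e .n))) (.X 0 4 .n (.A 0 865 (.A 0 840 .e .e) .e))))) (.A 0 874 (.A 1 966 (.S 3434 (.A 0 853 (.X 0 1 .n .e) (.A 1 949 (.S 3392 .e .e) .e)) (.X 0 1 .n (.N .e))) (.S 3434 (.A 0 853 .e .e) (.A 0 853 (.S 3476 (.A 0 842 .e .e) .e) (.A 1 983 (.S 3476 .e (.A 0 863 .e (.X 0 1 .n .e))) .e)))) (.A 1 966 (.S 3434 (.A 0 895 (.A 1 949 (.X 0 1 .n .e) .e) .e) (.A 0 895 (.A 1 949 (.X 0 2 .n .e) (.X 0 1 .n .e)) (.X 0 2 .n (.A 0 856 .e .e)))) (.S 3434 .e (.A 0 895 (.A 1 983 (.S 3476 .e (.A 0 884 (.A 1 974 (.X 0 1 .n .e) .e) .e)) .e) .e))))) (.N (.A 0 958 (.A 1 958 (.S 3434 .e (.A 0 937 (.X 0 2 .n (.A 0 917 (.A 0 849 .e .e) .n)) (.N .e))) .e) (.N .e))))) (.A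 0 903 (.A 1 933 (.A 0 854 (.X 5 1 (.N .e) .n) (.A 1 900 (.N (.A 0 877 (.S 3434 (.X 3 0 .e .n) .e) (.N (.S 3434 (.X 2 0 .e .n) (.X 3 0 .e .n))))) (.A 0 878 (.X 3 0 (.S 3434 .e .e) .n) (.S 3434 (.A 1 916 (.A 0 890 .e .e) .e) (.X 2 0 .e .n))))) (.A 0 854 (.A 1 966 (.S 3434 (.A 0 830 .e .e) .e) (.A 0 830 .e .e)) (.A 0 878 (.A 1 966 (.S 3434 .e (.X 1 0 .e .n)) .e) (.A 1 966 (.S 3434 .e (.A 1 949 (.A 0 890 (.X 1 0 .e .n) (.S 3476 .e (.X 1 0 .e .n))) (.A 0 890 (.S 3476 .e (.A 1 957 .e .e)) (.S 3476 .e (.A 1 957 .e .e))))) (.S 3434 .e (.A 1 983 (.A 0 890 .e .e) .e)))))) (.N (.A 1 951 (.N (.A 1 927 (.N (.S 3434 .e (.A 1 915 (.N (.X 1 0 .e .n)) (.A 0 915 (.X 1 0 .e .n) (.S 3476 .e (.A 1 921 (.N .e) .e)))))) (.A 0 927 (.S 3434 .e (.A 1 939 (.S 3476 .e (.A 0 915 .e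 .e)) (.A 0 915 .e .e))) (.S 3434 .e (.S 3476 .e (.A 1 939 (.N .e) .e)))))) (.A 0 951 (.A 1 975 (.A 0 927 (.S 3434 .e (.A 1 963 (.S 3476 .e (.A 0 915 .e .e)) .e)) .e) (.A 0 927 .e .e)) .e))))))
def cP4 : Ct := (.A 0 852 (.X 35 4 (.A 0 731 .e (.N .e)) .n) (.X 0 34 .n (.A 0 749 (.A 0 624 (.A 1 926 .e (.N (.A 0 561 .e .e))) (.A 1 926 .e (.N (.A 0 686 .e (.A 1 963 .e (.N (.S 3605 .e .e))))))) (.A 0 874 (.A 1 926 (.A 0 811 (.A 2 948 .e (.A 1 889 .e (.A 0 780 .e (.S 3605 (.A 2 974 .e .e) .e)))) (.A 2 948 (.A 1 889 .e (.S 3605 (.A 2 922 (.N .e) (.A 0 842 .e (.A 1 907 .e .e))) .e)) (.A 1 889 (.A 0 842 .e (.S 3605 (.A 2 974 .e (.S 3561 (.A 0 858 (.A 1 870 .e (.A 2 987 .e .e)) (.N (.A 1 873 (.N (.A 2 987 .e (.S 3539 (.A 0 865 .e (.N (.A 2 993 .e .e))) .e))) (.A 2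 987 (.S 3539 (.A 0 866 .e .e) .e) (.A 0 866 .e (.A 1 881 (.A 2 993 (.S 3539 .e .e) .e) .e)))))) .e)) .e)) (.A 0 842 (.S 3605 .e .e) (.A 2 974 (.S 3605 (.A 1 907 (.S 3561 (.A 0 858 .e .e) .e) .e) .e) .e))))) (.N (.A 0 811 (.S 3605 (.A 2 963 (.N .e) .e) (.A 2 963 (.N .e) (.A 1 963 .e .e))) (.A 1 963 (.S 3605 .e (.A 2 963 (.A 0 842 .e (.S 3649 .e .e)) .e)) (.N .e))))) (.N (.A 0 937 (.A 1 937 (.A 2 948 (.A 0 905 (.S 3605 (.A 1 905 (.A 2 922 .e .e) (.N .e)) (.A 1 905 .e (.N .e))) (.N (.S 3605 .e (.A 2 926 (.N .e) .e)))) (.S 3605 (.A 1 905 (.N (.A 2 974 (.A 1 889 (.N .e) .e) (.S 3561 (.A 1 889 (.N (.A 2 987 .e (.S 3539 .e (.A 0 881 (.A 1 881 (.A 2 993 .e .e) .e) (.N (.x 2)))))) (.A 0 889 (.A 2 987 (.A 0 881 (.A 1 897 .e .e) (.x 2)) .e) (.x 2))) (.A 1 889 (.N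 (.A 2 987 .e (.S 3583 (.A 0 881 (.A 2 993 .e (.A 1 881 .e (.S 3572 .e .e))) (.N (.x 2))) .e))) (.A 0 889 (.A 2 987 (.A 0 881 (.S 3583 (.A 1 897 .e .e) .e) (.x 2)) (.A 0 881 .e (.x 2))) (.x 2)))))) (.A 0 905 (.A 2 974 (.A 1 921 .e (.A 0 889 .e (.x 2))) (.A 1 921 (.A 0 889 .e (.x 2)) .e)) (.x 2))) (.A 1 905 (.N (.A 2 974 .e (.S 3649 (.A 1 889 (.N .e) (.A 0 889 (.A 2 987 .e (.A 1 897 .e .e)) (.A 2 987 (.A 0 897 .e (.N (.x 2))) (.x 2)))) .e))) (.A 0 905 (.A 2 974 (.S 3649 (.A 1 921 .e (.A 0 889 .e .e)) .e) (.A 1 921 (.A 0 889 .e (.A 2 987 (.S 3649 (.x 2) .e) (.A 1 913 (.A 0 897 .e (.x 2)) (.x 2)))) .e)) (.A 2 974 (.A 0 921 .e (.N (.x 2))) (.S 3649 (.x 2) (.A 1 921 (.N (.A 2 987 (.S 3671 (.x 2) .e) (.x 2))) (.x 2)))))))) (.N (.A 0 905 .e (.A 1 968 (.A 2 968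 .e (.x 2)) (.N .n))))) (.N (.x 2))))))))
def cP5 : Ct := (.A 0 890 (.A 1 948 (.S 3605 .e .e) (.S 3605 (.A 0 872 (.A 1 974 .e (.S 3561 .e .e)) (.A 1 974 (.X 1 0 .e .n) (.S 3561 (.A 1 987 (.A 0 881 .e .e) .e) (.A 1 987 (.X 1 0 (.N .e) .n) (.A 0 881 .e .e))))) (.X 3 1 (.N .e) .n))) (.A 1 948 (.A 1 922 (.N (.S 3605 (.X 2 0 .e .n) .e)) (.S 3605 (.A 0 908 (.X 2 0 .e .n) (.A 1 935 (.X 2 0 .e .n) (.S 3561 (.A 0 917 (.X 1 0 .e .n) (.A 1 941 (.S 3539 .e (.X 1 0 (.A 0 920 (.x 3) .n) .n)) .e)) (.X 1 0 .e .n)))) (.A 0 908 .e (.X 2 0 .e .n)))) (.X 2 0 (.A 0 860 (.A 2 974 (.A 0 827 .e (.S 3605 (.A 1 908 .e (.S 3561 (.A 0 843 .e (.A 2 961 (.A 1 917 .e .e) .e)) .e)) .e)) .e) (.A 2 974 (.S 3605 (.A 0 893 (.S 3561 (.A 1 908 (.A 0 876 (.A 2 961 .e (.A 1 899 (.S 3539 .e .e)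 (.S 3539 .e (.A 0 868 .e .e)))) (.A 2 961 .e (.A 1 899 .e .e))) (.A 0 876 (.A 2 961 (.A 1 917 (.S 3539 (.A 0 868 .e .e) .e) (.S 3539 .e (.A 0 868 .e (.A 2 954 .e .e)))) (.A 1 917 (.A 0 868 .e .e) .e)) (.A 2 961 (.A 1 917 (.A 0 884 (.S 3539 .e (.A 2 954 .e .e)) (.x 3)) .e) .e))) (.A 1 908 (.A 2 961 .e (.A 0 876 .e (.A 1 899 .e (.S 3583 (.A 0 884 .e (.x 3)) .e)))) (.A 0 876 (.A 2 961 .e (.S 3583 (.A 1 917 .e .e) .e)) (.A 2 961 (.S 3583 (.A 1 917 (.A 0 884 .e (.x 3)) (.A 0 884 (.A 1 922 .e (.A 2 954 .e .e)) (.x 3))) .e) (.S 3583 (.A 1 917 (.A 0 884 (.A 2 967 .e .e) (.x 3)) .e) (.A 1 917 (.A 0 884 .e (.x 3)) (.A 0 884 (.A 2 967 .e .e) (.x 3)))))))) (.N (.A 1 910 (.N .e) (.x 3)))) (.A 0 893 (.A 1 908 .e (.A 0 876 .e (.A 2 961 .e (.S 3649 (.S 3627 (.A 1 917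 .e (.A 0 884 .e (.x 3))) .e) .e)))) (.N (.A 1 910 (.N .e) (.A 0 910 (.S 3649 (.A 2 961 .e (.x 3)) .e) .e))))) (.S 3605 (.A 0 893 (.A 1 908 (.A 0 876 (.A 2 987 (.S 3561 .e (.A 1 899 .e (.A 2 980 .e .e))) .e) (.A 2 987 (.S 3561 .e (.A 1 899 (.S 3583 .e .e) (.S 3583 .e (.A 0 884 .e (.x 3))))) (.A 2 993 .e (.A 1 899 (.A 0 884 .e (.x 3)) .e)))) (.A 2 987 (.A 0 876 .e (.S 3561 .e (.S 3583 .e (.A 1 917 .e .e)))) .e)) (.N (.x 3))) (.A 0 893 (.A 1 908 (.S 3649 (.A 0 876 .e (.A 2 987 .e (.S 3627 (.A 1 899 (.A 0 884 .e (.x 3)) .e) .e))) .e) (.A 2 987 (.S 3649 (.A 0 876 .e (.A 1 917 (.A 0 884 .e (.x 3)) (.A 0 884 .e (.x 3)))) .e) .e)) (.N (.S 3649 (.A 1 910 (.N (.A 2 987 (.A 1 901 (.N .e) (.x 3)) (.x 3))) (.x 3)) (.A 0 910 (.A 2 987 (.A 1 910 .e (.A 1 918 .e (.A 0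 901 .e (.x 3)))) (.A 1 910 (.A 1 901 (.N .e) (.S 3671 (.x 3) .e)) (.x 3))) (.N (.x 3))))))))) .n)))
def cP6 : Ct := (.X 77 53 (.A 0 846 (.A 0 769 (.A 0 731 (.X 66 61 .e .n) (.X 66 54 (.A 0 725 .e .e) .n)) (.A 0 807 (.X 66 48 (.A 0 739 .e (.A 0 773 .e (.N .e))) .n) (.A 0 826 (.X 52 46 .e .n) (.X 52 42 .e .n)))) (.A 0 923 (.A 0 884 (.S 3605 .e (.A 0 865 (.X 52 42 .e .n) (.A 0 874 .e .e))) (.X 31 34 .n (.N (.S 3605 (.X 0 2 .n .e) .e)))) (.X 19 34 .n (.A 0 927 (.A 0 890 (.X 0 6 .n (.A 2 961 .e .e)) (.A 1 961 (.A 0 908 (.S 3605 (.X 0 2 .n .e) (.X 1 2 .n (.N .e))) (.S 3605 (.X 0 3 .n (.A 0 878 .e .e)) (.X 0 3 .n (.A 0 902 .e .e)))) (.S 3605 (.X 0 2 .n (.A 0 860 .e (.A 0 893 .e (.N (.x 1))))) (.X 0 2 .n (.A 0 886 .e (.A 0 906 .e (.N .e))))))) (.N (.A 1 963 (.N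 (.X 0 5 .n (.A 0 867 (.A 0 819 (.S 3605 .e .e) (.S 3605 .e (.A 0 843 .e (.A 2 945 (.N .e) .e)))) (.A 0 915 (.A 0 891 .e .e) (.A 0 939 .e (.N (.x 1))))))) (.A 0 963 (.S 3605 (.A 1 981 (.X 0 1 .n (.A 0 905 .e .n)) .e) (.X 0 3 .n (.A 0 952 (.A 0 874 (.A 0 835 .e .e) (.A 0 913 .e (.x 1))) .n))) (.S 3605 .e (.A 0 981 (.A 1 981 (.X 0 1 .n (.A 0 916 .e .n)) .e) (.N .e)))))))))) (.X 52 34 cP4 (.A 0 927 cP5 (.N (.A 1 963 (.N (.S 3605 (.A 1 945 (.N (.A 1 936 (.N (.S 3561 (.S 3539 .e (.X 1 0 (.A 0 918 .e .n) .n)) (.X 1 0 (.x 3) .n))) (.S 3561 (.A 0 936 (.S 3539 .e (.S 3550 .e (.A 1 940 .e .e))) .e) (.A 0 936 (.X 1 0 (.A 0 933 (.x 3) .n) .n) (.S 3583 (.X 1 0 (.A 0 912 (.A 0 891 (.A 0 880 .e (.x 3)) (.x 3)) .n) .n) (.X 1 0 (.A 0 924 (.x 3) .n) .n)))))) (.A 0 945 (.S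 3561 (.A 1 954 (.A 0 936 .e .e) .e) (.A 1 954 (.A 0 936 (.A 1 949 (.S 3583 (.A 0 931 .e .e) (.X 1 0 (.A 0 924 (.x 3) .n) .n)) (.S 3583 (.A 0 931 .e .e) (.X 1 0 (.A 0 920 (.x 3) .n) .n))) (.S 3583 (.A 1 949 .e .e) (.X 1 0 (.A 0 915 (.A 0 894 (.A 0 883 .e (.x 3)) (.x 3)) .n) .n))) (.A 0 936 (.X 1 0 (.A 0 915 (.A 0 888 (.A 0 874 .e (.S 3583 .e (.A 0 881 .e (.x 3)))) (.x 3)) .n) .n) (.S 3583 .e (.X 1 0 (.A 0 905 (.A 0 884 .e (.x 3)) .n) .n))))) (.X 1 0 (.A 0 905 (.A 0 855 .e (.A 0 880 .e (.x 3))) .n) .n))) (.X 2 0 (.A 0 905 (.A 0 876 (.A 2 945 (.N .e) (.A 1 945 .e .e)) (.A 2 945 (.N (.A 0 890 .e (.S 3649 (.A 2 936 (.N .e) (.S 3627 (.x 3) .e)) .e))) (.S 3649 (.A 1 945 (.A 0 890 (.A 2 954 .e (.A 1 936 .e (.S 3627 (.A 0 883 .e (.x 3)) .e))) (.S 3627 (.x 3) (.A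 2 954 .e (.x 3)))) (.A 0 890 (.A 2 954 (.N (.S 3627 (.A 0 883 .e (.x 3)) .e)) .e) (.x 3))) (.A 1 945 .e (.A 0 890 .e (.S 3671 (.x 3) (.A 2 954 (.N .e) (.x 3)))))))) (.A 0 934 (.A 2 945 (.N .e) (.A 1 945 (.A 0 919 (.A 1 936 .e (.A 2 954 .e (.x 3))) (.x 3)) (.x 3))) (.N (.x 3)))) .n))) (.A 0 963 (.A 0 945 (.S 3605 (.A 1 981 (.X 1 0 (.A 0 905 (.A 0 855 .e (.A 0 880 .e (.x 3))) .n) .n) (.X 1 0 (.A 0 886 .e .n) .n)) (.X 1 0 (.A 0 889 .e (.A 0 917 (.S 3649 (.x 3) (.A 2 981 (.A 0 903 (.S 3671 (.x 3) .e) (.x 3)) (.x 3))) (.x 3))) .n)) (.X 1 0 (.A 0 935 (.A 0 847 .e (.A 0 891 .e (.x 3))) .n) .n)) (.X 1 0 (.A 0 916 .e .n) .n)))))))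
def cP7 : Ct := (.X 127 127 (.A 0 500 (.A 0 250 (.A 1 858 (.A 0 125 .e .e) (.A 0 125 .e .e)) (.A 1 858 (.A 0 375 (.A 0 312 .e .e) (.A 1 787 (.A 0 437 .e .e) .e)) (.A 0 375 (.A 0 312 .e .e) (.A 1 929 .e .e)))) (.A 0 750 (.A 1 858 (.A 0 625 (.A 1 787 (.A 0 562 .e .e) (.A 0 562 .e (.A 1 822 .e .e))) (.A 1 787 (.A 0 687 (.A 1 752 .e .e) (.A 1 752 .e .e)) (.A 0 687 .e .e))) (.A 0 625 (.A 0 562 (.A 1 929 .e .e) .e) (.A 1 929 (.A 0 687 (.A 0 656 .e .e) .e) .e))) (.N (.A 1 875 (.N (.A 0 812 (.A 1 812 (.A 1 781 (.N .e) .e) (.A 0 781 .e (.A 1 843 .e .e))) (.N (.A 0 843 (.A 1 843 (.X 27 34 .n .e) (.X 25 33 .n .e)) (.N (.X 19 33 .n .e)))))) (.A 0 875 (.A 1 937 (.A 0 812 (.A 1 906 (.A 0 781 .e .e) .e) (.A 1 906 (.A 0 843 .e .e) .e)) .e) (.A 1 937 (.N .e) .e)))))) (.A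 0 500 (.A 0 250 (.A 1 858 (.A 0 125 .e .e) (.A 0 125 .e .e)) (.A 1 858 (.A 0 375 (.A 0 312 .e .e) (.A 0 437 .e .e)) (.A 0 375 (.A 0 312 .e .e) (.A 1 929 .e .e)))) (.A 0 750 (.A 0 625 (.A 1 858 (.A 0 562 (.A 1 787 .e .e) (.A 1 787 .e (.A 1 822 .e .e))) (.A 1 929 (.A 0 562 .e .e) .e)) (.A 1 858 (.A 1 787 (.A 0 687 .e .e) (.A 0 687 .e .e)) (.A 1 929 (.A 0 687 .e .e) (.X 34 32 (.N .e) .n)))) (.N (.A 0 875 (.A 1 875 (.A 0 812 (.A 1 812 .e (.X 36 30 (.N .e) .n)) (.N (.A 1 843 (.N (.X 34 27 .e .n)) (.X 33 19 .e .n)))) (.A 1 937 (.A 0 812 (.X 33 26 (.N .e) .n) (.A 1 906 (.X 33 17 .e .n) .e)) (.A 0 812 .e .e))) (.N (.A 0 937 (.A 1 937 .e (.A 0 906 (.X 2 4 .n (.N .e)) (.S 3785 (.A 1 968 (.X 0 2 .n (.N .e)) (.X 0 2 .n (.A 0 910 .e (.N .e)))) (.X 1 2 .n (.N .e)))))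 (.N (.X 0 9 .n (.A 0 877 (.A 0 816 .e (.S 3785 (.A 0 846 (.A 2 968 (.N .e) .e) (.A 2 968 (.N .e) (.A 1 968 .e .e))) (.A 2 968 (.N .e) .e))) (.A 0 938 (.A 0 907 (.A 2 968 (.N (.S 3785 (.S 3739 (.A 2 952 (.N .e) .e) .e) .e)) (.S 3785 .e (.A 1 968 .e .e))) (.A 2 968 (.N (.S 3785 (.A 1 952 .e (.N .e)) .e)) (.A 1 968 (.A 1 952 .e (.S 3785 .e (.S 3831 .e .e))) .e))) (.N (.A 1 969 (.N (.A 2 969 (.A 1 953 (.N (.S 3785 .e .e)) (.N (.S 3785 (.x 1) (.S 3831 .e .e)))) (.A 1 953 (.N (.A 2 984 .e .e)) (.A 0 953 (.A 2 984 (.A 0 945 .e .e) .e) (.S 3785 (.x 1) (.A 2 984 (.A 1 961 (.N .e) .e) (.x 1))))))) (.N (.A 0 969 (.A 0 953 (.S 3785 (.x 1) (.A 2 984 (.N .e) (.x 1))) (.x 1)) (.x 1))))))))))))))))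
def cP8 : Ct := (.X 52 33 (.A 0 872 (.A 0 808 (.X 33 21 .e .n) .e) (.A 0 936 (.A 0 904 .e (.S 3785 (.A 1 975 (.X 0 1 .n (.N .e)) (.S 3739 (.A 0 920 (.A 1 987 .e (.X 0 1 .n (.N (.S 3716 (.x 2) .e)))) (.A 1 987 (.S 3716 (.X 0 1 .n (.x 2)) (.X 0 1 .n (.x 2))) (.S 3716 (.X 0 1 .n (.x 2)) (.X 0 1 .n (.x 2))))) (.A 0 920 .e (.A 1 987 (.X 0 1 .n (.N (.x 2))) (.S 3762 (.X 0 1 .n (.x 2)) (.X 0 1 .n (.N (.x 2)))))))) .e)) (.X 0 8 .n (.A 0 881 (.A 0 822 .e (.S 3785 (.A 1 968 (.A 0 851 .e (.A 2 975 .e .e)) (.N .e)) .e)) (.A 0 940 (.A 0 910 (.A 1 968 (.S 3785 (.A 2 975 (.S 3739 .e .e) .e) .e) (.N .e)) (.A 1 968 (.A 2 975 (.S 3785 (.A 0 925 (.A 1 952 .e (.N .e)) (.A 1 952 .e (.N .e))) .e) (.A 1 952 (.A 0 925 (.S 3785 (.A 2 987 (.S 3739 (.x 2) .e) .e) .e) (.A 2 987 (.S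 3785 .e .e) (.A 1 944 (.S 3785 (.x 2) .e) (.A 0 932 .e (.A 2 993 (.S 3785 (.x 2) .e) .e))))) (.S 3785 (.x 2) (.S 3831 (.A 0 925 .e .e) .e)))) (.N .e))) (.N (.A 0 970 (.A 1 970 (.A 2 975 (.A 0 955 (.A 1 955 (.S 3785 .e .e) (.N (.S 3785 (.x 2) (.S 3831 .e .e)))) (.N (.S 3785 (.x 2) (.A 2 965 (.N .e) .e)))) (.S 3785 (.x 2) (.S 3831 (.A 0 955 (.A 1 955 (.A 2 987 (.S 3808 (.x 2) .e) (.x 2)) (.x 2)) (.N (.x 2))) (.A 0 955 (.A 1 955 .e (.A 2 987 .e (.S 3854 (.x 2) .e))) (.N (.A 2 987 (.A 2 981 .e (.x 2)) (.x 2))))))) (.N (.A 0 955 (.S 3785 (.x 2) (.A 1 985 .e (.N (.x 2)))) (.x 2)))) (.N (.x 2))))))))) (.X 3 0 (.A 0 903 (.A 0 854 .e (.A 1 956 (.S 3785 (.A 2 975 .e (.A 0 878 .e (.A 1 934 .e .e))) .e) (.N .e))) (.A 1 956 (.N (.A 2 975 (.S 3785 (.A 0 929 (.A 1 934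 .e (.S 3739 (.A 0 916 (.A 2 963 .e (.A 1 945 .e (.S 3716 (.x 3) .e))) (.A 2 963 (.A 1 945 .e (.S 3716 (.x 3) .e)) (.A 1 945 (.S 3716 (.x 3) .e) (.x 3)))) .e)) (.N (.A 1 942 (.N .e) (.A 2 963 .e (.A 0 942 (.A 1 949 .e (.x 3)) (.x 3)))))) .e) (.S 3785 (.A 0 929 (.A 1 934 (.S 3739 (.A 2 987 (.A 0 916 .e (.N (.S 3716 (.x 3) .e))) (.A 0 916 (.A 1 923 .e (.x 3)) (.N (.x 3)))) .e) (.S 3739 (.A 2 987 (.A 0 916 (.A 1 945 (.S 3716 (.x 3) .e) (.x 3)) (.x 3)) (.x 3)) (.A 2 987 (.A 0 916 .e (.A 1 945 .e (.S 3762 (.x 3) .e))) (.A 0 916 .e (.x 3))))) (.N (.A 2 987 (.A 1 942 (.N (.A 2 981 .e (.x 3))) (.x 3)) (.x 3)))) (.A 0 929 .e (.N (.S 3831 (.A 2 987 (.A 1 942 (.N .e) (.A 0 942 .e (.S 3808 (.x 3) .e))) (.A 0 942 (.A 1 942 .e (.S 3808 (.x 3) .e)) (.N (.x 3)))) .e))))))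 (.N (.A 0 951 (.A 1 978 (.A 2 978 (.A 0 927 (.S 3785 (.S 3739 (.x 3) (.A 2 967 (.N .e) (.A 1 967 (.A 0 915 .e (.x 3)) (.x 3)))) .e) (.S 3785 (.x 3) (.S 3831 (.A 1 967 (.A 2 967 .e (.A 0 939 .e (.S 3808 (.x 3) .e))) (.N (.A 0 939 (.S 3808 (.x 3) .e) (.x 3)))) .e))) (.A 0 927 .e (.A 2 989 (.S 3785 (.x 3) (.S 3831 (.A 0 939 (.A 1 967 (.S 3808 (.x 3) .e) (.x 3)) (.x 3)) (.A 0 939 .e (.A 1 967 .e (.S 3854 (.x 3) .e))))) (.A 1 967 (.A 0 939 .e (.S 3785 (.x 3) (.S 3831 (.x 3) (.S 3854 (.x 3) .e)))) .e)))) (.N .e)) (.A 2 978 (.N (.A 2 967 (.N .e) (.A 1 967 (.N .e) (.A 0 964 (.A 2 972 (.N .e) (.x 3)) (.x 3))))) (.A 1 978 (.N (.A 2 989 (.S 3785 (.x 3) (.A 0 964 (.A 1 967 (.A 2 983 .e (.x 3)) (.x 3)) (.N (.x 3)))) (.x 3))) (.x 3))))))) .n))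
def cP9 : Ct := (.X 86 66 (.A 0 836 (.A 0 754 (.A 0 713 (.A 0 693 .e (.S 3973 .e .e)) (.A 0 733 .e (.X 68 65 .e .n))) (.X 77 86 (.A 0 740 (.A 0 692 (.A 1 795 .e .e) (.A 1 795 .e .e)) (.A 0 788 .e (.N .e))) (.A 0 710 (.A 0 647 .e .e) (.A 0 773 .e (.N .e))))) (.A 0 918 (.X 77 53 (.A 0 770 (.A 0 696 (.A 1 877 .e .e) .e) (.A 0 844 (.X 33 33 (.N .e) (.N (.A 2 877 .e .e))) (.N (.A 1 881 (.N (.S 3973 (.X 24 33 .n .e) (.X 33 33 .e .e))) (.A 0 881 (.A 1 899 (.X 33 33 (.A 0 839 .e .e) .e) (.A 0 862 (.X 25 33 .n .e) .e)) (.S 3973 .e (.X 19 33 .n .e))))))) (.A 1 877 (.N (.X 34 25 (.A 1 841 (.N .e) (.N (.A 0 839 .e .e))) .n)) (.A 0 862 (.X 34 25 (.A 0 825 .e (.N .e)) .n) (.X 33 16 (.A 0 841 .e .e) .n)))) (.A 0 959 (.A 0 938 (.X 45 38 .e .n) .e) (.A 0 979 (.X 32 33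 .n (.N (.X 0 1 .n .e))) (.S 3973 (.X 29 33 .n (.A 0 980 (.S 3925 (.A 1 989 (.A 0 970 (.X 0 1 .n (.N (.x 1))) (.A 0 975 (.X 0 1 .n (.x 1)) (.X 0 1 .n (.x 1)))) (.A 0 970 (.S 3901 (.X 0 1 .n (.x 1)) (.X 0 1 .n (.N (.x 1)))) (.S 3901 (.X 0 1 .n (.x 1)) (.X 0 1 .n (.x 1))))) (.X 0 1 .n (.N .e))) (.N (.X 0 1 .n (.A 0 963 (.A 0 944 .e (.A 0 953 .e (.A 2 990 (.N (.S 3925 (.x 1) .e)) .e))) (.A 0 981 (.A 0 972 (.A 2 990 (.N (.S 3925 (.x 1) .e)) (.A 1 990 (.S 3925 (.x 1) .e) (.x 1))) (.A 2 990 (.N (.S 3925 (.x 1) .e)) (.x 1))) (.N (.x 1)))))))) (.A 0 989 .e (.X 31 33 .n (.S 4021 (.S 3997 (.X 0 1 .n (.x 1)) (.X 0 1 .n (.N (.x 1)))) (.X 0 1 .n (.N (.x 1))))))))))) (.A 0 917 (.X 52 41 (.A 0 866 (.X 34 25 (.A 2 875 (.A 0 826 .e (.N .e)) .e) .n) (.N (.A 0 891 (.X 33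 20 .e .n) (.N .e)))) .n) (.A 0 958 (.X 52 35 (.A 0 879 (.X 34 19 .e .n) .e) .n) (.A 0 979 (.A 0 968 .e (.S 3973 (.S 3925 (.A 0 973 .e (.X 33 33 (.X 0 1 .n (.x 2)) (.X 1 0 (.x 3) .n))) .e) .e)) (.S 3973 (.X 33 33 (.A 0 980 (.S 3925 (.S 3901 (.A 1 989 (.A 0 970 (.X 0 1 .n (.N (.x 2))) (.X 0 1 .n (.x 2))) (.A 0 970 (.X 0 1 .n (.x 2)) (.X 0 1 .n (.x 2)))) (.A 1 989 (.X 0 1 .n (.N (.x 2))) (.A 0 970 (.X 0 1 .n (.N (.x 2))) (.X 0 1 .n (.x 2))))) (.X 0 1 .n (.N .e))) (.N (.X 0 1 .n (.A 0 963 (.A 0 944 .e (.A 0 953 .e (.A 1 990 (.S 3925 (.x 2) .e) (.N .e)))) (.A 0 981 (.A 0 972 (.A 1 990 (.A 2 990 (.S 3925 (.x 2) .e) (.A 0 967 .e (.x 2))) (.N (.x 2))) (.A 2 990 (.N (.S 3925 (.x 2) .e)) (.x 2))) (.N (.x 2))))))) (.A 0 980 (.S 3925 (.A 0 970 (.A 1 989 (.X 1 0 (.N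 (.x 3)) .n) (.S 3901 (.X 1 0 (.x 3) .n) (.X 1 0 (.N (.x 3)) .n))) (.A 1 989 (.A 0 975 (.X 1 0 (.x 3) .n) (.X 1 0 (.x 3) .n)) (.S 3901 (.X 1 0 (.x 3) .n) (.X 1 0 (.x 3) .n)))) (.X 1 0 (.N .e) .n)) (.N (.X 1 0 (.A 0 963 (.A 0 944 .e (.A 2 990 (.N (.S 3925 (.A 0 953 .e (.x 3)) .e)) .e)) (.A 2 990 (.N (.A 0 976 (.S 3925 (.x 3) .e) (.x 3))) (.A 0 981 (.A 1 990 (.A 0 972 (.A 2 995 (.S 3925 (.x 3) .e) (.x 3)) (.x 3)) (.x 3)) (.N (.x 3))))) .n)))) (.A 0 989 .e (.S 4021 (.S 3997 (.X 33 33 (.X 0 1 .n (.x 2)) (.X 1 0 (.x 3) .n)) (.X 33 33 (.N (.X 0 1 .n (.x 2))) (.N (.X 1 0 (.x 3) .n)))) (.X 33 33 (.N (.X 0 1 .n (.N (.x 2)))) (.N (.X 1 0 (.N (.x 3)) .n))))))))))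
def cP10 : Ct := (.S 4486 (.X 80 66 (.A 0 882 (.X 93 93 (.A 0 731 (.A 0 656 (.A 1 823 (.A 0 618 .e .e) .e) (.A 0 693 (.A 1 823 .e .e) (.A 1 823 .e .e))) (.A 0 806 (.A 0 768 (.A 1 823 .e .e) (.N (.A 1 825 (.A 1 796 (.N .e) (.S 4379 (.A 0 787 .e .e) .e)) .e))) (.N (.A 1 844 (.N (.A 1 825 (.N (.S 4379 .e (.A 0 815 .e (.N .e)))) .e)) (.A 0 844 .e .e))))) (.A 0 731 (.A 0 656 (.A 1 823 .e .e) (.A 1 823 .e .e)) (.A 0 806 (.A 1 823 .e (.A 0 768 .e .e)) (.N .e)))) (.X 77 53 (.A 0 829 (.A 0 744 (.A 1 941 .e .e) (.A 1 941 .e .e)) (.A 0 914 (.A 1 941 (.A 0 871 .e (.A 1 911 (.N (.X 33 33 (.N .e) (.N .e))) (.X 33 33 (.N .e) (.N (.X 2 0 .e .n))))) (.A 0 871 .e (.A 1 970 (.A 0 892 (.S 4379 .e .e) (.A 1 955 (.X 31 28 .e .n) .e)) .e))) (.N (.A 1 957 (.N (.A 1 935 (.N (.A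 1 924 (.N (.X 33 33 .e .e)) (.A 0 924 (.S 4379 (.X 27 33 .n .e) (.X 33 33 .e .e)) (.S 4379 (.X 25 33 .n .e) (.X 33 33 .e .e))))) (.A 0 935 (.A 1 946 (.A 0 924 (.S 4379 .e (.X 32 33 .e .e)) (.S 4379 .e (.X 33 33 .e .e))) (.S 4379 .e (.S 4432 .e (.X 32 29 .e .n)))) (.S 4379 .e (.A 1 946 (.N (.S 4432 .e (.X 33 33 .e .e))) (.A 0 946 .e .e)))))) (.A 0 957 (.A 1 978 .e .e) (.A 0 978 .e (.N .e))))))) (.A 0 926 (.A 1 941 (.A 0 889 (.X 33 32 (.N .e) .n) (.N (.S 4379 (.X 33 26 (.A 0 896 .e (.N .e)) .n) (.A 1 915 (.N .e) (.X 33 30 (.N .e) .n))))) (.X 33 23 (.X 3 0 .e .n) .n)) (.N (.A 1 963 (.N (.S 4379 (.A 0 944 .e (.N .e)) (.A 1 944 (.N (.X 33 27 .e .n)) .e))) .e))))) (.X 52 38 (.A 0 931 (.A 1 945 (.A 0 896 (.S 4379 (.X 33 31 (.N .e) .n) .e) (.N (.S 4379 (.X 33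 25 (.A 0 896 .e .e) .n) (.X 33 29 (.A 2 920 (.N .e) (.A 0 911 .e (.N .e))) .n)))) (.A 1 972 (.X 33 24 (.A 0 889 (.A 1 896 .e .e) (.N .e)) .n) (.X 33 22 (.A 0 881 .e (.N .e)) .n))) (.N (.A 0 965 (.A 1 965 (.S 4379 .e (.X 33 22 (.A 0 914 .e .e) .n)) .e) (.N .e)))) .n)) (.X 77 66 (.A 0 908 (.A 0 862 (.X 67 60 (.A 1 839 (.N (.S 4598 (.X 52 50 (.N .e) .n) .e)) (.X 52 46 (.N (.X 33 24 .e .n)) .n)) .n) (.A 0 885 (.X 66 57 (.A 0 846 .e .e) .n) (.S 4598 .e .e))) (.X 66 52 (.A 0 887 (.A 0 831 .e .e) (.A 1 954 (.N (.A 0 920 .e (.N (.A 1 937 (.N (.S 4598 (.X 33 33 (.N .e) (.N .e)) .e)) (.A 0 937 (.S 4598 (.X 33 33 .e .e) .e) (.S 4598 (.A 1 945 (.N (.X 33 33 .e .e)) (.A 0 945 (.X 33 29 .e .n) (.A 0 949 (.X 33 28 .e .n) (.N (.S 4542 .e (.X 32 29 .e .n)))))) (.A 1 945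 (.N (.X 33 33 (.N .e) (.N .e))) (.X 33 33 .e (.S 4654 .e .e))))))))) (.A 0 943 (.A 1 977 (.A 0 915 (.A 0 901 .e (.A 1 965 .e .e)) (.A 1 965 (.S 4598 (.X 33 29 (.S 4542 .e .e) .n) (.X 33 33 (.N .e) (.N .e))) (.A 0 929 .e (.S 4598 .e (.X 33 31 .e .n))))) (.A 0 915 .e .e)) (.A 0 971 (.A 1 977 (.A 1 965 (.N (.A 0 954 (.A 1 959 (.S 4598 (.A 0 948 .e (.A 1 956 .e .e)) (.X 33 30 .e .n)) (.S 4598 .e (.X 33 30 .e .n))) (.X 33 25 (.X 0 1 .n .e) .n))) (.S 4598 .e (.X 33 27 (.X 0 1 .n .e) .n))) (.A 0 957 .e .e)) (.N (.A 1 985 (.N .e) .e)))))) (.A 0 950 (.A 1 954 (.S 4598 (.A 0 925 (.X 33 32 (.N .e) .n) (.N (.X 33 28 (.X 1 0 .e .n) .n))) (.X 33 31 (.N (.S 4654 .e .e)) .n)) (.X 33 26 (.X 2 0 .e .n) .n)) (.N (.A 1 975 (.N (.X 33 23 (.X 1 0 .e .n) .n)) (.A 0 975 .e .e))))))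 (.A 0 959 (.A 0 938 (.S 4598 (.X 52 50 (.N (.X 33 31 .e .n)) .n) .e) (.X 52 47 (.S 4598 (.A 0 937 (.X 33 30 (.S 4542 .e .e) .n) (.X 33 27 (.X 1 0 .e .n) .n)) (.X 33 30 (.N (.X 1 0 .e .n)) .n)) .n)) (.A 0 979 .e .e))))
def cP11 : Ct := (.S 4945 (.X 77 66 (.A 0 921 (.A 0 881 (.A 0 861 (.X 66 64 (.N .e) .n) (.X 66 61 (.A 0 861 (.S 4827 .e .e) (.A 1 871 (.N (.S 4827 .e .e)) .e)) .n)) (.A 0 901 (.A 0 891 (.X 66 60 .e .n) (.S 4827 .e .e)) (.S 4827 .e .e))) (.A 0 960 (.A 0 940 (.S 4827 .e (.S 4886 .e .e)) (.S 4827 (.X 52 52 (.N (.S 4768 .e .e)) (.N .e)) (.S 4886 .e .e))) (.X 64 52 (.A 0 913 .e (.A 0 956 (.A 0 934 .e (.S 4827 (.A 0 945 .e (.A 1 980 (.S 4768 (.S 4739 (.X 33 32 (.N .e) .n) .e) .e) (.S 4768 .e .e))) .e)) (.A 0 978 (.A 1 980 (.S 4827 (.A 1 970 (.N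 (.S 4768 (.A 1 965 (.N (.S 4739 .e .e)) (.A 0 963 .e .e)) (.S 4797 (.A 0 963 .e (.N .e)) .e))) (.X 33 29 (.X 0 1 .n .e) .n)) (.A 0 967 .e (.N (.S 4886 (.A 0 972 .e (.N .e)) .e)))) (.A 1 990 (.S 4827 (.A 0 967 (.A 0 961 .e (.S 4768 .e (.X 33 31 .e .n))) .e) (.A 0 967 .e (.S 4886 .e .e))) (.S 4827 .e (.S 4886 (.A 0 967 .e .e) .e)))) (.N (.S 4827 (.A 1 989 (.N .e) .e) (.A 0 989 (.A 1 989 (.S 4886 .e .e) (.A 1 994 (.S 4886 .e .e) .e)) (.N (.S 4886 .e (.S 4915 .e (.A 1 994 (.N .e) .e)))))))))) (.A 0 970 (.X 33 29 (.X 1 0 .e .n) .n) (.N (.X 33 24 (.X 2 0 .e .n) .n)))))) (.A 0 973 (.S 4827 (.A 0 960 (.X 52 51 (.N .e) .n) (.S 4768 .e .e)) (.X 52 51 (.N .e) .n)) (.A 0 986 (.A 0 979 (.A 0 976 (.S 4827 .e (.S 4886 .e .e)) (.S 4827 .e .e)) .e) .e))) (.S 5192 (.X 77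 76 (.A 0 934 (.A 0 901 (.X 66 62 (.N (.A 1 885 (.N .e) (.A 0 885 .e .e))) .n) (.A 0 917 (.X 66 60 (.A 0 891 (.S 5068 .e .e) .e) .n) (.S 5068 (.S 5006 .e .e) (.S 5130 (.X 66 60 .e .n) (.X 66 61 .e .n))))) (.A 0 967 (.A 0 950 (.S 5068 (.X 65 56 .e .n) (.X 66 58 (.A 0 912 .e .e) .n)) (.S 5068 (.X 64 54 .e .n) (.X 65 56 .e .n))) (.S 5068 (.A 0 983 (.X 65 52 .e .n) (.S 5006 (.X 64 52 (.A 0 931 .e (.A 0 965 .e (.A 0 982 .e (.A 0 991 (.A 1 991 (.X 32 33 .n (.N .e)) .e) (.N .e))))) (.A 1 991 (.N .e) (.A 0 990 .e .e))) (.A 0 991 (.X 64 52 .e .n) (.S 5037 (.A 0 995 (.X 64 52 .e (.N .e)) (.X 64 52 (.X 33 33 (.N .e) (.N .e)) .e)) (.X 64 52 .e (.N .e)))))) (.X 66 52 (.A 0 930 .e .e) .n)))) (.A 0 938 (.A 0 907 .e .e) (.A 0 969 .e (.A 0 984 .e (.S 5068 (.S 5006 (.A 0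 992 .e .e) (.X 52 51 (.N .e) .n)) .e))))) (.X 77 77 (.X 77 77 (.A 0 890 (.A 1 947 (.A 0 835 .e .e) (.A 0 835 .e (.A 0 862 .e (.A 1 973 .e (.X 52 51 (.N .e) .n))))) (.A 0 945 (.A 1 947 (.A 0 917 (.X 52 49 (.N .e) .n) (.N .e)) (.A 0 917 (.A 1 973 (.A 0 903 (.S 5321 .e .e) .e) (.S 5321 .e .e)) .e)) (.N .e))) (.A 0 890 (.A 0 835 (.A 1 947 .e .e) (.A 1 947 .e .e)) (.A 1 947 (.N (.X 52 45 .e .n)) (.A 0 945 (.A 1 973 .e .e) .e)))) (.A 0 947 .e .e))))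
def cP12 : Ct := (.S 6624 (.X 93 93 (.A 0 924 (.A 0 886 (.S 6466 (.X 86 81 (.X 77 72 (.N .e) .n) .n) (.X 86 83 (.N (.X 77 74 (.N .e) .n)) .n)) (.A 0 905 (.S 6466 (.A 0 895 (.X 86 80 .e .n) .e) (.X 86 83 (.A 0 880 .e (.A 0 892 .e (.N .e))) .e)) (.X 76 77 .n (.N .e)))) (.A 0 962 (.S 6466 (.A 0 943 .e .e) (.A 0 943 (.X 76 77 .n (.N .e)) (.X 74 77 .n (.X 63 66 .n (.N .e))))) (.S 6466 (.A 0 981 .e (.X 67 77 .n (.A 0 953 .e .e))) (.A 0 981 (.A 0 971 (.S 6545 .e (.X 73 76 .n .e)) (.X 75 77 .e (.A 0 954 .e .e))) (.X 75 77 (.A 0 971 .e .e) (.A 0 961 (.A 0 942 (.X 64 66 .n (.N .e)) .e) .e)))))) (.A 0 924 (.A 0 886 .e (.A 0 905 .e (.A 0 914 .e (.S 6466 .e .e)))) (.A 0 962 (.S 6466 (.A 0 943 .e .e) (.A 0 943 (.A 0 933 .e (.S 6545 .e .e)) (.A 0 952 (.S 6545 .e (.S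 6584 .e (.X 77 77 (.N .e) (.N .e)))) .e))) (.A 0 981 (.S 6466 .e (.A 0 971 (.A 0 966 .e (.X 73 72 (.N .e) .n)) .e)) (.A 0 990 (.A 0 985 .e .e) .e))))) (.X 93 93 (.A 0 936 (.A 0 904 (.S 6789 (.X 86 86 (.X 77 73 (.N .e) .n) .e) (.X 86 86 (.N .e) (.N .e))) (.A 0 920 (.S 6789 (.S 6706 .e (.X 86 81 (.A 0 897 .e .e) .n)) (.X 86 86 (.A 0 901 .e .e) .e)) (.A 0 928 (.S 6789 .e (.S 6872 .e .e)) .e))) (.X 83 77 (.A 0 940 (.A 1 968 .e .e) (.N (.A 0 970 (.S 6789 (.A 1 970 (.A 0 955 .e (.N .e)) (.A 0 955 .e (.X 63 65 .n .e))) (.X 66 66 (.N .e) (.N .e))) (.N (.S 6789 (.A 1 985 (.N .e) (.A 0 985 (.S 6706 .e (.X 62 66 .n .e)) .e)) (.A 1 985 (.N (.X 64 66 .n (.S 6872 .e .e))) (.A 0 985 (.S 6872 (.A 1 992 (.X 63 66 .n .e) (.X 63 66 .n .e)) (.X 64 66 .n (.N .e))) (.A 1 992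 (.N (.X 63 66 .n (.A 0 976 .e .e))) (.S 6872 (.X 61 66 .n (.A 0 978 .e .e)) (.X 62 66 .n (.A 0 984 .e .e))))))))))) (.N (.A 0 970 (.A 1 970 (.S 6789 (.A 0 955 .e (.N (.X 64 66 .n .e))) .e) (.S 6789 (.A 0 955 (.X 66 66 (.N .e) (.N .e)) (.X 66 66 .e .e)) (.X 66 66 (.N .e) (.N .e)))) (.N (.S 6789 (.A 1 985 (.N (.S 6706 .e (.X 63 66 .n .e))) (.A 0 985 .e .e)) (.A 0 985 (.A 1 985 (.X 66 66 .e .e) (.X 66 66 (.A 0 973 .e (.N .e)) .e)) (.N (.S 6872 (.A 1 992 (.N .e) .e) (.X 66 66 (.A 0 984 .e .e) .e)))))))))) (.A 0 936 (.A 0 904 (.A 0 888 .e .e) (.S 6789 .e .e)) (.X 77 77 (.N (.A 1 970 (.N (.S 6789 (.A 0 955 .e (.N (.X 64 66 .n .e))) .e)) (.A 0 970 (.S 6789 (.A 0 955 .e (.A 1 985 (.S 6706 .e (.X 64 66 .n (.N .e))) (.S 6706 .e .e))) (.A 0 955 .e (.S 6872 .e .e)))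 (.S 6789 (.A 1 985 (.N (.S 6706 .e (.X 63 66 .n .e))) (.A 0 985 .e .e)) (.A 1 985 (.N (.X 66 66 .e .e)) (.A 0 985 (.X 66 66 (.A 0 973 .e (.N .e)) .e) (.S 6872 (.X 61 66 .n .e) (.A 0 992 (.A 1 992 (.S 6913 .e (.A 0 988 .e (.N .e))) .e) (.N (.S 6913 .e .e)))))))))) (.N (.A 1 970 (.N (.X 66 64 (.N .e) .n)) (.A 0 970 (.X 66 63 (.N (.S 6789 (.A 2 985 .e .e) .e)) .n) (.X 66 59 (.A 0 968 .e (.A 2 985 (.N .e) .e)) .n))))))))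
def cP13 : Ct := (.S 8874 (.S 6955 (.S 6009 (.S 5723 (.X 77 81 (.X 66 66 (.A 0 957 (.A 1 961 .e (.A 0 935 (.S 5587 .e .e) .e)) (.N .e)) (.A 1 961 (.N (.X 52 48 (.N .e) .n)) (.A 0 957 .e .e))) (.A 0 941 (.A 0 912 .e .e) (.A 0 970 .e (.A 0 985 .e .e)))) (.X 77 84 (.A 0 975 (.X 66 64 (.N .e) .n) (.X 66 61 .e .n)) (.A 0 940 (.A 0 910 .e .e) (.A 0 970 (.S 5866 .e .e) .e)))) (.S 6309 (.X 93 85 (.A 0 911 (.A 0 867 (.A 0 845 (.S 6159 .e (.A 0 834 .e .e)) (.S 6159 .e (.X 86 82 .e .n))) (.A 0 889 .e .e)) (.A 0 955 (.S 6159 .e .e) (.A 0 977 .e (.S 6159 (.X 66 64 (.N .e) .n) .e)))) (.A 0 948 (.A 0 922 .e .e) (.A 0 974 .e .e))) cP12)) (.S 7667 (.S 7302 (.X 93 93 (.A 0 949 (.A 0 923 (.X 86 86 .e (.S 7128 .e .e)) (.S 7128 (.A 0 936 .e .e) (.A 0 936 (.X 86 83 .e .n) (.S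 7215 .e .e)))) (.A 0 974 (.S 7128 .e .e) (.S 7128 (.X 77 77 (.A 0 986 (.X 66 66 (.N .e) (.N .e)) (.N (.A 1 993 (.N (.X 64 66 .n .e)) (.A 0 993 (.X 64 66 .n .e) (.A 1 996 (.N (.X 64 66 .n .e)) (.A 0 996 (.X 64 66 .n .e) (.X 65 66 .e (.A 0 989 .e .e)))))))) (.A 1 987 (.N (.X 66 66 (.N .e) (.N .e))) (.A 0 986 (.X 66 66 (.N .e) (.N .e)) (.A 0 993 (.X 66 66 .e .e) (.N (.X 66 66 .e .e)))))) (.A 0 987 .e (.S 7215 (.S 7171 (.S 7149 (.X 77 77 (.N (.X 65 66 .n (.N .e))) (.N (.A 1 994 (.N .e) (.A 0 994 .e .e)))) (.X 77 77 (.N .e) (.N .e))) (.X 77 77 (.N .e) (.N .e))) (.X 77 77 (.N .e) (.N .e))))))) (.A 0 949 (.A 0 923 (.A 0 910 (.S 7128 .e .e) .e) .e) (.A 0 974 .e (.A 0 987 (.S 7128 (.A 0 980 (.X 77 77 (.N .e) (.N .e)) (.A 0 983 (.X 77 77 .e .e) (.X 77 77 (.X 66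 66 (.N .e) (.N .e)) (.X 66 65 (.N .e) .n)))) .e) (.X 77 77 (.S 7128 (.A 0 986 (.X 66 66 (.N .e) (.N .e)) (.A 1 993 (.N (.X 66 66 .e .e)) (.X 66 66 .e .e))) (.S 7215 (.A 0 986 .e (.A 0 993 .e (.N .e))) .e)) (.X 66 63 (.N .e) .n)))))) (.S 7484 (.X 93 93 (.A 0 962 (.A 0 943 (.X 86 84 .e .n) .e) (.A 0 981 .e .e)) .e) (.S 7575 .e (.X 93 87 (.A 0 971 .e .e) .n)))) (.S 8050 (.X 93 93 (.A 0 975 (.S 7858 .e (.A 0 962 .e .e)) .e) .e) (.S 8452 (.S 8251 .e (.X 93 93 .e .e)) .e)))) (.S 11323 (.S 9782 (.S 9317 .e (.S 9549 .e (.X 103 99 (.A 0 983 .e .e) .n))) (.S 10271 (.X 105 105 (.A 0 979 (.S 10026 .e .e) (.S 10026 (.A 0 989 .e .e) .e)) (.A 0 979 .e .e)) (.S 10784 (.X 105 105 .e .e) .e))) (.S 13107 (.S 11889 .e (.S 12483 .e .e)) (.S 13762 .e (.S 14450 .e .e)))))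
def cP : Ct := (.S 5451 (.S 3351 cP2 (.S 4273 (.S 3693 (.S 3518 cP3 cP6) (.S 3877 (.X 77 66 cP7 (.A 0 903 (.A 0 855 (.A 0 831 (.X 52 49 (.N (.X 34 29 .e .n)) .n) (.X 52 45 (.X 34 24 .e .n) .n)) (.A 0 879 (.X 52 42 (.A 0 835 .e .e) .n) .e)) (.A 0 951 (.A 0 927 .e (.S 3785 (.A 0 939 .e (.S 3739 (.A 0 945 (.X 33 33 (.N (.X 0 1 .n (.N (.x 2)))) (.N (.X 1 0 (.N (.x 3)) .n))) (.X 33 33 (.S 3716 (.X 0 1 .n (.x 2)) (.X 0 1 .n (.N (.x 2)))) (.A 0 944 (.X 1 0 (.x 3) .n) (.X 1 0 (.x 3) .n)))) (.X 33 33 (.N .e) (.N .e)))) .e)) cP8))) (.S 4070 cP9 (.X 86 66 (.A 0 847 (.A 0 771 (.A 0 733 (.A 0 714 .e (.S 4171 .e .e)) (.A 0 752 .e .e)) (.A 0 809 (.X 66 60 .e .n) (.A 0 828 (.X 66 57 .e .n) (.X 66 55 .e .n)))) (.X 86 77 (.A 0 785 (.A 0 677 (.A 0 623 (.A 1 923 .e .e) (.A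 1 923 .e .e)) (.A 1 923 (.A 0 731 (.A 1 885 .e .e) .e) (.A 0 731 .e .e))) (.A 0 892 (.A 1 923 (.A 0 838 .e (.A 1 885 (.N (.X 33 33 (.N .e) (.N .e))) (.X 33 33 .e (.A 0 864 .e (.N .e))))) (.A 0 838 .e (.A 1 961 (.A 0 865 .e (.A 1 942 (.A 0 878 .e .e) .e)) .e))) (.N (.A 1 946 (.N (.A 1 919 (.N (.A 1 905 (.N (.X 33 33 .e .e)) (.A 0 905 (.X 33 33 (.A 0 868 .e .e) .e) (.X 22 33 .n .e)))) (.A 0 919 (.S 4171 .e (.A 1 932 (.X 25 33 .n .e) .e)) (.S 4171 .e (.A 1 932 (.N .e) .e))))) (.A 0 946 .e .e))))) (.A 0 814 (.A 1 923 (.A 0 721 (.A 0 674 (.A 0 651 .e (.A 1 885 .e .e)) (.A 1 885 .e .e)) .e) (.A 0 721 .e .e)) (.A 0 907 (.A 1 923 (.A 0 860 (.X 34 32 (.N .e) .n) (.N (.A 1 891 (.N (.X 33 29 (.S 4171 .e .e) .n)) (.X 33 24 (.A 0 867 .e (.N .e)) .n)))) (.A 1 961 (.A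 0 860 (.X 33 29 (.N .e) .n) (.S 4171 .e (.A 1 942 (.X 33 26 .e .n) .e))) (.A 0 860 .e .e))) (.N (.A 1 953 (.N (.A 1 930 (.N (.X 33 20 .e .n)) .e)) .e)))))) (.X 52 51 (.A 0 911 (.A 1 931 (.A 0 866 (.X 33 30 (.N .e) .n) (.N (.X 34 23 (.A 0 862 (.A 2 898 (.N .e) .e) (.A 2 898 (.N (.S 4171 .e .e)) .e)) .n))) (.X 34 18 (.A 0 841 (.A 1 866 .e .e) (.N .e)) .n)) (.N (.A 0 955 (.A 1 955 (.A 0 933 (.S 4171 .e .e) (.N .e)) .e) (.N .e)))) (.A 0 915 (.A 1 931 .e .e) (.N (.X 6 3 (.N .e) .n)))))))) (.S 4710 cP10 cP11))) cP13)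
theorem cP_ok : chk par tab 20828 1280 206 xs cP 2060 15020 [.p 1000 1000] = true := by decide +kernel
def cM1 : Ct := (.A 1 939 (.A 0 864 (.X 0 1 .n (.N .e)) (.A 1 909 (.X 0 1 .n .e) (.S 3448 (.A 0 886 (.X 0 1 .n .e) (.A 1 924 (.S 3406 (.A 0 897 (.X 0 1 .n (.A 0 892 .e .n)) (.S 3385 .e (.A 1 916 (.X 0 1 .n (.A 0 881 .e .n)) (.A 0 903 .e .e)))) (.X 0 1 .n .e)) (.S 3406 (.A 0 897 (.S 3385 .e (.A 1 931 (.X 0 1 .n (.A 0 876 .e .n)) .e)) .e) (.A 0 897 (.X 0 1 .n .e) (.S 3427 (.A 1 931 (.A 0 903 (.X 0 1 .n (.A 0 877 .e .n)) .e) .e) (.A 1 931 (.X 0 1 .n (.A 0 889 .e .n)) (.A 0 903 (.X 0 1 .n (.A 0 882 .e .n)) .e))))))) (.X 0 1 .n .e)))) (.A 0 864 (.A 1 969 (.S 3448 (.A 0 841 (.X 0 1 .n (.N .e)) (.A 1 954 (.X 0 1 .n .e) (.S 3406 (.S 3385 .e (.A 0 852 .e .e))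 (.X 0 1 .n .e)))) (.X 0 1 .n (.N .e))) (.S 3448 (.A 0 841 (.A 1 984 (.S 3406 .e .e) .e) .e) (.A 0 841 .e (.A 1 984 (.S 3490 (.A 0 852 .e (.A 1 976 (.S 3469 .e .e) .e)) .e) (.S 3490 .e (.A 0 852 .e (.A 0 858 .e .e))))))) (.A 1 969 (.S 3448 (.A 0 886 (.A 1 954 (.S 3406 (.A 0 875 (.A 1 946 (.X 0 1 .n .e) .e) .e) (.A 0 875 (.X 0 1 .n .e) (.S 3427 (.A 1 946 (.X 0 1 .n (.A 0 883 .e .n)) .e) (.X 0 1 .n .e)))) (.S 3406 .e (.A 0 875 (.A 1 961 (.X 0 1 .n .e) .e) .e))) (.A 1 954 (.S 3406 .e (.A 0 897 (.A 1 946 (.S 3427 .e (.X 0 1 .n (.A 0 884 (.A 0 863 .e .e) .n))) .e) .e)) .e)) (.A 0 886 (.A 1 954 (.X 0 1 .n .e) (.S 3490 (.A 0 875 (.X 0 1 .n .e) (.X 0 1 .n (.A 0 863 (.S 3469 .e .e) .e))) (.X 0 1 .n (.N .e)))) (.A 1 954 (.X 0 1 .n (.A 0 871 (.S 3490 (.A 0 852 (.A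 1 897 .e (.S 3469 (.A 0 843 .e .e) .e)) (.A 1 897 .e (.A 0 861 (.S 3469 .e (.A 2 946 .e .e)) .e))) (.A 0 852 .e (.A 1 897 .e (.A 0 861 .e (.A 2 946 .e (.S 3511 (.A 1 903 .e .e) .e)))))) .e)) (.S 3490 (.A 0 897 (.X 0 1 .n (.A 0 892 (.A 0 861 (.A 0 845 .e .e) .e) .n)) (.S 3469 .e (.A 1 961 .e .e))) (.A 0 897 (.S 3511 (.A 1 961 (.X 0 1 .n .e) (.X 0 1 .n (.A 0 896 (.A 0 875 .e .e) .n))) (.X 0 1 .n (.A 0 881 (.A 2 961 .e .e) (.x 6)))) (.S 3511 (.X 0 1 .n (.A 0 893 (.A 0 867 (.A 0 854 .e .e) .e) .n)) (.A 1 961 (.A 0 903 (.X 0 1 .n .e) (.X 0 1 .n (.A 0 899 (.A 0 881 .e (.x 6)) .n))) (.X 0 1 .n (.A 0 897 (.A 0 875 .e .e) .n))))))))) (.S 3448 .e (.A 0 886 (.A 1 984 (.S 3490 (.S 3469 .e (.A 0 875 (.A 1 976 (.A 0 869 .e .e) .e) .e)) (.A 0 875 (.X 0 1 .n .e) (.X 0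 1 .n (.A 0 867 .e (.A 0 876 .e (.N .e)))))) .e) (.A 1 984 (.S 3490 .e (.X 0 1 .n (.A 0 899 (.A 0 862 (.A 0 843 .e .e) (.A 0 880 .e (.x 6))) .n))) .e))))))
def cM2 : Ct := (.X 33 33 (.A 0 909 cM1 (.N (.A 1 954 (.N (.S 3448 (.A 0 931 (.A 1 931 (.S 3406 (.A 1 920 (.N .e) .e) (.A 1 920 (.N (.S 3427 (.A 1 914 (.N (.S 3416 .e .e)) .e) (.X 0 1 .n (.A 0 892 .e .n)))) (.A 0 920 (.S 3427 .e (.A 1 925 (.S 3437 .e (.X 0 1 .n (.A 0 881 .e .n))) .e)) .e))) .e) (.N .e)) (.A 1 931 (.N (.X 0 1 .n (.A 0 883 (.A 0 859 (.S 3490 (.A 2 920 (.N .e) (.S 3469 (.A 1 920 (.A 0 847 .e (.A 0 853 .e .e)) (.A 0 847 (.A 0 841 .e (.A 2 925 (.N .e) .e)) (.S 3458 .e (.A 0 853 .e .e)))) (.A 1 920 .e (.A 0 847 .e (.A 0 853 .e (.A 2 925 (.N .e) .e)))))) .e) (.A 0 871 (.A 2 920 (.N .e) (.A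 1 920 .e (.A 0 865 (.S 3490 (.A 2 925 (.N .e) .e) .e) .e))) .e)) (.x 6)))) (.A 0 931 (.S 3490 (.A 1 942 (.A 0 920 (.S 3469 (.A 1 936 .e .e) (.A 1 936 (.X 0 1 .n (.A 0 893 (.A 0 873 (.A 0 863 .e .e) .e) .n)) (.A 0 914 (.S 3479 .e (.X 0 1 .n (.A 0 888 .e .n))) .e))) .e) (.A 0 920 (.S 3469 .e (.A 1 948 .e .e)) .e)) (.A 1 942 (.X 0 1 .n (.A 0 916 (.A 0 882 (.A 0 865 (.A 1 920 .e (.A 0 856 .e (.S 3511 (.S 3500 .e (.A 1 925 .e .e)) .e))) (.A 1 920 .e (.S 3511 (.A 0 873 .e .e) (.A 0 873 (.A 2 936 .e (.A 1 925 .e .e)) (.A 2 936 .e .e))))) (.x 6)) .n)) (.A 0 920 (.S 3511 (.A 1 948 (.X 0 1 .n (.A 0 893 (.A 0 873 (.A 0 863 .e .e) .e) .n)) (.A 0 914 (.X 0 1 .n (.A 0 887 .e .n)) .e)) (.A 1 948 (.X 0 1 .n (.A 0 905 (.A 0 885 (.A 0 875 .e .e) (.x 6)) .n)) (.A 0 914 (.X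 0 1 .n (.A 0 899 (.A 0 882 .e (.x 6)) .n)) (.X 0 1 .n (.A 0 894 (.A 0 876 .e .e) .n))))) (.S 3511 .e (.X 0 1 .n (.A 0 894 (.A 0 870 (.A 0 858 .e .e) .e) .n)))))) (.S 3490 .e (.A 1 942 (.N (.S 3511 .e (.S 3521 (.A 1 936 (.N (.X 0 1 .n (.A 0 888 (.A 0 874 .e .e) .n))) .e) (.A 1 936 (.N (.X 0 1 .n (.A 0 894 (.A 0 880 (.A 0 873 .e .e) (.x 6)) .n))) (.A 0 936 .e .e))))) .e)))))) (.A 0 954 (.S 3448 .e (.A 1 977 (.A 0 931 (.S 3490 .e (.A 1 965 (.X 0 1 .n (.A 0 892 (.A 0 857 .e (.A 0 874 .e .e)) .n)) .e)) .e) .e)) .e)))) (.A 0 909 (.A 1 939 (.A 0 864 (.X 2 0 (.N .e) .n) (.X 1 0 .e .n)) (.A 0 864 (.A 1 969 (.A 0 841 (.X 2 0 (.N .e) .n) (.X 1 0 .e .n)) (.A 0 841 .e (.S 3448 .e (.A 1 984 (.S 3490 .e .e) .e)))) (.A 1 969 (.A 0 886 (.X 1 0 .e .n) (.X 1 0 .e .n)) (.A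 0 886 (.S 3448 .e (.A 1 984 (.A 0 875 (.X 1 0 .e .n) (.X 1 0 .e .n)) .e)) (.S 3448 .e (.A 1 984 (.X 1 0 (.A 0 899 .e .n) .n) .e)))))) (.N (.A 0 954 (.A 1 954 (.X 1 0 (.A 0 938 .e .n) .n) (.X 1 0 (.A 0 892 .e .n) .n)) (.N .e)))))
def cM3 : Ct := (.A 2 955 (.A 0 907 (.A 1 907 .e (.A 2 932 (.N .e) (.S 3620 (.A 1 922 (.A 0 892 (.S 3576 (.A 2 943 .e (.A 0 884 (.S 3554 (.A 1 914 .e (.A 2 949 .e .e)) .e) (.x 6))) .e) .e) (.S 3576 (.A 0 892 (.S 3554 (.A 2 943 (.A 1 930 .e (.A 0 884 (.A 2 937 (.N .e) .e) (.x 6))) (.A 0 884 .e (.x 6))) (.A 2 943 (.A 1 930 .e (.A 0 884 .e (.x 6))) (.A 1 930 (.A 0 884 (.A 2 949 .e .e) (.x 6)) (.A 0 884 (.A 2 949 (.S 3565 .e .e) .e) (.x 6))))) (.x 6)) (.A 0 892 (.A 2 943 .e (.S 3598 (.A 1 930 .e (.A 0 884 .e (.x 6))) .e)) (.A 2 943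 .e (.x 6))))) .e))) (.N .e)) (.S 3620 (.A 1 907 (.N (.A 2 977 (.A 0 892 (.A 1 892 .e (.A 1 899 .e (.S 3576 (.A 2 966 .e (.A 0 884 .e (.x 6))) .e))) (.N .e)) (.S 3576 (.A 0 892 (.A 1 892 (.S 3554 (.A 2 988 (.A 1 884 (.N .e) (.A 0 884 .e (.x 6))) .e) (.A 2 988 (.A 1 884 (.N .e) (.A 0 884 .e (.x 6))) (.A 0 884 (.A 2 994 (.A 1 884 .e .e) .e) (.N (.x 6))))) (.A 2 988 .e .e)) (.N (.x 6))) (.A 0 892 (.A 1 892 (.A 2 988 .e (.S 3598 (.A 1 884 (.N .e) (.A 0 884 (.A 1 888 .e .e) (.x 6))) .e)) (.A 2 988 (.S 3598 (.A 0 884 .e (.x 6)) .e) (.A 0 884 .e (.x 6)))) (.N (.x 6)))))) (.A 0 907 (.A 2 977 (.S 3576 (.A 1 922 (.A 0 892 (.A 2 966 (.S 3554 .e (.A 1 914 (.A 0 884 .e (.x 6)) .e)) .e) (.x 6)) (.A 0 892 .e (.x 6))) (.A 1 922 (.A 0 892 (.S 3598 (.A 2 966 (.A 1 914 .e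 (.A 0 884 .e (.x 6))) (.A 0 884 (.A 1 914 .e .e) (.x 6))) (.A 2 966 .e (.A 0 884 .e (.x 6)))) (.x 6)) (.A 0 892 (.A 2 966 (.S 3598 (.A 1 930 (.A 0 884 .e (.x 6)) .e) (.A 1 930 .e (.A 0 884 .e (.x 6)))) (.A 0 884 .e (.x 6))) (.x 6)))) (.A 0 892 (.A 1 922 (.S 3576 .e (.A 2 988 (.S 3598 .e (.A 0 884 .e (.x 6))) .e)) .e) (.x 6))) (.x 6))) (.A 0 907 (.A 1 907 (.A 2 977 .e (.S 3664 (.A 0 892 .e (.N (.A 2 988 (.S 3642 (.x 6) .e) (.x 6)))) .e)) (.A 2 977 (.S 3664 (.A 1 922 (.A 0 892 .e (.A 2 966 .e (.A 0 899 .e (.x 6)))) (.A 0 892 (.A 2 966 .e (.S 3642 (.A 1 930 .e .e) .e)) (.A 2 966 (.S 3642 (.x 6) .e) (.x 6)))) .e) (.A 1 922 (.A 0 892 (.S 3664 (.A 2 988 (.S 3642 (.A 0 884 .e (.x 6)) .e) .e) .e) (.A 2 988 (.S 3664 (.x 6) .e) (.A 0 899 (.S 3664 (.x 6) .e) (.A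 1 914 (.S 3664 (.x 6) .e) (.x 6))))) (.A 0 892 .e (.A 2 988 (.S 3664 (.x 6) (.S 3686 (.x 6) .e)) (.x 6)))))) (.N (.A 2 977 (.A 0 922 (.A 1 922 .e (.A 2 966 .e (.S 3664 (.x 6) (.S 3686 (.x 6) .e)))) (.N (.x 6))) (.S 3664 (.x 6) (.A 1 922 (.N (.A 2 988 (.S 3686 (.x 6) .e) (.x 6))) (.x 6))))))))
def cM4 : Ct := (.A 0 877 (.A 0 816 (.A 1 934 (.A 2 955 .e (.A 1 901 .e (.A 0 785 .e (.S 3620 .e .e)))) (.N (.S 3620 (.A 2 967 (.N (.A 0 785 .e .e)) .e) (.A 2 967 (.N .e) (.A 1 967 .e .e))))) (.A 1 934 (.A 2 955 (.A 0 846 .e (.A 1 901 .e (.S 3620 (.A 2 932 (.N .e) (.S 3576 (.A 1 917 .e (.A 0 861 .e (.A 2 943 .e (.S 3554 (.A 0 869 (.A 1 925 .e .e) (.A 1 925 (.A 2 949 .e .e) .e)) .e)))) .e)) .e))) (.A 0 846 (.S 3620 (.A 1 901 .e .e) .e) (.A 1 901 (.S 3620 (.A 2 977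 (.A 1 884 .e (.S 3576 (.A 0 861 .e (.A 2 966 .e (.A 1 892 .e (.A 0 869 .e (.S 3554 .e .e))))) .e)) (.A 0 861 (.A 1 884 .e (.S 3576 (.A 2 988 .e .e) .e)) (.A 1 884 (.S 3576 (.A 2 988 .e (.S 3554 (.A 1 876 (.N (.A 0 868 .e (.A 2 994 .e .e))) (.A 0 869 .e (.A 2 994 .e .e))) .e)) .e) (.S 3576 (.A 0 869 .e .e) (.A 2 988 .e (.A 1 892 .e .e)))))) .e) (.A 2 977 (.S 3620 (.S 3576 (.A 1 917 (.A 0 861 (.A 2 966 .e .e) (.A 2 966 (.A 0 869 .e (.A 1 909 .e (.S 3554 .e .e))) (.A 0 869 (.S 3554 .e .e) (.S 3554 .e (.A 1 909 .e .e))))) (.A 0 861 .e (.A 2 966 (.A 1 925 (.A 0 869 .e .e) .e) .e))) (.A 1 917 .e (.A 0 861 .e (.A 2 966 .e .e)))) .e) .e)))) (.N (.A 2 967 (.N (.A 0 846 (.S 3620 .e .e) (.A 2 950 (.N (.S 3620 (.S 3576 (.A 0 861 .e (.S 3554 (.A 2 942 (.N (.A 0 869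 .e (.S 3543 .e (.A 0 873 .e (.A 2 938 (.N .e) .e))))) (.A 0 869 .e .e)) (.A 2 942 (.N .e) (.A 0 869 .e (.A 1 942 (.S 3565 .e .e) .e))))) .e) .e)) .e))) .e)))) (.N (.A 1 938 (.N cM3) (.N (.A 0 938 (.A 0 907 (.S 3620 (.A 2 969 (.N (.S 3576 (.A 2 953 (.N (.A 0 892 (.S 3554 .e (.A 2 945 (.N (.A 0 884 (.S 3565 .e (.A 0 880 .e (.x 6))) (.x 6))) .e)) (.x 6))) .e) (.A 2 953 (.N (.A 0 892 (.S 3598 (.A 2 945 (.N (.A 0 884 .e (.x 6))) (.A 0 884 (.A 1 945 (.S 3587 .e .e) .e) (.x 6))) (.A 2 945 (.N .e) (.A 1 945 .e (.A 0 884 .e (.x 6))))) (.x 6))) (.A 0 892 (.A 1 953 (.A 2 961 (.A 0 884 .e (.x 6)) .e) .e) (.x 6))))) (.A 1 969 .e .n)) (.A 2 969 (.N (.S 3664 (.A 2 953 (.N (.A 0 892 .e (.S 3642 (.x 6) .e))) (.A 1 953 (.A 0 892 (.A 2 961 (.S 3642 (.A 1 945 .e .e) .e) .e)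 (.x 6)) (.A 0 892 .e (.x 6)))) (.A 2 953 (.N .e) (.A 1 953 (.A 0 892 .e (.S 3686 (.A 2 961 .e (.x 6)) .e)) (.A 0 892 .e (.x 6)))))) (.A 1 969 (.A 2 984 (.A 1 953 (.A 0 892 .e (.x 6)) .e) .e) .e))) (.A 2 969 (.N (.A 0 922 (.S 3620 (.x 6) (.A 2 953 (.N .e) (.x 6))) (.x 6))) (.x 6))) (.x 6))))))
def cM5 : Ct := (.X 33 33 (.A 0 958 (.S 3800 (.A 1 970 (.A 0 937 (.X 0 1 .n (.N .e)) (.S 3754 (.A 1 955 (.N (.X 0 1 .n .e)) (.S 3731 (.A 0 947 (.X 0 1 .n (.x 6)) (.X 0 1 .n (.x 6))) (.A 0 947 (.X 0 1 .n (.x 6)) (.X 0 1 .n (.x 6))))) (.X 0 1 .n .e))) (.A 0 937 (.A 1 985 (.S 3754 (.A 0 926 .e (.S 3731 (.X 0 1 .n (.x 6)) (.X 0 1 .n (.N (.x 6))))) .e) (.S 3754 (.A 0 926 (.S 3731 (.X 0 1 .n (.x 6)) (.X 0 1 .n (.N (.x 6)))) (.S 3731 (.X 0 1 .n (.x 6)) (.X 0 1 .n (.x 6))))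 (.X 0 1 .n (.N (.S 3777 (.x 6) .e))))) (.X 0 1 .n (.A 0 918 (.A 0 898 .e (.A 2 985 (.S 3754 (.S 3731 (.A 1 947 (.A 0 908 .e (.x 6)) (.x 6)) .e) .e) .e)) (.A 0 938 (.A 2 985 (.A 0 928 (.S 3754 (.x 6) .e) (.S 3754 (.x 6) (.A 1 947 .e (.S 3777 (.x 6) .e)))) (.A 0 928 (.A 1 947 (.A 2 992 (.S 3754 (.x 6) .e) (.x 6)) (.x 6)) (.x 6))) (.N (.x 6))))))) (.A 0 937 .e (.A 1 970 .e (.A 1 985 (.X 0 1 .n (.N .e)) (.S 3846 (.S 3823 (.A 0 947 (.X 0 1 .n (.N (.x 6))) (.X 0 1 .n (.x 6))) (.A 0 947 .e (.X 0 1 .n (.x 6)))) (.X 0 1 .n (.N .e))))))) (.N (.X 0 4 .n (.A 0 903 (.A 0 854 (.S 3800 (.A 0 830 .e .e) .e) (.S 3800 (.A 0 878 .e .e) (.A 0 878 .e (.A 2 979 (.N .e) .e)))) (.A 0 951 (.A 0 927 (.A 2 979 (.N (.S 3800 (.A 0 915 .e (.S 3754 (.x 6) (.S 3777 (.A 2 968 (.N .e)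 (.x 6)) .e))) .e)) .e) (.A 2 979 (.N (.A 0 939 (.S 3800 (.S 3754 (.x 6) (.A 2 968 (.N (.S 3777 (.x 6) .e)) (.x 6))) .e) (.S 3800 (.x 6) (.S 3846 (.S 3823 (.A 2 968 (.N .e) (.x 6)) .e) .e)))) (.A 1 979 (.A 0 939 (.A 1 968 (.A 2 989 (.S 3800 (.x 6) .e) .e) .e) (.S 3800 (.x 6) (.A 1 968 (.S 3846 (.x 6) .e) (.A 2 989 (.S 3846 (.x 6) .e) (.x 6))))) .e))) (.S 3800 (.x 6) (.S 3846 (.A 0 975 (.A 2 979 (.N (.A 0 963 (.A 2 968 (.N .e) (.x 6)) (.N (.x 6)))) (.x 6)) (.N .n)) (.A 0 975 (.A 2 979 (.N (.A 0 963 .e (.N .e))) (.A 1 979 (.A 0 963 (.A 1 968 (.A 2 989 .e (.x 6)) (.x 6)) (.N (.x 6))) (.x 6))) (.N (.x 6)))))))))) (.A 0 958 (.A 1 970 (.X 2 0 (.S 3800 (.A 1 937 (.N .e) .e) .e) .n) (.A 0 937 (.S 3800 (.A 1 985 (.S 3754 (.A 0 926 .e (.X 1 0 .e .n)) .e) (.A 0 926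 (.S 3754 (.S 3731 (.X 1 0 (.x 5) .n) (.X 1 0 (.N (.x 5)) .n)) .e) (.S 3754 (.X 1 0 (.A 0 919 .e (.x 5)) .n) (.S 3777 (.X 1 0 (.x 5) .n) .e)))) .e) (.S 3800 (.X 1 0 (.A 0 918 .e (.A 0 938 (.A 2 985 .e (.A 1 947 (.A 0 928 .e (.x 5)) (.x 5))) (.N (.x 5)))) .n) (.A 1 985 (.X 1 0 (.N .e) .n) (.X 1 0 (.S 3846 (.A 0 943 (.A 1 947 .e .e) (.N (.x 5))) .e) .n))))) (.N (.X 1 0 (.A 0 916 .e (.S 3800 (.A 0 958 (.A 2 979 (.N .e) (.x 5)) (.x 5)) (.A 0 958 (.A 2 979 (.N .e) (.A 1 979 (.A 0 937 .e (.A 2 989 .e (.A 1 968 (.A 0 947 .e (.A 2 994 .e (.x 5))) (.x 5)))) .e)) (.S 3846 (.x 5) (.A 2 979 (.N (.A 0 968 .e (.N (.x 5)))) (.x 5)))))) .n))))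
def cM6 : Ct := (.S 3532 (.S 3364 (.X 52 52 (.X 33 33 (.A 0 884 (.A 1 924 (.A 0 826 (.X 0 1 .n (.N .e)) (.A 1 886 (.X 0 1 .n .e) (.S 3284 (.A 0 855 (.A 1 905 (.X 0 1 .n .e) (.S 3244 (.A 0 840 (.A 1 914 .e .e) .e) (.X 0 1 .n .e))) (.A 1 905 (.A 0 869 (.X 0 1 .n .e) (.S 3244 .e (.X 0 1 .n (.A 0 863 .e .n)))) (.A 0 869 .e .e))) (.A 0 855 (.X 0 1 .n (.N .e)) (.A 1 905 (.X 0 1 .n .e) (.A 0 869 (.X 0 1 .n .e) (.S 3324 (.A 1 914 (.X 0 1 .n (.A 0 866 .e .n)) .e) (.X 0 1 .n .e)))))))) (.A 0 826 (.A 1 962 (.A 0 797 (.X 0 1 .n (.N .e)) (.S 3284 (.A 1 943 (.X 0 1 .n .e) .e) (.X 0 1 .n (.N .e)))) (.S 3284 .e (.A 0 797 .e .e))) (.A 1 962 (.S 3284 (.A 0 855 (.A 1 943 (.S 3244 .e (.A 0 840 .e .e)) .e) .e) (.A 0 855 (.A 1 943 (.X 0 1 .n .e) (.S 3324 .e (.A 0 840 (.A 1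 952 .e .e) .e))) (.A 1 943 (.A 0 869 (.S 3324 .e (.X 0 1 .n .e)) (.S 3324 .e (.A 1 933 (.A 0 876 (.X 0 1 .n (.A 0 869 .e .n)) .e) .e))) .e))) .e))) (.N (.A 1 942 (.N (.A 1 913 (.N (.S 3284 (.S 3244 .e .e) (.A 0 898 (.A 1 898 (.X 0 1 .n (.A 0 896 .e .n)) (.S 3324 .e (.X 0 1 .n (.A 0 881 .e .n)))) (.N (.S 3324 .e (.A 1 905 (.N .e) .e)))))) (.A 0 913 (.S 3284 .e (.A 0 898 (.S 3324 .e (.A 1 927 .e .e)) .e)) .e))) .e))) (.A 0 884 (.A 1 924 (.A 0 826 (.X 2 0 (.N .e) .n) (.X 1 0 .e .n)) (.A 0 826 (.A 1 962 (.A 0 797 .e (.X 1 0 .e .n)) (.A 0 797 .e .e)) (.A 1 962 (.A 0 855 (.X 1 0 .e .n) (.X 1 0 (.A 0 883 .e .n) .n)) .e))) (.N (.A 1 942 (.N (.X 1 0 (.A 0 896 .e .n) .n)) (.X 1 0 (.A 0 834 .e .n) .n))))) (.A 0 924 (.X 33 21 (.X 2 0 .e .n) .n) .e)) (.X 52 52 cM2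 (.A 0 939 (.X 33 24 (.X 2 0 .e .n) .n) (.A 0 969 (.X 33 19 (.X 1 0 .e .n) .n) .e)))) (.S 3708 (.X 52 52 (.X 33 33 (.X 0 33 .n (.A 0 755 (.A 0 633 (.A 1 934 .e (.N (.A 0 572 .e .e))) (.A 1 934 .e (.N (.A 0 694 .e (.S 3620 (.A 2 967 (.N .e) (.A 1 967 .e .e)) .e))))) cM4)) (.X 4 0 (.A 0 849 (.A 0 773 .e .e) (.A 0 924 (.A 1 934 (.A 2 955 (.A 0 886 .e (.N .e)) (.S 3620 (.A 0 886 (.A 1 901 (.A 2 977 .e (.A 0 867 .e (.S 3576 (.A 1 884 (.N (.A 2 988 (.S 3554 (.A 0 875 .e (.N .e)) .e) (.S 3554 (.A 1 876 (.N (.A 2 994 .e .e)) (.A 0 875 .e .e)) (.A 0 875 .e (.N (.A 2 994 .e (.S 3565 .e .e))))))) (.A 2 988 .e (.A 0 876 .e (.A 1 892 (.A 2 994 .e .e) .e)))) (.A 1 884 (.N .e) (.A 2 988 .e (.S 3598 (.A 0 876 .e (.A 1 892 (.A 2 994 .e (.S 3587 (.A 0 881 .e (.x 5)) .e))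 .e)) .e)))))) .e) (.N (.S 3576 (.x 5) (.A 1 910 (.N (.A 2 977 (.A 1 898 (.N .e) .e) (.x 5))) (.x 5))))) (.A 0 886 (.A 1 901 .e .e) (.N (.A 2 977 (.A 1 910 (.N .e) .e) (.A 1 910 (.N (.S 3664 (.A 0 898 (.A 2 988 .e (.A 1 898 .e (.x 5))) (.N (.x 5))) .e)) (.A 0 905 .e (.S 3664 (.x 5) (.A 2 988 (.A 1 922 (.N (.S 3686 (.x 5) .e)) (.x 5)) (.x 5)))))))))) (.N .e)) (.N (.S 3620 (.x 5) (.A 2 962 (.N (.A 2 943 (.N .e) (.A 1 943 (.N .e) (.x 5)))) (.x 5)))))) .n)) (.X 33 19 (.A 0 934 (.X 2 0 .e .n) (.N (.X 1 0 (.A 0 982 (.A 0 851 .e (.A 0 916 .e (.S 3620 (.x 4) (.A 1 967 (.N (.A 2 967 (.A 0 941 .e (.N (.x 4))) (.x 4))) (.N .n))))) .n) .n))) .n)) (.X 52 52 cM5 (.X 34 24 (.A 0 953 (.X 2 0 .e .n) (.N (.X 2 0 (.A 0 911 .e (.S 3800 (.A 0 955 (.A 2 976 (.N .e) .e) (.N (.x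 4))) (.A 0 955 (.A 1 976 .e (.N .e)) (.N (.S 3846 (.A 2 977 (.N .e) (.x 4)) (.A 1 977 (.N .e) (.N (.x 4)))))))) .n))) .n))))
def cM7 : Ct := (.S 1971 (.S 1403 (.S 1157 (.S 1050 .e (.S 1102 .e .e)) (.S 1274 (.S 1214 .e .e) (.S 1337 .e .e))) (.S 1623 (.S 1473 .e (.S 1546 .e .e)) (.S 1789 (.S 1704 .e (.X 1 0 (.A 0 889 .e .n) .n)) (.S 1878 (.X 1 0 (.A 0 938 .e .n) .n) (.X 2 0 (.A 0 979 (.A 0 948 .e .e) .n) .n))))) (.S 2769 (.S 2280 (.S 2069 (.S 2020 (.S 1995 (.X 1 0 (.A 0 985 .e .n) .n) (.X 1 0 (.A 0 991 .e .n) .n)) (.S 2044 (.X 1 0 (.A 0 997 .n .n) .n) .e)) (.S 2172 .e .e)) (.S 2513 (.S 2394 (.S 2337 .e (.X 13 33 .n (.A 0 905 (.A 0 858 (.X 0 1 .n (.A 0 812 .e (.N (.x 0)))) .e) .e))) (.X 15 33 .n (.A 0 914 (.A 0 871 (.X 0 2 .n (.A 0 825 .e (.x 0))) (.X 0 1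 .n (.A 0 869 (.A 0 804 .e (.x 0)) .n))) .e))) (.S 2638 (.X 19 33 .n (.A 0 931 (.A 0 896 (.S 2575 (.X 0 1 .n (.x 0)) (.X 0 1 .n (.N (.x 0)))) (.X 0 1 .n (.A 0 914 (.A 0 854 .e (.x 0)) .n))) .e)) (.X 34 33 (.A 0 944 (.A 0 916 .e .e) .e) (.A 0 948 (.S 2703 (.A 0 922 (.X 0 2 .n (.x 0)) (.X 0 1 .n (.A 0 924 (.x 0) .n))) (.A 0 922 (.X 0 1 .n (.N (.x 0))) (.X 0 2 .n (.x 0)))) (.X 0 1 .n (.A 0 933 (.A 0 861 .e (.x 0)) .n))))))) (.S 3204 (.S 2907 (.X 39 34 (.A 0 937 (.A 0 905 .e .e) (.X 0 33 .n (.A 0 807 .e .e))) (.X 0 4 .n (.A 0 920 (.A 1 961 (.A 0 880 .e (.S 2838 (.A 1 941 .e (.A 0 900 .e (.x 0))) .e)) (.A 0 880 .e (.S 2838 (.x 0) (.A 0 900 .e (.A 1 980 .e (.x 0)))))) (.A 0 960 (.A 1 961 (.S 2838 (.x 0) (.A 0 940 .e (.N (.x 0)))) (.x 0)) (.N (.x 0)))))) (.S 3052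 (.X 41 34 (.X 33 33 (.A 0 834 (.A 0 751 (.A 1 944 (.A 0 709 .e .e) (.A 1 972 .e .e)) (.A 1 944 (.A 0 792 (.A 1 916 .e .e) .e) .e)) .e) (.A 0 834 (.A 0 751 (.A 1 944 (.A 0 709 .e .e) .e) .e) (.A 0 917 .e (.N .e)))) (.S 2979 (.S 2943 (.A 0 979 (.X 0 3 .n (.x 0)) (.X 0 2 .n (.A 0 993 (.x 0) .n))) (.A 0 979 (.X 1 2 .n (.N (.x 0))) (.X 0 3 .n (.x 0)))) (.A 0 979 .e (.S 3015 (.X 0 3 .n (.x 0)) (.X 0 3 .n (.x 0)))))) (.X 50 34 (.A 0 918 (.A 0 877 (.A 0 857 .e .e) (.A 0 897 .e (.A 0 907 .e (.X 16 33 .n (.A 0 844 (.A 0 807 .e .e) .e))))) (.X 33 33 (.A 0 859 (.A 0 789 (.A 1 959 (.A 0 754 (.S 3128 .e .e) (.S 3128 .e (.A 0 771 .e .e))) (.A 0 754 .e .e)) (.A 1 959 (.A 0 824 .e .e) .e)) .e) (.A 0 859 (.A 0 789 (.A 1 959 (.A 0 754 .e .e) .e) (.A 1 959 (.A 0 824 .e .e)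 .e)) (.A 0 929 .e (.N .e))))) .e))) cM6)))
def cM8 : Ct := (.S 4505 (.S 4087 (.X 53 52 (.A 0 981 (.A 0 971 .e (.A 0 976 .e (.S 3990 (.S 3941 (.X 33 33 (.X 0 1 .n (.x 6)) (.X 1 0 (.x 5) .n)) .e) .e))) (.S 3990 (.X 33 33 (.S 3941 (.X 0 1 .n (.A 0 967 (.A 0 950 (.A 1 982 .e (.N .e)) (.A 1 982 (.A 2 990 .e (.A 0 958 .e (.A 1 973 .e (.x 6)))) (.N (.A 0 958 .e (.x 6))))) (.N (.A 1 983 (.N (.A 2 990 (.S 3917 (.x 6) .e) (.x 6))) (.N (.x 6)))))) (.A 0 982 (.X 0 1 .n (.N .e)) (.N (.S 3965 (.X 0 1 .n (.A 0 979 (.A 0 969 .e (.x 6)) (.x 6))) (.A 1 991 (.N (.X 0 1 .n (.N (.x 6)))) (.S 3977 (.X 0 1 .n (.x 6)) (.X 0 1 .n (.x 6)))))))) (.S 3941 (.A 0 982 (.S 3917 (.A 1 990 (.X 1 0 (.x 5) .n) (.X 1 0 (.x 5) .n)) (.X 1 0 (.A 2 990 .e (.x 5)) .n)) (.N (.X 1 0 (.A 0 967 .e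 (.x 5)) .n))) (.X 1 0 (.A 0 979 (.A 1 982 .e (.N .e)) (.N (.S 3965 (.x 5) (.A 0 989 (.A 1 989 .e (.N (.x 5))) (.N (.x 5)))))) .n))) (.A 0 990 .e (.S 4038 (.S 4014 (.X 33 33 (.X 0 1 .n (.x 6)) (.X 1 0 (.x 5) .n)) (.X 33 33 (.N (.X 0 1 .n (.N (.x 6)))) (.N (.X 1 0 (.N (.x 5)) .n)))) .e)))) (.S 3990 (.X 33 29 (.A 0 982 (.X 1 0 .e .n) (.N (.X 1 0 (.A 0 967 .e (.S 3941 (.x 4) (.A 0 983 (.A 1 991 .e (.N (.x 4))) (.N (.x 4))))) .n))) .n) (.X 33 32 (.N (.S 4038 (.S 4014 (.X 1 0 (.x 4) .n) (.X 1 0 (.N (.x 4)) .n)) .e)) .n))) (.S 4291 (.X 53 52 .e .n) (.X 75 77 (.A 0 905 (.A 0 857 .e (.X 52 51 (.N .e) .n)) (.A 0 952 (.A 0 928 .e .e) .e)) (.A 0 896 (.A 0 844 (.A 0 818 .e .e) .e) .e)))) (.S 4966 (.S 4730 (.X 77 77 (.A 0 909 (.A 0 863 .e (.A 0 886 .e .e)) (.A 0 954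 (.A 0 931 (.X 52 51 (.N .e) .n) (.S 4617 .e (.A 0 942 .e .e))) (.A 0 977 .e .e))) (.A 0 909 (.A 0 863 (.A 0 840 .e (.S 4617 .e (.X 62 66 .n .e))) (.A 0 886 .e .e)) (.A 0 954 (.X 52 48 (.N .e) .n) .e))) (.X 77 77 (.A 0 922 (.A 0 883 .e (.A 0 902 (.A 0 892 .e (.S 4848 .e .e)) (.S 4848 .e .e))) (.A 0 961 (.X 52 51 (.N .e) .n) (.A 0 980 (.S 4848 .e (.A 0 970 .e (.S 4907 .e .e))) (.A 0 990 .e .e)))) (.A 0 922 (.A 0 883 (.A 0 863 .e (.X 66 66 .e .e)) .e) (.A 0 961 .e .e)))) (.S 5214 (.X 77 77 (.A 0 935 (.A 0 902 (.A 0 886 .e (.X 63 66 .n .e)) (.X 58 66 .n (.A 0 900 .e .e))) (.A 0 967 (.S 5090 .e .e) (.A 0 983 .e (.S 5090 (.A 0 991 .e (.X 52 50 (.S 5028 .e (.S 5059 .e .e)) .n)) .e)))) (.A 0 935 (.A 0 902 (.A 0 886 .e (.X 63 66 .n .e)) (.S 5090 (.X 58 66 .n .e)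 (.X 60 66 .n .e))) (.A 0 967 .e .e))) (.X 77 77 (.A 0 948 (.X 60 66 .n .e) (.A 0 974 (.X 57 66 .n .e) .e)) (.A 0 948 (.X 62 66 (.N .e) .e) (.S 5344 (.A 0 974 (.X 57 66 .n .e) .e) (.X 56 66 .n (.A 0 949 .e (.N .e)))))))))
def cM9 : Ct := (.S 6335 (.S 5747 (.X 77 77 (.A 0 962 (.A 0 943 .e .e) .e) (.X 66 66 (.A 0 958 .e (.N .e)) (.A 0 958 .e (.N .e)))) (.S 6034 (.X 77 77 (.A 0 976 .e .e) (.X 61 66 .n .e)) (.X 86 86 (.A 0 945 (.A 0 917 .e (.A 0 931 .e (.S 6184 .e .e))) (.A 0 972 (.A 0 958 .e .e) (.A 0 986 .e (.S 6184 .e .e)))) (.A 0 945 (.A 0 917 (.X 77 74 (.N .e) .n) (.X 77 71 .e .n)) (.A 0 972 .e (.X 64 66 .n (.N .e))))))) (.S 6983 (.S 6651 (.X 86 86 (.A 0 958 (.A 0 937 (.S 6493 (.X 77 77 (.N .e) (.N .e)) .e) (.S 6493 (.A 0 947 (.S 6414 .e (.X 75 77 .n .e))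 .e) (.X 77 77 (.X 64 66 .n (.N .e)) (.X 66 64 (.N .e) .n)))) (.A 0 979 (.S 6493 (.A 0 968 .e .e) (.X 77 77 (.A 0 954 (.A 0 942 .e .e) (.A 0 966 (.S 6572 .e .e) (.N .e))) (.X 66 61 (.A 1 954 (.N .e) .e) .n))) (.A 0 989 (.X 69 77 .n (.A 0 950 (.X 66 62 (.N .e) .n) .e)) (.A 0 994 (.S 6493 .e .e) .e)))) (.A 0 958 (.X 77 73 (.N (.X 66 62 (.N .e) .n)) .n) (.A 0 979 (.X 77 70 (.X 66 59 .e .n) .n) (.S 6493 .e (.X 75 69 (.A 0 973 .e .e) .n))))) (.X 86 86 (.X 77 77 (.A 0 971 (.A 1 971 (.S 6817 (.A 0 956 .e (.N (.X 66 64 .e .n))) .e) (.S 6817 (.A 0 956 (.S 6734 .e .e) (.A 1 985 (.X 66 64 .e .n) .e)) (.A 1 985 .e (.X 66 65 (.N .e) .n)))) (.N (.S 6817 (.A 1 985 (.N (.S 6734 .e (.A 1 978 (.N .e) (.A 0 978 .e .e)))) (.A 0 985 (.S 6734 .e .e) .e)) (.S 6900 (.A 1 985 (.N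 (.X 66 64 .e .n)) (.A 0 985 (.X 66 66 .e .e) (.A 1 992 (.N (.S 6858 .e (.A 1 988 (.N .e) .e))) (.S 6858 .e .e)))) (.A 1 985 (.N (.A 0 978 .e (.N (.X 66 65 (.N .e) .n)))) (.A 0 985 (.X 66 66 (.N .e) (.N .e)) (.S 6941 (.A 1 992 (.N .e) (.A 0 992 .e (.A 1 996 (.N .e) .e))) (.X 66 66 .e .e)))))))) (.A 0 971 (.X 66 63 (.N .e) .n) (.N (.X 66 60 (.A 0 970 .e (.A 1 985 (.N .e) (.N .e))) .n)))) (.X 77 71 (.A 0 971 (.X 66 63 (.N .e) .n) (.N (.X 66 60 (.A 0 970 .e (.A 2 985 (.N .e) .e)) .n))) .n))) (.S 7332 (.X 86 86 (.A 0 985 (.X 77 77 (.N .e) (.N .e)) (.A 0 992 (.S 7157 (.X 77 77 (.X 66 66 (.N .e) (.N .e)) (.X 66 65 (.N .e) .n)) .e) (.X 77 77 (.S 7157 (.X 66 66 (.N (.S 7070 .e .e)) (.N .e)) .e) (.X 66 64 (.N .e) .n)))) (.X 77 74 (.N (.X 66 64 (.N .e) .n)) .n))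 (.X 86 86 .e .e))))
def cM : Ct := (.S 3893 cM7 (.S 7698 (.S 5474 cM8 cM9) (.S 10828 (.S 8910 (.S 8082 .e (.S 8486 (.X 93 91 .e .n) .e)) (.S 9822 (.S 9355 .e (.X 105 103 (.A 0 967 .e .e) (.A 0 977 .e .e))) (.S 10313 .e (.X 105 105 .e .e)))) (.S 12533 (.S 11369 .e (.S 11937 .e .e)) (.S 13816 (.S 13159 .e .e) (.S 14506 .e .e))))))
theorem cM_ok : chk par tab 20828 1280 206 xs cM 1000 15020 [.m 1000 1000] = true := by decide +kernel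

/-- exceptional boxes for the star regime, p in [5140, 5182] / 2 ^ 14 -/
def ys1 : List XC := [⟨[.m 200 250, .p 1000 1000], 307914⟩, ⟨[.m 250 300, .p 1000 1000], 297182⟩, ⟨[.m 300 350, .p 1000 1000], 284303⟩, ⟨[.m 350 400, .p 1000 1000], 269546⟩, ⟨[.m 400 450, .p 1000 1000], 253179⟩, ⟨[.m 450 500, .p 1000 1000], 236276⟩, ⟨[.m 500 550, .p 1000 1000], 221787⟩, ⟨[.m 550 600, .p 1000 1000], 224202⟩, ⟨[.m 600 650, .p 1000 1000], 232520⟩, ⟨[.m 650 700, .p 1000 1000], 263375⟩, ⟨[.m 700 750, .p 1000 1000], 295035⟩, ⟨[.m 750 800, .p 1000 1000], 311939⟩, ⟨[.m 800 850, .p 1000 1000], 318915⟩, ⟨[.m 850 900, .p 1000 1000], 324013⟩, ⟨[.m 900 950, .p 1000 1000], 329915⟩, ⟨[.m 950 1000, .p 1000 1000], 333672⟩, ⟨[.m 1000 1050, .p 1000 1000], 336892⟩, ⟨[.m 380 550, .m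 450 600, .p 1000 1000], 60000⟩]
def cS1_1 : Ct := (.S 1481 (.A 0 491 (.S 1476 (.A 0 486 (.S 1473 (.A 0 484 (.X 0 1 .n (.x 17)) (.S 1472 (.A 0 485 (.X 0 1 .n (.x 17)) (.X 0 1 .n (.x 17))) (.A 0 485 (.X 0 1 .n (.x 17)) (.X 0 1 .n (.x 17))))) (.X 0 1 .n (.x 17))) (.S 1472 (.x 5) (.A 0 488 (.S 1474 (.S 1473 (.A 0 487 (.X 0 1 .n (.x 17)) (.x 5)) (.A 0 487 (.X 0 1 .n (.x 17)) (.X 0 1 .n (.A 0 487 (.x 17) .n)))) (.S 1475 (.A 0 487 (.X 0 1 .n (.x 17)) (.X 0 1 .n (.x 17))) (.X 0 1 .n (.x 17)))) (.S 1474 (.x 5) (.A 0 489 (.S 1475 (.X 0 1 .n (.A 0 487 (.x 17) .n)) (.X 0 1 .n (.A 0 488 (.x 17) .n))) (.S 1475 (.x 5) (.A 0 490 (.X 0 1 .n (.A 0 487 (.x 17) .n)) (.x 5)))))))) (.A 0 486 (.X 0 1 .n (.N (.x 17))) (.S 1478 (.A 0 488 (.X 0 1 .n (.x 17)) (.A 0 489 (.X 0 1 .n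 (.x 17)) (.S 1477 (.A 0 490 (.X 0 1 .n (.A 0 488 (.x 17) .n)) (.X 0 1 .n (.A 0 487 (.x 17) .n))) (.A 0 490 (.X 0 1 .n (.A 0 489 (.x 17) .n)) (.X 0 1 .n (.A 0 488 (.x 17) .n)))))) (.X 0 1 .n (.x 17))))) (.S 1477 (.x 5) (.A 0 495 (.S 1479 (.A 0 493 (.S 1478 (.A 0 492 (.X 0 1 .n (.A 0 487 (.x 17) .n)) (.x 5)) (.A 0 492 (.X 0 1 .n (.A 0 488 (.x 17) .n)) (.X 0 1 .n (.A 0 487 (.x 17) .n)))) (.x 5)) (.A 0 493 (.S 1480 (.A 0 492 (.X 0 1 .n (.A 0 489 (.x 17) .n)) (.X 0 1 .n (.A 0 488 (.x 17) .n))) (.X 0 1 .n (.A 0 490 (.x 17) .n))) (.S 1480 (.A 0 494 (.X 0 1 .n (.A 0 487 (.x 17) .n)) (.x 5)) (.A 0 494 (.X 0 1 .n (.A 0 488 (.x 17) .n)) (.X 0 1 .n (.A 0 487 (.x 17) .n)))))) (.x 5)))) (.A 0 491 (.X 0 1 .n (.N (.x 17))) (.S 1486 (.A 0 495 (.S 1483 (.A 0 493 (.X 0 1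 .n (.A 0 492 (.x 17) .n)) (.S 1482 (.A 0 494 (.X 0 1 .n (.A 0 489 (.x 17) .n)) (.X 0 1 .n (.A 0 488 (.x 17) .n))) (.X 0 1 .n (.A 0 490 (.x 17) .n)))) (.X 0 1 .n (.x 17))) (.S 1483 (.A 0 497 (.S 1482 (.A 0 496 (.X 0 1 .n (.A 0 487 (.x 17) .n)) (.x 5)) (.A 0 496 (.X 0 1 .n (.A 0 488 (.x 17) .n)) (.X 0 1 .n (.A 0 487 (.x 17) .n)))) (.x 5)) (.A 0 497 (.S 1484 (.A 0 496 (.X 0 1 .n (.A 0 489 (.x 17) .n)) (.X 0 1 .n (.A 0 488 (.x 17) .n))) (.X 0 1 .n (.A 0 491 (.x 17) .n))) (.S 1484 (.A 0 498 (.X 0 1 .n (.A 0 487 (.x 17) .n)) (.x 5)) (.A 0 498 (.S 1485 (.X 0 1 .n (.A 0 488 (.x 17) .n)) (.X 0 1 .n (.A 0 489 (.x 17) .n))) (.S 1485 (.A 0 499 (.X 0 1 .n (.A 0 487 (.x 17) .n)) (.x 5)) (.A 0 499 (.X 0 1 .n (.A 0 488 (.x 17) .n)) (.X 0 1 .n (.A 0 487 (.x 17) .n)))))))))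 (.A 0 495 (.X 0 1 .n (.x 17)) (.S 1488 (.A 0 497 (.X 0 1 .n (.A 0 493 (.x 17) .n)) (.A 0 498 (.X 0 1 .n (.A 0 491 (.x 17) .n)) (.S 1487 (.A 0 499 (.X 0 1 .n (.A 0 489 (.x 17) .n)) (.X 0 1 .n (.A 0 488 (.x 17) .n))) (.X 0 1 .n (.A 0 490 (.x 17) .n))))) (.X 0 1 .n (.A 0 496 (.x 17) .n)))))))
def cS1_2 : Ct := (.A 0 512 (.S 1481 (.A 0 506 (.S 1476 (.A 0 503 (.S 1473 (.A 0 501 (.S 1472 (.X 0 1 .n (.A 0 472 (.x 17) .n)) (.X 0 1 .n (.A 0 473 (.x 17) .n))) (.S 1472 (.x 6) (.A 0 502 (.X 0 1 .n (.A 0 472 (.x 17) .n)) (.x 6)))) (.A 0 501 (.X 0 1 .n (.A 0 476 (.x 17) .n)) (.S 1474 (.A 0 502 (.X 0 1 .n (.A 0 473 (.x 17) .n)) (.X 0 1 .n (.A 0 472 (.x 17) .n))) (.A 0 502 (.X 0 1 .n (.A 0 475 (.x 17) .n)) (.S 1475 (.X 0 1 .n (.A 0 473 (.x 17) .n)) (.X 0 1 .n (.A 0 474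 (.x 17) .n))))))) (.S 1474 (.x 6) (.A 0 504 (.S 1475 (.X 0 1 .n (.A 0 472 (.x 17) .n)) (.X 0 1 .n (.A 0 473 (.x 17) .n))) (.S 1475 (.x 6) (.A 0 505 (.X 0 1 .n (.A 0 472 (.x 17) .n)) (.x 6)))))) (.A 0 503 (.X 0 1 .n (.A 0 481 (.x 17) .n)) (.S 1478 (.A 0 504 (.X 0 1 .n (.A 0 475 (.x 17) .n)) (.A 0 505 (.S 1477 (.X 0 1 .n (.A 0 473 (.x 17) .n)) (.X 0 1 .n (.A 0 474 (.x 17) .n))) (.S 1477 (.X 0 1 .n (.A 0 472 (.x 17) .n)) (.X 0 1 .n (.A 0 473 (.x 17) .n))))) (.X 0 1 .n (.A 0 478 (.x 17) .n))))) (.S 1477 (.x 6) (.A 0 509 (.S 1479 (.A 0 507 (.S 1478 (.X 0 1 .n (.A 0 472 (.x 17) .n)) (.X 0 1 .n (.A 0 473 (.x 17) .n))) (.S 1478 (.x 6) (.A 0 508 (.X 0 1 .n (.A 0 472 (.x 17) .n)) (.x 6)))) (.A 0 507 (.X 0 1 .n (.A 0 475 (.x 17) .n)) (.A 0 508 (.S 1480 (.X 0 1 .n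 (.A 0 473 (.x 17) .n)) (.X 0 1 .n (.A 0 474 (.x 17) .n))) (.S 1480 (.X 0 1 .n (.A 0 472 (.x 17) .n)) (.X 0 1 .n (.A 0 473 (.x 17) .n)))))) (.S 1480 (.x 6) (.A 0 510 (.X 0 1 .n (.A 0 472 (.x 17) .n)) (.x 6)))))) (.A 0 506 (.X 0 1 .n (.A 0 491 (.x 17) .n)) (.S 1486 (.A 0 509 (.X 0 1 .n (.A 0 480 (.x 17) .n)) (.S 1483 (.A 0 510 (.S 1482 (.X 0 1 .n (.A 0 473 (.x 17) .n)) (.X 0 1 .n (.A 0 474 (.x 17) .n))) (.A 0 511 (.S 1482 (.X 0 1 .n (.A 0 472 (.x 17) .n)) (.X 0 1 .n (.A 0 473 (.x 17) .n))) (.S 1482 (.x 6) (.X 0 1 .n (.A 0 472 (.x 17) .n))))) (.A 0 510 (.X 0 1 .n (.A 0 477 (.x 17) .n)) (.S 1484 (.A 0 511 (.X 0 1 .n (.A 0 474 (.x 17) .n)) (.X 0 1 .n (.A 0 473 (.x 17) .n))) (.X 0 1 .n (.A 0 476 (.x 17) .n)))))) (.X 0 1 .n (.A 0 485 (.x 17) .n))))) (.S 1483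 (.x 6) (.A 0 518 (.S 1487 (.A 0 515 (.S 1485 (.A 0 513 (.S 1484 (.X 0 1 .n (.A 0 472 (.x 17) .n)) (.X 0 1 .n (.A 0 473 (.x 17) .n))) (.S 1484 (.x 6) (.A 0 514 (.X 0 1 .n (.A 0 471 (.x 17) .n)) (.x 6)))) (.A 0 513 (.X 0 1 .n (.A 0 475 (.x 17) .n)) (.A 0 514 (.S 1486 (.X 0 1 .n (.A 0 473 (.x 17) .n)) (.X 0 1 .n (.A 0 474 (.x 17) .n))) (.S 1486 (.X 0 1 .n (.A 0 471 (.x 17) .n)) (.X 0 1 .n (.A 0 473 (.x 17) .n)))))) (.x 6)) (.A 0 515 (.S 1489 (.A 0 513 (.X 0 1 .n (.A 0 477 (.x 17) .n)) (.A 0 514 (.X 0 1 .n (.A 0 476 (.x 17) .n)) (.S 1488 (.X 0 1 .n (.A 0 474 (.x 17) .n)) (.X 0 1 .n (.A 0 475 (.x 17) .n))))) (.X 0 1 .n (.A 0 479 (.x 17) .n))) (.S 1489 (.A 0 516 (.S 1488 (.X 0 1 .n (.A 0 472 (.x 17) .n)) (.X 0 1 .n (.A 0 474 (.x 17) .n))) (.S 1488 (.x 6) (.A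 0 517 (.X 0 1 .n (.A 0 472 (.x 17) .n)) (.x 6)))) (.A 0 516 (.X 0 1 .n (.A 0 476 (.x 17) .n)) (.A 0 517 (.S 1490 (.X 0 1 .n (.A 0 474 (.x 17) .n)) (.X 0 1 .n (.A 0 475 (.x 17) .n))) (.S 1490 (.X 0 1 .n (.A 0 472 (.x 17) .n)) (.X 0 1 .n (.A 0 473 (.x 17) .n)))))))) (.S 1490 (.x 6) (.A 0 521 (.A 0 519 (.X 0 1 .n (.A 0 472 (.x 17) .n)) (.x 6)) (.x 6))))))
def cS1_3 : Ct := (.A 0 537 (.S 1506 (.A 0 531 (.S 1501 (.A 0 528 (.S 1499 (.A 0 526 (.S 1498 (.X 0 1 .n (.A 0 472 (.x 17) .n)) (.X 0 1 .n (.A 0 473 (.x 17) .n))) (.S 1498 (.x 6) (.A 0 527 (.X 0 1 .n (.A 0 472 (.x 17) .n)) (.x 6)))) (.A 0 526 (.X 0 1 .n (.A 0 475 (.x 17) .n)) (.A 0 527 (.S 1500 (.X 0 1 .n (.A 0 473 (.x 17) .n)) (.X 0 1 .n (.A 0 474 (.x 17) .n))) (.S 1500 (.X 0 1 .n (.A 0 472 (.x 17) .n))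 (.X 0 1 .n (.A 0 473 (.x 17) .n)))))) (.S 1500 (.x 6) (.A 0 529 (.X 0 1 .n (.A 0 472 (.x 17) .n)) (.x 6)))) (.A 0 528 (.X 0 1 .n (.A 0 480 (.x 17) .n)) (.S 1503 (.A 0 529 (.S 1502 (.X 0 1 .n (.A 0 473 (.x 17) .n)) (.X 0 1 .n (.A 0 474 (.x 17) .n))) (.A 0 530 (.S 1502 (.X 0 1 .n (.A 0 472 (.x 17) .n)) (.X 0 1 .n (.A 0 473 (.x 17) .n))) (.S 1502 (.x 6) (.X 0 1 .n (.A 0 472 (.x 17) .n))))) (.A 0 529 (.X 0 1 .n (.A 0 477 (.x 17) .n)) (.S 1504 (.A 0 530 (.X 0 1 .n (.A 0 474 (.x 17) .n)) (.X 0 1 .n (.A 0 473 (.x 17) .n))) (.X 0 1 .n (.A 0 476 (.x 17) .n))))))) (.S 1503 (.x 6) (.A 0 534 (.A 0 532 (.S 1504 (.X 0 1 .n (.A 0 472 (.x 17) .n)) (.S 1505 (.X 0 1 .n (.A 0 473 (.x 17) .n)) (.X 0 1 .n (.A 0 474 (.x 17) .n)))) (.S 1504 (.x 6) (.A 0 533 (.S 1505 (.X 0 1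 .n (.A 0 472 (.x 17) .n)) (.X 0 1 .n (.A 0 473 (.x 17) .n))) (.S 1505 (.x 6) (.X 0 1 .n (.A 0 472 (.x 17) .n)))))) (.x 6)))) (.A 0 531 (.X 0 1 .n (.A 0 491 (.x 17) .n)) (.S 1511 (.A 0 534 (.S 1508 (.A 0 532 (.X 0 1 .n (.A 0 476 (.x 17) .n)) (.A 0 533 (.X 0 1 .n (.A 0 475 (.x 17) .n)) (.S 1507 (.X 0 1 .n (.A 0 473 (.x 17) .n)) (.X 0 1 .n (.A 0 474 (.x 17) .n))))) (.X 0 1 .n (.A 0 479 (.x 17) .n))) (.S 1508 (.A 0 535 (.S 1507 (.X 0 1 .n (.A 0 472 (.x 17) .n)) (.X 0 1 .n (.A 0 473 (.x 17) .n))) (.x 6)) (.A 0 535 (.S 1509 (.X 0 1 .n (.A 0 474 (.x 17) .n)) (.X 0 1 .n (.A 0 476 (.x 17) .n))) (.S 1509 (.A 0 536 (.X 0 1 .n (.A 0 472 (.x 17) .n)) (.x 6)) (.A 0 536 (.S 1510 (.X 0 1 .n (.A 0 474 (.x 17) .n)) (.X 0 1 .n (.A 0 475 (.x 17) .n))) (.S 1510 (.X 0 1 .n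 (.A 0 472 (.x 17) .n)) (.X 0 1 .n (.A 0 473 (.x 17) .n)))))))) (.X 0 1 .n (.A 0 484 (.x 17) .n))))) (.S 1510 (.x 6) (.A 0 543 (.A 0 540 (.S 1513 (.A 0 538 (.S 1511 (.X 0 1 .n (.A 0 472 (.x 17) .n)) (.S 1512 (.X 0 1 .n (.A 0 473 (.x 17) .n)) (.X 0 1 .n (.A 0 474 (.x 17) .n)))) (.S 1511 (.x 6) (.A 0 539 (.S 1512 (.X 0 1 .n (.A 0 472 (.x 17) .n)) (.X 0 1 .n (.A 0 473 (.x 17) .n))) (.S 1512 (.x 6) (.X 0 1 .n (.A 0 472 (.x 17) .n)))))) (.A 0 538 (.X 0 1 .n (.A 0 478 (.x 17) .n)) (.S 1514 (.A 0 539 (.X 0 1 .n (.A 0 474 (.x 17) .n)) (.X 0 1 .n (.A 0 473 (.x 17) .n))) (.X 0 1 .n (.A 0 476 (.x 17) .n))))) (.S 1513 (.x 6) (.A 0 541 (.S 1514 (.X 0 1 .n (.A 0 472 (.x 17) .n)) (.S 1515 (.X 0 1 .n (.A 0 473 (.x 17) .n)) (.X 0 1 .n (.A 0 474 (.x 17) .n)))) (.S 1514 (.x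 6) (.A 0 542 (.S 1515 (.X 0 1 .n (.A 0 472 (.x 17) .n)) (.X 0 1 .n (.A 0 473 (.x 17) .n))) (.S 1515 (.x 6) (.X 0 1 .n (.A 0 472 (.x 17) .n)))))))) (.x 6))))
def cS1_4 : Ct := (.A 0 525 (.S 1513 (.A 0 512 (.X 0 1 .n (.x 17)) (.S 1502 (.A 0 518 (.X 0 1 .n (.A 0 490 (.x 17) .n)) (.S 1496 (.A 0 521 (.S 1493 (.A 0 519 (.S 1492 (.X 0 1 .n (.A 0 473 (.x 17) .n)) (.X 0 1 .n (.A 0 475 (.x 17) .n))) (.A 0 520 (.S 1492 (.X 0 1 .n (.A 0 472 (.x 17) .n)) (.X 0 1 .n (.A 0 473 (.x 17) .n))) (.S 1492 (.x 6) (.X 0 1 .n (.A 0 472 (.x 17) .n))))) (.A 0 519 (.X 0 1 .n (.A 0 478 (.x 17) .n)) (.S 1494 (.A 0 520 (.X 0 1 .n (.A 0 474 (.x 17) .n)) (.X 0 1 .n (.A 0 473 (.x 17) .n))) (.X 0 1 .n (.A 0 477 (.x 17) .n))))) (.S 1493 (.x 6) (.A 0 523 (.S 1494 (.A 0 522 (.X 0 1 .n (.A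 0 472 (.x 17) .n)) (.x 6)) (.A 0 522 (.S 1495 (.X 0 1 .n (.A 0 473 (.x 17) .n)) (.X 0 1 .n (.A 0 474 (.x 17) .n))) (.S 1495 (.X 0 1 .n (.A 0 472 (.x 17) .n)) (.X 0 1 .n (.A 0 473 (.x 17) .n))))) (.S 1495 (.x 6) (.A 0 524 (.X 0 1 .n (.A 0 472 (.x 17) .n)) (.x 6)))))) (.A 0 521 (.X 0 1 .n (.A 0 484 (.x 17) .n)) (.S 1499 (.A 0 523 (.X 0 1 .n (.A 0 478 (.x 17) .n)) (.S 1497 (.A 0 524 (.X 0 1 .n (.A 0 473 (.x 17) .n)) (.X 0 1 .n (.A 0 472 (.x 17) .n))) (.A 0 524 (.X 0 1 .n (.A 0 475 (.x 17) .n)) (.S 1498 (.X 0 1 .n (.A 0 473 (.x 17) .n)) (.X 0 1 .n (.A 0 474 (.x 17) .n)))))) (.X 0 1 .n (.A 0 481 (.x 17) .n)))))) (.X 0 1 .n (.A 0 501 (.x 17) .n)))) (.X 0 1 .n (.x 17))) (.S 1497 (.x 6) (.S 1516 cS1_3 (.A 0 537 (.X 0 1 .n (.A 0 510 (.x 17) .n)) (.S 1525 (.A 0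 543 (.S 1520 (.A 0 540 (.X 0 1 .n (.A 0 482 (.x 17) .n)) (.S 1518 (.A 0 541 (.X 0 1 .n (.A 0 476 (.x 17) .n)) (.A 0 542 (.X 0 1 .n (.A 0 475 (.x 17) .n)) (.S 1517 (.X 0 1 .n (.A 0 473 (.x 17) .n)) (.X 0 1 .n (.A 0 474 (.x 17) .n))))) (.X 0 1 .n (.A 0 478 (.x 17) .n)))) (.X 0 1 .n (.A 0 487 (.x 17) .n))) (.S 1520 (.A 0 546 (.S 1518 (.A 0 544 (.S 1517 (.X 0 1 .n (.A 0 472 (.x 17) .n)) (.X 0 1 .n (.A 0 473 (.x 17) .n))) (.S 1517 (.x 6) (.A 0 545 (.X 0 1 .n (.A 0 472 (.x 17) .n)) (.x 6)))) (.A 0 544 (.X 0 1 .n (.A 0 475 (.x 17) .n)) (.A 0 545 (.S 1519 (.X 0 1 .n (.A 0 473 (.x 17) .n)) (.X 0 1 .n (.A 0 474 (.x 17) .n))) (.S 1519 (.X 0 1 .n (.A 0 472 (.x 17) .n)) (.X 0 1 .n (.A 0 473 (.x 17) .n)))))) (.S 1519 (.x 6) (.A 0 548 (.A 0 547 (.X 0 1 .n (.A 0 472 (.x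 17) .n)) (.x 6)) (.x 6)))) (.A 0 546 (.X 0 1 .n (.A 0 480 (.x 17) .n)) (.S 1522 (.A 0 548 (.A 0 547 (.S 1521 (.X 0 1 .n (.A 0 473 (.x 17) .n)) (.X 0 1 .n (.A 0 474 (.x 17) .n))) (.S 1521 (.X 0 1 .n (.A 0 471 (.x 17) .n)) (.X 0 1 .n (.A 0 473 (.x 17) .n)))) (.x 6)) (.A 0 548 (.S 1523 (.A 0 547 (.X 0 1 .n (.A 0 475 (.x 17) .n)) (.X 0 1 .n (.A 0 474 (.x 17) .n))) (.X 0 1 .n (.A 0 477 (.x 17) .n))) (.S 1523 (.A 0 549 (.X 0 1 .n (.A 0 472 (.x 17) .n)) (.x 6)) (.A 0 549 (.S 1524 (.X 0 1 .n (.A 0 473 (.x 17) .n)) (.X 0 1 .n (.A 0 475 (.x 17) .n))) (.S 1524 (.X 0 1 .n (.A 0 472 (.x 17) .n)) (.X 0 1 .n (.A 0 473 (.x 17) .n)))))))))) (.A 0 543 (.X 0 1 .n (.A 0 497 (.x 17) .n)) (.S 1530 (.A 0 546 (.X 0 1 .n (.A 0 485 (.x 17) .n)) (.S 1527 (.A 0 548 (.X 0 1 .n (.A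 0 479 (.x 17) .n)) (.A 0 549 (.X 0 1 .n (.A 0 477 (.x 17) .n)) (.S 1526 (.X 0 1 .n (.A 0 474 (.x 17) .n)) (.X 0 1 .n (.A 0 475 (.x 17) .n))))) (.X 0 1 .n (.A 0 482 (.x 17) .n)))) (.X 0 1 .n (.A 0 491 (.x 17) .n)))))))))
def cS1_5 : Ct := (.A 0 562 (.S 1546 (.A 0 556 (.X 0 1 .n (.A 0 494 (.x 17) .n)) (.S 1540 (.A 0 559 (.S 1537 (.A 0 557 (.X 0 1 .n (.A 0 478 (.x 17) .n)) (.A 0 558 (.S 1536 (.X 0 1 .n (.A 0 476 (.x 17) .n)) (.X 0 1 .n (.A 0 477 (.x 17) .n))) (.S 1536 (.X 0 1 .n (.A 0 474 (.x 17) .n)) (.X 0 1 .n (.A 0 476 (.x 17) .n))))) (.X 0 1 .n (.A 0 481 (.x 17) .n))) (.S 1536 (.x 7) (.S 1538 (.A 0 560 (.S 1537 (.X 0 1 .n (.A 0 474 (.x 17) .n)) (.X 0 1 .n (.A 0 475 (.x 17) .n))) (.S 1537 (.x 7) (.A 0 561 (.X 0 1 .n (.A 0 474 (.x 17) .n)) (.x 7)))) (.A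 0 560 (.X 0 1 .n (.A 0 477 (.x 17) .n)) (.A 0 561 (.S 1539 (.X 0 1 .n (.A 0 475 (.x 17) .n)) (.X 0 1 .n (.A 0 476 (.x 17) .n))) (.S 1539 (.X 0 1 .n (.A 0 474 (.x 17) .n)) (.X 0 1 .n (.A 0 475 (.x 17) .n)))))))) (.A 0 559 (.X 0 1 .n (.A 0 487 (.x 17) .n)) (.S 1543 (.A 0 560 (.X 0 1 .n (.A 0 481 (.x 17) .n)) (.S 1541 (.A 0 561 (.X 0 1 .n (.A 0 477 (.x 17) .n)) (.X 0 1 .n (.A 0 476 (.x 17) .n))) (.X 0 1 .n (.A 0 479 (.x 17) .n)))) (.X 0 1 .n (.A 0 484 (.x 17) .n)))))) (.X 0 1 .n (.A 0 506 (.x 17) .n))) (.S 1540 (.x 7) (.S 1549 (.A 0 568 (.S 1544 (.A 0 565 (.S 1542 (.A 0 563 (.S 1541 (.X 0 1 .n (.A 0 475 (.x 17) .n)) (.X 0 1 .n (.A 0 476 (.x 17) .n))) (.S 1541 (.x 7) (.A 0 564 (.X 0 1 .n (.A 0 475 (.x 17) .n)) (.x 7)))) (.A 0 563 (.X 0 1 .n (.A 0 478 (.x 17)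 .n)) (.A 0 564 (.S 1543 (.X 0 1 .n (.A 0 476 (.x 17) .n)) (.X 0 1 .n (.A 0 477 (.x 17) .n))) (.S 1543 (.X 0 1 .n (.A 0 475 (.x 17) .n)) (.X 0 1 .n (.A 0 476 (.x 17) .n)))))) (.S 1543 (.x 7) (.A 0 566 (.X 0 1 .n (.A 0 475 (.x 17) .n)) (.x 7)))) (.A 0 565 (.X 0 1 .n (.A 0 483 (.x 17) .n)) (.S 1546 (.A 0 566 (.S 1545 (.X 0 1 .n (.A 0 476 (.x 17) .n)) (.X 0 1 .n (.A 0 477 (.x 17) .n))) (.A 0 567 (.S 1545 (.X 0 1 .n (.A 0 474 (.x 17) .n)) (.X 0 1 .n (.A 0 476 (.x 17) .n))) (.S 1545 (.x 7) (.X 0 1 .n (.A 0 474 (.x 17) .n))))) (.A 0 566 (.X 0 1 .n (.A 0 480 (.x 17) .n)) (.S 1547 (.A 0 567 (.X 0 1 .n (.A 0 477 (.x 17) .n)) (.X 0 1 .n (.A 0 475 (.x 17) .n))) (.X 0 1 .n (.A 0 479 (.x 17) .n))))))) (.S 1546 (.x 7) (.A 0 571 (.A 0 569 (.S 1547 (.X 0 1 .n (.A 0 474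 (.x 17) .n)) (.S 1548 (.X 0 1 .n (.A 0 475 (.x 17) .n)) (.X 0 1 .n (.A 0 476 (.x 17) .n)))) (.S 1547 (.x 7) (.A 0 570 (.S 1548 (.X 0 1 .n (.A 0 474 (.x 17) .n)) (.X 0 1 .n (.A 0 475 (.x 17) .n))) (.x 7)))) (.x 7)))) (.A 0 568 (.X 0 1 .n (.A 0 493 (.x 17) .n)) (.S 1553 (.A 0 571 (.S 1551 (.A 0 569 (.X 0 1 .n (.A 0 478 (.x 17) .n)) (.A 0 570 (.S 1550 (.X 0 1 .n (.A 0 476 (.x 17) .n)) (.X 0 1 .n (.A 0 477 (.x 17) .n))) (.S 1550 (.X 0 1 .n (.A 0 475 (.x 17) .n)) (.X 0 1 .n (.A 0 476 (.x 17) .n))))) (.X 0 1 .n (.A 0 480 (.x 17) .n))) (.S 1550 (.x 7) (.A 0 573 (.S 1551 (.A 0 572 (.X 0 1 .n (.A 0 475 (.x 17) .n)) (.x 7)) (.A 0 572 (.S 1552 (.X 0 1 .n (.A 0 476 (.x 17) .n)) (.X 0 1 .n (.A 0 477 (.x 17) .n))) (.S 1552 (.X 0 1 .n (.A 0 475 (.x 17) .n)) (.X 0 1 .n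 (.A 0 476 (.x 17) .n))))) (.S 1552 (.x 7) (.A 0 574 (.X 0 1 .n (.A 0 474 (.x 17) .n)) (.x 7)))))) (.A 0 571 (.X 0 1 .n (.A 0 486 (.x 17) .n)) (.S 1555 (.A 0 573 (.X 0 1 .n (.A 0 479 (.x 17) .n)) (.A 0 574 (.S 1554 (.X 0 1 .n (.A 0 476 (.x 17) .n)) (.X 0 1 .n (.A 0 477 (.x 17) .n))) (.S 1554 (.X 0 1 .n (.A 0 474 (.x 17) .n)) (.X 0 1 .n (.A 0 475 (.x 17) .n))))) (.X 0 1 .n (.A 0 482 (.x 17) .n)))))))))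
def cS1_6 : Ct := (.S 1535 (.X 0 33 .n (.A 0 732 (.A 0 600 (.A 0 550 (.A 0 500 (.X 0 1 .n (.x 17)) cS1_4) (.S 1526 (.x 7) (.A 0 575 (.A 0 562 (.A 0 556 (.S 1530 (.A 0 553 (.S 1528 (.A 0 551 (.S 1527 (.X 0 1 .n (.A 0 474 (.x 17) .n)) (.X 0 1 .n (.A 0 475 (.x 17) .n))) (.S 1527 (.x 7) (.A 0 552 (.X 0 1 .n (.A 0 474 (.x 17) .n)) (.x 7)))) (.A 0 551 (.X 0 1 .n (.A 0 477 (.x 17) .n)) (.A 0 552 (.S 1529 (.X 0 1 .n (.A 0 475 (.x 17) .n)) (.X 0 1 .n (.A 0 476 (.x 17) .n))) (.S 1529 (.X 0 1 .n (.A 0 474 (.x 17) .n)) (.X 0 1 .n (.A 0 475 (.x 17) .n)))))) (.x 7)) (.A 0 553 (.S 1532 (.A 0 551 (.X 0 1 .n (.A 0 480 (.x 17) .n)) (.A 0 552 (.X 0 1 .n (.A 0 478 (.x 17) .n)) (.S 1531 (.X 0 1 .n (.A 0 476 (.x 17) .n)) (.X 0 1 .n (.A 0 477 (.x 17) .n))))) (.X 0 1 .n (.A 0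 483 (.x 17) .n))) (.S 1532 (.A 0 554 (.S 1531 (.X 0 1 .n (.A 0 475 (.x 17) .n)) (.X 0 1 .n (.A 0 476 (.x 17) .n))) (.S 1531 (.x 7) (.A 0 555 (.X 0 1 .n (.A 0 475 (.x 17) .n)) (.x 7)))) (.A 0 554 (.X 0 1 .n (.A 0 479 (.x 17) .n)) (.S 1533 (.A 0 555 (.X 0 1 .n (.A 0 476 (.x 17) .n)) (.X 0 1 .n (.A 0 475 (.x 17) .n))) (.A 0 555 (.X 0 1 .n (.A 0 478 (.x 17) .n)) (.S 1534 (.X 0 1 .n (.A 0 476 (.x 17) .n)) (.X 0 1 .n (.A 0 477 (.x 17) .n))))))))) (.S 1533 (.x 7) (.A 0 559 (.A 0 557 (.S 1534 (.X 0 1 .n (.A 0 475 (.x 17) .n)) (.X 0 1 .n (.A 0 476 (.x 17) .n))) (.S 1534 (.x 7) (.A 0 558 (.X 0 1 .n (.A 0 475 (.x 17) .n)) (.x 7)))) (.x 7)))) (.x 7)) (.x 7)))) (.A 0 650 (.x 8) (.A 0 700 (.x 9) (.x 10)))) .n)) (.X 0 33 .n (.A 0 763 (.A 0 650 (.A 0 600 (.A 0 550 (.A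 0 531 (.S 1558 (.X 0 1 .n (.x 17)) (.X 0 1 .n (.N (.x 17)))) (.S 1558 (.X 0 1 .n (.A 0 526 (.x 17) .n)) (.X 0 1 .n (.A 0 547 (.x 17) .n)))) (.A 0 575 (.S 1558 cS1_5 (.X 0 1 .n (.A 0 528 (.x 17) .n))) (.S 1554 (.x 7) (.A 0 587 (.S 1567 (.A 0 581 (.S 1560 (.A 0 578 (.S 1557 (.A 0 576 (.S 1555 (.X 0 1 .n (.A 0 474 (.x 17) .n)) (.S 1556 (.X 0 1 .n (.A 0 475 (.x 17) .n)) (.X 0 1 .n (.A 0 476 (.x 17) .n)))) (.S 1555 (.x 7) (.A 0 577 (.S 1556 (.X 0 1 .n (.A 0 474 (.x 17) .n)) (.X 0 1 .n (.A 0 475 (.x 17) .n))) (.x 7)))) (.A 0 576 (.X 0 1 .n (.A 0 479 (.x 17) .n)) (.S 1558 (.A 0 577 (.X 0 1 .n (.A 0 476 (.x 17) .n)) (.X 0 1 .n (.A 0 475 (.x 17) .n))) (.A 0 577 (.X 0 1 .n (.A 0 478 (.x 17) .n)) (.S 1559 (.X 0 1 .n (.A 0 476 (.x 17) .n)) (.X 0 1 .n (.A 0 477 (.x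 17) .n))))))) (.S 1558 (.x 7) (.A 0 579 (.S 1559 (.X 0 1 .n (.A 0 475 (.x 17) .n)) (.X 0 1 .n (.A 0 476 (.x 17) .n))) (.S 1559 (.x 7) (.A 0 580 (.X 0 1 .n (.A 0 475 (.x 17) .n)) (.x 7)))))) (.S 1563 (.A 0 578 (.X 0 1 .n (.A 0 483 (.x 17) .n)) (.A 0 579 .e (.S 1561 (.A 0 580 .e (.X 0 1 .n (.A 0 474 (.x 17) .n))) (.A 0 580 .e .e)))) (.X 0 1 .n (.A 0 487 (.x 17) .n)))) (.S 1561 (.x 7) (.A 0 584 (.S 1564 (.A 0 582 .e (.S 1562 (.x 7) .e)) .e) (.S 1565 (.x 7) .e)))) (.A 0 581 .e .e)) (.S 1568 (.x 7) (.A 0 593 .e (.S 1575 (.x 7) .e))))))) (.x 8)) (.A 0 700 (.x 9) (.A 0 750 (.x 10) (.x 11)))) .n)))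
def cS1_7 : Ct := (.S 1676 (.S 1491 (.S 1406 (.X 0 52 .n (.A 0 638 (.A 0 500 (.A 0 400 (.A 0 350 .e (.S 1392 (.x 3) (.A 0 375 .e (.x 3)))) (.A 0 450 (.x 4) (.x 5))) (.A 0 550 (.x 6) (.A 0 600 (.x 7) (.x 8)))) .n)) (.S 1448 (.X 0 36 .n (.A 0 670 (.A 0 550 (.A 0 500 (.A 0 450 (.S 1439 (.x 4) .e) (.S 1438 (.x 5) (.A 0 475 (.A 0 462 (.A 0 456 .e (.S 1444 (.x 5) .e)) (.x 5)) (.x 5)))) (.x 6)) (.A 0 600 (.x 7) (.A 0 650 (.x 8) (.x 9)))) .n)) (.X 0 34 .n (.A 0 701 (.A 0 600 (.A 0 550 (.A 0 500 (.S 1451 (.x 5) (.S 1471 (.A 0 482 (.S 1461 (.A 0 473 (.S 1456 (.A 0 468 .e (.S 1455 (.x 5) (.A 0 470 .e (.x 5)))) (.A 0 468 .e (.S 1458 (.A 0 470 .e (.S 1457 (.x 5) (.A 0 471 .e (.x 5)))) .e))) (.S 1460 (.x 5) (.A 0 477 (.A 0 475 .e (.x 5)) (.x 5)))) (.A 0 473 .e (.S 1466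 (.A 0 477 .e (.S 1463 (.x 5) (.A 0 479 (.S 1464 (.A 0 478 .e (.x 5)) .e) (.S 1465 (.x 5) (.A 0 480 (.X 0 1 .n (.x 17)) (.x 5)))))) (.A 0 477 .e (.S 1468 (.A 0 479 .e (.A 0 480 .e (.S 1467 (.A 0 481 (.X 0 1 .n (.x 17)) (.x 5)) (.A 0 481 (.X 0 1 .n (.x 17)) (.X 0 1 .n (.x 17)))))) (.A 0 479 .e (.S 1469 (.A 0 480 .e (.A 0 481 .e (.X 0 1 .n (.x 17)))) (.X 0 1 .n (.N (.x 17)))))))))) (.S 1468 (.x 5) (.A 0 491 (.A 0 486 (.A 0 484 (.S 1469 (.A 0 483 (.X 0 1 .n (.x 17)) (.x 5)) (.S 1470 (.A 0 483 (.X 0 1 .n (.x 17)) (.X 0 1 .n (.x 17))) (.A 0 483 (.X 0 1 .n (.x 17)) (.X 0 1 .n (.x 17))))) (.S 1470 (.x 5) (.A 0 485 (.X 0 1 .n (.x 17)) (.x 5)))) (.x 5)) (.x 5)))) (.A 0 482 (.X 1 2 .n (.N (.x 17))) cS1_1))) (.S 1471 (.x 6) (.A 0 525 cS1_2 (.x 6)))) (.x 7)) (.A 0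 650 (.x 8) (.A 0 700 (.x 9) (.x 10)))) .n)))) (.S 1581 cS1_6 (.S 1628 (.X 0 17 .n (.A 0 793 (.A 0 700 (.A 0 650 (.x 8) (.x 9)) (.A 0 750 (.x 10) (.x 11))) .n)) (.S 1652 (.X 0 10 .n (.A 0 808 (.A 0 750 (.x 10) (.A 0 800 (.x 11) (.x 12))) .n)) (.X 0 17 .n (.A 0 823 (.A 0 750 (.A 0 700 (.x 9) (.x 10)) (.A 0 800 (.x 11) (.x 12))) .n)))))) (.S 1884 (.S 1777 (.S 1726 (.X 0 48 .n (.A 0 853 (.A 0 650 (.A 0 550 (.A 0 500 .e (.A 0 525 (.A 0 512 .e (.S 1701 .e .e)) (.A 0 537 (.S 1701 .e .e) (.S 1701 .e .e)))) (.A 0 600 (.A 0 575 (.A 0 562 (.S 1701 .e .e) (.S 1701 .e .e)) (.A 0 587 .e .e)) (.A 0 625 (.A 0 612 .e .e) (.S 1701 (.A 0 637 .e .e) .e)))) (.A 0 750 (.A 0 700 (.S 1685 (.x 9) (.A 0 675 .e .e)) (.x 10)) (.A 0 800 (.x 11) (.A 0 850 (.x 12) (.x 13))))) .n)) (.X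 52 52 (.A 0 882 (.A 0 684 (.A 0 585 (.A 0 536 (.A 0 511 (.A 0 499 (.A 0 493 (.S 1751 .e .e) .e) .e) .e) .e) .e) .e) .n) (.A 0 882 (.A 0 700 (.A 0 600 (.A 0 550 (.A 0 500 .e (.A 0 525 (.A 0 512 .e .e) .e)) .e) (.A 0 650 .e .e)) (.A 0 800 (.A 0 750 (.x 10) (.x 11)) (.A 0 850 (.x 12) (.x 13)))) .n))) (.S 1830 (.X 0 24 .n (.A 0 912 (.A 0 800 (.A 0 750 .e (.x 11)) (.A 0 850 (.x 12) (.A 0 900 (.x 13) (.x 14)))) .n)) (.X 33 33 (.A 0 941 .e .n) (.A 0 941 (.A 0 800 (.A 0 700 .e .e) (.A 0 850 (.x 12) (.A 0 900 (.x 13) (.x 14)))) .n)))) (.S 1998 (.S 1940 (.X 33 33 (.A 0 970 .e .n) (.A 0 970 (.A 0 800 (.A 0 750 .e .e) (.A 0 900 (.A 0 850 (.x 12) (.x 13)) (.A 0 950 (.x 14) (.x 15)))) .n)) (.X 34 1 (.A 0 999 .e .n) (.A 0 999 (.x 15) .n))) (.S 2057 (.X 35 1 .e (.x 15))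 (.X 35 2 .e .n)))))
def cS1_ : Ct := cS1_7
theorem cS1_ok : chk par tab 20736 1280 0 ys1 cS1_ 1366 2060 [.p 1000 1000] = true := by decide +kernel

/-- exceptional boxes for the star regime, p in [5180, 5205] / 2 ^ 14 -/
def ys2 : List XC := [⟨[.m 200 250, .p 1000 1000], 301207⟩, ⟨[.m 250 300, .p 1000 1000], 289401⟩, ⟨[.m 300 350, .p 1000 1000], 276523⟩, ⟨[.m 350 400, .p 1000 1000], 261765⟩, ⟨[.m 400 450, .p 1000 1000], 245399⟩, ⟨[.m 450 500, .p 1000 1000], 228227⟩, ⟨[.m 500 550, .p 1000 1000], 215079⟩, ⟨[.m 550 600, .p 1000 1000], 213469⟩, ⟨[.m 600 650, .p 1000 1000], 229300⟩, ⟨[.m 650 700, .p 1000 1000], 259887⟩, ⟨[.m 700 750, .p 1000 1000], 285912⟩, ⟨[.m 750 800, .p 1000 1000], 290205⟩, ⟨[.m 800 850, .p 1000 1000], 295571⟩, ⟨[.m 850 900, .p 1000 1000],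 300401⟩, ⟨[.m 900 950, .p 1000 1000], 304694⟩, ⟨[.m 950 1000, .p 1000 1000], 309793⟩, ⟨[.m 1000 1050, .p 1000 1000], 311402⟩, ⟨[.m 380 550, .m 450 600, .p 1000 1000], 60000⟩]
def cS2_1 : Ct := (.X 127 127 (.A 0 631 (.A 0 315 (.A 0 157 (.A 0 78 (.A 0 39 (.A 0 19 (.S 1377 (.A 0 9 (.S 1367 (.S 1362 (.A 0 4 .e .e) .e) .e) (.S 1367 (.S 1362 (.A 0 14 (.A 0 11 .e .e) .e) (.A 0 14 .e .e)) .e)) .e) (.S 1377 (.S 1367 (.A 0 29 (.A 0 24 (.S 1362 (.S 1359 .e .e) .e) (.S 1362 (.S 1359 .e .e) .e)) (.S 1362 (.A 0 34 .e .e) .e)) (.A 0 29 .e .e)) (.A 0 29 .e .e))) (.A 0 58 (.S 1377 (.A 0 48 (.S 1367 (.S 1362 (.A 0 43 .e .e) .e) .e) (.S 1367 (.S 1362 (.A 0 53 (.S 1359 .e .e) .e) .e) .e)) .e) (.S 1377 (.S 1367 (.A 0 68 (.A 0 63 .e (.S 1362 .e .e)) (.A 0 73 .e .e)) (.A 0 68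 .e .e)) (.A 0 68 .e .e)))) (.A 0 117 (.A 0 97 (.S 1377 (.A 0 87 (.S 1367 (.S 1362 .e .e) .e) (.S 1367 (.S 1362 (.A 0 92 .e .e) .e) .e)) .e) (.S 1377 (.A 0 107 (.S 1367 (.A 0 102 (.S 1362 .e .e) .e) .e) (.S 1367 (.A 0 112 .e .e) .e)) .e)) (.A 0 137 (.S 1377 (.S 1367 (.A 0 127 (.A 0 122 .e .e) .e) .e) .e) (.S 1377 (.A 0 147 (.S 1367 .e .e) (.S 1367 .e .e)) .e)))) (.A 0 236 (.A 0 196 (.A 0 176 (.S 1377 (.A 0 166 (.S 1367 .e .e) .e) .e) (.S 1377 (.A 0 186 .e .e) .e)) (.A 0 216 .e .e)) (.A 0 275 (.A 0 255 .e .e) .e))) (.A 0 473 .e .e)) .n) (.A 0 631 (.A 0 300 (.A 0 200 (.A 0 100 (.A 0 50 (.A 0 25 (.S 1377 (.A 0 12 (.S 1367 (.S 1362 (.A 0 6 .e .e) .e) .e) (.S 1367 (.A 0 18 (.S 1362 (.S 1359 (.A 0 15 .e .e) .e) .e) (.S 1362 .e .e)) .e)) (.A 0 12 .e .e)) (.S 1377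 (.A 0 37 (.S 1367 (.A 0 31 .e (.S 1362 .e .e)) .e) (.S 1367 (.A 0 43 (.S 1362 .e .e) (.S 1362 (.A 0 46 .e .e) .e)) .e)) (.A 0 37 .e .e))) (.A 0 75 (.S 1377 (.A 0 62 (.S 1367 (.A 0 56 (.S 1362 .e .e) .e) .e) (.S 1367 (.A 0 68 (.S 1362 (.A 0 65 .e .e) .e) .e) .e)) (.A 0 62 .e .e)) (.S 1377 (.A 0 87 (.S 1367 (.A 0 81 (.S 1362 .e .e) .e) .e) (.S 1367 (.A 0 93 .e (.S 1362 .e .e)) .e)) (.A 0 87 .e .e)))) (.A 0 150 (.A 0 125 (.S 1377 (.A 0 112 (.S 1367 (.A 0 106 .e .e) .e) (.S 1367 (.A 0 118 .e .e) .e)) (.A 0 112 .e .e)) (.S 1377 (.A 0 137 .e .e) .e)) (.A 0 175 .e .e))) (.A 0 250 (.S 1377 .e .e) .e)) (.A 0 450 (.A 0 350 (.S 1366 (.x 2) (.A 0 325 .e (.S 1382 (.x 2) .e))) (.A 0 400 (.S 1384 (.x 3) (.A 0 375 (.A 0 362 .e .e) (.x 3))) (.x 4))) (.A 0 550 (.A 0 500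 (.x 5) (.x 6)) (.A 0 600 (.x 7) (.x 8))))) .n))
def cS2_2 : Ct := (.S 1470 (.A 0 489 (.S 1464 (.A 0 484 (.S 1461 (.A 0 481 (.S 1460 (.A 0 480 (.X 0 1 .n (.x 17)) (.X 0 1 .n (.A 0 480 (.x 17) .n))) (.X 0 1 .n (.x 17))) (.A 0 482 (.S 1460 (.X 0 1 .n (.A 0 479 (.x 17) .n)) (.X 0 1 .n (.A 0 480 (.x 17) .n))) (.S 1460 (.x 5) (.A 0 483 (.X 0 1 .n (.A 0 479 (.x 17) .n)) (.x 5))))) (.A 0 481 (.X 0 1 .n (.x 17)) (.S 1462 (.A 0 482 (.X 0 1 .n (.A 0 481 (.x 17) .n)) (.A 0 483 (.X 0 1 .n (.A 0 480 (.x 17) .n)) (.X 0 1 .n (.A 0 479 (.x 17) .n)))) (.A 0 482 (.X 0 1 .n (.x 17)) (.S 1463 (.A 0 483 (.X 0 1 .n (.A 0 481 (.x 17) .n)) (.X 0 1 .n (.A 0 480 (.x 17) .n))) (.X 0 1 .n (.A 0 482 (.x 17) .n))))))) (.S 1462 (.x 5) (.A 0 486 (.S 1463 (.A 0 485 (.X 0 1 .n (.A 0 479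 (.x 17) .n)) (.x 5)) (.A 0 485 (.X 0 1 .n (.A 0 480 (.x 17) .n)) (.X 0 1 .n (.A 0 479 (.x 17) .n)))) (.x 5)))) (.A 0 484 (.X 0 1 .n (.x 17)) (.S 1467 (.A 0 486 (.S 1465 (.A 0 485 (.X 0 1 .n (.A 0 481 (.x 17) .n)) (.X 0 1 .n (.A 0 480 (.x 17) .n))) (.X 0 1 .n (.A 0 483 (.x 17) .n))) (.S 1465 (.A 0 487 (.X 0 1 .n (.A 0 479 (.x 17) .n)) (.x 5)) (.A 0 487 (.S 1466 (.X 0 1 .n (.A 0 480 (.x 17) .n)) (.X 0 1 .n (.A 0 481 (.x 17) .n))) (.S 1466 (.A 0 488 (.X 0 1 .n (.A 0 479 (.x 17) .n)) (.x 5)) (.A 0 488 (.X 0 1 .n (.A 0 480 (.x 17) .n)) (.X 0 1 .n (.A 0 479 (.x 17) .n))))))) (.A 0 486 (.X 0 1 .n (.x 17)) (.S 1468 (.A 0 487 (.X 0 1 .n (.A 0 482 (.x 17) .n)) (.A 0 488 (.X 0 1 .n (.A 0 481 (.x 17) .n)) (.X 0 1 .n (.A 0 480 (.x 17) .n)))) (.X 0 1 .n (.A 0 484 (.x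 17) .n))))))) (.S 1467 (.x 5) (.A 0 494 (.A 0 491 (.S 1468 (.A 0 490 (.X 0 1 .n (.A 0 479 (.x 17) .n)) (.x 5)) (.S 1469 (.A 0 490 (.X 0 1 .n (.A 0 480 (.x 17) .n)) (.X 0 1 .n (.A 0 479 (.x 17) .n))) (.A 0 490 (.X 0 1 .n (.A 0 481 (.x 17) .n)) (.X 0 1 .n (.A 0 480 (.x 17) .n))))) (.S 1469 (.x 5) (.A 0 492 (.X 0 1 .n (.A 0 479 (.x 17) .n)) (.x 5)))) (.x 5)))) (.A 0 489 (.X 0 1 .n (.x 17)) (.S 1475 (.A 0 494 (.S 1472 (.A 0 491 (.X 0 1 .n (.A 0 483 (.x 17) .n)) (.A 0 492 (.S 1471 (.X 0 1 .n (.A 0 480 (.x 17) .n)) (.X 0 1 .n (.A 0 481 (.x 17) .n))) (.S 1471 (.A 0 493 (.X 0 1 .n (.A 0 479 (.x 17) .n)) (.x 5)) (.A 0 493 (.X 0 1 .n (.A 0 480 (.x 17) .n)) (.X 0 1 .n (.A 0 479 (.x 17) .n)))))) (.A 0 491 (.X 0 1 .n (.A 0 486 (.x 17) .n)) (.S 1473 (.A 0 492 (.X 0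 1 .n (.A 0 482 (.x 17) .n)) (.A 0 493 (.X 0 1 .n (.A 0 481 (.x 17) .n)) (.X 0 1 .n (.A 0 480 (.x 17) .n)))) (.X 0 1 .n (.A 0 484 (.x 17) .n))))) (.S 1472 (.x 5) (.A 0 497 (.S 1473 (.A 0 495 (.X 0 1 .n (.A 0 479 (.x 17) .n)) (.x 5)) (.A 0 495 (.S 1474 (.X 0 1 .n (.A 0 480 (.x 17) .n)) (.X 0 1 .n (.A 0 481 (.x 17) .n))) (.S 1474 (.A 0 496 (.X 0 1 .n (.A 0 479 (.x 17) .n)) (.x 5)) (.A 0 496 (.X 0 1 .n (.A 0 480 (.x 17) .n)) (.X 0 1 .n (.A 0 479 (.x 17) .n)))))) (.x 5)))) (.A 0 494 (.X 0 1 .n (.A 0 492 (.x 17) .n)) (.S 1478 (.A 0 497 (.S 1476 (.A 0 495 (.X 0 1 .n (.A 0 482 (.x 17) .n)) (.A 0 496 (.X 0 1 .n (.A 0 481 (.x 17) .n)) (.X 0 1 .n (.A 0 480 (.x 17) .n)))) (.X 0 1 .n (.A 0 484 (.x 17) .n))) (.S 1476 (.A 0 498 (.X 0 1 .n (.A 0 479 (.x 17) .n)) (.x 5))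 (.A 0 498 (.S 1477 (.X 0 1 .n (.A 0 480 (.x 17) .n)) (.X 0 1 .n (.A 0 481 (.x 17) .n))) (.S 1477 (.A 0 499 (.X 0 1 .n (.A 0 479 (.x 17) .n)) (.x 5)) (.A 0 499 (.X 0 1 .n (.A 0 480 (.x 17) .n)) (.X 0 1 .n (.A 0 479 (.x 17) .n))))))) (.A 0 497 (.X 0 1 .n (.A 0 487 (.x 17) .n)) (.S 1479 (.A 0 498 (.X 0 1 .n (.A 0 482 (.x 17) .n)) (.A 0 499 (.X 0 1 .n (.A 0 481 (.x 17) .n)) (.X 0 1 .n (.A 0 480 (.x 17) .n)))) (.X 0 1 .n (.A 0 484 (.x 17) .n)))))))))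
def cS2_3 : Ct := (.A 0 512 (.S 1473 (.A 0 506 (.S 1469 (.A 0 503 (.S 1467 (.A 0 501 (.S 1466 (.X 0 1 .n (.A 0 465 (.x 17) .n)) (.X 0 1 .n (.A 0 466 (.x 17) .n))) (.S 1466 (.x 6) (.A 0 502 (.X 0 1 .n (.A 0 465 (.x 17) .n)) (.x 6)))) (.A 0 501 (.X 0 1 .n (.A 0 468 (.x 17) .n)) (.A 0 502 (.S 1468 (.X 0 1 .n (.A 0 466 (.x 17) .n)) (.X 0 1 .n (.A 0 467 (.x 17) .n))) (.S 1468 (.X 0 1 .n (.A 0 465 (.x 17) .n)) (.X 0 1 .n (.A 0 466 (.x 17) .n)))))) (.S 1468 (.x 6) (.A 0 504 (.X 0 1 .n (.A 0 465 (.x 17) .n)) (.x 6)))) (.A 0 503 (.X 0 1 .n (.A 0 473 (.x 17) .n)) (.S 1471 (.A 0 504 (.S 1470 (.X 0 1 .n (.A 0 466 (.x 17) .n)) (.X 0 1 .n (.A 0 467 (.x 17) .n))) (.A 0 505 (.S 1470 (.X 0 1 .n (.A 0 465 (.x 17) .n)) (.X 0 1 .n (.A 0 466 (.x 17) .n))) (.S 1470 (.x 6) (.X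 0 1 .n (.A 0 465 (.x 17) .n))))) (.A 0 504 (.X 0 1 .n (.A 0 470 (.x 17) .n)) (.A 0 505 (.X 0 1 .n (.A 0 468 (.x 17) .n)) (.S 1472 (.X 0 1 .n (.A 0 466 (.x 17) .n)) (.X 0 1 .n (.A 0 467 (.x 17) .n)))))))) (.S 1471 (.x 6) (.A 0 509 (.A 0 507 (.S 1472 (.X 0 1 .n (.A 0 465 (.x 17) .n)) (.X 0 1 .n (.A 0 466 (.x 17) .n))) (.S 1472 (.x 6) (.A 0 508 (.X 0 1 .n (.A 0 465 (.x 17) .n)) (.x 6)))) (.x 6)))) (.A 0 506 (.X 0 1 .n (.A 0 481 (.x 17) .n)) (.S 1477 (.A 0 509 (.S 1475 (.A 0 507 (.X 0 1 .n (.A 0 468 (.x 17) .n)) (.A 0 508 (.S 1474 (.X 0 1 .n (.A 0 466 (.x 17) .n)) (.X 0 1 .n (.A 0 467 (.x 17) .n))) (.S 1474 (.X 0 1 .n (.A 0 465 (.x 17) .n)) (.X 0 1 .n (.A 0 466 (.x 17) .n))))) (.X 0 1 .n (.A 0 471 (.x 17) .n))) (.S 1474 (.x 6) (.A 0 510 (.S 1475 (.X 0 1 .n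 (.A 0 465 (.x 17) .n)) (.S 1476 (.X 0 1 .n (.A 0 466 (.x 17) .n)) (.X 0 1 .n (.A 0 467 (.x 17) .n)))) (.S 1475 (.x 6) (.A 0 511 (.S 1476 (.X 0 1 .n (.A 0 465 (.x 17) .n)) (.X 0 1 .n (.A 0 466 (.x 17) .n))) (.S 1476 (.x 6) (.X 0 1 .n (.A 0 465 (.x 17) .n)))))))) (.A 0 509 (.X 0 1 .n (.A 0 475 (.x 17) .n)) (.S 1479 (.A 0 510 (.X 0 1 .n (.A 0 469 (.x 17) .n)) (.A 0 511 (.X 0 1 .n (.A 0 468 (.x 17) .n)) (.S 1478 (.X 0 1 .n (.A 0 466 (.x 17) .n)) (.X 0 1 .n (.A 0 467 (.x 17) .n))))) (.X 0 1 .n (.A 0 472 (.x 17) .n))))))) (.S 1477 (.x 6) (.A 0 518 (.A 0 515 (.S 1479 (.A 0 513 (.S 1478 (.X 0 1 .n (.A 0 465 (.x 17) .n)) (.X 0 1 .n (.A 0 466 (.x 17) .n))) (.S 1478 (.x 6) (.A 0 514 (.X 0 1 .n (.A 0 465 (.x 17) .n)) (.x 6)))) (.A 0 513 (.X 0 1 .n (.A 0 468 (.x 17)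 .n)) (.A 0 514 (.S 1480 (.X 0 1 .n (.A 0 466 (.x 17) .n)) (.X 0 1 .n (.A 0 467 (.x 17) .n))) (.S 1480 (.X 0 1 .n (.A 0 465 (.x 17) .n)) (.X 0 1 .n (.A 0 466 (.x 17) .n)))))) (.S 1480 (.x 6) (.A 0 516 (.X 0 1 .n (.A 0 465 (.x 17) .n)) (.x 6)))) (.x 6))))
def cS2_4 : Ct := (.S 1397 cS2_1 (.S 1438 (.X 0 37 .n (.A 0 662 (.A 0 550 (.A 0 500 (.A 0 450 (.S 1424 (.x 4) (.A 0 436 .e (.S 1435 (.x 4) .e))) (.S 1430 (.x 5) (.A 0 475 (.A 0 462 (.A 0 456 .e (.S 1436 (.x 5) (.A 0 459 .e (.x 5)))) (.x 5)) (.x 5)))) (.x 6)) (.A 0 600 (.x 7) (.A 0 650 (.x 8) (.x 9)))) .n)) (.X 0 34 .n (.A 0 694 (.A 0 600 (.A 0 550 (.A 0 500 (.S 1459 (.A 0 479 (.S 1448 (.A 0 469 (.S 1443 (.A 0 464 (.S 1440 (.A 0 461 (.S 1439 (.A 0 460 .e (.x 5)) .e) (.x 5)) (.A 0 461 .e (.S 1441 (.A 0 462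 .e (.x 5)) .e))) (.x 5)) (.A 0 464 .e (.S 1445 (.A 0 466 (.S 1444 (.A 0 465 .e (.x 5)) .e) (.x 5)) (.A 0 466 .e (.S 1446 (.A 0 467 (.X 1 2 .n (.x 17)) (.x 5)) (.A 0 467 .e (.S 1447 (.A 0 468 (.X 1 2 .n (.x 17)) (.x 5)) (.A 0 468 (.X 1 2 .n (.x 17)) (.X 1 2 .n (.x 17)))))))))) (.x 5)) (.A 0 469 (.S 1453 (.A 0 464 .e (.S 1450 (.A 0 466 .e (.A 0 467 .e (.S 1449 (.A 0 468 .e (.X 1 2 .n (.x 17))) (.X 1 2 .n (.N (.x 17)))))) .e)) .e) (.S 1453 (.A 0 474 (.S 1450 (.A 0 471 (.S 1449 (.A 0 470 (.X 1 2 .n (.x 17)) (.x 5)) (.A 0 470 (.X 1 2 .n (.x 17)) (.X 1 2 .n (.x 17)))) (.x 5)) (.A 0 471 (.S 1451 (.A 0 470 (.X 1 2 .n (.x 17)) (.X 1 2 .n (.x 17))) (.X 1 2 .n (.x 17))) (.S 1451 (.A 0 472 (.X 0 2 .n (.x 17)) (.x 5)) (.A 0 472 (.S 1452 (.X 1 2 .n (.x 17)) (.X 1 2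 .n (.x 17))) (.S 1452 (.A 0 473 (.X 0 2 .n (.x 17)) (.X 0 2 .n (.x 17))) (.A 0 473 (.X 0 2 .n (.x 17)) (.X 0 2 .n (.x 17)))))))) (.S 1452 (.x 5) (.A 0 476 (.A 0 475 (.X 0 2 .n (.x 17)) (.x 5)) (.x 5)))) (.A 0 474 (.X 0 2 .n (.x 17)) (.S 1456 (.A 0 476 (.S 1454 (.A 0 475 (.X 0 2 .n (.x 17)) (.X 0 2 .n (.x 17))) (.S 1455 (.A 0 475 (.X 0 2 .n (.x 17)) (.X 0 2 .n (.x 17))) (.X 0 2 .n (.x 17)))) (.S 1454 (.x 5) (.A 0 477 (.S 1455 (.X 0 2 .n (.x 17)) (.X 0 2 .n (.x 17))) (.S 1455 (.x 5) (.A 0 478 (.X 0 2 .n (.x 17)) (.x 5)))))) (.A 0 476 (.X 0 2 .n (.x 17)) (.S 1457 (.A 0 477 (.X 0 2 .n (.x 17)) (.A 0 478 (.X 0 2 .n (.x 17)) (.X 0 2 .n (.x 17)))) (.A 0 477 (.X 0 1 .n (.x 17)) (.S 1458 (.A 0 478 (.X 0 1 .n (.x 17)) (.X 0 1 .n (.x 17))) (.X 0 1 .n (.x 17)))))))))))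 (.S 1457 (.x 5) (.A 0 489 (.A 0 484 (.A 0 481 (.S 1458 (.A 0 480 (.X 0 1 .n (.A 0 479 (.x 17) .n)) (.x 5)) (.A 0 480 (.X 0 1 .n (.x 17)) (.X 0 1 .n (.A 0 479 (.x 17) .n)))) (.x 5)) (.x 5)) (.x 5)))) (.A 0 479 (.X 0 3 .n (.N (.x 17))) cS2_2)) (.S 1465 (.x 6) (.A 0 525 cS2_3 (.x 6)))) (.x 7)) (.A 0 650 (.x 8) (.x 9))) .n))))
def cS2_5 : Ct := (.A 0 537 (.S 1498 (.A 0 531 (.S 1494 (.A 0 528 (.S 1492 (.A 0 526 (.S 1491 (.X 0 1 .n (.A 0 465 (.x 17) .n)) (.X 0 1 .n (.A 0 466 (.x 17) .n))) (.S 1491 (.x 6) (.A 0 527 (.X 0 1 .n (.A 0 465 (.x 17) .n)) (.x 6)))) (.A 0 526 (.X 0 1 .n (.A 0 468 (.x 17) .n)) (.A 0 527 (.S 1493 (.X 0 1 .n (.A 0 466 (.x 17) .n)) (.X 0 1 .n (.A 0 467 (.x 17) .n))) (.S 1493 (.X 0 1 .n (.A 0 464 (.x 17) .n)) (.X 0 1 .n (.A 0 466 (.x 17)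 .n)))))) (.S 1493 (.x 6) (.A 0 529 (.X 0 1 .n (.A 0 464 (.x 17) .n)) (.x 6)))) (.A 0 528 (.X 0 1 .n (.A 0 472 (.x 17) .n)) (.S 1496 (.A 0 529 (.S 1495 (.X 0 1 .n (.A 0 465 (.x 17) .n)) (.X 0 1 .n (.A 0 467 (.x 17) .n))) (.A 0 530 (.S 1495 (.X 0 1 .n (.A 0 464 (.x 17) .n)) (.X 0 1 .n (.A 0 465 (.x 17) .n))) (.S 1495 (.x 6) (.X 0 1 .n (.A 0 464 (.x 17) .n))))) (.A 0 529 (.X 0 1 .n (.A 0 469 (.x 17) .n)) (.A 0 530 (.X 0 1 .n (.A 0 468 (.x 17) .n)) (.S 1497 (.X 0 1 .n (.A 0 465 (.x 17) .n)) (.X 0 1 .n (.A 0 466 (.x 17) .n)))))))) (.S 1497 (.x 6) (.A 0 534 (.A 0 532 (.X 0 1 .n (.A 0 465 (.x 17) .n)) (.x 6)) (.x 6)))) (.A 0 531 (.X 0 1 .n (.A 0 482 (.x 17) .n)) (.S 1502 (.A 0 534 (.S 1500 (.A 0 532 (.S 1499 (.X 0 1 .n (.A 0 466 (.x 17) .n)) (.X 0 1 .n (.A 0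 467 (.x 17) .n))) (.A 0 533 (.S 1499 (.X 0 1 .n (.A 0 465 (.x 17) .n)) (.X 0 1 .n (.A 0 466 (.x 17) .n))) (.S 1499 (.x 6) (.X 0 1 .n (.A 0 465 (.x 17) .n))))) (.A 0 532 (.X 0 1 .n (.A 0 470 (.x 17) .n)) (.A 0 533 (.X 0 1 .n (.A 0 468 (.x 17) .n)) (.S 1501 (.X 0 1 .n (.A 0 466 (.x 17) .n)) (.X 0 1 .n (.A 0 467 (.x 17) .n)))))) (.S 1500 (.x 6) (.A 0 535 (.S 1501 (.X 0 1 .n (.A 0 465 (.x 17) .n)) (.X 0 1 .n (.A 0 466 (.x 17) .n))) (.S 1501 (.x 6) (.A 0 536 (.X 0 1 .n (.A 0 465 (.x 17) .n)) (.x 6)))))) (.A 0 534 (.X 0 1 .n (.A 0 475 (.x 17) .n)) (.S 1504 (.A 0 535 (.X 0 1 .n (.A 0 468 (.x 17) .n)) (.A 0 536 (.S 1503 (.X 0 1 .n (.A 0 466 (.x 17) .n)) (.X 0 1 .n (.A 0 467 (.x 17) .n))) (.S 1503 (.X 0 1 .n (.A 0 465 (.x 17) .n)) (.X 0 1 .n (.A 0 466 (.x 17) .n)))))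 (.X 0 1 .n (.A 0 472 (.x 17) .n))))))) (.S 1503 (.x 6) (.A 0 543 (.A 0 540 (.S 1505 (.A 0 538 (.S 1504 (.X 0 1 .n (.A 0 465 (.x 17) .n)) (.X 0 1 .n (.A 0 466 (.x 17) .n))) (.S 1504 (.x 6) (.A 0 539 (.X 0 1 .n (.A 0 465 (.x 17) .n)) (.x 6)))) (.A 0 538 (.X 0 1 .n (.A 0 468 (.x 17) .n)) (.A 0 539 (.S 1506 (.X 0 1 .n (.A 0 466 (.x 17) .n)) (.X 0 1 .n (.A 0 467 (.x 17) .n))) (.S 1506 (.X 0 1 .n (.A 0 465 (.x 17) .n)) (.X 0 1 .n (.A 0 466 (.x 17) .n)))))) (.S 1506 (.x 6) (.A 0 541 (.X 0 1 .n (.A 0 465 (.x 17) .n)) (.x 6)))) (.x 6))))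
def cS2_6 : Ct := (.A 0 525 (.S 1503 (.A 0 512 (.X 0 1 .n (.A 0 503 (.x 17) .n)) (.S 1492 (.A 0 518 (.S 1486 (.A 0 515 (.X 0 1 .n (.A 0 474 (.x 17) .n)) (.S 1483 (.A 0 516 (.S 1482 (.X 0 1 .n (.A 0 466 (.x 17) .n)) (.X 0 1 .n (.A 0 467 (.x 17) .n))) (.A 0 517 (.S 1482 (.X 0 1 .n (.A 0 465 (.x 17) .n)) (.X 0 1 .n (.A 0 466 (.x 17) .n))) (.S 1482 (.x 6) (.X 0 1 .n (.A 0 465 (.x 17) .n))))) (.A 0 516 (.X 0 1 .n (.A 0 470 (.x 17) .n)) (.S 1484 (.A 0 517 (.X 0 1 .n (.A 0 467 (.x 17) .n)) (.X 0 1 .n (.A 0 466 (.x 17) .n))) (.X 0 1 .n (.A 0 469 (.x 17) .n)))))) (.X 0 1 .n (.A 0 480 (.x 17) .n))) (.S 1483 (.x 6) (.S 1487 (.A 0 521 (.S 1485 (.A 0 519 (.S 1484 (.X 0 1 .n (.A 0 465 (.x 17) .n)) (.X 0 1 .n (.A 0 466 (.x 17) .n))) (.S 1484 (.x 6) (.A 0 520 (.X 0 1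 .n (.A 0 465 (.x 17) .n)) (.x 6)))) (.A 0 519 (.X 0 1 .n (.A 0 468 (.x 17) .n)) (.A 0 520 (.S 1486 (.X 0 1 .n (.A 0 466 (.x 17) .n)) (.X 0 1 .n (.A 0 467 (.x 17) .n))) (.S 1486 (.X 0 1 .n (.A 0 465 (.x 17) .n)) (.X 0 1 .n (.A 0 466 (.x 17) .n)))))) (.S 1486 (.x 6) (.A 0 523 (.A 0 522 (.X 0 1 .n (.A 0 465 (.x 17) .n)) (.x 6)) (.x 6)))) (.A 0 521 (.X 0 1 .n (.A 0 473 (.x 17) .n)) (.S 1489 (.A 0 523 (.A 0 522 (.S 1488 (.X 0 1 .n (.A 0 466 (.x 17) .n)) (.X 0 1 .n (.A 0 467 (.x 17) .n))) (.S 1488 (.X 0 1 .n (.A 0 465 (.x 17) .n)) (.X 0 1 .n (.A 0 466 (.x 17) .n)))) (.S 1488 (.x 6) (.A 0 524 (.X 0 1 .n (.A 0 465 (.x 17) .n)) (.x 6)))) (.A 0 523 (.X 0 1 .n (.A 0 470 (.x 17) .n)) (.S 1490 (.A 0 524 (.X 0 1 .n (.A 0 466 (.x 17) .n)) (.X 0 1 .n (.A 0 465 (.x 17)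 .n))) (.A 0 524 (.X 0 1 .n (.A 0 468 (.x 17) .n)) (.S 1491 (.X 0 1 .n (.A 0 466 (.x 17) .n)) (.X 0 1 .n (.A 0 467 (.x 17) .n))))))))))) (.X 0 1 .n (.A 0 491 (.x 17) .n)))) (.X 0 1 .n (.x 17))) (.S 1490 (.x 6) (.S 1507 cS2_5 (.A 0 537 (.X 0 1 .n (.A 0 500 (.x 17) .n)) (.S 1516 (.A 0 543 (.S 1511 (.A 0 540 (.X 0 1 .n (.A 0 472 (.x 17) .n)) (.S 1509 (.A 0 541 (.S 1508 (.X 0 1 .n (.A 0 466 (.x 17) .n)) (.X 0 1 .n (.A 0 467 (.x 17) .n))) (.A 0 542 (.S 1508 (.X 0 1 .n (.A 0 465 (.x 17) .n)) (.X 0 1 .n (.A 0 466 (.x 17) .n))) (.S 1508 (.x 6) (.X 0 1 .n (.A 0 464 (.x 17) .n))))) (.A 0 541 (.X 0 1 .n (.A 0 469 (.x 17) .n)) (.A 0 542 (.X 0 1 .n (.A 0 468 (.x 17) .n)) (.S 1510 (.X 0 1 .n (.A 0 466 (.x 17) .n)) (.X 0 1 .n (.A 0 467 (.x 17) .n))))))) (.X 0 1 .n (.A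 0 478 (.x 17) .n))) (.S 1509 (.x 6) (.A 0 546 (.S 1512 (.A 0 544 (.S 1510 (.X 0 1 .n (.A 0 464 (.x 17) .n)) (.S 1511 (.X 0 1 .n (.A 0 465 (.x 17) .n)) (.X 0 1 .n (.A 0 466 (.x 17) .n)))) (.S 1511 (.x 6) (.A 0 545 (.X 0 1 .n (.A 0 465 (.x 17) .n)) (.x 6)))) (.S 1514 (.A 0 544 (.X 0 1 .n (.A 0 469 (.x 17) .n)) (.A 0 545 (.S 1513 (.X 0 1 .n (.A 0 466 (.x 17) .n)) (.X 0 1 .n (.A 0 467 (.x 17) .n))) (.S 1513 (.X 0 1 .n (.A 0 465 (.x 17) .n)) (.X 0 1 .n (.A 0 466 (.x 17) .n))))) (.X 0 1 .n (.A 0 471 (.x 17) .n)))) (.S 1513 (.x 6) (.A 0 548 (.S 1514 (.A 0 547 (.X 0 1 .n (.A 0 465 (.x 17) .n)) (.x 6)) (.A 0 547 (.S 1515 (.X 0 1 .n (.A 0 466 (.x 17) .n)) (.X 0 1 .n (.A 0 467 (.x 17) .n))) (.S 1515 (.X 0 1 .n (.A 0 465 (.x 17) .n)) (.X 0 1 .n (.A 0 466 (.x 17) .n)))))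 (.S 1515 (.x 6) (.A 0 549 (.X 0 1 .n (.A 0 465 (.x 17) .n)) (.x 6)))))))) (.A 0 543 (.X 0 1 .n (.A 0 487 (.x 17) .n)) (.S 1520 (.A 0 546 (.X 0 1 .n (.A 0 475 (.x 17) .n)) (.A 0 548 (.X 0 1 .n (.A 0 472 (.x 17) .n)) (.S 1518 (.A 0 549 (.S 1517 (.X 0 1 .n (.A 0 466 (.x 17) .n)) (.X 0 1 .n (.A 0 467 (.x 17) .n))) (.S 1517 (.X 0 1 .n (.A 0 465 (.x 17) .n)) (.X 0 1 .n (.A 0 466 (.x 17) .n)))) (.X 0 1 .n (.A 0 469 (.x 17) .n))))) (.X 0 1 .n (.A 0 480 (.x 17) .n)))))))))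
def cS2_7 : Ct := (.S 1538 (.A 0 568 (.S 1533 (.A 0 565 (.S 1531 (.A 0 563 (.S 1530 (.X 0 1 .n (.A 0 463 (.x 17) .n)) (.X 0 1 .n (.A 0 464 (.x 17) .n))) (.S 1530 (.x 7) (.A 0 564 (.X 0 1 .n (.A 0 463 (.x 17) .n)) (.x 7)))) (.A 0 563 (.X 0 1 .n (.A 0 467 (.x 17) .n)) (.A 0 564 (.S 1532 (.X 0 1 .n (.A 0 464 (.x 17) .n)) (.X 0 1 .n (.A 0 465 (.x 17) .n))) (.S 1532 (.X 0 1 .n (.A 0 463 (.x 17) .n)) (.X 0 1 .n (.A 0 464 (.x 17) .n)))))) (.S 1532 (.x 7) (.A 0 566 (.X 0 1 .n (.A 0 463 (.x 17) .n)) (.x 7)))) (.A 0 565 (.X 0 1 .n (.A 0 472 (.x 17) .n)) (.S 1535 (.A 0 566 (.S 1534 (.X 0 1 .n (.A 0 464 (.x 17) .n)) (.X 0 1 .n (.A 0 465 (.x 17) .n))) (.A 0 567 (.S 1534 (.X 0 1 .n (.A 0 463 (.x 17) .n)) (.X 0 1 .n (.A 0 464 (.x 17) .n))) (.S 1534 (.x 7) (.X 0 1 .n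 (.A 0 463 (.x 17) .n))))) (.A 0 566 (.X 0 1 .n (.A 0 468 (.x 17) .n)) (.S 1536 (.A 0 567 (.X 0 1 .n (.A 0 465 (.x 17) .n)) (.X 0 1 .n (.A 0 464 (.x 17) .n))) (.A 0 567 (.X 0 1 .n (.A 0 467 (.x 17) .n)) (.S 1537 (.X 0 1 .n (.A 0 465 (.x 17) .n)) (.X 0 1 .n (.A 0 466 (.x 17) .n))))))))) (.S 1536 (.x 7) (.A 0 571 (.A 0 569 (.S 1537 (.X 0 1 .n (.A 0 464 (.x 17) .n)) (.X 0 1 .n (.A 0 465 (.x 17) .n))) (.S 1537 (.x 7) (.A 0 570 (.X 0 1 .n (.A 0 463 (.x 17) .n)) (.x 7)))) (.x 7)))) (.A 0 568 (.X 0 1 .n (.A 0 481 (.x 17) .n)) (.S 1542 (.A 0 571 (.S 1540 (.A 0 569 (.X 0 1 .n (.A 0 467 (.x 17) .n)) (.A 0 570 (.S 1539 (.X 0 1 .n (.A 0 464 (.x 17) .n)) (.X 0 1 .n (.A 0 466 (.x 17) .n))) (.S 1539 (.X 0 1 .n (.A 0 463 (.x 17) .n)) (.X 0 1 .n (.A 0 464 (.x 17) .n)))))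 (.X 0 1 .n (.A 0 469 (.x 17) .n))) (.S 1539 (.x 7) (.A 0 573 (.S 1540 (.A 0 572 (.X 0 1 .n (.A 0 463 (.x 17) .n)) (.x 7)) (.A 0 572 (.S 1541 (.X 0 1 .n (.A 0 464 (.x 17) .n)) (.X 0 1 .n (.A 0 465 (.x 17) .n))) (.S 1541 (.X 0 1 .n (.A 0 463 (.x 17) .n)) (.X 0 1 .n (.A 0 464 (.x 17) .n))))) (.S 1541 (.x 7) (.A 0 574 (.X 0 1 .n (.A 0 463 (.x 17) .n)) (.x 7)))))) (.A 0 571 (.X 0 1 .n (.A 0 474 (.x 17) .n)) (.S 1544 (.A 0 573 (.X 0 1 .n (.A 0 467 (.x 17) .n)) (.A 0 574 (.S 1543 (.X 0 1 .n (.A 0 464 (.x 17) .n)) (.X 0 1 .n (.A 0 465 (.x 17) .n))) (.S 1543 (.X 0 1 .n (.A 0 463 (.x 17) .n)) (.X 0 1 .n (.A 0 464 (.x 17) .n))))) (.A 0 573 (.X 0 1 .n (.A 0 471 (.x 17) .n)) (.S 1545 (.A 0 574 (.X 0 1 .n (.A 0 466 (.x 17) .n)) (.X 0 1 .n (.A 0 465 (.x 17) .n))) (.X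 0 1 .n (.A 0 468 (.x 17) .n)))))))))
def cS2_8 : Ct := (.S 1557 (.A 0 581 (.S 1550 (.A 0 578 (.S 1547 (.A 0 576 (.S 1545 (.X 0 1 .n (.A 0 464 (.x 17) .n)) (.S 1546 (.X 0 1 .n (.A 0 465 (.x 17) .n)) (.X 0 1 .n (.A 0 466 (.x 17) .n)))) (.S 1545 (.x 7) (.A 0 577 (.S 1546 (.X 0 1 .n (.A 0 463 (.x 17) .n)) (.X 0 1 .n (.A 0 464 (.x 17) .n))) (.S 1546 (.x 7) (.X 0 1 .n (.A 0 463 (.x 17) .n)))))) (.A 0 576 (.X 0 1 .n (.A 0 469 (.x 17) .n)) (.S 1548 (.A 0 577 (.X 0 1 .n (.A 0 465 (.x 17) .n)) (.X 0 1 .n (.A 0 464 (.x 17) .n))) (.X 0 1 .n (.A 0 468 (.x 17) .n))))) (.S 1547 (.x 7) (.A 0 579 (.S 1548 (.X 0 1 .n (.A 0 463 (.x 17) .n)) (.S 1549 (.X 0 1 .n (.A 0 464 (.x 17) .n)) (.X 0 1 .n (.A 0 465 (.x 17) .n)))) (.S 1548 (.x 7) (.A 0 580 (.S 1549 (.X 0 1 .n (.A 0 463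 (.x 17) .n)) (.X 0 1 .n (.A 0 464 (.x 17) .n))) (.S 1549 (.x 7) (.X 0 1 .n (.A 0 463 (.x 17) .n)))))))) (.S 1553 (.A 0 578 (.X 0 1 .n (.A 0 472 (.x 17) .n)) (.A 0 579 (.X 0 1 .n (.A 0 468 (.x 17) .n)) (.S 1551 (.A 0 580 (.X 0 1 .n (.A 0 465 (.x 17) .n)) (.X 0 1 .n (.A 0 464 (.x 17) .n))) (.A 0 580 (.X 0 1 .n (.A 0 467 (.x 17) .n)) (.S 1552 (.X 0 1 .n (.A 0 465 (.x 17) .n)) (.X 0 1 .n (.A 0 466 (.x 17) .n))))))) (.X 0 1 .n (.A 0 476 (.x 17) .n)))) (.S 1551 (.x 7) (.A 0 584 (.S 1554 (.A 0 582 (.S 1552 (.X 0 1 .n (.A 0 464 (.x 17) .n)) (.S 1553 (.X 0 1 .n (.A 0 465 (.x 17) .n)) (.X 0 1 .n (.A 0 466 (.x 17) .n)))) (.S 1552 (.x 7) (.A 0 583 (.S 1553 (.X 0 1 .n (.A 0 463 (.x 17) .n)) (.X 0 1 .n (.A 0 464 (.x 17) .n))) (.S 1553 (.x 7) (.X 0 1 .n (.A 0 463 (.x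 17) .n)))))) (.A 0 582 (.X 0 1 .n (.A 0 469 (.x 17) .n)) (.S 1555 (.A 0 583 (.X 0 1 .n (.A 0 466 (.x 17) .n)) (.X 0 1 .n (.A 0 464 (.x 17) .n))) (.X 0 1 .n (.A 0 468 (.x 17) .n))))) (.S 1554 (.x 7) (.A 0 585 (.S 1555 (.X 0 1 .n (.A 0 463 (.x 17) .n)) (.S 1556 (.X 0 1 .n (.A 0 464 (.x 17) .n)) (.X 0 1 .n (.A 0 465 (.x 17) .n)))) (.S 1555 (.x 7) (.A 0 586 (.S 1556 (.X 0 1 .n (.A 0 463 (.x 17) .n)) (.X 0 1 .n (.A 0 464 (.x 17) .n))) (.S 1556 (.x 7) (.X 0 1 .n (.A 0 463 (.x 17) .n)))))))))) (.A 0 581 (.X 0 1 .n (.A 0 490 (.x 17) .n)) (.S 1563 (.A 0 584 (.X 0 1 .n (.A 0 475 (.x 17) .n)) (.S 1560 (.A 0 585 (.X 0 1 .n (.A 0 468 (.x 17) .n)) (.S 1558 (.A 0 586 (.X 0 1 .n (.A 0 465 (.x 17) .n)) (.X 0 1 .n (.A 0 464 (.x 17) .n))) (.A 0 586 (.X 0 1 .n (.A 0 467 (.x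 17) .n)) (.S 1559 (.X 0 1 .n (.A 0 465 (.x 17) .n)) (.X 0 1 .n (.A 0 466 (.x 17) .n)))))) (.X 0 1 .n (.A 0 472 (.x 17) .n)))) (.X 0 1 .n (.A 0 483 (.x 17) .n)))))
def cS2_9 : Ct := (.S 1525 (.X 0 33 .n (.A 0 725 (.A 0 600 (.A 0 550 (.A 0 500 (.S 1503 (.X 0 1 .n (.x 17)) (.X 0 1 .n (.N (.x 17)))) cS2_6) (.S 1515 (.x 7) (.A 0 575 (.A 0 562 (.A 0 556 (.S 1520 (.A 0 553 (.S 1517 (.A 0 551 (.S 1516 (.X 0 1 .n (.A 0 463 (.x 17) .n)) (.X 0 1 .n (.A 0 464 (.x 17) .n))) (.x 7)) (.A 0 551 (.S 1518 (.X 0 1 .n (.A 0 465 (.x 17) .n)) (.X 0 1 .n (.A 0 467 (.x 17) .n))) (.S 1518 (.A 0 552 (.X 0 1 .n (.A 0 464 (.x 17) .n)) (.x 7)) (.A 0 552 (.S 1519 (.X 0 1 .n (.A 0 465 (.x 17) .n)) (.X 0 1 .n (.A 0 466 (.x 17) .n))) (.S 1519 (.X 0 1 .n (.A 0 463 (.x 17) .n)) (.X 0 1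 .n (.A 0 465 (.x 17) .n))))))) (.S 1519 (.x 7) (.A 0 554 (.X 0 1 .n (.A 0 463 (.x 17) .n)) (.x 7)))) (.A 0 553 (.X 0 1 .n (.A 0 472 (.x 17) .n)) (.S 1522 (.A 0 554 (.S 1521 (.X 0 1 .n (.A 0 464 (.x 17) .n)) (.X 0 1 .n (.A 0 465 (.x 17) .n))) (.A 0 555 (.S 1521 (.X 0 1 .n (.A 0 463 (.x 17) .n)) (.X 0 1 .n (.A 0 464 (.x 17) .n))) (.S 1521 (.x 7) (.X 0 1 .n (.A 0 463 (.x 17) .n))))) (.A 0 554 (.X 0 1 .n (.A 0 469 (.x 17) .n)) (.S 1523 (.A 0 555 (.X 0 1 .n (.A 0 465 (.x 17) .n)) (.X 0 1 .n (.A 0 464 (.x 17) .n))) (.X 0 1 .n (.A 0 467 (.x 17) .n))))))) (.S 1522 (.x 7) (.A 0 559 (.A 0 557 (.S 1523 (.X 0 1 .n (.A 0 463 (.x 17) .n)) (.S 1524 (.X 0 1 .n (.A 0 464 (.x 17) .n)) (.X 0 1 .n (.A 0 465 (.x 17) .n)))) (.S 1523 (.x 7) (.A 0 558 (.S 1524 (.X 0 1 .n (.A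 0 463 (.x 17) .n)) (.X 0 1 .n (.A 0 464 (.x 17) .n))) (.S 1524 (.x 7) (.X 0 1 .n (.A 0 463 (.x 17) .n)))))) (.x 7)))) (.x 7)) (.x 7)))) (.A 0 650 (.x 8) (.A 0 700 (.x 9) (.x 10)))) .n)) (.X 0 33 .n (.A 0 755 (.A 0 650 (.A 0 600 (.A 0 550 (.A 0 529 (.S 1547 (.X 0 1 .n (.x 17)) (.X 0 1 .n (.N (.x 17)))) (.S 1547 (.X 0 1 .n (.A 0 517 (.x 17) .n)) (.X 0 1 .n (.A 0 539 (.x 17) .n)))) (.A 0 575 (.S 1547 (.A 0 562 (.S 1536 (.A 0 556 (.X 0 1 .n (.A 0 484 (.x 17) .n)) (.S 1530 (.A 0 559 (.S 1527 (.A 0 557 (.X 0 1 .n (.A 0 467 (.x 17) .n)) (.A 0 558 (.X 0 1 .n (.A 0 466 (.x 17) .n)) (.S 1526 (.X 0 1 .n (.A 0 464 (.x 17) .n)) (.X 0 1 .n (.A 0 465 (.x 17) .n))))) (.X 0 1 .n (.A 0 470 (.x 17) .n))) (.S 1527 (.A 0 560 (.S 1526 (.X 0 1 .n (.A 0 463 (.x 17) .n)) (.X 0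 1 .n (.A 0 464 (.x 17) .n))) (.x 7)) (.A 0 560 (.S 1528 (.X 0 1 .n (.A 0 465 (.x 17) .n)) (.X 0 1 .n (.A 0 467 (.x 17) .n))) (.S 1528 (.A 0 561 (.X 0 1 .n (.A 0 464 (.x 17) .n)) (.x 7)) (.A 0 561 (.S 1529 (.X 0 1 .n (.A 0 465 (.x 17) .n)) (.X 0 1 .n (.A 0 466 (.x 17) .n))) (.S 1529 (.X 0 1 .n (.A 0 463 (.x 17) .n)) (.X 0 1 .n (.A 0 464 (.x 17) .n)))))))) (.X 0 1 .n (.A 0 477 (.x 17) .n)))) (.X 0 1 .n (.A 0 495 (.x 17) .n))) (.S 1529 (.x 7) cS2_7)) (.X 0 1 .n (.A 0 518 (.x 17) .n))) (.S 1544 (.x 7) (.A 0 587 cS2_8 (.S 1558 (.x 7) (.A 0 593 (.S 1564 (.A 0 590 (.S 1561 (.A 0 588 (.S 1559 (.X 0 1 .n (.A 0 464 (.x 17) .n)) (.S 1560 (.X 0 1 .n (.A 0 465 (.x 17) .n)) (.X 0 1 .n (.A 0 466 (.x 17) .n)))) (.S 1559 (.x 7) (.A 0 589 (.S 1560 (.X 0 1 .n (.A 0 463 (.x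 17) .n)) (.X 0 1 .n (.A 0 464 (.x 17) .n))) (.S 1560 (.x 7) (.X 0 1 .n (.A 0 463 (.x 17) .n)))))) (.A 0 588 .e (.S 1562 (.A 0 589 (.X 0 1 .n (.A 0 466 (.x 17) .n)) (.X 0 1 .n (.A 0 464 (.x 17) .n))) (.X 0 1 .n (.A 0 468 (.x 17) .n))))) (.S 1561 (.x 7) (.A 0 591 (.S 1562 (.X 0 1 .n (.A 0 463 (.x 17) .n)) .e) (.S 1562 (.x 7) (.A 0 592 .e .e))))) (.A 0 590 .e .e)) (.S 1565 (.x 7) (.A 0 596 .e (.S 1568 (.x 7) .e))))))))) (.x 8)) (.A 0 700 (.x 9) (.A 0 750 (.x 10) (.x 11)))) .n)))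
def cS2_ : Ct := (.S 1665 (.S 1481 cS2_4 (.S 1570 cS2_9 (.S 1617 (.X 0 33 .n (.A 0 786 (.A 0 650 (.A 0 600 (.A 0 550 (.X 0 1 .n .e) (.A 0 575 (.S 1593 (.X 0 1 .n (.A 0 539 (.x 17) .n)) .e) (.S 1593 (.A 0 587 (.X 0 1 .n (.A 0 513 (.x 17) .n)) (.S 1581 (.A 0 593 .e .e) .e)) .e))) (.S 1589 (.x 8) (.A 0 625 (.A 0 612 .e .e) (.x 8)))) (.A 0 700 (.x 9) (.A 0 750 (.x 10) (.x 11)))) .n)) (.X 0 25 .n (.A 0 816 (.A 0 700 (.A 0 650 (.A 0 625 (.S 1641 .e (.A 0 612 .e (.A 0 618 .e .e))) (.S 1619 (.x 8) (.S 1642 .e (.A 0 637 .e (.S 1653 .e .e))))) (.x 9)) (.A 0 750 (.x 10) (.A 0 800 (.x 11) (.x 12)))) .n))))) (.S 1871 (.S 1765 (.S 1714 (.X 0 52 .n (.A 0 845 (.A 0 650 (.A 0 550 (.A 0 500 (.A 0 483 .e .e) (.A 0 525 (.A 0 512 .e .e) (.A 0 537 (.S 1689 .e .e) (.S 1689 .e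 .e)))) (.A 0 600 (.A 0 575 (.A 0 562 (.S 1689 .e .e) (.S 1689 .e .e)) (.A 0 587 (.S 1689 .e .e) (.S 1689 (.A 0 593 .e .e) .e))) (.A 0 625 (.A 0 612 .e .e) (.S 1689 (.A 0 637 .e .e) .e)))) (.A 0 750 (.A 0 700 (.S 1682 (.x 9) (.A 0 675 .e (.x 9))) (.x 10)) (.A 0 800 (.x 11) (.x 12)))) .n)) (.X 52 52 (.A 0 875 (.A 0 679 (.A 0 581 (.A 0 532 (.A 0 507 (.A 0 495 (.S 1739 .e (.X 32 33 .n (.N .e))) .e) .e) .e) .e) .e) .n) (.A 0 875 (.A 0 700 (.A 0 600 (.A 0 550 (.A 0 500 (.S 1739 .e .e) (.A 0 525 (.A 0 512 .e .e) .e)) (.A 0 575 .e .e)) (.A 0 650 .e .e)) (.A 0 800 (.A 0 750 (.x 10) (.x 11)) (.A 0 850 (.x 12) (.x 13)))) .n))) (.S 1817 (.X 0 22 .n (.A 0 904 (.A 0 800 (.A 0 750 .e (.x 11)) (.A 0 850 (.x 12) (.A 0 900 (.x 13) (.x 14)))) .n)) (.X 0 31 .n (.A 0 934 (.A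 0 800 (.A 0 700 .e .e) (.A 0 850 (.x 12) (.A 0 900 (.x 13) (.x 14)))) .n)))) (.S 1984 (.S 1927 (.X 33 33 (.A 0 963 .e .n) (.A 0 963 (.A 0 800 (.A 0 750 .e .e) (.A 0 900 (.A 0 850 (.x 12) (.x 13)) (.A 0 950 (.x 14) (.x 15)))) .n)) (.X 34 2 (.A 0 992 .e .n) (.A 0 992 (.A 0 950 (.x 14) (.x 15)) .n))) (.S 2043 (.X 34 1 .e (.x 15)) (.X 35 1 .e .n)))))
theorem cS2_ok : chk par tab 20828 1280 0 ys2 cS2_ 1357 2060 [.p 1000 1000] = true := by decide +kernel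

end Pool.Agent.MMS15.TC8
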