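import Pool.Agent.MMS15.TabG
import Pool.Agent.MMS15.TC8
import Pool.Agent.MMS15.TH8
import Pool.Agent.MMS15.TH9

/-!
# MMS15/TabP8: k / n in [5140, 5205] / 2 ^ 14 (glue, complete)
-/

set_option autoImplicit false
set_option maxRecDepth 100000

namespace Pool.Agent.MMS15

open Pool.Agent.MMS14

theorem rowP8 : ∀ r, RowP (rowv TP8.rows r) := rowP_all TP8.len_ok TP8.ends_ok

theorem goodP8 : Good TP8.par.P0 TP8.par.P1 TP8.rows :=
  good_of_checks TP8.par_ok TP8.len_ok TP8.cells1 TP8.cells2 TP8.cells3 TP8.cells4 TP8.cells5 TP8.ends_ok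
    (base_ok (by decide) TP8.err_ok)

theorem vmP8 : ∀ v ∈ TP8.vm, v ≤ 65536 := all_le' (by decide +kernel)

theorem lowP8 : LowOk TP8.par.P0 TP8.par.P1 TP8.vm :=
  low_of (q := TP8.par) (rows := TP8.rows) (vm := TP8.vm) TP8.par_ok TP8.len_ok rowP8 goodP8 TP8.min_ok (by decide +kernel) vmP8

theorem nonP8 : NonP ((((5140 : ℕ) : ℝ) + 0.1) / 16384) ((((5205 : ℕ) : ℝ) - 0.1) / 16384) :=
  nonstar_cell (q := TP8.par) (rows := TP8.rows) (tab := TP8.tab) (vm := TP8.vm) (xs := TC8.xs) (tgt := 20828) TP8.par_ok TP8.len_ok rowP8 goodP8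
    TP8.look_ok lowP8 vmP8 (by decide +kernel) (v00 := 64704) (v0 := 13959) (g := 20459) (by decide +kernel) (by decide +kernel) TP8.pair_ok (by decide +kernel)
    (by decide) (by decide) (xs_t34 (by decide)) rfl TC8.cP_ok TC8.cM_ok (top_of' rfl TP8.top_ok)

theorem lowH8 : StarLowOk TH8.par.P0 TH8.par.P1 TH8.vs :=
  starLow_of (q := TH8.par) (rows := TH8.rows) (tab := TH8.tab) (vs := TH8.vs) TH8.par_ok TH8.len_ok
    (Pool.Agent.MMS14.rowP_all TH8.len_ok TH8.ends_ok)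
    (Pool.Agent.MMS14.good_of_checks TH8.par_ok TH8.len_ok TH8.cells1 TH8.cells2 TH8.cells3 TH8.cells4 TH8.cells5 TH8.ends_ok
      (Pool.Agent.MMS14.base_ok (by decide) TH8.err_ok)) TH8.look_ok TH8.min_ok (by decide +kernel) (all_le' (by decide +kernel))

theorem starP8 : StarP (((5140 : ℕ) : ℝ) / 16384) (((5182 : ℕ) : ℝ) / 16384) :=
  star_cell (q := TP8.par) (rows := TP8.rows) (tab := TP8.tab) TP8.par_ok TP8.len_ok rowP8 goodP8 TP8.look_ok
    (Q0 := 7487) (Q1 := 7582) (vs := TH8.vs) (ws := TH8.ws) lowH8 TH8.vs_len (all_le' (by decide +kernel)) TH8.w_ok (by decide) (by decide) (by decide) TH8.a1_ok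
    (b1_of TH8.b1_ok) ⟨TH8.b1s.getLast (by decide), List.getLast_mem _, by decide +kernel, by decide +kernel, by decide +kernel⟩ (b2_of TH8.b2_ok)
    (ys := TC8.ys1) rfl (tgt := 20736) (sa := 1366) (A := 5140) (B := 5182) (by decide) TC8.cS1_ok (by decide) (by decide) (by decide) (by decide) (by decide) (by decide) (by decide)

theorem lowH9 : StarLowOk TH9.par.P0 TH9.par.P1 TH9.vs :=
  starLow_of (q := TH9.par) (rows := TH9.rows) (tab := TH9.tab) (vs := TH9.vs) TH9.par_ok TH9.len_ok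
    (Pool.Agent.MMS14.rowP_all TH9.len_ok TH9.ends_ok)
    (Pool.Agent.MMS14.good_of_checks TH9.par_ok TH9.len_ok TH9.cells1 TH9.cells2 TH9.cells3 TH9.cells4 TH9.cells5 TH9.ends_ok
      (Pool.Agent.MMS14.base_ok (by decide) TH9.err_ok)) TH9.look_ok TH9.min_ok (by decide +kernel) (all_le' (by decide +kernel))

theorem starP9 : StarP (((5180 : ℕ) : ℝ) / 16384) (((5205 : ℕ) : ℝ) / 16384) :=
  star_cell (q := TP8.par) (rows := TP8.rows) (tab := TP8.tab) TP8.par_ok TP8.len_ok rowP8 goodP8 TP8.look_ok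
    (Q0 := 7572) (Q1 := 7631) (vs := TH9.vs) (ws := TH9.ws) lowH9 TH9.vs_len (all_le' (by decide +kernel)) TH9.w_ok (by decide) (by decide) (by decide) TH9.a1_ok
    (b1_of TH9.b1_ok) ⟨TH9.b1s.getLast (by decide), List.getLast_mem _, by decide +kernel, by decide +kernel, by decide +kernel⟩ (b2_of TH9.b2_ok)
    (ys := TC8.ys2) rfl (tgt := 20828) (sa := 1357) (A := 5180) (B := 5205) (by decide) TC8.cS2_ok (by decide) (by decide) (by decide) (by decide) (by decide) (by decide) (by decide)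

end Pool.Agent.MMS15
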