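import Pool.Agent.MMS15.TabP1
import Pool.Agent.MMS15.TabP2
import Pool.Agent.MMS15.TabP3
import Pool.Agent.MMS15.TabP4
import Pool.Agent.MMS15.TabP5
import Pool.Agent.MMS15.TabP6
import Pool.Agent.MMS15.TabP7
import Pool.Agent.MMS15.TabP8
import Pool.Agent.MMS15.Main15

/-!
# MMS15/Fin15: all tables together, the exact threshold for all `k ≥ 10 ^ 26` (glue, complete)
-/

set_option autoImplicit false

namespace Pool.Agent.MMS15

theorem star_all : StarP (1 / 4) 0.31768 := by
  have h := ((((((((starP1.union starP2 (by norm_num)).union starP3 (by norm_num)).union starP4 (by norm_num)).union starP5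
    (by norm_num)).union starP6 (by norm_num)).union starP7 (by norm_num)).union starP8 (by norm_num)).union starP9 (by norm_num))
  exact h.mono (by norm_num) (by norm_num)

theorem non_all : NonP (1 / 4) 0.31768 := by
  have h := (((((((nonP1.union nonP2 (by norm_num)).union nonP3 (by norm_num)).union nonP4 (by norm_num)).union nonP5
    (by norm_num)).union nonP6 (by norm_num)).union nonP7 (by norm_num)).union nonP8 (by norm_num))
  exact h.mono (by norm_num) (by norm_num)

/-- the exact threshold `f(k) = N_k` for all `k ≥ 10 ^ 26` -/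
theorem exact_large (k : ℕ) (hk : 10 ^ 26 ≤ k) :
    sInf {m : ℕ | ∀ n : ℕ, m ≤ n → ∀ x : Fin n → ℝ, 0 ≤ ∑ i, x i → (n - 1).choose (k - 1) ≤
      (((Finset.univ : Finset (Fin n)).powersetCard k).filter (fun s => 0 ≤ ∑ i ∈ s, x i)).card} =
    sInf {N : ℕ | k ≤ N ∧ (N - 1).choose (k - 1) ≤ (N - 3).choose k} :=
  main15 star_all non_all hk

end Pool.Agent.MMS15
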