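import Pool.Agent.MMS15.Cnt

/-!
# MMS15/FinDefs: the two statements that the tables prove (definitions only)
-/

open Finset Pool.Agent.H36.MMS

set_option autoImplicit false

namespace Pool.Agent.MMS15

/-- star-like vectors: `x a0 = 1` is the largest entry, the squares of the other entries have sum at most `1.06`, `k / n ∈ [a, b]` -/
def StarP (a b : ℝ) : Prop :=
  ∀ n k : ℕ, 10 ^ 26 ≤ k → 3 * k ≤ n → a ≤ (k : ℝ) / n → (k : ℝ) / n ≤ b → ∀ (x : Fin n → ℝ) (a0 : Fin n), x a0 = 1 →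
    (∀ i, x i ≤ 1) → sg x univ = 0 → ps x 2 (univ.erase a0) ≤ 1.06 → (n - 1).choose (k - 1) ≤ cnt x univ k 0

/-- the other vectors: the largest absolute value is `1`, `2.06 b²` is less than the sum of all squares for the positive entries `b` -/
def NonP (a b : ℝ) : Prop :=
  ∀ n k : ℕ, 10 ^ 26 ≤ k → 3 * k ≤ n → a ≤ (k : ℝ) / n → (k : ℝ) / n ≤ b → (n - 1).choose (k - 1) ≤ (n - 3).choose k →
    ∀ (x : Fin n → ℝ) (a0 : Fin n), |x a0| = 1 → (∀ i, |x i| ≤ 1) → sg x univ = 0 →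
    (∀ i, 0 < x i → 2.06 * x i ^ 2 < ps x 2 univ) → (n - 1).choose (k - 1) ≤ cnt x univ k 0

theorem StarP.union {a b b' c : ℝ} (h : StarP a b) (h' : StarP b' c) (hb : b' ≤ b) : StarP a c := by
  intro n k hk hkn h0 h1
  rcases le_total ((k : ℝ) / n) b with hc | hc
  · exact h n k hk hkn h0 hc
  · exact h' n k hk hkn (hb.trans hc) h1

theorem NonP.union {a b b' c : ℝ} (h : NonP a b) (h' : NonP b' c) (hb : b' ≤ b) : NonP a c := by
  intro n k hk hkn h0 h1
  rcases le_total ((k : ℝ) / n) b with hc | hc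
  · exact h n k hk hkn h0 hc
  · exact h' n k hk hkn (hb.trans hc) h1

theorem StarP.mono {a b a' b' : ℝ} (h : StarP a b) (ha : a ≤ a') (hb : b' ≤ b) : StarP a' b' :=
  fun n k hk hkn h0 h1 => h n k hk hkn (ha.trans h0) (h1.trans hb)

theorem NonP.mono {a b a' b' : ℝ} (h : NonP a b) (ha : a ≤ a') (hb : b' ≤ b) : NonP a' b' :=
  fun n k hk hkn h0 h1 => h n k hk hkn (ha.trans h0) (h1.trans hb)

end Pool.Agent.MMS15
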