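import Pool.Agent.MMS15.BoxD
import Pool.Agent.MMS15.Dp

/-!
# MMS15/LowB: lower bounds for all lists from `minA`

As `MMS14/StarLow` (`starLow_of`, please copy and adapt): sort the list (`exists_srt`, `Pr_perm`, `ss_perm`); the head is `≠ 0` as `ss l > 0`; `ss / h² ≥ 1 = Sc 0`,
`cover_from` gives a cell `k`; `minA_sound` (in `LoopS`) and `geOk_msk` with `j = 0` give `vm_i ≤ lane` for all lanes of row `i` (`vm_i ≤ 65536` by `hvm`; lanes `< 2^17`);
`Good`.  For `i ≥ 701` the entry `vm.getD i 0` is `0` (`hvl`), `Pr_nonneg`.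
-/

set_option autoImplicit false

namespace Pool.Agent.MMS15

open Pool.Agent.MMS14

theorem low_of {q : Par} {rows vm : List ℕ} (hpar : parOk q = true) (hlen : rows.length = 701)
    (hrow : ∀ r, RowP (rowv rows r)) (hG : Good q.P0 q.P1 rows) (hmin : minA rows vm = true) (hvl : vm.length ≤ 701)
    (hvm : ∀ v ∈ vm, v ≤ 65536) : LowOk q.P0 q.P1 vm := by
  intro p hp0 hp1 hp5 l hl i t ht
  have hP1 : q.P1 ≤ 8192 := (parOk_spec hpar).2.2.1
  have hp2 : p ≤ 1 / 2 := by
    have h1 : (q.P1 : ℝ) ≤ 8192 := by exact_mod_cast hP1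
    linarith
  by_cases hi : i < rows.length
  swap
  · have hi' : vm.length ≤ i := by omega
    rw [List.getD_eq_default _ _ hi']
    have h1 := Pr_nonneg (p := p) (by linarith) (by linarith) l t
    simpa using h1
  have hval : vm.getD i 0 ≤ 65536 := by
    by_cases h1 : i < vm.length
    · rw [List.getD_eq_getElem _ _ h1]
      exact hvm _ (List.getElem_mem h1)
    · rw [List.getD_eq_default _ _ (not_lt.1 h1)]
      norm_num
  obtain ⟨l', hperm, hsrt⟩ := exists_srt l
  have hsd : sd p l = sd p l' := by
    unfold sd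
    rw [ss_perm hperm]
  rw [ss_perm hperm] at hl
  rw [Pr_perm hperm]
  rw [hsd] at ht
  cases l' with
  | nil =>
    simp [ss] at hl
  | cons h l' =>
    have hssn : 0 ≤ ss l' := by
      unfold ss
      refine List.sum_nonneg fun x hx => ?_
      obtain ⟨a, _, rfl⟩ := List.mem_map.1 hx
      exact sq_nonneg a
    have hss : ss (h :: l') = h ^ 2 + ss l' := by
      unfold ss
      rw [List.map_cons, List.sum_cons]
    have hh : h ≠ 0 := by
      intro h0
      have h1 : ∀ a ∈ l', a = 0 := by
        intro a ha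
        have h2 := List.rel_of_pairwise_cons hsrt ha
        rw [h0, abs_zero] at h2
        exact abs_nonpos_iff.1 h2
      have h2 : ss l' = 0 := by
        unfold ss
        refine List.sum_eq_zero fun x hx => ?_
        obtain ⟨a, ha, rfl⟩ := List.mem_map.1 hx
        rw [h1 a ha]
        norm_num
      rw [hss, h2, h0] at hl
      norm_num at hl
    have hh2 : 0 < h ^ 2 := by positivity
    have hS : Sc 0 ≤ ss (h :: l') / h ^ 2 := by
      rw [Sc_zero, le_div_iff₀ hh2, one_mul, hss]
      linarith
    obtain ⟨k, -, hk⟩ := cover_from (Nat.zero_le 126) hS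
    have h3 := minA_sound hmin i hi
    have hr := hrow i
    have h4 := geOk_msk (Nat.zero_le 126) (hval.trans (by norm_num)) hr.1
      (fun k hk => (hr.2 k hk).trans (by norm_num)) h3 k (Nat.zero_le k) hk.1
    have h5 := hG l'.length k hk.1 i
    rcases lt_or_gt_of_ne hh with hneg | hpos
    · have h6 := h5.2 p hp0 hp1 hp5 hp2 h l' hsrt le_rfl (by simpa using hneg) hk t ht
      refine le_trans (div_le_div_of_nonneg_right ?_ (by norm_num)) h6
      exact_mod_cast h4.2
    · have h6 := h5.1 p hp0 hp1 hp5 hp2 h l' hsrt le_rfl (by simpa using hpos) hk t ht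
      refine le_trans (div_le_div_of_nonneg_right ?_ (by norm_num)) h6
      exact_mod_cast h4.1

end Pool.Agent.MMS15
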