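import Mathlib

/-!
# MMS15/NkS: the inequality `C(n-1, k-1) ≤ C(n-3, k)`

For `k + 3 ≤ n`: `C(n-1,k-1) (n-k)(n-k-1)(n-k-2) = C(n-3,k) k (n-1)(n-2)` (both are `(n-1)!/((k-1)!(n-k-3)!)` up to the same factor; write `n = k + 3 + m` and use
`Nat.succ_mul_choose_eq`, `Nat.choose_symm`, or `Nat.add_choose_mul_factorial_mul_factorial`), so
`nk_iff`: the inequality is `k (n-1)(n-2) ≤ (n-k)(n-k-1)(n-k-2)`.  For `k ≤ n < k + 3` it fails (`C(n-3,k) = 0 < C(n-1,k-1)`, `k ≥ 1`; natural subtraction: `n - 3 < k`).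
`nk_mono`: `(n-k)(n-k-1)(n-k-2)/((n-1)(n-2))` increases with `n`: from `n` to `n + 1` multiply by `(n-k+1)/(n-k-2)` resp. `n/(n-2)`, and `(n-k+1)(n-2) ≥ n (n-k-2)`.
`nk_bounds`: `p = k/n`: `p (1 - 1/n)(1 - 2/n) ≤ (1-p)³`, which fails for `p > 0.31768`; in particular `n ≥ 3 k + 2`.
`nk_four`: it holds for `n = 4 k` (`k ≥ 3`): `k (4k-1)(4k-2) ≤ 3k (3k-1)(3k-2)`.
-/

set_option autoImplicit false

namespace Pool.Agent.MMS15

private lemma nks_id (j m : ℕ) : (j + (m + 3)).choose j * ((m + 3) * ((m + 2) * (m + 1))) =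
    (j + 1 + m).choose (j + 1) * ((j + 1) * ((j + m + 3) * (j + m + 2))) := by
  have h1 := Nat.add_choose_mul_factorial_mul_factorial j (m + 3)
  have h2 := Nat.add_choose_mul_factorial_mul_factorial (j + 1) m
  rw [← Nat.choose_symm_add] at h1 h2
  have e1 : (m + 3).factorial = (m + 3) * ((m + 2) * ((m + 1) * m.factorial)) := rfl
  have e2 : (j + 1).factorial = (j + 1) * j.factorial := rfl
  have e3 : (j + (m + 3)).factorial = (j + m + 3) * ((j + m + 2) * (j + m + 1).factorial) := rfl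
  have e4 : j + 1 + m = j + m + 1 := by ring
  rw [e4] at h2
  rw [e1, e3] at h1
  rw [e2] at h2
  rw [e4]
  have hj : 0 < j.factorial * m.factorial := by positivity
  apply Nat.eq_of_mul_eq_mul_right hj
  calc (j + (m + 3)).choose j * ((m + 3) * ((m + 2) * (m + 1))) * (j.factorial * m.factorial) =
      (j + (m + 3)).choose j * j.factorial * ((m + 3) * ((m + 2) * ((m + 1) * m.factorial))) := by
        ring
    _ = (j + m + 3) * ((j + m + 2) * (j + m + 1).factorial) := h1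
    _ = (j + m + 3) * ((j + m + 2) *
        ((j + m + 1).choose (j + 1) * ((j + 1) * j.factorial) * m.factorial)) := by rw [h2]
    _ = _ := by ring

theorem nk_iff {n k : ℕ} (hk : 1 ≤ k) (hn : k + 3 ≤ n) :
    (n - 1).choose (k - 1) ≤ (n - 3).choose k ↔ k * ((n - 1) * (n - 2)) ≤ (n - k) * ((n - k - 1) * (n - k - 2)) := by
  obtain ⟨j, rfl⟩ : ∃ j, k = j + 1 := ⟨k - 1, by omega⟩
  obtain ⟨m, rfl⟩ : ∃ m, n = j + 1 + 3 + m := ⟨n - (j + 1 + 3), by omega⟩
  have e1 : j + 1 + 3 + m - 1 = j + (m + 3) := by omega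
  have e2 : j + 1 - 1 = j := by omega
  have e3 : j + 1 + 3 + m - 3 = j + 1 + m := by omega
  have e4 : j + 1 + 3 + m - 2 = j + m + 2 := by omega
  have e5 : j + 1 + 3 + m - (j + 1) = m + 3 := by omega
  have e6 : m + 3 - 1 = m + 2 := by omega
  have e7 : m + 3 - 2 = m + 1 := by omega
  have e8 : j + (m + 3) = j + m + 3 := by omega
  have hid := nks_id j m
  rw [e1, e2, e3, e4, e5, e6, e7]
  rw [e8] at hid ⊢
  have hB : 0 < (j + 1 + m).choose (j + 1) := Nat.choose_pos (by omega)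
  have hP : 0 < (m + 3) * ((m + 2) * (m + 1)) := by positivity
  constructor
  · intro h
    have h1 := Nat.mul_le_mul_right ((m + 3) * ((m + 2) * (m + 1))) h
    rw [hid] at h1
    exact Nat.le_of_mul_le_mul_left h1 hB
  · intro h
    have h1 := Nat.mul_le_mul_left ((j + 1 + m).choose (j + 1)) h
    rw [← hid] at h1
    exact Nat.le_of_mul_le_mul_right h1 hP

theorem nk_ge {n k : ℕ} (hk : 1 ≤ k) (hkn : k ≤ n) (h : (n - 1).choose (k - 1) ≤ (n - 3).choose k) : k + 3 ≤ n := by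
  by_contra hc
  have h1 : (n - 3).choose k = 0 := Nat.choose_eq_zero_of_lt (by omega)
  have h2 : 0 < (n - 1).choose (k - 1) := Nat.choose_pos (by omega)
  omega

private lemma nks_step (k i : ℕ) (h : k * ((k + 2 + i) * (k + 1 + i)) ≤ (i + 3) * ((i + 2) * (i + 1))) :
    k * ((k + 3 + i) * (k + 2 + i)) ≤ (i + 4) * ((i + 3) * (i + 2)) := by
  have hpos : 0 < k + 1 + i := by omega
  apply Nat.le_of_mul_le_mul_right (c := k + 1 + i) _ hpos
  have h1 : (i + 1) * (k + 3 + i) ≤ (i + 4) * (k + 1 + i) := by nlinarith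
  calc k * ((k + 3 + i) * (k + 2 + i)) * (k + 1 + i) =
      k * ((k + 2 + i) * (k + 1 + i)) * (k + 3 + i) := by ring
    _ ≤ (i + 3) * ((i + 2) * (i + 1)) * (k + 3 + i) := Nat.mul_le_mul_right _ h
    _ = (i + 3) * (i + 2) * ((i + 1) * (k + 3 + i)) := by ring
    _ ≤ (i + 3) * (i + 2) * ((i + 4) * (k + 1 + i)) := Nat.mul_le_mul_left _ h1
    _ = _ := by ring

theorem nk_mono {m n k : ℕ} (hk : 1 ≤ k) (hkm : k ≤ m) (hmn : m ≤ n) (h : (m - 1).choose (k - 1) ≤ (m - 3).choose k) :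
    (n - 1).choose (k - 1) ≤ (n - 3).choose k := by
  have hm3 := nk_ge hk hkm h
  induction n, hmn using Nat.le_induction with
  | base => exact h
  | succ n hn ih =>
    rw [nk_iff hk (by omega)] at ih ⊢
    obtain ⟨i, rfl⟩ : ∃ i, n = k + 3 + i := ⟨n - (k + 3), by omega⟩
    have e1 : k + 3 + i - 1 = k + 2 + i := by omega
    have e2 : k + 3 + i - 2 = k + 1 + i := by omega
    have e3 : k + 3 + i - k = i + 3 := by omega
    have e4 : i + 3 - 1 = i + 2 := by omega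
    have e5 : i + 3 - 2 = i + 1 := by omega
    rw [e1, e2, e3, e4, e5] at ih
    have f1 : k + 3 + i + 1 - 1 = k + 3 + i := by omega
    have f2 : k + 3 + i + 1 - 2 = k + 2 + i := by omega
    have f3 : k + 3 + i + 1 - k = i + 4 := by omega
    have f4 : i + 4 - 1 = i + 3 := by omega
    have f5 : i + 4 - 2 = i + 2 := by omega
    rw [f1, f2, f3, f4, f5]
    exact nks_step k i ih

theorem nk_bounds {n k : ℕ} (hk : 10 ^ 20 ≤ k) (hkn : k ≤ n) (h : (n - 1).choose (k - 1) ≤ (n - 3).choose k) :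
    3 * k + 2 ≤ n ∧ (k : ℝ) / n ≤ 0.31768 := by
  have hk1 : 1 ≤ k := le_trans (by norm_num) hk
  have hn3 := nk_ge hk1 hkn h
  have h1 := (nk_iff hk1 hn3).1 h
  obtain ⟨i, rfl⟩ : ∃ i, n = k + 3 + i := ⟨n - (k + 3), by omega⟩
  have e1 : k + 3 + i - 1 = k + 2 + i := by omega
  have e2 : k + 3 + i - 2 = k + 1 + i := by omega
  have e3 : k + 3 + i - k = i + 3 := by omega
  have e4 : i + 3 - 1 = i + 2 := by omega
  have e5 : i + 3 - 2 = i + 1 := by omega
  rw [e1, e2, e3, e4, e5] at h1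
  have h2 : (k : ℝ) * ((k + 2 + i) * (k + 1 + i)) ≤ (i + 3) * ((i + 2) * (i + 1)) := by
    exact_mod_cast h1
  have hkR : (10 : ℝ) ^ 20 ≤ k := by exact_mod_cast hk
  have hi0 : (0 : ℝ) ≤ i := Nat.cast_nonneg i
  set K : ℝ := (k : ℝ) with hK
  set N : ℝ := K + 3 + i with hN
  have hNpos : 0 < N := by
    have : (0 : ℝ) < 10 ^ 20 := by norm_num
    linarith
  have hcast : ((k + 3 + i : ℕ) : ℝ) = N := by
    push_cast
    rfl
  -- the ratio
  have hmain : K ≤ 0.31768 * N := by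
    by_contra hc
    push Not at hc
    have h3 : K * ((N - 1) * (N - 2)) ≤ (N - K) ^ 3 := by
      have e6 : (k : ℝ) + 2 + i = N - 1 := by rw [hN]; ring
      have e7 : (k : ℝ) + 1 + i = N - 2 := by rw [hN]; ring
      rw [← hK] at e6 e7
      rw [e6, e7] at h2
      have e8 : (i : ℝ) + 3 = N - K := by rw [hN]; ring
      have h4 : ((i : ℝ) + 3) * ((i + 2) * (i + 1)) ≤ (i + 3) * ((i + 3) * (i + 3)) := by
        have : ((i : ℝ) + 2) * (i + 1) ≤ (i + 3) * (i + 3) := by nlinarith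
        exact mul_le_mul_of_nonneg_left this (by positivity)
      rw [e8] at h4
      nlinarith
    have hN20 : (10 : ℝ) ^ 20 ≤ N := by linarith
    -- lower bound for the left side
    have h5 : (N - 1) * (N - 2) ≥ (1 - 3 / 10 ^ 20) * N ^ 2 := by
      have : 3 * N ≤ 3 / 10 ^ 20 * N ^ 2 := by
        have h6 : 3 / 10 ^ 20 * (10 ^ 20 * N) ≤ 3 / 10 ^ 20 * (N * N) := by
          apply mul_le_mul_of_nonneg_left _ (by norm_num)
          exact mul_le_mul_of_nonneg_right hN20 hNpos.le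
        have h7 : 3 / 10 ^ 20 * (10 ^ 20 * N) = 3 * N := by ring
        rw [h7] at h6
        rw [pow_two]
        exact h6
      nlinarith
    have h8 : 0.31768 * N * ((1 - 3 / 10 ^ 20) * N ^ 2) ≤ K * ((N - 1) * (N - 2)) := by
      apply mul_le_mul hc.le h5 _ (by linarith)
      have : (0 : ℝ) ≤ 1 - 3 / 10 ^ 20 := by norm_num
      positivity
    have h9 : (N - K) ^ 3 ≤ (0.68232 * N) ^ 3 := by
      apply pow_le_pow_left₀
      · rw [hN]
        linarith
      · linarith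
    have h10 : (0 : ℝ) < N ^ 3 := by positivity
    have h11 : 0.31768 * N * ((1 - 3 / 10 ^ 20) * N ^ 2) = (0.31768 * (1 - 3 / 10 ^ 20)) * N ^ 3 := by
      ring
    have h12 : (0.68232 * N) ^ 3 = 0.68232 ^ 3 * N ^ 3 := by ring
    have h13 : (0.31768 * (1 - 3 / 10 ^ 20)) * N ^ 3 ≤ 0.68232 ^ 3 * N ^ 3 := by
      rw [← h11, ← h12]
      linarith
    have h14 := le_of_mul_le_mul_right h13 h10
    norm_num at h14
  constructor
  · have h15 : (3 : ℝ) * K + 2 ≤ N := by linarith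
    rw [← hcast, hK] at h15
    exact_mod_cast h15
  · rw [hcast, div_le_iff₀ hNpos]
    exact hmain

theorem nk_four {k : ℕ} (hk : 3 ≤ k) : (4 * k - 1).choose (k - 1) ≤ (4 * k - 3).choose k := by
  rw [nk_iff (n := 4 * k) (by omega) (by omega)]
  obtain ⟨j, rfl⟩ : ∃ j, k = j + 3 := ⟨k - 3, by omega⟩
  have e1 : 4 * (j + 3) - 1 = 4 * j + 11 := by omega
  have e2 : 4 * (j + 3) - 2 = 4 * j + 10 := by omega
  have e3 : 4 * (j + 3) - (j + 3) = 3 * j + 9 := by omega
  have e4 : 3 * j + 9 - 1 = 3 * j + 8 := by omega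
  have e5 : 3 * j + 9 - 2 = 3 * j + 7 := by omega
  rw [e1, e2, e3, e4, e5]
  nlinarith [sq_nonneg j, Nat.zero_le (j ^ 3), Nat.zero_le (j ^ 2), Nat.zero_le j]

end Pool.Agent.MMS15
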