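import Pool.Agent.MMS15.ChkS

/-!
# MMS15/NsL: sorted lists with head `± 1` that are not star-like

As `MMS14/NonStar` (`nonStar_core`, please compare).  `S = ss (h :: l) = 1 + ss l`.
`S ≤ 15.02`: `1.9e-5 √S ≤ 1280 / 16384000 = 7.8125e-5` (`√15.02 < 3.88`), `Pr_anti`; `chk_sound` with `ats = [At.p 1000 1000]` or `[At.m 1000 1000]`, `pre = [h]`, `r = l`,
`[sa, sb] = [2060, 15020]` (`S > 2.06` from the hypothesis for `b = 1`) resp. `[1000, 15020]`, `kp = 206`; `[h] ++ l = h :: l`, `[h].reverse ++ l = h :: l`.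
`S > 15.02 ≥ Sc 126` (`Sc_126`): `Good` in the cell `126`, row `401`: `1.9e-5 √S ≤ (1/100) √(p (1-p) S)` as `p (1 - p) ≥ 0.16`, `htop` (with `n = l.length`).
-/

set_option autoImplicit false

namespace Pool.Agent.MMS15

open Pool.Agent.MMS14

private theorem nsl_hq2 {q : Par} (hpar : parOk q = true) : q.P1 ≤ 8192 := by
  unfold parOk at hpar
  rw [et_true, et_true, et_true] at hpar
  exact Nat.le_of_ble_eq_true hpar.2.2.1

private theorem nsl_small {q : Par} {rows : List ℕ} {tab : List (List ℕ)} (hpar : parOk q = true) (hlen : rows.length = 701)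
    (hrow : ∀ r, RowP (rowv rows r)) (hG : Good q.P0 q.P1 rows) (hlook : lookOk tab rows 0 = true)
    {tgt : ℕ} (htgt : tgt ≤ 65536) {xs : List XC} {c : Ct} {sa sb kp : ℕ} {x : At}
    (hc : chk q tab tgt 1280 kp xs c sa sb [x] = true)
    {p : ℝ} (hp0 : (q.P0 : ℝ) / 16384 ≤ p) (hp1 : p ≤ (q.P1 : ℝ) / 16384) (hp5 : 1 / 5 ≤ p)
    {h : ℝ} {l : List ℝ} (hh : h = 1 ∨ h = -1) (hx : Fit x h) (hs : Srt (h :: l))
    (hb : ∀ b ∈ h :: l, 0 < b → (kp : ℝ) / 100 * b ^ 2 < ss (h :: l))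
    (hS0 : (sa : ℝ) ≤ 1000 * ss (h :: l)) (hS1 : 1000 * ss (h :: l) ≤ (sb : ℝ)) (hS : ss (h :: l) ≤ 15.02) :
    (tgt : ℝ) / 65536 ≤ Pr p (h :: l) (0.000019 * √(ss (h :: l))) ∨ Exc xs (h :: l) := by
  have hh2 : h ^ 2 = 1 := by rcases hh with rfl | rfl <;> norm_num
  have hss : ss [h] + ss l = ss (h :: l) := by
    rw [ss_cons, ss_cons, ss_nil]
    ring
  have hpos : 0 < ss (h :: l) := by
    rw [ss_cons, hh2]
    have := ss_nonneg l
    linarith
  have hp2 : p ≤ 1 / 2 := by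
    have h1 : (q.P1 : ℝ) ≤ 8192 := by exact_mod_cast nsl_hq2 hpar
    have h2 : (q.P1 : ℝ) / 16384 ≤ 1 / 2 := by
      rw [div_le_iff₀ (by norm_num)]
      linarith
    linarith
  have hsq : 0.000019 * √(ss (h :: l)) ≤ ((1280 : ℕ) : ℝ) / 16384000 := by
    have h1 : √(ss (h :: l)) ≤ 3.88 := by
      apply Real.sqrt_le_iff.2
      constructor
      · norm_num
      · norm_num at hS ⊢
        linarith
    push_cast
    norm_num at h1 ⊢
    linarith
  have hpre : Pre [h] l := by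
    refine ⟨List.pairwise_singleton _ _, Srt_tail hs, fun a ha b hb' => ?_⟩
    rw [List.mem_singleton] at ha
    subst ha
    exact Srt_head hs b hb'
  have hm : Mt [x] [h] := List.Forall₂.cons hx List.Forall₂.nil
  have key := chk_sound hpar hlen hrow hG hlook hp0 hp1 hp5 htgt (eps := 1280) c (List.cons_ne_nil _ _) hc hm hpre
    (by rw [hss]; exact hpos) (by rw [hss]; exact hb) (by rw [hss]; exact hS0) (by rw [hss]; exact hS1)
  rcases key with key | key
  · left
    exact key.trans (Pr_anti (by linarith) (by linarith) (h :: l) hsq)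
  · right
    exact key

theorem nonstar_list {q : Par} {rows : List ℕ} {tab : List (List ℕ)} (hpar : parOk q = true) (hlen : rows.length = 701)
    (hrow : ∀ r, RowP (rowv rows r)) (hG : Good q.P0 q.P1 rows) (hlook : lookOk tab rows 0 = true)
    {tgt : ℕ} (htgt : tgt ≤ 65536) {xs : List XC} {cP cM : Ct}
    (hcP : chk q tab tgt 1280 206 xs cP 2060 15020 [At.p 1000 1000] = true)
    (hcM : chk q tab tgt 1280 206 xs cM 1000 15020 [At.m 1000 1000] = true)
    (htop : tgt ≤ lane (rowv rows 401) 126 ∧ tgt ≤ lane (rowv rows 401) 253)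
    {p : ℝ} (hp0 : (q.P0 : ℝ) / 16384 ≤ p) (hp1 : p ≤ (q.P1 : ℝ) / 16384) (hp5 : 1 / 5 ≤ p)
    {h : ℝ} {l : List ℝ} (hh : h = 1 ∨ h = -1) (hs : Srt (h :: l))
    (hb : ∀ b ∈ h :: l, 0 < b → 2.06 * b ^ 2 < ss (h :: l)) :
    (tgt : ℝ) / 65536 ≤ Pr p (h :: l) (0.000019 * √(ss (h :: l))) ∨ Exc xs (h :: l) := by
  have hh2 : h ^ 2 = 1 := by rcases hh with rfl | rfl <;> norm_num
  have hss : ss (h :: l) = 1 + ss l := by rw [ss_cons, hh2]
  have hsl := ss_nonneg l
  have hp2 : p ≤ 1 / 2 := by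
    have h1 : (q.P1 : ℝ) ≤ 8192 := by exact_mod_cast nsl_hq2 hpar
    have h2 : (q.P1 : ℝ) / 16384 ≤ 1 / 2 := by
      rw [div_le_iff₀ (by norm_num)]
      linarith
    linarith
  have hb' : ∀ b ∈ h :: l, 0 < b → ((206 : ℕ) : ℝ) / 100 * b ^ 2 < ss (h :: l) := by
    intro b hbm hb0
    have := hb b hbm hb0
    have e : ((206 : ℕ) : ℝ) / 100 = 2.06 := by norm_num
    rw [e]
    exact this
  by_cases hS : ss (h :: l) ≤ 15.02
  · have hup : 1000 * ss (h :: l) ≤ ((15020 : ℕ) : ℝ) := by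
      push_cast
      norm_num at hS ⊢
      linarith
    rcases hh with rfl | rfl
    · have h1 := hb 1 List.mem_cons_self one_pos
      refine nsl_small hpar hlen hrow hG hlook htgt hcP hp0 hp1 hp5 (Or.inl rfl) ?_ hs hb' ?_ hup hS
      · constructor <;> norm_num
      · push_cast
        norm_num at h1 ⊢
        linarith
    · refine nsl_small hpar hlen hrow hG hlook htgt hcM hp0 hp1 hp5 (Or.inr rfl) ?_ hs hb' ?_ hup hS
      · constructor <;> norm_num
      · rw [hss]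
        push_cast
        linarith
  · -- large S
    left
    have hS' : (15.02 : ℝ) < ss (h :: l) := not_le.1 hS
    have hC : InC 126 (ss (h :: l) / h ^ 2) := by
      rw [hh2, div_one]
      refine ⟨le_rfl, ?_, fun hf => absurd hf (lt_irrefl _)⟩
      have := Sc_126.2
      norm_num at this hS' ⊢
      linarith
    have ht : 0.000019 * √(ss (h :: l)) ≤ (((401 : ℕ) : ℝ) - 400) / 100 * sd p (h :: l) := by
      unfold sd
      have h1 : √(0.16 * ss (h :: l)) ≤ √(p * (1 - p) * ss (h :: l)) := by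
        apply Real.sqrt_le_sqrt
        apply mul_le_mul_of_nonneg_right _ (ss_nonneg _)
        norm_num
        nlinarith
      have h2 : √(0.16 * ss (h :: l)) = 0.4 * √(ss (h :: l)) := by
        rw [Real.sqrt_mul (by norm_num)]
        congr 1
        rw [show (0.16 : ℝ) = 0.4 ^ 2 by norm_num]
        exact Real.sqrt_sq (by norm_num)
      have h3 := Real.sqrt_nonneg (ss (h :: l))
      push_cast
      norm_num at h1 h2 ⊢
      linarith
    rcases hh with rfl | rfl
    · have h1 := (hG l.length 126 le_rfl 401).1 p hp0 hp1 hp5 hp2 1 l hs le_rfl (by simp) hC _ ht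
      refine le_trans ?_ h1
      have h2 : (tgt : ℝ) ≤ (lane (rowv rows 401) 126 : ℝ) := by exact_mod_cast htop.1
      exact div_le_div_of_nonneg_right h2 (by norm_num)
    · have h1 := (hG l.length 126 le_rfl 401).2 p hp0 hp1 hp5 hp2 (-1) l hs le_rfl (by simp) hC _ ht
      refine le_trans ?_ h1
      have h2 : (tgt : ℝ) ≤ (lane (rowv rows 401) (127 + 126) : ℝ) := by exact_mod_cast htop.2
      exact div_le_div_of_nonneg_right h2 (by norm_num)

/-- star-like lists: head `1`, `S ∈ [sa / 1000, 2.06]` -/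
theorem star_list {q : Par} {rows : List ℕ} {tab : List (List ℕ)} (hpar : parOk q = true) (hlen : rows.length = 701)
    (hrow : ∀ r, RowP (rowv rows r)) (hG : Good q.P0 q.P1 rows) (hlook : lookOk tab rows 0 = true)
    {tgt : ℕ} (htgt : tgt ≤ 65536) {xs : List XC} {cS : Ct} {sa : ℕ}
    (hcS : chk q tab tgt 1280 0 xs cS sa 2060 [At.p 1000 1000] = true)
    {p : ℝ} (hp0 : (q.P0 : ℝ) / 16384 ≤ p) (hp1 : p ≤ (q.P1 : ℝ) / 16384) (hp5 : 1 / 5 ≤ p)
    {l : List ℝ} (hs : Srt (1 :: l)) (hS0 : (sa : ℝ) ≤ 1000 * ss (1 :: l)) (hS1 : ss (1 :: l) ≤ 2.06) :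
    (tgt : ℝ) / 65536 ≤ Pr p (1 :: l) (0.000019 * √(ss (1 :: l))) ∨ Exc xs (1 :: l) := by
  refine nsl_small hpar hlen hrow hG hlook htgt hcS hp0 hp1 hp5 (Or.inl rfl) ?_ hs ?_ hS0 ?_ ?_
  · constructor <;> norm_num
  · intro b _ _
    have h1 := ss_nonneg l
    rw [ss_cons]
    push_cast
    norm_num
    linarith
  · push_cast
    norm_num at hS1 ⊢
    linarith
  · norm_num at hS1 ⊢
    linarith

end Pool.Agent.MMS15
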