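import Pool.Agent.MMS15.NonX
import Pool.Agent.MMS15.NsL

/-!
# MMS15/NonF: vectors that are not star-like, for one table

`Ω = univ : Finset (Fin n)`.  `exists_enum (Ω.erase a0) x` gives `es`; `a0 :: es` is duplicate-free, `(a0 :: es).toFinset = Ω`, `(a0 :: es).map x = x a0 :: es.map x` is sorted (`|x i| ≤ 1 = |x a0|`),
`ss ((a0 :: es).map x) = ps x 2 Ω` (`ss_enum`).  `nonstar_list` with `p = k / n`, `h = x a0 = ± 1`, `tgt = 4 P1 + 8`: a large probability: `count_list`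
(`k / n + 2^(-13) ≤ (4 P1 + 8) / 65536`), or `non_xc`.
-/

open Finset Pool.Agent.H36.MMS

set_option autoImplicit false

namespace Pool.Agent.MMS15

open Pool.Agent.MMS14

theorem nonstar_cell {q : Par} {rows : List ℕ} {tab : List (List ℕ)} (hpar : parOk q = true) (hlen : rows.length = 701)
    (hrow : ∀ r, RowP (rowv rows r)) (hG : Good q.P0 q.P1 rows) (hlook : lookOk tab rows 0 = true)
    {vm : List ℕ} (hlow : LowOk q.P0 q.P1 vm) (hvm : ∀ v ∈ vm, v ≤ 65536) (hvl : vm.length ≤ 701) {v00 v0 g : ℕ}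
    (hv00 : v00 = vm.getD 0 0) (hv0 : v0 = vm.getD 401 0) (hpair : pairOk g vm = true) (hnum : t4Ok q.P1 v00 v0 g = true)
    (hP0 : 4090 ≤ q.P0) (hP1 : q.P1 ≤ 5205) {xs : List XC} (hxs : ∀ X ∈ xs, X ∈ t4X ∨ (X = t3X ∧ 5140 ≤ q.P0))
    {tgt : ℕ} (htgt : tgt = 4 * q.P1 + 8) {cP cM : Ct}
    (hcP : chk q tab tgt 1280 206 xs cP 2060 15020 [At.p 1000 1000] = true)
    (hcM : chk q tab tgt 1280 206 xs cM 1000 15020 [At.m 1000 1000] = true)
    (htop : tgt ≤ lane (rowv rows 401) 126 ∧ tgt ≤ lane (rowv rows 401) 253) :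
    NonP (((q.P0 : ℝ) + 0.1) / 16384) (((q.P1 : ℝ) - 0.1) / 16384) := by
  intro n k hk hkn h0 h1 hNk x a0 ha0 hle hsum hb
  have hkn' : k < n := by omega
  obtain ⟨es, hn, he, hs⟩ := exists_enum ((univ : Finset (Fin n)).erase a0) x
  have hmem : a0 ∉ es := by
    intro h
    have h2 : a0 ∈ es.toFinset := List.mem_toFinset.2 h
    rw [he] at h2
    exact (Finset.notMem_erase a0 _) h2
  have hn' : (a0 :: es).Nodup := List.nodup_cons.2 ⟨hmem, hn⟩
  have he' : (a0 :: es).toFinset = (univ : Finset (Fin n)) := by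
    rw [List.toFinset_cons, he, Finset.insert_erase (Finset.mem_univ _)]
  have hcard : (univ : Finset (Fin n)).card = n := by simp
  have hmap : (a0 :: es).map x = x a0 :: es.map x := rfl
  have hss : ss ((a0 :: es).map x) = ps x 2 univ := ss_enum hn' he' x
  have hs' : Srt (x a0 :: es.map x) := by
    unfold Srt at hs ⊢
    rw [List.pairwise_cons]
    refine ⟨fun b hb' => ?_, hs⟩
    obtain ⟨i, _, rfl⟩ := List.mem_map.1 hb'
    rw [ha0]
    exact hle i
  have hP0' : (4090 : ℝ) ≤ (q.P0 : ℝ) := by exact_mod_cast hP0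
  have hp0 : (q.P0 : ℝ) / 16384 ≤ (k : ℝ) / n := by linarith
  have hp1 : (k : ℝ) / n ≤ (q.P1 : ℝ) / 16384 := by linarith
  have hp5 : (1 : ℝ) / 5 ≤ (k : ℝ) / n := by linarith
  have hh : x a0 = 1 ∨ x a0 = -1 := by
    rcases abs_choice (x a0) with h | h
    · left
      rw [← h, ha0]
    · right
      rw [ha0] at h
      linarith
  have htgt1 : tgt ≤ 65536 := by omega
  have hb' : ∀ b ∈ x a0 :: es.map x, 0 < b → 2.06 * b ^ 2 < ss (x a0 :: es.map x) := by
    intro b hbm hb0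
    rw [← hmap] at hbm ⊢
    rw [hss]
    obtain ⟨i, _, rfl⟩ := List.mem_map.1 hbm
    exact hb i hb0
  rcases nonstar_list hpar hlen hrow hG hlook htgt1 hcP hcM htop hp0 hp1 hp5 hh hs' hb' with h | h
  · have htgt2 : (k : ℝ) / n + 1 / 2 ^ 13 ≤ (tgt : ℝ) / 65536 := by
      rw [htgt]
      push_cast
      linarith
    exact count_list hn' he' x hk hkn hcard hsum htgt2 h
  · exact non_xc hlow hvm hvl hv00 hv0 hpair hnum hP0 hP1 hxs x hk hkn' hcard hn' he' hsum h0 h1
      hNk h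

end Pool.Agent.MMS15
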