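import Pool.Agent.MMS15.BoxD
import Pool.Agent.MMS15.Cnt
import Pool.Agent.MMS14.HajD
import Pool.Agent.MMS14.NonS

/-!
# MMS15/SrtE: sorted enumerations of a finite set, from lists to sets

`exists_enum`: sort `Ω.toList` by decreasing `|x|` (`List.insertionSort` / `List.mergeSort` for the total preorder `|x b| ≤ |x a|`, or lift `exists_srt` of `MMS14/PrB`).
`enum_perm`: two duplicate-free lists with the same elements are permutations of each other (`List.perm_ext_iff_of_nodup`).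
`exc_elems`: `es.map x = pre.reverse ++ r` gives `es = es1 ++ es2` (`List.map_eq_append_iff`).
`count_list`: as `MMS14/NonS` (`nonstar_final`, second half): `hajek` with `s = 0`, `ε = 0.000019`; the loss `√n / (2 (n - 1) ε²) ≤ 2^-13` for `n ≥ 3 * 10^26` (`√n ≥ 1.7 * 10^13`);
`ss = ps x 2 Ω` (`ss_toList`), `Pr_perm`; so `k / n ≤ pr Ω k (0 ≤ sg x ·)` and `from_pr` with `U = Ω`, `T = 0` (or `pr_cnt`, `choose_eq`).
`cnt_scale`: `0 ≤ sg (x/c) S ↔ 0 ≤ sg x S` for `c > 0`.
-/

open Finset Pool.Agent.H36.MMS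

set_option autoImplicit false

namespace Pool.Agent.MMS15

open Pool.Agent.MMS14

variable {α : Type*} [DecidableEq α]

private theorem srtE_insert (x : α → ℝ) (a : α) (l : List α) (h : Srt (l.map x)) :
    ∃ l' : List α, (a :: l).Perm l' ∧ Srt (l'.map x) := by
  induction l with
  | nil => exact ⟨[a], List.Perm.refl _, List.pairwise_singleton _ _⟩
  | cons b l ih =>
    have h' : Srt (x b :: l.map x) := h
    by_cases hab : |x b| ≤ |x a|
    · refine ⟨a :: b :: l, List.Perm.refl _, ?_⟩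
      show Srt (x a :: x b :: l.map x)
      refine List.pairwise_cons.2 ⟨?_, h'⟩
      intro c hc
      rcases List.mem_cons.1 hc with rfl | hc
      · exact hab
      · exact (Srt_head h' c hc).trans hab
    · obtain ⟨l', h1, h2⟩ := ih (Srt_tail h')
      refine ⟨b :: l', (List.Perm.swap b a l).trans (h1.cons b), ?_⟩
      show Srt (x b :: l'.map x)
      refine List.pairwise_cons.2 ⟨?_, h2⟩
      intro c hc
      obtain ⟨i, hi, rfl⟩ := List.mem_map.1 hc
      have hi' : i ∈ a :: l := h1.mem_iff.2 hi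
      rcases List.mem_cons.1 hi' with rfl | hi'
      · exact (not_le.1 hab).le
      · exact Srt_head h' _ (List.mem_map_of_mem hi')

theorem exists_enum (Ω : Finset α) (x : α → ℝ) :
    ∃ es : List α, es.Nodup ∧ es.toFinset = Ω ∧ Srt (es.map x) := by
  have key : ∀ l : List α, ∃ l' : List α, l.Perm l' ∧ Srt (l'.map x) := by
    intro l
    induction l with
    | nil => exact ⟨[], List.Perm.refl _, List.Pairwise.nil⟩
    | cons a l ih =>
      obtain ⟨l', h1, h2⟩ := ih
      obtain ⟨l'', h3, h4⟩ := srtE_insert x a l' h2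
      exact ⟨l'', (h1.cons a).trans h3, h4⟩
  obtain ⟨es, h1, h2⟩ := key Ω.toList
  refine ⟨es, h1.nodup_iff.1 (Finset.nodup_toList Ω), ?_, h2⟩
  ext a
  rw [List.mem_toFinset, ← h1.mem_iff, Finset.mem_toList]

theorem enum_perm {Ω : Finset α} {es : List α} (hn : es.Nodup) (he : es.toFinset = Ω) (x : α → ℝ) :
    (Ω.toList.map x).Perm (es.map x) := by
  refine List.Perm.map x ((List.perm_ext_iff_of_nodup (Finset.nodup_toList Ω) hn).2 fun a => ?_)
  rw [Finset.mem_toList, ← he, List.mem_toFinset]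

theorem ss_enum {Ω : Finset α} {es : List α} (hn : es.Nodup) (he : es.toFinset = Ω) (x : α → ℝ) :
    ss (es.map x) = ps x 2 Ω := by
  rw [← ss_toList Ω x]
  exact (((enum_perm hn he x).map (fun a => a ^ 2)).sum_eq).symm

theorem exc_elems {xs : List XC} {es : List α} {x : α → ℝ} (h : Exc xs (es.map x)) :
    ∃ X ∈ xs, ∃ es1 es2 : List α, es = es1 ++ es2 ∧ Mt X.ats (es1.map x).reverse ∧ 1000000 * ss (es2.map x) ≤ (X.V : ℝ) := by
  obtain ⟨X, hX, pre, r, h1, h2, h3⟩ := h
  obtain ⟨es1, es2, h4, h5, h6⟩ := List.map_eq_append_iff.1 h1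
  refine ⟨X, hX, es1, es2, h4, ?_, ?_⟩
  · rw [h5, List.reverse_reverse]
    exact h2
  · rw [h6]
    exact h3

theorem count_list {Ω : Finset α} {n k : ℕ} {es : List α} (hn : es.Nodup) (he : es.toFinset = Ω) (x : α → ℝ)
    (hk : 10 ^ 26 ≤ k) (hkn : 3 * k ≤ n) (hΩ : Ω.card = n) (hsum : sg x Ω = 0) {tgt : ℕ}
    (htgt : (k : ℝ) / n + 1 / 2 ^ 13 ≤ (tgt : ℝ) / 65536)
    (hP : (tgt : ℝ) / 65536 ≤ Pr ((k : ℝ) / n) (es.map x) (0.000019 * √(ss (es.map x)))) :
    (n - 1).choose (k - 1) ≤ cnt x Ω k 0 := by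
  have hk1 : 1 ≤ k := le_trans (by norm_num) hk
  have hn0 : 3 * 10 ^ 26 ≤ n := by omega
  have hnr : (3 * 10 ^ 26 : ℝ) ≤ n := by exact_mod_cast hn0
  have hn1 : (0 : ℝ) < n := lt_of_lt_of_le (by norm_num) hnr
  have h2 := hajek (U := Ω) (k := k) (by omega) (by omega) x hsum (s := 0) (ε := 0.000019) (by norm_num)
  rw [zero_add, hΩ, ← ss_enum hn he x, Pr_perm (enum_perm hn he x)] at h2
  have hr2 : √(n : ℝ) ^ 2 = n := Real.sq_sqrt hn1.le
  have hr : (1.7 * 10 ^ 13 : ℝ) ≤ √(n : ℝ) := by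
    apply Real.le_sqrt_of_sq_le
    refine le_trans ?_ hnr
    norm_num
  have hloss : √(n : ℝ) / (2 * ((n : ℝ) - 1) * 0.000019 ^ 2) ≤ 1 / 2 ^ 13 := by
    set r := √(n : ℝ) with hrdef
    have h3 : (99 / 100 : ℝ) * r ^ 2 ≤ (n : ℝ) - 1 := by
      rw [hr2]
      have h11 : (300 : ℝ) ≤ n := le_trans (by norm_num) hnr
      linarith
    have h7 : 0 < (n : ℝ) - 1 := by
      have h11 : (300 : ℝ) ≤ n := le_trans (by norm_num) hnr
      linarith
    rw [div_le_div_iff₀ (by positivity) (by norm_num), one_mul]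
    have h8 : r * (1.7 * 10 ^ 13) ≤ r ^ 2 := by
      rw [sq]
      exact mul_le_mul_of_nonneg_left hr (Real.sqrt_nonneg _)
    have h9 : 0 ≤ r := Real.sqrt_nonneg _
    norm_num at h8 ⊢
    nlinarith
  have h10 : (n - 1).choose (k - 1) ≤ ((Ω.powersetCard k).filter (fun S => 0 ≤ sg x S)).card := by
    apply from_pr x (U := Ω) (T := 0) hk1 (by omega) (Finset.Subset.refl _) (by omega)
    rw [Nat.cast_zero, zero_mul, sub_zero, mul_one]
    linarith
  exact h10

theorem cnt_scale (x : α → ℝ) {c : ℝ} (hc : 0 < c) (Ω : Finset α) (k : ℕ) :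
    cnt (fun i => x i / c) Ω k 0 = cnt x Ω k 0 := by
  unfold cnt
  congr 1
  refine Finset.filter_congr fun S _ => ?_
  have h1 : sg (fun i => x i / c) S = sg x S / c := by
    unfold sg
    rw [Finset.sum_div]
  rw [h1]
  constructor
  · intro h
    have h2 := mul_nonneg h hc.le
    rwa [div_mul_cancel₀ _ hc.ne'] at h2
  · intro h
    exact div_nonneg h hc.le

end Pool.Agent.MMS15
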