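import Pool.Agent.MMS15.HatL
import Pool.Agent.MMS15.Cnt
import Pool.Agent.MMS15.LoopS

/-!
# MMS15/T4P: values of the sets for the case of two large positive and two large negative entries

`r = k / |R|`, `σ = √(r (1 - r) dev x R) ≤ √((2/9) 0.1) ≤ 0.15` (`1/5 ≤ r ≤ 1/3`; `dev x R ≤ ps x 2 R ≤ 0.1`), `k mean x R = r sg x R`.
`t4_big`: `pr_low100` with row `0`: `θ ≤ r sg x R - 0.75 ≤ r sg x R - 4.01 σ`.
`t4_half`: row `401`.
`t4_pair`: `t = θ - r sg x R`, `t' = θ' - r sg x R`, `t + t' ≤ 0`; let `t ≥ t'` (symmetric, `t' ≤ 0`).  If `t ≤ 0`: rows `402` (for `t`) and `401` (for `t'`), `pairOk` with `m = 0`.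
If `t > 0`, `σ > 0`: `m = ⌊100 t/σ⌋`, `t ≤ (m + 1)/100 σ`, `t' ≤ -m/100 σ`; `m ≤ 401`: rows `402 + m` and `401 - m`; `m > 401`: `pr ≥ 0` for `t` and row `0` for `t'` (`t' ≤ -4.01 σ`; `pairOk` for
`m = 401`: `vm.getD 803 0 = 0` by `hvl`).  If `t > 0`, `σ = 0`: row `0` for `t'` in the same way.
`pairOk` unfolds with `allb` (see `Defs` of `MMS14`, `allb_sound`-like lemmas in `Lanes`/`StarD`), `hd0 (dr i v) = v.getD i 0`.
-/

open Finset Pool.Agent.H36.MMS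

set_option autoImplicit false

namespace Pool.Agent.MMS15

open Pool.Agent.MMS14

variable {α : Type*} [DecidableEq α]

private theorem allb_T4P {n : ℕ} {f : ℕ → Bool} (h : allb n f = true) : ∀ m, m < n → f m = true := by
  induction n with
  | zero =>
    intro m hm
    omega
  | succ n ih =>
    have h1 : et (f n) (allb n f) = true := h
    rw [et_true] at h1
    intro m hm
    rcases Nat.lt_succ_iff_lt_or_eq.1 hm with hm | hm
    · exact ih h1.2 m hm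
    · rw [hm]
      exact h1.1

private theorem mean_T4P (x : α → ℝ) (R : Finset α) (k : ℕ) :
    (k : ℝ) * mean x R = (k : ℝ) / R.card * sg x R := by
  unfold mean
  ring

theorem t4_big {P0 P1 : ℕ} {vm : List ℕ} (hlow : LowOk P0 P1 vm) (hvm : ∀ v ∈ vm, v ≤ 65536) (hP1 : P1 ≤ 5205)
    {R : Finset α} {k : ℕ} (x : α → ℝ) (hM : 10 ^ 20 ≤ R.card) (hk : k ≤ R.card) (hr0 : (P0 : ℝ) / 16384 ≤ (k : ℝ) / R.card)
    (hr1 : (k : ℝ) / R.card ≤ (P1 : ℝ) / 16384) (hr5 : 1 / 5 ≤ (k : ℝ) / R.card) (hV : ps x 2 R ≤ 0.1) {θ : ℝ}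
    (hθ : θ ≤ (k : ℝ) / R.card * sg x R - 0.75) : (((vm.getD 0 0 : ℕ) : ℝ) - 8) / 65536 ≤ pr R k (fun T => θ ≤ sg x T) := by
  refine pr_low100 hlow hvm (by omega) x hM hk hr0 hr1 hr5 ?_
  rw [mean_T4P]
  obtain ⟨r, hr⟩ : ∃ r : ℝ, r = (k : ℝ) / R.card := ⟨_, rfl⟩
  rw [← hr] at hθ ⊢
  have hdev : dev x R ≤ 0.1 := by
    refine (dev_le_center x R 0).trans ?_
    have h1 : ∑ i ∈ R, (x i - 0) ^ 2 = ps x 2 R := by
      unfold ps
      simp
    rw [h1]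
    exact hV
  have hdev0 := dev_nonneg x R
  have h2 : r * (1 - r) * dev x R ≤ 0.16 ^ 2 := by
    have h3 : r * (1 - r) ≤ 1 / 4 := by nlinarith [sq_nonneg (r - 1 / 2)]
    calc r * (1 - r) * dev x R ≤ 1 / 4 * dev x R := mul_le_mul_of_nonneg_right h3 hdev0
      _ ≤ 0.16 ^ 2 := by norm_num at hdev ⊢; linarith
  have h4 : √(r * (1 - r) * dev x R) ≤ 0.16 := by
    rw [← Real.sqrt_sq (by norm_num : (0 : ℝ) ≤ 0.16)]
    exact Real.sqrt_le_sqrt h2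
  have h5 := Real.sqrt_nonneg (r * (1 - r) * dev x R)
  push_cast
  norm_num at hθ h4 ⊢
  linarith

theorem t4_half {P0 P1 : ℕ} {vm : List ℕ} (hlow : LowOk P0 P1 vm) (hvm : ∀ v ∈ vm, v ≤ 65536) (hP1 : P1 ≤ 5205)
    {R : Finset α} {k : ℕ} (x : α → ℝ) (hM : 10 ^ 20 ≤ R.card) (hk : k ≤ R.card) (hr0 : (P0 : ℝ) / 16384 ≤ (k : ℝ) / R.card)
    (hr1 : (k : ℝ) / R.card ≤ (P1 : ℝ) / 16384) (hr5 : 1 / 5 ≤ (k : ℝ) / R.card) {θ : ℝ}
    (hθ : θ ≤ (k : ℝ) / R.card * sg x R) : (((vm.getD 401 0 : ℕ) : ℝ) - 8) / 65536 ≤ pr R k (fun T => θ ≤ sg x T) := by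
  refine pr_low100 hlow hvm (by omega) x hM hk hr0 hr1 hr5 ?_
  rw [mean_T4P]
  push_cast
  norm_num
  exact hθ

private theorem pair_T4P {P0 P1 : ℕ} {vm : List ℕ} (hlow : LowOk P0 P1 vm) (hvm : ∀ v ∈ vm, v ≤ 65536) (hvl : vm.length ≤ 701)
    {g : ℕ} (hpair : ∀ m, m < 402 → g ≤ vm.getD (402 + m) 0 + vm.getD (401 - m) 0) (hP1 : P1 ≤ 5205)
    {R : Finset α} {k : ℕ} (x : α → ℝ) (hM : 10 ^ 20 ≤ R.card) (hk : k ≤ R.card) (hr0 : (P0 : ℝ) / 16384 ≤ (k : ℝ) / R.card)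
    (hr1 : (k : ℝ) / R.card ≤ (P1 : ℝ) / 16384) (hr5 : 1 / 5 ≤ (k : ℝ) / R.card) {θ θ' : ℝ}
    (hθ : θ + θ' ≤ 2 * ((k : ℝ) / R.card * sg x R)) (hle : θ' ≤ θ) :
    ((g : ℝ) - 16) / 65536 ≤ pr R k (fun T => θ ≤ sg x T) + pr R k (fun T => θ' ≤ sg x T) := by
  have key : ∀ (i : ℕ) (η : ℝ), η ≤ (k : ℝ) / R.card * sg x R +
      ((i : ℝ) - 401) / 100 * √((k : ℝ) / R.card * (1 - (k : ℝ) / R.card) * dev x R) →
      (((vm.getD i 0 : ℕ) : ℝ) - 8) / 65536 ≤ pr R k (fun T => η ≤ sg x T) := by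
    intro i η hη
    refine pr_low100 hlow hvm (by omega) x hM hk hr0 hr1 hr5 ?_
    rw [mean_T4P]
    exact hη
  obtain ⟨σ, hσ⟩ : ∃ σ : ℝ, σ = √((k : ℝ) / R.card * (1 - (k : ℝ) / R.card) * dev x R) := ⟨_, rfl⟩
  obtain ⟨μ, hμ⟩ : ∃ μ : ℝ, μ = (k : ℝ) / R.card * sg x R := ⟨_, rfl⟩
  rw [← hσ, ← hμ] at key
  rw [← hμ] at hθ
  have hσ0 : 0 ≤ σ := by rw [hσ]; exact Real.sqrt_nonneg _
  have hfin : ∀ a b : ℕ, g ≤ vm.getD a 0 + vm.getD b 0 →
      θ ≤ μ + ((a : ℝ) - 401) / 100 * σ → θ' ≤ μ + ((b : ℝ) - 401) / 100 * σ →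
      ((g : ℝ) - 16) / 65536 ≤ pr R k (fun T => θ ≤ sg x T) + pr R k (fun T => θ' ≤ sg x T) := by
    intro a b h1 h2 h3
    have h4 := key a θ h2
    have h5 := key b θ' h3
    have h6 : (g : ℝ) ≤ (vm.getD a 0 : ℕ) + (vm.getD b 0 : ℕ) := by exact_mod_cast h1
    refine le_trans ?_ (add_le_add h4 h5)
    rw [← add_div]
    exact div_le_div_of_nonneg_right (by linarith) (by norm_num)
  have hlowcase : θ' ≤ μ - 4.01 * σ →
      ((g : ℝ) - 16) / 65536 ≤ pr R k (fun T => θ ≤ sg x T) + pr R k (fun T => θ' ≤ sg x T) := by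
    intro h1
    have h2 := key 0 θ' (by
      push_cast
      norm_num at h1 ⊢
      linarith)
    have h3 := hpair 401 (by norm_num)
    have h4 : vm.getD (402 + 401) 0 = 0 := by
      rw [List.getD_eq_default]
      omega
    rw [h4, zero_add, Nat.sub_self] at h3
    have h5 : (g : ℝ) ≤ (vm.getD 0 0 : ℕ) := by exact_mod_cast h3
    have h6 := pr_nonneg R k (fun T => θ ≤ sg x T)
    have h7 : ((g : ℝ) - 16) / 65536 ≤ (((vm.getD 0 0 : ℕ) : ℝ) - 8) / 65536 :=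
      div_le_div_of_nonneg_right (by linarith) (by norm_num)
    linarith
  by_cases ht : θ ≤ μ
  · refine hfin 402 401 ?_ ?_ ?_
    · have := hpair 0 (by norm_num)
      simpa using this
    · push_cast
      norm_num
      linarith
    · push_cast
      norm_num
      linarith
  · push Not at ht
    rcases eq_or_lt_of_le hσ0 with h0 | h0
    · apply hlowcase
      rw [← h0]
      linarith
    · obtain ⟨m, hm⟩ : ∃ m, m = ⌊100 * (θ - μ) / σ⌋₊ := ⟨_, rfl⟩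
      have hpos : 0 ≤ 100 * (θ - μ) / σ := div_nonneg (by linarith) hσ0
      have h1 : (m : ℝ) ≤ 100 * (θ - μ) / σ := by rw [hm]; exact Nat.floor_le hpos
      have h2 : 100 * (θ - μ) / σ < (m : ℝ) + 1 := by rw [hm]; exact Nat.lt_floor_add_one _
      rw [le_div_iff₀ h0] at h1
      rw [div_lt_iff₀ h0] at h2
      by_cases hm1 : m < 402
      · refine hfin (402 + m) (401 - m) (hpair m hm1) ?_ ?_
        · push_cast
          have e : (402 + (m : ℝ) - 401) / 100 * σ = ((m : ℝ) + 1) * σ / 100 := by ring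
          rw [e]
          linarith
        · rw [Nat.cast_sub (by omega)]
          push_cast
          have e : (401 - (m : ℝ) - 401) / 100 * σ = -((m : ℝ) * σ / 100) := by ring
          rw [e]
          linarith
      · apply hlowcase
        have h3 : (402 : ℝ) ≤ m := by exact_mod_cast (by omega : 402 ≤ m)
        have h4 : 402 * σ ≤ (m : ℝ) * σ := mul_le_mul_of_nonneg_right h3 hσ0
        norm_num
        linarith

theorem t4_pair {P0 P1 : ℕ} {vm : List ℕ} (hlow : LowOk P0 P1 vm) (hvm : ∀ v ∈ vm, v ≤ 65536) (hvl : vm.length ≤ 701)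
    {g : ℕ} (hpair : pairOk g vm = true) (hP1 : P1 ≤ 5205)
    {R : Finset α} {k : ℕ} (x : α → ℝ) (hM : 10 ^ 20 ≤ R.card) (hk : k ≤ R.card) (hr0 : (P0 : ℝ) / 16384 ≤ (k : ℝ) / R.card)
    (hr1 : (k : ℝ) / R.card ≤ (P1 : ℝ) / 16384) (hr5 : 1 / 5 ≤ (k : ℝ) / R.card) {θ θ' : ℝ}
    (hθ : θ + θ' ≤ 2 * ((k : ℝ) / R.card * sg x R)) :
    ((g : ℝ) - 16) / 65536 ≤ pr R k (fun T => θ ≤ sg x T) + pr R k (fun T => θ' ≤ sg x T) := by
  have hp : ∀ m, m < 402 → g ≤ vm.getD (402 + m) 0 + vm.getD (401 - m) 0 := by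
    intro m hm
    have h1 := allb_T4P hpair m hm
    have h2 := Nat.le_of_ble_eq_true h1
    change g ≤ hd0 (dr (402 + m) vm) + hd0 (dr (401 - m) vm) at h2
    rwa [hd0_dr, hd0_dr] at h2
  rcases le_total θ' θ with h | h
  · exact pair_T4P hlow hvm hvl hp hP1 x hM hk hr0 hr1 hr5 hθ h
  · rw [add_comm]
    exact pair_T4P hlow hvm hvl hp hP1 x hM hk hr0 hr1 hr5 (by linarith) h

end Pool.Agent.MMS15
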