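import Pool.Agent.MMS15.T4C
import Pool.Agent.MMS15.T4P

/-!
# MMS15/T4: two large positive and two large negative entries

`x i1, x i2, - x j1, - x j2 ∈ [0.88, 1]`, `|R| = n - 4`, `ps x 2 R ≤ 0.1`, `sg x R = - s`, `s = x i1 + x i2 + x j1 + x j2 ∈ [-0.24, 0.24]`, `p = k/n ∈ [0.2496, 0.3177]`, `q = 1 - p`.
`cnt_insert` four times (`k = (k-4) + 4`): `cnt x Ω k 0 = ∑_T cnt x R (k - |T|) (- sg x T)` over the 16 subsets `T` of `{i1, i2, j1, j2}` (write it out with explicit thresholds; drop what is not needed).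
With `j = |T|`, `r_j = (k-j)/(n-4)` (`≤ 1/3`; `P0/2^14 ≤ r_j ≤ P1/2^14` by the margins `0.1` of `hp0`, `hp1`, since `|r_j - p| ≤ 4/n..`), `cnt x R (k-j) θ = pr .. * C(n-4, k-j)` (`pr_cnt`),
`C(n-4, k-j) ≥ (p^j q^(4-j) - 10^(-9)) C(n, k)` (`choose4`; a value `w ≤ pr ≤ 1` gives `cnt ≥ w (p^j q^(4-j)) C(n,k) - 10^(-9) C(n,k)` if `0 ≤ w ≤ 1`):
* `T` with more positive than negative elements (`{i1}, {i2}`; `{i1,i2}`; `{i1,i2,j1}, {i1,i2,j2}`): `sg x T - r s ≥ 0.75`, `t4_big`: `≥ (v00 - 8)/2^16`.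
  (`{i1}`: `≥ 0.88 - 0.08`; `{i1,i2,j1}`: `s ≤ 0`: `≥ 0.76`; `s > 0`: `sg x T = s - x j2 ≥ s + 0.88`.)
* `s ≤ 0`: `T = ∅`: `0 ≤ - r s`, `t4_half`: `≥ (v0 - 8)/2^16`; then `t4_num0`.
* `s > 0`: `T = {i1,i2,j1,j2}`: threshold `- s ≤ - r s`, `t4_half`.  The four sets `T` with one positive and one negative element form two complementary pairs (`{i1,j1}`, `{i2,j2}`) and (`{i1,j2}`, `{i2,j1}`),
  all with `j = 2`; in a pair the thresholds have sum `- s ≤ - 2 r s` (`r ≤ 1/2`): `t4_pair`: the sum of the two values is `≥ (g - 16)/2^16`; then `t4_num1`.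
Finally `cnt x Ω k 0 ≥ p C(n, k) = C(n-1, k-1)` (`choose_eq`); the total error of the terms `10^(-9)` is below `10^(-4)`.
-/

open Finset Pool.Agent.H36.MMS

set_option autoImplicit false

namespace Pool.Agent.MMS15

open Pool.Agent.MMS14

variable {α : Type*} [DecidableEq α]

private theorem cnt2_T4 (x : α → ℝ) {R : Finset α} {a b : α} (hb : b ∉ R) (ha : a ∉ insert b R)
    (k : ℕ) (θ : ℝ) :
    cnt x (insert a (insert b R)) (k + 2) θ =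
      (cnt x R (k + 2) θ + cnt x R (k + 1) (θ - x b)) +
      (cnt x R (k + 1) (θ - x a) + cnt x R k (θ - x a - x b)) := by
  rw [cnt_insert x ha (k + 1) θ, cnt_insert x hb (k + 1) θ, cnt_insert x hb k (θ - x a)]

private theorem getD_le_T4 {vm : List ℕ} (hvm : ∀ v ∈ vm, v ≤ 65536) (i : ℕ) :
    vm.getD i 0 ≤ 65536 := by
  by_cases h : i < vm.length
  · rw [List.getD_eq_getElem _ _ h]
    exact hvm _ (List.getElem_mem h)
  · rw [List.getD_eq_default _ _ (by omega)]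
    omega

private theorem rate_T4 {n k j M P0 P1 : ℕ} (hk : 10 ^ 26 ≤ k) (hkn : 2 * k ≤ n) (hj : j ≤ 4)
    (hM : M + 4 = n) (hP0 : 4090 ≤ P0) (hP1 : P1 ≤ 5205)
    (hp0 : ((P0 : ℝ) + 0.1) / 16384 ≤ (k : ℝ) / n) (hp1 : (k : ℝ) / n ≤ ((P1 : ℝ) - 0.1) / 16384) :
    (P0 : ℝ) / 16384 ≤ ((k - j : ℕ) : ℝ) / M ∧ ((k - j : ℕ) : ℝ) / M ≤ (P1 : ℝ) / 16384 ∧
      1 / 5 ≤ ((k - j : ℕ) : ℝ) / M ∧ ((k - j : ℕ) : ℝ) / M ≤ 1 / 3 := by
  have hk4 : 4 ≤ k := le_trans (by norm_num) hk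
  have hkR : (10 : ℝ) ^ 26 ≤ k := by exact_mod_cast hk
  have hknR : 2 * (k : ℝ) ≤ n := by exact_mod_cast hkn
  have hMR : (M : ℝ) + 4 = n := by exact_mod_cast hM
  have hM0 : (10 : ℝ) ^ 25 ≤ M := by
    norm_num at hkR ⊢
    linarith
  have hMpos : (0 : ℝ) < M := lt_of_lt_of_le (by positivity) hM0
  have hn0 : (0 : ℝ) < n := by linarith
  have hjR : (j : ℝ) ≤ 4 := by exact_mod_cast hj
  have hj0 : (0 : ℝ) ≤ j := Nat.cast_nonneg j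
  have hk0 : (0 : ℝ) ≤ k := Nat.cast_nonneg k
  have hkj : ((k - j : ℕ) : ℝ) = k - j := by rw [Nat.cast_sub (by omega)]
  rw [hkj]
  have hdiff : |((k : ℝ) - j) / M - (k : ℝ) / n| ≤ 1 / 10 ^ 20 := by
    have e : ((k : ℝ) - j) / M - (k : ℝ) / n = (4 * (k : ℝ) / n - j) / M := by
      rw [← hMR]
      have : (M : ℝ) + 4 ≠ 0 := by linarith
      field_simp
      ring
    rw [e, abs_div, abs_of_pos hMpos, div_le_div_iff₀ hMpos (by positivity)]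
    have h1 : 0 ≤ 4 * (k : ℝ) / n := by positivity
    have h2 : 4 * (k : ℝ) / n ≤ 4 := by
      rw [div_le_iff₀ hn0]
      linarith
    have h3 : |4 * (k : ℝ) / n - j| ≤ 4 := by
      rw [abs_le]
      constructor <;> linarith
    calc |4 * (k : ℝ) / n - j| * 10 ^ 20 ≤ 4 * 10 ^ 20 := mul_le_mul_of_nonneg_right h3 (by positivity)
      _ ≤ 1 * M := by
          norm_num at hM0 ⊢
          linarith
  rw [abs_le] at hdiff
  obtain ⟨hd1, hd2⟩ := hdiff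
  have hP0R : (4090 : ℝ) ≤ P0 := by exact_mod_cast hP0
  have hP1R : (P1 : ℝ) ≤ 5205 := by exact_mod_cast hP1
  norm_num at hp0 hp1 hd1 hd2 ⊢
  refine ⟨?_, ?_, ?_, ?_⟩
  · linarith
  · linarith
  · linarith
  · linarith

private theorem term_T4 (x : α → ℝ) {R : Finset α} {n k j : ℕ} (hk : 10 ^ 26 ≤ k)
    (hkn : 2 * k ≤ n) (hj : j ≤ 4) (hR : R.card + 4 = n) {w θ : ℝ} (hw0 : 0 ≤ w) (hw1 : w ≤ 1)
    (h : w ≤ pr R (k - j) (fun T => θ ≤ sg x T)) :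
    w * (((k : ℝ) / n) ^ j * (1 - (k : ℝ) / n) ^ (4 - j)) * (n.choose k : ℝ) -
      1 / 10 ^ 9 * (n.choose k : ℝ) ≤ (cnt x R (k - j) θ : ℝ) := by
  have hk4 : 4 ≤ k := le_trans (by norm_num) hk
  have h1 := choose4 hk hkn hj
  have hRc : R.card = n - 4 := by omega
  rw [pr_cnt x (by omega) θ, hRc]
  have hK : (0 : ℝ) ≤ (n.choose k : ℝ) := Nat.cast_nonneg _
  have hC : (0 : ℝ) ≤ ((n - 4).choose (k - j) : ℝ) := Nat.cast_nonneg _
  calc w * (((k : ℝ) / n) ^ j * (1 - (k : ℝ) / n) ^ (4 - j)) * (n.choose k : ℝ) -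
      1 / 10 ^ 9 * (n.choose k : ℝ) ≤
      w * ((((k : ℝ) / n) ^ j * (1 - (k : ℝ) / n) ^ (4 - j) - 1 / 10 ^ 9) * (n.choose k : ℝ)) := by
        have h2 : w * (1 / 10 ^ 9 * (n.choose k : ℝ)) ≤ 1 * (1 / 10 ^ 9 * (n.choose k : ℝ)) :=
          mul_le_mul_of_nonneg_right hw1 (by positivity)
        linarith
    _ ≤ w * ((n - 4).choose (k - j) : ℝ) := mul_le_mul_of_nonneg_left h1 hw0
    _ ≤ _ := mul_le_mul_of_nonneg_right h hC

private theorem term2_T4 (x : α → ℝ) {R : Finset α} {n k j : ℕ} (hk : 10 ^ 26 ≤ k)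
    (hkn : 2 * k ≤ n) (hj : j ≤ 4) (hR : R.card + 4 = n) {w θ θ' : ℝ} (hw0 : 0 ≤ w) (hw1 : w ≤ 1)
    (h : w ≤ pr R (k - j) (fun T => θ ≤ sg x T) + pr R (k - j) (fun T => θ' ≤ sg x T)) :
    w * (((k : ℝ) / n) ^ j * (1 - (k : ℝ) / n) ^ (4 - j)) * (n.choose k : ℝ) -
      1 / 10 ^ 9 * (n.choose k : ℝ) ≤ (cnt x R (k - j) θ : ℝ) + (cnt x R (k - j) θ' : ℝ) := by
  have hk4 : 4 ≤ k := le_trans (by norm_num) hk
  have h1 := choose4 hk hkn hj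
  have hRc : R.card = n - 4 := by omega
  rw [pr_cnt x (by omega) θ, pr_cnt x (by omega) θ', hRc, ← add_mul]
  have hK : (0 : ℝ) ≤ (n.choose k : ℝ) := Nat.cast_nonneg _
  have hC : (0 : ℝ) ≤ ((n - 4).choose (k - j) : ℝ) := Nat.cast_nonneg _
  calc w * (((k : ℝ) / n) ^ j * (1 - (k : ℝ) / n) ^ (4 - j)) * (n.choose k : ℝ) -
      1 / 10 ^ 9 * (n.choose k : ℝ) ≤
      w * ((((k : ℝ) / n) ^ j * (1 - (k : ℝ) / n) ^ (4 - j) - 1 / 10 ^ 9) * (n.choose k : ℝ)) := by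
        have h2 : w * (1 / 10 ^ 9 * (n.choose k : ℝ)) ≤ 1 * (1 / 10 ^ 9 * (n.choose k : ℝ)) :=
          mul_le_mul_of_nonneg_right hw1 (by positivity)
        linarith
    _ ≤ w * ((n - 4).choose (k - j) : ℝ) := mul_le_mul_of_nonneg_left h1 hw0
    _ ≤ _ := mul_le_mul_of_nonneg_right h hC

private theorem ok_T4 {P1 v00 v0 g : ℕ} (h : t4Ok P1 v00 v0 g = true) :
    32 ≤ g ∧ 16 ≤ v0 ∧ 16 ≤ v00 ∧ 3 * g ≤ 65536 ∧ 3 * v0 ≤ 65536 := by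
  unfold t4Ok at h
  simp only [et_true] at h
  obtain ⟨h1, h2, h3, h4, h5, -⟩ := h
  exact ⟨Nat.le_of_ble_eq_true h1, Nat.le_of_ble_eq_true h2, Nat.le_of_ble_eq_true h3,
    Nat.le_of_ble_eq_true h4, Nat.le_of_ble_eq_true h5⟩

theorem t4 {P0 P1 : ℕ} {vm : List ℕ} (hlow : LowOk P0 P1 vm) (hvm : ∀ v ∈ vm, v ≤ 65536) (hvl : vm.length ≤ 701) {v00 v0 g : ℕ}
    (hv00 : v00 = vm.getD 0 0) (hv0 : v0 = vm.getD 401 0) (hpair : pairOk g vm = true) (hnum : t4Ok P1 v00 v0 g = true)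
    (hP0 : 4090 ≤ P0) (hP1 : P1 ≤ 5205) {Ω R : Finset α} {n k : ℕ} {i1 i2 j1 j2 : α} (x : α → ℝ) (hk : 10 ^ 26 ≤ k) (hkn : k < n)
    (h4 : j2 ∉ R) (h3 : j1 ∉ insert j2 R) (h2 : i2 ∉ insert j1 (insert j2 R)) (h1 : i1 ∉ insert i2 (insert j1 (insert j2 R)))
    (hΩ : Ω = insert i1 (insert i2 (insert j1 (insert j2 R)))) (hR : R.card + 4 = n) (hsum : sg x Ω = 0)
    (hp0 : ((P0 : ℝ) + 0.1) / 16384 ≤ (k : ℝ) / n) (hp1 : (k : ℝ) / n ≤ ((P1 : ℝ) - 0.1) / 16384)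
    (hi1 : 0.88 ≤ x i1 ∧ x i1 ≤ 1) (hi2 : 0.88 ≤ x i2 ∧ x i2 ≤ 1)
    (hj1 : 0.88 ≤ -(x j1) ∧ -(x j1) ≤ 1) (hj2 : 0.88 ≤ -(x j2) ∧ -(x j2) ≤ 1) (hV : ps x 2 R ≤ 0.1) :
    (n - 1).choose (k - 1) ≤ cnt x Ω k 0 := by
  have hk4 : 4 ≤ k := le_trans (by norm_num) hk
  have hkR : (10 : ℝ) ^ 26 ≤ k := by exact_mod_cast hk
  have hknR : (k : ℝ) < n := by exact_mod_cast hkn
  have hn0 : (0 : ℝ) < n := by
    have : (0 : ℝ) ≤ k := Nat.cast_nonneg k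
    linarith
  have hP1R : (P1 : ℝ) ≤ 5205 := by exact_mod_cast hP1
  have hP0R : (4090 : ℝ) ≤ P0 := by exact_mod_cast hP0
  obtain ⟨p, hp⟩ : ∃ p : ℝ, p = (k : ℝ) / n := ⟨_, rfl⟩
  have hp1' : p ≤ 1 / 2 := by
    rw [hp]
    norm_num at hp1 ⊢
    linarith
  have h2k : 2 * k ≤ n := by
    have h5 : 2 * (k : ℝ) ≤ n := by
      rw [hp, div_le_iff₀ hn0] at hp1'
      linarith
    exact_mod_cast h5
  obtain ⟨hg, hv016, hv0016, hg3, hv03⟩ := ok_T4 hnum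
  have hv00le : v00 ≤ 65536 := by rw [hv00]; exact getD_le_T4 hvm 0
  have hnum_p0 : 0.2496 ≤ p := by
    rw [hp]
    norm_num at hp0 ⊢
    linarith
  have hnum_p1 : p ≤ (P1 : ℝ) / 16384 := by
    rw [hp]
    norm_num at hp1 ⊢
    linarith
  have hN0 := t4_num0 hnum hP1 hv00le hnum_p0 hnum_p1
  have hN1 := t4_num1 hnum hP1 hv00le hnum_p0 hnum_p1
  -- the values
  obtain ⟨w, hw⟩ : ∃ w : ℝ, w = ((v00 : ℝ) - 16) / 65536 := ⟨_, rfl⟩
  obtain ⟨w0, hw0⟩ : ∃ w0 : ℝ, w0 = ((v0 : ℝ) - 16) / 65536 := ⟨_, rfl⟩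
  obtain ⟨u, hu⟩ : ∃ u : ℝ, u = ((g : ℝ) - 32) / 65536 := ⟨_, rfl⟩
  rw [← hw, ← hw0] at hN0
  rw [← hw, ← hw0, ← hu] at hN1
  have hv0016R : (16 : ℝ) ≤ v00 := by exact_mod_cast hv0016
  have hv016R : (16 : ℝ) ≤ v0 := by exact_mod_cast hv016
  have hg32R : (32 : ℝ) ≤ g := by exact_mod_cast hg
  have hv00R : (v00 : ℝ) ≤ 65536 := by exact_mod_cast hv00le
  have hv0R : 3 * (v0 : ℝ) ≤ 65536 := by exact_mod_cast hv03
  have hgR : 3 * (g : ℝ) ≤ 65536 := by exact_mod_cast hg3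
  have hwn : 0 ≤ w := by rw [hw]; apply div_nonneg <;> linarith
  have hw1 : w ≤ 1 := by rw [hw, div_le_one (by norm_num)]; linarith
  have hw0n : 0 ≤ w0 := by rw [hw0]; apply div_nonneg <;> linarith
  have hw01 : w0 ≤ 1 := by rw [hw0, div_le_one (by norm_num)]; linarith
  have hun : 0 ≤ u := by rw [hu]; apply div_nonneg <;> linarith
  have hu1 : u ≤ 1 := by rw [hu, div_le_one (by norm_num)]; linarith
  -- the sum
  obtain ⟨s, hs⟩ : ∃ s : ℝ, s = x i1 + x i2 + x j1 + x j2 := ⟨_, rfl⟩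
  have hsR : sg x R = -s := by
    have h5 : sg x Ω = x i1 + (x i2 + (x j1 + (x j2 + sg x R))) := by
      rw [hΩ]
      unfold sg
      rw [sum_insert h1, sum_insert h2, sum_insert h3, sum_insert h4]
    rw [hsum] at h5
    linarith
  obtain ⟨hi1a, hi1b⟩ := hi1
  obtain ⟨hi2a, hi2b⟩ := hi2
  obtain ⟨hj1a, hj1b⟩ := hj1
  obtain ⟨hj2a, hj2b⟩ := hj2
  norm_num at hi1a hi2a hj1a hj2a
  have hM20 : 10 ^ 20 ≤ R.card := by
    have h5 : 10 ^ 26 ≤ R.card + 4 := by omega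
    norm_num at h5 ⊢
    omega
  -- rules
  have big : ∀ (j : ℕ) (θ : ℝ), j ≤ 4 →
      (∀ r : ℝ, 1 / 5 ≤ r → r ≤ 1 / 3 → θ ≤ r * (-s) - 0.75) →
      w * (p ^ j * (1 - p) ^ (4 - j)) * (n.choose k : ℝ) - 1 / 10 ^ 9 * (n.choose k : ℝ) ≤
        (cnt x R (k - j) θ : ℝ) := by
    intro j θ hj hθ
    obtain ⟨r1, r2, r3, r4⟩ := rate_T4 hk h2k hj hR hP0 hP1 hp0 hp1
    rw [hp]
    refine term_T4 x hk h2k hj hR hwn hw1 ?_
    have h5 := t4_big hlow hvm hP1 x hM20 (k := k - j) (by omega) r1 r2 r3 hV (θ := θ) (by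
      rw [hsR]
      exact hθ _ r3 r4)
    refine le_trans ?_ h5
    rw [hw, hv00]
    exact div_le_div_of_nonneg_right (by linarith) (by norm_num)
  have half : ∀ (j : ℕ) (θ : ℝ), j ≤ 4 →
      (∀ r : ℝ, 1 / 5 ≤ r → r ≤ 1 / 3 → θ ≤ r * (-s)) →
      w0 * (p ^ j * (1 - p) ^ (4 - j)) * (n.choose k : ℝ) - 1 / 10 ^ 9 * (n.choose k : ℝ) ≤
        (cnt x R (k - j) θ : ℝ) := by
    intro j θ hj hθ
    obtain ⟨r1, r2, r3, r4⟩ := rate_T4 hk h2k hj hR hP0 hP1 hp0 hp1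
    rw [hp]
    refine term_T4 x hk h2k hj hR hw0n hw01 ?_
    have h5 := t4_half hlow hvm hP1 x hM20 (k := k - j) (by omega) r1 r2 r3 (θ := θ) (by
      rw [hsR]
      exact hθ _ r3 r4)
    refine le_trans ?_ h5
    rw [hw0, hv0]
    exact div_le_div_of_nonneg_right (by linarith) (by norm_num)
  have pair : ∀ (j : ℕ) (θ θ' : ℝ), j ≤ 4 →
      (∀ r : ℝ, 1 / 5 ≤ r → r ≤ 1 / 3 → θ + θ' ≤ 2 * (r * (-s))) →
      u * (p ^ j * (1 - p) ^ (4 - j)) * (n.choose k : ℝ) - 1 / 10 ^ 9 * (n.choose k : ℝ) ≤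
        (cnt x R (k - j) θ : ℝ) + (cnt x R (k - j) θ' : ℝ) := by
    intro j θ θ' hj hθ
    obtain ⟨r1, r2, r3, r4⟩ := rate_T4 hk h2k hj hR hP0 hP1 hp0 hp1
    rw [hp]
    refine term2_T4 x hk h2k hj hR hun hu1 ?_
    have h5 := t4_pair hlow hvm hvl hpair hP1 x hM20 (k := k - j) (by omega) r1 r2 r3 (θ := θ)
      (θ' := θ') (by
      rw [hsR]
      exact hθ _ r3 r4)
    refine le_trans ?_ h5
    rw [hu]
    exact div_le_div_of_nonneg_right (by linarith) (by norm_num)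
  obtain ⟨k', hk'⟩ : ∃ k', k = k' + 4 := ⟨k - 4, by omega⟩
  have hcount : cnt x Ω k 0 =
      ((cnt x R (k' + 4) 0 + cnt x R (k' + 3) (0 - x j2)) +
        (cnt x R (k' + 3) (0 - x j1) + cnt x R (k' + 2) (0 - x j1 - x j2)) +
      ((cnt x R (k' + 3) (0 - x i2) + cnt x R (k' + 2) (0 - x i2 - x j2)) +
        (cnt x R (k' + 2) (0 - x i2 - x j1) + cnt x R (k' + 1) (0 - x i2 - x j1 - x j2)))) +
      (((cnt x R (k' + 3) (0 - x i1) + cnt x R (k' + 2) (0 - x i1 - x j2)) +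
        (cnt x R (k' + 2) (0 - x i1 - x j1) + cnt x R (k' + 1) (0 - x i1 - x j1 - x j2))) +
      ((cnt x R (k' + 2) (0 - x i1 - x i2) + cnt x R (k' + 1) (0 - x i1 - x i2 - x j2)) +
        (cnt x R (k' + 1) (0 - x i1 - x i2 - x j1) +
          cnt x R k' (0 - x i1 - x i2 - x j1 - x j2)))) := by
    rw [hΩ, hk', cnt2_T4 x h2 h1 (k' + 2) 0, cnt2_T4 x h4 h3 (k' + 2) 0,
      cnt2_T4 x h4 h3 (k' + 1) (0 - x i2), cnt2_T4 x h4 h3 (k' + 1) (0 - x i1),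
      cnt2_T4 x h4 h3 k' (0 - x i1 - x i2)]
  have e1 : k - 0 = k' + 4 := by omega
  have e2 : k - 1 = k' + 3 := by omega
  have e3 : k - 2 = k' + 2 := by omega
  have e4 : k - 3 = k' + 1 := by omega
  have e5 : k - 4 = k' := by omega
  have hcR : (cnt x Ω k 0 : ℝ) = _ := congrArg (Nat.cast : ℕ → ℝ) hcount
  push_cast at hcR
  obtain ⟨K, hK⟩ : ∃ K : ℝ, K = (n.choose k : ℝ) := ⟨_, rfl⟩
  have hK0 : 0 ≤ K := by rw [hK]; positivity
  rw [← hK] at big half pair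
  have hgoal : p * K ≤ (cnt x Ω k 0 : ℝ) → (n - 1).choose (k - 1) ≤ cnt x Ω k 0 := by
    intro h5
    rw [hp, hK, ← choose_eq (by omega) (by omega)] at h5
    exact_mod_cast h5
  apply hgoal
  -- common terms
  have hs1 : s ≤ 6 / 25 := by rw [hs]; linarith
  have hs2 : -(6 / 25) ≤ s := by rw [hs]; linarith
  have hrs : ∀ r : ℝ, 1 / 5 ≤ r → r ≤ 1 / 3 → r * s ≤ 2 / 25 ∧ -(2 / 25) ≤ r * s := by
    intro r hr0 hr1
    have hr00 : 0 ≤ r := by linarith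
    constructor
    · calc r * s ≤ r * (6 / 25) := mul_le_mul_of_nonneg_left hs1 hr00
        _ ≤ 2 / 25 := by linarith
    · calc -(2 / 25) ≤ r * (-(6 / 25)) := by linarith
        _ ≤ r * s := mul_le_mul_of_nonneg_left hs2 hr00
  have hthr : ∀ (r y : ℝ), 1 / 5 ≤ r → r ≤ 1 / 3 → s ≤ 0 → y ≤ -(3 / 4) → y ≤ r * (-s) - 0.75 := by
    intro r y hr0 hr1 h0 hy
    have h5 : 0 ≤ r * (-s) := mul_nonneg (by linarith) (by linarith)
    norm_num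
    linarith
  have hthr2 : ∀ (r y : ℝ), 1 / 5 ≤ r → r ≤ 1 / 3 → 0 ≤ s → y ≤ -s - 3 / 4 → y ≤ r * (-s) - 0.75 := by
    intro r y hr0 hr1 h0 hy
    have h5 : r * s ≤ 1 * s := mul_le_mul_of_nonneg_right (by linarith) h0
    norm_num
    linarith
  have hthr1 : ∀ (r y : ℝ), 1 / 5 ≤ r → r ≤ 1 / 3 → y ≤ -(83 / 100) → y ≤ r * (-s) - 0.75 := by
    intro r y hr0 hr1 hy
    obtain ⟨h5, h6⟩ := hrs r hr0 hr1
    norm_num
    linarith
  have t1 := big 1 (0 - x i1) (by norm_num) (fun r hr0 hr1 => hthr1 r _ hr0 hr1 (by linarith))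
  have t2 := big 1 (0 - x i2) (by norm_num) (fun r hr0 hr1 => hthr1 r _ hr0 hr1 (by linarith))
  have t3 := big 2 (0 - x i1 - x i2) (by norm_num)
    (fun r hr0 hr1 => hthr1 r _ hr0 hr1 (by linarith))
  have t4 := big 3 (0 - x i1 - x i2 - x j1) (by norm_num) (by
    intro r hr0 hr1
    rcases le_total s 0 with h0 | h0
    · exact hthr r _ hr0 hr1 h0 (by linarith)
    · exact hthr2 r _ hr0 hr1 h0 (by linarith))
  have t5 := big 3 (0 - x i1 - x i2 - x j2) (by norm_num) (by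
    intro r hr0 hr1
    rcases le_total s 0 with h0 | h0
    · exact hthr r _ hr0 hr1 h0 (by linarith)
    · exact hthr2 r _ hr0 hr1 h0 (by linarith))
  rw [e2] at t1 t2
  rw [e3] at t3
  rw [e4] at t4 t5
  norm_num at t1 t2 t3 t4 t5
  have n1 : (0 : ℝ) ≤ (cnt x R (k' + 4) 0 : ℝ) := Nat.cast_nonneg _
  have n2 : (0 : ℝ) ≤ (cnt x R (k' + 3) (0 - x j2) : ℝ) := Nat.cast_nonneg _
  have n3 : (0 : ℝ) ≤ (cnt x R (k' + 3) (0 - x j1) : ℝ) := Nat.cast_nonneg _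
  have n4 : (0 : ℝ) ≤ (cnt x R (k' + 2) (0 - x j1 - x j2) : ℝ) := Nat.cast_nonneg _
  have n5 : (0 : ℝ) ≤ (cnt x R (k' + 2) (0 - x i2 - x j2) : ℝ) := Nat.cast_nonneg _
  have n6 : (0 : ℝ) ≤ (cnt x R (k' + 2) (0 - x i2 - x j1) : ℝ) := Nat.cast_nonneg _
  have n7 : (0 : ℝ) ≤ (cnt x R (k' + 1) (0 - x i2 - x j1 - x j2) : ℝ) := Nat.cast_nonneg _
  have n8 : (0 : ℝ) ≤ (cnt x R (k' + 2) (0 - x i1 - x j2) : ℝ) := Nat.cast_nonneg _
  have n9 : (0 : ℝ) ≤ (cnt x R (k' + 2) (0 - x i1 - x j1) : ℝ) := Nat.cast_nonneg _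
  have n10 : (0 : ℝ) ≤ (cnt x R (k' + 1) (0 - x i1 - x j1 - x j2) : ℝ) := Nat.cast_nonneg _
  have n11 : (0 : ℝ) ≤ (cnt x R k' (0 - x i1 - x i2 - x j1 - x j2) : ℝ) := Nat.cast_nonneg _
  rw [hcR]
  rcases le_total s 0 with h0 | h0
  · have t6 := half 0 0 (by norm_num) (by
      intro r hr0 hr1
      exact mul_nonneg (by linarith) (by linarith))
    rw [e1] at t6
    have hfin := mul_le_mul_of_nonneg_right hN0 hK0
    norm_num at t6 hfin n1 n2 n3 n4 n5 n6 n7 n8 n9 n10 n11 ⊢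
    linarith
  · have t6 := half 4 (0 - x i1 - x i2 - x j1 - x j2) (by norm_num) (by
      intro r hr0 hr1
      have e : 0 - x i1 - x i2 - x j1 - x j2 = -s := by rw [hs]; ring
      rw [e]
      have h5 : r * s ≤ 1 * s := mul_le_mul_of_nonneg_right (by linarith) h0
      linarith)
    rw [e5] at t6
    have t7 := pair 2 (0 - x i1 - x j1) (0 - x i2 - x j2) (by norm_num) (by
      intro r hr0 hr1
      have e : 0 - x i1 - x j1 + (0 - x i2 - x j2) = -s := by rw [hs]; ring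
      rw [e]
      have h5 : r * s ≤ 1 / 2 * s := mul_le_mul_of_nonneg_right (by linarith) h0
      linarith)
    have t8 := pair 2 (0 - x i1 - x j2) (0 - x i2 - x j1) (by norm_num) (by
      intro r hr0 hr1
      have e : 0 - x i1 - x j2 + (0 - x i2 - x j1) = -s := by rw [hs]; ring
      rw [e]
      have h5 : r * s ≤ 1 / 2 * s := mul_le_mul_of_nonneg_right (by linarith) h0
      linarith)
    rw [e3] at t7 t8
    have hfin := mul_le_mul_of_nonneg_right hN1 hK0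
    norm_num at t6 t7 t8 hfin n1 n2 n3 n4 n5 n6 n7 n8 n9 n10 n11 ⊢
    linarith

end Pool.Agent.MMS15
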