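import Pool.Agent.MMS15.T3
import Pool.Agent.MMS15.T4
import Pool.Agent.MMS15.SrtE
import Pool.Agent.MMS15.FinDefs

/-!
# MMS15/NonX: the exceptional boxes for vectors that are not star-like

`exc_elems`: a box `X ∈ xs`, `es = es1 ++ es2`, `Mt X.ats (es1.map x).reverse`, `R = es2.toFinset`, `ps x 2 R = ss (es2.map x) ≤ V / 10^6` (`ss_enum`).
For the box `t3X` (head `-1`, two negative numbers in `[0.8, 1]`): `es1 = [j1, j2, j3]`, `t3` (`Ω = insert j1 (insert j2 (insert j3 R))`); `hP` holds in the last table only.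
For a box of `t4X`: `es1 = [e1, e2, e3, e4]` with two positive and two negative entries in `[0.88, 1]`, `t4` with `i1, i2` the elements of the positive atoms, `j1, j2` the others
(the `insert`s may be permuted).
-/

open Finset Pool.Agent.H36.MMS

set_option autoImplicit false

namespace Pool.Agent.MMS15

open Pool.Agent.MMS14

/-- three large negative entries -/
def t3X : XC := ⟨[At.m 800 1000, At.m 800 1000, At.m 1000 1000], 150000⟩

/-- two large positive and two large negative entries -/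
def t4X : List XC := [⟨[At.m 880 1000, At.m 880 1000, At.p 880 1000, At.p 1000 1000], 100000⟩,
  ⟨[At.m 880 1000, At.p 880 1000, At.m 880 1000, At.p 1000 1000], 100000⟩, ⟨[At.p 880 1000, At.m 880 1000, At.m 880 1000, At.p 1000 1000], 100000⟩,
  ⟨[At.p 880 1000, At.p 880 1000, At.m 880 1000, At.m 1000 1000], 100000⟩, ⟨[At.p 880 1000, At.m 880 1000, At.p 880 1000, At.m 1000 1000], 100000⟩,
  ⟨[At.m 880 1000, At.p 880 1000, At.p 880 1000, At.m 1000 1000], 100000⟩]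

variable {α : Type*} [DecidableEq α]

omit [DecidableEq α] in
private theorem mt_three {a1 a2 a3 : At} {x : α → ℝ} {l : List α}
    (h : Mt [a1, a2, a3] (l.map x).reverse) :
    ∃ e1 e2 e3 : α, l = [e1, e2, e3] ∧ Fit a3 (x e1) ∧ Fit a2 (x e2) ∧ Fit a1 (x e3) := by
  unfold Mt at h
  rw [← List.map_reverse] at h
  obtain ⟨r, hr⟩ : ∃ r : List α, l.reverse = r := ⟨_, rfl⟩
  rw [hr] at h
  match r, h with
  | [c1, c2, c3], h =>
    simp only [List.map_cons, List.map_nil, List.forall₂_cons, List.forall₂_nil_left_iff,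
      and_true] at h
    refine ⟨c3, c2, c1, ?_, h.2.2, h.2.1, h.1⟩
    have := congrArg List.reverse hr
    rw [List.reverse_reverse] at this
    rw [this]
    rfl
  | [], h => exact absurd h.length_eq (by simp)
  | [_], h => exact absurd h.length_eq (by simp)
  | [_, _], h => exact absurd h.length_eq (by simp)
  | _ :: _ :: _ :: _ :: _, h => exact absurd h.length_eq (by simp)

omit [DecidableEq α] in
private theorem mt_four {a1 a2 a3 a4 : At} {x : α → ℝ} {l : List α}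
    (h : Mt [a1, a2, a3, a4] (l.map x).reverse) :
    ∃ e1 e2 e3 e4 : α, l = [e1, e2, e3, e4] ∧ Fit a4 (x e1) ∧ Fit a3 (x e2) ∧ Fit a2 (x e3) ∧
      Fit a1 (x e4) := by
  unfold Mt at h
  rw [← List.map_reverse] at h
  obtain ⟨r, hr⟩ : ∃ r : List α, l.reverse = r := ⟨_, rfl⟩
  rw [hr] at h
  match r, h with
  | [c1, c2, c3, c4], h =>
    simp only [List.map_cons, List.map_nil, List.forall₂_cons, List.forall₂_nil_left_iff,
      and_true] at h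
    refine ⟨c4, c3, c2, c1, ?_, h.2.2.2, h.2.2.1, h.2.1, h.1⟩
    have := congrArg List.reverse hr
    rw [List.reverse_reverse] at this
    rw [this]
    rfl
  | [], h => exact absurd h.length_eq (by simp)
  | [_], h => exact absurd h.length_eq (by simp)
  | [_, _], h => exact absurd h.length_eq (by simp)
  | [_, _, _], h => exact absurd h.length_eq (by simp)
  | _ :: _ :: _ :: _ :: _ :: _, h => exact absurd h.length_eq (by simp)

private theorem pm {p1 p2 p3 p4 q : Prop} :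
    ((p1 ∨ p2 ∨ p3 ∨ p4 ∨ q) ↔ (p1 ∨ p3 ∨ p2 ∨ p4 ∨ q)) ∧
    ((p1 ∨ p2 ∨ p3 ∨ p4 ∨ q) ↔ (p1 ∨ p4 ∨ p2 ∨ p3 ∨ q)) ∧
    ((p1 ∨ p2 ∨ p3 ∨ p4 ∨ q) ↔ (p3 ∨ p4 ∨ p1 ∨ p2 ∨ q)) ∧
    ((p1 ∨ p2 ∨ p3 ∨ p4 ∨ q) ↔ (p2 ∨ p4 ∨ p1 ∨ p3 ∨ q)) ∧
    ((p1 ∨ p2 ∨ p3 ∨ p4 ∨ q) ↔ (p2 ∨ p3 ∨ p1 ∨ p4 ∨ q)) := by
  refine ⟨?_, ?_, ?_, ?_, ?_⟩ <;> tauto

private theorem use4 {P0 P1 : ℕ} {vm : List ℕ} (hlow : LowOk P0 P1 vm) (hvm : ∀ v ∈ vm, v ≤ 65536) (hvl : vm.length ≤ 701) {v00 v0 g : ℕ}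
    (hv00 : v00 = vm.getD 0 0) (hv0 : v0 = vm.getD 401 0) (hpair : pairOk g vm = true) (hnum : t4Ok P1 v00 v0 g = true)
    (hP0 : 4090 ≤ P0) (hP1 : P1 ≤ 5205) {Ω R : Finset α} {n k : ℕ} {i1 i2 j1 j2 : α} (x : α → ℝ) (hk : 10 ^ 26 ≤ k) (hkn : k < n)
    (hne : i1 ≠ i2 ∧ i1 ≠ j1 ∧ i1 ≠ j2 ∧ i2 ≠ j1 ∧ i2 ≠ j2 ∧ j1 ≠ j2)
    (hnot : i1 ∉ R ∧ i2 ∉ R ∧ j1 ∉ R ∧ j2 ∉ R)
    (hΩ : ∀ a, a ∈ Ω ↔ a = i1 ∨ a = i2 ∨ a = j1 ∨ a = j2 ∨ a ∈ R) (hR : R.card + 4 = n) (hsum : sg x Ω = 0)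
    (hp0 : ((P0 : ℝ) + 0.1) / 16384 ≤ (k : ℝ) / n) (hp1 : (k : ℝ) / n ≤ ((P1 : ℝ) - 0.1) / 16384)
    (hi1 : 0.88 ≤ x i1 ∧ x i1 ≤ 1) (hi2 : 0.88 ≤ x i2 ∧ x i2 ≤ 1)
    (hj1 : 0.88 ≤ -(x j1) ∧ -(x j1) ≤ 1) (hj2 : 0.88 ≤ -(x j2) ∧ -(x j2) ≤ 1) (hV : ps x 2 R ≤ 0.1) :
    (n - 1).choose (k - 1) ≤ cnt x Ω k 0 := by
  obtain ⟨n1, n2, n3, n4, n5, n6⟩ := hne
  obtain ⟨m1, m2, m3, m4⟩ := hnot
  refine t4 hlow hvm hvl hv00 hv0 hpair hnum hP0 hP1 (i1 := i1) (i2 := i2) (j1 := j1) (j2 := j2)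
    (R := R) x hk hkn m4 ?_ ?_ ?_ ?_ hR hsum hp0 hp1 hi1 hi2 hj1 hj2 hV
  · simp only [mem_insert, not_or]
    exact ⟨n6, m3⟩
  · simp only [mem_insert, not_or]
    exact ⟨n4, n5, m2⟩
  · simp only [mem_insert, not_or]
    exact ⟨n1, n2, n3, m1⟩
  · ext a
    simp only [mem_insert]
    exact hΩ a

theorem non_xc {P0 P1 : ℕ} {vm : List ℕ} (hlow : LowOk P0 P1 vm) (hvm : ∀ v ∈ vm, v ≤ 65536) (hvl : vm.length ≤ 701) {v00 v0 g : ℕ}
    (hv00 : v00 = vm.getD 0 0) (hv0 : v0 = vm.getD 401 0) (hpair : pairOk g vm = true) (hnum : t4Ok P1 v00 v0 g = true)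
    (hP0 : 4090 ≤ P0) (hP1 : P1 ≤ 5205) {xs : List XC} (hxs : ∀ X ∈ xs, X ∈ t4X ∨ (X = t3X ∧ 5140 ≤ P0))
    {Ω : Finset α} {n k : ℕ} {es : List α} (x : α → ℝ) (hk : 10 ^ 26 ≤ k) (hkn : k < n) (hΩ : Ω.card = n)
    (hn : es.Nodup) (he : es.toFinset = Ω) (hsum : sg x Ω = 0)
    (hp0 : ((P0 : ℝ) + 0.1) / 16384 ≤ (k : ℝ) / n) (hp1 : (k : ℝ) / n ≤ ((P1 : ℝ) - 0.1) / 16384)
    (hNk : (n - 1).choose (k - 1) ≤ (n - 3).choose k) (hexc : Exc xs (es.map x)) :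
    (n - 1).choose (k - 1) ≤ cnt x Ω k 0 := by
  obtain ⟨X, hX, es1, es2, rfl, hm, hV⟩ := exc_elems hexc
  have hn1 := hn
  rw [List.nodup_append] at hn1
  obtain ⟨hd1, hd2, hdis⟩ := hn1
  have hss : ss (es2.map x) = ps x 2 es2.toFinset := ss_enum hd2 rfl x
  have hlen : (es1 ++ es2).length = n := by
    rw [← hΩ, ← he, List.toFinset_card_of_nodup hn]
  have hcard : es2.toFinset.card = es2.length := List.toFinset_card_of_nodup hd2
  rw [hss] at hV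
  rcases hxs X hX with hX4 | ⟨rfl, hP5⟩
  · -- four large entries
    have hmain : ∀ a1 a2 a3 a4 : At, X = ⟨[a1, a2, a3, a4], 100000⟩ →
        ∃ e1 e2 e3 e4 : α, Fit a4 (x e1) ∧ Fit a3 (x e2) ∧ Fit a2 (x e3) ∧ Fit a1 (x e4) ∧
          (e1 ≠ e2 ∧ e1 ≠ e3 ∧ e1 ≠ e4 ∧ e2 ≠ e3 ∧ e2 ≠ e4 ∧ e3 ≠ e4) ∧
          (e1 ∉ es2.toFinset ∧ e2 ∉ es2.toFinset ∧ e3 ∉ es2.toFinset ∧ e4 ∉ es2.toFinset) ∧
          (∀ a, a ∈ Ω ↔ a = e1 ∨ a = e2 ∨ a = e3 ∨ a = e4 ∨ a ∈ es2.toFinset) ∧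
          es2.toFinset.card + 4 = n ∧ ps x 2 es2.toFinset ≤ 0.1 := by
      rintro a1 a2 a3 a4 rfl
      obtain ⟨e1, e2, e3, e4, rfl, f1, f2, f3, f4⟩ := mt_four hm
      refine ⟨e1, e2, e3, e4, f1, f2, f3, f4, ?_, ?_, ?_, ?_, ?_⟩
      · simp only [List.nodup_cons, List.mem_cons, List.not_mem_nil, or_false, not_or,
          not_false_eq_true, List.nodup_nil, and_true] at hd1
        exact ⟨hd1.1.1, hd1.1.2.1, hd1.1.2.2, hd1.2.1.1, hd1.2.1.2, hd1.2.2⟩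
      · simp only [List.mem_toFinset]
        refine ⟨fun h => hdis e1 (by simp) e1 h rfl, fun h => hdis e2 (by simp) e2 h rfl,
          fun h => hdis e3 (by simp) e3 h rfl, fun h => hdis e4 (by simp) e4 h rfl⟩
      · intro a
        rw [← he]
        simp [List.mem_toFinset]
      · rw [hcard, ← hlen]
        simp only [List.length_append, List.length_cons, List.length_nil]
        omega
      · push_cast at hV
        linarith
    rcases List.mem_cons.1 hX4 with h | hX4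
    · obtain ⟨e1, e2, e3, e4, f1, f2, f3, f4, hne, ⟨o1, o2, o3, o4⟩, hmem, hc, hv⟩ := hmain _ _ _ _ h
      simp only [Fit] at f1 f2 f3 f4
      refine use4 hlow hvm hvl hv00 hv0 hpair hnum hP0 hP1 (i1 := e1) (i2 := e2) (j1 := e3)
        (j2 := e4) x hk hkn hne ⟨o1, o2, o3, o4⟩ hmem hc hsum hp0 hp1
        ?_ ?_ ?_ ?_ hv <;> constructor <;> norm_num at f1 f2 f3 f4 ⊢ <;> linarith
    rcases List.mem_cons.1 hX4 with h | hX4
    · obtain ⟨e1, e2, e3, e4, f1, f2, f3, f4, hne, ⟨o1, o2, o3, o4⟩, hmem, hc, hv⟩ := hmain _ _ _ _ h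
      simp only [Fit] at f1 f2 f3 f4
      refine use4 hlow hvm hvl hv00 hv0 hpair hnum hP0 hP1 (i1 := e1) (i2 := e3) (j1 := e2)
        (j2 := e4) x hk hkn ?_ ⟨o1, o3, o2, o4⟩ (fun a => (hmem a).trans pm.1) hc hsum hp0 hp1
        ?_ ?_ ?_ ?_ hv
      · obtain ⟨n1, n2, n3, n4, n5, n6⟩ := hne
        exact ⟨n2, n1, n3, n4.symm, n6, n5⟩
      all_goals constructor <;> norm_num at f1 f2 f3 f4 ⊢ <;> linarith
    rcases List.mem_cons.1 hX4 with h | hX4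
    · obtain ⟨e1, e2, e3, e4, f1, f2, f3, f4, hne, ⟨o1, o2, o3, o4⟩, hmem, hc, hv⟩ := hmain _ _ _ _ h
      simp only [Fit] at f1 f2 f3 f4
      refine use4 hlow hvm hvl hv00 hv0 hpair hnum hP0 hP1 (i1 := e1) (i2 := e4) (j1 := e2)
        (j2 := e3) x hk hkn ?_ ⟨o1, o4, o2, o3⟩ (fun a => (hmem a).trans pm.2.1) hc hsum hp0 hp1
        ?_ ?_ ?_ ?_ hv
      · obtain ⟨n1, n2, n3, n4, n5, n6⟩ := hne
        exact ⟨n3, n1, n2, n5.symm, n6.symm, n4⟩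
      all_goals constructor <;> norm_num at f1 f2 f3 f4 ⊢ <;> linarith
    rcases List.mem_cons.1 hX4 with h | hX4
    · obtain ⟨e1, e2, e3, e4, f1, f2, f3, f4, hne, ⟨o1, o2, o3, o4⟩, hmem, hc, hv⟩ := hmain _ _ _ _ h
      simp only [Fit] at f1 f2 f3 f4
      refine use4 hlow hvm hvl hv00 hv0 hpair hnum hP0 hP1 (i1 := e3) (i2 := e4) (j1 := e1)
        (j2 := e2) x hk hkn ?_ ⟨o3, o4, o1, o2⟩ (fun a => (hmem a).trans pm.2.2.1) hc hsum hp0 hp1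
        ?_ ?_ ?_ ?_ hv
      · obtain ⟨n1, n2, n3, n4, n5, n6⟩ := hne
        exact ⟨n6, n2.symm, n4.symm, n3.symm, n5.symm, n1⟩
      all_goals constructor <;> norm_num at f1 f2 f3 f4 ⊢ <;> linarith
    rcases List.mem_cons.1 hX4 with h | hX4
    · obtain ⟨e1, e2, e3, e4, f1, f2, f3, f4, hne, ⟨o1, o2, o3, o4⟩, hmem, hc, hv⟩ := hmain _ _ _ _ h
      simp only [Fit] at f1 f2 f3 f4
      refine use4 hlow hvm hvl hv00 hv0 hpair hnum hP0 hP1 (i1 := e2) (i2 := e4) (j1 := e1)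
        (j2 := e3) x hk hkn ?_ ⟨o2, o4, o1, o3⟩ (fun a => (hmem a).trans pm.2.2.2.1) hc hsum hp0 hp1
        ?_ ?_ ?_ ?_ hv
      · obtain ⟨n1, n2, n3, n4, n5, n6⟩ := hne
        exact ⟨n5, n1.symm, n4, n3.symm, n6.symm, n2⟩
      all_goals constructor <;> norm_num at f1 f2 f3 f4 ⊢ <;> linarith
    rcases List.mem_cons.1 hX4 with h | hX4
    · obtain ⟨e1, e2, e3, e4, f1, f2, f3, f4, hne, ⟨o1, o2, o3, o4⟩, hmem, hc, hv⟩ := hmain _ _ _ _ h
      simp only [Fit] at f1 f2 f3 f4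
      refine use4 hlow hvm hvl hv00 hv0 hpair hnum hP0 hP1 (i1 := e2) (i2 := e3) (j1 := e1)
        (j2 := e4) x hk hkn ?_ ⟨o2, o3, o1, o4⟩ (fun a => (hmem a).trans pm.2.2.2.2) hc hsum hp0 hp1
        ?_ ?_ ?_ ?_ hv
      · obtain ⟨n1, n2, n3, n4, n5, n6⟩ := hne
        exact ⟨n4, n1.symm, n5, n2.symm, n6, n3⟩
      all_goals constructor <;> norm_num at f1 f2 f3 f4 ⊢ <;> linarith
    exact absurd hX4 List.not_mem_nil
  · -- three large negative entries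
    obtain ⟨e1, e2, e3, rfl, f1, f2, f3⟩ := mt_three (a1 := At.m 800 1000) (a2 := At.m 800 1000)
      (a3 := At.m 1000 1000) hm
    simp only [Fit] at f1 f2 f3
    simp only [List.nodup_cons, List.mem_cons, List.not_mem_nil, or_false, not_or,
      not_false_eq_true, List.nodup_nil, and_true] at hd1
    have m1 : e1 ∉ es2.toFinset := fun h => hdis e1 (by simp) e1 (List.mem_toFinset.1 h) rfl
    have m2 : e2 ∉ es2.toFinset := fun h => hdis e2 (by simp) e2 (List.mem_toFinset.1 h) rfl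
    have m3 : e3 ∉ es2.toFinset := fun h => hdis e3 (by simp) e3 (List.mem_toFinset.1 h) rfl
    have hkR : (0 : ℝ) < k := by
      have : 0 < k := lt_of_lt_of_le (by norm_num) hk
      exact_mod_cast this
    have hnR : (0 : ℝ) < n := by
      have : 0 < n := lt_of_le_of_lt (Nat.zero_le _) hkn
      exact_mod_cast this
    have hnk : (0 : ℝ) < (n : ℝ) - k := by
      have : (k : ℝ) < n := by exact_mod_cast hkn
      linarith
    have hP0' : (5140 : ℝ) ≤ P0 := by exact_mod_cast hP5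
    have hP1' : (P1 : ℝ) ≤ 5205 := by exact_mod_cast hP1
    rw [div_le_div_iff₀ (by norm_num) hnR] at hp0
    rw [div_le_div_iff₀ hnR (by norm_num)] at hp1
    refine t3 (R := es2.toFinset) (j1 := e1) (j2 := e2) (j3 := e3) x hk hkn m3 ?_ ?_ ?_ ?_ hsum
      ?_ ?_ ?_ ?_ ?_ ?_ hNk
    · simp only [mem_insert, not_or]
      exact ⟨hd1.2, m2⟩
    · simp only [mem_insert, not_or]
      exact ⟨hd1.1.1, hd1.1.2, m1⟩
    · rw [← he]
      ext a
      simp [List.mem_toFinset]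
    · rw [hcard, ← hlen]
      simp only [List.length_append, List.length_cons, List.length_nil]
      omega
    · rw [le_div_iff₀ hnk]
      nlinarith
    · rw [div_le_iff₀ hnk]
      nlinarith
    · constructor <;> norm_num at f1 ⊢ <;> linarith
    · constructor <;> norm_num at f2 ⊢ <;> linarith
    · constructor <;> norm_num at f3 ⊢ <;> linarith
    · have : (t3X.V : ℝ) = 150000 := by norm_num [t3X]
      rw [this] at hV
      linarith

end Pool.Agent.MMS15
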