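import Pool.Agent.MMS15.BoxD
import Pool.Agent.MMS14.StarLow

/-!
# MMS15/PwDefs: numeric checks for the charging lemmas (star regime), definitions only

A hat table (format of `MMS14`) gives `vs`, 201 numbers: `vs_m / 2^16` is a lower bound of `Pr` for the threshold `(1 - m) / 50` standard deviations, for
all lists and all `p ∈ [Q0, Q1] / 2^14`; `π_m = (vs_m - 8) / 2^16` (`vs_200` for `m > 200`), `ws_m / 2^20 ≥ √((1 - π_m) / π_m)`.
-/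

set_option autoImplicit false

namespace Pool.Agent.MMS15

open Pool.Agent.MMS14

/-- `2^16 π_m` -/
noncomputable def hv (vs : List ℕ) (m : ℕ) : ℕ := Nat.sub (hd0 (dr (mn m 200) vs)) 8

/-- `2^20` times an upper bound of `√((1 - π_m) / π_m)` -/
noncomputable def hw (ws : List ℕ) (m : ℕ) : ℕ := hd0 (dr (mn m 200) ws)

/-- the check of `ws` -/
noncomputable def wOk (vs ws : List ℕ) : Bool :=
  allb 201 (fun m => et (Nat.blt 0 (hv vs m))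
    (Nat.ble (Nat.mul 1099511627776 (Nat.sub 65536 (hv vs m))) (Nat.mul (Nat.mul (hw ws m) (hw ws m)) (hv vs m))))

/-- `2^16` times a lower bound for the auxiliary family (`f = true`), `0` otherwise -/
noncomputable def vD (vs : List ℕ) (f : Bool) (mb m : ℕ) : ℕ :=
  cond f (cond (Nat.ble (Nat.succ mb) m) (hv vs (Nat.sub m (Nat.succ mb))) 0) 0

/-- `κ π_m (1 + g²) + v_D ≥ 1`, `g = c / 2^20 - Q1 / 2^14 (m2 / 50 + w_m / 2^20)` (`0` if negative), `κ = kap / 2^16` -/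
noncomputable def pwT (Q1 : ℕ) (vs ws : List ℕ) (f : Bool) (c kap mb m m2 : ℕ) : Bool :=
  (fun g => Nat.ble 4722366482869645213696
    (Nat.add (Nat.mul (Nat.mul kap (hv vs m)) (Nat.add 1099511627776 (Nat.mul g g))) (Nat.mul (vD vs f mb m) 72057594037927936)))
  (Nat.sub c (Nat.succ (Nat.div (Nat.mul Q1 (Nat.add (Nat.mul 1048576 m2) (Nat.mul 50 (hw ws m)))) 819200)))

/-- `κ π_m + v_D ≥ 1` -/
noncomputable def pwE (vs : List ℕ) (f : Bool) (kap mb m : ℕ) : Bool :=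
  Nat.ble 4722366482869645213696
    (Nat.add (Nat.mul (Nat.mul kap (hv vs m)) 1099511627776) (Nat.mul (vD vs f mb m) 72057594037927936))

/-- the checks for the steps `m, ms_0, ms_1, ..` -/
noncomputable def pwL (Q1 : ℕ) (vs ws : List ℕ) (f : Bool) (c kap mb : ℕ) (ms : List ℕ) : ℕ → Bool :=
  List.rec (motive := fun _ => ℕ → Bool) (fun m => pwE vs f kap mb m)
    (fun m2 _ ih m => et (pwT Q1 vs ws f c kap mb m m2) (ih m2)) ms

/-- the case without large negative entries, `V` in units `10^-6` -/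
noncomputable def a1Ok (Q1 : ℕ) (vs ws : List ℕ) (V c kap : ℕ) (ms : List ℕ) : Bool :=
  et (Nat.ble (Nat.mul (Nat.mul c c) (Nat.mul (Nat.mul 10001 Q1) V)) (Nat.mul 10995116277760000000000 (Nat.sub 16384 Q1)))
    (et (Nat.ble (Nat.mul kap Q1) 1073741824) (pwL Q1 vs ws false c kap 0 ms 0))

/-- data for one large negative entry `- b`, `b ∈ [blo, bhi] / 1000`, the rest at most `V / 10^6` -/
structure S1 where
  (blo bhi V c1 k1 : ℕ) (ms1 : List ℕ) (c2 k2 m0 mb : ℕ) (ms2 : List ℕ)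

/-- `10^10 2^28 v`, `v = 1.0001 Q1 / 2^14 (1 - Q1 / 2^14) V / 10^6` -/
def dV (Q1 V : ℕ) : ℕ := Nat.mul (Nat.mul (Nat.mul 10001 Q1) (Nat.sub 16384 Q1)) V

/-- the checks for one large negative entry -/
noncomputable def b1Ok (Q0 Q1 : ℕ) (vs ws : List ℕ) (s : S1) : Bool :=
  et (Nat.blt 0 s.V) (et
  (Nat.ble (Nat.mul (Nat.mul s.c1 s.c1) (Nat.mul (Nat.mul 10001 Q1) s.V))
    (Nat.mul 10995116277760000 (Nat.mul (Nat.mul (Nat.sub 1000 s.bhi) (Nat.sub 1000 s.bhi)) (Nat.sub 16384 Q1)))) (et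
  (Nat.ble (Nat.mul (Nat.mul s.c2 s.c2) (dV Q1 s.V))
    (Nat.mul 10995116277760000 (Nat.mul (Nat.sub 16384000 (Nat.mul Q1 (Nat.sub 1000 s.blo)))
      (Nat.sub 16384000 (Nat.mul Q1 (Nat.sub 1000 s.blo)))))) (et
  (Nat.ble (Nat.mul (Nat.mul s.m0 s.m0) (dV Q1 s.V)) (Nat.mul 25000000 (Nat.mul (Nat.mul Q0 s.blo) (Nat.mul Q0 s.blo)))) (et
  (Nat.ble (Nat.mul 6710886400000000 (Nat.mul s.bhi s.bhi)) (Nat.mul (Nat.mul s.mb s.mb) (dV Q1 s.V))) (et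
  (Nat.ble (Nat.add (Nat.mul s.k1 (Nat.mul Q1 Q1)) (Nat.mul (Nat.mul s.k2 Q1) 16384)) 17592186044416) (et
  (pwL Q1 vs ws false s.c1 s.k1 0 s.ms1 0) (pwL Q1 vs ws true s.c2 s.k2 s.mb s.ms2 s.m0)))))))

/-- data for two large negative entries `- b1`, `- b2`, the rest at most `V / 10^6` -/
structure S2 where
  (b1lo b1hi b2lo b2hi V k12 : ℕ) (ms12 : List ℕ) (ca ka ma : ℕ) (msa : List ℕ) (cb kb mc : ℕ) (msb : List ℕ)
  (c0 k0 m0 mb : ℕ) (ms0 : List ℕ)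

/-- the checks for two large negative entries -/
noncomputable def b2Ok (Q0 Q1 : ℕ) (vs ws : List ℕ) (s : S2) : Bool :=
  et (Nat.blt 0 s.V) (et
  -- `A` for the sets with `b1`: `min ((1 - b1) , (1 - b1) (1 - P) + P b2)`
  (Nat.ble (Nat.mul (Nat.mul s.ca s.ca) (dV Q1 s.V)) (Nat.mul 10995116277760000
    (Nat.mul (mn (Nat.mul (Nat.sub 1000 s.b1hi) 16384) (Nat.add (Nat.mul (Nat.sub 1000 s.b1hi) (Nat.sub 16384 Q1)) (Nat.mul Q1 s.b2lo)))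
      (mn (Nat.mul (Nat.sub 1000 s.b1hi) 16384) (Nat.add (Nat.mul (Nat.sub 1000 s.b1hi) (Nat.sub 16384 Q1)) (Nat.mul Q1 s.b2lo)))))) (et
  (Nat.ble (Nat.mul (Nat.mul s.cb s.cb) (dV Q1 s.V)) (Nat.mul 10995116277760000
    (Nat.mul (mn (Nat.mul (Nat.sub 1000 s.b2hi) 16384) (Nat.add (Nat.mul (Nat.sub 1000 s.b2hi) (Nat.sub 16384 Q1)) (Nat.mul Q1 s.b1lo)))
      (mn (Nat.mul (Nat.sub 1000 s.b2hi) 16384) (Nat.add (Nat.mul (Nat.sub 1000 s.b2hi) (Nat.sub 16384 Q1)) (Nat.mul Q1 s.b1lo)))))) (et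
  -- `A` for the sets without `b1`, `b2`: `1 - P max(0, 1 - b1 - b2)`
  (Nat.ble (Nat.mul (Nat.mul s.c0 s.c0) (dV Q1 s.V)) (Nat.mul 10995116277760000
    (Nat.mul (Nat.sub 16384000 (Nat.mul Q1 (Nat.sub 1000 (Nat.add s.b1lo s.b2lo))))
      (Nat.sub 16384000 (Nat.mul Q1 (Nat.sub 1000 (Nat.add s.b1lo s.b2lo))))))) (et
  (Nat.ble (Nat.mul (Nat.mul s.ma s.ma) (dV Q1 s.V)) (Nat.mul 25000000 (Nat.mul (Nat.mul Q0 s.b2lo) (Nat.mul Q0 s.b2lo)))) (et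
  (Nat.ble (Nat.mul (Nat.mul s.mc s.mc) (dV Q1 s.V)) (Nat.mul 25000000 (Nat.mul (Nat.mul Q0 s.b1lo) (Nat.mul Q0 s.b1lo)))) (et
  (Nat.ble (Nat.mul (Nat.mul s.m0 s.m0) (dV Q1 s.V)) (Nat.mul 25000000
    (Nat.mul (Nat.mul Q0 (Nat.add s.b1lo s.b2lo)) (Nat.mul Q0 (Nat.add s.b1lo s.b2lo))))) (et
  (Nat.ble (Nat.mul 6710886400000000 (Nat.mul s.b1hi s.b1hi)) (Nat.mul (Nat.mul s.mb s.mb) (dV Q1 s.V))) (et
  (Nat.ble (Nat.add (Nat.mul s.k12 (Nat.mul Q1 (Nat.mul Q1 Q1))) (Nat.add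
    (Nat.mul (Nat.mul (Nat.add s.ka s.kb) (Nat.mul Q1 Q1)) 16384) (Nat.mul (Nat.mul s.k0 Q1) 268435456))) 288230376151711744) (et
  (pwL Q1 vs ws false 0 s.k12 0 s.ms12 0) (et (pwL Q1 vs ws false s.ca s.ka 0 s.msa s.ma) (et
  (pwL Q1 vs ws false s.cb s.kb 0 s.msb s.mc) (pwL Q1 vs ws true s.c0 s.k0 s.mb s.ms0 s.m0))))))))))))

/-- the exceptional boxes that belong to the data -/
def S1.xc (s : S1) : XC := ⟨[At.m s.blo s.bhi, At.p 1000 1000], s.V⟩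
def S2.xc (s : S2) : XC := ⟨[At.m s.b2lo s.b2hi, At.m s.b1lo s.b1hi, At.p 1000 1000], s.V⟩

end Pool.Agent.MMS15
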