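import Pool.Agent.MMS15.ChgH
import Pool.Agent.MMS15.Cnt

/-!
# MMS15/StA: the star regime without large negative entries

`N = |R| = n - 1`, `sg x R = -1`.  `charge_hat` with `a = k - 1`, `M = n - 2 k` (`N = M + a + k`), `f = false`, `m0 = 0`, `mb = 0`, `A0 = -1`, `A = 1 - Q`, `Q = Q1/2^14`,
`V / 10^6`; `a1Ok` gives `c / 2^20 * s ≤ 1 - Q` (square: `c² 1.0001 Q (V/10^6) ≤ 2^40 (1 - Q)`), `κ Q ≤ 1`.
Rates: `k / (M + a) = k / (n - k - 1) ≤ Q1/2^14` from `hP1` (room `1/2^14`, `k ≥ 10^26`), `a / (M + k) = (k - 1) / (n - k) ≥ Q0/2^14` from `hP0`.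
So `bad x R (k-1) (-1) ≤ κ (k/(n-k)) cnt x R k 0 ≤ cnt x R k 0`.  `cnt_insert` (`k = (k - 1) + 1`): `cnt x (insert a0 R) k 0 = cnt x R k 0 + cnt x R (k - 1) (0 - 1)`, `cnt_add_bad`:
`= cnt x R k 0 + C(n - 1, k - 1) - bad`.
`rates`: useful for `StB`, `StC` too.
-/

open Finset Pool.Agent.H36.MMS

set_option autoImplicit false

namespace Pool.Agent.MMS15

open Pool.Agent.MMS14

/-- comparison of squares -/
theorem sq_cmp {c s A : ℝ} (hc : 0 ≤ c) (hs : 0 ≤ s) (hA : 0 ≤ A) (h : c ^ 2 * s ^ 2 ≤ A ^ 2) : c * s ≤ A := by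
  rw [← mul_pow] at h
  exact (pow_le_pow_iff_left₀ (mul_nonneg hc hs) hA two_ne_zero).1 h

theorem et_true2 {a b : Bool} (h : et a b = true) : a = true ∧ b = true := by
  cases a
  · exact absurd h (by simp [et])
  · exact ⟨rfl, h⟩

theorem rates {Q0 Q1 n k : ℕ} (hQ0 : 3277 ≤ Q0) (hQ1 : Q1 ≤ 8192) (hk : 10 ^ 26 ≤ k) (hkn : k < n)
    (hP0 : ((Q0 : ℝ) + 1) / 16384 ≤ (k : ℝ) / ((n : ℝ) - k)) (hP1 : (k : ℝ) / ((n : ℝ) - k) ≤ ((Q1 : ℝ) - 1) / 16384) :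
    3 * k ≤ n ∧ (Q0 : ℝ) / 16384 ≤ ((k : ℝ) - 3) / ((n : ℝ) - k + 3) ∧ (k : ℝ) / ((n : ℝ) - k - 3) ≤ (Q1 : ℝ) / 16384 := by
  have hd : (0 : ℝ) < (n : ℝ) - k := by
    have h : (k : ℝ) < n := by exact_mod_cast hkn
    linarith
  have hkr : (10 ^ 26 : ℝ) ≤ (k : ℝ) := by exact_mod_cast hk
  have hk6 : (1000000 : ℝ) ≤ (k : ℝ) := le_trans (by norm_num) hkr
  have hQ1r : (Q1 : ℝ) ≤ 8192 := by exact_mod_cast hQ1
  have hQ0r : (3277 : ℝ) ≤ (Q0 : ℝ) := by exact_mod_cast hQ0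
  set d : ℝ := (n : ℝ) - k with hdd
  rw [div_le_div_iff₀ hd (by norm_num)] at hP1
  rw [div_le_div_iff₀ (by norm_num) hd] at hP0
  have h2k : 2 * (k : ℝ) ≤ d := by
    have h1 : ((Q1 : ℝ) - 1) * d ≤ 8191 * d := mul_le_mul_of_nonneg_right (by linarith) hd.le
    linarith
  have hQd : (Q1 : ℝ) * d = ((Q1 : ℝ) - 1) * d + d := by ring
  have hQd0 : (Q0 : ℝ) * d = ((Q0 : ℝ) + 1) * d - d := by ring
  have hQ0u : (Q0 : ℝ) ≤ 8192 := by
    by_contra hcon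
    push Not at hcon
    have h1 : 8193 * d ≤ ((Q0 : ℝ) + 1) * d := mul_le_mul_of_nonneg_right (by linarith) hd.le
    linarith
  refine ⟨?_, ?_, ?_⟩
  · have h3 : (3 : ℝ) * k ≤ n := by linarith
    exact_mod_cast h3
  · rw [div_le_div_iff₀ (by norm_num) (by linarith)]
    have e : (Q0 : ℝ) * (d + 3) = Q0 * d + 3 * Q0 := by ring
    rw [e]
    linarith
  · rw [div_le_div_iff₀ (by linarith) (by norm_num)]
    have e : (Q1 : ℝ) * (d - 3) = Q1 * d - 3 * Q1 := by ring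
    rw [e]
    linarith

variable {α : Type*} [DecidableEq α]

theorem star_a {Q0 Q1 : ℕ} {vs ws : List ℕ} (hlow : StarLowOk Q0 Q1 vs) (hvl : vs.length = 201)
    (hvs : ∀ v ∈ vs, v ≤ 65536) (hws : wOk vs ws = true) (hQ5 : 3277 ≤ Q0) (hQ1 : Q1 ≤ 8192)
    {V c kap : ℕ} {ms : List ℕ} (hV0 : 0 < V) (hchk : a1Ok Q1 vs ws V c kap ms = true)
    {R : Finset α} {n k : ℕ} {a0 : α} (x : α → ℝ) (hk : 10 ^ 26 ≤ k) (hkn : k < n) (ha0 : a0 ∉ R) (hR : R.card + 1 = n)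
    (hxa : x a0 = 1) (hsum : sg x R = -1)
    (hP0 : ((Q0 : ℝ) + 1) / 16384 ≤ (k : ℝ) / ((n : ℝ) - k)) (hP1 : (k : ℝ) / ((n : ℝ) - k) ≤ ((Q1 : ℝ) - 1) / 16384)
    (hV : ps x 2 R ≤ (V : ℝ) / 1000000) :
    (n - 1).choose (k - 1) ≤ cnt x (insert a0 R) k 0 := by
  classical
  obtain ⟨h3k, hr0, hr1⟩ := rates hQ5 hQ1 hk hkn hP0 hP1
  have hk1 : 1 ≤ k := le_trans (by norm_num) hk
  have hk20 : 10 ^ 20 ≤ k := le_trans (by norm_num) hk
  have hk300 : 300 ≤ k := le_trans (by norm_num) hk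
  have hkr : (300 : ℝ) ≤ (k : ℝ) := by exact_mod_cast hk300
  have h3kr : (3 : ℝ) * k ≤ n := by exact_mod_cast h3k
  -- the checks
  obtain ⟨hc1, hc2⟩ := et_true2 hchk
  obtain ⟨hc2, hpw⟩ := et_true2 hc2
  have hc1' := Nat.le_of_ble_eq_true hc1
  have hc2' := Nat.le_of_ble_eq_true hc2
  have hQle : Q1 ≤ 16384 := hQ1.trans (by norm_num)
  have hc1r : (c : ℝ) * c * (10001 * Q1 * V) ≤ 10995116277760000000000 * (16384 - Q1) := by
    have h : c * c * (10001 * Q1 * V) ≤ 10995116277760000000000 * (16384 - Q1) := hc1'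
    have h' := (Nat.cast_le (α := ℝ)).2 h
    push_cast [Nat.cast_sub hQle] at h'
    linarith
  have hc2r : (kap : ℝ) * Q1 ≤ 1073741824 := by
    have h : kap * Q1 ≤ 1073741824 := hc2'
    exact_mod_cast h
  set Q : ℝ := (Q1 : ℝ) / 16384 with hQdef
  have hQ12 : Q ≤ 1 / 2 := by
    have h : (Q1 : ℝ) ≤ 8192 := by exact_mod_cast hQ1
    rw [hQdef]
    linarith
  have hQ0 : 0 ≤ Q := by rw [hQdef]; positivity
  have hVr : (0 : ℝ) < (V : ℝ) / 1000000 := by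
    have h : (0 : ℝ) < (V : ℝ) := by exact_mod_cast hV0
    positivity
  obtain ⟨M, hM⟩ : ∃ M, n = M + 2 * k := ⟨n - 2 * k, by omega⟩
  have hMr : (n : ℝ) = M + 2 * k := by rw [hM]; push_cast; ring
  have hkM : (k : ℝ) ≤ M := by linarith
  have hka : ((k - 1 : ℕ) : ℝ) = (k : ℝ) - 1 := by rw [Nat.cast_sub hk1]; push_cast; ring
  set s : ℝ := √(1.0001 * Q * (1 - Q) * ((V : ℝ) / 1000000)) with hs
  have hs2 : s ^ 2 = 1.0001 * Q * (1 - Q) * ((V : ℝ) / 1000000) := Real.sq_sqrt (by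
    have h1 : 0 ≤ 1 - Q := by linarith
    positivity)
  have hch := charge_hat (R := R) (M := M) (a := k - 1) (k := k) hlow hvl hvs hws hQ5 hQ1 x (by omega) (by omega) (by omega) hk20
    (by
      rw [hka]
      refine hr0.trans ?_
      rw [div_le_div_iff₀ (by linarith) (by linarith), hMr]
      nlinarith)
    (by
      rw [hka]
      refine le_trans ?_ hr1
      rw [hMr]
      apply div_le_div_of_nonneg_left (by linarith) (by linarith)
      linarith)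
    (V := (V : ℝ) / 1000000) (s := s) hVr hV hs hpw (by
      have h : k - (k - 1) = 1 := by omega
      rw [h]
      omega) (A := 1 - Q) (A0 := -1) (δ := 0) (by
      rw [max_eq_right (by linarith)]
      apply sq_cmp (by positivity) (Real.sqrt_nonneg _) (by linarith)
      rw [hs2, hQdef]
      have h1 : 0 ≤ 1 - Q := by linarith
      rw [hQdef] at h1
      have h2 : ((c : ℝ) / 1048576) ^ 2 * (1.0001 * ((Q1 : ℝ) / 16384) * (1 - (Q1 : ℝ) / 16384) * ((V : ℝ) / 1000000)) =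
          ((c : ℝ) * c * (10001 * Q1 * V)) / (10995116277760000000000 * 16384) * (1 - (Q1 : ℝ) / 16384) := by ring
      rw [h2]
      have h3 : (1 - (Q1 : ℝ) / 16384) ^ 2 = (10995116277760000000000 * (16384 - Q1)) / (10995116277760000000000 * 16384) * (1 - (Q1 : ℝ) / 16384) := by ring
      rw [h3]
      apply mul_le_mul_of_nonneg_right _ h1
      apply div_le_div_of_nonneg_right hc1r (by norm_num)) (by
      rw [hsum, neg_neg, max_eq_right zero_le_one, hQdef]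
      linarith) (by rw [hsum]) (by rw [hsum]; norm_num) (by intro h; cases h)
  have e1 : k - (k - 1) = 1 := by omega
  rw [e1, pow_one] at hch
  simp only [Bool.false_eq_true, if_false, zero_mul, zero_add] at hch
  have hb : ((bad x R (k - 1) (-1) : ℕ) : ℝ) ≤ (cnt x R k 0 : ℝ) := by
    unfold bad cnt
    refine hch.trans ?_
    have h1 : (kap : ℝ) / 65536 * ((k : ℝ) / ((M : ℝ) + k)) ≤ 1 := by
      have h2 : (k : ℝ) / ((M : ℝ) + k) ≤ Q := by
        refine le_trans ?_ hr1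
        rw [hMr]
        apply div_le_div_of_nonneg_left (by linarith) (by linarith)
        linarith
      refine (mul_le_mul_of_nonneg_left h2 (by positivity)).trans ?_
      rw [hQdef]
      have h3 : (kap : ℝ) / 65536 * ((Q1 : ℝ) / 16384) = (kap : ℝ) * Q1 / 1073741824 := by ring
      rw [h3, div_le_one (by norm_num)]
      exact hc2r
    exact mul_le_of_le_one_left (Nat.cast_nonneg _) h1
  have hb' : bad x R (k - 1) (-1) ≤ cnt x R k 0 := by exact_mod_cast hb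
  obtain ⟨j, rfl⟩ : ∃ j, k = j + 1 := ⟨k - 1, by omega⟩
  rw [cnt_insert x ha0, hxa, zero_sub]
  have h4 := cnt_add_bad x R j (-1)
  have h5 : R.card = n - 1 := by omega
  rw [h5] at h4
  rw [Nat.add_sub_cancel] at hb' ⊢
  omega


/-! ### tools for `StB`, `StC` -/

theorem s2_eq {Q1 V : ℕ} (hQ1 : Q1 ≤ 8192) {s : ℝ}
    (hs : s = √(1.0001 * ((Q1 : ℝ) / 16384) * (1 - (Q1 : ℝ) / 16384) * ((V : ℝ) / 1000000))) :
    0 ≤ s ∧ s ^ 2 = ((dV Q1 V : ℕ) : ℝ) / 2684354560000000000 := by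
  have hQle : Q1 ≤ 16384 := hQ1.trans (by norm_num)
  have h1 : (0 : ℝ) ≤ 1 - (Q1 : ℝ) / 16384 := by
    have h : (Q1 : ℝ) ≤ 8192 := by exact_mod_cast hQ1
    linarith
  refine ⟨by rw [hs]; exact Real.sqrt_nonneg _, ?_⟩
  rw [hs, Real.sq_sqrt (by positivity)]
  have h2 : dV Q1 V = 10001 * Q1 * (16384 - Q1) * V := rfl
  rw [h2]
  push_cast [Nat.cast_sub hQle]
  ring

theorem chk_c {c d X : ℕ} {s : ℝ} (hs0 : 0 ≤ s) (hs2 : s ^ 2 = (d : ℝ) / 2684354560000000000)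
    (h : c * c * d ≤ 10995116277760000 * (X * X)) : (c : ℝ) / 1048576 * s ≤ (X : ℝ) / 16384000 := by
  apply sq_cmp (by positivity) hs0 (by positivity)
  rw [hs2]
  have h' : (c : ℝ) * c * d ≤ 10995116277760000 * (X * X) := by exact_mod_cast h
  have e1 : ((c : ℝ) / 1048576) ^ 2 * ((d : ℝ) / 2684354560000000000) =
      ((c : ℝ) * c * d) / (1099511627776 * 2684354560000000000) := by ring
  have e2 : ((X : ℝ) / 16384000) ^ 2 = (10995116277760000 * (X * X)) / (1099511627776 * 2684354560000000000) := by ring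
  rw [e1, e2]
  exact div_le_div_of_nonneg_right h' (by norm_num)

theorem chk_m {m d Y : ℕ} {s : ℝ} (hs0 : 0 ≤ s) (hs2 : s ^ 2 = (d : ℝ) / 2684354560000000000)
    (h : m * m * d ≤ 25000000 * (Y * Y)) : (m : ℝ) / 50 * s ≤ (Y : ℝ) / 16384000 := by
  apply sq_cmp (by positivity) hs0 (by positivity)
  rw [hs2]
  have h' : (m : ℝ) * m * d ≤ 25000000 * (Y * Y) := by exact_mod_cast h
  have e1 : ((m : ℝ) / 50) ^ 2 * ((d : ℝ) / 2684354560000000000) =
      ((m : ℝ) * m * d) / (2500 * 2684354560000000000) := by ring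
  have e2 : ((Y : ℝ) / 16384000) ^ 2 = (25000000 * (Y * Y)) / (2500 * 2684354560000000000) := by ring
  rw [e1, e2]
  exact div_le_div_of_nonneg_right h' (by norm_num)

theorem chk_b {mb d b : ℕ} {s : ℝ} (hs0 : 0 ≤ s) (hs2 : s ^ 2 = (d : ℝ) / 2684354560000000000)
    (h : 6710886400000000 * (b * b) ≤ mb * mb * d) : (b : ℝ) / 1000 ≤ (mb : ℝ) / 50 * s := by
  have h' : 6710886400000000 * ((b : ℝ) * b) ≤ (mb : ℝ) * mb * d := by exact_mod_cast h
  have h2 : ((b : ℝ) / 1000) ^ 2 ≤ ((mb : ℝ) / 50 * s) ^ 2 := by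
    rw [mul_pow, hs2]
    have e1 : ((mb : ℝ) / 50) ^ 2 * ((d : ℝ) / 2684354560000000000) =
        ((mb : ℝ) * mb * d) / (2500 * 2684354560000000000) := by ring
    have e2 : ((b : ℝ) / 1000) ^ 2 = (6710886400000000 * ((b : ℝ) * b)) / (2500 * 2684354560000000000) := by ring
    rw [e1, e2]
    exact div_le_div_of_nonneg_right h' (by norm_num)
  exact (pow_le_pow_iff_left₀ (by positivity) (mul_nonneg (by positivity) hs0) two_ne_zero).1 h2

/-- `charge_hat` for `|R| = n - i`, `a = k - j`, `1 ≤ j ≤ i ≤ 3` -/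
theorem charge_w {Q0 Q1 : ℕ} {vs ws : List ℕ} (hlow : StarLowOk Q0 Q1 vs) (hvl : vs.length = 201)
    (hvs : ∀ v ∈ vs, v ≤ 65536) (hws : wOk vs ws = true) (hQ5 : 3277 ≤ Q0) (hQ1 : Q1 ≤ 8192)
    {R : Finset α} {n k i j : ℕ} (x : α → ℝ) (hk : 10 ^ 26 ≤ k) (hkn : k < n) (hR : R.card + i = n) (hj : 1 ≤ j) (hji : j ≤ i)
    (hi : i ≤ 3) (hP0 : ((Q0 : ℝ) + 1) / 16384 ≤ (k : ℝ) / ((n : ℝ) - k))
    (hP1 : (k : ℝ) / ((n : ℝ) - k) ≤ ((Q1 : ℝ) - 1) / 16384) {V : ℕ} (hV0 : 0 < V) (hV : ps x 2 R ≤ (V : ℝ) / 1000000) {s : ℝ}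
    (hs : s = √(1.0001 * ((Q1 : ℝ) / 16384) * (1 - (Q1 : ℝ) / 16384) * ((V : ℝ) / 1000000)))
    {f : Bool} {c kap mb m0 : ℕ} {ms : List ℕ} (hpw : pwL Q1 vs ws f c kap mb ms m0 = true)
    (hmb : mb ≤ 1000000) {A A0 δ : ℝ} (hA : (c : ℝ) / 1048576 * s ≤ max 0 A)
    (hA2 : A ≤ -A0 - (Q1 : ℝ) / 16384 * max 0 (-(sg x R))) (hA0 : A0 ≤ sg x R)
    (hm0 : (m0 : ℝ) / 50 * s ≤ (Q0 : ℝ) / 16384 * (sg x R - A0)) (hδ : f = true → δ ≤ (mb : ℝ) / 50 * s) :
    ((bad x R (k - j) A0 : ℕ) : ℝ) ≤ (if f then 1 else 0) * (cnt x R (k - j) δ : ℝ) +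
      (kap : ℝ) / 65536 * ((Q1 : ℝ) / 16384) ^ j * (cnt x R k 0 : ℝ) := by
  obtain ⟨h3k, hr0, hr1⟩ := rates hQ5 hQ1 hk hkn hP0 hP1
  have hk8 : 3100000 ≤ k := le_trans (by norm_num) hk
  have hkr : (3100000 : ℝ) ≤ (k : ℝ) := by exact_mod_cast hk8
  have h3kr : (3 : ℝ) * k ≤ n := by exact_mod_cast h3k
  have hjk : j ≤ k := by omega
  obtain ⟨M, hM⟩ : ∃ M, n = M + (2 * k + (i - j)) := ⟨n - (2 * k + (i - j)), by omega⟩
  have hMr : (n : ℝ) = M + (2 * k + ((i : ℝ) - j)) := by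
    rw [hM]; push_cast [Nat.cast_sub hji]; ring
  have hij0 : (0 : ℝ) ≤ (i : ℝ) - j := by
    have h : (j : ℝ) ≤ i := by exact_mod_cast hji
    linarith
  have hjr : (1 : ℝ) ≤ (j : ℝ) := by exact_mod_cast hj
  have hir : (i : ℝ) ≤ 3 := by exact_mod_cast hi
  have hkM : (k : ℝ) - 3 ≤ M := by linarith
  have hka : ((k - j : ℕ) : ℝ) = (k : ℝ) - j := by rw [Nat.cast_sub hjk]
  have hkj : k - (k - j) = j := by omega
  have hMR : R.card = M + (k - j) + k := by omega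
  have hr1' : (k : ℝ) / ((M : ℝ) + k) ≤ (Q1 : ℝ) / 16384 := by
    refine le_trans ?_ hr1
    apply div_le_div_of_nonneg_left (by linarith) (by linarith)
    linarith
  have hch := charge_hat (R := R) (M := M) (a := k - j) (k := k) hlow hvl hvs hws hQ5 hQ1 x hMR (by omega) (by omega)
    (le_trans (by norm_num) hk)
    (by
      rw [hka]
      refine hr0.trans ?_
      apply div_le_div₀ (by linarith) (by linarith) (by linarith)
      linarith)
    (by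
      rw [hka]
      refine le_trans ?_ hr1
      apply div_le_div_of_nonneg_left (by linarith) (by linarith)
      linarith)
    (V := (V : ℝ) / 1000000) (s := s) (by
      have h : (0 : ℝ) < (V : ℝ) := by exact_mod_cast hV0
      positivity) hV hs hpw (by
      rw [hkj]
      have h1 : (mb + 201) * j ≤ (1000000 + 201) * 3 := Nat.mul_le_mul (by omega) (by omega)
      omega) hA hA2 hA0 hm0 hδ
  rw [hkj] at hch
  unfold bad cnt
  refine hch.trans ?_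
  have h1 : ((k : ℝ) / ((M : ℝ) + k)) ^ j ≤ ((Q1 : ℝ) / 16384) ^ j := pow_le_pow_left₀ (by positivity) hr1' j
  have h2 : (kap : ℝ) / 65536 * ((k : ℝ) / ((M : ℝ) + k)) ^ j ≤ (kap : ℝ) / 65536 * ((Q1 : ℝ) / 16384) ^ j :=
    mul_le_mul_of_nonneg_left h1 (by positivity)
  have h3 := mul_le_mul_of_nonneg_right h2 (Nat.cast_nonneg (α := ℝ) ((R.powersetCard k).filter (fun g => 0 ≤ sg x g)).card)
  linarith

end Pool.Agent.MMS15
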