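import Pool.Agent.MMS15.StA

/-!
# MMS15/StB: the star regime with one large negative entry `x b0 = - b`, `b ∈ [blo, bhi] / 1000`

`|R| = n - 2`, `sg x R = b - 1`, `Q = Q1/2^14`, `P = k/(n - k) ≤ Q` (see `rates`), `V = s.V / 10^6`, `v = 1.0001 Q (1 - Q) V`.
`cnt_insert` twice (`k = (k - 2) + 2`) and `cnt_add_bad`:
`cnt x (insert a0 (insert b0 R)) k 0 = cnt R k 0 + cnt R (k-1) b + (C(n-2,k-1) - bad R (k-1) (-1)) + (C(n-2,k-2) - bad R (k-2) (b-1))`, and `C(n-2,k-1) + C(n-2,k-2) = C(n-1,k-1)`.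
So `bad R (k-1) (-1) + bad R (k-2) (b-1) ≤ cnt R k 0 + cnt R (k-1) b` is needed.
1. `charge_hat` with `a = k - 2`, `M = n - 2 k`, `A0 = b - 1 = sg x R`, `m0 = 0`, `f = false`, `A = (1 - b) - Q max 0 (1 - b)`, `c = c1`, `kap = k1`:
   `c1/2^20 s ≤ max 0 A`: if `b ≤ 1`, `A = (1 - b)(1 - Q) ≥ (1000 - bhi)(1 - Q)/1000` (truncated) and the check for `c1` (square); if `b > 1` then `bhi > 1000`, so `c1 = 0` (`V > 0`, `Q1 > 0`).
   `bad R (k-2) (b-1) ≤ k1/2^16 (k/(n-k))² cnt R k 0`  (`M + k = n - k`).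
2. `charge_hat` with `a = k - 1`, `M = n - 1 - 2 k`, `A0 = -1`, `f = true`, `δ = b`, `mb`, `m0`, `A = 1 - Q max 0 (1 - b)`, `c = c2`, `kap = k2`:
   `bad R (k-1) (-1) ≤ cnt R (k-1) b + k2/2^16 (k/(n-k-1)) cnt R k 0`; the checks give `c2/2^20 s ≤ A`, `(m0/50) s ≤ (Q0/2^14) b`, `b ≤ (mb/50) s`
   (squares; `dV Q1 V = 10^10 2^28 v`).
3. `k1/2^16 Q² + k2/2^16 Q ≤ 1`, `k/(n-k), k/(n-k-1) ≤ Q`.
Rates from `rates`: for `a = k - 2`: `a/(M + k) = (k-2)/(n-k)`, `k/(M + a) = k/(n - k - 2)`; for `a = k - 1`: `(k-1)/(n-1-k)`, `k/(n - 2 - k)`.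
-/

open Finset Pool.Agent.H36.MMS

set_option autoImplicit false

namespace Pool.Agent.MMS15

open Pool.Agent.MMS14

variable {α : Type*} [DecidableEq α]

theorem star_b {Q0 Q1 : ℕ} {vs ws : List ℕ} (hlow : StarLowOk Q0 Q1 vs) (hvl : vs.length = 201)
    (hvs : ∀ v ∈ vs, v ≤ 65536) (hws : wOk vs ws = true) (hQ5 : 3277 ≤ Q0) (hQ1 : Q1 ≤ 8192)
    {s : S1} (hchk : b1Ok Q0 Q1 vs ws s = true) (hmb : s.mb ≤ 1000000)
    {R : Finset α} {n k : ℕ} {a0 b0 : α} (x : α → ℝ) (hk : 10 ^ 26 ≤ k) (hkn : k < n) (hb0 : b0 ∉ R) (ha0 : a0 ∉ insert b0 R)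
    (hR : R.card + 2 = n) (hxa : x a0 = 1) (hsum : sg x R = -(x b0) - 1)
    (hP0 : ((Q0 : ℝ) + 1) / 16384 ≤ (k : ℝ) / ((n : ℝ) - k)) (hP1 : (k : ℝ) / ((n : ℝ) - k) ≤ ((Q1 : ℝ) - 1) / 16384)
    (hb1 : (s.blo : ℝ) / 1000 ≤ -(x b0)) (hb2 : -(x b0) ≤ (s.bhi : ℝ) / 1000) (hV : ps x 2 R ≤ (s.V : ℝ) / 1000000) :
    (n - 1).choose (k - 1) ≤ cnt x (insert a0 (insert b0 R)) k 0 := by
  classical
  obtain ⟨h3k, -, -⟩ := rates hQ5 hQ1 hk hkn hP0 hP1
  have hk8 : 3100000 ≤ k := le_trans (by norm_num) hk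
  -- the checks
  obtain ⟨hc0, hchk⟩ := et_true2 hchk
  obtain ⟨hc1, hchk⟩ := et_true2 hchk
  obtain ⟨hc2, hchk⟩ := et_true2 hchk
  obtain ⟨hc3, hchk⟩ := et_true2 hchk
  obtain ⟨hc4, hchk⟩ := et_true2 hchk
  obtain ⟨hc5, hchk⟩ := et_true2 hchk
  obtain ⟨hpw1, hpw2⟩ := et_true2 hchk
  have hV0 : 0 < s.V := Nat.le_of_ble_eq_true hc0
  have g1 : s.c1 * s.c1 * (10001 * Q1 * s.V) ≤ 10995116277760000 * ((1000 - s.bhi) * (1000 - s.bhi) * (16384 - Q1)) :=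
    Nat.le_of_ble_eq_true hc1
  have g2 : s.c2 * s.c2 * dV Q1 s.V ≤ 10995116277760000 * ((16384000 - Q1 * (1000 - s.blo)) * (16384000 - Q1 * (1000 - s.blo))) :=
    Nat.le_of_ble_eq_true hc2
  have g3 : s.m0 * s.m0 * dV Q1 s.V ≤ 25000000 * ((Q0 * s.blo) * (Q0 * s.blo)) := Nat.le_of_ble_eq_true hc3
  have g4 : 6710886400000000 * (s.bhi * s.bhi) ≤ s.mb * s.mb * dV Q1 s.V := Nat.le_of_ble_eq_true hc4
  have g5 : s.k1 * (Q1 * Q1) + s.k2 * Q1 * 16384 ≤ 17592186044416 := Nat.le_of_ble_eq_true hc5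
  have hQle : Q1 ≤ 16384 := hQ1.trans (by norm_num)
  have hQ1r : (Q1 : ℝ) ≤ 8192 := by exact_mod_cast hQ1
  set b : ℝ := -(x b0) with hb
  have hsumR : sg x R = b - 1 := by rw [hsum]
  obtain ⟨σ, hσ⟩ : ∃ σ : ℝ, σ = √(1.0001 * ((Q1 : ℝ) / 16384) * (1 - (Q1 : ℝ) / 16384) * ((s.V : ℝ) / 1000000)) := ⟨_, rfl⟩
  obtain ⟨hσ0, hσ2⟩ := s2_eq hQ1 hσ
  have hQr0 : (0 : ℝ) ≤ (Q1 : ℝ) / 16384 := by positivity
  have hQr1 : (Q1 : ℝ) / 16384 ≤ 1 / 2 := by linarith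
  -- the sets with `b0`
  have hch1 := charge_w (R := R) (i := 2) (j := 2) hlow hvl hvs hws hQ5 hQ1 x hk hkn hR (by norm_num) le_rfl (by norm_num) hP0 hP1
    hV0 hV hσ hpw1 (Nat.zero_le _) (A := (1 - b) - (Q1 : ℝ) / 16384 * max 0 (1 - b)) (A0 := b - 1) (δ := 0)
    (by
      have h1 : s.c1 * s.c1 * dV Q1 s.V ≤ 10995116277760000 * (((1000 - s.bhi) * (16384 - Q1)) * ((1000 - s.bhi) * (16384 - Q1))) := by
        have e1 : s.c1 * s.c1 * dV Q1 s.V = s.c1 * s.c1 * (10001 * Q1 * s.V) * (16384 - Q1) := by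
          have h2 : dV Q1 s.V = 10001 * Q1 * (16384 - Q1) * s.V := rfl
          rw [h2]
          ring
        have e2 : 10995116277760000 * (((1000 - s.bhi) * (16384 - Q1)) * ((1000 - s.bhi) * (16384 - Q1))) =
            10995116277760000 * ((1000 - s.bhi) * (1000 - s.bhi) * (16384 - Q1)) * (16384 - Q1) := by ring
        rw [e1, e2]
        exact Nat.mul_le_mul_right _ g1
      refine (chk_c hσ0 hσ2 h1).trans ?_
      push_cast [Nat.cast_sub hQle]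
      rcases le_total s.bhi 1000 with h | h
      · have hbhi : (s.bhi : ℝ) ≤ 1000 := by exact_mod_cast h
        have hb1' : 0 ≤ 1 - b := by linarith
        rw [Nat.cast_sub h, max_eq_right hb1']
        refine le_trans ?_ (le_max_right _ _)
        have e : ((1000 : ℕ) : ℝ) - (s.bhi : ℝ) ≤ 1000 * (1 - b) := by push_cast; linarith
        have e2 : (1 - b) - (Q1 : ℝ) / 16384 * (1 - b) = (1000 * (1 - b)) * (16384 - (Q1 : ℝ)) / 16384000 := by ring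
        rw [e2]
        apply div_le_div_of_nonneg_right _ (by norm_num)
        exact mul_le_mul_of_nonneg_right e (by linarith)
      · rw [Nat.sub_eq_zero_of_le h]
        refine le_trans (le_of_eq ?_) (le_max_left _ _)
        push_cast
        ring)
    (by
      rw [hsumR]
      have e : -(b - 1) = 1 - b := by ring
      rw [e])
    (by rw [hsumR]) (by rw [hsumR]; norm_num) (by intro h; cases h)
  -- the sets without `b0`
  have hch2 := charge_w (R := R) (i := 2) (j := 1) hlow hvl hvs hws hQ5 hQ1 x hk hkn hR le_rfl (by norm_num) (by norm_num) hP0 hP1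
    hV0 hV hσ hpw2 hmb (A := 1 - (Q1 : ℝ) / 16384 * max 0 (1 - b)) (A0 := -1) (δ := b)
    (by
      refine (chk_c hσ0 hσ2 g2).trans (le_trans ?_ (le_max_right _ _))
      have hle : Q1 * (1000 - s.blo) ≤ 16384000 := by
        have h1 : Q1 * (1000 - s.blo) ≤ 8192 * 1000 := Nat.mul_le_mul hQ1 (Nat.sub_le _ _)
        omega
      rw [Nat.cast_sub hle]
      push_cast
      have h1 : (1000 : ℝ) * max 0 (1 - b) ≤ ((1000 - s.blo : ℕ) : ℝ) := by
        rcases le_total 0 (1 - b) with h | h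
        · rw [max_eq_right h]
          have h2 : (1000 : ℝ) - s.blo ≤ ((1000 - s.blo : ℕ) : ℝ) := by
            have h3 : 1000 ≤ (1000 - s.blo) + s.blo := by omega
            have h4 : ((1000 : ℕ) : ℝ) ≤ (((1000 - s.blo) + s.blo : ℕ) : ℝ) := by exact_mod_cast h3
            push_cast at h4
            linarith
          linarith
        · rw [max_eq_left h, mul_zero]
          positivity
      have h2 := mul_le_mul_of_nonneg_left h1 (Nat.cast_nonneg (α := ℝ) Q1)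
      have e : (16384000 - (Q1 : ℝ) * ((1000 - s.blo : ℕ) : ℝ)) / 16384000 =
        1 - (Q1 : ℝ) * ((1000 - s.blo : ℕ) : ℝ) / 16384000 := by ring
      rw [e]
      have e3 : (Q1 : ℝ) / 16384 * max 0 (1 - b) = (Q1 : ℝ) * (1000 * max 0 (1 - b)) / 16384000 := by ring
      rw [e3]
      have h4 : (Q1 : ℝ) * (1000 * max 0 (1 - b)) / 16384000 ≤ (Q1 : ℝ) * ((1000 - s.blo : ℕ) : ℝ) / 16384000 :=
        div_le_div_of_nonneg_right h2 (by norm_num)
      linarith)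
    (by
      rw [hsumR]
      have e : -(b - 1) = 1 - b := by ring
      rw [e, neg_neg])
    (by
      rw [hsumR]
      have h1 : (0 : ℝ) ≤ (s.blo : ℝ) := Nat.cast_nonneg _
      have h2 : 0 ≤ b := le_trans (by positivity) hb1
      linarith)
    (by
      refine (chk_m hσ0 hσ2 g3).trans ?_
      rw [hsumR]
      push_cast
      have h1 := mul_le_mul_of_nonneg_left hb1 (Nat.cast_nonneg (α := ℝ) Q0)
      have e : (Q0 : ℝ) * (s.blo : ℝ) / 16384000 = (Q0 : ℝ) * ((s.blo : ℝ) / 1000) / 16384 := by ring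
      have e2 : (Q0 : ℝ) / 16384 * (b - 1 - -1) = (Q0 : ℝ) * b / 16384 := by ring
      rw [e, e2]
      exact div_le_div_of_nonneg_right h1 (by norm_num))
    (fun _ => hb2.trans (chk_b hσ0 hσ2 g4))
  simp only [Bool.false_eq_true, if_false, zero_mul, zero_add] at hch1
  simp only [if_true, one_mul] at hch2
  have hK : (s.k1 : ℝ) / 65536 * ((Q1 : ℝ) / 16384) ^ 2 + (s.k2 : ℝ) / 65536 * ((Q1 : ℝ) / 16384) ^ 1 ≤ 1 := by
    have h : (s.k1 : ℝ) * (Q1 * Q1) + s.k2 * Q1 * 16384 ≤ 17592186044416 := by exact_mod_cast g5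
    have e : (s.k1 : ℝ) / 65536 * ((Q1 : ℝ) / 16384) ^ 2 + (s.k2 : ℝ) / 65536 * ((Q1 : ℝ) / 16384) ^ 1 =
      ((s.k1 : ℝ) * (Q1 * Q1) + s.k2 * Q1 * 16384) / 17592186044416 := by ring
    rw [e, div_le_one (by norm_num)]
    exact h
  have hfin : ((bad x R (k - 2) (b - 1) : ℕ) : ℝ) + (bad x R (k - 1) (-1) : ℕ) ≤ (cnt x R (k - 1) b : ℕ) + (cnt x R k 0 : ℕ) := by
    have h1 := mul_le_mul_of_nonneg_right hK (Nat.cast_nonneg (α := ℝ) (cnt x R k 0))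
    rw [one_mul, add_mul] at h1
    linarith
  have hfin' : bad x R (k - 2) (b - 1) + bad x R (k - 1) (-1) ≤ cnt x R (k - 1) b + cnt x R k 0 := by exact_mod_cast hfin
  obtain ⟨j, rfl⟩ : ∃ j, k = j + 2 := ⟨k - 2, by omega⟩
  have e1 : j + 2 - 2 = j := by omega
  have e2 : j + 2 - 1 = j + 1 := by omega
  rw [e1, e2] at hfin'
  rw [e2]
  rw [cnt_insert x ha0 (j + 1), cnt_insert x hb0 (j + 1), cnt_insert x hb0 j, hxa]
  have t1 : (0 : ℝ) - x b0 = b := by rw [hb]; ring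
  have t2 : (0 : ℝ) - 1 = -1 := by ring
  have t3 : (-1 : ℝ) - x b0 = b - 1 := by rw [hb]; ring
  rw [t1, t2, t3]
  have h4 := cnt_add_bad x R (j + 1) (-1)
  have h5 := cnt_add_bad x R j (b - 1)
  obtain ⟨m, hm⟩ : ∃ m, n = m + 2 := ⟨n - 2, by omega⟩
  have hRm : R.card = m := by omega
  have hnm : n - 1 = m + 1 := by omega
  rw [hRm] at h4 h5
  rw [hnm, Nat.choose_succ_succ']
  have e3 : cnt x R (j + 1 + 1) 0 = cnt x R (j + 2) 0 := rfl
  rw [e3]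
  omega

end Pool.Agent.MMS15
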