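import Pool.Agent.MMS15.StA

/-!
# MMS15/StC: the star regime with two large negative entries `x b1 = - β1`, `x b2 = - β2`

`|R| = n - 3`, `sg x R = β1 + β2 - 1`, `Q = Q1/2^14`.  `cnt_insert` three times, `cnt_add_bad`, `C(n-1,k-1) = C(n-3,k-1) + 2 C(n-3,k-2) + C(n-3,k-3)`: it is enough that
`bad R (k-1) (-1) + bad R (k-2) (β1 - 1) + bad R (k-2) (β2 - 1) + bad R (k-3) (β1 + β2 - 1) ≤ cnt R k 0 + cnt R (k-1) β1`
(the sets with `b2` only and with `b1, b2` but without `a0` are not needed).  `charge_hat` four times: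
* `a = k - 3`, `M = n - 2 k`, `A0 = β1 + β2 - 1 = sg x R`, `f = false`, `c = 0`, `m0 = 0`, `k12`: `≤ k12/2^16 (k/(n-k))³ cnt R k 0` (any `A`, e.g. `A = -A0 - Q max 0 (-(sg x R))`; `0 ≤ max 0 A`);
* `a = k - 2`, `M = n - 1 - 2 k`, `A0 = β1 - 1`, `sg x R - A0 = β2`, `A = (1 - β1) - Q max 0 (1 - β1 - β2)`, `c = ca`, `kap = ka`, `m0 = ma`, `f = false`: `≤ ka/2^16 (k/(n-k-1))² cnt R k 0`;
  `A ≥ min (1 - β1) ((1 - β1)(1 - Q) + Q β2)`, monotone in `β1`, `β2` (if `β1 > 1` then `b1hi > 1000` and `ca = 0` unless the minimum of the check is positive: it is `≤ 16384 (1000 - b1hi) = 0`);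
* the same with `β1`, `β2` exchanged, `cb`, `kb`, `mc`;
* `a = k - 1`, `M = n - 2 - 2 k`, `A0 = -1`, `sg x R - A0 = β1 + β2`, `A = 1 - Q max 0 (1 - β1 - β2)`, `c0`, `k0`, `m0`, `f = true`, `δ = β1`, `mb`: `≤ cnt R (k-1) β1 + k0/2^16 (k/(n-k-2)) cnt R k 0`.
All quotients are `≤ Q` (`rates`) and `k12/2^16 Q³ + (ka + kb)/2^16 Q² + k0/2^16 Q ≤ 1`.  See `StB` for the translation of the integer checks (`dV Q1 V = 10^10 2^28 v`).
-/

open Finset Pool.Agent.H36.MMS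

set_option autoImplicit false

namespace Pool.Agent.MMS15

open Pool.Agent.MMS14

variable {α : Type*} [DecidableEq α]

/-- the constant for the sets with one of the two large entries: `β` the entry in the set, `γ` the other one -/
private theorem one_A {Q1 bhi glo : ℕ} (hQ1 : Q1 ≤ 8192) {β γ : ℝ} (hβ : β ≤ (bhi : ℝ) / 1000) (hγ : (glo : ℝ) / 1000 ≤ γ) :
    ((mn ((1000 - bhi) * 16384) ((1000 - bhi) * (16384 - Q1) + Q1 * glo) : ℕ) : ℝ) / 16384000 ≤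
      max 0 ((1 - β) - (Q1 : ℝ) / 16384 * max 0 (1 - β - γ)) := by
  have hQle : Q1 ≤ 16384 := hQ1.trans (by norm_num)
  have hQ1r : (Q1 : ℝ) ≤ 8192 := by exact_mod_cast hQ1
  rw [mn_eq]
  rcases le_total bhi 1000 with h | h
  · refine le_trans ?_ (le_max_right _ _)
    have hcast : ((1000 - bhi : ℕ) : ℝ) = 1000 - (bhi : ℝ) := by rw [Nat.cast_sub h]; norm_num
    rcases le_total 0 (1 - β - γ) with h1 | h1
    · rw [max_eq_right h1]
      have h2 : ((min ((1000 - bhi) * 16384) ((1000 - bhi) * (16384 - Q1) + Q1 * glo) : ℕ) : ℝ) ≤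
          (((1000 - bhi) * (16384 - Q1) + Q1 * glo : ℕ) : ℝ) := by exact_mod_cast min_le_right _ _
      have h3 : (((1000 - bhi) * (16384 - Q1) + Q1 * glo : ℕ) : ℝ) = (1000 - (bhi : ℝ)) * (16384 - (Q1 : ℝ)) + Q1 * glo := by
        push_cast [Nat.cast_sub hQle, Nat.cast_sub h]
        ring
      rw [div_le_iff₀ (by norm_num)]
      refine h2.trans ?_
      rw [h3]
      have e : ((1 - β) - (Q1 : ℝ) / 16384 * (1 - β - γ)) * 16384000 =
        (1000 - 1000 * β) * (16384 - (Q1 : ℝ)) + Q1 * (1000 * γ) := by ring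
      rw [e]
      apply add_le_add
      · exact mul_le_mul_of_nonneg_right (by linarith) (by linarith)
      · exact mul_le_mul_of_nonneg_left (by linarith) (Nat.cast_nonneg _)
    · rw [max_eq_left h1, mul_zero, sub_zero]
      have h2 : ((min ((1000 - bhi) * 16384) ((1000 - bhi) * (16384 - Q1) + Q1 * glo) : ℕ) : ℝ) ≤
          (((1000 - bhi) * 16384 : ℕ) : ℝ) := by exact_mod_cast min_le_left _ _
      rw [div_le_iff₀ (by norm_num)]
      refine h2.trans ?_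
      rw [Nat.cast_mul, hcast]
      push_cast
      linarith
  · rw [Nat.sub_eq_zero_of_le h, zero_mul, zero_mul, Nat.zero_min]
    refine le_trans (le_of_eq ?_) (le_max_left _ _)
    norm_num

theorem star_c {Q0 Q1 : ℕ} {vs ws : List ℕ} (hlow : StarLowOk Q0 Q1 vs) (hvl : vs.length = 201)
    (hvs : ∀ v ∈ vs, v ≤ 65536) (hws : wOk vs ws = true) (hQ5 : 3277 ≤ Q0) (hQ1 : Q1 ≤ 8192)
    {s : S2} (hchk : b2Ok Q0 Q1 vs ws s = true) (hmb : s.mb ≤ 1000000)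
    {R : Finset α} {n k : ℕ} {a0 b1 b2 : α} (x : α → ℝ) (hk : 10 ^ 26 ≤ k) (hkn : k < n) (hb2 : b2 ∉ R) (hb1 : b1 ∉ insert b2 R)
    (ha0 : a0 ∉ insert b1 (insert b2 R))
    (hR : R.card + 3 = n) (hxa : x a0 = 1) (hsum : sg x R = -(x b1) - x b2 - 1)
    (hP0 : ((Q0 : ℝ) + 1) / 16384 ≤ (k : ℝ) / ((n : ℝ) - k)) (hP1 : (k : ℝ) / ((n : ℝ) - k) ≤ ((Q1 : ℝ) - 1) / 16384)
    (h11 : (s.b1lo : ℝ) / 1000 ≤ -(x b1)) (h12 : -(x b1) ≤ (s.b1hi : ℝ) / 1000)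
    (h21 : (s.b2lo : ℝ) / 1000 ≤ -(x b2)) (h22 : -(x b2) ≤ (s.b2hi : ℝ) / 1000) (hV : ps x 2 R ≤ (s.V : ℝ) / 1000000) :
    (n - 1).choose (k - 1) ≤ cnt x (insert a0 (insert b1 (insert b2 R))) k 0 := by
  classical
  obtain ⟨h3k, -, -⟩ := rates hQ5 hQ1 hk hkn hP0 hP1
  have hk8 : 3100000 ≤ k := le_trans (by norm_num) hk
  -- the checks
  obtain ⟨hc0, hchk⟩ := et_true2 hchk
  obtain ⟨hc1, hchk⟩ := et_true2 hchk
  obtain ⟨hc2, hchk⟩ := et_true2 hchk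
  obtain ⟨hc3, hchk⟩ := et_true2 hchk
  obtain ⟨hc4, hchk⟩ := et_true2 hchk
  obtain ⟨hc5, hchk⟩ := et_true2 hchk
  obtain ⟨hc6, hchk⟩ := et_true2 hchk
  obtain ⟨hc7, hchk⟩ := et_true2 hchk
  obtain ⟨hc8, hchk⟩ := et_true2 hchk
  obtain ⟨hpw12, hchk⟩ := et_true2 hchk
  obtain ⟨hpwa, hchk⟩ := et_true2 hchk
  obtain ⟨hpwb, hpw0⟩ := et_true2 hchk
  have hV0 : 0 < s.V := Nat.le_of_ble_eq_true hc0
  have ga : s.ca * s.ca * dV Q1 s.V ≤ 10995116277760000 *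
      (mn ((1000 - s.b1hi) * 16384) ((1000 - s.b1hi) * (16384 - Q1) + Q1 * s.b2lo) *
        mn ((1000 - s.b1hi) * 16384) ((1000 - s.b1hi) * (16384 - Q1) + Q1 * s.b2lo)) := Nat.le_of_ble_eq_true hc1
  have gb : s.cb * s.cb * dV Q1 s.V ≤ 10995116277760000 *
      (mn ((1000 - s.b2hi) * 16384) ((1000 - s.b2hi) * (16384 - Q1) + Q1 * s.b1lo) *
        mn ((1000 - s.b2hi) * 16384) ((1000 - s.b2hi) * (16384 - Q1) + Q1 * s.b1lo)) := Nat.le_of_ble_eq_true hc2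
  have g0 : s.c0 * s.c0 * dV Q1 s.V ≤ 10995116277760000 *
      ((16384000 - Q1 * (1000 - (s.b1lo + s.b2lo))) * (16384000 - Q1 * (1000 - (s.b1lo + s.b2lo)))) := Nat.le_of_ble_eq_true hc3
  have gma : s.ma * s.ma * dV Q1 s.V ≤ 25000000 * ((Q0 * s.b2lo) * (Q0 * s.b2lo)) := Nat.le_of_ble_eq_true hc4
  have gmc : s.mc * s.mc * dV Q1 s.V ≤ 25000000 * ((Q0 * s.b1lo) * (Q0 * s.b1lo)) := Nat.le_of_ble_eq_true hc5
  have gm0 : s.m0 * s.m0 * dV Q1 s.V ≤ 25000000 * ((Q0 * (s.b1lo + s.b2lo)) * (Q0 * (s.b1lo + s.b2lo))) :=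
    Nat.le_of_ble_eq_true hc6
  have gmb : 6710886400000000 * (s.b1hi * s.b1hi) ≤ s.mb * s.mb * dV Q1 s.V := Nat.le_of_ble_eq_true hc7
  have gk : s.k12 * (Q1 * (Q1 * Q1)) + ((s.ka + s.kb) * (Q1 * Q1) * 16384 + s.k0 * Q1 * 268435456) ≤ 288230376151711744 :=
    Nat.le_of_ble_eq_true hc8
  have hQle : Q1 ≤ 16384 := hQ1.trans (by norm_num)
  have hQ1r : (Q1 : ℝ) ≤ 8192 := by exact_mod_cast hQ1
  obtain ⟨β, hβ⟩ : ∃ β : ℝ, β = -(x b1) := ⟨_, rfl⟩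
  obtain ⟨γ, hγ⟩ : ∃ γ : ℝ, γ = -(x b2) := ⟨_, rfl⟩
  rw [← hβ] at h11 h12
  rw [← hγ] at h21 h22
  have hβ0 : 0 ≤ β := le_trans (by positivity) h11
  have hγ0 : 0 ≤ γ := le_trans (by positivity) h21
  have hsumR : sg x R = β + γ - 1 := by rw [hsum, hβ, hγ]; ring
  obtain ⟨σ, hσ⟩ : ∃ σ : ℝ, σ = √(1.0001 * ((Q1 : ℝ) / 16384) * (1 - (Q1 : ℝ) / 16384) * ((s.V : ℝ) / 1000000)) := ⟨_, rfl⟩
  obtain ⟨hσ0, hσ2⟩ := s2_eq hQ1 hσ
  have hQr0 : (0 : ℝ) ≤ (Q1 : ℝ) / 16384 := by positivity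
  have hQr1 : (Q1 : ℝ) / 16384 ≤ 1 / 2 := by linarith
  have hmu : ∀ {m lo : ℕ} {y : ℝ}, m * m * dV Q1 s.V ≤ 25000000 * ((Q0 * lo) * (Q0 * lo)) → (lo : ℝ) / 1000 ≤ y →
      (m : ℝ) / 50 * σ ≤ (Q0 : ℝ) / 16384 * y := by
    intro m lo y h1 h2
    refine (chk_m hσ0 hσ2 h1).trans ?_
    push_cast
    have h3 := mul_le_mul_of_nonneg_left h2 (Nat.cast_nonneg (α := ℝ) Q0)
    have e : (Q0 : ℝ) * (lo : ℝ) / 16384000 = (Q0 : ℝ) * ((lo : ℝ) / 1000) / 16384 := by ring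
    have e2 : (Q0 : ℝ) / 16384 * y = (Q0 : ℝ) * y / 16384 := by ring
    rw [e, e2]
    exact div_le_div_of_nonneg_right h3 (by norm_num)
  have hneg : -(β + γ - 1) = 1 - β - γ := by ring
  -- both
  have ch12 := charge_w (R := R) (i := 3) (j := 3) hlow hvl hvs hws hQ5 hQ1 x hk hkn hR (by norm_num) le_rfl le_rfl hP0 hP1
    hV0 hV hσ hpw12 (Nat.zero_le _) (A := -(β + γ - 1) - (Q1 : ℝ) / 16384 * max 0 (-(sg x R))) (A0 := β + γ - 1) (δ := 0)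
    (by
      refine le_trans (le_of_eq ?_) (le_max_left _ _)
      push_cast
      ring)
    le_rfl (by rw [hsumR]) (by rw [hsumR]; norm_num) (by intro h; cases h)
  -- the first one
  have cha := charge_w (R := R) (i := 3) (j := 2) hlow hvl hvs hws hQ5 hQ1 x hk hkn hR (by norm_num) (by norm_num) le_rfl hP0 hP1
    hV0 hV hσ hpwa (Nat.zero_le _) (A := (1 - β) - (Q1 : ℝ) / 16384 * max 0 (1 - β - γ)) (A0 := β - 1) (δ := 0)
    ((chk_c hσ0 hσ2 ga).trans (one_A hQ1 h12 h21))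
    (by rw [hsumR, hneg]; linarith) (by rw [hsumR]; linarith)
    (by
      rw [hsumR]
      have e : β + γ - 1 - (β - 1) = γ := by ring
      rw [e]
      exact hmu gma h21) (by intro h; cases h)
  -- the second one
  have chb := charge_w (R := R) (i := 3) (j := 2) hlow hvl hvs hws hQ5 hQ1 x hk hkn hR (by norm_num) (by norm_num) le_rfl hP0 hP1
    hV0 hV hσ hpwb (Nat.zero_le _) (A := (1 - γ) - (Q1 : ℝ) / 16384 * max 0 (1 - γ - β)) (A0 := γ - 1) (δ := 0)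
    ((chk_c hσ0 hσ2 gb).trans (one_A hQ1 h22 h11))
    (by
      rw [hsumR, hneg]
      have e : 1 - γ - β = 1 - β - γ := by ring
      rw [e]
      linarith) (by rw [hsumR]; linarith)
    (by
      rw [hsumR]
      have e : β + γ - 1 - (γ - 1) = β := by ring
      rw [e]
      exact hmu gmc h11) (by intro h; cases h)
  -- none
  have ch0 := charge_w (R := R) (i := 3) (j := 1) hlow hvl hvs hws hQ5 hQ1 x hk hkn hR le_rfl (by norm_num) le_rfl hP0 hP1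
    hV0 hV hσ hpw0 hmb (A := 1 - (Q1 : ℝ) / 16384 * max 0 (1 - β - γ)) (A0 := -1) (δ := β)
    (by
      refine (chk_c hσ0 hσ2 g0).trans (le_trans ?_ (le_max_right _ _))
      have hle : Q1 * (1000 - (s.b1lo + s.b2lo)) ≤ 16384000 := by
        have h1 : Q1 * (1000 - (s.b1lo + s.b2lo)) ≤ 8192 * 1000 := Nat.mul_le_mul hQ1 (Nat.sub_le _ _)
        omega
      rw [Nat.cast_sub hle]
      push_cast
      have h1 : (1000 : ℝ) * max 0 (1 - β - γ) ≤ ((1000 - (s.b1lo + s.b2lo) : ℕ) : ℝ) := by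
        rcases le_total 0 (1 - β - γ) with h | h
        · rw [max_eq_right h]
          have h2 : (1000 : ℝ) - (s.b1lo + s.b2lo) ≤ ((1000 - (s.b1lo + s.b2lo) : ℕ) : ℝ) := by
            have h3 : 1000 ≤ (1000 - (s.b1lo + s.b2lo)) + (s.b1lo + s.b2lo) := by omega
            have h4 : ((1000 : ℕ) : ℝ) ≤ (((1000 - (s.b1lo + s.b2lo)) + (s.b1lo + s.b2lo) : ℕ) : ℝ) := by exact_mod_cast h3
            push_cast at h4
            linarith
          linarith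
        · rw [max_eq_left h, mul_zero]
          positivity
      have h2 := mul_le_mul_of_nonneg_left h1 (Nat.cast_nonneg (α := ℝ) Q1)
      have e : (16384000 - (Q1 : ℝ) * ((1000 - (s.b1lo + s.b2lo) : ℕ) : ℝ)) / 16384000 =
        1 - (Q1 : ℝ) * ((1000 - (s.b1lo + s.b2lo) : ℕ) : ℝ) / 16384000 := by ring
      rw [e]
      have e3 : (Q1 : ℝ) / 16384 * max 0 (1 - β - γ) = (Q1 : ℝ) * (1000 * max 0 (1 - β - γ)) / 16384000 := by ring
      rw [e3]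
      have h4 : (Q1 : ℝ) * (1000 * max 0 (1 - β - γ)) / 16384000 ≤ (Q1 : ℝ) * ((1000 - (s.b1lo + s.b2lo) : ℕ) : ℝ) / 16384000 :=
        div_le_div_of_nonneg_right h2 (by norm_num)
      linarith)
    (by rw [hsumR, hneg, neg_neg])
    (by rw [hsumR]; linarith)
    (by
      rw [hsumR]
      have e : β + γ - 1 - -1 = β + γ := by ring
      rw [e]
      refine hmu gm0 ?_
      push_cast
      linarith)
    (fun _ => h12.trans (chk_b hσ0 hσ2 gmb))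
  simp only [Bool.false_eq_true, if_false, zero_mul, zero_add] at ch12 cha chb
  simp only [if_true, one_mul] at ch0
  have hK : (s.k12 : ℝ) / 65536 * ((Q1 : ℝ) / 16384) ^ 3 + (s.ka : ℝ) / 65536 * ((Q1 : ℝ) / 16384) ^ 2 +
      (s.kb : ℝ) / 65536 * ((Q1 : ℝ) / 16384) ^ 2 + (s.k0 : ℝ) / 65536 * ((Q1 : ℝ) / 16384) ^ 1 ≤ 1 := by
    have h : (s.k12 : ℝ) * (Q1 * (Q1 * Q1)) + ((s.ka + s.kb) * (Q1 * Q1) * 16384 + s.k0 * Q1 * 268435456) ≤ 288230376151711744 := by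
      exact_mod_cast gk
    have e : (s.k12 : ℝ) / 65536 * ((Q1 : ℝ) / 16384) ^ 3 + (s.ka : ℝ) / 65536 * ((Q1 : ℝ) / 16384) ^ 2 +
      (s.kb : ℝ) / 65536 * ((Q1 : ℝ) / 16384) ^ 2 + (s.k0 : ℝ) / 65536 * ((Q1 : ℝ) / 16384) ^ 1 =
      ((s.k12 : ℝ) * (Q1 * (Q1 * Q1)) + ((s.ka + s.kb) * (Q1 * Q1) * 16384 + s.k0 * Q1 * 268435456)) / 288230376151711744 := by ring
    rw [e, div_le_one (by norm_num)]
    exact h
  have hfin : ((bad x R (k - 3) (β + γ - 1) : ℕ) : ℝ) + (bad x R (k - 2) (β - 1) : ℕ) + (bad x R (k - 2) (γ - 1) : ℕ) +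
      (bad x R (k - 1) (-1) : ℕ) ≤ (cnt x R (k - 1) β : ℕ) + (cnt x R k 0 : ℕ) := by
    have h1 := mul_le_mul_of_nonneg_right hK (Nat.cast_nonneg (α := ℝ) (cnt x R k 0))
    rw [one_mul, add_mul, add_mul, add_mul] at h1
    linarith
  have hfin' : bad x R (k - 3) (β + γ - 1) + bad x R (k - 2) (β - 1) + bad x R (k - 2) (γ - 1) + bad x R (k - 1) (-1) ≤
      cnt x R (k - 1) β + cnt x R k 0 := by exact_mod_cast hfin
  obtain ⟨j, rfl⟩ : ∃ j, k = j + 3 := ⟨k - 3, by omega⟩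
  have e1 : j + 3 - 3 = j := by omega
  have e2 : j + 3 - 2 = j + 1 := by omega
  have e3 : j + 3 - 1 = j + 2 := by omega
  rw [e1, e2, e3] at hfin'
  rw [e3]
  rw [cnt_insert x ha0 (j + 2), cnt_insert x hb1 (j + 2), cnt_insert x hb1 (j + 1), cnt_insert x hb2 (j + 2),
    cnt_insert x hb2 (j + 1), cnt_insert x hb2 (j + 1), cnt_insert x hb2 j, hxa]
  have t1 : (0 : ℝ) - x b1 = β := by rw [hβ]; ring
  have t2 : (0 : ℝ) - 1 = -1 := by ring
  have t3 : (-1 : ℝ) - x b2 = γ - 1 := by rw [hγ]; ring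
  have t4 : (-1 : ℝ) - x b1 = β - 1 := by rw [hβ]; ring
  have t5 : β - 1 - x b2 = β + γ - 1 := by rw [hγ]; ring
  rw [t2, t4, t5, t3, t1]
  have h4 := cnt_add_bad x R (j + 2) (-1)
  have h5 := cnt_add_bad x R (j + 1) (β - 1)
  have h6 := cnt_add_bad x R (j + 1) (γ - 1)
  have h7 := cnt_add_bad x R j (β + γ - 1)
  obtain ⟨m, hm⟩ : ∃ m, n = m + 3 := ⟨n - 3, by omega⟩
  have hRm : R.card = m := by omega
  have hnm : n - 1 = m + 1 + 1 := by omega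
  rw [hRm] at h4 h5 h6 h7
  have c1 : (m + 1 + 1).choose (j + 2) = (m + 1).choose (j + 1) + (m + 1).choose (j + 2) := Nat.choose_succ_succ' _ _
  have c2 : (m + 1).choose (j + 1) = m.choose j + m.choose (j + 1) := Nat.choose_succ_succ' _ _
  have c3 : (m + 1).choose (j + 2) = m.choose (j + 1) + m.choose (j + 2) := Nat.choose_succ_succ' _ _
  rw [hnm, c1, c2, c3]
  have e5 : cnt x R (j + 2 + 1) 0 = cnt x R (j + 3) 0 := rfl
  have e6 : cnt x R (j + 1 + 1) β = cnt x R (j + 2) β := rfl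
  have e7 : cnt x R (j + 1 + 1) (-1) = cnt x R (j + 2) (-1) := rfl
  omega

end Pool.Agent.MMS15
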