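import Pool.Agent.MMS15.StarX
import Pool.Agent.MMS15.NsL

/-!
# MMS15/StarF: the star regime for one table

`margins` gives the bounds for `k / (n - k)` (`q.P1 ≤ 8192` from `hpar`, so `B ≤ 8192`; `k < n`; `1 ≤ Q1` by `hQB`, because `B > 0`: `B / 2^14 ≥ k / n ≥ A / 2^14 > 0`).  `Ω = univ : Finset (Fin n)`, `R = Ω.erase a0`, `ps x 2 Ω = 1 + ps x 2 R`.
1. `ps x 2 R ≤ V2 / 10^6`: `star_a` (`Ω = insert a0 R`, `sg x R = -1`).
2. otherwise `1000 (1 + ps x 2 R) ≥ sa` by `hsa`.  If `x b0 < -1` for some `b0`: `star_big`.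
3. otherwise all `|x i| ≤ 1`: `exists_enum R x` gives `es`; `a0 :: es` is duplicate-free, `(a0 :: es).toFinset = Ω`, and `(a0 :: es).map x = 1 :: es.map x` is sorted; `ss = ps x 2 Ω` (`ss_enum`).
   `star_list` with `p = k / n` (`P0 / 2^14 ≤ A / 2^14 ≤ p ≤ B / 2^14 ≤ P1 / 2^14`; `p ≥ 1/5` by `hA5`): a large probability: `count_list` (`k / n + 2^(-13) ≤ (4 B + 8) / 65536 ≤ tgt / 65536`), or
   `star_xc`.
-/

open Finset Pool.Agent.H36.MMS

set_option autoImplicit false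

namespace Pool.Agent.MMS15

open Pool.Agent.MMS14

theorem star_cell {q : Par} {rows : List ℕ} {tab : List (List ℕ)} (hpar : parOk q = true) (hlen : rows.length = 701)
    (hrow : ∀ r, RowP (rowv rows r)) (hG : Good q.P0 q.P1 rows) (hlook : lookOk tab rows 0 = true)
    {Q0 Q1 : ℕ} {vs ws : List ℕ} (hlow : StarLowOk Q0 Q1 vs) (hvl : vs.length = 201)
    (hvs : ∀ v ∈ vs, v ≤ 65536) (hws : wOk vs ws = true) (hQ5 : 3277 ≤ Q0) (hQ1 : Q1 ≤ 8192)
    {V2 c kap : ℕ} {ms : List ℕ} (hV2 : 0 < V2) (ha1 : a1Ok Q1 vs ws V2 c kap ms = true)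
    {b1s : List S1} (hb1 : ∀ s ∈ b1s, b1Ok Q0 Q1 vs ws s = true ∧ s.mb ≤ 1000000)
    (hbig : ∃ s ∈ b1s, s.blo = 1000 ∧ s.bhi = 1050 ∧ 60000 ≤ s.V)
    {b2s : List S2} (hb2 : ∀ s ∈ b2s, b2Ok Q0 Q1 vs ws s = true ∧ s.mb ≤ 1000000)
    {ys : List XC} (hys : ys = b1s.map S1.xc ++ b2s.map S2.xc)
    {tgt sa A B : ℕ} {cS : Ct} (htgt : tgt ≤ 65536) (hcS : chk q tab tgt 1280 0 ys cS sa 2060 [At.p 1000 1000] = true)
    (hsa : 1000 * sa ≤ 1000000 + V2) (htB : 4 * B + 8 ≤ tgt) (hA : q.P0 ≤ A) (hB : B ≤ q.P1) (hA5 : 3277 ≤ A)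
    (hQA : (Q0 + 1) * (16384 - A) ≤ 16384 * A) (hQB : 16384 * B ≤ (Q1 - 1) * (16384 - B)) :
    StarP ((A : ℝ) / 16384) ((B : ℝ) / 16384) := by
  intro n k hk hkn h0 h1 x a0 hxa hxle hsum hps
  classical
  have hP1le : q.P1 ≤ 8192 := by
    obtain ⟨_, h3⟩ := et_true2 hpar
    obtain ⟨_, h5⟩ := et_true2 h3
    obtain ⟨h6, _⟩ := et_true2 h5
    exact Nat.le_of_ble_eq_true h6
  have hB1 : B ≤ 8192 := hB.trans hP1le
  have hA0 : (0 : ℝ) < (A : ℝ) / 16384 := by
    have : (3277 : ℝ) ≤ (A : ℝ) := by exact_mod_cast hA5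
    have h : (0 : ℝ) < (A : ℝ) := by linarith
    positivity
  have hB0 : 0 < B := by
    rcases Nat.eq_zero_or_pos B with h | h
    · exfalso
      rw [h] at h1
      simp only [Nat.cast_zero, zero_div] at h1
      linarith
    · exact h
  have hQ1' : 1 ≤ Q1 := by
    rcases Nat.eq_zero_or_pos Q1 with h | h
    · exfalso
      rw [h] at hQB
      simp only [Nat.zero_sub, Nat.zero_mul, Nat.le_zero] at hQB
      omega
    · exact h
  have hk1 : 1 ≤ k := le_trans (by norm_num) hk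
  have hkn' : k < n := by omega
  obtain ⟨hP0, hP1⟩ := margins hQA hQB hB1 hQ1' hk1 hkn' h0 h1
  have hΩ : (univ : Finset (Fin n)).card = n := by simp
  have hR : (univ.erase a0).card + 1 = n := by
    rw [card_erase_of_mem (mem_univ a0), hΩ]
    omega
  have hsumR : sg x (univ.erase a0) = -1 := by
    have := sg_erase x univ (mem_univ a0)
    rw [hxa, hsum] at this
    linarith
  have hpsR : ps x 2 univ = 1 + ps x 2 (univ.erase a0) := by
    have := ps_erase x 2 (mem_univ a0)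
    rw [hxa] at this
    rw [this]
    ring
  rcases le_or_gt (ps x 2 (univ.erase a0)) ((V2 : ℝ) / 1000000) with hc1 | hc1
  · have := star_a hlow hvl hvs hws hQ5 hQ1 hV2 ha1 x hk hkn' (notMem_erase a0 univ) hR hxa hsumR
      hP0 hP1 hc1
    rwa [insert_erase (mem_univ a0)] at this
  · by_cases hc2 : ∃ b0, x b0 < -1
    · obtain ⟨b0, hb0⟩ := hc2
      obtain ⟨s, hs, hlo, hhi, hV⟩ := hbig
      exact star_big hlow hvl hvs hws hQ5 hQ1 (hb1 s hs).1 (hb1 s hs).2 hlo hhi hV x hk hkn' hΩ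
        (mem_univ a0) (mem_univ b0) hxa hsum hP0 hP1 hb0 hps
    · push Not at hc2
      obtain ⟨es, hnd, hes, hsrt⟩ := exists_enum (univ.erase a0) x
      have hn : (a0 :: es).Nodup := by
        refine List.nodup_cons.2 ⟨fun h => ?_, hnd⟩
        have h2 : a0 ∈ es.toFinset := List.mem_toFinset.2 h
        rw [hes] at h2
        exact notMem_erase a0 univ h2
      have he : (a0 :: es).toFinset = univ := by
        rw [List.toFinset_cons, hes, insert_erase (mem_univ a0)]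
      have hmap : (a0 :: es).map x = 1 :: es.map x := by
        rw [List.map_cons, hxa]
      have hs1 : Srt (1 :: es.map x) := by
        refine List.pairwise_cons.2 ⟨fun b hb => ?_, hsrt⟩
        obtain ⟨e, _, rfl⟩ := List.mem_map.1 hb
        rw [abs_one, abs_le]
        exact ⟨hc2 e, hxle e⟩
      have hss : ss (1 :: es.map x) = 1 + ps x 2 (univ.erase a0) := by
        rw [← hmap, ss_enum hn he x, hpsR]
      have hS0 : (sa : ℝ) ≤ 1000 * ss (1 :: es.map x) := by
        rw [hss]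
        have h3 : (1000 : ℝ) * sa ≤ 1000000 + V2 := by exact_mod_cast hsa
        linarith
      have hS1 : ss (1 :: es.map x) ≤ 2.06 := by
        rw [hss]
        linarith
      have hp0 : (q.P0 : ℝ) / 16384 ≤ (k : ℝ) / n := by
        have h3 : (q.P0 : ℝ) ≤ A := by exact_mod_cast hA
        exact (div_le_div_of_nonneg_right h3 (by norm_num)).trans h0
      have hp1 : (k : ℝ) / n ≤ (q.P1 : ℝ) / 16384 := by
        have h3 : (B : ℝ) ≤ q.P1 := by exact_mod_cast hB
        exact h1.trans (div_le_div_of_nonneg_right h3 (by norm_num))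
      have hp5 : 1 / 5 ≤ (k : ℝ) / n := by
        have h3 : (3277 : ℝ) ≤ (A : ℝ) := by exact_mod_cast hA5
        have h4 : (3277 : ℝ) / 16384 ≤ (A : ℝ) / 16384 :=
          div_le_div_of_nonneg_right h3 (by norm_num)
        refine le_trans ?_ (h4.trans h0)
        norm_num
      rcases star_list hpar hlen hrow hG hlook htgt hcS hp0 hp1 hp5 hs1 hS0 hS1 with hP | hE
      · rw [← hmap] at hP
        refine count_list hn he x hk hkn hΩ hsum ?_ hP
        have h3 : (4 : ℝ) * B + 8 ≤ tgt := by exact_mod_cast htB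
        have h4 : ((4 : ℝ) * B + 8) / 65536 ≤ (tgt : ℝ) / 65536 :=
          div_le_div_of_nonneg_right h3 (by norm_num)
        refine le_trans ?_ h4
        have h5 : ((4 : ℝ) * B + 8) / 65536 = (B : ℝ) / 16384 + 1 / 2 ^ 13 := by ring
        rw [h5]
        linarith
      · rw [← hmap, hys] at hE
        exact star_xc hlow hvl hvs hws hQ5 hQ1 hb1 hb2 x hk hkn' hΩ hn he hxa hsum hP0 hP1 hE

end Pool.Agent.MMS15
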