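import Pool.Agent.MMS15.StB
import Pool.Agent.MMS15.StC
import Pool.Agent.MMS15.SrtE
import Pool.Agent.MMS15.FinDefs

/-!
# MMS15/StarX: the star regime, from exceptional boxes to `star_b`, `star_c`

`margins`: with `p = k / n`: `k / (n - k) = p / (1 - p)`, increasing in `p ∈ [A, B] / 2^14`.
`star_big`: `b0 ≠ a0` (`x a0 = 1`), `R = (Ω.erase a0).erase b0`: `x b0 ^ 2 + ps x 2 R ≤ 1.06`, `x b0 < -1`, so `ps x 2 R ≤ 0.06` and `- x b0 ≤ 1.05`; `star_b` with the entry of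
`hbig` (`blo = 1000`, `bhi = 1050`, `60000 ≤ V`), `Ω = insert a0 (insert b0 R)` (`insert_erase`), `R.card + 2 = n`, `sg x R = 0 - x a0 - x b0`.
`star_xc`: `exc_elems` for `es = a0 :: es'`: a box `X ∈ ys`, `es = es1 ++ es2`, `Mt X.ats (es1.map x).reverse`.  `X = s.xc`, `s ∈ b1s`: `es1` has two elements, `es1 = [a0, b0]`, and
`[x b0, x a0]` matches `[At.m blo bhi, At.p 1000 1000]`; `R = es2.toFinset` (`es.Nodup`, `es.toFinset = Ω`), `ps x 2 R = ss (es2.map x) ≤ V / 10^6` (`ss_enum`);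
`star_b`.  `X = s.xc`, `s ∈ b2s`: `es1 = [a0, b1, b2]`, `[x b2, x b1, x a0]` matches `[At.m b2lo b2hi, At.m b1lo b1hi, At.p 1000 1000]`; `star_c`.
-/

open Finset Pool.Agent.H36.MMS

set_option autoImplicit false

namespace Pool.Agent.MMS15

open Pool.Agent.MMS14

theorem margins {Q0 Q1 A B n k : ℕ} (hA : (Q0 + 1) * (16384 - A) ≤ 16384 * A) (hB : 16384 * B ≤ (Q1 - 1) * (16384 - B))
    (hB1 : B ≤ 8192) (hQ1 : 1 ≤ Q1) (hk : 1 ≤ k) (hkn : k < n) (h0 : (A : ℝ) / 16384 ≤ (k : ℝ) / n) (h1 : (k : ℝ) / n ≤ (B : ℝ) / 16384) :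
    ((Q0 : ℝ) + 1) / 16384 ≤ (k : ℝ) / ((n : ℝ) - k) ∧ (k : ℝ) / ((n : ℝ) - k) ≤ ((Q1 : ℝ) - 1) / 16384 := by
  have hk0 : (1 : ℝ) ≤ k := by exact_mod_cast hk
  have hkn' : (k : ℝ) < n := by exact_mod_cast hkn
  have hn : (0 : ℝ) < n := by linarith
  obtain ⟨d, hd⟩ : ∃ d : ℝ, d = (n : ℝ) - k := ⟨_, rfl⟩
  have hd0 : 0 < d := by rw [hd]; linarith
  have hnd : (n : ℝ) = d + k := by rw [hd]; ring
  rw [← hd]
  have hAB : (A : ℝ) ≤ B := by
    have h2 := h0.trans h1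
    rwa [div_le_div_iff_of_pos_right (by norm_num : (0 : ℝ) < 16384)] at h2
  have hBr : (B : ℝ) ≤ 8192 := by exact_mod_cast hB1
  have hA1 : A ≤ 16384 := by
    have h2 : A ≤ B := by exact_mod_cast hAB
    omega
  have hA' : ((Q0 : ℝ) + 1) * (16384 - A) ≤ 16384 * A := by
    have h2 : (((Q0 + 1) * (16384 - A) : ℕ) : ℝ) ≤ ((16384 * A : ℕ) : ℝ) := by exact_mod_cast hA
    push_cast [Nat.cast_sub hA1] at h2
    exact h2
  have hB' : (16384 : ℝ) * B ≤ ((Q1 : ℝ) - 1) * (16384 - B) := by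
    have h2 : ((16384 * B : ℕ) : ℝ) ≤ (((Q1 - 1) * (16384 - B) : ℕ) : ℝ) := by exact_mod_cast hB
    push_cast [Nat.cast_sub hQ1, Nat.cast_sub (hB1.trans (by norm_num : 8192 ≤ 16384))] at h2
    exact h2
  rw [div_le_div_iff₀ (by norm_num) hn, hnd] at h0
  rw [div_le_div_iff₀ hn (by norm_num), hnd] at h1
  have hQ0 : (0 : ℝ) ≤ Q0 := Nat.cast_nonneg _
  constructor
  · rw [div_le_div_iff₀ (by norm_num) hd0]
    have hApos : (0 : ℝ) < A := by
      rcases Nat.eq_zero_or_pos A with h2 | h2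
      · rw [h2] at hA'
        push_cast at hA'
        linarith
      · exact_mod_cast h2
    have h2 : (A : ℝ) * d ≤ (16384 - A) * k := by linarith
    have h3 := mul_le_mul_of_nonneg_left h2 (by linarith : (0 : ℝ) ≤ (Q0 : ℝ) + 1)
    have h4 := mul_le_mul_of_nonneg_right hA' (by linarith : (0 : ℝ) ≤ (k : ℝ))
    have h5 : (A : ℝ) * (((Q0 : ℝ) + 1) * d) ≤ A * (k * 16384) := by linarith
    exact le_of_mul_le_mul_left h5 hApos
  · rw [div_le_div_iff₀ hd0 (by norm_num)]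
    have h6 : (0 : ℝ) < 16384 - B := by linarith
    have h2 : (16384 - (B : ℝ)) * k ≤ B * d := by linarith
    have h3 := mul_le_mul_of_nonneg_left h2 (by norm_num : (0 : ℝ) ≤ 16384)
    have h4 := mul_le_mul_of_nonneg_right hB' hd0.le
    have h5 : (16384 - (B : ℝ)) * (k * 16384) ≤ (16384 - B) * (((Q1 : ℝ) - 1) * d) := by linarith
    exact le_of_mul_le_mul_left h5 h6

variable {α : Type*} [DecidableEq α]

theorem star_big {Q0 Q1 : ℕ} {vs ws : List ℕ} (hlow : StarLowOk Q0 Q1 vs) (hvl : vs.length = 201)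
    (hvs : ∀ v ∈ vs, v ≤ 65536) (hws : wOk vs ws = true) (hQ5 : 3277 ≤ Q0) (hQ1 : Q1 ≤ 8192)
    {s : S1} (hchk : b1Ok Q0 Q1 vs ws s = true) (hmb : s.mb ≤ 1000000) (hlo : s.blo = 1000) (hhi : s.bhi = 1050) (hV : 60000 ≤ s.V)
    {Ω : Finset α} {n k : ℕ} {a0 b0 : α} (x : α → ℝ) (hk : 10 ^ 26 ≤ k) (hkn : k < n) (hΩ : Ω.card = n) (ha0 : a0 ∈ Ω) (hb0 : b0 ∈ Ω)
    (hxa : x a0 = 1) (hsum : sg x Ω = 0)
    (hP0 : ((Q0 : ℝ) + 1) / 16384 ≤ (k : ℝ) / ((n : ℝ) - k)) (hP1 : (k : ℝ) / ((n : ℝ) - k) ≤ ((Q1 : ℝ) - 1) / 16384)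
    (hxb : x b0 < -1) (hps : ps x 2 (Ω.erase a0) ≤ 1.06) :
    (n - 1).choose (k - 1) ≤ cnt x Ω k 0 := by
  have hne : b0 ≠ a0 := by
    intro h
    rw [h, hxa] at hxb
    linarith
  have hb0' : b0 ∈ Ω.erase a0 := mem_erase.2 ⟨hne, hb0⟩
  obtain ⟨R, hR⟩ : ∃ R : Finset α, R = (Ω.erase a0).erase b0 := ⟨_, rfl⟩
  have hins1 : insert b0 R = Ω.erase a0 := by rw [hR, insert_erase hb0']
  have hins : insert a0 (insert b0 R) = Ω := by rw [hins1, insert_erase ha0]
  have hbR : b0 ∉ R := by rw [hR]; exact notMem_erase _ _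
  have haR : a0 ∉ insert b0 R := by rw [hins1]; exact notMem_erase _ _
  have hcard : R.card + 2 = n := by
    rw [← hΩ, ← hins, card_insert_of_notMem haR, card_insert_of_notMem hbR]
  have hps1 : ps x 2 (Ω.erase a0) = x b0 ^ 2 + ps x 2 R := by
    rw [hR, ps_erase x 2 hb0']
    ring
  have hpsR : 0 ≤ ps x 2 R := by
    unfold ps
    exact sum_nonneg fun i _ => sq_nonneg _
  have hsg : sg x R = -(x b0) - 1 := by
    have h1 := sg_erase x Ω ha0
    have h2 := sg_erase x (Ω.erase a0) hb0'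
    rw [← hR] at h2
    rw [hsum, hxa] at h1
    linarith
  rw [hps1] at hps
  have hsq1 : 1 < x b0 ^ 2 := by nlinarith
  have hsq2 : x b0 ^ 2 ≤ 1.06 := by linarith
  have hVr : (60000 : ℝ) ≤ (s.V : ℝ) := by exact_mod_cast hV
  rw [← hins]
  refine star_b hlow hvl hvs hws hQ5 hQ1 hchk hmb x hk hkn hbR haR hcard hxa hsg hP0 hP1 ?_ ?_ ?_
  · rw [hlo]
    push_cast
    linarith
  · rw [hhi]
    push_cast
    by_contra hcon
    push Not at hcon
    nlinarith
  · rw [le_div_iff₀ (by norm_num)]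
    norm_num at hps
    linarith

theorem star_xc {Q0 Q1 : ℕ} {vs ws : List ℕ} (hlow : StarLowOk Q0 Q1 vs) (hvl : vs.length = 201)
    (hvs : ∀ v ∈ vs, v ≤ 65536) (hws : wOk vs ws = true) (hQ5 : 3277 ≤ Q0) (hQ1 : Q1 ≤ 8192)
    {b1s : List S1} (hb1 : ∀ s ∈ b1s, b1Ok Q0 Q1 vs ws s = true ∧ s.mb ≤ 1000000)
    {b2s : List S2} (hb2 : ∀ s ∈ b2s, b2Ok Q0 Q1 vs ws s = true ∧ s.mb ≤ 1000000)
    {Ω : Finset α} {n k : ℕ} {a0 : α} {es : List α} (x : α → ℝ) (hk : 10 ^ 26 ≤ k) (hkn : k < n) (hΩ : Ω.card = n)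
    (hn : (a0 :: es).Nodup) (he : (a0 :: es).toFinset = Ω)
    (hxa : x a0 = 1) (hsum : sg x Ω = 0)
    (hP0 : ((Q0 : ℝ) + 1) / 16384 ≤ (k : ℝ) / ((n : ℝ) - k)) (hP1 : (k : ℝ) / ((n : ℝ) - k) ≤ ((Q1 : ℝ) - 1) / 16384)
    (hexc : Exc (b1s.map S1.xc ++ b2s.map S2.xc) ((a0 :: es).map x)) :
    (n - 1).choose (k - 1) ≤ cnt x Ω k 0 := by
  obtain ⟨X, hX, es1, es2, hes, hmt, hss⟩ := exc_elems hexc
  rw [List.mem_append, List.mem_map, List.mem_map] at hX
  rcases hX with ⟨s, hs, rfl⟩ | ⟨s, hs, rfl⟩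
  · obtain ⟨hchk, hmb⟩ := hb1 s hs
    have hlen : es1.length = 2 := by
      have h1 := List.Forall₂.length_eq hmt
      rw [List.length_reverse, List.length_map] at h1
      exact h1.symm
    obtain ⟨p, q, rfl⟩ := List.length_eq_two.1 hlen
    have hmt' : Mt [At.m s.blo s.bhi, At.p 1000 1000] [x q, x p] := hmt
    have hfit : Fit (At.m s.blo s.bhi) (x q) := by
      cases hmt' with
      | cons h1 h2 => exact h1
    have hes' : a0 :: es = p :: q :: es2 := hes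
    obtain ⟨rfl, rfl⟩ := List.cons.inj hes'
    rw [List.nodup_cons, List.nodup_cons] at hn
    obtain ⟨hn1, hn2, hn3⟩ := hn
    obtain ⟨R, hR⟩ : ∃ R : Finset α, R = es2.toFinset := ⟨_, rfl⟩
    have hins : insert a0 (insert q R) = Ω := by
      rw [← he, List.toFinset_cons, List.toFinset_cons, hR]
    have hqR : q ∉ R := by rw [hR, List.mem_toFinset]; exact hn2
    have haR : a0 ∉ insert q R := by
      rw [hR, ← List.toFinset_cons, List.mem_toFinset]
      exact hn1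
    have hcard : R.card + 2 = n := by
      rw [← hΩ, ← hins, card_insert_of_notMem haR, card_insert_of_notMem hqR]
    have hsg : sg x R = -(x q) - 1 := by
      have h1 : sg x Ω = x a0 + (x q + sg x R) := by
        rw [← hins]
        unfold sg
        rw [sum_insert haR, sum_insert hqR]
      rw [hsum, hxa] at h1
      linarith
    have hps : ps x 2 R ≤ (s.V : ℝ) / 1000000 := by
      rw [← ss_enum hn3 hR.symm x, le_div_iff₀ (by norm_num)]
      have h1 : 1000000 * ss (es2.map x) ≤ (s.V : ℝ) := hss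
      linarith
    rw [← hins]
    exact star_b hlow hvl hvs hws hQ5 hQ1 hchk hmb x hk hkn hqR haR hcard hxa hsg hP0 hP1
      hfit.1 hfit.2 hps
  · obtain ⟨hchk, hmb⟩ := hb2 s hs
    have hlen : es1.length = 3 := by
      have h1 := List.Forall₂.length_eq hmt
      rw [List.length_reverse, List.length_map] at h1
      exact h1.symm
    obtain ⟨p, q, r, rfl⟩ := List.length_eq_three.1 hlen
    have hmt' : Mt [At.m s.b2lo s.b2hi, At.m s.b1lo s.b1hi, At.p 1000 1000] [x r, x q, x p] := hmt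
    have hfit : Fit (At.m s.b2lo s.b2hi) (x r) ∧ Fit (At.m s.b1lo s.b1hi) (x q) := by
      cases hmt' with
      | cons h1 h2 =>
        cases h2 with
        | cons h3 h4 => exact ⟨h1, h3⟩
    obtain ⟨hf2, hf1⟩ := hfit
    have hes' : a0 :: es = p :: q :: r :: es2 := hes
    obtain ⟨rfl, rfl⟩ := List.cons.inj hes'
    rw [List.nodup_cons, List.nodup_cons, List.nodup_cons] at hn
    obtain ⟨hn1, hn2, hn3, hn4⟩ := hn
    obtain ⟨R, hR⟩ : ∃ R : Finset α, R = es2.toFinset := ⟨_, rfl⟩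
    have hins : insert a0 (insert q (insert r R)) = Ω := by
      rw [← he, List.toFinset_cons, List.toFinset_cons, List.toFinset_cons, hR]
    have hrR : r ∉ R := by rw [hR, List.mem_toFinset]; exact hn3
    have hqR : q ∉ insert r R := by
      rw [hR, ← List.toFinset_cons, List.mem_toFinset]
      exact hn2
    have haR : a0 ∉ insert q (insert r R) := by
      rw [hR, ← List.toFinset_cons, ← List.toFinset_cons, List.mem_toFinset]
      exact hn1
    have hcard : R.card + 3 = n := by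
      rw [← hΩ, ← hins, card_insert_of_notMem haR, card_insert_of_notMem hqR,
        card_insert_of_notMem hrR]
    have hsg : sg x R = -(x q) - x r - 1 := by
      have h1 : sg x Ω = x a0 + (x q + (x r + sg x R)) := by
        rw [← hins]
        unfold sg
        rw [sum_insert haR, sum_insert hqR, sum_insert hrR]
      rw [hsum, hxa] at h1
      linarith
    have hps : ps x 2 R ≤ (s.V : ℝ) / 1000000 := by
      rw [← ss_enum hn4 hR.symm x, le_div_iff₀ (by norm_num)]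
      have h1 : 1000000 * ss (es2.map x) ≤ (s.V : ℝ) := hss
      linarith
    rw [← hins]
    exact star_c hlow hvl hvs hws hQ5 hQ1 hchk hmb x hk hkn hrR hqR haR hcard hxa hsg hP0 hP1
      hf1.1 hf1.2 hf2.1 hf2.2 hps

end Pool.Agent.MMS15
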