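import Pool.Agent.MMS15.ChgA
import Pool.Agent.MMS15.ChgB
import Pool.Agent.MMS15.Cnt

/-!
# MMS15/T3: near the extremal vector (three large negative entries `x ji = - ci`, `ci ∈ [0.8, 1]`)

`|R| = n - 3`, `S := sg x R = c1 + c2 + c3 ≥ 2.4`.  By `cnt_insert` (three times) `cnt x Ω k 0 ≥ cnt x R k 0 + ∑ cnt x R (k-1) ci`, and `cnt x R k 0 = C(n-3,k) - bad x R k 0` (`cnt_add_bad`),
so by `hNk` it is enough that `bad x R k 0 ≤ ∑ cnt x R (k-1) ci`.
`charge` for each `i` with `a = k`, `b = k - 1`, `A = 0`, `B = ci`, `e = 0`, `κ = 4/3`, `w g = 1 + (max 0 (0.4529 (S - g)))² / v`, `v = 0.0376`: then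
`bad ≤ (4/3) C(n-2-k, k) / C(n-3-k, k-1) cnt_i = (4/3) ((n-2-k)/k) cnt_i` (`choose_eq`), the sum over `i` gives `3 bad ≤ (4/3) ((n-2-k)/k) ∑ cnt_i ≤ 3 ∑ cnt_i` as `(n-2-k)/k ≤ 9/4`.
* `h1`: `W = R \ g`, `|W| = n - 2 - k`, `k mean x W = (k/(n-2-k)) (S - sg x g)`: `chg_cantelli` with `φ = 0.4529 (S - sg x g)`; variance `≤ v` by `chg_var` with `Q = 1/2`
  (`1.0001 / 4 * 0.15 ≤ 0.0376`), `k/(n-2-k) ≤ 1/2` and `≥ 0.4529`.
* `h2`: `W = R \ U`, `|W| = n - 3 - k`, `sg x W = S - sg x U > S`, `μ = (k-1) mean x W ≥ 0.4529 S` (`(k-1)/(n-3-k) ≥ 0.4529` as `k/(n-k) ≥ 0.457`), so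
  `e := μ - ci ≥ 0.4529 (ci + 1.6) - ci ≥ 0.1775`.  `π = pr W (k-1) (ci ≤ sg x ·) ≥ e²/(v + e²)` (Cantelli).  If `e ≥ 0.336` then `π ≥ 3/4` and the average is `≥ π`.
  Otherwise `chg_jensen` (`A = 0.4529 S`, `Q = 0.4529`, `β = ci`): `π ≥ 0.45`, `√(v (1-π)/π) ≤ v/e ≤ 0.212`,
  `0.4529 (S - μ - 0.212) ≥ 0.4529 (1.6 - 0.336 - 0.212) ≥ 0.47`, `π (1 + 0.47²/v) ≥ 3/4`.
-/

open Finset Pool.Agent.H36.MMS

set_option autoImplicit false

namespace Pool.Agent.MMS15

variable {α : Type*} [DecidableEq α]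

private theorem t3_ratio {M k : ℕ} (hk : 1 ≤ k) (hM : k ≤ M + 1) (h : 4 * (M + 1) ≤ 9 * k) :
    ((M + 1).choose k : ℝ) / (M.choose (k - 1) : ℝ) ≤ 9 / 4 := by
  have h1 := Nat.add_one_mul_choose_eq M (k - 1)
  have h2 : k - 1 + 1 = k := by omega
  rw [h2] at h1
  have hc : 0 < M.choose (k - 1) := Nat.choose_pos (by omega)
  have hcR : (0 : ℝ) < (M.choose (k - 1) : ℝ) := by exact_mod_cast hc
  rw [div_le_iff₀ hcR]
  have h3 : ((M : ℝ) + 1) * (M.choose (k - 1) : ℝ) = ((M + 1).choose k : ℝ) * k := by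
    exact_mod_cast h1
  have hkR : (0 : ℝ) < k := by exact_mod_cast hk
  have h4 : 4 * ((M : ℝ) + 1) ≤ 9 * k := by exact_mod_cast h
  have h5 : ((M + 1).choose k : ℝ) * k ≤ 9 / 4 * (M.choose (k - 1) : ℝ) * k := by
    rw [← h3]
    nlinarith
  exact le_of_mul_le_mul_right h5 hkR

private theorem t3_one {R : Finset α} {n k : ℕ} (x : α → ℝ) (hk : 10 ^ 26 ≤ k) (hkn : k < n)
    (hR : R.card + 3 = n)
    (hP0 : 0.457 ≤ (k : ℝ) / ((n : ℝ) - k)) (hP1 : (k : ℝ) / ((n : ℝ) - k) ≤ 0.47) {c : ℝ}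
    (hc1 : c ≤ 1) (hS : c + 1.6 ≤ sg x R) (hS2 : 2.4 ≤ sg x R) (hV : ps x 2 R ≤ 0.15) :
    (bad x R k 0 : ℝ) ≤ 3 * (cnt x R (k - 1) c : ℝ) := by
  have hkR : (10 : ℝ) ^ 26 ≤ k := by exact_mod_cast hk
  have hkR2 : (1000000 : ℝ) ≤ k := le_trans (by norm_num) hkR
  have hnk : (0 : ℝ) < (n : ℝ) - k := by
    have : (k : ℝ) < n := by exact_mod_cast hkn
    linarith
  rw [le_div_iff₀ hnk] at hP0
  rw [div_le_iff₀ hnk] at hP1
  have hn3 : 3 * k + 100000 ≤ n := by
    have : 3 * (k : ℝ) + 100000 ≤ n := by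
      norm_num at hP0 hP1 ⊢
      linarith
    exact_mod_cast this
  have hk1 : ((k - 1 : ℕ) : ℝ) = k - 1 := by
    rw [Nat.cast_sub (by omega), Nat.cast_one]
  have hch := charge (R := R) (a := k) (b := k - 1) x (A := 0) (B := c) (δ := 0) (e := 0)
    (κ := 4 / 3) le_rfl (by norm_num) (by omega) (by omega)
    (fun s => 1 + (max 0 (0.4529 * sg x R - 0.4529 * s)) ^ 2 / 0.0376) ?_ ?_
  · have e1 : R.card - (k - 1) = (R.card - k) + 1 := by omega
    have hr := t3_ratio (M := R.card - k) (k := k) (by omega) (by omega) (by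
      have h4 : 4 * ((n : ℝ) - k) ≤ 9 * k := by
        norm_num at hP0 ⊢
        linarith
      have h5 : 4 * (n : ℝ) ≤ 13 * k := by linarith
      have h6 : 4 * n ≤ 13 * k := by exact_mod_cast h5
      omega)
    rw [zero_mul, zero_add, e1] at hch
    have h7 : (0 : ℝ) ≤ (cnt x R (k - 1) c : ℝ) := by positivity
    calc (bad x R k 0 : ℝ) ≤ 4 / 3 * (((R.card - k + 1).choose k : ℝ) /
          ((R.card - k).choose (k - 1) : ℝ)) * (cnt x R (k - 1) c : ℝ) := hch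
      _ ≤ 4 / 3 * (9 / 4) * (cnt x R (k - 1) c : ℝ) :=
          mul_le_mul_of_nonneg_right (mul_le_mul_of_nonneg_left hr (by norm_num)) h7
      _ = 3 * (cnt x R (k - 1) c : ℝ) := by ring
  · intro g hg hgc _
    have hWc : (R \ g).card + k + 2 = n := by
      rw [card_sdiff_of_subset hg]
      omega
    have hWR : ((R \ g).card : ℝ) = n - k - 2 := by
      have : ((R \ g).card : ℝ) + k + 2 = n := by exact_mod_cast hWc
      linarith
    have hWp : (0 : ℝ) < ((R \ g).card : ℝ) := by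
      rw [hWR]
      norm_num at hP1 ⊢
      linarith
    obtain ⟨v1, v2⟩ := chg_var (R := R) (W := R \ g) (k := k) x (V := 0.15) (Q := 1 / 2)
      (by omega) (by omega) (by
        rw [div_le_iff₀ hWp, hWR]
        norm_num at hP1 ⊢
        linarith) le_rfl hV sdiff_subset
    refine chg_cantelli x (by omega) (by omega) (v := 0.0376) (A := 0) (by norm_num)
      (v1.trans (by norm_num)) v2 ?_
    intro hφ
    have hs : sg x (R \ g) = sg x R - sg x g := sg_sdiff x hg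
    have hpos : 0 < sg x R - sg x g := by
      by_contra hcon
      push Not at hcon
      norm_num at hφ
      linarith
    unfold mean
    rw [hs, sub_zero, ← mul_div_assoc, le_div_iff₀ hWp, hWR]
    have h4 : 0.4529 * ((n : ℝ) - k - 2) ≤ k := by
      norm_num at hP0 ⊢
      linarith
    calc (0.4529 * sg x R - 0.4529 * sg x g) * ((n : ℝ) - k - 2)
        = (0.4529 * ((n : ℝ) - k - 2)) * (sg x R - sg x g) := by ring
      _ ≤ k * (sg x R - sg x g) := mul_le_mul_of_nonneg_right h4 hpos.le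
  · intro U hU hUc hUs
    have hWc : (R \ U).card + k + 3 = n := by
      rw [card_sdiff_of_subset hU]
      omega
    have hWR : ((R \ U).card : ℝ) = n - k - 3 := by
      have : ((R \ U).card : ℝ) + k + 3 = n := by exact_mod_cast hWc
      linarith
    have hWp : (0 : ℝ) < ((R \ U).card : ℝ) := by
      rw [hWR]
      norm_num at hP1 ⊢
      linarith
    have hkW : k - 1 ≤ (R \ U).card := by omega
    obtain ⟨v1, v2⟩ := chg_var (R := R) (W := R \ U) (k := k - 1) x (V := 0.15) (Q := 1 / 2)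
      (by omega) hkW (by
        rw [div_le_iff₀ hWp, hWR, hk1]
        norm_num at hP1 ⊢
        linarith) le_rfl hV sdiff_subset
    have v1' : Vh (R \ U).card ((k - 1 : ℕ) : ℝ) * dev x (R \ U) ≤ 0.0376 :=
      v1.trans (by norm_num)
    have hs : sg x (R \ U) = sg x R - sg x U := sg_sdiff x hU
    set μ : ℝ := ((k - 1 : ℕ) : ℝ) * mean x (R \ U) with hμ
    have hμ1 : 0.4529 * sg x R ≤ μ := by
      rw [hμ]
      unfold mean
      rw [hs, ← mul_div_assoc, le_div_iff₀ hWp, hWR, hk1]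
      have h4 : 0.4529 * ((n : ℝ) - k - 3) ≤ (k : ℝ) - 1 := by
        norm_num at hP0 hP1 ⊢
        linarith
      have h5 : 0 ≤ 0.4529 * ((n : ℝ) - k - 3) := by
        rw [hWR] at hWp
        exact mul_nonneg (by norm_num) hWp.le
      have h6 : (0 : ℝ) ≤ sg x R := by
        norm_num at hS2
        linarith
      calc 0.4529 * sg x R * ((n : ℝ) - k - 3) = 0.4529 * ((n : ℝ) - k - 3) * sg x R := by ring
        _ ≤ ((k : ℝ) - 1) * (sg x R - sg x U) :=
            mul_le_mul h4 (by linarith) h6 (by linarith)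
    have he : 0.1775 ≤ μ - c := by
      norm_num at hμ1 hS ⊢
      linarith
    set q := pr (R \ U) (k - 1) (fun S => sg x S < c) with hq
    set p := pr (R \ U) (k - 1) (fun S => c ≤ sg x S) with hp
    have hpq : p = 1 - q := pr_compl hkW (fun S => sg x S < c) (fun S => c ≤ sg x S)
      (fun S _ _ => not_lt.symm)
    have hcan : q * (1 + (max 0 (μ - c)) ^ 2 / 0.0376) ≤ 1 :=
      chg_cantelli x hkW (by omega) (by norm_num) v1' v2 (fun _ => le_rfl)
    have he0 : 0 ≤ μ - c := le_trans (by norm_num) he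
    rw [max_eq_right he0] at hcan
    have hq0 : 0 ≤ q := pr_nonneg _ _ _
    have hcan2 : q * (0.0376 + (μ - c) ^ 2) ≤ 0.0376 := by
      have h5 : q * (0.0376 + (μ - c) ^ 2) = q * (1 + (μ - c) ^ 2 / 0.0376) * 0.0376 := by
        field_simp
      rw [h5]
      have := mul_le_mul_of_nonneg_right hcan (by norm_num : (0 : ℝ) ≤ 0.0376)
      linarith
    rw [zero_mul, zero_add]
    rcases le_or_gt 0.336 (μ - c) with hbig | hsmall
    · have h5 : (0.336 : ℝ) ^ 2 ≤ (μ - c) ^ 2 := pow_le_pow_left₀ (by norm_num) hbig 2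
      have h6 : q * (0.0376 + 0.336 ^ 2) ≤ 0.0376 :=
        (mul_le_mul_of_nonneg_left (by linarith) hq0).trans hcan2
      have h7 : 3 / 4 ≤ p := by
        rw [hpq]
        norm_num at h6 ⊢
        linarith
      have h8 : p ≤ avg (R \ U) (k - 1) (fun g => if c ≤ sg x g then
          1 + (max 0 (0.4529 * sg x R - 0.4529 * sg x g)) ^ 2 / 0.0376 else 0) := by
        rw [hp]
        unfold pr
        refine avg_mono fun g _ _ => ?_
        split_ifs
        · have : 0 ≤ (max 0 (0.4529 * sg x R - 0.4529 * sg x g)) ^ 2 / 0.0376 := by positivity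
          linarith
        · exact le_rfl
      linarith
    · have h5 : (0.1775 : ℝ) ^ 2 ≤ (μ - c) ^ 2 := pow_le_pow_left₀ (by norm_num) he 2
      have h6 : q * (0.0376 + 0.1775 ^ 2) ≤ 0.0376 :=
        (mul_le_mul_of_nonneg_left (by linarith) hq0).trans hcan2
      have h7 : 0.45 ≤ p := by
        rw [hpq]
        norm_num at h6 ⊢
        linarith
      have hp0 : 0 < p := lt_of_lt_of_le (by norm_num) h7
      have hj := chg_jensen x hkW (by omega) (A := 0.4529 * sg x R) (Q := 0.4529) (v := 0.0376)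
        (β := c) (π := p) (by norm_num) (by norm_num) v1' hp hp0
      have h8 : √(0.0376 * ((1 - p) / p)) ≤ 0.212 := by
        apply Real.sqrt_le_iff.2
        refine ⟨by norm_num, ?_⟩
        rw [← mul_div_assoc, div_le_iff₀ hp0]
        have h9 : 1 - p = q := by rw [hpq]; ring
        rw [h9]
        have h10 : q = 1 - p := h9.symm
        norm_num at h6 ⊢
        linarith
      have h9 : 0.47 ≤ 0.4529 * sg x R - 0.4529 * (μ + √(0.0376 * ((1 - p) / p))) := by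
        norm_num at h8 hsmall hS ⊢
        linarith
      have h10 : (0.47 : ℝ) ^ 2 ≤
          (max 0 (0.4529 * sg x R - 0.4529 * (μ + √(0.0376 * ((1 - p) / p))))) ^ 2 :=
        pow_le_pow_left₀ (by norm_num) (h9.trans (le_max_right _ _)) 2
      have h11 : (0.45 : ℝ) * (1 + 0.47 ^ 2 / 0.0376) ≤ p * (1 +
          (max 0 (0.4529 * sg x R - 0.4529 * (μ + √(0.0376 * ((1 - p) / p))))) ^ 2 / 0.0376) := by
        apply mul_le_mul h7 _ (by norm_num) hp0.le
        have := div_le_div_of_nonneg_right h10 (by norm_num : (0 : ℝ) ≤ 0.0376)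
        linarith
      have h12 := h11.trans hj
      norm_num at h12 ⊢
      linarith

theorem t3 {Ω R : Finset α} {n k : ℕ} {j1 j2 j3 : α} (x : α → ℝ) (hk : 10 ^ 26 ≤ k) (hkn : k < n)
    (h3 : j3 ∉ R) (h2 : j2 ∉ insert j3 R) (h1 : j1 ∉ insert j2 (insert j3 R))
    (hΩ : Ω = insert j1 (insert j2 (insert j3 R))) (hR : R.card + 3 = n) (hsum : sg x Ω = 0)
    (hP0 : 0.457 ≤ (k : ℝ) / ((n : ℝ) - k)) (hP1 : (k : ℝ) / ((n : ℝ) - k) ≤ 0.47)
    (hj1 : 0.8 ≤ -(x j1) ∧ -(x j1) ≤ 1) (hj2 : 0.8 ≤ -(x j2) ∧ -(x j2) ≤ 1) (hj3 : 0.8 ≤ -(x j3) ∧ -(x j3) ≤ 1)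
    (hV : ps x 2 R ≤ 0.15) (hNk : (n - 1).choose (k - 1) ≤ (n - 3).choose k) :
    (n - 1).choose (k - 1) ≤ cnt x Ω k 0 := by
  obtain ⟨m, rfl⟩ : ∃ m, k = m + 2 := ⟨k - 2, by omega⟩
  have hsR : sg x R = -(x j1) + -(x j2) + -(x j3) := by
    rw [hΩ] at hsum
    unfold sg at hsum ⊢
    rw [sum_insert h1, sum_insert h2, sum_insert h3] at hsum
    linarith
  obtain ⟨a1, b1⟩ := hj1
  obtain ⟨a2, b2⟩ := hj2
  obtain ⟨a3, b3⟩ := hj3
  have s2 : 2.4 ≤ sg x R := by
    rw [hsR]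
    norm_num at a1 a2 a3 ⊢
    linarith
  have o1 := t3_one x hk hkn hR hP0 hP1 b1 (by rw [hsR]; norm_num at a2 a3 ⊢; linarith) s2 hV
  have o2 := t3_one x hk hkn hR hP0 hP1 b2 (by rw [hsR]; norm_num at a1 a3 ⊢; linarith) s2 hV
  have o3 := t3_one x hk hkn hR hP0 hP1 b3 (by rw [hsR]; norm_num at a1 a2 ⊢; linarith) s2 hV
  have hm : m + 2 - 1 = m + 1 := by omega
  rw [hm] at o1 o2 o3
  have e1 := cnt_insert x h1 (m + 1) 0
  have e2 := cnt_insert x h2 (m + 1) 0
  have e3 := cnt_insert x h3 (m + 1) 0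
  have e4 := cnt_insert x h2 m (0 - x j1)
  have e5 := cnt_insert x h3 m (0 - x j1)
  have e6 := cnt_insert x h3 m (0 - x j2)
  have e7 := cnt_add_bad x R (m + 2) 0
  have hRc : R.card = n - 3 := by omega
  rw [hRc] at e7
  rw [zero_sub] at e1 e2 e3 e4 e5 e6
  have hb : bad x R (m + 2) 0 ≤
      cnt x R (m + 1) (-x j1) + cnt x R (m + 1) (-x j2) + cnt x R (m + 1) (-x j3) := by
    have : (bad x R (m + 2) 0 : ℝ) ≤
        cnt x R (m + 1) (-x j1) + cnt x R (m + 1) (-x j2) + cnt x R (m + 1) (-x j3) := by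
      linarith
    exact_mod_cast this
  rw [hΩ]
  have r1 : m + 1 + 1 = m + 2 := rfl
  rw [r1] at e1 e2 e3
  omega

end Pool.Agent.MMS15
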