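import Pool.Agent.MMS15.PwDefs

/-!
# MMS15/T4C: numbers for the case of two large positive and two large negative entries (no sets)

`t4Ok`: numeric check, `v00` row `0`, `v0` row `401`, `g` pairs (units `2^-16`), at `p = P1 / 2^14`.
`choose4`: `C(n-4, k-j) / C(n, k) = k (k-1) .. (k-j+1) (n-k) .. (n-k-3+j) / (n (n-1) (n-2) (n-3))` (for `j ≤ 4 ≤ k`, `k + 4 ≤ n`; iterate `C(n-1,k-1) = (k/n) C(n,k)` (`choose_eq` in `H36/MMS`) and
`C(n-1,k) = ((n-k)/n) C(n,k)`), each factor `(k - i)/(n - i')` is `≥ p - 3/n`, `(n-k-i)/(n-i') ≥ q - 3/n`.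
`t4_num0`, `t4_num1`: `z = p q`, `2 p q³ + p² q² + 2 p³ q = z (2 - 3 z)`; `b = P1/2^14`, `z_b = b (1 - b)`.  By the check both hold with `+ 2/2^14` at `p = b` (`v00 ≥ 16` etc. is not needed: truncated
subtraction; real `v00 - 16` may be replaced by the maximum with `0`... the case `v00 < 16` contradicts the check, as then the first term is `0` and the rest is too small), and the difference (left side `-` right side)
is at least the one at `b`: `z_b - z_p = (b - p)(1 - b - p)`, `z (2 - 3z)` differs by `(z_b - z_p)(2 - 3 (z_b + z_p)) ≤ 0.5 (b - p)` (`0.2496 ≤ p ≤ b ≤ 0.3177`),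
`2 g' (z_b² - z_p²) ≤ 0.16 (b - p)` (`g' ≤ 1/3` by the check), `v0' (b⁴ - p⁴) ≤ 0.13 (b - p)`, `(1-p)⁴ ≥ (1-b)⁴`.
-/

set_option autoImplicit false

namespace Pool.Agent.MMS15

open Pool.Agent.MMS14

/-- numeric check: `v00` row `0`, `v0` row `401`, `g` pairs (units `2^-16`), at `p = P1 / 2^14` -/
def t4Ok (P1 v00 v0 g : ℕ) : Bool :=
  et (Nat.ble 32 g) (et (Nat.ble 16 v0) (et (Nat.ble 16 v00) (et
  (Nat.ble (Nat.mul 3 g) 65536) (et (Nat.ble (Nat.mul 3 v0) 65536) (et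
  (Nat.ble (Nat.mul (Nat.add P1 2) 288230376151711744) (Nat.add
    (Nat.mul (Nat.sub v00 16) (Nat.mul (Nat.mul P1 (Nat.sub 16384 P1)) (Nat.sub 536870912 (Nat.mul 3 (Nat.mul P1 (Nat.sub 16384 P1))))))
    (Nat.mul (Nat.sub v0 16) (Nat.mul (Nat.mul (Nat.sub 16384 P1) (Nat.sub 16384 P1)) (Nat.mul (Nat.sub 16384 P1) (Nat.sub 16384 P1))))))
  (Nat.ble (Nat.mul (Nat.add P1 2) 288230376151711744) (Nat.add
    (Nat.mul (Nat.sub v00 16) (Nat.mul (Nat.mul P1 (Nat.sub 16384 P1)) (Nat.sub 536870912 (Nat.mul 3 (Nat.mul P1 (Nat.sub 16384 P1))))))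
    (Nat.add (Nat.mul (Nat.mul 2 (Nat.sub g 32)) (Nat.mul (Nat.mul P1 (Nat.sub 16384 P1)) (Nat.mul P1 (Nat.sub 16384 P1))))
      (Nat.mul (Nat.sub v0 16) (Nat.mul (Nat.mul P1 P1) (Nat.mul P1 P1)))))))))))

private theorem et_true_T4C {a b : Bool} : et a b = true ↔ a = true ∧ b = true := by
  cases a <;> cases b <;> decide

private theorem choose_zero_step_T4C {N K : ℕ} (hN : 1 ≤ N) (hK : K ≤ N) :
    ((N - 1).choose K : ℝ) = ((N : ℝ) - K) / N * (N.choose K : ℝ) := by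
  obtain ⟨M, rfl⟩ : ∃ M, N = M + 1 := ⟨N - 1, by omega⟩
  have h1 := Nat.choose_mul_succ_eq M K
  have h2 : (M.choose K : ℝ) * ((M + 1 : ℕ) : ℝ) = ((M + 1).choose K : ℝ) * ((M + 1 - K : ℕ) : ℝ) := by
    exact_mod_cast h1
  rw [Nat.cast_sub hK] at h2
  have h3 : ((M + 1 : ℕ) : ℝ) ≠ 0 := by positivity
  rw [Nat.add_sub_cancel, div_mul_eq_mul_div, eq_div_iff h3, h2]
  ring

private theorem pow_diff_T4C {a p : ℝ} (ha : 0 ≤ a) (hap : a ≤ p) (hp : p ≤ 1) (j : ℕ) :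
    p ^ j - a ^ j ≤ j * (p - a) := by
  induction j with
  | zero => simp
  | succ j ih =>
    have h1 : p ^ (j + 1) - a ^ (j + 1) = p ^ j * (p - a) + a * (p ^ j - a ^ j) := by ring
    have h2 : p ^ j ≤ 1 := pow_le_one₀ (ha.trans hap) hp
    have h3 : p ^ j * (p - a) ≤ 1 * (p - a) := mul_le_mul_of_nonneg_right h2 (by linarith)
    have h4 : 0 ≤ p ^ j - a ^ j := by
      have := pow_le_pow_left₀ ha hap j
      linarith
    have h5 : a * (p ^ j - a ^ j) ≤ 1 * (p ^ j - a ^ j) :=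
      mul_le_mul_of_nonneg_right (hap.trans hp) h4
    rw [h1]
    push_cast
    linarith

private theorem choose_eq_T4C {n k : ℕ} (hk : 1 ≤ k) (hn : k ≤ n) :
    ((n-1).choose (k-1) : ℝ) = (k:ℝ)/n * (n.choose k : ℝ) := by
  obtain ⟨j, rfl⟩ : ∃ j, k = j + 1 := ⟨k - 1, by omega⟩
  obtain ⟨n', rfl⟩ : ∃ n', n = n' + 1 := ⟨n - 1, by omega⟩
  have h1 : ((n'+1 : ℕ):ℝ) * (n'.choose j : ℝ) = ((n'+1).choose (j+1) : ℝ) * ((j+1 : ℕ):ℝ) := by
    exact_mod_cast Nat.add_one_mul_choose_eq n' j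
  have h2 : ((n'+1 : ℕ):ℝ) ≠ 0 := by positivity
  simp only [Nat.add_sub_cancel]
  rw [div_mul_eq_mul_div, eq_div_iff h2]
  linarith

theorem choose4 {n k j : ℕ} (hk : 10 ^ 26 ≤ k) (hkn : 2 * k ≤ n) (hj : j ≤ 4) :
    (((k : ℝ) / n) ^ j * (1 - (k : ℝ) / n) ^ (4 - j) - 1 / 10 ^ 9) * (n.choose k : ℝ) ≤ ((n - 4).choose (k - j) : ℝ) := by
  have hk4 : 4 ≤ k := le_trans (by norm_num) hk
  have hkR : (10 : ℝ) ^ 26 ≤ k := by exact_mod_cast hk
  have hknR : 2 * (k : ℝ) ≤ n := by exact_mod_cast hkn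
  have hn0 : (0 : ℝ) < n := by nlinarith
  obtain ⟨δ, hδ⟩ : ∃ δ : ℝ, δ = 3 / n := ⟨_, rfl⟩
  obtain ⟨p, hp⟩ : ∃ p : ℝ, p = (k : ℝ) / n := ⟨_, rfl⟩
  rw [← hp]
  have hδ0 : 0 ≤ δ := by rw [hδ]; positivity
  have hδ1 : δ ≤ 1 / 10 ^ 25 := by
    rw [hδ, div_le_div_iff₀ hn0 (by positivity)]
    nlinarith
  have hp2 : p ≤ 1 / 2 := by
    rw [hp, div_le_iff₀ hn0]
    linarith
  have hpδ : 0 ≤ p - δ := by
    rw [hp, hδ, ← sub_div]
    apply div_nonneg _ hn0.le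
    have : (3 : ℝ) ≤ k := by exact_mod_cast (by omega : 3 ≤ k)
    linarith
  have hqδ : 0 ≤ 1 - p - δ := by
    have : (1 : ℝ) / 10 ^ 25 ≤ 1 / 2 := by norm_num
    linarith
  -- type one steps
  have up1 : ∀ i, i ≤ 4 → (p - δ) ^ i * (n.choose k : ℝ) ≤ ((n - i).choose (k - i) : ℝ) := by
    intro i
    induction i with
    | zero => intro _; simp
    | succ i ih =>
      intro hi
      have h1 := ih (by omega)
      have h2 := choose_eq_T4C (n := n - i) (k := k - i) (by omega) (by omega)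
      have e1 : n - (i + 1) = n - i - 1 := by omega
      have e2 : k - (i + 1) = k - i - 1 := by omega
      rw [e1, e2, h2]
      have hi3 : (i : ℝ) ≤ 3 := by exact_mod_cast (by omega : i ≤ 3)
      have hin : (0 : ℝ) < (n : ℝ) - i := by
        have : (4 : ℝ) ≤ k := by exact_mod_cast hk4
        linarith
      have h3 : p - δ ≤ ((k - i : ℕ) : ℝ) / ((n - i : ℕ) : ℝ) := by
        rw [Nat.cast_sub (by omega), Nat.cast_sub (by omega), hp, hδ, ← sub_div,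
          div_le_div_iff₀ hn0 hin]
        have hi0 : (0 : ℝ) ≤ i := Nat.cast_nonneg i
        have hk0 : (0 : ℝ) ≤ k := Nat.cast_nonneg k
        have h5 : (i : ℝ) * (n - k) ≤ 3 * (n - i) := by
          have h6 : (i : ℝ) * (n - k) ≤ 3 * (n - k) :=
            mul_le_mul_of_nonneg_right hi3 (by linarith)
          have : (4 : ℝ) ≤ k := by exact_mod_cast hk4
          linarith
        nlinarith
      calc (p - δ) ^ (i + 1) * (n.choose k : ℝ) = (p - δ) * ((p - δ) ^ i * (n.choose k : ℝ)) := by ring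
        _ ≤ (p - δ) * ((n - i).choose (k - i) : ℝ) := mul_le_mul_of_nonneg_left h1 hpδ
        _ ≤ _ := mul_le_mul_of_nonneg_right h3 (by positivity)
  have up0 : ∀ i l, i + l ≤ 4 → (1 - p - δ) ^ l * ((n - i).choose (k - i) : ℝ) ≤
      ((n - i - l).choose (k - i) : ℝ) := by
    intro i l
    induction l with
    | zero => intro _; simp
    | succ l ih =>
      intro hil
      have h1 := ih (by omega)
      have h2 := choose_zero_step_T4C (N := n - i - l) (K := k - i) (by omega) (by omega)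
      have e1 : n - i - (l + 1) = n - i - l - 1 := by omega
      rw [e1, h2]
      have hl3 : (l : ℝ) ≤ 3 := by exact_mod_cast (by omega : l ≤ 3)
      have hl0 : (0 : ℝ) ≤ l := Nat.cast_nonneg l
      have hi0 : (0 : ℝ) ≤ i := Nat.cast_nonneg i
      have hin : (0 : ℝ) < (n : ℝ) - i - l := by
        have h4 : (4 : ℝ) ≤ k := by exact_mod_cast hk4
        have h5 : (i : ℝ) + l ≤ 4 := by exact_mod_cast (by omega : i + l ≤ 4)
        linarith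
      have h3 : 1 - p - δ ≤ (((n - i - l : ℕ) : ℝ) - ((k - i : ℕ) : ℝ)) / ((n - i - l : ℕ) : ℝ) := by
        rw [Nat.cast_sub (by omega), Nat.cast_sub (by omega), Nat.cast_sub (by omega), hp, hδ]
        have e2 : 1 - (k : ℝ) / n - 3 / n = (n - k - 3) / n := by
          field_simp
        rw [e2, div_le_div_iff₀ hn0 hin]
        have hk0 : (0 : ℝ) ≤ k := Nat.cast_nonneg k
        have h6 : (n - k - 3 : ℝ) ≤ n - k - l := by linarith
        have h7 : 0 ≤ (n - k - l : ℝ) := by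
          have h4 : (4 : ℝ) ≤ k := by exact_mod_cast hk4
          linarith
        calc ((n : ℝ) - k - 3) * (n - i - l) ≤ (n - k - l) * (n - i - l) :=
              mul_le_mul_of_nonneg_right h6 hin.le
          _ ≤ (n - k - l) * n := mul_le_mul_of_nonneg_left (by linarith) h7
          _ = _ := by ring
      calc (1 - p - δ) ^ (l + 1) * ((n - i).choose (k - i) : ℝ)
          = (1 - p - δ) * ((1 - p - δ) ^ l * ((n - i).choose (k - i) : ℝ)) := by ring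
        _ ≤ (1 - p - δ) * ((n - i - l).choose (k - i) : ℝ) := mul_le_mul_of_nonneg_left h1 hqδ
        _ ≤ _ := mul_le_mul_of_nonneg_right h3 (by positivity)
  have h1 := up1 j hj
  have h2 := up0 j (4 - j) (by omega)
  have e : n - j - (4 - j) = n - 4 := by omega
  rw [e] at h2
  have h3 : (1 - p - δ) ^ (4 - j) * ((p - δ) ^ j * (n.choose k : ℝ)) ≤ ((n - 4).choose (k - j) : ℝ) :=
    (mul_le_mul_of_nonneg_left h1 (by positivity)).trans h2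
  refine le_trans ?_ h3
  have hp0 : 0 ≤ p := by rw [hp]; positivity
  have h4 := pow_diff_T4C hpδ (by linarith : p - δ ≤ p) (by linarith : p ≤ 1) j
  have h5 := pow_diff_T4C hqδ (by linarith : 1 - p - δ ≤ 1 - p) (by linarith : 1 - p ≤ 1) (4 - j)
  have hj4 : (j : ℝ) ≤ 4 := by exact_mod_cast hj
  have hj4' : ((4 - j : ℕ) : ℝ) ≤ 4 := by exact_mod_cast (by omega : 4 - j ≤ 4)
  have h6 : p ^ j - (p - δ) ^ j ≤ 4 * δ := by
    refine h4.trans ?_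
    have : p - (p - δ) = δ := by ring
    rw [this]
    exact mul_le_mul_of_nonneg_right hj4 hδ0
  have h7 : (1 - p) ^ (4 - j) - (1 - p - δ) ^ (4 - j) ≤ 4 * δ := by
    refine h5.trans ?_
    have : 1 - p - (1 - p - δ) = δ := by ring
    rw [this]
    exact mul_le_mul_of_nonneg_right hj4' hδ0
  have h8 : (1 - p) ^ (4 - j) ≤ 1 := pow_le_one₀ (by linarith) (by linarith)
  have h80 : 0 ≤ (1 - p) ^ (4 - j) := by
    have : 0 ≤ 1 - p := by linarith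
    positivity
  have h9 : (p - δ) ^ j ≤ 1 := pow_le_one₀ hpδ (by linarith)
  have h90 : 0 ≤ (p - δ) ^ j := by positivity
  have h10 : p ^ j * (1 - p) ^ (4 - j) - 1 / 10 ^ 9 ≤ (1 - p - δ) ^ (4 - j) * (p - δ) ^ j := by
    have e3 : p ^ j * (1 - p) ^ (4 - j) - (1 - p - δ) ^ (4 - j) * (p - δ) ^ j =
        (1 - p) ^ (4 - j) * (p ^ j - (p - δ) ^ j) +
          (p - δ) ^ j * ((1 - p) ^ (4 - j) - (1 - p - δ) ^ (4 - j)) := by ring
    have h11 : 0 ≤ p ^ j - (p - δ) ^ j := by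
      have := pow_le_pow_left₀ hpδ (by linarith : p - δ ≤ p) j
      linarith
    have h12 : 0 ≤ (1 - p) ^ (4 - j) - (1 - p - δ) ^ (4 - j) := by
      have := pow_le_pow_left₀ hqδ (by linarith : 1 - p - δ ≤ 1 - p) (4 - j)
      linarith
    have h13 : (1 - p) ^ (4 - j) * (p ^ j - (p - δ) ^ j) ≤ 1 * (p ^ j - (p - δ) ^ j) :=
      mul_le_mul_of_nonneg_right h8 h11
    have h14 : (p - δ) ^ j * ((1 - p) ^ (4 - j) - (1 - p - δ) ^ (4 - j)) ≤
        1 * ((1 - p) ^ (4 - j) - (1 - p - δ) ^ (4 - j)) := mul_le_mul_of_nonneg_right h9 h12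
    have h15 : 8 * δ ≤ 1 / 10 ^ 9 := by
      have : (8 : ℝ) * (1 / 10 ^ 25) ≤ 1 / 10 ^ 9 := by norm_num
      linarith
    linarith
  calc (p ^ j * (1 - p) ^ (4 - j) - 1 / 10 ^ 9) * (n.choose k : ℝ)
      ≤ ((1 - p - δ) ^ (4 - j) * (p - δ) ^ j) * (n.choose k : ℝ) :=
        mul_le_mul_of_nonneg_right h10 (by positivity)
    _ = _ := by ring

private theorem ok_T4C {P1 v00 v0 g : ℕ} (h : t4Ok P1 v00 v0 g = true) (hP1 : P1 ≤ 5205) :
    32 ≤ g ∧ 16 ≤ v0 ∧ 16 ≤ v00 ∧ 3 * g ≤ 65536 ∧ 3 * v0 ≤ 65536 ∧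
    ((P1 : ℝ) / 16384 + 2 / 16384 ≤ ((v00 : ℝ) - 16) / 65536 *
      (((P1 : ℝ) / 16384 * (1 - (P1 : ℝ) / 16384)) * (2 - 3 * ((P1 : ℝ) / 16384 * (1 - (P1 : ℝ) / 16384)))) +
      ((v0 : ℝ) - 16) / 65536 * (1 - (P1 : ℝ) / 16384) ^ 4) ∧
    ((P1 : ℝ) / 16384 + 2 / 16384 ≤ ((v00 : ℝ) - 16) / 65536 *
      (((P1 : ℝ) / 16384 * (1 - (P1 : ℝ) / 16384)) * (2 - 3 * ((P1 : ℝ) / 16384 * (1 - (P1 : ℝ) / 16384)))) +
      2 * (((g : ℝ) - 32) / 65536) * ((P1 : ℝ) / 16384 * (1 - (P1 : ℝ) / 16384)) ^ 2 +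
      ((v0 : ℝ) - 16) / 65536 * ((P1 : ℝ) / 16384) ^ 4) := by
  unfold t4Ok at h
  simp only [et_true_T4C] at h
  obtain ⟨h1, h2, h3, h4, h5, h6, h7⟩ := h
  have h1 := Nat.le_of_ble_eq_true h1
  have h2 := Nat.le_of_ble_eq_true h2
  have h3 := Nat.le_of_ble_eq_true h3
  have h4 := Nat.le_of_ble_eq_true h4
  have h5 := Nat.le_of_ble_eq_true h5
  have h6 := Nat.le_of_ble_eq_true h6
  have h7 := Nat.le_of_ble_eq_true h7
  change 3 * g ≤ 65536 at h4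
  change 3 * v0 ≤ 65536 at h5
  change (P1 + 2) * 288230376151711744 ≤
    (v00 - 16) * ((P1 * (16384 - P1)) * (536870912 - 3 * (P1 * (16384 - P1)))) +
    (v0 - 16) * (((16384 - P1) * (16384 - P1)) * ((16384 - P1) * (16384 - P1))) at h6
  change (P1 + 2) * 288230376151711744 ≤
    (v00 - 16) * ((P1 * (16384 - P1)) * (536870912 - 3 * (P1 * (16384 - P1)))) +
    ((2 * (g - 32)) * ((P1 * (16384 - P1)) * (P1 * (16384 - P1))) +
    (v0 - 16) * ((P1 * P1) * (P1 * P1))) at h7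
  obtain ⟨u, hu⟩ : ∃ u, u = 16384 - P1 := ⟨_, rfl⟩
  obtain ⟨w, hw⟩ : ∃ w, w = 536870912 - 3 * (P1 * u) := ⟨_, rfl⟩
  rw [← hu, ← hw] at h6 h7
  have hPu : P1 * u ≤ 5205 * 16384 := Nat.mul_le_mul hP1 (by omega)
  have huR : (u : ℝ) = 16384 - P1 := by
    rw [hu, Nat.cast_sub (by omega)]
    norm_num
  have hwR : (w : ℝ) = 536870912 - 3 * (P1 * u) := by
    rw [hw, Nat.cast_sub (by omega)]
    push_cast
    ring
  have ha : ((v00 - 16 : ℕ) : ℝ) = v00 - 16 := by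
    rw [Nat.cast_sub h3]; norm_num
  have hb : ((v0 - 16 : ℕ) : ℝ) = v0 - 16 := by
    rw [Nat.cast_sub h2]; norm_num
  have hc : ((g - 32 : ℕ) : ℝ) = g - 32 := by
    rw [Nat.cast_sub h1]; norm_num
  have h6R : ((P1 : ℝ) + 2) * 288230376151711744 ≤
      ((v00 - 16 : ℕ) : ℝ) * (((P1 : ℝ) * u) * w) +
      ((v0 - 16 : ℕ) : ℝ) * (((u : ℝ) * u) * (u * u)) := by exact_mod_cast h6
  have h7R : ((P1 : ℝ) + 2) * 288230376151711744 ≤
      ((v00 - 16 : ℕ) : ℝ) * (((P1 : ℝ) * u) * w) +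
      ((2 * ((g - 32 : ℕ) : ℝ)) * (((P1 : ℝ) * u) * (P1 * u)) +
      ((v0 - 16 : ℕ) : ℝ) * (((P1 : ℝ) * P1) * (P1 * P1))) := by exact_mod_cast h7
  rw [ha, hb, hwR, huR] at h6R
  rw [ha, hb, hc, hwR, huR] at h7R
  refine ⟨h1, h2, h3, h4, h5, ?_, ?_⟩
  · have e : ((v00 : ℝ) - 16) / 65536 *
      (((P1 : ℝ) / 16384 * (1 - (P1 : ℝ) / 16384)) * (2 - 3 * ((P1 : ℝ) / 16384 * (1 - (P1 : ℝ) / 16384)))) +
      ((v0 : ℝ) - 16) / 65536 * (1 - (P1 : ℝ) / 16384) ^ 4 =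
      (((v00 : ℝ) - 16) * (((P1 : ℝ) * (16384 - P1)) * (536870912 - 3 * (P1 * (16384 - P1)))) +
      ((v0 : ℝ) - 16) * (((16384 - (P1 : ℝ)) * (16384 - P1)) * ((16384 - P1) * (16384 - P1)))) /
        4722366482869645213696 := by ring
    have e2 : (P1 : ℝ) / 16384 + 2 / 16384 = (((P1 : ℝ) + 2) * 288230376151711744) /
        4722366482869645213696 := by ring
    rw [e, e2]
    exact div_le_div_of_nonneg_right h6R (by norm_num)
  · have e : ((v00 : ℝ) - 16) / 65536 *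
      (((P1 : ℝ) / 16384 * (1 - (P1 : ℝ) / 16384)) * (2 - 3 * ((P1 : ℝ) / 16384 * (1 - (P1 : ℝ) / 16384)))) +
      2 * (((g : ℝ) - 32) / 65536) * ((P1 : ℝ) / 16384 * (1 - (P1 : ℝ) / 16384)) ^ 2 +
      ((v0 : ℝ) - 16) / 65536 * ((P1 : ℝ) / 16384) ^ 4 =
      (((v00 : ℝ) - 16) * (((P1 : ℝ) * (16384 - P1)) * (536870912 - 3 * (P1 * (16384 - P1)))) +
      ((2 * ((g : ℝ) - 32)) * (((P1 : ℝ) * (16384 - P1)) * (P1 * (16384 - P1))) +
      ((v0 : ℝ) - 16) * (((P1 : ℝ) * P1) * (P1 * P1)))) /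
        4722366482869645213696 := by ring
    have e2 : (P1 : ℝ) / 16384 + 2 / 16384 = (((P1 : ℝ) + 2) * 288230376151711744) /
        4722366482869645213696 := by ring
    rw [e, e2]
    exact div_le_div_of_nonneg_right h7R (by norm_num)

private theorem diff_T4C {b p : ℝ} (h0 : 0.2496 ≤ p) (h1 : p ≤ b) (hb : b ≤ 0.3177) :
    0 ≤ b * (1 - b) - p * (1 - p) ∧ b * (1 - b) - p * (1 - p) ≤ 0.5008 * (b - p) ∧
    b * (1 - b) * (2 - 3 * (b * (1 - b))) - p * (1 - p) * (2 - 3 * (p * (1 - p))) ≤ 0.5 * (b - p) ∧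
    0 ≤ b * (1 - b) * (2 - 3 * (b * (1 - b))) - p * (1 - p) * (2 - 3 * (p * (1 - p))) := by
  have e1 : b * (1 - b) - p * (1 - p) = (b - p) * (1 - b - p) := by ring
  have hz : 0.1872 ≤ p * (1 - p) := by nlinarith
  have hz1 : p * (1 - p) ≤ 1 / 4 := by nlinarith [sq_nonneg (p - 1 / 2)]
  have hzb1 : b * (1 - b) ≤ 1 / 4 := by nlinarith [sq_nonneg (b - 1 / 2)]
  have hd0 : 0 ≤ b * (1 - b) - p * (1 - p) := by
    rw [e1]
    exact mul_nonneg (by linarith) (by linarith)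
  have hd1 : b * (1 - b) - p * (1 - p) ≤ 0.5008 * (b - p) := by
    rw [e1]
    nlinarith
  have e2 : b * (1 - b) * (2 - 3 * (b * (1 - b))) - p * (1 - p) * (2 - 3 * (p * (1 - p))) =
      (b * (1 - b) - p * (1 - p)) * (2 - 3 * (b * (1 - b) + p * (1 - p))) := by ring
  refine ⟨hd0, hd1, ?_, ?_⟩
  · rw [e2]
    have h3 : 2 - 3 * (b * (1 - b) + p * (1 - p)) ≤ 0.88 := by linarith
    calc (b * (1 - b) - p * (1 - p)) * (2 - 3 * (b * (1 - b) + p * (1 - p)))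
        ≤ (b * (1 - b) - p * (1 - p)) * 0.88 := mul_le_mul_of_nonneg_left h3 hd0
      _ ≤ 0.5008 * (b - p) * 0.88 := mul_le_mul_of_nonneg_right hd1 (by norm_num)
      _ ≤ 0.5 * (b - p) := by nlinarith
  · rw [e2]
    exact mul_nonneg hd0 (by linarith)

theorem t4_num0 {P1 v00 v0 g : ℕ} (h : t4Ok P1 v00 v0 g = true) (hP1 : P1 ≤ 5205) (hv00 : v00 ≤ 65536) {p : ℝ} (h0 : 0.2496 ≤ p)
    (h1 : p ≤ (P1 : ℝ) / 16384) :
    p + 1 / 10 ^ 4 ≤ ((v00 : ℝ) - 16) / 65536 * (2 * (p * (1 - p) ^ 3) + p ^ 2 * (1 - p) ^ 2 + 2 * (p ^ 3 * (1 - p))) +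
      ((v0 : ℝ) - 16) / 65536 * (1 - p) ^ 4 := by
  obtain ⟨hg, hv0, hv00', hg3, hv03, hn1, -⟩ := ok_T4C h hP1
  obtain ⟨b, hb⟩ : ∃ b : ℝ, b = (P1 : ℝ) / 16384 := ⟨_, rfl⟩
  rw [← hb] at hn1 h1
  have hb1 : b ≤ 0.3177 := by
    rw [hb, div_le_iff₀ (by norm_num)]
    have : (P1 : ℝ) ≤ 5205 := by exact_mod_cast hP1
    norm_num
    linarith
  obtain ⟨hd0, hd1, hd2, hd3⟩ := diff_T4C h0 h1 hb1
  have hvR : (16 : ℝ) ≤ v00 := by exact_mod_cast hv00'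
  have hvR2 : (v00 : ℝ) ≤ 65536 := by exact_mod_cast hv00
  have hv0R : (16 : ℝ) ≤ v0 := by exact_mod_cast hv0
  obtain ⟨v, hv⟩ : ∃ v : ℝ, v = ((v00 : ℝ) - 16) / 65536 := ⟨_, rfl⟩
  obtain ⟨w, hw⟩ : ∃ w : ℝ, w = ((v0 : ℝ) - 16) / 65536 := ⟨_, rfl⟩
  rw [← hv, ← hw] at hn1 ⊢
  have hv0' : 0 ≤ v := by rw [hv]; apply div_nonneg <;> linarith
  have hv1' : v ≤ 1 := by rw [hv, div_le_one (by norm_num)]; linarith
  have hw0 : 0 ≤ w := by rw [hw]; apply div_nonneg <;> linarith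
  have e : 2 * (p * (1 - p) ^ 3) + p ^ 2 * (1 - p) ^ 2 + 2 * (p ^ 3 * (1 - p)) =
      p * (1 - p) * (2 - 3 * (p * (1 - p))) := by ring
  rw [e]
  have h3 : v * (b * (1 - b) * (2 - 3 * (b * (1 - b))) - p * (1 - p) * (2 - 3 * (p * (1 - p)))) ≤
      1 * (0.5 * (b - p)) := mul_le_mul hv1' hd2 hd3 (by norm_num)
  have h4 : (1 - b) ^ 4 ≤ (1 - p) ^ 4 := pow_le_pow_left₀ (by linarith) (by linarith) 4
  have h5 : w * (1 - b) ^ 4 ≤ w * (1 - p) ^ 4 := mul_le_mul_of_nonneg_left h4 hw0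
  have h6 : v * (b * (1 - b) * (2 - 3 * (b * (1 - b))) - p * (1 - p) * (2 - 3 * (p * (1 - p)))) =
      v * (b * (1 - b) * (2 - 3 * (b * (1 - b)))) - v * (p * (1 - p) * (2 - 3 * (p * (1 - p)))) := by
    ring
  rw [h6] at h3
  norm_num at hn1 h3 ⊢
  linarith

theorem t4_num1 {P1 v00 v0 g : ℕ} (h : t4Ok P1 v00 v0 g = true) (hP1 : P1 ≤ 5205) (hv00 : v00 ≤ 65536) {p : ℝ} (h0 : 0.2496 ≤ p)
    (h1 : p ≤ (P1 : ℝ) / 16384) :
    p + 1 / 10 ^ 4 ≤ ((v00 : ℝ) - 16) / 65536 * (2 * (p * (1 - p) ^ 3) + p ^ 2 * (1 - p) ^ 2 + 2 * (p ^ 3 * (1 - p))) +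
      2 * (((g : ℝ) - 32) / 65536) * (p ^ 2 * (1 - p) ^ 2) + ((v0 : ℝ) - 16) / 65536 * p ^ 4 := by
  obtain ⟨hg, hv0, hv00', hg3, hv03, -, hn1⟩ := ok_T4C h hP1
  obtain ⟨b, hb⟩ : ∃ b : ℝ, b = (P1 : ℝ) / 16384 := ⟨_, rfl⟩
  rw [← hb] at hn1 h1
  have hb1 : b ≤ 0.3177 := by
    rw [hb, div_le_iff₀ (by norm_num)]
    have : (P1 : ℝ) ≤ 5205 := by exact_mod_cast hP1
    norm_num
    linarith
  obtain ⟨hd0, hd1, hd2, hd3⟩ := diff_T4C h0 h1 hb1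
  have hvR : (16 : ℝ) ≤ v00 := by exact_mod_cast hv00'
  have hvR2 : (v00 : ℝ) ≤ 65536 := by exact_mod_cast hv00
  have hv0R : (16 : ℝ) ≤ v0 := by exact_mod_cast hv0
  have hv0R2 : 3 * (v0 : ℝ) ≤ 65536 := by exact_mod_cast hv03
  have hgR : (32 : ℝ) ≤ g := by exact_mod_cast hg
  have hgR2 : 3 * (g : ℝ) ≤ 65536 := by exact_mod_cast hg3
  obtain ⟨v, hv⟩ : ∃ v : ℝ, v = ((v00 : ℝ) - 16) / 65536 := ⟨_, rfl⟩
  obtain ⟨w, hw⟩ : ∃ w : ℝ, w = ((v0 : ℝ) - 16) / 65536 := ⟨_, rfl⟩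
  obtain ⟨u, hu⟩ : ∃ u : ℝ, u = ((g : ℝ) - 32) / 65536 := ⟨_, rfl⟩
  rw [← hv, ← hw, ← hu] at hn1 ⊢
  have hv0' : 0 ≤ v := by rw [hv]; apply div_nonneg <;> linarith
  have hv1' : v ≤ 1 := by rw [hv, div_le_one (by norm_num)]; linarith
  have hw0 : 0 ≤ w := by rw [hw]; apply div_nonneg <;> linarith
  have hw1 : w ≤ 1 / 3 := by rw [hw, div_le_iff₀ (by norm_num)]; linarith
  have hu0 : 0 ≤ u := by rw [hu]; apply div_nonneg <;> linarith
  have hu1 : u ≤ 1 / 3 := by rw [hu, div_le_iff₀ (by norm_num)]; linarith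
  have e : 2 * (p * (1 - p) ^ 3) + p ^ 2 * (1 - p) ^ 2 + 2 * (p ^ 3 * (1 - p)) =
      p * (1 - p) * (2 - 3 * (p * (1 - p))) := by ring
  have e' : p ^ 2 * (1 - p) ^ 2 = (p * (1 - p)) ^ 2 := by ring
  rw [e, e']
  have h3 : v * (b * (1 - b) * (2 - 3 * (b * (1 - b))) - p * (1 - p) * (2 - 3 * (p * (1 - p)))) ≤
      1 * (0.5 * (b - p)) := mul_le_mul hv1' hd2 hd3 (by norm_num)
  have h6 : v * (b * (1 - b) * (2 - 3 * (b * (1 - b))) - p * (1 - p) * (2 - 3 * (p * (1 - p)))) =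
      v * (b * (1 - b) * (2 - 3 * (b * (1 - b)))) - v * (p * (1 - p) * (2 - 3 * (p * (1 - p)))) := by
    ring
  rw [h6] at h3
  -- squares
  have hzb1 : b * (1 - b) ≤ 0.22 := by nlinarith
  have hz1 : p * (1 - p) ≤ 0.22 := by linarith
  have hzp0 : 0 ≤ p * (1 - p) := mul_nonneg (by linarith) (by linarith)
  have hzb0 : 0 ≤ b * (1 - b) := by linarith
  have h7 : (b * (1 - b)) ^ 2 - (p * (1 - p)) ^ 2 ≤ 0.24 * (b - p) := by
    have e3 : (b * (1 - b)) ^ 2 - (p * (1 - p)) ^ 2 =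
        (b * (1 - b) - p * (1 - p)) * (b * (1 - b) + p * (1 - p)) := by ring
    rw [e3]
    calc (b * (1 - b) - p * (1 - p)) * (b * (1 - b) + p * (1 - p))
        ≤ (b * (1 - b) - p * (1 - p)) * 0.44 := mul_le_mul_of_nonneg_left (by linarith) hd0
      _ ≤ 0.5008 * (b - p) * 0.44 := mul_le_mul_of_nonneg_right hd1 (by norm_num)
      _ ≤ 0.24 * (b - p) := by nlinarith
  have h70 : 0 ≤ (b * (1 - b)) ^ 2 - (p * (1 - p)) ^ 2 := by
    have := pow_le_pow_left₀ hzp0 (by linarith : p * (1 - p) ≤ b * (1 - b)) 2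
    linarith
  have h8 : u * ((b * (1 - b)) ^ 2 - (p * (1 - p)) ^ 2) ≤ 1 / 3 * (0.24 * (b - p)) :=
    mul_le_mul hu1 h7 h70 (by norm_num)
  -- fourth powers
  have h9 : b ^ 4 - p ^ 4 ≤ 0.14 * (b - p) := by
    have e4 : b ^ 4 - p ^ 4 = (b - p) * ((b + p) * (b ^ 2 + p ^ 2)) := by ring
    rw [e4]
    have h10 : (b + p) * (b ^ 2 + p ^ 2) ≤ 0.14 := by
      have h11 : b + p ≤ 0.6354 := by linarith
      have hb2 : b ^ 2 ≤ 0.3177 ^ 2 := pow_le_pow_left₀ (by linarith) hb1 2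
      have hp2 : p ^ 2 ≤ 0.3177 ^ 2 := pow_le_pow_left₀ (by linarith) (by linarith) 2
      have h12 : b ^ 2 + p ^ 2 ≤ 0.2019 := by
        norm_num at hb2 hp2 ⊢
        linarith
      calc (b + p) * (b ^ 2 + p ^ 2) ≤ 0.6354 * 0.2019 :=
            mul_le_mul h11 h12 (by positivity) (by norm_num)
        _ ≤ 0.14 := by norm_num
    calc (b - p) * ((b + p) * (b ^ 2 + p ^ 2)) ≤ (b - p) * 0.14 :=
          mul_le_mul_of_nonneg_left h10 (by linarith)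
      _ = _ := by ring
  have h90 : 0 ≤ b ^ 4 - p ^ 4 := by
    have := pow_le_pow_left₀ (by linarith : (0 : ℝ) ≤ p) h1 4
    linarith
  have h10 : w * (b ^ 4 - p ^ 4) ≤ 1 / 3 * (0.14 * (b - p)) := mul_le_mul hw1 h9 h90 (by norm_num)
  have h11 : 2 * u * (b * (1 - b)) ^ 2 - 2 * u * (p * (1 - p)) ^ 2 =
      2 * (u * ((b * (1 - b)) ^ 2 - (p * (1 - p)) ^ 2)) := by ring
  have h12 : w * b ^ 4 - w * p ^ 4 = w * (b ^ 4 - p ^ 4) := by ring
  norm_num at hn1 h3 h8 h10 ⊢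
  linarith

end Pool.Agent.MMS15
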