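import Pool.Agent.MMS15.StarF
import Pool.Agent.MMS15.NonF
import Pool.Agent.MMS15.LowB
import Pool.Agent.MMS15.BaseF
import Pool.Agent.MMS14.BaseF

/-!
# MMS15/TabG: common glue for the tables
-/

set_option autoImplicit false

namespace Pool.Agent.MMS15

open Pool.Agent.MMS14

theorem all_le' {l : List ℕ} {c : ℕ} (h : l.all (fun v => Nat.ble v c) = true) : ∀ v ∈ l, v ≤ c := by
  intro v hv
  exact Nat.le_of_ble_eq_true (List.all_eq_true.mp h v hv)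

theorem top_of' {rows : List ℕ} {tgt r : ℕ} (hr : rowv rows 401 = r)
    (h : et (Nat.ble tgt (Nat.land (Nat.shiftRight r 4032) 4294967295))
      (Nat.ble tgt (Nat.land (Nat.shiftRight r 8096) 4294967295)) = true) :
    tgt ≤ lane (rowv rows 401) 126 ∧ tgt ≤ lane (rowv rows 401) 253 := by
  rw [et_true] at h
  rw [hr]
  exact ⟨Nat.le_of_ble_eq_true h.1, Nat.le_of_ble_eq_true h.2⟩

theorem b1_of {Q0 Q1 : ℕ} {vs ws : List ℕ} {b1s : List S1}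
    (h : b1s.all (fun s => et (b1Ok Q0 Q1 vs ws s) (Nat.ble s.mb 1000000)) = true) :
    ∀ s ∈ b1s, b1Ok Q0 Q1 vs ws s = true ∧ s.mb ≤ 1000000 := by
  intro s hs
  have h1 := List.all_eq_true.mp h s hs
  rw [et_true] at h1
  exact ⟨h1.1, Nat.le_of_ble_eq_true h1.2⟩

theorem b2_of {Q0 Q1 : ℕ} {vs ws : List ℕ} {b2s : List S2}
    (h : b2s.all (fun s => et (b2Ok Q0 Q1 vs ws s) (Nat.ble s.mb 1000000)) = true) :
    ∀ s ∈ b2s, b2Ok Q0 Q1 vs ws s = true ∧ s.mb ≤ 1000000 := by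
  intro s hs
  have h1 := List.all_eq_true.mp h s hs
  rw [et_true] at h1
  exact ⟨h1.1, Nat.le_of_ble_eq_true h1.2⟩

theorem xs_t4 {P0 : ℕ} : ∀ X ∈ t4X, X ∈ t4X ∨ (X = t3X ∧ 5140 ≤ P0) := fun _ h => Or.inl h

theorem xs_nil {P0 : ℕ} : ∀ X ∈ ([] : List XC), X ∈ t4X ∨ (X = t3X ∧ 5140 ≤ P0) := fun _ h => absurd h (List.not_mem_nil)

theorem xs_t34 {P0 : ℕ} (h : 5140 ≤ P0) : ∀ X ∈ t3X :: t4X, X ∈ t4X ∨ (X = t3X ∧ 5140 ≤ P0) := by
  intro X hX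
  rcases List.mem_cons.1 hX with h1 | h1
  · exact Or.inr ⟨h1, h⟩
  · exact Or.inl h1

end Pool.Agent.MMS15
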