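import Pool.Agent.MMS15.TabG
import Pool.Agent.MMS15.TC1
import Pool.Agent.MMS15.TH1

/-!
# MMS15/TabP1: k / n in [4090, 4255] / 2 ^ 14 (glue, complete)
-/

set_option autoImplicit false
set_option maxRecDepth 100000

namespace Pool.Agent.MMS15

open Pool.Agent.MMS14

theorem rowP1 : ∀ r, RowP (rowv TP1.rows r) := rowP_all TP1.len_ok TP1.ends_ok

theorem goodP1 : Good TP1.par.P0 TP1.par.P1 TP1.rows :=
  good_of_checks TP1.par_ok TP1.len_ok TP1.cells1 TP1.cells2 TP1.cells3 TP1.cells4 TP1.cells5 TP1.ends_ok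
    (base_ok (by decide) TP1.err_ok)

theorem vmP1 : ∀ v ∈ TP1.vm, v ≤ 65536 := all_le' (by decide +kernel)

theorem lowP1 : LowOk TP1.par.P0 TP1.par.P1 TP1.vm :=
  low_of (q := TP1.par) (rows := TP1.rows) (vm := TP1.vm) TP1.par_ok TP1.len_ok rowP1 goodP1 TP1.min_ok (by decide +kernel) vmP1

theorem nonP1 : NonP ((((4090 : ℕ) : ℝ) + 0.1) / 16384) ((((4255 : ℕ) : ℝ) - 0.1) / 16384) :=
  nonstar_cell (q := TP1.par) (rows := TP1.rows) (tab := TP1.tab) (vm := TP1.vm) (xs := TC1.xs) (tgt := 17028) TP1.par_ok TP1.len_ok rowP1 goodP1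
    TP1.look_ok lowP1 vmP1 (by decide +kernel) (v00 := 64704) (v0 := 12057) (g := 16288) (by decide +kernel) (by decide +kernel) TP1.pair_ok (by decide +kernel)
    (by decide) (by decide) (xs_nil) rfl TC1.cP_ok TC1.cM_ok (top_of' rfl TP1.top_ok)

theorem lowH1 : StarLowOk TH1.par.P0 TH1.par.P1 TH1.vs :=
  starLow_of (q := TH1.par) (rows := TH1.rows) (tab := TH1.tab) (vs := TH1.vs) TH1.par_ok TH1.len_ok
    (Pool.Agent.MMS14.rowP_all TH1.len_ok TH1.ends_ok)
    (Pool.Agent.MMS14.good_of_checks TH1.par_ok TH1.len_ok TH1.cells1 TH1.cells2 TH1.cells3 TH1.cells4 TH1.cells5 TH1.ends_ok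
      (Pool.Agent.MMS14.base_ok (by decide) TH1.err_ok)) TH1.look_ok TH1.min_ok (by decide +kernel) (all_le' (by decide +kernel))

theorem starP1 : StarP (((4092 : ℕ) : ℝ) / 16384) (((4255 : ℕ) : ℝ) / 16384) :=
  star_cell (q := TP1.par) (rows := TP1.rows) (tab := TP1.tab) TP1.par_ok TP1.len_ok rowP1 goodP1 TP1.look_ok
    (Q0 := 5452) (Q1 := 5750) (vs := TH1.vs) (ws := TH1.ws) lowH1 TH1.vs_len (all_le' (by decide +kernel)) TH1.w_ok (by decide) (by decide) (by decide) TH1.a1_ok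
    (b1_of TH1.b1_ok) ⟨TH1.b1s.getLast (by decide), List.getLast_mem _, by decide +kernel, by decide +kernel, by decide +kernel⟩ (b2_of TH1.b2_ok)
    (ys := TC1.ys1) rfl (tgt := 17028) (sa := 1842) (A := 4092) (B := 4255) (by decide) TC1.cS1_ok (by decide) (by decide) (by decide) (by decide) (by decide) (by decide) (by decide)

end Pool.Agent.MMS15
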