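import Pool.Agent.MMS15.FinDefs
import Pool.Agent.MMS15.NkS
import Pool.Agent.MMS15.SrtE

/-!
# MMS15/Win: from the two regimes to all vectors, `N_k ≤ n < 4 k`

Compare `window` in `MMS14/Fin4`.  `y i = x i - mean x univ`, `sg y univ = 0`; a `k`-set with `0 ≤ sg y S` has `0 ≤ sg x S`, so `cnt y univ k 0 ≤ cnt x univ k 0`, the number of the statement
(`cnt`, `sg` unfold).  `y = 0`: all `C(n, k) ≥ C(n-1, k-1)` sets.  Otherwise there are positive entries; `a0` with the largest `y a0 > 0` (`Finset.exists_max_image`).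
* `ps y 2 (univ.erase a0) ≤ 1.06 y a0 ^ 2`: `hS` for `y / y a0`, `cnt_scale`.
* otherwise `2.06 (y i)² ≤ 2.06 (y a0)² < ps y 2 univ` for all positive entries; `c = max |y i| > 0`, `hN` for `y / c`, `cnt_scale`.
`k / n ∈ [1/4, 0.31768]` by `n < 4 k` and `nk_bounds`; `3 k ≤ n` too.
-/

open Finset Pool.Agent.H36.MMS

set_option autoImplicit false

namespace Pool.Agent.MMS15

theorem window15 (hS : StarP (1 / 4) 0.31768) (hN : NonP (1 / 4) 0.31768) {n k : ℕ} (hk : 10 ^ 26 ≤ k) (hkn : k ≤ n) (hn4 : n < 4 * k)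
    (hNk : (n - 1).choose (k - 1) ≤ (n - 3).choose k) (x : Fin n → ℝ) (hx : 0 ≤ ∑ i, x i) :
    (n - 1).choose (k - 1) ≤
      (((Finset.univ : Finset (Fin n)).powersetCard k).filter (fun s => 0 ≤ ∑ i ∈ s, x i)).card := by
  obtain ⟨hkn3, hp1⟩ := nk_bounds (le_trans (by norm_num) hk) hkn hNk
  have hk0 : 0 < k := lt_of_lt_of_le (by norm_num) hk
  have hn0 : 0 < n := by omega
  have hcard : (univ : Finset (Fin n)).card = n := by simp
  have hnR : (0 : ℝ) < n := by exact_mod_cast hn0
  have hp0 : (1 / 4 : ℝ) ≤ (k : ℝ) / n := by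
    rw [div_le_div_iff₀ (by norm_num) hnR]
    have h4 : (n : ℝ) < 4 * k := by exact_mod_cast hn4
    linarith
  have hm : 0 ≤ mean x univ := div_nonneg hx (Nat.cast_nonneg _)
  have hsum : sg (zc x univ) univ = 0 := by
    rw [← ps_one]
    exact ps_zc_one x univ (by rw [hcard]; exact hn0)
  have hle : cnt (zc x univ) univ k 0 ≤
      (((Finset.univ : Finset (Fin n)).powersetCard k).filter (fun s => 0 ≤ ∑ i ∈ s, x i)).card := by
    unfold cnt
    apply card_le_card
    intro S hS
    rw [mem_filter] at hS ⊢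
    refine ⟨hS.1, ?_⟩
    have h1 := hS.2
    rw [sg_zc] at h1
    have h2 : 0 ≤ (S.card : ℝ) * mean x univ := mul_nonneg (Nat.cast_nonneg _) hm
    change 0 ≤ sg x S
    linarith
  refine le_trans ?_ hle
  generalize zc x univ = y at hsum hle ⊢
  have hsg : ∀ c : ℝ, sg (fun j => y j / c) univ = 0 := by
    intro c
    have h3 : sg (fun j => y j / c) univ = sg y univ / c := by
      unfold sg
      rw [sum_div]
    rw [h3, hsum, zero_div]
  have hps : ∀ (c : ℝ) (S : Finset (Fin n)), ps (fun j => y j / c) 2 S = ps y 2 S / c ^ 2 := by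
    intro c S
    unfold ps
    rw [sum_div]
    exact sum_congr rfl fun j _ => div_pow _ _ _
  by_cases hy : ∀ i, y i = 0
  · unfold cnt
    rw [filter_true_of_mem, card_powersetCard, hcard]
    · obtain ⟨m, rfl⟩ : ∃ m, n = m + 1 := ⟨n - 1, by omega⟩
      obtain ⟨j, rfl⟩ : ∃ j, k = j + 1 := ⟨k - 1, by omega⟩
      rw [Nat.add_sub_cancel, Nat.add_sub_cancel, Nat.choose_succ_succ']
      exact Nat.le_add_right _ _
    · intro S _
      unfold sg
      exact sum_nonneg fun i _ => (hy i).ge
  · rw [not_forall] at hy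
    obtain ⟨i1, hi1⟩ := hy
    obtain ⟨a0, -, ha0⟩ := exists_max_image univ y ⟨i1, mem_univ _⟩
    have hpos : 0 < y a0 := by
      by_contra hneg
      rw [not_lt] at hneg
      have hall : ∀ i ∈ (univ : Finset (Fin n)), y i ≤ 0 := fun i hi => (ha0 i hi).trans hneg
      exact hi1 ((sum_eq_zero_iff_of_nonpos hall).1 hsum i1 (mem_univ _))
    by_cases hst : ps y 2 (univ.erase a0) ≤ 1.06 * y a0 ^ 2
    · have h1 := hS n k hk (by omega) hp0 hp1 (fun j => y j / y a0) a0 (div_self hpos.ne')
        (fun i => (div_le_one hpos).2 (ha0 i (mem_univ _))) (hsg _)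
        (by rw [hps, div_le_iff₀ (by positivity)]; exact hst)
      rwa [cnt_scale y hpos] at h1
    · rw [not_le] at hst
      obtain ⟨a1, -, ha1⟩ := exists_max_image univ (fun i => |y i|) ⟨i1, mem_univ _⟩
      have hc : 0 < |y a1| := (abs_pos.2 hi1).trans_le (ha1 i1 (mem_univ _))
      have hsplit : ps y 2 univ = y a0 ^ 2 + ps y 2 (univ.erase a0) := by
        unfold ps
        exact (add_sum_erase univ (fun i => y i ^ 2) (mem_univ a0)).symm
      have h1 := hN n k hk (by omega) hp0 hp1 hNk (fun j => y j / |y a1|) a1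
        (by
          show abs (y a1 / abs (y a1)) = 1
          rw [abs_div, abs_abs, div_self hc.ne'])
        (fun i => by
          show abs (y i / abs (y a1)) ≤ 1
          rw [abs_div, abs_abs]
          exact (div_le_one hc).2 (ha1 i (mem_univ _)))
        (hsg _)
        (fun i hi => by
          have hyi : 0 < y i := by
            have := mul_pos hi hc
            simpa only [div_mul_cancel₀ _ hc.ne'] using this
          have h5 : y i ^ 2 ≤ y a0 ^ 2 := pow_le_pow_left₀ hyi.le (ha0 i (mem_univ _)) 2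
          rw [hps]
          show 2.06 * (y i / |y a1|) ^ 2 < _
          rw [div_pow, ← mul_div_assoc]
          refine div_lt_div_of_pos_right ?_ (by positivity)
          rw [hsplit]
          linarith)
      rwa [cnt_scale y hc] at h1

end Pool.Agent.MMS15
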